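import Mathlib

/-!
# Project HBP: asymptotics

From a bound with a parameter `x` (all large `x`, all `n` with
`C₁ x^4 (log x)^p₁ ≤ log n ≤ x^5`) to the bound in terms of `n`: take
`x = ⌊(log n / (C₁ (log log n)^p₁))^(1/4)⌋`.
-/

namespace Pool.Agent.Lib.HBP

open Filter Topology

theorem tendsto_div_log_pow (C₁ : ℝ) (hC₁ : 0 < C₁) (p : ℕ) :
    Tendsto (fun x : ℝ => x / (C₁ * Real.log x ^ p)) atTop atTop := by
  have h1 : Tendsto (fun x : ℝ => Real.log x ^ p / x) atTop (𝓝 0) := by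
    have := Real.tendsto_pow_log_div_mul_add_atTop 1 0 p one_ne_zero
    simpa using this
  have h2 : Tendsto (fun x : ℝ => C₁ * (Real.log x ^ p / x)) atTop (𝓝[>] 0) := by
    rw [tendsto_nhdsWithin_iff]
    refine ⟨by simpa using h1.const_mul C₁, ?_⟩
    filter_upwards [eventually_gt_atTop (1 : ℝ)] with x hx
    have : 0 < Real.log x := Real.log_pos hx
    have hx0 : 0 < x := by linarith
    exact mul_pos hC₁ (div_pos (pow_pos this _) hx0)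
  have h3 := h2.inv_tendsto_nhdsGT_zero
  refine h3.congr fun x => ?_
  simp only [Pi.inv_apply]
  rw [← mul_div_assoc, inv_div]

/-- The choice of the parameter `x`. -/
theorem asym (p₁ p₂ p₃ : ℕ) (hp : 4 * p₂ + 3 * p₁ ≤ 4 * p₃) (C₁ C₂ : ℝ) (hC₁ : 1 ≤ C₁)
    (hC₂ : 0 ≤ C₂) (P : ℕ → ℝ → Prop)
    (hmono : ∀ n x y, P n x → x ≤ y → P n y)
    (H : ∃ x₀ : ℕ, ∀ x : ℕ, x₀ ≤ x → ∀ n : ℕ, C₁ * (x : ℝ) ^ 4 * Real.log x ^ p₁ ≤ Real.log n →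
      Real.log n ≤ (x : ℝ) ^ 5 → P n (C₂ * Real.log x ^ p₂ * n / (x : ℝ) ^ 3)) :
    ∃ n₀ : ℕ, ∀ n : ℕ, n₀ ≤ n →
      P n (8 * C₂ * C₁ * n * Real.log (Real.log n) ^ p₃ / Real.log n ^ ((3 : ℝ) / 4)) := by
  obtain ⟨h₀, hH⟩ := H
  have hC₁0 : 0 < C₁ := by linarith
  -- limits
  have hlog : Tendsto (fun n : ℕ => Real.log (n : ℝ)) atTop atTop :=
    Real.tendsto_log_atTop.comp tendsto_natCast_atTop_atTop
  have hX : Tendsto (fun n : ℕ => Real.log (n : ℝ) / (C₁ * Real.log (Real.log (n : ℝ)) ^ p₁))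
      atTop atTop := (tendsto_div_log_pow C₁ hC₁0 p₁).comp hlog
  have hX5 : Tendsto (fun n : ℕ => Real.log (n : ℝ) /
      ((32 * C₁) ^ 4 * C₁ * Real.log (Real.log (n : ℝ)) ^ (5 * p₁)))
      atTop atTop := (tendsto_div_log_pow ((32 * C₁) ^ 4 * C₁) (by positivity) (5 * p₁)).comp hlog
  have hll : Tendsto (fun n : ℕ => Real.log (Real.log (n : ℝ))) atTop atTop :=
    Real.tendsto_log_atTop.comp hlog
  have hev := (((hX.eventually_ge_atTop ((h₀ + 2 : ℝ) ^ 4)).and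
    (hll.eventually_ge_atTop 1)).and (hlog.eventually_ge_atTop 1)).and
    (hX5.eventually_ge_atTop 1)
  rw [eventually_atTop] at hev
  obtain ⟨n₀, hn₀⟩ := hev
  refine ⟨n₀, fun n hn => ?_⟩
  obtain ⟨⟨⟨h1, h2⟩, h3⟩, hx5⟩ := hn₀ n hn
  set T : ℝ := Real.log (n : ℝ) with hT
  set LL : ℝ := Real.log T with hLL
  set X : ℝ := T / (C₁ * LL ^ p₁) with hXdef
  have hLL0 : 0 < LL := by linarith
  have hT0 : 0 < T := by linarith
  have hX0 : 0 ≤ X := by positivity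
  set y : ℝ := X ^ ((1 : ℝ) / 4) with hy
  have hy0 : 0 ≤ y := Real.rpow_nonneg hX0 _
  have hy4 : y ^ 4 = X := by
    rw [hy, ← Real.rpow_natCast, ← Real.rpow_mul hX0]; norm_num
  have hyge : (h₀ + 2 : ℝ) ≤ y := by
    by_contra hlt
    push Not at hlt
    have : y ^ 4 < (h₀ + 2 : ℝ) ^ 4 := by gcongr
    rw [hy4] at this
    linarith
  set h : ℕ := ⌊y⌋₊ with hh
  have hhy : (h : ℝ) ≤ y := Nat.floor_le hy0
  have hyh : y < h + 1 := Nat.lt_floor_add_one y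
  have hh0 : (h₀ + 1 : ℝ) < h := by linarith
  have hhh0 : h₀ ≤ h := by
    have : (h₀ : ℝ) < h := by linarith
    exact_mod_cast this.le
  have hh1 : (1 : ℝ) < h := by
    have : (0 : ℝ) ≤ h₀ := Nat.cast_nonneg _
    linarith
  have hhalf : y / 2 ≤ h := by linarith
  -- `h ≤ T`, hence `log h ≤ log log n`
  have hhT : (h : ℝ) ≤ T := by
    have h5 : (h : ℝ) ≤ (h : ℝ) ^ 4 := by
      calc (h : ℝ) = (h : ℝ) ^ 1 := (pow_one _).symm
        _ ≤ (h : ℝ) ^ 4 := pow_le_pow_right₀ hh1.le (by norm_num)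
    have h6 : (h : ℝ) ^ 4 ≤ X := by rw [← hy4]; gcongr
    have h7 : X ≤ T := by
      rw [hXdef, div_le_iff₀ (by positivity)]
      have : 1 ≤ C₁ * LL ^ p₁ := by
        have := one_le_pow₀ (n := p₁) h2
        nlinarith
      nlinarith
    linarith
  have hlogh : Real.log h ≤ LL := Real.log_le_log (by linarith) hhT
  have hlogh0 : 0 ≤ Real.log h := Real.log_nonneg hh1.le
  have hcond : C₁ * (h : ℝ) ^ 4 * Real.log h ^ p₁ ≤ T := by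
    have h6 : (h : ℝ) ^ 4 ≤ X := by rw [← hy4]; gcongr
    calc C₁ * (h : ℝ) ^ 4 * Real.log h ^ p₁ ≤ C₁ * X * LL ^ p₁ := by gcongr
      _ = T := by rw [hXdef]; field_simp
  have hTX : T = C₁ * LL ^ p₁ * y ^ 4 := by
    rw [hy4, hXdef]; field_simp
  have hcond2 : T ≤ (h : ℝ) ^ 5 := by
    -- `32 C₁ LL^p₁ ≤ y`
    have h5 : (32 * C₁ * LL ^ p₁) ^ 4 ≤ y ^ 4 := by
      rw [hy4, hXdef, le_div_iff₀ (by positivity)]
      rw [le_div_iff₀ (by positivity), one_mul] at hx5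
      refine le_trans (le_of_eq ?_) hx5
      rw [mul_comm 5 p₁, pow_mul]
      ring
    have h6 : 32 * C₁ * LL ^ p₁ ≤ y := le_of_pow_le_pow_left₀ (by norm_num) hy0 h5
    have h7 : y ≤ 2 * h := by linarith
    have h8 : C₁ * LL ^ p₁ ≤ h / 16 := by linarith
    calc T = C₁ * LL ^ p₁ * y ^ 4 := hTX
      _ ≤ h / 16 * (2 * h) ^ 4 := by gcongr
      _ = (h : ℝ) ^ 5 := by ring
  refine hmono _ _ _ (hH h hhh0 n hcond hcond2) ?_
  -- comparison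
  have hn0 : (0 : ℝ) ≤ n := Nat.cast_nonneg _
  have hypos : 0 < y := by
    have : (0 : ℝ) ≤ h₀ := Nat.cast_nonneg _
    linarith
  have hy3 : y ^ 3 = X ^ ((3 : ℝ) / 4) := by
    rw [hy, ← Real.rpow_natCast, ← Real.rpow_mul hX0]; norm_num
  have h8 : y ^ 3 / 8 ≤ (h : ℝ) ^ 3 := by
    calc y ^ 3 / 8 = (y / 2) ^ 3 := by ring
      _ ≤ (h : ℝ) ^ 3 := by gcongr
  have hTp : 0 < T ^ ((3 : ℝ) / 4) := Real.rpow_pos_of_pos hT0 _
  set Z : ℝ := (C₁ * LL ^ p₁) ^ ((3 : ℝ) / 4) with hZ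
  have hZ0 : 0 < Z := Real.rpow_pos_of_pos (by positivity) _
  have hXpow : X ^ ((3 : ℝ) / 4) = T ^ ((3 : ℝ) / 4) / Z := by
    rw [hXdef, Real.div_rpow hT0.le (by positivity)]
  have h10 : T ^ ((3 : ℝ) / 4) / (8 * Z) ≤ (h : ℝ) ^ 3 := by
    calc T ^ ((3 : ℝ) / 4) / (8 * Z) = T ^ ((3 : ℝ) / 4) / Z / 8 := by
          rw [div_div]; ring
      _ = y ^ 3 / 8 := by rw [hy3, hXpow]
      _ ≤ _ := h8
  have hZle : LL ^ p₂ * Z ≤ C₁ * LL ^ p₃ := by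
    have e1 : Z = C₁ ^ ((3 : ℝ) / 4) * LL ^ ((p₁ : ℝ) * (3 / 4)) := by
      rw [hZ, Real.mul_rpow hC₁0.le (by positivity), ← Real.rpow_natCast LL p₁,
        ← Real.rpow_mul hLL0.le]
    have e2 : C₁ ^ ((3 : ℝ) / 4) ≤ C₁ := by
      calc C₁ ^ ((3 : ℝ) / 4) ≤ C₁ ^ (1 : ℝ) :=
            Real.rpow_le_rpow_of_exponent_le hC₁ (by norm_num)
        _ = C₁ := Real.rpow_one _
    have e3 : LL ^ p₂ * LL ^ ((p₁ : ℝ) * (3 / 4)) ≤ LL ^ p₃ := by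
      rw [← Real.rpow_natCast LL p₂, ← Real.rpow_add hLL0, ← Real.rpow_natCast LL p₃]
      apply Real.rpow_le_rpow_of_exponent_le h2
      have : (4 * p₂ + 3 * p₁ : ℝ) ≤ 4 * p₃ := by exact_mod_cast hp
      linarith
    rw [e1]
    calc LL ^ p₂ * (C₁ ^ ((3 : ℝ) / 4) * LL ^ ((p₁ : ℝ) * (3 / 4)))
        = C₁ ^ ((3 : ℝ) / 4) * (LL ^ p₂ * LL ^ ((p₁ : ℝ) * (3 / 4))) := by ring
      _ ≤ C₁ * LL ^ p₃ := by
          apply mul_le_mul e2 e3 _ hC₁0.le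
          exact mul_nonneg (by positivity) (Real.rpow_nonneg hLL0.le _)
  calc C₂ * Real.log h ^ p₂ * n / (h : ℝ) ^ 3 ≤ C₂ * LL ^ p₂ * n / (h : ℝ) ^ 3 := by gcongr
    _ ≤ C₂ * LL ^ p₂ * n / (T ^ ((3 : ℝ) / 4) / (8 * Z)) := by
        apply div_le_div_of_nonneg_left (by positivity) (by positivity) h10
    _ = 8 * C₂ * n * (LL ^ p₂ * Z) / T ^ ((3 : ℝ) / 4) := by
        field_simp
    _ ≤ 8 * C₂ * n * (C₁ * LL ^ p₃) / T ^ ((3 : ℝ) / 4) := by gcongr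
    _ = 8 * C₂ * C₁ * n * LL ^ p₃ / T ^ ((3 : ℝ) / 4) := by ring

end Pool.Agent.Lib.HBP
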