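import Mathlib

/-!
# Project HBP (MP_70146a_co, harmonic alternating paths), part B: the upper bound
`n (log log n)^5 / (log n)^(3/4)`.  Basic definitions.

ANALYSIS.  `kap V` = sum of hat functions of width one at the integer points `c ∈ V`; `Th V` = its
one-sided half derivative `∫ kap'(v - t) t^(-1/2) dt`; `Ps V` = antiderivative of `Th V`;
`Ph h V x v = (h/√2) ∫ kap'(v - t) (π - 2 arctan (x/(h√(2t)))) dt`, which satisfies
`(∂_x - (x/h^2) ∂_v) Ph = - Th` and `Ph h V 0 v = (π/√2) h kap V v`.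
`psi` measures the energy of the slopes.

COMBINATORICS.  A block has `L` children of size `b`; child `x` has height interval
`[A x, A (x+1))` (shifted by the offset of the block), row `σ x`, and range
`[A x + σ x * b, A (x+1) + (σ x + 1) * b)`.
-/

namespace Pool.Agent.Lib.HBP

open Finset

noncomputable section

/-- Hat function of width one. -/
def hat (u : ℝ) : ℝ := max 0 (1 - |u|)

/-- Sum of hats. -/
def kap (V : Finset ℤ) (v : ℝ) : ℝ := ∑ c ∈ V, hat (v - c)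

/-- One-sided half derivative of the hat. -/
def th0 (u : ℝ) : ℝ := 2 * (√(u + 1) - 2 * √u + √(u - 1))

/-- One-sided half derivative of `kap V`. -/
def Th (V : Finset ℤ) (v : ℝ) : ℝ := ∑ c ∈ V, th0 (v - c)

/-- Antiderivative of `th0`. -/
def ps0 (u : ℝ) : ℝ := 4 / 3 * ((u + 1) * √(u + 1) - 2 * (u * √u) + (u - 1) * √(u - 1))

/-- Antiderivative of `Th V`. -/
def Ps (V : Finset ℤ) (v : ℝ) : ℝ := ∑ c ∈ V, ps0 (v - c)

/-- `∫ s in 0..t, Af h x s`. -/
def Bf (h x t : ℝ) : ℝ :=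
  if 0 < t then
    (x ^ 2 / h ^ 2 + 2 * t) * (Real.pi / 2 - Real.arctan (x / (h * √(2 * t)))) - x / h * √(2 * t)
  else 0

/-- The derivative of `Bf` in `t`. -/
def Af (h x t : ℝ) : ℝ := if 0 < t then Real.pi - 2 * Real.arctan (x / (h * √(2 * t))) else 0

/-- The potential of the transport identity. -/
def Ph (h : ℝ) (V : Finset ℤ) (x v : ℝ) : ℝ :=
  h / √2 * ∑ c ∈ V, (Bf h x (v - c + 1) - 2 * Bf h x (v - c) + Bf h x (v - c - 1))

/-- Every window of `w` integers contains at most `N` points of `V`. -/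
def Sparse (V : Finset ℤ) (w N : ℕ) : Prop :=
  ∀ z : ℤ, (V.filter fun c => z ≤ c ∧ c < z + w).card ≤ N

/-- Energy density. -/
def psi (u : ℝ) : ℝ := (u - 1) ^ 2 / max 1 u

/-- Entropy-like energy function of the slope. -/
def eta (K lam : ℝ) : ℝ := Real.log (lam + 1 / K) + lam * Real.log (1 + K / lam)

/-- Its derivative. -/
def deta (K lam : ℝ) : ℝ := 1 / (lam + 1 / K) + Real.log (1 + K / lam) - K / (lam + K)

/-- The concave function of the load. -/
def GG (H x : ℝ) : ℝ := if x ≤ H then x * (1 + Real.log (H / x)) else H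

/-- Its derivative. -/
def GP (H x : ℝ) : ℝ := if x ≤ H then Real.log (H / x) else 0

/-- Its Bregman distance. -/
def Bg (H x y : ℝ) : ℝ := GG H x + GP H x * (y - x) - GG H y

/-- Number of steps of an arc. -/
def Mh (h a : ℕ) : ℕ := h ^ 2 * a / 2

/-- Rounded parabola: `Nl h a l = 33 h^2 a / 2 - l - ⌈64 l^2 / (a h^2)⌉`. -/
def Nl (h a l : ℕ) : ℕ := 33 * h ^ 2 * a / 2 - l - (64 * l ^ 2 + a * h ^ 2 - 1) / (a * h ^ 2)

/-- Columns of an arc. -/
def al (a0 u1 l : ℕ) : ℕ := a0 + 16 * u1 * l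

/-- Rows of an arc. -/
def be (b0 u2 h a l : ℕ) : ℕ := b0 + 2 * u2 * Nl h a l

/-- Sum of `φ` over the integers of `[lo, hi)`. -/
def isum (φ : ℕ → ℝ) (lo hi : ℕ) : ℝ := ∑ v ∈ Finset.Ico lo hi, φ v

/-- Sum of `φ` over the range of child `x` in row `r`. -/
def csum (φ : ℕ → ℝ) (A : ℕ → ℕ) (b x r : ℕ) : ℝ := isum φ (A x + r * b) (A (x + 1) + (r + 1) * b)

/-- Effect of an arc on `∑ φ`: column `al l` goes to row `be l`, column `be l` to row `al (M - l)`. -/
def arcD (φ : ℕ → ℝ) (A : ℕ → ℕ) (b : ℕ) (al be : ℕ → ℕ) (M : ℕ) : ℝ :=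
  ∑ l ∈ range (M + 1), (csum φ A b (al l) (be l) + csum φ A b (be l) (al (M - l)) -
    csum φ A b (al l) (al l) - csum φ A b (be l) (be l))

/-- Relative slope of child `x` in a block of slope `lam`. -/
def du (A : ℕ → ℕ) (b : ℕ) (lam : ℝ) (x : ℕ) : ℝ := ((A (x + 1) : ℝ) - A x) / (b * lam)

/-- Energy seen by an arc. -/
def arcE (A : ℕ → ℕ) (b : ℕ) (lam : ℝ) (a u1 u2 : ℕ) (al be : ℕ → ℕ) (M : ℕ) : ℝ :=
  1 / a * ∑ l ∈ range (M + 1), (psi (du A b lam (al l)) + psi (du A b lam (be l))) +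
  1 / (u1 * a) * ∑ x ∈ Finset.Ico (al 0) (al M), psi (du A b lam x) +
  1 / (u2 * a) * ∑ x ∈ Finset.Ico (be M) (be 0), psi (du A b lam x)

/-- Index of the tangency point of an arc for a block of slope `lam`. -/
def lst (h a : ℕ) (lamh : ℝ) : ℕ := ⌈(a : ℝ) * (h ^ 2 * (lamh - 1 / 8)) / 16⌉₊

end

end Pool.Agent.Lib.HBP
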