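import Mathlib
import Pool.Agent.Lib.HBP.Defs

/-!
MODULE BfBasic: the functions `Af h x t = π - 2 arctan (x/(h√(2t)))` (`t > 0`), `0` (`t ≤ 0`) and `Bf`.

PROOF.  For `t > 0`, `x > 0`: `π - 2 arctan (x/(h√(2t))) = 2 arctan (h√(2t)/x)`
(`Real.arctan_inv_of_pos`).  `Bf` at `t > 0`: product rule, `∂_t Bf = π - 2 arctan (x/(h√(2t)))`
(the other two terms cancel).  At `t = 0` (`x > 0`): `0 ≤ Bf h x t ≤ t Af h x t ≤ t (2 √2 h √t/x)` for `t > 0`
(`arctan z ≤ z`), so the derivative is `0 = Af h x 0`.  (`0 ≤ Bf ≤ t Af` from the mean value theorem, or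
`Bf = (x²/h²)((1+z²) arctan z - z)`, `z = h√(2t)/x`, and `z/(1+z²) ≤ arctan z ≤ z`.)
`Af` is monotone in `t` with values in `[0, π]`.
Derivative of `Af` for `t > 0`: `Nn = √2 h x/(√t (2h²t + x²))`, decreasing in `t`, at most
`√2 h/(x √t)` and at most `x/(√2 h t √t)`.  So `Af` is concave on `[0, ∞)` (continuous at `0` for `x > 0`).
`Af_incr_le`: for `t ≤ 0` the increment over `[t, t+1]` is `Af (t+1) ≤ Af 1` (monotone); for `t ≥ 0` concavity:
`Af (t+1) - Af t ≤ Af 1 - Af 0 = Af 1 ≤ 2 h √2/x`.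
`Bf_zero`: `Bf h 0 t = π t` for `t > 0`.
-/

namespace Pool.Agent.Lib.HBP

private theorem bfb_half {h x t : ℝ} (hh : 0 < h) (hx : 0 < x) (ht : 0 < t) :
    Real.pi / 2 - Real.arctan (x / (h * √(2 * t))) = Real.arctan (h * √(2 * t) / x) := by
  have hs : 0 < √(2 * t) := Real.sqrt_pos.2 (by linarith)
  have h1 : 0 < x / (h * √(2 * t)) := div_pos hx (mul_pos hh hs)
  rw [← Real.arctan_inv_of_pos h1, inv_div]

private theorem bfb_Af {h x : ℝ} (hh : 0 < h) (hx : 0 < x) (t : ℝ) :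
    Af h x t = 2 * Real.arctan (h * √(2 * t) / x) := by
  unfold Af
  split_ifs with ht
  · rw [← bfb_half hh hx ht]; ring
  · have h1 : √(2 * t) = 0 := Real.sqrt_eq_zero_of_nonpos (by linarith [not_lt.1 ht])
    rw [h1]; simp

private theorem bfb_Bf {h x : ℝ} (hh : 0 < h) (hx : 0 < x) (t : ℝ) :
    Bf h x t = (x ^ 2 / h ^ 2 + 2 * t) * Real.arctan (h * √(2 * t) / x) - x / h * √(2 * t) := by
  unfold Bf
  split_ifs with ht
  · rw [← bfb_half hh hx ht]
  · have h1 : √(2 * t) = 0 := Real.sqrt_eq_zero_of_nonpos (by linarith [not_lt.1 ht])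
    rw [h1]; simp

private theorem bfb_sqrt {t : ℝ} (ht : 0 < t) :
    HasDerivAt (fun u : ℝ => √(2 * u)) (1 / √(2 * t)) t := by
  have h1 : HasDerivAt (fun u : ℝ => 2 * u) 2 t := by
    simpa using (hasDerivAt_id t).const_mul 2
  have h2 := h1.sqrt (by positivity : (2 : ℝ) * t ≠ 0)
  have hs : √(2 * t) ≠ 0 := (Real.sqrt_pos.2 (by linarith)).ne'
  have e : (2 : ℝ) / (2 * √(2 * t)) = 1 / √(2 * t) := by
    field_simp
  rwa [e] at h2

private theorem bfb_arc {h x t : ℝ} (ht : 0 < t) :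
    HasDerivAt (fun u : ℝ => Real.arctan (h * √(2 * u) / x))
      (1 / (1 + (h * √(2 * t) / x) ^ 2) * (h * (1 / √(2 * t)) / x)) t := by
  have h1 : HasDerivAt (fun u : ℝ => h * √(2 * u) / x) (h * (1 / √(2 * t)) / x) t :=
    ((bfb_sqrt ht).const_mul h).div_const x
  exact h1.arctan

private theorem bfb_dAf {h x t : ℝ} (hh : 0 < h) (hx : 0 < x) (ht : 0 < t) :
    HasDerivAt (Af h x) (√2 * h * x / (√t * (2 * h ^ 2 * t + x ^ 2))) t := by
  have h0 : Af h x = fun u => 2 * Real.arctan (h * √(2 * u) / x) := funext (bfb_Af hh hx)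
  rw [h0]
  have h1 := (bfb_arc (h := h) (x := x) ht).const_mul 2
  have hs2 : √(2 * t) = √2 * √t := Real.sqrt_mul (by norm_num) t
  have h2 : 0 < √2 := Real.sqrt_pos.2 (by norm_num)
  have h3 : 0 < √t := Real.sqrt_pos.2 ht
  have h4 : √2 ^ 2 = 2 := Real.sq_sqrt (by norm_num)
  have h5 : √t ^ 2 = t := Real.sq_sqrt ht.le
  have e : 2 * (1 / (1 + (h * √(2 * t) / x) ^ 2) * (h * (1 / √(2 * t)) / x)) =
      √2 * h * x / (√t * (2 * h ^ 2 * t + x ^ 2)) := by
    rw [hs2]
    have e1 : (h * (√2 * √t) / x) ^ 2 = 2 * h ^ 2 * t / x ^ 2 := by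
      rw [div_pow, mul_pow, mul_pow, h4, h5]; ring
    rw [e1]
    have e2 : 1 + 2 * h ^ 2 * t / x ^ 2 = (2 * h ^ 2 * t + x ^ 2) / x ^ 2 := by
      field_simp; ring
    rw [e2]
    have e3 : (1 : ℝ) / √2 = √2 / 2 := by
      rw [div_eq_div_iff h2.ne' (by norm_num)]
      nlinarith [h4]
    have e4 : (1 : ℝ) / (√2 * √t) = (√2 / 2) * (1 / √t) := by
      rw [← e3, one_div_mul_one_div]
    rw [e4]
    have h6 : 0 < 2 * h ^ 2 * t + x ^ 2 := by positivity
    field_simp
  rwa [e] at h1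

theorem hasDerivAt_Bf {h x : ℝ} (hh : 0 < h) (hx : 0 < x) (t : ℝ) :
    HasDerivAt (Bf h x) (Af h x t) t := by
  have hB : Bf h x = fun t => (x ^ 2 / h ^ 2 + 2 * t) * Real.arctan (h * √(2 * t) / x) -
      x / h * √(2 * t) := funext (bfb_Bf hh hx)
  have hA : Af h x = fun t => 2 * Real.arctan (h * √(2 * t) / x) := funext (bfb_Af hh hx)
  have cs : Continuous fun t : ℝ => √(2 * t) := Real.continuous_sqrt.comp (continuous_const.mul continuous_id)
  have ca : Continuous fun t : ℝ => Real.arctan (h * √(2 * t) / x) :=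
    Real.continuous_arctan.comp ((continuous_const.mul cs).div_const x)
  have hBc : Continuous (Bf h x) := by
    rw [hB]
    exact ((continuous_const.add (continuous_const.mul continuous_id)).mul ca).sub
      (continuous_const.mul cs)
  have hAc : Continuous (Af h x) := by
    rw [hA]
    exact continuous_const.mul ca
  have key : ∀ u : ℝ, u ≠ 0 → HasDerivAt (Bf h x) (Af h x u) u := by
    intro u hu
    rcases lt_or_gt_of_ne hu with hu | hu
    · have e1 : Af h x u = 0 := by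
        unfold Af
        rw [if_neg (by linarith)]
      rw [e1]
      have e2 : Bf h x =ᶠ[nhds u] fun _ => (0 : ℝ) := by
        filter_upwards [eventually_lt_nhds hu] with v hv
        unfold Bf
        rw [if_neg (by linarith)]
      exact (hasDerivAt_const u (0 : ℝ)).congr_of_eventuallyEq e2
    · rw [bfb_Af hh hx, hB]
      have d1 := bfb_arc (h := h) (x := x) hu
      have d2 := bfb_sqrt hu
      have d3 : HasDerivAt (fun u : ℝ => x ^ 2 / h ^ 2 + 2 * u) 2 u := by
        simpa using ((hasDerivAt_id u).const_mul (2 : ℝ)).const_add (x ^ 2 / h ^ 2)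
      have d4 := (d3.mul d1).sub (d2.const_mul (x / h))
      have hs : 0 < √(2 * u) := Real.sqrt_pos.2 (by linarith)
      have hs2 : √(2 * u) ^ 2 = 2 * u := Real.sq_sqrt (by linarith)
      have e : 2 * Real.arctan (h * √(2 * u) / x) + (x ^ 2 / h ^ 2 + 2 * u) *
          (1 / (1 + (h * √(2 * u) / x) ^ 2) * (h * (1 / √(2 * u)) / x)) -
          x / h * (1 / √(2 * u)) = 2 * Real.arctan (h * √(2 * u) / x) := by
        have e1 : (h * √(2 * u) / x) ^ 2 = 2 * h ^ 2 * u / x ^ 2 := by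
          rw [div_pow, mul_pow, hs2]; ring
        have h6 : 0 < 2 * h ^ 2 * u + x ^ 2 := by positivity
        have e2 : (x ^ 2 / h ^ 2 + 2 * u) * (1 / (1 + 2 * h ^ 2 * u / x ^ 2)) = x ^ 2 / h ^ 2 := by
          have e3 : 1 + 2 * h ^ 2 * u / x ^ 2 = (2 * h ^ 2 * u + x ^ 2) / x ^ 2 := by
            field_simp; ring
          rw [e3]
          field_simp
          ring
        rw [e1, ← mul_assoc (x ^ 2 / h ^ 2 + 2 * u), e2]
        field_simp
        ring
      rw [← e]
      exact d4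
  rcases eq_or_ne t 0 with rfl | ht
  · exact hasDerivAt_of_hasDerivAt_of_ne key hBc.continuousAt hAc.continuousAt
  · exact key t ht

theorem Bf_zero {h : ℝ} (hh : 0 < h) (t : ℝ) : Bf h 0 t = Real.pi * max 0 t := by
  have _ := hh
  unfold Bf
  split_ifs with ht
  · rw [max_eq_right ht.le]
    simp
    ring
  · rw [max_eq_left (not_lt.1 ht)]; simp

theorem Af_nonneg {h x : ℝ} (hh : 0 < h) (hx : 0 ≤ x) (t : ℝ) : 0 ≤ Af h x t := by
  have _ := hh
  have _ := hx
  unfold Af
  split_ifs with ht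
  · have := Real.arctan_lt_pi_div_two (x / (h * √(2 * t)))
    linarith
  · exact le_refl _

theorem Af_le_pi {h x : ℝ} (hh : 0 < h) (hx : 0 ≤ x) (t : ℝ) : Af h x t ≤ Real.pi := by
  unfold Af
  split_ifs with ht
  · have h1 : 0 ≤ Real.arctan (x / (h * √(2 * t))) := by
      rw [Real.arctan_nonneg]
      exact div_nonneg hx (mul_nonneg hh.le (Real.sqrt_nonneg _))
    linarith
  · exact Real.pi_pos.le

theorem Af_mono {h x : ℝ} (hh : 0 < h) (hx : 0 ≤ x) : Monotone (Af h x) := by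
  intro s t hst
  by_cases hs : 0 < s
  · have ht : 0 < t := lt_of_lt_of_le hs hst
    unfold Af
    rw [if_pos hs, if_pos ht]
    have h1 : √(2 * s) ≤ √(2 * t) := Real.sqrt_le_sqrt (by linarith)
    have h2 : 0 < √(2 * s) := Real.sqrt_pos.2 (by linarith)
    have h3 : x / (h * √(2 * t)) ≤ x / (h * √(2 * s)) :=
      div_le_div_of_nonneg_left hx (mul_pos hh h2) (mul_le_mul_of_nonneg_left h1 hh.le)
    have h4 := Real.arctan_mono h3
    linarith
  · have h1 : Af h x s = 0 := by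
      unfold Af
      rw [if_neg hs]
    rw [h1]
    exact Af_nonneg hh hx t

private theorem bfb_cont {h x : ℝ} (hh : 0 < h) (hx : 0 < x) : Continuous (Af h x) := by
  have hA : Af h x = fun t => 2 * Real.arctan (h * √(2 * t) / x) := funext (bfb_Af hh hx)
  have cs : Continuous fun t : ℝ => √(2 * t) := Real.continuous_sqrt.comp (continuous_const.mul continuous_id)
  rw [hA]
  exact continuous_const.mul (Real.continuous_arctan.comp ((continuous_const.mul cs).div_const x))

private theorem bfb_dmono {h x s t : ℝ} (hh : 0 < h) (hx : 0 < x) (hs : 0 < s) (hst : s ≤ t) :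
    √2 * h * x / (√t * (2 * h ^ 2 * t + x ^ 2)) ≤ √2 * h * x / (√s * (2 * h ^ 2 * s + x ^ 2)) := by
  have h3 : 0 < √s := Real.sqrt_pos.2 hs
  have h4 : √s ≤ √t := Real.sqrt_le_sqrt hst
  have h5 : 2 * h ^ 2 * s + x ^ 2 ≤ 2 * h ^ 2 * t + x ^ 2 := by
    have := mul_le_mul_of_nonneg_left hst (by positivity : (0 : ℝ) ≤ 2 * h ^ 2)
    linarith
  have h6 : 0 < 2 * h ^ 2 * s + x ^ 2 := by positivity
  exact div_le_div_of_nonneg_left (by positivity) (mul_pos h3 h6)
    (mul_le_mul h4 h5 h6.le (Real.sqrt_nonneg _))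

/-- Increments over intervals of equal length decrease. -/
theorem Af_concave {h x s t r : ℝ} (hh : 0 < h) (hx : 0 < x) (hs : 0 ≤ s) (hst : s ≤ t)
    (hr : 0 ≤ r) : Af h x (t + r) - Af h x t ≤ Af h x (s + r) - Af h x s := by
  have hc := bfb_cont hh hx
  have hd : ∀ u : ℝ, 0 < u → HasDerivAt (fun v => Af h x (v + r) - Af h x v)
      (√2 * h * x / (√(u + r) * (2 * h ^ 2 * (u + r) + x ^ 2)) -
        √2 * h * x / (√u * (2 * h ^ 2 * u + x ^ 2))) u := by
    intro u hu
    have h1 : HasDerivAt (fun v => Af h x (v + r))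
        (√2 * h * x / (√(u + r) * (2 * h ^ 2 * (u + r) + x ^ 2))) u :=
      (bfb_dAf hh hx (add_pos_of_pos_of_nonneg hu hr)).comp_add_const u r
    exact h1.sub (bfb_dAf hh hx hu)
  have ha : AntitoneOn (fun v => Af h x (v + r) - Af h x v) (Set.Ici 0) := by
    apply antitoneOn_of_deriv_nonpos (convex_Ici 0)
    · exact ((hc.comp (continuous_id.add continuous_const)).sub hc).continuousOn
    · intro u hu
      rw [interior_Ici] at hu
      exact (hd u hu).differentiableAt.differentiableWithinAt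
    · intro u hu
      rw [interior_Ici] at hu
      rw [(hd u hu).deriv]
      have := bfb_dmono hh hx hu (le_add_of_nonneg_right hr : u ≤ u + r)
      linarith
  exact ha hs (hs.trans hst) hst

theorem Af_incr_le {h x : ℝ} (hh : 0 < h) (hx : 0 < x) (t : ℝ) :
    Af h x (t + 1) - Af h x t ≤ min Real.pi (2 * √2 * h / x) := by
  have h0 : Af h x 0 = 0 := by
    unfold Af
    rw [if_neg (lt_irrefl _)]
  have h1 : Af h x 1 ≤ 2 * √2 * h / x := by
    rw [bfb_Af hh hx]
    have h2 : 0 ≤ h * √(2 * 1) / x := by positivity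
    have h3 : Real.arctan (h * √(2 * 1) / x) ≤ h * √(2 * 1) / x := by
      have h5 := Real.le_tan (Real.arctan_nonneg.2 h2)
        (Real.arctan_lt_pi_div_two (h * √(2 * 1) / x))
      rwa [Real.tan_arctan] at h5
    calc 2 * Real.arctan (h * √(2 * 1) / x) ≤ 2 * (h * √(2 * 1) / x) := by linarith
      _ = 2 * √2 * h / x := by rw [mul_one]; ring
  refine le_min ?_ ?_
  · have h2 := Af_le_pi hh hx.le (t + 1)
    have h3 := Af_nonneg hh hx.le t
    linarith
  · rcases le_total t 0 with ht | ht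
    · have h2 : Af h x t = 0 := by
        unfold Af
        rw [if_neg (not_lt.2 ht)]
      have h3 := Af_mono hh hx.le (by linarith : t + 1 ≤ 1)
      rw [h2]
      linarith
    · have h2 := Af_concave hh hx (le_refl 0) ht (zero_le_one : (0 : ℝ) ≤ 1)
      rw [h0, zero_add] at h2
      linarith

theorem Af_incr_le' {h x t : ℝ} (hh : 0 < h) (hx : 0 < x) (ht : 0 < t) :
    Af h x (t + 1) - Af h x t ≤ min (√2 * h / (x * √t)) (x / (√2 * h * (t * √t))) := by
  obtain ⟨c, hc, hc2⟩ := exists_hasDerivAt_eq_slope (Af h x)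
    (fun u => √2 * h * x / (√u * (2 * h ^ 2 * u + x ^ 2))) (by linarith : t < t + 1)
    (bfb_cont hh hx).continuousOn
    (fun u hu => bfb_dAf hh hx (ht.trans hu.1))
  have e1 : Af h x (t + 1) - Af h x t = √2 * h * x / (√c * (2 * h ^ 2 * c + x ^ 2)) := by
    rw [hc2]
    have : t + 1 - t = 1 := by ring
    rw [this, div_one]
  have h1 := bfb_dmono hh hx ht hc.1.le
  have h2 : 0 < √2 := Real.sqrt_pos.2 (by norm_num)
  have h3 : 0 < √t := Real.sqrt_pos.2 ht
  have h4 : √2 ^ 2 = 2 := Real.sq_sqrt (by norm_num)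
  have h6 : 0 < 2 * h ^ 2 * t + x ^ 2 := by positivity
  rw [e1]
  refine h1.trans (le_min ?_ ?_)
  · rw [div_le_div_iff₀ (mul_pos h3 h6) (mul_pos hx h3)]
    have h7 : 0 ≤ √2 * h * √t * (2 * h ^ 2 * t) := by positivity
    nlinarith [h7]
  · rw [div_le_div_iff₀ (mul_pos h3 h6) (by positivity)]
    have e2 : √2 * h * x * (√2 * h * (t * √t)) = x * (√t * (2 * h ^ 2 * t)) := by
      calc √2 * h * x * (√2 * h * (t * √t)) = √2 ^ 2 * (h ^ 2 * x * t * √t) := by ring
        _ = x * (√t * (2 * h ^ 2 * t)) := by rw [h4]; ring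
    rw [e2]
    have h7 : 0 ≤ x * (√t * x ^ 2) := by positivity
    nlinarith [h7]

end Pool.Agent.Lib.HBP
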