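import Mathlib
import Pool.Agent.Lib.HBP.BfBasic

/-!
MODULE BfTrans: transport identity for `Bf` along the parabola `t(σ) = t - ((x+σ)² - x²)/(2h²)`.

PROOF.  If `t ≤ 0` both sides vanish (`t(σ) ≤ 0`, `√` of it is `0`).  Let `t > 0`.  As long as `t(σ) > 0`,
`g σ = Bf h (x+σ) (t(σ))` has derivative `∂_x Bf - ((x+σ)/h²) ∂_t Bf`; with
`∂_x Bf = (2x/h²)(π/2 - arctan (x/(h√(2t)))) - 2√(2t)/h` and `∂_t Bf = π - 2 arctan (x/(h√(2t)))`
(both for `x ≥ 0`, `t > 0`; direct computation, `arctan' = 1/(1+z²)`) this is `- 2√(2 t(σ))/h =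
- (2√2/h) √(t(σ))`.  After the zero of `t(σ)` (if there is one in `[0, s]`) `g = 0` and the integrand
vanishes; `g` is continuous (`Bf h x t → 0` as `t → 0+`, locally uniformly in `x`: `0 ≤ Bf h x t ≤ π t`).
Fundamental theorem of calculus on the part where `t(σ) > 0`
(`intervalIntegral.integral_eq_sub_of_hasDerivAt_of_le`-type theorem with continuity at the end point).
-/

namespace Pool.Agent.Lib.HBP

open Set Filter Topology

private theorem BfTrans_bound {h x : ℝ} (hh : 0 < h) (hx : 0 ≤ x) (t : ℝ) :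
    ‖Bf h x t‖ ≤ Real.pi * ‖t‖ := by
  rcases hx.eq_or_lt with rfl | hx
  · rw [Bf_zero hh, norm_mul, Real.norm_of_nonneg Real.pi_pos.le]
    refine mul_le_mul_of_nonneg_left ?_ Real.pi_pos.le
    rw [Real.norm_eq_abs, Real.norm_eq_abs, abs_of_nonneg (le_max_left 0 t)]
    exact max_le (abs_nonneg t) (le_abs_self t)
  · have h0 : Bf h x 0 = 0 := by simp [Bf]
    have h1 := Convex.norm_image_sub_le_of_norm_hasDerivWithin_le (f := Bf h x) (f' := Af h x)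
      (C := Real.pi) (s := univ) (x := 0) (y := t)
      (fun y _ => (hasDerivAt_Bf hh hx y).hasDerivWithinAt)
      (fun y _ => by
        rw [Real.norm_of_nonneg (Af_nonneg hh hx.le y)]
        exact Af_le_pi hh hx.le y)
      convex_univ (mem_univ _) (mem_univ _)
    rwa [h0, sub_zero, sub_zero] at h1

private theorem BfTrans_T {h x t r : ℝ} :
    HasDerivAt (fun r : ℝ => t - ((x + r) ^ 2 - x ^ 2) / (2 * h ^ 2))
      (-((2 * (x + r)) / (2 * h ^ 2))) r := by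
  have h1 : HasDerivAt (fun r : ℝ => x + r) 1 r := (hasDerivAt_id r).const_add x
  have h2 := (((h1.pow 2).sub_const (x ^ 2)).div_const (2 * h ^ 2)).const_sub t
  refine h2.congr_deriv ?_
  norm_num

private theorem BfTrans_Tc {h x t : ℝ} :
    Continuous (fun r : ℝ => t - ((x + r) ^ 2 - x ^ 2) / (2 * h ^ 2)) := by
  fun_prop

private theorem BfTrans_E {h x t r : ℝ} (hh : 0 < h)
    (hT : 0 < t - ((x + r) ^ 2 - x ^ 2) / (2 * h ^ 2)) :
    HasDerivAt (fun r : ℝ => (x ^ 2 / h ^ 2 + 2 * t) * (Real.pi / 2 - Real.arctan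
      ((x + r) / (h * √(2 * (t - ((x + r) ^ 2 - x ^ 2) / (2 * h ^ 2)))))) -
      (x + r) / h * √(2 * (t - ((x + r) ^ 2 - x ^ 2) / (2 * h ^ 2))))
      (-(2 * √2 / h * √(t - ((x + r) ^ 2 - x ^ 2) / (2 * h ^ 2)))) r := by
  have h1 : HasDerivAt (fun r : ℝ => x + r) 1 r := (hasDerivAt_id r).const_add x
  have h2T : 0 < 2 * (t - ((x + r) ^ 2 - x ^ 2) / (2 * h ^ 2)) := by linarith
  have hw := ((BfTrans_T (h := h) (x := x) (t := t) (r := r)).const_mul 2).sqrt h2T.ne'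
  have hwpos : 0 < √(2 * (t - ((x + r) ^ 2 - x ^ 2) / (2 * h ^ 2))) := Real.sqrt_pos.2 h2T
  have hz := h1.div (hw.const_mul h) (mul_pos hh hwpos).ne'
  have ha := ((hz.arctan.const_sub (Real.pi / 2)).const_mul (x ^ 2 / h ^ 2 + 2 * t)).sub
    ((h1.div_const h).mul hw)
  refine ha.congr_deriv ?_
  rw [Pi.div_apply]
  have hsq : √(2 * (t - ((x + r) ^ 2 - x ^ 2) / (2 * h ^ 2))) ^ 2 =
      2 * (t - ((x + r) ^ 2 - x ^ 2) / (2 * h ^ 2)) := Real.sq_sqrt h2T.le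
  have hs2 : √(2 * (t - ((x + r) ^ 2 - x ^ 2) / (2 * h ^ 2))) =
      √2 * √(t - ((x + r) ^ 2 - x ^ 2) / (2 * h ^ 2)) := Real.sqrt_mul (by norm_num) _
  have hres : 2 * √2 / h * √(t - ((x + r) ^ 2 - x ^ 2) / (2 * h ^ 2)) =
      2 * √(2 * (t - ((x + r) ^ 2 - x ^ 2) / (2 * h ^ 2))) / h := by
    rw [hs2]
    ring
  rw [hres]
  generalize √(2 * (t - ((x + r) ^ 2 - x ^ 2) / (2 * h ^ 2))) = w at hsq hwpos
  have hc : x ^ 2 / h ^ 2 + 2 * t = (x + r) ^ 2 / h ^ 2 + w ^ 2 := by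
    rw [hsq]
    field_simp
    ring
  rw [hc]
  have hpos : (0 : ℝ) < h ^ 2 * w ^ 2 + (x + r) ^ 2 := by positivity
  have hone : 1 + ((x + r) / (h * w)) ^ 2 = (h ^ 2 * w ^ 2 + (x + r) ^ 2) / (h ^ 2 * w ^ 2) := by
    field_simp
  rw [hone]
  field_simp
  ring

private theorem BfTrans_eq {h x t r : ℝ} (hh : 0 < h)
    (hT : 0 < t - ((x + r) ^ 2 - x ^ 2) / (2 * h ^ 2)) :
    Bf h (x + r) (t - ((x + r) ^ 2 - x ^ 2) / (2 * h ^ 2)) =
      (x ^ 2 / h ^ 2 + 2 * t) * (Real.pi / 2 - Real.arctan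
      ((x + r) / (h * √(2 * (t - ((x + r) ^ 2 - x ^ 2) / (2 * h ^ 2)))))) -
      (x + r) / h * √(2 * (t - ((x + r) ^ 2 - x ^ 2) / (2 * h ^ 2))) := by
  have hc : (x + r) ^ 2 / h ^ 2 + 2 * (t - ((x + r) ^ 2 - x ^ 2) / (2 * h ^ 2)) =
      x ^ 2 / h ^ 2 + 2 * t := by
    field_simp
    ring
  rw [Bf, if_pos hT, hc]

private theorem BfTrans_ev {h x t r : ℝ} (hh : 0 < h)
    (hT : 0 < t - ((x + r) ^ 2 - x ^ 2) / (2 * h ^ 2)) :
    (fun r : ℝ => Bf h (x + r) (t - ((x + r) ^ 2 - x ^ 2) / (2 * h ^ 2))) =ᶠ[𝓝 r]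
    (fun r : ℝ => (x ^ 2 / h ^ 2 + 2 * t) * (Real.pi / 2 - Real.arctan
      ((x + r) / (h * √(2 * (t - ((x + r) ^ 2 - x ^ 2) / (2 * h ^ 2)))))) -
      (x + r) / h * √(2 * (t - ((x + r) ^ 2 - x ^ 2) / (2 * h ^ 2)))) := by
  filter_upwards [(BfTrans_Tc (h := h) (x := x) (t := t)).continuousAt.eventually
    (lt_mem_nhds hT)] with r' hr'
  exact BfTrans_eq hh hr'

private theorem BfTrans_deriv {h x t r : ℝ} (hh : 0 < h)
    (hT : t - ((x + r) ^ 2 - x ^ 2) / (2 * h ^ 2) ≠ 0) :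
    HasDerivAt (fun r : ℝ => Bf h (x + r) (t - ((x + r) ^ 2 - x ^ 2) / (2 * h ^ 2)))
      (-(2 * √2 / h * √(t - ((x + r) ^ 2 - x ^ 2) / (2 * h ^ 2)))) r := by
  rcases hT.lt_or_gt with hT | hT
  · have hev : (fun r : ℝ => Bf h (x + r) (t - ((x + r) ^ 2 - x ^ 2) / (2 * h ^ 2))) =ᶠ[𝓝 r]
        fun _ => 0 := by
      filter_upwards [(BfTrans_Tc (h := h) (x := x) (t := t)).continuousAt.eventually
        (gt_mem_nhds hT)] with r' hr'
      rw [Bf, if_neg (not_lt.2 hr'.le)]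
    rw [Real.sqrt_eq_zero_of_nonpos hT.le, mul_zero, neg_zero]
    exact (hasDerivAt_const r (0 : ℝ)).congr_of_eventuallyEq hev
  · exact (BfTrans_E hh hT).congr_of_eventuallyEq (BfTrans_ev hh hT)

theorem Bf_trans {h x s : ℝ} (hh : 0 < h) (hx : 0 ≤ x) (hs : 0 ≤ s) (t : ℝ) :
    Bf h (x + s) (t - ((x + s) ^ 2 - x ^ 2) / (2 * h ^ 2)) - Bf h x t =
      -∫ r in (0 : ℝ)..s, 2 * √2 / h * √(t - ((x + r) ^ 2 - x ^ 2) / (2 * h ^ 2)) := by
  have hcont : ContinuousOn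
      (fun r : ℝ => Bf h (x + r) (t - ((x + r) ^ 2 - x ^ 2) / (2 * h ^ 2))) (Icc 0 s) := by
    intro r hr
    by_cases hT : t - ((x + r) ^ 2 - x ^ 2) / (2 * h ^ 2) = 0
    · have h0 : Bf h (x + r) (t - ((x + r) ^ 2 - x ^ 2) / (2 * h ^ 2)) = 0 := by
        rw [hT]
        simp [Bf]
      show Tendsto _ _ (𝓝 (Bf h (x + r) (t - ((x + r) ^ 2 - x ^ 2) / (2 * h ^ 2))))
      rw [h0]
      have h1 : Tendsto (fun r : ℝ => Real.pi * ‖t - ((x + r) ^ 2 - x ^ 2) / (2 * h ^ 2)‖)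
          (𝓝[Icc 0 s] r) (𝓝 0) := by
        have h2 : Continuous
            (fun r : ℝ => Real.pi * ‖t - ((x + r) ^ 2 - x ^ 2) / (2 * h ^ 2)‖) := by
          fun_prop
        have h3 := h2.tendsto r
        rw [hT, norm_zero, mul_zero] at h3
        exact h3.mono_left nhdsWithin_le_nhds
      refine squeeze_zero_norm' ?_ h1
      filter_upwards [self_mem_nhdsWithin] with r' hr'
      exact BfTrans_bound hh (add_nonneg hx hr'.1) _
    · exact (BfTrans_deriv hh hT).continuousAt.continuousWithinAt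
  have hS : ({r : ℝ | 0 < r ∧ t - ((x + r) ^ 2 - x ^ 2) / (2 * h ^ 2) = 0}).Countable := by
    apply Set.Subsingleton.countable
    rintro a ⟨ha, ha'⟩ b ⟨hb, hb'⟩
    have h1 : ((x + a) ^ 2 - x ^ 2) / (2 * h ^ 2) = ((x + b) ^ 2 - x ^ 2) / (2 * h ^ 2) := by
      linarith
    have h2 : (x + a) ^ 2 = (x + b) ^ 2 := by
      have h3 : (2 * h ^ 2 : ℝ) ≠ 0 := by positivity
      rw [div_left_inj' h3] at h1
      linarith
    have h4 : x + a = x + b := by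
      have h5 : 0 ≤ x + a := by linarith
      have h6 : 0 ≤ x + b := by linarith
      exact (pow_left_inj₀ h5 h6 two_ne_zero).1 h2
    linarith
  have hFc : Continuous
      (fun r : ℝ => -(2 * √2 / h * √(t - ((x + r) ^ 2 - x ^ 2) / (2 * h ^ 2)))) := by
    fun_prop
  have key := MeasureTheory.integral_eq_of_hasDerivAt_off_countable_of_le
    (fun r : ℝ => Bf h (x + r) (t - ((x + r) ^ 2 - x ^ 2) / (2 * h ^ 2)))
    (fun r : ℝ => -(2 * √2 / h * √(t - ((x + r) ^ 2 - x ^ 2) / (2 * h ^ 2)))) hs hS hcont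
    (fun r hr => BfTrans_deriv hh fun h0 => hr.2 ⟨hr.1.1, h0⟩)
    (hFc.intervalIntegrable _ _)
  rw [intervalIntegral.integral_neg] at key
  rw [key]
  simp

end Pool.Agent.Lib.HBP
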