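import Mathlib
import Pool.Agent.Lib.HBP.Defs

/-!
MODULE NlF: the rounded parabola `Nl h a l = 33h²a/2 - l - ⌈64 l²/(a h²)⌉`, `l ≤ M = h²a/2`, `a` even.

PROOF.  `(64 l² + a h² - 1)/(a h²) = ⌈64 l²/(a h²)⌉` (natural division).  For `l ≤ M`: `64 l²/(a h²) ≤ 16 h² a`,
an integer, so the ceiling is `≤ 16 h² a` and `l + ceiling ≤ h²a/2 + 16h²a = 33h²a/2`: the natural subtractions
are exact.  `Nl_eq` with `ρ = ceiling - value ∈ [0, 1)`.  `Nl_anti`: `-l` decreases strictly, the ceiling is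
monotone.  For `l = M` the value is `33h²a/2 - h²a/2 - 16h²a = 0`.
-/

namespace Pool.Agent.Lib.HBP

private theorem nl_half {h a : ℕ} (ha2 : 2 ∣ a) : ∃ k, a = 2 * k ∧ Mh h a = h ^ 2 * k ∧
    33 * h ^ 2 * a / 2 = 33 * (h ^ 2 * k) := by
  obtain ⟨k, rfl⟩ := ha2
  refine ⟨k, rfl, ?_, ?_⟩
  · unfold Mh
    rw [show h ^ 2 * (2 * k) = 2 * (h ^ 2 * k) by ring]
    exact Nat.mul_div_cancel_left _ (by norm_num)
  · rw [show 33 * h ^ 2 * (2 * k) = 2 * (33 * (h ^ 2 * k)) by ring]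
    exact Nat.mul_div_cancel_left _ (by norm_num)

private theorem nl_ceil {D x : ℕ} (hD : 1 ≤ D) :
    x ≤ (x + D - 1) / D * D ∧ (x + D - 1) / D * D ≤ x + D - 1 := by
  refine ⟨?_, Nat.div_mul_le_self _ _⟩
  have h1 := Nat.div_add_mod (x + D - 1) D
  have h2 := Nat.mod_lt (x + D - 1) (show 0 < D by omega)
  have h3 : D * ((x + D - 1) / D) = (x + D - 1) / D * D := Nat.mul_comm _ _
  omega

private theorem nl_bound {h a l : ℕ} (hh : 1 ≤ h) (ha : 1 ≤ a) (ha2 : 2 ∣ a) (hl : l ≤ Mh h a) :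
    l + (64 * l ^ 2 + a * h ^ 2 - 1) / (a * h ^ 2) ≤ 33 * h ^ 2 * a / 2 := by
  obtain ⟨k, hk, hM, h33⟩ := nl_half (h := h) ha2
  have hk1 : 1 ≤ k := by omega
  have hD : 1 ≤ a * h ^ 2 := Nat.mul_pos ha (by positivity)
  rw [h33]
  rw [hM] at hl
  have hC : (64 * l ^ 2 + a * h ^ 2 - 1) / (a * h ^ 2) ≤ 32 * (h ^ 2 * k) := by
    have hlt : (64 * l ^ 2 + a * h ^ 2 - 1) / (a * h ^ 2) < 32 * (h ^ 2 * k) + 1 := by
      rw [Nat.div_lt_iff_lt_mul hD]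
      have h1 : l ^ 2 ≤ (h ^ 2 * k) ^ 2 := Nat.pow_le_pow_left hl 2
      have h2 : (32 * (h ^ 2 * k) + 1) * (a * h ^ 2) = 64 * (h ^ 2 * k) ^ 2 + a * h ^ 2 := by
        rw [hk]; ring
      rw [h2]
      omega
    omega
  omega

theorem Nl_eq {h a l : ℕ} (hh : 1 ≤ h) (ha : 1 ≤ a) (ha2 : 2 ∣ a) (hl : l ≤ Mh h a) :
    ∃ ρ : ℝ, 0 ≤ ρ ∧ ρ < 1 ∧ (Nl h a l : ℝ) = 33 * h ^ 2 * a / 2 - l - 64 * l ^ 2 / (a * h ^ 2) - ρ := by
  have hb := nl_bound hh ha ha2 hl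
  obtain ⟨k, hk, hM, h33⟩ := nl_half (h := h) ha2
  have hD : 1 ≤ a * h ^ 2 := Nat.mul_pos ha (by positivity)
  obtain ⟨c1, c2⟩ := nl_ceil (x := 64 * l ^ 2) hD
  have hN : Nl h a l + l + (64 * l ^ 2 + a * h ^ 2 - 1) / (a * h ^ 2) = 33 * (h ^ 2 * k) := by
    unfold Nl
    rw [← h33]
    omega
  generalize (64 * l ^ 2 + a * h ^ 2 - 1) / (a * h ^ 2) = C at *
  have hDr : (0 : ℝ) < a * h ^ 2 := by exact_mod_cast hD
  have c1' : (64 : ℝ) * l ^ 2 ≤ C * (a * h ^ 2) := by exact_mod_cast c1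
  have c2' : (C : ℝ) * (a * h ^ 2) < 64 * l ^ 2 + a * h ^ 2 := by
    have : C * (a * h ^ 2) < 64 * l ^ 2 + a * h ^ 2 := by omega
    exact_mod_cast this
  have hNr : (Nl h a l : ℝ) + l + C = 33 * (h ^ 2 * k) := by exact_mod_cast hN
  have hkr : (a : ℝ) = 2 * k := by exact_mod_cast hk
  refine ⟨C - 64 * l ^ 2 / (a * h ^ 2), ?_, ?_, ?_⟩
  · rw [sub_nonneg, div_le_iff₀ hDr]
    exact c1'
  · rw [sub_lt_iff_lt_add, ← sub_lt_iff_lt_add', lt_div_iff₀ hDr]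
    nlinarith
  · rw [hkr] at *
    linarith

theorem Nl_anti {h a l l' : ℕ} (hh : 1 ≤ h) (ha : 1 ≤ a) (ha2 : 2 ∣ a) (hl : l < l') (hl' : l' ≤ Mh h a) :
    Nl h a l' < Nl h a l := by
  have hb := nl_bound hh ha ha2 hl'
  have hb' := nl_bound hh ha ha2 (hl.le.trans hl')
  have hmono : (64 * l ^ 2 + a * h ^ 2 - 1) / (a * h ^ 2) ≤
      (64 * l' ^ 2 + a * h ^ 2 - 1) / (a * h ^ 2) := by
    apply Nat.div_le_div_right
    have : l ^ 2 ≤ l' ^ 2 := Nat.pow_le_pow_left hl.le 2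
    omega
  unfold Nl
  omega

theorem Nl_le (h a l : ℕ) : Nl h a l ≤ 33 * h ^ 2 * a / 2 :=
  (Nat.sub_le _ _).trans (Nat.sub_le _ _)

theorem Nl_M {h a : ℕ} (hh : 1 ≤ h) (ha : 1 ≤ a) (ha2 : 2 ∣ a) : Nl h a (Mh h a) = 0 := by
  obtain ⟨k, hk, hM, h33⟩ := nl_half (h := h) ha2
  have hD : 1 ≤ a * h ^ 2 := Nat.mul_pos ha (by positivity)
  have hC : 32 * (h ^ 2 * k) ≤ (64 * (h ^ 2 * k) ^ 2 + a * h ^ 2 - 1) / (a * h ^ 2) := by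
    rw [Nat.le_div_iff_mul_le hD]
    have h2 : 32 * (h ^ 2 * k) * (a * h ^ 2) = 64 * (h ^ 2 * k) ^ 2 := by
      rw [hk]; ring
    rw [h2]
    omega
  unfold Nl
  rw [h33, hM]
  omega

theorem Mh_cast {h a : ℕ} (ha2 : 2 ∣ a) : (Mh h a : ℝ) = h ^ 2 * a / 2 := by
  obtain ⟨k, hk, hM, h33⟩ := nl_half (h := h) ha2
  rw [hM, hk]
  push_cast
  ring

end Pool.Agent.Lib.HBP
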