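import Mathlib
import Pool.Agent.Lib.HBP.Defs

/-!
MODULE PsiF: elementary inequalities for `psi u = (u-1)^2 / max 1 u`.

PROOF of `mul_abs_le`.  If `|u - 1| ≤ 1` then `max 1 u ≤ 2`, `psi u ≥ (u-1)^2/2`, and
`c |y| ≤ c^2/(4A) + A y^2` (AM-GM).  If `|u-1| > 1` then `u > 2`, `psi u = (u-1)^2/u ≥ (u-1)/2`, and
`c |y| ≤ A |y| ≤ 2 A psi u`.
`le_psi`: for `u ≤ 2` trivial, for `u > 2`: `4 (u-1)^2/u ≥ u` since `(u-1)^2 ≥ u^2/4`.
-/

namespace Pool.Agent.Lib.HBP

private theorem max_pos' (u : ℝ) : 0 < max 1 u := lt_of_lt_of_le one_pos (le_max_left _ _)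

theorem psi_nonneg (u : ℝ) : 0 ≤ psi u := div_nonneg (sq_nonneg _) (max_pos' u).le

theorem le_psi_of_two_lt {u : ℝ} (hu : 2 < u) : u ≤ 4 * psi u := by
  have h1 : max 1 u = u := max_eq_right (by linarith)
  unfold psi
  rw [h1, ← mul_div_assoc, le_div_iff₀ (by linarith)]
  nlinarith

private theorem psi_half {u : ℝ} (h : max 1 u ≤ 2) : (u - 1) ^ 2 / 2 ≤ psi u := by
  unfold psi
  exact div_le_div_of_nonneg_left (sq_nonneg _) (max_pos' u) h

theorem mul_abs_le {c A u : ℝ} (hu : 0 ≤ u) (hc : 0 ≤ c) (hA : 0 < A) (hcA : c ≤ A) :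
    c * |u - 1| ≤ c ^ 2 / (4 * A) + 2 * A * psi u := by
  by_cases h : |u - 1| ≤ 1
  · have h2 : max 1 u ≤ 2 := max_le (by norm_num) (by have := (abs_le.1 h).2; linarith)
    have h3 := psi_half h2
    have h4 : c * |u - 1| ≤ c ^ 2 / (4 * A) + A * (u - 1) ^ 2 := by
      rw [← sq_abs (u - 1)]
      have h5 : c ^ 2 / (4 * A) + A * |u - 1| ^ 2 - c * |u - 1| =
          (c - 2 * A * |u - 1|) ^ 2 / (4 * A) := by
        field_simp
        ring
      have h6 : 0 ≤ (c - 2 * A * |u - 1|) ^ 2 / (4 * A) := by positivity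
      linarith
    have h7 : A * (u - 1) ^ 2 ≤ 2 * A * psi u := by nlinarith
    linarith
  · rw [not_le] at h
    have h2 : 2 < u := by
      rcases lt_abs.1 h with h | h <;> linarith
    have h1 : max 1 u = u := max_eq_right (by linarith)
    have h3 : (u - 1) / 2 ≤ psi u := by
      unfold psi
      rw [h1, div_le_div_iff₀ (by norm_num) (by linarith)]
      nlinarith
    have h4 : |u - 1| = u - 1 := abs_of_pos (by linarith)
    rw [h4]
    have h5 : c * (u - 1) ≤ A * (u - 1) := mul_le_mul_of_nonneg_right hcA (by linarith)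
    have h6 : 0 ≤ c ^ 2 / (4 * A) := by positivity
    nlinarith

theorem le_psi {u : ℝ} (hu : 0 ≤ u) : max 1 u ≤ 2 + 4 * psi u := by
  have h0 := psi_nonneg u
  by_cases h : u ≤ 2
  · exact (max_le (by norm_num) h).trans (by linarith)
  · rw [not_le] at h
    have h1 := le_psi_of_two_lt h
    exact max_le (by linarith) (by linarith)

/-- Jump out of the window `[1/2, 2]`. -/
theorem psi_far {u : ℝ} (hu : 0 ≤ u) (h : u < 1 / 2 ∨ 2 < u) : max 1 u / 4 ≤ psi u := by
  rcases h with h | h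
  · have h1 : max 1 u = 1 := max_eq_left (by linarith)
    unfold psi
    rw [h1, div_one]
    nlinarith
  · have h1 : max 1 u = u := max_eq_right (by linarith)
    have h2 := le_psi_of_two_lt h
    rw [h1]
    linarith

end Pool.Agent.Lib.HBP
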