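import Mathlib
import Pool.Agent.Lib.HBP.Defs

/-!
MODULE ThBound: bounds for `Th V` (uniform in the finite set `V` of integers).

PROOF.  (`√` of a negative number is `0` in Lean.)
With `e k = √(v+k) - √(v+k-1)` (`k ∈ ℤ`): `Th V v = 2 ∑_{c ∈ V} (e (1-c) - e (-c))`.  The sequence `e` is
unimodal: `0` for `v + k ≤ 0`, then it increases to its maximum `≤ 1` and then decreases (concavity of `√`).
For a unimodal nonnegative sequence with finite maximum `m`, `|∑_{c ∈ V} (e (1-c) - e (-c))| ≤ m` for every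
finite set `V` of indices (sum of the positive differences `≤ m`, sum of the negative ones `≥ -m`).
So `|Th V v| ≤ 2`.
HOLDER: `v ≤ v'`, `r = v' - v`, `g k = √(v'+k) - √(v+k)` is unimodal with maximum `≤ √r` (increasing while
`v + k ≤ 0`, decreasing afterwards), and
`Th V v' - Th V v = 2 (∑_c (g (1-c) - g (-c)) - ∑_c (g (-c) - g (-c-1)))`, absolute value `≤ 4 √r`.
TAIL: only `c ≤ v - d` contribute, there `e` is decreasing (indices `-c` with `v - c ≥ d`), so the absolute
value of the sum is at most `2 (√d - √(d-1)) ≤ 1/√(d-1)`.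
SUM: `|th0 u| ≤ 2` for `-1 ≤ u ≤ 2`, `th0 u = 0` for `u ≤ -1`, `|th0 u| ≤ (1/2)(u-1)^(-3/2)` for `u ≥ 2` (second
difference of `√`); for every `c` and `k` there are at most `B` naturals `v` with `k ≤ v/B - c < k + 1`; so
`∑_v |th0 (v/B - c)| ≤ B (2 + 2 + 2 + ∑_{k≥2} (1/2)(k-1)^(-3/2)) ≤ 20 B` (`∑_{m ≥ 1} m^(-3/2) ≤ 3`).
-/

namespace Pool.Agent.Lib.HBP

open Finset

private structure ThbUni (f : ℝ → ℝ) (x0 m : ℝ) : Prop where
  mono : ∀ x y, x ≤ y → y ≤ x0 → f x ≤ f y
  anti : ∀ x y, x0 ≤ x → x ≤ y → f y ≤ f x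
  nn : ∀ x, 0 ≤ f x
  le : ∀ x, f x ≤ m

private theorem thb_up {f : ℝ → ℝ} {x0 m : ℝ} (h : ThbUni f x0 m) (v : ℝ) (V : Finset ℤ) :
    ∑ c ∈ V, (f (v - c + 1) - f (v - c)) ≤ m := by
  classical
  obtain ⟨q, hq1, hq2⟩ : ∃ q : ℤ, (∀ c : ℤ, q ≤ c → 0 ≤ f (v - c + 1) - f (v - c)) ∧
      ∀ c : ℤ, c < q → f (v - c + 1) - f (v - c) ≤ 0 := by
    have hp1 : ∀ c : ℤ, ⌈v - x0⌉ + 1 ≤ c → 0 ≤ f (v - c + 1) - f (v - c) := by
      intro c hc
      have h1 : ((⌈v - x0⌉ : ℤ) : ℝ) + 1 ≤ c := by exact_mod_cast hc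
      have h2 := Int.le_ceil (v - x0)
      have h3 := h.mono (v - c) (v - c + 1) (by linarith) (by linarith)
      linarith
    have hp2 : ∀ c : ℤ, c < ⌈v - x0⌉ → f (v - c + 1) - f (v - c) ≤ 0 := by
      intro c hc
      have h1 := Int.lt_ceil.1 hc
      have h3 := h.anti (v - c) (v - c + 1) (by linarith) (by linarith)
      linarith
    by_cases h0 : 0 ≤ f (v - (⌈v - x0⌉ : ℤ) + 1) - f (v - (⌈v - x0⌉ : ℤ))
    · refine ⟨⌈v - x0⌉, fun c hc => ?_, hp2⟩
      rcases hc.eq_or_lt with rfl | hc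
      · exact h0
      · exact hp1 c hc
    · refine ⟨⌈v - x0⌉ + 1, hp1, fun c hc => ?_⟩
      rcases (Int.lt_add_one_iff.1 hc).eq_or_lt with rfl | hc
      · exact (not_le.1 h0).le
      · exact hp2 c hc
  obtain ⟨b, hb⟩ := V.bddAbove
  have hsub : V.filter (fun c => q ≤ c) ⊆
      (range (b + 1 - q).toNat).image (fun i : ℕ => q + (i : ℤ)) := by
    intro c hc
    rw [mem_filter] at hc
    have h1 : c ≤ b := hb hc.1
    rw [mem_image]
    refine ⟨(c - q).toNat, ?_, ?_⟩
    · rw [mem_range]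
      omega
    · have := hc.2
      omega
  have hinj : Set.InjOn (fun i : ℕ => q + (i : ℤ)) (range (b + 1 - q).toNat : Set ℕ) := by
    intro i _ j _ hij
    have : q + (i : ℤ) = q + (j : ℤ) := hij
    omega
  have htel : ∀ n : ℕ, ∑ i ∈ range n, (f (v - ((q + (i : ℤ) : ℤ) : ℝ) + 1) -
      f (v - ((q + (i : ℤ) : ℤ) : ℝ))) = f (v - q + 1) - f (v - q - n + 1) := by
    intro n
    induction n with
    | zero => simp
    | succ n ih =>
      rw [sum_range_succ, ih]
      push_cast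
      have e1 : v - (q : ℝ) - (n : ℝ) + 1 = v - ((q : ℝ) + n) + 1 := by ring
      have e2 : v - (q : ℝ) - ((n : ℝ) + 1) + 1 = v - ((q : ℝ) + n) := by ring
      rw [e1, e2]
      ring
  calc ∑ c ∈ V, (f (v - c + 1) - f (v - c))
      = ∑ c ∈ V.filter (fun c => q ≤ c), (f (v - c + 1) - f (v - c)) +
        ∑ c ∈ V.filter (fun c => ¬ q ≤ c), (f (v - c + 1) - f (v - c)) :=
        (sum_filter_add_sum_filter_not V _ _).symm
    _ ≤ ∑ c ∈ V.filter (fun c => q ≤ c), (f (v - c + 1) - f (v - c)) + 0 := by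
        gcongr
        apply sum_nonpos
        intro c hc
        rw [mem_filter] at hc
        exact hq2 c (not_le.1 hc.2)
    _ ≤ ∑ c ∈ (range (b + 1 - q).toNat).image (fun i : ℕ => q + (i : ℤ)),
          (f (v - c + 1) - f (v - c)) + 0 := by
        refine add_le_add (sum_le_sum_of_subset_of_nonneg hsub fun c hc _ => ?_) le_rfl
        rw [mem_image] at hc
        obtain ⟨i, _, rfl⟩ := hc
        exact hq1 _ (by omega)
    _ = f (v - q + 1) - f (v - q - (b + 1 - q).toNat + 1) := by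
        rw [add_zero, sum_image hinj, htel]
    _ ≤ m := by
        have h1 := h.le (v - q + 1)
        have h2 := h.nn (v - q - (b + 1 - q).toNat + 1)
        linarith

private theorem thb_abs {f : ℝ → ℝ} {x0 m : ℝ} (h : ThbUni f x0 m) (v : ℝ) (V : Finset ℤ) :
    |∑ c ∈ V, (f (v - c + 1) - f (v - c))| ≤ m := by
  rw [abs_le]
  refine ⟨?_, thb_up h v V⟩
  have h' : ThbUni (fun x => f (-x)) (-x0) m :=
    ⟨fun x y hxy hy => h.anti (-y) (-x) (by linarith) (by linarith),
      fun x y hx hxy => h.mono (-y) (-x) (by linarith) (by linarith),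
      fun x => h.nn _, fun x => h.le _⟩
  have h2 := thb_up h' (-v) (V.image (fun c => 1 - c))
  rw [sum_image (by intro a _ b _ hab; have : 1 - a = 1 - b := hab; omega)] at h2
  have h3 : ∑ c ∈ V, (f (-(-v - ((1 - c : ℤ) : ℝ) + 1)) - f (-(-v - ((1 - c : ℤ) : ℝ)))) =
      -∑ c ∈ V, (f (v - c + 1) - f (v - c)) := by
    rw [← sum_neg_distrib]
    refine sum_congr rfl fun c _ => ?_
    push_cast
    have e1 : -(-v - (1 - (c : ℝ)) + 1) = v - c := by ring
    have e2 : -(-v - (1 - (c : ℝ))) = v - c + 1 := by ring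
    rw [e1, e2]
    ring
  rw [h3] at h2
  linarith

private theorem thb_var {f : ℝ → ℝ} {x0 m : ℝ} (h : ThbUni f x0 m) (v : ℝ) (V : Finset ℤ) :
    ∑ c ∈ V, |f (v - c + 1) - f (v - c)| ≤ 2 * m := by
  classical
  have h1 := thb_abs h v (V.filter (fun c : ℤ => 0 ≤ f (v - (c : ℝ) + 1) - f (v - (c : ℝ))))
  have h2 := thb_abs h v (V.filter (fun c : ℤ => ¬ 0 ≤ f (v - (c : ℝ) + 1) - f (v - (c : ℝ))))
  rw [abs_le] at h1 h2
  have e1 : ∑ c ∈ V.filter (fun c : ℤ => 0 ≤ f (v - (c : ℝ) + 1) - f (v - (c : ℝ))),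
      |f (v - c + 1) - f (v - c)| =
      ∑ c ∈ V.filter (fun c : ℤ => 0 ≤ f (v - (c : ℝ) + 1) - f (v - (c : ℝ))), (f (v - c + 1) - f (v - c)) := by
    refine sum_congr rfl fun c hc => ?_
    rw [mem_filter] at hc
    exact abs_of_nonneg hc.2
  have e2 : ∑ c ∈ V.filter (fun c : ℤ => ¬ 0 ≤ f (v - (c : ℝ) + 1) - f (v - (c : ℝ))),
      |f (v - c + 1) - f (v - c)| =
      -∑ c ∈ V.filter (fun c : ℤ => ¬ 0 ≤ f (v - (c : ℝ) + 1) - f (v - (c : ℝ))),
        (f (v - c + 1) - f (v - c)) := by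
    rw [← sum_neg_distrib]
    refine sum_congr rfl fun c hc => ?_
    rw [mem_filter] at hc
    exact abs_of_neg (not_le.1 hc.2)
  rw [← sum_filter_add_sum_filter_not V (fun c : ℤ => 0 ≤ f (v - (c : ℝ) + 1) - f (v - (c : ℝ))), e1, e2]
  linarith

private theorem thb_conc {a b r : ℝ} (ha : 0 ≤ a) (hab : a ≤ b) (hr : 0 ≤ r) :
    √(b + r) - √b ≤ √(a + r) - √a := by
  have hA := Real.sqrt_nonneg a
  have hB := Real.sqrt_nonneg b
  have hA' := Real.sqrt_nonneg (a + r)
  have hB' := Real.sqrt_nonneg (b + r)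
  have qA := Real.sq_sqrt ha
  have qB := Real.sq_sqrt (ha.trans hab)
  have qA' := Real.sq_sqrt (add_nonneg ha hr)
  have qB' := Real.sq_sqrt (add_nonneg (ha.trans hab) hr)
  have h1 : √a ≤ √b := Real.sqrt_le_sqrt hab
  have h2 : √(a + r) ≤ √(b + r) := Real.sqrt_le_sqrt (by linarith)
  have h3 : √a ≤ √(a + r) := Real.sqrt_le_sqrt (by linarith)
  by_contra hc
  push Not at hc
  have h4 : 0 < √(b + r) + √b := by linarith
  have h5 : (√(a + r) - √a) * (√(b + r) + √b) < (√(b + r) - √b) * (√(b + r) + √b) :=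
    mul_lt_mul_of_pos_right hc h4
  have h6 : (√(a + r) - √a) * (√(a + r) + √a) ≤ (√(a + r) - √a) * (√(b + r) + √b) :=
    mul_le_mul_of_nonneg_left (by linarith) (by linarith)
  nlinarith

private theorem thb_g {r : ℝ} (hr : 0 ≤ r) : ThbUni (fun x => √(x + r) - √x) 0 (√r) := by
  have hm : ∀ x y : ℝ, x ≤ y → y ≤ 0 → √(x + r) - √x ≤ √(y + r) - √y := by
    intro x y hxy hy
    rw [Real.sqrt_eq_zero_of_nonpos (hxy.trans hy), Real.sqrt_eq_zero_of_nonpos hy]
    have := Real.sqrt_le_sqrt (show x + r ≤ y + r by linarith)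
    linarith
  have ha : ∀ x y : ℝ, 0 ≤ x → x ≤ y → √(y + r) - √y ≤ √(x + r) - √x :=
    fun x y hx hxy => thb_conc hx hxy hr
  refine ⟨hm, ha, fun x => ?_, fun x => ?_⟩
  · have := Real.sqrt_le_sqrt (show x ≤ x + r by linarith)
    linarith
  · rcases le_total x 0 with h | h
    · have := hm x 0 h le_rfl
      simpa using this
    · have := ha 0 x le_rfl h
      simpa using this

private theorem thb_f : ThbUni (fun x => √x - √(x - 1)) 1 1 := by
  have h := thb_g (r := 1) zero_le_one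
  have e : ∀ x : ℝ, √x - √(x - 1) = √(x - 1 + 1) - √(x - 1) := by
    intro x
    rw [sub_add_cancel]
  refine ⟨fun x y hxy hy => ?_, fun x y hx hxy => ?_, fun x => ?_, fun x => ?_⟩
  · rw [e x, e y]
    exact h.mono _ _ (by linarith) (by linarith)
  · rw [e x, e y]
    exact h.anti _ _ (by linarith) (by linarith)
  · rw [e x]
    exact h.nn _
  · rw [e x]
    have := h.le (x - 1)
    rwa [Real.sqrt_one] at this

private theorem thb_th0 (u : ℝ) :
    th0 u = 2 * ((√(u + 1) - √(u + 1 - 1)) - (√u - √(u - 1))) := by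
  unfold th0
  rw [add_sub_cancel_right]
  ring

theorem abs_Th_le (V : Finset ℤ) (v : ℝ) : |Th V v| ≤ 2 := by
  have h := thb_abs thb_f v V
  unfold Th
  simp_rw [thb_th0]
  rw [← mul_sum, abs_mul, abs_two]
  linarith

theorem Th_holder (V : Finset ℤ) (v v' : ℝ) : |Th V v - Th V v'| ≤ 4 * √|v - v'| := by
  have key : ∀ v v' : ℝ, v ≤ v' → |Th V v' - Th V v| ≤ 4 * √(v' - v) := by
    intro v v' hv
    have hg := thb_g (r := v' - v) (by linarith)
    have h1 := thb_abs hg v V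
    have h2 := thb_abs hg (v - 1) V
    have e : Th V v' - Th V v =
        2 * ∑ c ∈ V, ((fun x => √(x + (v' - v)) - √x) (v - c + 1) -
          (fun x => √(x + (v' - v)) - √x) (v - c)) -
        2 * ∑ c ∈ V, ((fun x => √(x + (v' - v)) - √x) (v - 1 - c + 1) -
          (fun x => √(x + (v' - v)) - √x) (v - 1 - c)) := by
      unfold Th
      rw [← sum_sub_distrib, mul_sum, mul_sum, ← sum_sub_distrib]
      refine sum_congr rfl fun c _ => ?_
      unfold th0
      have e1 : v - (c : ℝ) + 1 + (v' - v) = v' - c + 1 := by ring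
      have e2 : v - (c : ℝ) + (v' - v) = v' - c := by ring
      have e3 : v - 1 - (c : ℝ) + 1 + (v' - v) = v' - c := by ring
      have e4 : v - 1 - (c : ℝ) + (v' - v) = v' - c - 1 := by ring
      have e5 : v - 1 - (c : ℝ) + 1 = v - c := by ring
      have e6 : v - 1 - (c : ℝ) = v - c - 1 := by ring
      show _ = 2 * ((√(v - (c : ℝ) + 1 + (v' - v)) - √(v - c + 1)) -
          (√(v - (c : ℝ) + (v' - v)) - √(v - c))) -
        2 * ((√(v - 1 - (c : ℝ) + 1 + (v' - v)) - √(v - 1 - c + 1)) -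
          (√(v - 1 - (c : ℝ) + (v' - v)) - √(v - 1 - c)))
      rw [e1, e2, e3, e4, e5, e6]
      ring
    rw [e]
    rw [abs_le] at h1 h2 ⊢
    constructor <;> linarith [h1.1, h1.2, h2.1, h2.2]
  rcases le_total v v' with h | h
  · rw [abs_sub_comm (Th V v), abs_sub_comm v, abs_of_nonneg (sub_nonneg.2 h)]
    exact key v v' h
  · rw [abs_of_nonneg (sub_nonneg.2 h)]
    exact key v' v h

theorem Th_tail (V : Finset ℤ) (v d : ℝ) (hd : 2 ≤ d) (h : ∀ c ∈ V, (c : ℝ) ≤ v - d ∨ v + 1 ≤ c) :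
    |Th V v| ≤ 1 / √(d - 1) := by
  classical
  have hf := thb_f
  have hd1 : ThbUni (fun x => √(max x d) - √(max x d - 1)) d (√d - √(d - 1)) := by
    have hm : ∀ x y : ℝ, x ≤ y → y ≤ d →
        √(max x d) - √(max x d - 1) ≤ √(max y d) - √(max y d - 1) := by
      intro x y hxy hy
      rw [max_eq_right (hxy.trans hy), max_eq_right hy]
    have ha : ∀ x y : ℝ, d ≤ x → x ≤ y →
        √(max y d) - √(max y d - 1) ≤ √(max x d) - √(max x d - 1) := by
      intro x y hx hxy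
      rw [max_eq_left hx, max_eq_left (hx.trans hxy)]
      exact hf.anti x y (by linarith) hxy
    refine ⟨hm, ha, fun x => hf.nn _, fun x => ?_⟩
    rcases le_total x d with h1 | h1
    · have := hm x d h1 le_rfl
      rwa [max_self] at this
    · have := ha d x le_rfl h1
      rwa [max_self] at this
  have h1 := thb_abs hd1 v (V.filter (fun c : ℤ => (c : ℝ) ≤ v - d))
  have e : Th V v = 2 * ∑ c ∈ V.filter (fun c : ℤ => (c : ℝ) ≤ v - d),
      ((fun x => √(max x d) - √(max x d - 1)) (v - c + 1) -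
        (fun x => √(max x d) - √(max x d - 1)) (v - c)) := by
    unfold Th
    rw [← sum_filter_add_sum_filter_not V (fun c : ℤ => (c : ℝ) ≤ v - d), mul_sum]
    have e0 : ∑ c ∈ V.filter (fun c : ℤ => ¬ (c : ℝ) ≤ v - d), th0 (v - c) = 0 := by
      apply sum_eq_zero
      intro c hc
      rw [mem_filter] at hc
      rcases h c hc.1 with h2 | h2
      · exact absurd h2 hc.2
      · unfold th0
        rw [Real.sqrt_eq_zero_of_nonpos (show v - (c : ℝ) + 1 ≤ 0 by linarith),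
          Real.sqrt_eq_zero_of_nonpos (show v - (c : ℝ) ≤ 0 by linarith),
          Real.sqrt_eq_zero_of_nonpos (show v - (c : ℝ) - 1 ≤ 0 by linarith)]
        ring
    rw [e0, add_zero]
    refine sum_congr rfl fun c hc => ?_
    rw [mem_filter] at hc
    have h3 : d ≤ v - c := by linarith [hc.2]
    show _ = 2 * ((√(max (v - (c : ℝ) + 1) d) - √(max (v - (c : ℝ) + 1) d - 1)) -
      (√(max (v - (c : ℝ)) d) - √(max (v - (c : ℝ)) d - 1)))
    rw [thb_th0, max_eq_left h3, max_eq_left (show d ≤ v - c + 1 by linarith)]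
  rw [e, abs_mul, abs_two]
  have hs : 0 < √(d - 1) := Real.sqrt_pos.2 (by linarith)
  have h2 : √(d - 1) ≤ √d := Real.sqrt_le_sqrt (by linarith)
  have q1 := Real.sq_sqrt (show 0 ≤ d - 1 by linarith)
  have q2 := Real.sq_sqrt (show 0 ≤ d by linarith)
  have h4 : 2 * (√d - √(d - 1)) ≤ 1 / √(d - 1) := by
    rw [le_div_iff₀ hs]
    nlinarith
  linarith

theorem Th_sum (V : Finset ℤ) (B : ℕ) (hB : 1 ≤ B) (n : ℕ) :
    ∑ v ∈ range n, |Th V ((v : ℝ) / B)| ≤ 20 * B * V.card := by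
  classical
  have hBpos : (0 : ℝ) < B := by exact_mod_cast hB
  have key : ∀ c : ℤ, ∑ v ∈ range n, |th0 ((v : ℝ) / B - c)| ≤ 4 * B := by
    intro c
    have hfib : ∑ v ∈ range n, |th0 ((v : ℝ) / B - c)| =
        ∑ a ∈ range B, ∑ v ∈ (range n).filter (fun v => v % B = a),
          |th0 ((v : ℝ) / B - c)| := by
      rw [sum_fiberwise_of_maps_to]
      intro v _
      rw [mem_range]
      exact Nat.mod_lt _ hB
    rw [hfib]
    have hone : ∀ a ∈ range B, ∑ v ∈ (range n).filter (fun v => v % B = a),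
        |th0 ((v : ℝ) / B - c)| ≤ 4 := by
      intro a _
      have h1 := thb_var thb_f ((a : ℝ) / B)
        (((range n).filter (fun v => v % B = a)).image (fun v => c - ((v / B : ℕ) : ℤ)))
      rw [sum_image (by
        intro x hx y hy hxy
        have hx' := (mem_filter.1 (mem_coe.1 hx)).2
        have hy' := (mem_filter.1 (mem_coe.1 hy)).2
        have h2 : c - ((x / B : ℕ) : ℤ) = c - ((y / B : ℕ) : ℤ) := hxy
        have h3 : x / B = y / B := by omega
        rw [← Nat.div_add_mod x B, ← Nat.div_add_mod y B, h3, hx', hy'])] at h1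
      have h4 : ∑ v ∈ (range n).filter (fun v => v % B = a), |th0 ((v : ℝ) / B - c)| =
          2 * ∑ v ∈ (range n).filter (fun v => v % B = a),
            |(fun x => √x - √(x - 1)) ((a : ℝ) / B - ((c - ((v / B : ℕ) : ℤ) : ℤ) : ℝ) + 1) -
              (fun x => √x - √(x - 1)) ((a : ℝ) / B - ((c - ((v / B : ℕ) : ℤ) : ℤ) : ℝ))| := by
        rw [mul_sum]
        refine sum_congr rfl fun v hv => ?_
        have hv' := (mem_filter.1 hv).2
        have e1 : (v : ℝ) = B * ((v / B : ℕ) : ℝ) + a := by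
          have := Nat.div_add_mod v B
          rw [hv'] at this
          exact_mod_cast this.symm
        have e2 : (a : ℝ) / B - ((c - ((v / B : ℕ) : ℤ) : ℤ) : ℝ) = (v : ℝ) / B - c := by
          rw [e1, Int.cast_sub, Int.cast_natCast]
          field_simp
          ring
        rw [e2, thb_th0, abs_mul, abs_two]
      rw [h4]
      linarith
    calc _ ≤ ∑ a ∈ range B, (4 : ℝ) := sum_le_sum hone
      _ = 4 * B := by rw [sum_const, card_range, nsmul_eq_mul]; ring
  calc ∑ v ∈ range n, |Th V ((v : ℝ) / B)|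
      ≤ ∑ v ∈ range n, ∑ c ∈ V, |th0 ((v : ℝ) / B - c)| := by
        refine sum_le_sum fun v _ => ?_
        exact abs_sum_le_sum_abs _ _
    _ = ∑ c ∈ V, ∑ v ∈ range n, |th0 ((v : ℝ) / B - c)| := sum_comm
    _ ≤ ∑ c ∈ V, 4 * (B : ℝ) := sum_le_sum fun c _ => key c
    _ = 4 * B * V.card := by rw [sum_const, nsmul_eq_mul]; ring
    _ ≤ 20 * B * V.card := by
        have : (0 : ℝ) ≤ B * V.card := by positivity
        nlinarith

theorem Th_sum_sq (V : Finset ℤ) (B : ℕ) (hB : 1 ≤ B) (n : ℕ) :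
    ∑ v ∈ range n, (Th V ((v : ℝ) / B)) ^ 2 ≤ 40 * B * V.card := by
  have h := Th_sum V B hB n
  calc ∑ v ∈ range n, (Th V ((v : ℝ) / B)) ^ 2
      ≤ ∑ v ∈ range n, 2 * |Th V ((v : ℝ) / B)| := by
        refine sum_le_sum fun v _ => ?_
        have h1 := abs_Th_le V ((v : ℝ) / B)
        have h2 := abs_nonneg (Th V ((v : ℝ) / B))
        rw [← sq_abs]
        nlinarith
    _ = 2 * ∑ v ∈ range n, |Th V ((v : ℝ) / B)| := by rw [mul_sum]
    _ ≤ 40 * B * V.card := by linarith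

end Pool.Agent.Lib.HBP
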