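import Mathlib
import Pool.Agent.Lib.HBP.ThBound
import Pool.Agent.Lib.HBP.PsiF

/-!
MODULE PartSum: the sum of `Th V (·/B)` over the ranges of children is `B κ ∑ Th V (W_l)` up to errors,
`B = a u2 b`, `κ = (1+λ)/(a u2)`, `W_l = (A (x l) + r l b)/B`.

PROOF.  Fix `l`, `x = x l`, `u = du A b lam x ≥ 0`, so `A (x+1) - A x = b λ u`.  The range
`Ico (A x + r b) (A (x+1) + (r+1) b)` has `b (1 + λ u)` elements (`A x ≤ A (x+1)`), and for such `v`:
`0 ≤ v/B - W ≤ b (1+λu)/B = (1+λu)/(a u2)`.  Note `B κ = b (1+λ)`.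
`csum - B κ Th(W) = ∑_v (Th(v/B) - Th(W)) + (b(1+λu) - b(1+λ)) Th(W)`.
Second summand: `|b λ (u-1) Th(W)| ≤ 2 b λ |u-1| = B (2 λ/(a u2)) |u-1|` (`abs_Th_le`).
First summand, `u ≤ 2`: `1 + λu ≤ 2(1+λ)`, `Th_holder`: each term `≤ 4 √(2κ)`, at most `2 b (1+λ) = 2 B κ`
terms: `≤ 8 √2 B κ √κ ≤ 12 B κ √κ`.
`u > 2`: each term `≤ 4`, number `b(1+λu) ≤ b (1+λ) u`, `u ≤ 4 psi u` (`le_psi_of_two_lt`): `≤ 16 B κ psi u`.
Sum over `l < m`, triangle inequality.
-/

namespace Pool.Agent.Lib.HBP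

open Finset

theorem du_nonneg {b : ℕ} (A : ℕ → ℕ) (hA : Monotone A) {lam : ℝ} (hl : 0 < lam) (x : ℕ) :
    0 ≤ du A b lam x := by
  unfold du
  have h : (A x : ℝ) ≤ A (x + 1) := by exact_mod_cast hA (Nat.le_succ x)
  exact div_nonneg (by linarith) (mul_nonneg (Nat.cast_nonneg _) hl.le)

private theorem partsum_du {b : ℕ} (hb : 1 ≤ b) (A : ℕ → ℕ) {lam : ℝ} (hl : 0 < lam) (x : ℕ) :
    (A (x + 1) : ℝ) - A x = b * lam * du A b lam x := by
  unfold du
  have hb' : (b : ℝ) ≠ 0 := by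
    have : (0 : ℝ) < b := by exact_mod_cast hb
    exact this.ne'
  have hl' : lam ≠ 0 := hl.ne'
  field_simp

/-- Telescoping of the heights. -/
theorem A_sub {b : ℕ} (hb : 1 ≤ b) (A : ℕ → ℕ) (hA : Monotone A) {lam : ℝ} (hl : 0 < lam) {x y : ℕ}
    (hxy : x ≤ y) : (A y : ℝ) - A x = b * lam * ∑ z ∈ Finset.Ico x y, du A b lam z := by
  induction y, hxy using Nat.le_induction with
  | base => simp
  | succ n hn ih =>
    rw [Finset.sum_Ico_succ_top hn, mul_add, ← ih, ← partsum_du hb A hl n]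
    ring

private theorem partsum_one {a b u2 : ℕ} (ha : 1 ≤ a) (hb : 1 ≤ b) (hu2 : 1 ≤ u2) (A : ℕ → ℕ)
    (hA : Monotone A) {lam : ℝ} (hl : 0 < lam) (V : Finset ℤ) (x r : ℕ) :
    |csum (fun v => Th V ((v : ℝ) / (a * u2 * b))) A b x r -
      (a * u2 * b : ℝ) * ((1 + lam) / (a * u2)) * Th V (((A x : ℝ) + r * b) / (a * u2 * b))| ≤
    (a * u2 * b : ℝ) * (2 * lam / (a * u2) * |du A b lam x - 1| +
      12 * ((1 + lam) / (a * u2) * √((1 + lam) / (a * u2))) +
      16 * ((1 + lam) / (a * u2)) * psi (du A b lam x)) := by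
  have hu0 := du_nonneg (b := b) A hA hl x
  have hud := partsum_du hb A hl x
  set u := du A b lam x with hu
  have haR : (0 : ℝ) < a := by exact_mod_cast ha
  have hbR : (0 : ℝ) < b := by exact_mod_cast hb
  have hu2R : (0 : ℝ) < u2 := by exact_mod_cast hu2
  have hau : (0 : ℝ) < a * u2 := mul_pos haR hu2R
  have hBpos : (0 : ℝ) < a * u2 * b := mul_pos hau hbR
  set B : ℝ := (a : ℝ) * u2 * b with hB
  set κ : ℝ := (1 + lam) / (a * u2) with hκ
  have hκ0 : 0 < κ := div_pos (by linarith) hau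
  have hBκ : B * κ = b * (1 + lam) := by
    rw [hB, hκ]
    field_simp
  have hBl : B * (2 * lam / (a * u2) * |u - 1|) = 2 * (b * lam * |u - 1|) := by
    rw [hB]
    field_simp
  set W : ℝ := ((A x : ℝ) + r * b) / B with hW
  set T : ℝ := Th V W with hT
  have hT2 : |T| ≤ 2 := abs_Th_le V W
  set lo := A x + r * b with hlo
  set hi := A (x + 1) + (r + 1) * b with hhi
  have hAx : A x ≤ A (x + 1) := hA (Nat.le_succ x)
  have hlh : lo ≤ hi := by
    rw [hlo, hhi]
    have : r * b ≤ (r + 1) * b := Nat.mul_le_mul_right _ (Nat.le_succ r)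
    omega
  have hdiff : (hi : ℝ) - lo = b * (1 + lam * u) := by
    rw [hlo, hhi]
    push_cast
    have h1 : ((A (x + 1) : ℝ) + (r + 1) * b) - (A x + r * b) = (A (x + 1) - A x) + b := by ring
    rw [h1, hud]
    ring
  have hcard : ((Finset.Ico lo hi).card : ℝ) = b * (1 + lam * u) := by
    rw [Nat.card_Ico, Nat.cast_sub hlh, hdiff]
  have hcs : csum (fun v => Th V ((v : ℝ) / B)) A b x r = ∑ v ∈ Finset.Ico lo hi, Th V ((v : ℝ) / B) := rfl
  have hsplit : csum (fun v => Th V ((v : ℝ) / B)) A b x r - B * κ * T =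
      ∑ v ∈ Finset.Ico lo hi, (Th V ((v : ℝ) / B) - T) + b * lam * (u - 1) * T := by
    rw [hcs, sum_sub_distrib, sum_const, nsmul_eq_mul, hcard, hBκ]
    ring
  rw [hsplit]
  have hsecond : |b * lam * (u - 1) * T| ≤ 2 * (b * lam * |u - 1|) := by
    rw [abs_mul, abs_mul, abs_of_nonneg (mul_nonneg hbR.le hl.le)]
    have h0 : 0 ≤ b * lam * |u - 1| := by positivity
    nlinarith
  have hpsi := psi_nonneg u
  have hterm : ∀ v ∈ Finset.Ico lo hi, |Th V ((v : ℝ) / B) - T| ≤ 4 * √((1 + lam * u) / (a * u2)) := by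
    intro v hv
    rw [Finset.mem_Ico] at hv
    have h1 : (lo : ℝ) ≤ v := by exact_mod_cast hv.1
    have h2 : (v : ℝ) < hi := by exact_mod_cast hv.2
    have h3 : (v : ℝ) / B - W = (v - lo) / B := by
      rw [hW, hlo]
      push_cast
      rw [← sub_div]
    have h4 : |(v : ℝ) / B - W| ≤ (1 + lam * u) / (a * u2) := by
      rw [h3, abs_of_nonneg (div_nonneg (by linarith) hBpos.le)]
      rw [div_le_div_iff₀ hBpos hau]
      have h5 : (v : ℝ) - lo ≤ b * (1 + lam * u) := by linarith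
      have h6 := mul_le_mul_of_nonneg_right h5 hau.le
      calc _ ≤ _ := h6
        _ = _ := by rw [hB]; ring
    calc |Th V ((v : ℝ) / B) - T| ≤ 4 * √|(v : ℝ) / B - W| := Th_holder V _ _
      _ ≤ _ := by
        have := Real.sqrt_le_sqrt h4
        linarith
  have hterm4 : ∀ v ∈ Finset.Ico lo hi, |Th V ((v : ℝ) / B) - T| ≤ 4 := by
    intro v _
    have h1 := abs_Th_le V ((v : ℝ) / B)
    have h2 := abs_sub (Th V ((v : ℝ) / B)) T
    linarith
  have hfirst : ∑ v ∈ Finset.Ico lo hi, |Th V ((v : ℝ) / B) - T| ≤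
      B * (12 * (κ * √κ)) + B * (16 * κ * psi u) := by
    by_cases h2 : u ≤ 2
    · have hle : (1 + lam * u) / (a * u2) ≤ 2 * κ := by
        rw [hκ, ← mul_div_assoc]
        apply div_le_div_of_nonneg_right _ hau.le
        nlinarith
      have hs : √((1 + lam * u) / (a * u2)) ≤ √2 * √κ := by
        rw [← Real.sqrt_mul (by norm_num)]
        exact Real.sqrt_le_sqrt hle
      have hs2 : √2 ≤ 3 / 2 := by
        rw [Real.sqrt_le_left (by norm_num)]
        norm_num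
      have hk := Real.sqrt_nonneg κ
      have hs3 : 4 * √((1 + lam * u) / (a * u2)) ≤ 6 * √κ := by nlinarith
      have hc2 : ((Finset.Ico lo hi).card : ℝ) ≤ 2 * (B * κ) := by
        rw [hcard, hBκ]
        have : lam * u ≤ lam * 2 := mul_le_mul_of_nonneg_left h2 hl.le
        have h5 := mul_le_mul_of_nonneg_left (show 1 + lam * u ≤ 2 * (1 + lam) by linarith) hbR.le
        linarith
      calc ∑ v ∈ Finset.Ico lo hi, |Th V ((v : ℝ) / B) - T|
          ≤ ∑ v ∈ Finset.Ico lo hi, 6 * √κ := sum_le_sum fun v hv => (hterm v hv).trans hs3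
        _ = (Finset.Ico lo hi).card * (6 * √κ) := by rw [sum_const, nsmul_eq_mul]
        _ ≤ 2 * (B * κ) * (6 * √κ) := mul_le_mul_of_nonneg_right hc2 (by positivity)
        _ = B * (12 * (κ * √κ)) := by ring
        _ ≤ _ := by
          have : 0 ≤ B * (16 * κ * psi u) := by positivity
          linarith
    · rw [not_le] at h2
      have h4 := le_psi_of_two_lt h2
      have hc2 : ((Finset.Ico lo hi).card : ℝ) ≤ B * κ * u := by
        rw [hcard, hBκ]
        have h5 := mul_le_mul_of_nonneg_left (show 1 + lam * u ≤ (1 + lam) * u by nlinarith) hbR.le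
        linarith
      have hBκ0 : 0 ≤ B * κ := by positivity
      calc ∑ v ∈ Finset.Ico lo hi, |Th V ((v : ℝ) / B) - T|
          ≤ ∑ v ∈ Finset.Ico lo hi, (4 : ℝ) := sum_le_sum hterm4
        _ = (Finset.Ico lo hi).card * 4 := by rw [sum_const, nsmul_eq_mul]
        _ ≤ B * κ * u * 4 := mul_le_mul_of_nonneg_right hc2 (by norm_num)
        _ ≤ B * κ * (4 * psi u) * 4 :=
          mul_le_mul_of_nonneg_right (mul_le_mul_of_nonneg_left h4 hBκ0) (by norm_num)
        _ = B * (16 * κ * psi u) := by ring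
        _ ≤ _ := by
          have : 0 ≤ B * (12 * (κ * √κ)) := by positivity
          linarith
  have habs : |∑ v ∈ Finset.Ico lo hi, (Th V ((v : ℝ) / B) - T)| ≤
      ∑ v ∈ Finset.Ico lo hi, |Th V ((v : ℝ) / B) - T| := abs_sum_le_sum_abs _ _
  have htri := abs_add_le (∑ v ∈ Finset.Ico lo hi, (Th V ((v : ℝ) / B) - T)) (b * lam * (u - 1) * T)
  calc _ ≤ _ := htri
    _ ≤ (B * (12 * (κ * √κ)) + B * (16 * κ * psi u)) + 2 * (b * lam * |u - 1|) :=
      add_le_add (habs.trans hfirst) hsecond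
    _ = _ := by
      rw [← hBl]
      ring

theorem part_sum {a b u2 : ℕ} (ha : 1 ≤ a) (hb : 1 ≤ b) (hu2 : 1 ≤ u2) (A : ℕ → ℕ) (hA : Monotone A)
    {lam : ℝ} (hl : 0 < lam) (V : Finset ℤ) (m : ℕ) (x r : ℕ → ℕ) :
    |∑ l ∈ range m, csum (fun v => Th V ((v : ℝ) / (a * u2 * b))) A b (x l) (r l) -
      (a * u2 * b : ℝ) * ((1 + lam) / (a * u2)) *
        ∑ l ∈ range m, Th V (((A (x l) : ℝ) + r l * b) / (a * u2 * b))| ≤
    (a * u2 * b : ℝ) * ∑ l ∈ range m, (2 * lam / (a * u2) * |du A b lam (x l) - 1| +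
      12 * ((1 + lam) / (a * u2) * √((1 + lam) / (a * u2))) +
      16 * ((1 + lam) / (a * u2)) * psi (du A b lam (x l))) := by
  rw [mul_sum, mul_sum, ← sum_sub_distrib]
  exact (abs_sum_le_sum_abs _ _).trans
    (sum_le_sum fun l _ => partsum_one ha hb hu2 A hA hl V (x l) (r l))

end Pool.Agent.Lib.HBP
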