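import Mathlib
import Pool.Agent.Lib.HBP.BfBasic

/-!
MODULE PhEnd: `Ph` is small at the ends of an arc if `V` is sparse.

PROOF.  Second difference of `Bf`: `D(u) = Bf(u+1) - 2 Bf(u) + Bf(u-1) = Af(ξ+1) - Af(ξ)` with
`u - 1 < ξ < u` (mean value theorem).  `D(u) = 0` for `u ≤ -1`.
At most 3 integers `c` have `c > v - 2` and `v - c > -1`; for them `(h/√2) D ≤ 16`.
For `0 < t ≤ u - 1`: `(h/√2) D ≤ min (8/√t) (4h²/(t√t)) ≤ 32 h²/(√t (√t+h)²)`.
The first window of `w` integers contributes at most `16 √N`; the `j`-th window (`j ≥ 1`) at most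
`N · 32 h²/(√(jw) (√(jw)+h)²) ≤ (N/w) (G(jw) - G((j-1)w))` with `G y = 64 h √y/(√y+h) ≤ 64 h`.
-/

namespace Pool.Agent.Lib.HBP

open Finset

private theorem phEnd_mvt {h x : ℝ} (hh : 0 < h) (hx : 0 < x) (u : ℝ) :
    ∃ ξ, u - 1 < ξ ∧ ξ < u ∧
      Bf h x (u + 1) - 2 * Bf h x u + Bf h x (u - 1) = Af h x (ξ + 1) - Af h x ξ := by
  have hd : ∀ s : ℝ, HasDerivAt (fun s => Bf h x (s + 1) - Bf h x s)
      (Af h x (s + 1) - Af h x s) s := by
    intro s
    exact ((hasDerivAt_Bf hh hx (s + 1)).comp_add_const s 1).sub (hasDerivAt_Bf hh hx s)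
  obtain ⟨ξ, hξ, he⟩ := exists_hasDerivAt_eq_slope (fun s => Bf h x (s + 1) - Bf h x s)
    (fun s => Af h x (s + 1) - Af h x s) (show u - 1 < u by linarith)
    (fun s _ => (hd s).continuousAt.continuousWithinAt) (fun s _ => hd s)
  refine ⟨ξ, hξ.1, hξ.2, ?_⟩
  have e1 : u - 1 + 1 = u := by ring
  have e2 : u - (u - 1) = 1 := by ring
  simp only [e1, e2, div_one] at he
  rw [he]
  ring

private theorem phEnd_D0 {h x u : ℝ} (hu : u ≤ -1) :
    Bf h x (u + 1) - 2 * Bf h x u + Bf h x (u - 1) = 0 := by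
  have h1 : ¬ (0 < u + 1) := by linarith
  have h2 : ¬ (0 < u) := by linarith
  have h3 : ¬ (0 < u - 1) := by linarith
  simp only [Bf, if_neg h1, if_neg h2, if_neg h3]
  ring

/-- The uniform bound. -/
private theorem phEnd_T0 {h x : ℝ} (hh : 1 ≤ h) (hx : h ^ 2 / 8 ≤ x) (u : ℝ) :
    h / √2 * (Bf h x (u + 1) - 2 * Bf h x u + Bf h x (u - 1)) ≤ 16 := by
  have hh0 : 0 < h := by linarith
  have hx0 : 0 < x := lt_of_lt_of_le (by positivity) hx
  obtain ⟨ξ, h1, h2, he⟩ := phEnd_mvt hh0 hx0 u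
  rw [he]
  have h3 : Af h x (ξ + 1) - Af h x ξ ≤ 2 * √2 * h / x :=
    (Af_incr_le hh0 hx0 ξ).trans (min_le_right _ _)
  have h4 : (0 : ℝ) < √2 := by positivity
  calc h / √2 * (Af h x (ξ + 1) - Af h x ξ) ≤ h / √2 * (2 * √2 * h / x) := by gcongr
    _ = 2 * h ^ 2 / x := by field_simp
    _ ≤ 16 := by rw [div_le_iff₀ hx0]; linarith

/-- The first bound for large `u`. -/
private theorem phEnd_T1 {h x u t : ℝ} (hh : 1 ≤ h) (hx : h ^ 2 / 8 ≤ x) (ht : 0 < t)
    (htu : t ≤ u - 1) :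
    h / √2 * (Bf h x (u + 1) - 2 * Bf h x u + Bf h x (u - 1)) ≤ 8 / √t := by
  have hh0 : 0 < h := by linarith
  have hx0 : 0 < x := lt_of_lt_of_le (by positivity) hx
  obtain ⟨ξ, h1, h2, he⟩ := phEnd_mvt hh0 hx0 u
  rw [he]
  have hξ : t ≤ ξ := by linarith
  have hξ0 : 0 < ξ := by linarith
  have h3 : Af h x (ξ + 1) - Af h x ξ ≤ √2 * h / (x * √ξ) :=
    (Af_incr_le' hh0 hx0 hξ0).trans (min_le_left _ _)
  have h4 : (0 : ℝ) < √2 := by positivity
  have h5 : (0 : ℝ) < √t := Real.sqrt_pos.2 ht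
  have h6 : √t ≤ √ξ := Real.sqrt_le_sqrt hξ
  calc h / √2 * (Af h x (ξ + 1) - Af h x ξ) ≤ h / √2 * (√2 * h / (x * √ξ)) := by gcongr
    _ ≤ h / √2 * (√2 * h / (x * √t)) := by gcongr
    _ = h ^ 2 / x / √t := by field_simp
    _ ≤ 8 / √t := by
        gcongr
        rw [div_le_iff₀ hx0]; linarith

/-- The second bound for large `u`. -/
private theorem phEnd_T2 {h x u t : ℝ} (hh : 1 ≤ h) (hx : h ^ 2 / 8 ≤ x) (hx' : x ≤ 8 * h ^ 2)
    (ht : 0 < t) (htu : t ≤ u - 1) :
    h / √2 * (Bf h x (u + 1) - 2 * Bf h x u + Bf h x (u - 1)) ≤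
      32 * h ^ 2 / (√t * (√t + h) ^ 2) := by
  have hh0 : 0 < h := by linarith
  have hx0 : 0 < x := lt_of_lt_of_le (by positivity) hx
  have h5 : (0 : ℝ) < √t := Real.sqrt_pos.2 ht
  rcases le_total (√t) h with hc | hc
  · refine (phEnd_T1 hh hx ht htu).trans ?_
    rw [div_le_div_iff₀ h5 (by positivity)]
    have : (√t + h) ^ 2 ≤ 4 * h ^ 2 := by nlinarith
    nlinarith [mul_le_mul_of_nonneg_left this h5.le]
  · obtain ⟨ξ, h1, h2, he⟩ := phEnd_mvt hh0 hx0 u
    rw [he]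
    have hξ : t ≤ ξ := by linarith
    have hξ0 : 0 < ξ := by linarith
    have h3 : Af h x (ξ + 1) - Af h x ξ ≤ x / (√2 * h * (ξ * √ξ)) :=
      (Af_incr_le' hh0 hx0 hξ0).trans (min_le_right _ _)
    have h4 : (0 : ℝ) < √2 := by positivity
    have h6 : √t ≤ √ξ := Real.sqrt_le_sqrt hξ
    have h7 : √t ^ 2 = t := Real.sq_sqrt ht.le
    have h8 : (√2 : ℝ) ^ 2 = 2 := Real.sq_sqrt (by norm_num)
    calc h / √2 * (Af h x (ξ + 1) - Af h x ξ) ≤ h / √2 * (x / (√2 * h * (ξ * √ξ))) := by gcongr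
      _ ≤ h / √2 * (8 * h ^ 2 / (√2 * h * (t * √t))) := by gcongr
      _ = 4 * h ^ 2 / (t * √t) := by
          field_simp
          nlinarith [h8]
      _ ≤ 32 * h ^ 2 / (√t * (√t + h) ^ 2) := by
          rw [div_le_div_iff₀ (by positivity) (by positivity)]
          have h9 : (√t + h) ^ 2 ≤ 4 * t := by nlinarith
          have h10 : 0 < h ^ 2 * √t := by positivity
          nlinarith [mul_le_mul_of_nonneg_left h9 h10.le, mul_pos h10 ht]

/-- Telescoping. -/
private theorem phEnd_G {h a b : ℝ} (hh : 0 < h) (ha : 0 ≤ a) (hab : a < b) :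
    (b - a) * (32 * h ^ 2 / (√b * (√b + h) ^ 2)) ≤
      64 * h * √b / (√b + h) - 64 * h * √a / (√a + h) := by
  have hb : 0 < b := by linarith
  have h1 : 0 < √b := Real.sqrt_pos.2 hb
  have h2 : 0 ≤ √a := Real.sqrt_nonneg a
  have h3 : √a ≤ √b := Real.sqrt_le_sqrt hab.le
  have e1 : b - a = (√b - √a) * (√b + √a) := by
    have := Real.sq_sqrt hb.le
    have := Real.sq_sqrt ha
    nlinarith
  have e2 : 64 * h * √b / (√b + h) - 64 * h * √a / (√a + h) =
      64 * h ^ 2 * (√b - √a) / ((√b + h) * (√a + h)) := by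
    field_simp
    ring
  rw [e1, e2]
  have h4 : 0 ≤ √b - √a := by linarith
  calc (√b - √a) * (√b + √a) * (32 * h ^ 2 / (√b * (√b + h) ^ 2))
      ≤ (√b - √a) * (2 * √b) * (32 * h ^ 2 / (√b * (√b + h) ^ 2)) := by
        gcongr; linarith
    _ = 64 * h ^ 2 * (√b - √a) / ((√b + h) * (√b + h)) := by
        field_simp
        ring
    _ ≤ 64 * h ^ 2 * (√b - √a) / ((√b + h) * (√a + h)) := by
        gcongr

private theorem phEnd_sumG {h : ℝ} (hh : 0 < h) {w : ℕ} (hw : 1 ≤ w) (J : ℕ) :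
    ∑ j ∈ range J, 32 * h ^ 2 /
      (√(((j + 1 : ℕ) : ℝ) * w) * (√(((j + 1 : ℕ) : ℝ) * w) + h) ^ 2) ≤ 64 * h / w := by
  have hw0 : (0 : ℝ) < w := by exact_mod_cast hw
  have key : ∀ j ∈ range J, 32 * h ^ 2 /
      (√(((j + 1 : ℕ) : ℝ) * w) * (√(((j + 1 : ℕ) : ℝ) * w) + h) ^ 2) ≤
      (64 * h * √(((j + 1 : ℕ) : ℝ) * w) / (√(((j + 1 : ℕ) : ℝ) * w) + h)
        - 64 * h * √((j : ℝ) * w) / (√((j : ℝ) * w) + h)) / w := by
    intro j _
    rw [le_div_iff₀ hw0]
    have hlt : (j : ℝ) * w < ((j + 1 : ℕ) : ℝ) * w := by push_cast; nlinarith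
    have := phEnd_G (a := (j : ℝ) * w) (b := ((j + 1 : ℕ) : ℝ) * w) hh (by positivity) hlt
    have e : ((j + 1 : ℕ) : ℝ) * w - (j : ℝ) * w = w := by push_cast; ring
    rw [e] at this
    linarith
  refine (Finset.sum_le_sum key).trans ?_
  rw [← Finset.sum_div]
  have tel := Finset.sum_range_sub (fun j : ℕ => 64 * h * √((j : ℝ) * w) / (√((j : ℝ) * w) + h)) J
  rw [tel]
  gcongr
  have h1 : 0 ≤ √((J : ℝ) * w) := Real.sqrt_nonneg _
  have h2 : 64 * h * √((J : ℝ) * w) / (√((J : ℝ) * w) + h) ≤ 64 * h := by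
    rw [div_le_iff₀ (by positivity)]
    nlinarith [mul_pos hh hh]
  simpa using h2

private theorem phEnd_inv_sqrt (T : Finset ℤ) :
    (∀ k ∈ T, 1 ≤ k) → ∑ k ∈ T, 8 / √(k : ℝ) ≤ 16 * √(T.card : ℝ) := by
  induction T using Finset.induction_on_max with
  | empty => intro _; simp
  | insert a s hs ih =>
    intro hk
    have ha : a ∉ s := fun h => lt_irrefl _ (hs a h)
    rw [Finset.sum_insert ha, Finset.card_insert_of_notMem ha]
    have ih' := ih (fun k hk' => hk k (Finset.mem_insert_of_mem hk'))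
    have hsub : s ⊆ Finset.Ico 1 a := by
      intro k hk'
      rw [Finset.mem_Ico]
      exact ⟨hk k (Finset.mem_insert_of_mem hk'), hs k hk'⟩
    have hcard : s.card ≤ (a - 1).toNat := by
      have := Finset.card_le_card hsub
      simpa using this
    have ha1 : 1 ≤ a := hk a (Finset.mem_insert_self _ _)
    have hcard' : (s.card : ℤ) + 1 ≤ a := by omega
    have hcR : (s.card : ℝ) + 1 ≤ (a : ℝ) := by exact_mod_cast hcard'
    set n : ℝ := (s.card : ℝ) with hn
    have hn0 : 0 ≤ n := by positivity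
    have h1 : 0 ≤ √n := Real.sqrt_nonneg _
    have h2 : 0 < √(n + 1) := Real.sqrt_pos.2 (by linarith)
    have h3 : √n ≤ √(n + 1) := Real.sqrt_le_sqrt (by linarith)
    have h4 : √n ^ 2 = n := Real.sq_sqrt hn0
    have h5 : √(n + 1) ^ 2 = n + 1 := Real.sq_sqrt (by linarith)
    have h6 : 8 / √(a : ℝ) ≤ 8 / √(n + 1) := by
      gcongr
    have h7 : 8 / √(n + 1) ≤ 16 * (√(n + 1) - √n) := by
      rw [div_le_iff₀ h2]
      nlinarith
    push_cast
    linarith

theorem Ph_end {h x : ℝ} (hh : 1 ≤ h) (V : Finset ℤ) {w N : ℕ} (hw : 1 ≤ w) (hs : Sparse V w N)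
    (hx : h ^ 2 / 8 ≤ x) (hx' : x ≤ 8 * h ^ 2) (v : ℝ) :
    Ph h V x v ≤ 200 * (1 + √N + N / w * h) := by
  have hh0 : 0 < h := by linarith
  have hw0 : (0 : ℝ) < w := by exact_mod_cast hw
  set m : ℤ := ⌊v⌋ with hm
  have hm1 : (m : ℝ) ≤ v := Int.floor_le v
  have hm2 : v < m + 1 := Int.lt_floor_add_one v
  unfold Ph
  rw [Finset.mul_sum]
  set tm : ℤ → ℝ := fun c => h / √2 *
    (Bf h x (v - c + 1) - 2 * Bf h x (v - c) + Bf h x (v - c - 1)) with htm
  change ∑ c ∈ V, tm c ≤ _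
  -- three parts
  rw [← Finset.sum_filter_add_sum_filter_not V (fun c : ℤ => m - 1 - c ≤ 0)]
  rw [← Finset.sum_filter_add_sum_filter_not (V.filter (fun c : ℤ => ¬ (m - 1 - c ≤ 0)))
    (fun c : ℤ => m - 1 - c ≤ w)]
  have P1 : ∑ c ∈ V.filter (fun c : ℤ => m - 1 - c ≤ 0), tm c ≤ 48 := by
    have hb : ∀ c ∈ V.filter (fun c : ℤ => m - 1 - c ≤ 0), tm c ≤ if c < m + 2 then 16 else 0 := by
      intro c _
      split_ifs with hc
      · exact phEnd_T0 hh hx (v - c)
      · have h1 : v - c ≤ -1 := by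
          have : ((m + 2 : ℤ) : ℝ) ≤ (c : ℝ) := by exact_mod_cast (not_lt.1 hc)
          push_cast at this
          linarith
        simp only [htm, phEnd_D0 h1, mul_zero, le_refl]
    refine (Finset.sum_le_sum hb).trans ?_
    rw [← Finset.sum_filter, Finset.sum_const, nsmul_eq_mul]
    have hsub : ((V.filter (fun c : ℤ => m - 1 - c ≤ 0)).filter (fun c => c < m + 2)) ⊆
        Finset.Ico (m - 1) (m + 2) := by
      intro c hc
      simp only [Finset.mem_filter] at hc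
      rw [Finset.mem_Ico]
      exact ⟨by linarith [hc.1.2], hc.2⟩
    have hcard := Finset.card_le_card hsub
    rw [Int.card_Ico] at hcard
    have h3 : (m + 2 - (m - 1)).toNat = 3 := by
      have : m + 2 - (m - 1) = 3 := by ring
      rw [this]; rfl
    rw [h3] at hcard
    have : (((V.filter (fun c : ℤ => m - 1 - c ≤ 0)).filter (fun c => c < m + 2)).card : ℝ) ≤ 3 := by
      exact_mod_cast hcard
    linarith
  have P2 : ∑ c ∈ (V.filter (fun c : ℤ => ¬ (m - 1 - c ≤ 0))).filter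
      (fun c : ℤ => m - 1 - c ≤ w), tm c ≤ 16 * √N := by
    set S := (V.filter (fun c : ℤ => ¬ (m - 1 - c ≤ 0))).filter (fun c : ℤ => m - 1 - c ≤ w) with hS
    have hb : ∀ c ∈ S, tm c ≤ 8 / √(((m - 1 - c : ℤ)) : ℝ) := by
      intro c hc
      simp only [hS, Finset.mem_filter, not_le] at hc
      have h1 : (1 : ℤ) ≤ m - 1 - c := by linarith [hc.1.2]
      have h1' : (1 : ℝ) ≤ ((m - 1 - c : ℤ) : ℝ) := by exact_mod_cast h1
      refine phEnd_T1 hh hx (by linarith) ?_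
      push_cast
      linarith
    refine (Finset.sum_le_sum hb).trans ?_
    have hinj : Set.InjOn (fun c : ℤ => m - 1 - c) (S : Set ℤ) := by
      intro a _ b _ hab
      simp only at hab
      linarith
    have e : ∑ c ∈ S, 8 / √(((m - 1 - c : ℤ)) : ℝ) =
        ∑ k ∈ S.image (fun c : ℤ => m - 1 - c), 8 / √(k : ℝ) := by
      rw [Finset.sum_image hinj]
    rw [e]
    refine (phEnd_inv_sqrt _ ?_).trans ?_
    · intro k hk
      rw [Finset.mem_image] at hk
      obtain ⟨c, hc, rfl⟩ := hk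
      simp only [hS, Finset.mem_filter, not_le] at hc
      linarith [hc.1.2]
    · rw [Finset.card_image_of_injOn hinj]
      have hc : S.card ≤ N := by
        refine (Finset.card_le_card ?_).trans (hs (m - 1 - w))
        intro c hc
        simp only [hS, Finset.mem_filter, not_le] at hc
        rw [Finset.mem_filter]
        refine ⟨hc.1.1, by linarith [hc.2], by linarith [hc.1.2]⟩
      have : (S.card : ℝ) ≤ N := by exact_mod_cast hc
      gcongr
  have P3 : ∑ c ∈ (V.filter (fun c : ℤ => ¬ (m - 1 - c ≤ 0))).filter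
      (fun c : ℤ => ¬ (m - 1 - c ≤ w)), tm c ≤ N * (64 * h / w) := by
    set S := (V.filter (fun c : ℤ => ¬ (m - 1 - c ≤ 0))).filter
      (fun c : ℤ => ¬ (m - 1 - c ≤ w)) with hS
    -- index of the window, shifted by one
    set jj : ℤ → ℕ := fun c => ((m - 2 - c) / w).toNat - 1 with hjj
    set F : ℕ → ℝ := fun j => 32 * h ^ 2 /
      (√(((j + 1 : ℕ) : ℝ) * w) * (√(((j + 1 : ℕ) : ℝ) * w) + h) ^ 2) with hF
    have hwZ : (0 : ℤ) < w := by exact_mod_cast hw
    have hjc : ∀ c ∈ S, ((jj c + 1 : ℕ) : ℤ) * w ≤ m - 2 - c ∧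
        m - 2 - c < ((jj c + 1 : ℕ) : ℤ) * w + w := by
      intro c hc
      simp only [hS, Finset.mem_filter, not_le] at hc
      have h1 : (w : ℤ) ≤ m - 2 - c := by linarith [hc.2]
      have h2 : 1 ≤ (m - 2 - c) / w := by
        rw [Int.le_ediv_iff_mul_le hwZ]; linarith
      have h3 : ((jj c + 1 : ℕ) : ℤ) = (m - 2 - c) / w := by
        simp only [hjj]
        omega
      rw [h3]
      have h4 := Int.mul_ediv_add_emod (m - 2 - c) w
      have h5 := Int.emod_nonneg (m - 2 - c) hwZ.ne'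
      have h6 := Int.emod_lt_of_pos (m - 2 - c) hwZ
      constructor
      · nlinarith
      · nlinarith
    have hb : ∀ c ∈ S, tm c ≤ F (jj c) := by
      intro c hc
      have h1 := (hjc c hc).1
      have h1' : ((jj c + 1 : ℕ) : ℝ) * w ≤ (m : ℝ) - 2 - c := by exact_mod_cast h1
      refine phEnd_T2 hh hx hx' (by positivity) ?_
      linarith
    refine (Finset.sum_le_sum hb).trans ?_
    obtain ⟨J, hJ⟩ : ∃ J : ℕ, ∀ c ∈ S, jj c < J := by
      refine ⟨(S.sup jj) + 1, fun c hc => ?_⟩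
      exact Nat.lt_succ_of_le (Finset.le_sup (f := jj) hc)
    rw [← Finset.sum_fiberwise_of_maps_to (g := jj) (t := range J)
      (fun c hc => Finset.mem_range.2 (hJ c hc))]
    have hfib : ∀ j ∈ range J, ∑ c ∈ S.filter (fun c => jj c = j), F (jj c) ≤ N * F j := by
      intro j _
      have hF0 : 0 ≤ F j := by simp only [hF]; positivity
      have e : ∑ c ∈ S.filter (fun c => jj c = j), F (jj c) =
          ∑ c ∈ S.filter (fun c => jj c = j), F j := by
        refine Finset.sum_congr rfl fun c hc => ?_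
        rw [(Finset.mem_filter.1 hc).2]
      rw [e, Finset.sum_const, nsmul_eq_mul]
      have hcard : (S.filter (fun c => jj c = j)).card ≤ N := by
        refine (Finset.card_le_card ?_).trans (hs (m - 1 - ((j + 1 : ℕ) : ℤ) * w - w))
        intro c hc
        rw [Finset.mem_filter] at hc
        obtain ⟨hcS, hcj⟩ := hc
        have h1 := hjc c hcS
        rw [hcj] at h1
        simp only [hS, Finset.mem_filter] at hcS
        rw [Finset.mem_filter]
        refine ⟨hcS.1.1, by linarith [h1.2], by linarith [h1.1]⟩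
      have : ((S.filter (fun c => jj c = j)).card : ℝ) ≤ N := by exact_mod_cast hcard
      gcongr
    refine (Finset.sum_le_sum hfib).trans ?_
    rw [← Finset.mul_sum]
    gcongr
    exact phEnd_sumG hh0 hw J
  have hN : 0 ≤ √(N : ℝ) := Real.sqrt_nonneg _
  have hNh : 0 ≤ (N : ℝ) / w * h := by positivity
  have e3 : (N : ℝ) * (64 * h / w) = 64 * ((N : ℝ) / w * h) := by ring
  rw [e3] at P3
  linarith

end Pool.Agent.Lib.HBP
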