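import Mathlib
import Pool.Agent.Lib.HBP.ThBound
import Pool.Agent.Lib.HBP.BfTrans

/-!
MODULE PhProps: properties of `Ph h V x v = (h/√2) ∑_{c ∈ V} (Bf(v-c+1) - 2 Bf(v-c) + Bf(v-c-1))`.

PROOF.  (1),(2): `Bf h x` is convex (`Af` monotone; for `x = 0` it is `π max 0 t`), so every summand is `≥ 0`;
the sum over `V` is at most the sum over an interval of integers `[-m, m] ⊇ V`, which telescopes to
`(Bf(v+m+1) - Bf(v+m)) - (Bf(v-m) - Bf(v-m-1)) ≤ Bf(v+m+1) - Bf(v+m) ≤ π` (`Af ≤ π`, `Af ≥ 0`);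
`π/√2 ≤ 3`.
(3) `Bf_zero`; the second difference of `max 0 t` is `hat`.
(4) LIPSCHITZ: the derivative in `v` is `(h/√2) ∑_c (Af(v-c+1) - 2 Af(v-c) + Af(v-c-1))
= (h/√2) ∑_c (d (1-c) - d (-c))` with `d k = Af(v+k) - Af(v+k-1) ≥ 0`, a unimodal sequence (zero for
`v + k ≤ 0`, decreasing as soon as `v + k - 1 ≥ 0`, by `Af_concave`), so the sum is at most `max d ≤
min π (2√2 h/x)` in absolute value (`Af_incr_le`; see ThBound for the unimodal argument), and
`(h/√2) min π (2√2 h/x) ≤ min (3h) (2h²/x)`.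
(6) STEP: sum of `Bf_trans` (with `t = v - c + 1, v - c, v - c - 1`):
`Ph h V (x+s) (v - ((x+s)²-x²)/(2h²)) - Ph h V x v = -∫_0^s Th V (v - ((x+r)²-x²)/(2h²)) dr`, and
`Th V (v - y) ≥ Th V v - 4√y` (`Th_holder`), `y ≤ ((x+s)²-x²)/(2h²)`.
(5) START: from `x = 0` with `s = x`: `|Ph h V x (v - x²/(2h²)) - Ph h V 0 v| ≤ 2x` (`abs_Th_le`), and (4) with
distance `x²/(2h²)`: `≤ (2h²/x)(x²/(2h²)) = x`.
-/

namespace Pool.Agent.Lib.HBP

open Finset

/-- telescoping over a finite set, increasing part -/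
private theorem pp_inc {a : ℤ → ℝ} (h0 : ∀ k, 0 ≤ a k) (V : Finset ℤ) :
    ∀ q : ℤ, (∀ k ≤ q, a (k - 1) ≤ a k) → (∀ c ∈ V, c ≤ q) →
      ∑ c ∈ V, (a c - a (c - 1)) ≤ a q := by
  induction V using Finset.induction_on_max with
  | empty => intro q _ _; simpa using h0 q
  | insert k V hk ih =>
    intro q hq hc
    have hkV : k ∉ V := fun h => lt_irrefl _ (hk k h)
    rw [Finset.sum_insert hkV]
    have hkq : k ≤ q := hc k (Finset.mem_insert_self _ _)
    have h1 := ih (k - 1) (fun j hj => hq j (by omega)) (fun c hc' => by have := hk c hc'; omega)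
    have hmono : ∀ j : ℕ, k + j ≤ q → a k ≤ a (k + j) := by
      intro j
      induction j with
      | zero => intro _; simp
      | succ j ihj =>
        intro hj
        push_cast at hj ⊢
        have h2 := ihj (by omega)
        have h3 := hq (k + (j + 1)) hj
        rw [show k + ((j : ℤ) + 1) - 1 = k + j by ring] at h3
        linarith
    have h4 := hmono (q - k).toNat (by omega)
    rw [show k + ((q - k).toNat : ℤ) = q by omega] at h4
    linarith

/-- telescoping over a finite set, decreasing part -/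
private theorem pp_dec {a : ℤ → ℝ} (h0 : ∀ k, 0 ≤ a k) (V : Finset ℤ) :
    ∀ q : ℤ, (∀ k, q < k → a k ≤ a (k - 1)) → (∀ c ∈ V, q < c) →
      ∑ c ∈ V, (a (c - 1) - a c) ≤ a q := by
  induction V using Finset.induction_on_min with
  | empty => intro q _ _; simpa using h0 q
  | insert k V hk ih =>
    intro q hq hc
    have hkV : k ∉ V := fun h => lt_irrefl _ (hk k h)
    rw [Finset.sum_insert hkV]
    have hkq : q < k := hc k (Finset.mem_insert_self _ _)
    have h1 := ih k (fun j hj => hq j (by omega)) (fun c hc' => hk c hc')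
    have hmono : ∀ j : ℕ, a (q + j) ≤ a q := by
      intro j
      induction j with
      | zero => simp
      | succ j ihj =>
        push_cast
        have h3 := hq (q + (j + 1)) (by omega)
        rw [show q + ((j : ℤ) + 1) - 1 = q + j by ring] at h3
        linarith
    have h4 := hmono (k - 1 - q).toNat
    rw [show q + ((k - 1 - q).toNat : ℤ) = k - 1 by omega] at h4
    linarith

/-- unimodal sequences -/
private theorem pp_uni {a : ℤ → ℝ} {m : ℝ} (h0 : ∀ k, 0 ≤ a k) (hm : ∀ k, a k ≤ m) (p : ℤ)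
    (hinc : ∀ k ≤ p, a (k - 1) ≤ a k) (hdec : ∀ k, p + 1 < k → a k ≤ a (k - 1))
    (V : Finset ℤ) : |∑ c ∈ V, (a c - a (c - 1))| ≤ m := by
  have key : ∀ p' : ℤ, (∀ k ≤ p', a (k - 1) ≤ a k) → (∀ k, p' < k → a k ≤ a (k - 1)) →
      |∑ c ∈ V, (a c - a (c - 1))| ≤ m := by
    intro p' h1 h2
    rw [← Finset.sum_filter_add_sum_filter_not V (fun c => c ≤ p')]
    have e1 := pp_inc h0 (V.filter (fun c => c ≤ p')) p' h1
      (fun c hc => (Finset.mem_filter.1 hc).2)
    have e2 := pp_dec h0 (V.filter (fun c => ¬ c ≤ p')) p' h2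
      (fun c hc => not_le.1 (Finset.mem_filter.1 hc).2)
    have e3 : 0 ≤ ∑ c ∈ V.filter (fun c => c ≤ p'), (a c - a (c - 1)) :=
      Finset.sum_nonneg fun c hc => by
        have := h1 c (Finset.mem_filter.1 hc).2
        linarith
    have e4 : 0 ≤ ∑ c ∈ V.filter (fun c => ¬ c ≤ p'), (a (c - 1) - a c) :=
      Finset.sum_nonneg fun c hc => by
        have := h2 c (not_le.1 (Finset.mem_filter.1 hc).2)
        linarith
    have e5 : ∑ c ∈ V.filter (fun c => ¬ c ≤ p'), (a c - a (c - 1)) =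
        -∑ c ∈ V.filter (fun c => ¬ c ≤ p'), (a (c - 1) - a c) := by
      rw [← Finset.sum_neg_distrib]
      exact Finset.sum_congr rfl fun c _ => by ring
    have e6 := hm p'
    rw [e5, abs_le]
    constructor <;> linarith
  rcases le_total (a p) (a (p + 1)) with h | h
  · refine key (p + 1) (fun k hk => ?_) hdec
    rcases eq_or_lt_of_le hk with rfl | hk'
    · rwa [show p + 1 - 1 = p by ring]
    · exact hinc k (by omega)
  · refine key p hinc (fun k hk => ?_)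
    rcases eq_or_lt_of_le (show p + 1 ≤ k by omega) with rfl | hk'
    · rwa [show p + 1 - 1 = p by ring]
    · exact hdec k hk'

private theorem pp_sum (f : ℝ → ℝ) (v : ℝ) (V : Finset ℤ) :
    ∑ c ∈ V, (f (v - c) - f (v - c - 1)) =
      ∑ c ∈ V.image (fun c => -c), (f (v + (c : ℤ)) - f (v + ((c - 1 : ℤ) : ℝ))) := by
  rw [Finset.sum_image (fun x _ y _ h => by simpa using h)]
  refine Finset.sum_congr rfl fun c _ => ?_
  push_cast
  rw [show v + -(c : ℝ) = v - c by ring, show v + (-(c : ℝ) - 1) = v - c - 1 by ring]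

/-- monotone functions with values in `[0, m]` -/
private theorem pp_mono {f : ℝ → ℝ} {m : ℝ} (h0 : ∀ t, 0 ≤ f t) (hm : ∀ t, f t ≤ m)
    (hf : Monotone f) (v : ℝ) (V : Finset ℤ) : ∑ c ∈ V, (f (v - c) - f (v - c - 1)) ≤ m := by
  rw [pp_sum]
  obtain ⟨q, hq⟩ : ∃ q : ℤ, ∀ c ∈ V.image (fun c => -c), c ≤ q := by
    obtain ⟨q, hq⟩ := (V.image (fun c => -c)).bddAbove
    exact ⟨q, fun c hc => hq hc⟩
  refine (pp_inc (a := fun k : ℤ => f (v + k)) (fun k => h0 _) _ q (fun k _ => hf ?_) hq).trans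
    (hm _)
  push_cast
  linarith

private theorem pp_unif {f : ℝ → ℝ} {m : ℝ} (h0 : ∀ t, 0 ≤ f t) (hm : ∀ t, f t ≤ m)
    (v : ℝ) (p : ℤ) (hinc : ∀ k : ℤ, k ≤ p → f (v + ((k - 1 : ℤ) : ℝ)) ≤ f (v + k))
    (hdec : ∀ k : ℤ, p + 1 < k → f (v + k) ≤ f (v + ((k - 1 : ℤ) : ℝ))) (V : Finset ℤ) :
    |∑ c ∈ V, (f (v - c) - f (v - c - 1))| ≤ m := by
  rw [pp_sum]
  exact pp_uni (a := fun k : ℤ => f (v + k)) (fun k => h0 _) (fun k => hm _) p hinc hdec _

/-- increments of `Bf` -/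
private theorem pp_I {h x : ℝ} (hh : 0 < h) (hx : 0 ≤ x) :
    Monotone (fun t => Bf h x (t + 1) - Bf h x t) ∧
      (∀ t, 0 ≤ Bf h x (t + 1) - Bf h x t) ∧ ∀ t, Bf h x (t + 1) - Bf h x t ≤ Real.pi := by
  rcases eq_or_lt_of_le hx with rfl | hx'
  · have hpi := Real.pi_pos
    have e : ∀ t : ℝ, Bf h 0 (t + 1) - Bf h 0 t = Real.pi * (max 0 (t + 1) - max 0 t) := by
      intro t; rw [Bf_zero hh, Bf_zero hh]; ring
    refine ⟨fun s t hst => ?_, fun t => ?_, fun t => ?_⟩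
    · simp only [e]
      apply mul_le_mul_of_nonneg_left _ hpi.le
      rcases max_cases 0 (s + 1) with ⟨h1, h1'⟩ | ⟨h1, h1'⟩ <;>
      rcases max_cases 0 s with ⟨h2, h2'⟩ | ⟨h2, h2'⟩ <;>
      rcases max_cases 0 (t + 1) with ⟨h3, h3'⟩ | ⟨h3, h3'⟩ <;>
      rcases max_cases 0 t with ⟨h4, h4'⟩ | ⟨h4, h4'⟩ <;>
      rw [h1, h2, h3, h4] <;> linarith
    · rw [e]
      apply mul_nonneg hpi.le
      have := max_le_max (le_refl (0 : ℝ)) (show t ≤ t + 1 by linarith)
      linarith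
    · rw [e]
      have : max 0 (t + 1) - max 0 t ≤ 1 := by
        rcases max_cases 0 (t + 1) with ⟨h3, h3'⟩ | ⟨h3, h3'⟩ <;>
        rcases max_cases 0 t with ⟨h4, h4'⟩ | ⟨h4, h4'⟩ <;>
        rw [h3, h4] <;> linarith
      nlinarith
  · have hd : ∀ t, HasDerivAt (fun t => Bf h x (t + 1) - Bf h x t)
        (Af h x (t + 1) - Af h x t) t := by
      intro t
      have h1 := (hasDerivAt_Bf hh hx' (t + 1)).comp_add_const t 1
      exact h1.sub (hasDerivAt_Bf hh hx' t)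
    have hmv : ∀ t, ∃ c, Bf h x (t + 1) - Bf h x t = Af h x c := by
      intro t
      obtain ⟨c, _, hc⟩ := exists_hasDerivAt_eq_slope (Bf h x) (Af h x)
        (show t < t + 1 by linarith)
        (fun u _ => (hasDerivAt_Bf hh hx' u).continuousAt.continuousWithinAt)
        (fun u _ => hasDerivAt_Bf hh hx' u)
      refine ⟨c, ?_⟩
      rw [hc]
      ring
    refine ⟨?_, fun t => ?_, fun t => ?_⟩
    · apply monotone_of_deriv_nonneg (fun t => (hd t).differentiableAt)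
      intro t
      rw [(hd t).deriv]
      have := Af_mono hh hx (show t ≤ t + 1 by linarith)
      linarith
    · obtain ⟨c, hc⟩ := hmv t
      rw [hc]
      exact Af_nonneg hh hx c
    · obtain ⟨c, hc⟩ := hmv t
      rw [hc]
      exact Af_le_pi hh hx c

private theorem pp_eq (h x : ℝ) (V : Finset ℤ) (v : ℝ) :
    Ph h V x v = h / √2 * ∑ c ∈ V, ((Bf h x (v - c + 1) - Bf h x (v - c)) -
      (Bf h x (v - c - 1 + 1) - Bf h x (v - c - 1))) := by
  unfold Ph
  congr 1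
  refine Finset.sum_congr rfl fun c _ => ?_
  rw [show v - (c : ℝ) - 1 + 1 = v - c by ring]
  ring

private theorem pp_s2 : 0 < √2 := Real.sqrt_pos.2 (by norm_num)

private theorem pp_pi : Real.pi / √2 ≤ 3 := by
  rw [div_le_iff₀ pp_s2]
  have h1 : (1.1 : ℝ) ≤ √2 := Real.le_sqrt_of_sq_le (by norm_num)
  have h2 := Real.pi_lt_d2
  nlinarith

theorem Ph_nonneg {h x : ℝ} (hh : 0 < h) (hx : 0 ≤ x) (V : Finset ℤ) (v : ℝ) : 0 ≤ Ph h V x v := by
  rw [pp_eq]
  apply mul_nonneg (div_nonneg hh.le pp_s2.le)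
  refine Finset.sum_nonneg fun c _ => ?_
  have := (pp_I hh hx).1 (show v - (c : ℝ) - 1 ≤ v - c by linarith)
  simp only at this
  linarith

theorem Ph_le {h x : ℝ} (hh : 0 < h) (hx : 0 ≤ x) (V : Finset ℤ) (v : ℝ) : Ph h V x v ≤ 3 * h := by
  rw [pp_eq]
  obtain ⟨h1, h2, h3⟩ := pp_I hh hx
  have h4 := pp_mono (f := fun t => Bf h x (t + 1) - Bf h x t) h2 h3 h1 v V
  calc h / √2 * ∑ c ∈ V, ((Bf h x (v - c + 1) - Bf h x (v - c)) -
      (Bf h x (v - c - 1 + 1) - Bf h x (v - c - 1)))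
      ≤ h / √2 * Real.pi := mul_le_mul_of_nonneg_left h4 (div_nonneg hh.le pp_s2.le)
    _ = Real.pi / √2 * h := by ring
    _ ≤ 3 * h := mul_le_mul_of_nonneg_right pp_pi hh.le

private theorem pp_hat (u : ℝ) : hat u = max 0 (u + 1) - 2 * max 0 u + max 0 (u - 1) := by
  unfold hat
  rcases abs_cases u with ⟨h0, h0'⟩ | ⟨h0, h0'⟩ <;>
  rcases max_cases 0 (1 - |u|) with ⟨h1, h1'⟩ | ⟨h1, h1'⟩ <;>
  rcases max_cases 0 (u + 1) with ⟨h2, h2'⟩ | ⟨h2, h2'⟩ <;>
  rcases max_cases 0 u with ⟨h3, h3'⟩ | ⟨h3, h3'⟩ <;>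
  rcases max_cases 0 (u - 1) with ⟨h4, h4'⟩ | ⟨h4, h4'⟩ <;>
  rw [h1, h2, h3, h4] <;> linarith

theorem Ph_zero {h : ℝ} (hh : 0 < h) (V : Finset ℤ) (v : ℝ) :
    Ph h V 0 v = Real.pi / √2 * h * kap V v := by
  unfold Ph kap
  rw [Finset.mul_sum, Finset.mul_sum]
  refine Finset.sum_congr rfl fun c _ => ?_
  rw [Bf_zero hh, Bf_zero hh, Bf_zero hh, pp_hat]
  ring

theorem Ph_lip {h x : ℝ} (hh : 0 < h) (hx : 0 < x) (V : Finset ℤ) (v v' : ℝ) :
    |Ph h V x v - Ph h V x v'| ≤ min (3 * h) (2 * h ^ 2 / x) * |v - v'| := by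
  have hd : ∀ w, HasDerivAt (Ph h V x) (h / √2 * ∑ c ∈ V, ((Af h x (w - c + 1) - Af h x (w - c)) -
      (Af h x (w - c - 1 + 1) - Af h x (w - c - 1)))) w := by
    intro w
    have e : Ph h V x = fun v => h / √2 * ∑ c ∈ V, ((Bf h x (v - c + 1) - Bf h x (v - c)) -
        (Bf h x (v - c - 1 + 1) - Bf h x (v - c - 1))) := by
      funext v; exact pp_eq h x V v
    rw [e]
    apply HasDerivAt.const_mul
    apply HasDerivAt.fun_sum
    intro c _
    have h1 : ∀ r : ℝ, HasDerivAt (fun u : ℝ => Bf h x (u - c + r)) (Af h x (w - c + r)) w := by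
      intro r
      have h2 := hasDerivAt_Bf hh hx (w - c + r)
      have h3 : HasDerivAt (fun u : ℝ => u - c + r) 1 w :=
        ((hasDerivAt_id w).sub_const (c : ℝ)).add_const r
      have h5 := h2.comp w h3
      rw [mul_one] at h5
      exact h5
    have e0 : HasDerivAt (fun u : ℝ => Bf h x (u - c)) (Af h x (w - c)) w := by
      simpa using h1 0
    have e1 : HasDerivAt (fun u : ℝ => Bf h x (u - c - 1)) (Af h x (w - c - 1)) w := by
      have := h1 (-1)
      simpa [sub_eq_add_neg] using this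
    have e2 : HasDerivAt (fun u : ℝ => Bf h x (u - c - 1 + 1)) (Af h x (w - c - 1 + 1)) w := by
      simpa using e0
    exact ((h1 1).sub e0).sub (e2.sub e1)
  have hb : ∀ w, ‖h / √2 * ∑ c ∈ V, ((Af h x (w - c + 1) - Af h x (w - c)) -
      (Af h x (w - c - 1 + 1) - Af h x (w - c - 1)))‖ ≤ min (3 * h) (2 * h ^ 2 / x) := by
    intro w
    have hd0 : ∀ t, 0 ≤ Af h x (t + 1) - Af h x t := fun t => by
      have := Af_mono hh hx.le (show t ≤ t + 1 by linarith)
      linarith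
    have h1 : |∑ c ∈ V, ((Af h x (w - c + 1) - Af h x (w - c)) -
        (Af h x (w - c - 1 + 1) - Af h x (w - c - 1)))| ≤ min Real.pi (2 * √2 * h / x) := by
      refine pp_unif (f := fun t => Af h x (t + 1) - Af h x t) hd0 (fun t => Af_incr_le hh hx t) w
        (⌈-w⌉ - 1) (fun k hk => ?_) (fun k hk => ?_) V
      · have hk' : (k : ℝ) < -w := by
          have h2 : k < ⌈-w⌉ := by omega
          exact Int.lt_ceil.1 h2
        have h3 : Af h x (w + ((k - 1 : ℤ) : ℝ) + 1) = 0 := by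
          unfold Af
          rw [if_neg]
          push_cast
          linarith
        have h4 : Af h x (w + ((k - 1 : ℤ) : ℝ)) = 0 := by
          unfold Af
          rw [if_neg]
          push_cast
          linarith
        rw [h3, h4, sub_zero]
        exact hd0 _
      · have hk' : -w ≤ ((k - 1 : ℤ) : ℝ) := by
          have h2 : ⌈-w⌉ ≤ k - 1 := by omega
          exact Int.ceil_le.1 h2
        have h3 := Af_concave (h := h) (x := x) (s := w + ((k - 1 : ℤ) : ℝ)) (t := w + k) (r := 1)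
          hh hx (by linarith) (by push_cast; linarith) (by norm_num)
        exact h3
    rw [Real.norm_eq_abs, abs_mul, abs_of_nonneg (div_nonneg hh.le pp_s2.le)]
    have h2 : h / √2 * |∑ c ∈ V, ((Af h x (w - c + 1) - Af h x (w - c)) -
        (Af h x (w - c - 1 + 1) - Af h x (w - c - 1)))| ≤
        h / √2 * min Real.pi (2 * √2 * h / x) :=
      mul_le_mul_of_nonneg_left h1 (div_nonneg hh.le pp_s2.le)
    refine h2.trans (le_min ?_ ?_)
    · calc h / √2 * min Real.pi (2 * √2 * h / x) ≤ h / √2 * Real.pi :=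
            mul_le_mul_of_nonneg_left (min_le_left _ _) (div_nonneg hh.le pp_s2.le)
        _ = Real.pi / √2 * h := by ring
        _ ≤ 3 * h := mul_le_mul_of_nonneg_right pp_pi hh.le
    · calc h / √2 * min Real.pi (2 * √2 * h / x) ≤ h / √2 * (2 * √2 * h / x) :=
            mul_le_mul_of_nonneg_left (min_le_right _ _) (div_nonneg hh.le pp_s2.le)
        _ = 2 * h ^ 2 / x := by
            have := pp_s2.ne'
            field_simp
  have h3 := convex_univ.norm_image_sub_le_of_norm_hasDerivWithin_le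
    (f := Ph h V x) (fun w _ => (hd w).hasDerivWithinAt) (fun w _ => hb w)
    (Set.mem_univ v') (Set.mem_univ v)
  simpa [Real.norm_eq_abs] using h3

private theorem pp_trans {h x s : ℝ} (hh : 0 < h) (hx : 0 ≤ x) (hs : 0 ≤ s) (V : Finset ℤ)
    (v : ℝ) :
    Ph h V (x + s) (v - ((x + s) ^ 2 - x ^ 2) / (2 * h ^ 2)) - Ph h V x v =
      -∫ r in (0 : ℝ)..s, Th V (v - ((x + r) ^ 2 - x ^ 2) / (2 * h ^ 2)) := by
  have hint : ∀ t : ℝ, IntervalIntegrable
      (fun r : ℝ => 2 * √2 / h * √(t - ((x + r) ^ 2 - x ^ 2) / (2 * h ^ 2)))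
      MeasureTheory.volume 0 s := by
    intro t
    apply Continuous.intervalIntegrable
    fun_prop
  have hint2 : ∀ c ∈ V, IntervalIntegrable
      (fun r : ℝ => th0 (v - ((x + r) ^ 2 - x ^ 2) / (2 * h ^ 2) - c))
      MeasureTheory.volume 0 s := by
    intro c _
    apply Continuous.intervalIntegrable
    unfold th0
    fun_prop
  unfold Th
  rw [intervalIntegral.integral_finsetSum hint2, ← Finset.sum_neg_distrib]
  unfold Ph
  rw [← mul_sub, ← Finset.sum_sub_distrib, Finset.mul_sum]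
  refine Finset.sum_congr rfl fun c _ => ?_
  set δ := ((x + s) ^ 2 - x ^ 2) / (2 * h ^ 2) with hδ
  have e1 := Bf_trans hh hx hs (v - c + 1)
  have e2 := Bf_trans hh hx hs (v - c)
  have e3 := Bf_trans hh hx hs (v - c - 1)
  rw [← hδ] at e1 e2 e3
  rw [show v - δ - (c : ℝ) + 1 = v - c + 1 - δ by ring, show v - δ - (c : ℝ) = v - c - δ by ring,
    show v - (c : ℝ) - δ - 1 = v - c - 1 - δ by ring]
  have e4 : Bf h (x + s) (v - c + 1 - δ) - 2 * Bf h (x + s) (v - c - δ) +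
      Bf h (x + s) (v - c - 1 - δ) - (Bf h x (v - c + 1) - 2 * Bf h x (v - c) +
      Bf h x (v - c - 1)) = (Bf h (x + s) (v - c + 1 - δ) - Bf h x (v - c + 1)) -
      2 * (Bf h (x + s) (v - c - δ) - Bf h x (v - c)) +
      (Bf h (x + s) (v - c - 1 - δ) - Bf h x (v - c - 1)) := by ring
  rw [e4, e1, e2, e3]
  have e5 : ∫ r in (0 : ℝ)..s, th0 (v - ((x + r) ^ 2 - x ^ 2) / (2 * h ^ 2) - c) =
      h / √2 * ((∫ r in (0 : ℝ)..s, 2 * √2 / h * √(v - c + 1 - ((x + r) ^ 2 - x ^ 2) / (2 * h ^ 2))) -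
        2 * (∫ r in (0 : ℝ)..s, 2 * √2 / h * √(v - c - ((x + r) ^ 2 - x ^ 2) / (2 * h ^ 2))) +
        ∫ r in (0 : ℝ)..s, 2 * √2 / h * √(v - c - 1 - ((x + r) ^ 2 - x ^ 2) / (2 * h ^ 2))) := by
    rw [← intervalIntegral.integral_const_mul, ← intervalIntegral.integral_sub (hint _)
      ((hint _).const_mul 2), ← intervalIntegral.integral_add ((hint _).sub ((hint _).const_mul 2))
      (hint _), ← intervalIntegral.integral_const_mul]
    congr 1
    funext r
    unfold th0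
    rw [show v - ((x + r) ^ 2 - x ^ 2) / (2 * h ^ 2) - (c : ℝ) + 1 =
        v - c + 1 - ((x + r) ^ 2 - x ^ 2) / (2 * h ^ 2) by ring,
      show v - ((x + r) ^ 2 - x ^ 2) / (2 * h ^ 2) - (c : ℝ) - 1 =
        v - c - 1 - ((x + r) ^ 2 - x ^ 2) / (2 * h ^ 2) by ring,
      show v - ((x + r) ^ 2 - x ^ 2) / (2 * h ^ 2) - (c : ℝ) =
        v - c - ((x + r) ^ 2 - x ^ 2) / (2 * h ^ 2) by ring]
    have h1 := pp_s2.ne'
    have h2 := hh.ne'
    field_simp
  rw [e5]
  ring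

private theorem pp_step2 {h x s : ℝ} (hh : 0 < h) (hx : 0 ≤ x) (hs : 0 ≤ s) (V : Finset ℤ)
    (v : ℝ) :
    |Ph h V (x + s) (v - ((x + s) ^ 2 - x ^ 2) / (2 * h ^ 2)) - Ph h V x v| ≤ 2 * s := by
  rw [pp_trans hh hx hs, abs_neg, ← Real.norm_eq_abs]
  have := intervalIntegral.norm_integral_le_of_norm_le_const (a := 0) (b := s) (C := 2)
    (f := fun r => Th V (v - ((x + r) ^ 2 - x ^ 2) / (2 * h ^ 2)))
    (fun r _ => by rw [Real.norm_eq_abs]; exact abs_Th_le _ _)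
  rwa [sub_zero, abs_of_nonneg hs] at this

theorem Ph_start {h x : ℝ} (hh : 0 < h) (hx : 0 ≤ x) (V : Finset ℤ) (v : ℝ) :
    |Ph h V x v - Ph h V 0 v| ≤ 3 * x := by
  rcases eq_or_lt_of_le hx with rfl | hx'
  · simp
  have h1 := pp_step2 hh le_rfl hx V v
  rw [zero_add] at h1
  have h2 := Ph_lip hh hx' V v (v - (x ^ 2 - 0 ^ 2) / (2 * h ^ 2))
  have h3 : |v - (v - (x ^ 2 - 0 ^ 2) / (2 * h ^ 2))| = x ^ 2 / (2 * h ^ 2) := by
    rw [show v - (v - (x ^ 2 - 0 ^ 2) / (2 * h ^ 2)) = x ^ 2 / (2 * h ^ 2) by ring]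
    exact abs_of_nonneg (by positivity)
  rw [h3] at h2
  have h4 : min (3 * h) (2 * h ^ 2 / x) * (x ^ 2 / (2 * h ^ 2)) ≤ x := by
    calc min (3 * h) (2 * h ^ 2 / x) * (x ^ 2 / (2 * h ^ 2))
        ≤ 2 * h ^ 2 / x * (x ^ 2 / (2 * h ^ 2)) :=
          mul_le_mul_of_nonneg_right (min_le_right _ _) (by positivity)
      _ = x := by field_simp
  have h5 := abs_sub_le (Ph h V x v) (Ph h V x (v - (x ^ 2 - 0 ^ 2) / (2 * h ^ 2))) (Ph h V 0 v)
  linarith

theorem Ph_step {h x s : ℝ} (hh : 0 < h) (hx : 0 ≤ x) (hs : 0 ≤ s) (V : Finset ℤ) (v : ℝ) :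
    Ph h V (x + s) (v - ((x + s) ^ 2 - x ^ 2) / (2 * h ^ 2)) ≤
      Ph h V x v - s * Th V v + s * (4 * √(((x + s) ^ 2 - x ^ 2) / (2 * h ^ 2))) := by
  have h1 := pp_trans hh hx hs V v
  set δ := ((x + s) ^ 2 - x ^ 2) / (2 * h ^ 2) with hδ
  have h2 : ∫ r in (0 : ℝ)..s, (Th V v - 4 * √δ) ≤
      ∫ r in (0 : ℝ)..s, Th V (v - ((x + r) ^ 2 - x ^ 2) / (2 * h ^ 2)) := by
    apply intervalIntegral.integral_mono_on hs
    · exact continuous_const.intervalIntegrable _ _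
    · apply Continuous.intervalIntegrable
      unfold Th th0
      fun_prop
    · intro r hr
      have h3 := Th_holder V v (v - ((x + r) ^ 2 - x ^ 2) / (2 * h ^ 2))
      have h4 : |v - (v - ((x + r) ^ 2 - x ^ 2) / (2 * h ^ 2))| =
          ((x + r) ^ 2 - x ^ 2) / (2 * h ^ 2) := by
        rw [show v - (v - ((x + r) ^ 2 - x ^ 2) / (2 * h ^ 2)) =
          ((x + r) ^ 2 - x ^ 2) / (2 * h ^ 2) by ring]
        apply abs_of_nonneg
        apply div_nonneg _ (by positivity)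
        have := hr.1
        nlinarith
      rw [h4] at h3
      have h5 : √(((x + r) ^ 2 - x ^ 2) / (2 * h ^ 2)) ≤ √δ := by
        apply Real.sqrt_le_sqrt
        rw [hδ]
        apply div_le_div_of_nonneg_right _ (by positivity)
        have := hr.1
        have := hr.2
        nlinarith
      have h6 := (abs_le.1 h3).2
      linarith
  rw [intervalIntegral.integral_const, sub_zero, smul_eq_mul] at h2
  linarith

private theorem pp_g_mono : Monotone (fun t : ℝ => max 0 (t + 1) - max 0 t) := by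
  intro s t hst
  simp only
  rcases max_cases 0 (s + 1) with ⟨h1, h1'⟩ | ⟨h1, h1'⟩ <;>
  rcases max_cases 0 s with ⟨h2, h2'⟩ | ⟨h2, h2'⟩ <;>
  rcases max_cases 0 (t + 1) with ⟨h3, h3'⟩ | ⟨h3, h3'⟩ <;>
  rcases max_cases 0 t with ⟨h4, h4'⟩ | ⟨h4, h4'⟩ <;>
  rw [h1, h2, h3, h4] <;> linarith

private theorem pp_g_nonneg (t : ℝ) : 0 ≤ max 0 (t + 1) - max 0 t := by
  have := max_le_max (le_refl (0 : ℝ)) (show t ≤ t + 1 by linarith)
  linarith

private theorem pp_g_le (t : ℝ) : max 0 (t + 1) - max 0 t ≤ 1 := by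
  rcases max_cases 0 (t + 1) with ⟨h3, h3'⟩ | ⟨h3, h3'⟩ <;>
  rcases max_cases 0 t with ⟨h4, h4'⟩ | ⟨h4, h4'⟩ <;>
  rw [h3, h4] <;> linarith

private theorem pp_kap (V : Finset ℤ) (v : ℝ) :
    kap V v = ∑ c ∈ V, ((max 0 (v - c + 1) - max 0 (v - c)) -
      (max 0 (v - c - 1 + 1) - max 0 (v - c - 1))) := by
  unfold kap
  refine Finset.sum_congr rfl fun c _ => ?_
  rw [pp_hat, show v - (c : ℝ) - 1 + 1 = v - c by ring]
  ring

theorem kap_nonneg (V : Finset ℤ) (v : ℝ) : 0 ≤ kap V v :=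
  Finset.sum_nonneg fun _ _ => le_max_left _ _

theorem kap_le_one (V : Finset ℤ) (v : ℝ) : kap V v ≤ 1 := by
  rw [pp_kap]
  exact pp_mono (f := fun t => max 0 (t + 1) - max 0 t) pp_g_nonneg pp_g_le pp_g_mono v V

private theorem pp_klip (V : Finset ℤ) {v v' : ℝ} (hv : v' ≤ v) :
    |kap V v - kap V v'| ≤ v - v' := by
  set r := v - v' with hr
  have hr0 : 0 ≤ r := by linarith
  have e : kap V v - kap V v' = ∑ c ∈ V,
      (((max 0 (v - c + 1) - max 0 (v - c)) - (max 0 (v - c - r + 1) - max 0 (v - c - r))) -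
        ((max 0 (v - c - 1 + 1) - max 0 (v - c - 1)) -
          (max 0 (v - c - 1 - r + 1) - max 0 (v - c - 1 - r)))) := by
    rw [pp_kap, pp_kap, ← Finset.sum_sub_distrib]
    refine Finset.sum_congr rfl fun c _ => ?_
    have e1 : v' = v - r := by rw [hr]; ring
    rw [e1, show v - r - (c : ℝ) = v - c - r by ring, show v - (c : ℝ) - r - 1 = v - c - 1 - r by ring]
    ring
  rw [e]
  refine pp_unif (f := fun t => (max 0 (t + 1) - max 0 t) - (max 0 (t - r + 1) - max 0 (t - r)))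
    (fun t => ?_) (fun t => ?_) v ⌊-v⌋ (fun k hk => ?_) (fun k hk => ?_) V
  · have := pp_g_mono (show t - r ≤ t by linarith)
    simp only at this
    linarith
  · rcases max_cases 0 (t + 1) with ⟨h1, h1'⟩ | ⟨h1, h1'⟩ <;>
    rcases max_cases 0 t with ⟨h2, h2'⟩ | ⟨h2, h2'⟩ <;>
    rcases max_cases 0 (t - r + 1) with ⟨h3, h3'⟩ | ⟨h3, h3'⟩ <;>
    rcases max_cases 0 (t - r) with ⟨h4, h4'⟩ | ⟨h4, h4'⟩ <;>
    rw [h1, h2, h3, h4] <;> linarith
  · have hk' : (k : ℝ) ≤ -v := Int.le_floor.1 hk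
    push_cast
    have h1 : max 0 (v + (k : ℝ)) = 0 := max_eq_left (by linarith)
    have h2 : max 0 (v + ((k : ℝ) - 1)) = 0 := max_eq_left (by linarith)
    have h3 : max 0 (v + (k : ℝ) - r) = 0 := max_eq_left (by linarith)
    have h4 : max 0 (v + ((k : ℝ) - 1) - r) = 0 := max_eq_left (by linarith)
    rw [h1, h2, h3, h4]
    rcases max_cases 0 (v + ((k : ℝ) - 1) + 1) with ⟨h5, h5'⟩ | ⟨h5, h5'⟩ <;>
    rcases max_cases 0 (v + ((k : ℝ) - 1) - r + 1) with ⟨h6, h6'⟩ | ⟨h6, h6'⟩ <;>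
    rcases max_cases 0 (v + (k : ℝ) + 1) with ⟨h7, h7'⟩ | ⟨h7, h7'⟩ <;>
    rcases max_cases 0 (v + (k : ℝ) - r + 1) with ⟨h8, h8'⟩ | ⟨h8, h8'⟩ <;>
    rw [h5, h6, h7, h8] <;> linarith
  · have hk' : -v < ((k - 1 : ℤ) : ℝ) := by
      have h1 : ⌊-v⌋ < k - 1 := by omega
      exact Int.floor_lt.1 h1
    have h2 := pp_g_mono (show v + ((k - 1 : ℤ) : ℝ) - r ≤ v + k - r by push_cast; linarith)
    simp only at h2
    have h3 : max 0 (v + (k : ℝ) + 1) - max 0 (v + (k : ℝ)) = 1 := by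
      push_cast at hk'
      rw [max_eq_right (by linarith), max_eq_right (by linarith)]
      ring
    have h4 : max 0 (v + ((k - 1 : ℤ) : ℝ) + 1) - max 0 (v + ((k - 1 : ℤ) : ℝ)) = 1 := by
      rw [max_eq_right (by linarith), max_eq_right (by linarith)]
      ring
    rw [h3, h4]
    linarith

theorem kap_lip (V : Finset ℤ) (v v' : ℝ) : |kap V v - kap V v'| ≤ |v - v'| := by
  rcases le_total v' v with h | h
  · rw [abs_of_nonneg (by linarith : 0 ≤ v - v')]
    exact pp_klip V h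
  · rw [abs_sub_comm, abs_sub_comm v v', abs_of_nonneg (by linarith : 0 ≤ v' - v)]
    exact pp_klip V h

/-- Two neighbouring hats give one. -/
theorem kap_eq_one (V : Finset ℤ) (v : ℝ) (h1 : ⌊v⌋ ∈ V) (h2 : ⌊v⌋ + 1 ∈ V) : kap V v = 1 := by
  apply le_antisymm (kap_le_one V v)
  have hsub : ({⌊v⌋, ⌊v⌋ + 1} : Finset ℤ) ⊆ V := by
    intro c hc
    rcases Finset.mem_insert.1 hc with rfl | hc
    · exact h1
    · rw [Finset.mem_singleton.1 hc]; exact h2
  have h3 := Finset.sum_le_sum_of_subset_of_nonneg (f := fun c : ℤ => hat (v - c)) hsub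
    (fun c _ _ => le_max_left _ _)
  have h4 : ∑ c ∈ ({⌊v⌋, ⌊v⌋ + 1} : Finset ℤ), hat (v - (c : ℝ)) = 1 := by
    rw [Finset.sum_pair (by omega)]
    have h5 := Int.floor_le v
    have h6 := Int.lt_floor_add_one v
    unfold hat
    push_cast
    rw [abs_of_nonneg (by linarith : 0 ≤ v - (⌊v⌋ : ℝ)),
      abs_of_nonpos (by linarith : v - ((⌊v⌋ : ℝ) + 1) ≤ 0),
      max_eq_right (by linarith), max_eq_right (by linarith)]
    ring
  rw [h4] at h3
  exact h3

end Pool.Agent.Lib.HBP
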