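import Mathlib
import Pool.Agent.Lib.HBP.PhProps

/-!
MODULE SlowPath: the transport identity along a perturbed parabola (discrete time).

PROOF.  Put `x l = x0 + l δ`, `P l = Ph h V (x l) (w l)`.  By `Ph_lip`,
`P (l+1) ≤ Ph h V (x (l+1)) (w (l+1) - ν l) + min (3h) (2h²/x (l+1)) |ν l|`, and
`w (l+1) - ν l = w l - ((x (l+1))² - (x l)²)/(2h²)`, so by `Ph_step` the first summand is at most
`P l - δ Th V (w l) + δ 4 √(((x(l+1))²-(x l)²)/(2h²))`, and
`((x (l+1))² - (x l)²)/(2h²) ≤ x (l+1) δ/h² ≤ (x0 + m δ) δ/h²`.  Sum over `l < m`.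
-/

namespace Pool.Agent.Lib.HBP

open Finset

private theorem slow_cont (h x t : ℝ) :
    Continuous fun r : ℝ => √(t - ((x + r) ^ 2 - x ^ 2) / (2 * h ^ 2)) := by
  fun_prop

private theorem slow_Bf {h x s : ℝ} (hh : 0 < h) (hx : 0 ≤ x) (hs : 0 ≤ s) (t : ℝ) :
    Bf h (x + s) (t - ((x + s) ^ 2 - x ^ 2) / (2 * h ^ 2)) = Bf h x t -
      2 * √2 / h * ∫ r in (0 : ℝ)..s, √(t - ((x + r) ^ 2 - x ^ 2) / (2 * h ^ 2)) := by
  have h1 := Bf_trans hh hx hs t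
  rw [intervalIntegral.integral_const_mul] at h1
  linarith

private theorem slow_int (h x s v : ℝ) (V : Finset ℤ) :
    ∫ r in (0 : ℝ)..s, Th V (v - ((x + r) ^ 2 - x ^ 2) / (2 * h ^ 2)) =
      ∑ c ∈ V, 2 * ((∫ r in (0 : ℝ)..s, √((v - c + 1) - ((x + r) ^ 2 - x ^ 2) / (2 * h ^ 2))) -
        2 * (∫ r in (0 : ℝ)..s, √((v - c) - ((x + r) ^ 2 - x ^ 2) / (2 * h ^ 2))) +
        ∫ r in (0 : ℝ)..s, √((v - c - 1) - ((x + r) ^ 2 - x ^ 2) / (2 * h ^ 2))) := by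
  have hi : ∀ t : ℝ, IntervalIntegrable
      (fun r : ℝ => √(t - ((x + r) ^ 2 - x ^ 2) / (2 * h ^ 2))) MeasureTheory.volume 0 s :=
    fun t => (slow_cont h x t).intervalIntegrable 0 s
  have e1 : ∀ r : ℝ, Th V (v - ((x + r) ^ 2 - x ^ 2) / (2 * h ^ 2)) =
      ∑ c ∈ V, 2 * (√((v - c + 1) - ((x + r) ^ 2 - x ^ 2) / (2 * h ^ 2)) -
        2 * √((v - c) - ((x + r) ^ 2 - x ^ 2) / (2 * h ^ 2)) +
        √((v - c - 1) - ((x + r) ^ 2 - x ^ 2) / (2 * h ^ 2))) := by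
    intro r
    unfold Th th0
    refine Finset.sum_congr rfl fun c _ => ?_
    have a1 : v - ((x + r) ^ 2 - x ^ 2) / (2 * h ^ 2) - c + 1 =
      (v - c + 1) - ((x + r) ^ 2 - x ^ 2) / (2 * h ^ 2) := by ring
    have a2 : v - ((x + r) ^ 2 - x ^ 2) / (2 * h ^ 2) - c =
      (v - c) - ((x + r) ^ 2 - x ^ 2) / (2 * h ^ 2) := by ring
    have a3 : (v - c) - ((x + r) ^ 2 - x ^ 2) / (2 * h ^ 2) - 1 =
      (v - c - 1) - ((x + r) ^ 2 - x ^ 2) / (2 * h ^ 2) := by ring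
    rw [a1, a2, a3]
  simp_rw [e1]
  rw [intervalIntegral.integral_finsetSum]
  · refine Finset.sum_congr rfl fun c _ => ?_
    rw [intervalIntegral.integral_const_mul, intervalIntegral.integral_add,
      intervalIntegral.integral_sub, intervalIntegral.integral_const_mul]
    · exact hi _
    · exact (hi _).const_mul 2
    · exact (hi _).sub ((hi _).const_mul 2)
    · exact hi _
  · intro c _
    exact (((hi _).sub ((hi _).const_mul 2)).add (hi _)).const_mul 2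

/-- lower bound for one step -/
private theorem slow_low {h x s : ℝ} (hh : 0 < h) (hx : 0 ≤ x) (hs : 0 ≤ s) (V : Finset ℤ) (v : ℝ) :
    Ph h V x v - s * Th V v - s * (4 * √(((x + s) ^ 2 - x ^ 2) / (2 * h ^ 2))) ≤
      Ph h V (x + s) (v - ((x + s) ^ 2 - x ^ 2) / (2 * h ^ 2)) := by
  have h1 : Ph h V (x + s) (v - ((x + s) ^ 2 - x ^ 2) / (2 * h ^ 2)) = Ph h V x v -
      ∫ r in (0 : ℝ)..s, Th V (v - ((x + r) ^ 2 - x ^ 2) / (2 * h ^ 2)) := by
    rw [slow_int]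
    unfold Ph
    rw [Finset.mul_sum, Finset.mul_sum, ← Finset.sum_sub_distrib]
    refine Finset.sum_congr rfl fun c _ => ?_
    have a1 : v - ((x + s) ^ 2 - x ^ 2) / (2 * h ^ 2) - c + 1 =
      (v - c + 1) - ((x + s) ^ 2 - x ^ 2) / (2 * h ^ 2) := by ring
    have a2 : v - ((x + s) ^ 2 - x ^ 2) / (2 * h ^ 2) - c =
      (v - c) - ((x + s) ^ 2 - x ^ 2) / (2 * h ^ 2) := by ring
    have a3 : (v - c) - ((x + s) ^ 2 - x ^ 2) / (2 * h ^ 2) - 1 =
      (v - c - 1) - ((x + s) ^ 2 - x ^ 2) / (2 * h ^ 2) := by ring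
    rw [a1, a2, a3, slow_Bf hh hx hs, slow_Bf hh hx hs, slow_Bf hh hx hs]
    have h2 : h / √2 * (2 * √2 / h) = 2 := by
      have : √2 ≠ 0 := by positivity
      field_simp
    generalize (∫ r in (0 : ℝ)..s, √((v - c + 1) - ((x + r) ^ 2 - x ^ 2) / (2 * h ^ 2))) = I1
    generalize (∫ r in (0 : ℝ)..s, √((v - c) - ((x + r) ^ 2 - x ^ 2) / (2 * h ^ 2))) = I2
    generalize (∫ r in (0 : ℝ)..s, √((v - c - 1) - ((x + r) ^ 2 - x ^ 2) / (2 * h ^ 2))) = I3
    linear_combination (-(I1 - 2 * I2 + I3)) * h2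
  have h3 : ∫ r in (0 : ℝ)..s, Th V (v - ((x + r) ^ 2 - x ^ 2) / (2 * h ^ 2)) ≤
      ∫ _r in (0 : ℝ)..s, (Th V v + 4 * √(((x + s) ^ 2 - x ^ 2) / (2 * h ^ 2))) := by
    have hc : Continuous fun r : ℝ => Th V (v - ((x + r) ^ 2 - x ^ 2) / (2 * h ^ 2)) := by
      unfold Th th0
      fun_prop
    refine intervalIntegral.integral_mono_on hs (hc.intervalIntegrable 0 s)
      (continuous_const.intervalIntegrable 0 s) fun r hr => ?_
    have h4 := Th_holder V (v - ((x + r) ^ 2 - x ^ 2) / (2 * h ^ 2)) v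
    have h5 := (abs_le.1 h4).2
    have h6 : |v - ((x + r) ^ 2 - x ^ 2) / (2 * h ^ 2) - v| = ((x + r) ^ 2 - x ^ 2) / (2 * h ^ 2) := by
      have h7 : v - ((x + r) ^ 2 - x ^ 2) / (2 * h ^ 2) - v =
          -(((x + r) ^ 2 - x ^ 2) / (2 * h ^ 2)) := by ring
      rw [h7, abs_neg, abs_of_nonneg]
      have h8 : 0 ≤ (x + r) ^ 2 - x ^ 2 := by nlinarith [hr.1]
      positivity
    rw [h6] at h5
    have h9 : √(((x + r) ^ 2 - x ^ 2) / (2 * h ^ 2)) ≤ √(((x + s) ^ 2 - x ^ 2) / (2 * h ^ 2)) := by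
      apply Real.sqrt_le_sqrt
      have h10 : (x + r) ^ 2 ≤ (x + s) ^ 2 := by
        have := hr.1
        have := hr.2
        gcongr
      gcongr
    linarith
  rw [intervalIntegral.integral_const, smul_eq_mul] at h3
  rw [h1]
  linarith

private theorem slow_one {h δ x : ℝ} (hh : 0 < h) (hδ : 0 < δ) (hx : 0 ≤ x) (V : Finset ℤ)
    (w w' ν : ℝ) (hw : w' = w - ((x + δ) ^ 2 - x ^ 2) / (2 * h ^ 2) + ν) :
    Ph h V x w - Ph h V (x + δ) w' - min (3 * h) (2 * h ^ 2 / (x + δ)) * |ν|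
      - δ * (4 * √((x + δ) * δ / h ^ 2)) ≤ δ * Th V w := by
  have h1 := slow_low hh hx hδ.le V w
  have h2 := Ph_lip hh (by linarith : 0 < x + δ) V w' (w - ((x + δ) ^ 2 - x ^ 2) / (2 * h ^ 2))
  have h3 : w' - (w - ((x + δ) ^ 2 - x ^ 2) / (2 * h ^ 2)) = ν := by
    rw [hw]
    ring
  rw [h3] at h2
  have h4 := (abs_le.1 h2).1
  have h5 : √(((x + δ) ^ 2 - x ^ 2) / (2 * h ^ 2)) ≤ √((x + δ) * δ / h ^ 2) := by
    apply Real.sqrt_le_sqrt
    rw [div_le_div_iff₀ (by positivity) (by positivity)]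
    have h6 : (x + δ) ^ 2 - x ^ 2 ≤ 2 * ((x + δ) * δ) := by nlinarith
    have h7 : 0 ≤ h ^ 2 := by positivity
    nlinarith
  have h8 := mul_le_mul_of_nonneg_left h5 hδ.le
  linarith

theorem slow_path {h δ x0 : ℝ} (hh : 0 < h) (hδ : 0 < δ) (hx0 : 0 ≤ x0) (V : Finset ℤ) (m : ℕ)
    (w ν : ℕ → ℝ)
    (hw : ∀ l < m, w (l + 1) =
      w l - ((x0 + (l + 1) * δ) ^ 2 - (x0 + l * δ) ^ 2) / (2 * h ^ 2) + ν l) :
    Ph h V x0 (w 0) - Ph h V (x0 + m * δ) (w m)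
      - ∑ l ∈ range m, min (3 * h) (2 * h ^ 2 / (x0 + (l + 1) * δ)) * |ν l|
      - m * δ * (4 * √((x0 + m * δ) * δ / h ^ 2)) ≤ ∑ l ∈ range m, δ * Th V (w l) := by
  have key : ∀ l ∈ range m, Ph h V (x0 + l * δ) (w l) - Ph h V (x0 + ((l + 1 : ℕ) : ℝ) * δ) (w (l + 1))
      - min (3 * h) (2 * h ^ 2 / (x0 + (l + 1) * δ)) * |ν l|
      - δ * (4 * √((x0 + m * δ) * δ / h ^ 2)) ≤ δ * Th V (w l) := by
    intro l hl
    have hlm : l < m := mem_range.1 hl
    have hx : 0 ≤ x0 + l * δ := by positivity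
    have e1 : x0 + l * δ + δ = x0 + (l + 1) * δ := by ring
    have e2 : x0 + ((l + 1 : ℕ) : ℝ) * δ = x0 + (l + 1) * δ := by push_cast; ring
    have h1 := slow_one hh hδ hx V (w l) (w (l + 1)) (ν l) (by rw [e1]; exact hw l hlm)
    rw [e1] at h1
    rw [e2]
    have h2 : √((x0 + (l + 1) * δ) * δ / h ^ 2) ≤ √((x0 + m * δ) * δ / h ^ 2) := by
      apply Real.sqrt_le_sqrt
      have h3 : (l : ℝ) + 1 ≤ m := by exact_mod_cast hlm
      gcongr
    have h4 := mul_le_mul_of_nonneg_left h2 hδ.le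
    linarith
  have h1 := Finset.sum_le_sum key
  rw [Finset.sum_sub_distrib, Finset.sum_sub_distrib, Finset.sum_const, card_range,
    Finset.sum_range_sub' (fun l : ℕ => Ph h V (x0 + (l : ℝ) * δ) (w l)), nsmul_eq_mul] at h1
  have e0 : x0 + ((0 : ℕ) : ℝ) * δ = x0 := by simp
  rw [e0] at h1
  linarith

private theorem slow_min {h x : ℝ} (hh : 0 < h) (hx : 0 < x) :
    min (3 * h) (2 * h ^ 2 / x) ≤ 5 * h ^ 2 / (x + h) := by
  rcases le_total (3 * x) (2 * h) with h1 | h1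
  · refine (min_le_left _ _).trans ?_
    rw [le_div_iff₀ (by linarith)]
    nlinarith
  · refine (min_le_right _ _).trans ?_
    rw [div_le_div_iff₀ hx (by linarith)]
    have h2 : 0 < h ^ 2 := by positivity
    nlinarith

/-- The sum of the squares of the Lipschitz constants. -/
theorem lip_sq_sum {h δ x0 : ℝ} (hh : 0 < h) (hδ : 0 < δ) (hδh : δ ≤ h) (hx0 : 0 ≤ x0) (m : ℕ) :
    ∑ l ∈ range m, δ * (min (3 * h) (2 * h ^ 2 / (x0 + (l + 1) * δ))) ^ 2 ≤ 25 * h ^ 3 := by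
  have key : ∀ m : ℕ, ∑ l ∈ range m, δ * (min (3 * h) (2 * h ^ 2 / (x0 + (l + 1) * δ))) ^ 2 ≤
      25 * h ^ 4 * (1 / (x0 + h) - 1 / (x0 + m * δ + h)) := by
    intro m
    induction m with
    | zero => simp
    | succ m ih =>
      rw [Finset.sum_range_succ]
      have hA : 0 < x0 + m * δ + h := by positivity
      have hB : 0 < x0 + (m + 1) * δ + h := by positivity
      have hx : 0 < x0 + (m + 1) * δ := by positivity
      have h1 := slow_min hh hx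
      have h0 : 0 ≤ min (3 * h) (2 * h ^ 2 / (x0 + (m + 1) * δ)) := by positivity
      have h2 : (min (3 * h) (2 * h ^ 2 / (x0 + (m + 1) * δ))) ^ 2 ≤
          (5 * h ^ 2 / (x0 + (m + 1) * δ + h)) ^ 2 := by gcongr
      have h3 : δ * (5 * h ^ 2 / (x0 + (m + 1) * δ + h)) ^ 2 ≤
          25 * h ^ 4 * (1 / (x0 + m * δ + h) - 1 / (x0 + (m + 1) * δ + h)) := by
        have h4 : 1 / (x0 + m * δ + h) - 1 / (x0 + (m + 1) * δ + h) =
            δ / ((x0 + m * δ + h) * (x0 + (m + 1) * δ + h)) := by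
          rw [div_sub_div _ _ hA.ne' hB.ne']
          congr 1
          ring
        have h5 : δ * (5 * h ^ 2 / (x0 + (m + 1) * δ + h)) ^ 2 =
            25 * h ^ 4 * (δ / ((x0 + (m + 1) * δ + h) * (x0 + (m + 1) * δ + h))) := by
          rw [div_pow]
          field_simp
          ring
        rw [h4, h5]
        have h6 : x0 + m * δ + h ≤ x0 + (m + 1) * δ + h := by nlinarith
        gcongr
      have h7 := mul_le_mul_of_nonneg_left h2 hδ.le
      push_cast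
      have h8 : 25 * h ^ 4 * (1 / (x0 + h) - 1 / (x0 + (m + 1) * δ + h)) =
          25 * h ^ 4 * (1 / (x0 + h) - 1 / (x0 + m * δ + h)) +
            25 * h ^ 4 * (1 / (x0 + m * δ + h) - 1 / (x0 + (m + 1) * δ + h)) := by ring
      rw [h8]
      linarith
  refine (key m).trans ?_
  have h1 : 0 ≤ 1 / (x0 + m * δ + h) := by positivity
  have h2 : 1 / (x0 + h) ≤ 1 / h := one_div_le_one_div_of_le hh (by linarith)
  have h3 : 25 * h ^ 4 * (1 / (x0 + h) - 1 / (x0 + m * δ + h)) ≤ 25 * h ^ 4 * (1 / h) := by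
    have : 0 < 25 * h ^ 4 := by positivity
    exact mul_le_mul_of_nonneg_left (by linarith) this.le
  refine h3.trans (le_of_eq ?_)
  field_simp

end Pool.Agent.Lib.HBP
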