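import Mathlib
import Pool.Agent.Lib.HBP.SlowPath
import Pool.Agent.Lib.HBP.PhEnd
import Pool.Agent.Lib.HBP.PsiF

/-!
MODULE StrSlow: the tangential strand of an arc (unrounded).  `M = Mh h a = h²a/2`, `δ = 16/a`,
`x_l = l δ`, `M δ = 8h²`, `x* = h² (λ - 1/8) ∈ [h²/8, 3.875 h²]`, `l* = lst h a λ = ⌈x*/δ⌉`, `1 ≤ l* ≤ M`.

PROOF.  `W (l+1) = W l - ((x_{l+1} - x*)² - (x_l - x*)²)/(2h²) + ν_l`, `ν_l = (λ/(u1 a)) ∑_{Ico} (u x - 1)`.
RIGHT BRANCH: `slow_path` with `x0 = x_{l*} - x* ∈ [0, δ)`, `w i = W (l* + i)`, `m = M - l*`, end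
`x0 + m δ = 8h² - x* ∈ [4h², 8h²]`.  LEFT BRANCH: `slow_path` with `x0' = x* - x_{l*-1} ∈ [0, δ]`,
`w i = W (l* - 1 - i)`, `ν i = -ν_{l*-2-i}`, `m = l* - 1`, end `x*`.  The remaining terms `l = M`, `l = 0` are
`≥ -2δ` each (`abs_Th_le`).
MAIN TERM: `Ph h V x0 W_{l*} ≥ Ph h V 0 W_{l*} - 3δ = (π/√2) h kap V W_{l*} - 3δ` (`Ph_start`, `Ph_zero`); the
same for the left branch at `W_{l*-1}`, and `kap V W_{l*-1} ≥ kap V W_{l*} - |W_{l*} - W_{l*-1}|`,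
`|W_{l*} - W_{l*-1}| ≤ δ²/(2h²) + |ν_{l*-1}|`, `(π/√2) h ≤ 3h`.
ENDS: `Ph_end`, twice `200 (1 + √N + N/w h)`.
PERTURBATION: every `ν_l` (`l < M`) occurs once, with weight `c_l ≤ 3h` (`c_l = min (3h) (2h²/·)`, or `3h` for
`l = l* - 1`), `∑ δ c_l² ≤ 25h³ + 25h³ + 9 δ h² ≤ 51 h³` (`lip_sq_sum`).  `c_l |ν_l| ≤ (λ/(u1 a)) ∑_x c_l |u x - 1|`
and `mul_abs_le` with `A = Ac h² ≥ 3h ≥ c_l`: `c_l |u-1| ≤ c_l²/(4 Ac h²) + 2 Ac h² psi u`; the `16 u1` values of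
`x` give in total `≤ λ ∑ δ c_l²/(4 Ac h²) + 2 λ Ac h² (1/(u1 a)) ∑ psi ≤ 60 h/Ac + 8 Ac h² (1/(u1 a)) ∑ psi`.
DISCRETISATION: `m δ 4 √((x0 + mδ) δ/h²) ≤ 8h² · 4 √(8δ) = 32 h² √(128/a) ≤ 1` since `a ≥ 10^12 h^8`.
The rest (`δ` terms) is `≤ 1` in total.
-/

namespace Pool.Agent.Lib.HBP

open Finset

private theorem strSlow_M {h a : ℕ} (ha2 : 2 ∣ a) : (Mh h a : ℝ) = h ^ 2 * a / 2 := by
  unfold Mh
  rw [Nat.cast_div (Dvd.dvd.mul_left ha2 _) (by norm_num)]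
  push_cast
  ring

private theorem strSlow_a {h a : ℕ} (hh : 1 ≤ h) (ha : 10 ^ 12 * h ^ 8 ≤ a) :
    (10 : ℝ) ^ 12 * h ^ 8 ≤ a ∧ (10 : ℝ) ^ 12 ≤ a ∧ (1 : ℝ) ≤ h := by
  have h1 : (1 : ℝ) ≤ h := by exact_mod_cast hh
  have h2 : (10 : ℝ) ^ 12 * h ^ 8 ≤ a := by exact_mod_cast ha
  have h3 : (1 : ℝ) ≤ (h : ℝ) ^ 8 := one_le_pow₀ h1
  refine ⟨h2, ?_, h1⟩
  nlinarith

theorem lst_bounds {h a : ℕ} (hh : 1 ≤ h) (ha2 : 2 ∣ a) (ha : 10 ^ 12 * h ^ 8 ≤ a) {lamh : ℝ}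
    (h1 : 1 / 4 ≤ lamh) (h2 : lamh ≤ 4) : 1 ≤ lst h a lamh ∧ lst h a lamh ≤ Mh h a := by
  obtain ⟨_, ha', hh'⟩ := strSlow_a hh ha
  have ha0 : (0 : ℝ) < a := lt_of_lt_of_le (by norm_num) ha'
  have hh2 : (1 : ℝ) ≤ (h : ℝ) ^ 2 := one_le_pow₀ hh'
  constructor
  · unfold lst
    rw [Nat.one_le_ceil_iff]
    have : 0 < (h : ℝ) ^ 2 * (lamh - 1 / 8) := mul_pos (by linarith) (by linarith)
    positivity
  · unfold lst
    rw [Nat.ceil_le, strSlow_M ha2]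
    have h3 : (h : ℝ) ^ 2 * (lamh - 1 / 8) ≤ (h : ℝ) ^ 2 * 4 :=
      mul_le_mul_of_nonneg_left (by linarith) (by linarith)
    have h4 : (a : ℝ) * (h ^ 2 * (lamh - 1 / 8)) ≤ a * (h ^ 2 * 4) :=
      mul_le_mul_of_nonneg_left h3 ha0.le
    have h5 : 0 ≤ (a : ℝ) * h ^ 2 := by positivity
    nlinarith

/-- one step of the perturbation -/
private theorem strSlow_nu {h a u1 a0 : ℕ} (hu1 : 1 ≤ u1) (ha : 0 < (a : ℝ)) (hh' : (1 : ℝ) ≤ h)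
    {lamh Ac : ℝ} (h1 : 1 / 4 ≤ lamh) (hAc : 3 ≤ Ac) (u : ℕ → ℝ) (hu : ∀ x, 0 ≤ u x) (l : ℕ)
    {c : ℝ} (hc : 0 ≤ c) (hc3 : c ≤ 3 * h) :
    c * |lamh / (u1 * a) * ∑ x ∈ Finset.Ico (al a0 u1 l) (al a0 u1 (l + 1)), (u x - 1)| ≤
      lamh / (4 * (Ac * h ^ 2)) * (16 / a * c ^ 2) + 2 * (Ac * h ^ 2) * lamh *
        (1 / (u1 * a) * ∑ x ∈ Finset.Ico (al a0 u1 l) (al a0 u1 (l + 1)), psi (u x)) := by
  have hu1' : (0 : ℝ) < u1 := by exact_mod_cast hu1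
  have hA : 0 < Ac * (h : ℝ) ^ 2 := by positivity
  have hcA : c ≤ Ac * (h : ℝ) ^ 2 := by
    refine hc3.trans ?_
    have : (h : ℝ) ≤ (h : ℝ) ^ 2 := by nlinarith
    nlinarith
  have hk : 0 < lamh / (u1 * a) := by positivity
  rw [abs_mul, abs_of_pos hk]
  have h2 : |∑ x ∈ Finset.Ico (al a0 u1 l) (al a0 u1 (l + 1)), (u x - 1)| ≤
      ∑ x ∈ Finset.Ico (al a0 u1 l) (al a0 u1 (l + 1)), |u x - 1| := Finset.abs_sum_le_sum_abs _ _
  have h3 : c * (lamh / (u1 * a) * |∑ x ∈ Finset.Ico (al a0 u1 l) (al a0 u1 (l + 1)), (u x - 1)|) ≤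
      lamh / (u1 * a) * ∑ x ∈ Finset.Ico (al a0 u1 l) (al a0 u1 (l + 1)), c * |u x - 1| := by
    rw [← Finset.mul_sum]
    have := mul_le_mul_of_nonneg_left h2 (mul_nonneg hk.le hc)
    calc _ = lamh / (u1 * a) * c *
          |∑ x ∈ Finset.Ico (al a0 u1 l) (al a0 u1 (l + 1)), (u x - 1)| := by ring
      _ ≤ _ := this
      _ = _ := by ring
  have hcard : (al a0 u1 (l + 1) - al a0 u1 l : ℕ) = 16 * u1 := by
    unfold al
    rw [mul_add, mul_one]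
    omega
  have h4 : ∑ x ∈ Finset.Ico (al a0 u1 l) (al a0 u1 (l + 1)), c * |u x - 1| ≤
      16 * u1 * (c ^ 2 / (4 * (Ac * h ^ 2))) + 2 * (Ac * h ^ 2) *
        ∑ x ∈ Finset.Ico (al a0 u1 l) (al a0 u1 (l + 1)), psi (u x) := by
    refine (Finset.sum_le_sum fun x _ => mul_abs_le (hu x) hc hA hcA).trans (le_of_eq ?_)
    rw [Finset.sum_add_distrib, Finset.sum_const, Nat.card_Ico, hcard, ← Finset.mul_sum,
      nsmul_eq_mul]
    push_cast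
    ring
  refine h3.trans ((mul_le_mul_of_nonneg_left h4 hk.le).trans (le_of_eq ?_))
  field_simp

theorem strand_slow {h a u1 a0 w N : ℕ} (hh : 1 ≤ h) (ha2 : 2 ∣ a) (ha : 10 ^ 12 * h ^ 8 ≤ a)
    (hu1 : 1 ≤ u1) {lamh Ac : ℝ} (h1 : 1 / 4 ≤ lamh) (h2 : lamh ≤ 4) (hAc : 3 ≤ Ac) (V : Finset ℤ)
    (hw : 1 ≤ w) (hs : Sparse V w N) (u : ℕ → ℝ) (hu : ∀ x, 0 ≤ u x) (W : ℕ → ℝ)
    (hW : ∀ l < Mh h a, W (l + 1) = W l + lamh * (16 / a) -
      (1 / 8 * (16 / a) + ((16 * ((l : ℝ) + 1) / a) ^ 2 - (16 * (l : ℝ) / a) ^ 2) / (2 * h ^ 2)) +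
      lamh / (u1 * a) * ∑ x ∈ Finset.Ico (al a0 u1 l) (al a0 u1 (l + 1)), (u x - 1)) :
    2 * (Real.pi / √2) * h * kap V (W (lst h a lamh)) - 400 * (1 + √N + N / w * h) - 60 * (h / Ac) -
      8 * Ac * h ^ 2 * (1 / (u1 * a) * ∑ x ∈ Finset.Ico (al a0 u1 0) (al a0 u1 (Mh h a)), psi (u x)) - 10 ≤
    ∑ l ∈ range (Mh h a + 1), 16 / (a : ℝ) * Th V (W l) := by
  obtain ⟨ha8, ha', hh'⟩ := strSlow_a hh ha
  have ha0 : (0 : ℝ) < a := lt_of_lt_of_le (by norm_num) ha'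
  have hh0 : (0 : ℝ) < h := by linarith
  have hh2 : (1 : ℝ) ≤ (h : ℝ) ^ 2 := one_le_pow₀ hh'
  obtain ⟨hl1, hl2⟩ := lst_bounds hh ha2 ha h1 h2
  obtain ⟨p, hp⟩ : ∃ p, lst h a lamh = p + 1 := ⟨lst h a lamh - 1, by omega⟩
  obtain ⟨m, hm⟩ : ∃ m, Mh h a = p + 1 + m := ⟨Mh h a - (p + 1), by omega⟩
  -- the step, the tangency point
  obtain ⟨δ, hδ⟩ : ∃ δ : ℝ, δ = 16 / a := ⟨_, rfl⟩
  obtain ⟨xs, hxs⟩ : ∃ xs : ℝ, xs = (h : ℝ) ^ 2 * (lamh - 1 / 8) := ⟨_, rfl⟩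
  have hδ0 : 0 < δ := by rw [hδ]; positivity
  have hδa : δ * a = 16 := by rw [hδ]; field_simp
  have hδ1 : δ ≤ 1 / 10 ^ 10 := by
    rw [hδ, div_le_div_iff₀ ha0 (by norm_num)]
    linarith
  have hxs1 : (h : ℝ) ^ 2 / 8 ≤ xs := by
    rw [hxs]
    nlinarith
  have hxs2 : xs ≤ 31 / 8 * (h : ℝ) ^ 2 := by
    rw [hxs]
    nlinarith
  have hMδ : ((p : ℝ) + 1 + m) * δ = 8 * (h : ℝ) ^ 2 := by
    have e := strSlow_M (h := h) ha2
    rw [hm] at e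
    push_cast at e
    rw [e, hδ]
    field_simp
    ring
  have hla : xs ≤ ((p : ℝ) + 1) * δ := by
    have e : (a : ℝ) * (h ^ 2 * (lamh - 1 / 8)) / 16 ≤ (lst h a lamh : ℝ) := Nat.le_ceil _
    rw [hp, ← hxs] at e
    push_cast at e
    rw [hδ, ← mul_div_assoc, le_div_iff₀ ha0]
    linarith
  have hlb : (p : ℝ) * δ < xs := by
    have e : (lst h a lamh : ℝ) < (a : ℝ) * (h ^ 2 * (lamh - 1 / 8)) / 16 + 1 := by
      refine Nat.ceil_lt_add_one ?_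
      rw [← hxs]
      have : 0 ≤ xs := by nlinarith
      positivity
    rw [hp, ← hxs] at e
    push_cast at e
    rw [hδ, ← mul_div_assoc, div_lt_iff₀ ha0]
    linarith
  -- perturbations
  obtain ⟨ν, hν⟩ : ∃ ν : ℕ → ℝ, ν = fun l => lamh / (u1 * a) *
      ∑ x ∈ Finset.Ico (al a0 u1 l) (al a0 u1 (l + 1)), (u x - 1) := ⟨_, rfl⟩
  obtain ⟨e, he⟩ : ∃ e : ℕ → ℝ, e = fun l => 1 / (u1 * a) *
      ∑ x ∈ Finset.Ico (al a0 u1 l) (al a0 u1 (l + 1)), psi (u x) := ⟨_, rfl⟩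
  have hW' : ∀ l < p + 1 + m, W (l + 1) =
      W l - ((((l : ℝ) + 1) * δ - xs) ^ 2 - ((l : ℝ) * δ - xs) ^ 2) / (2 * h ^ 2) + ν l := by
    intro l hl
    have e1 := hW l (by rw [hm]; exact hl)
    have e2 : 16 * ((l : ℝ) + 1) / a = ((l : ℝ) + 1) * δ := by rw [hδ]; ring
    have e3 : 16 * (l : ℝ) / a = (l : ℝ) * δ := by rw [hδ]; ring
    rw [e2, e3, ← hδ] at e1
    rw [e1, hν, hxs]
    field_simp
    ring
  have hnu : ∀ (l : ℕ) (c : ℝ), 0 ≤ c → c ≤ 3 * h →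
      c * |ν l| ≤ lamh / (4 * (Ac * h ^ 2)) * (δ * c ^ 2) + 2 * (Ac * h ^ 2) * lamh * e l := by
    intro l c hc hc3
    rw [hν, he, hδ]
    exact strSlow_nu hu1 ha0 hh' h1 hAc u hu l hc hc3
  have hesum : ∀ k : ℕ, ∑ l ∈ range k, e l =
      1 / (u1 * a) * ∑ x ∈ Finset.Ico (al a0 u1 0) (al a0 u1 k), psi (u x) := by
    intro k
    rw [he]
    rw [← Finset.mul_sum]
    congr 1
    induction k with
    | zero => simp
    | succ k ih =>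
      rw [Finset.sum_range_succ, ih]
      refine Finset.sum_Ico_consecutive _ ?_ ?_
      · unfold al
        exact Nat.add_le_add_left (Nat.mul_le_mul_left _ (Nat.zero_le _)) _
      · unfold al
        exact Nat.add_le_add_left (Nat.mul_le_mul_left _ (Nat.le_succ _)) _
  have he0 : ∀ l, 0 ≤ e l := by
    intro l
    rw [he]
    have : 0 ≤ ∑ x ∈ Finset.Ico (al a0 u1 l) (al a0 u1 (l + 1)), psi (u x) :=
      Finset.sum_nonneg fun x _ => psi_nonneg _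
    positivity
  -- right branch
  have hR := slow_path hh0 hδ0 (x0 := ((p : ℝ) + 1) * δ - xs) (by linarith) V m
    (fun i => W (p + 1 + i)) (fun i => ν (p + 1 + i)) (by
      intro i hi
      have e1 := hW' (p + 1 + i) (by omega)
      rw [show p + 1 + (i + 1) = p + 1 + i + 1 by ring, e1]
      push_cast
      ring_nf)
  -- left branch
  have hL := slow_path hh0 hδ0 (x0 := xs - (p : ℝ) * δ) (by linarith) V p
    (fun i => W (p - i)) (fun i => -ν (p - 1 - i)) (by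
      intro i hi
      obtain ⟨q, rfl⟩ : ∃ q, p = q + 1 + i := ⟨p - 1 - i, by omega⟩
      have e1 := hW' q (by omega)
      rw [show q + 1 + i - (i + 1) = q by omega, show q + 1 + i - i = q + 1 by omega,
        show q + 1 + i - 1 - i = q by omega, e1]
      push_cast
      ring_nf)
  -- constants
  obtain ⟨A, hA⟩ : ∃ A : ℝ, A = Ac * (h : ℝ) ^ 2 := ⟨_, rfl⟩
  have hA0 : 0 < A := by rw [hA]; positivity
  rw [← hA] at hnu
  obtain ⟨c0, hc0⟩ : ∃ c0 : ℝ, c0 = Real.pi / √2 := ⟨_, rfl⟩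
  have hs2 : (14 / 10 : ℝ) ≤ √2 := Real.le_sqrt_of_sq_le (by norm_num)
  have hc00 : 0 ≤ c0 := by rw [hc0]; positivity
  have hc03 : c0 ≤ 3 := by
    rw [hc0, div_le_iff₀ (by linarith)]
    have := Real.pi_le_four
    linarith
  obtain ⟨Q, hQ⟩ : ∃ Q : ℝ, Q = 1 + √N + N / w * h := ⟨_, rfl⟩
  -- the errors of discretisation
  have hdisc : ∀ X Y : ℝ, X ≤ 8 * (h : ℝ) ^ 2 → 0 ≤ Y → Y ≤ 8 * (h : ℝ) ^ 2 →
      Y * (4 * √(X * δ / h ^ 2)) ≤ 1 / 2 := by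
    intro X Y hX hY0 hY
    have e1 : X * δ / h ^ 2 ≤ (1 / (64 * (h : ℝ) ^ 2)) ^ 2 := by
      have e2 : X * δ / h ^ 2 ≤ 8 * δ := by
        rw [div_le_iff₀ (by positivity)]
        have := mul_le_mul_of_nonneg_right hX hδ0.le
        linarith
      refine e2.trans ?_
      rw [hδ, div_pow, one_pow, ← mul_div_assoc, div_le_div_iff₀ ha0 (by positivity)]
      have e3 : (h : ℝ) ^ 4 ≤ (h : ℝ) ^ 8 := pow_le_pow_right₀ hh' (by norm_num)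
      have e5 : 8 * 16 * (64 * (h : ℝ) ^ 2) ^ 2 = 524288 * (h : ℝ) ^ 4 := by ring
      rw [e5]
      linarith
    have e4 : √(X * δ / h ^ 2) ≤ 1 / (64 * (h : ℝ) ^ 2) := by
      rw [show (1 : ℝ) / (64 * (h : ℝ) ^ 2) = √((1 / (64 * (h : ℝ) ^ 2)) ^ 2) by
        rw [Real.sqrt_sq (by positivity)]]
      exact Real.sqrt_le_sqrt e1
    calc Y * (4 * √(X * δ / h ^ 2)) ≤ 8 * (h : ℝ) ^ 2 * (4 * (1 / (64 * (h : ℝ) ^ 2))) := by
          gcongr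
      _ = 1 / 2 := by field_simp; norm_num
  -- sum of the perturbations on a branch
  have hbr : ∀ (x0 : ℝ) (n : ℕ) (σ : ℕ → ℕ), 0 ≤ x0 →
      ∑ l ∈ range n, min (3 * (h : ℝ)) (2 * h ^ 2 / (x0 + (l + 1) * δ)) * |ν (σ l)| ≤
        lamh / (4 * A) * (25 * h ^ 3) + 2 * A * lamh * ∑ l ∈ range n, e (σ l) := by
    intro x0 n σ hx0
    have e1 := lip_sq_sum hh0 hδ0 (by linarith : δ ≤ h) hx0 n
    have e2 : 0 ≤ lamh / (4 * A) := by positivity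
    refine (Finset.sum_le_sum fun l _ => hnu (σ l)
      (min (3 * (h : ℝ)) (2 * h ^ 2 / (x0 + (l + 1) * δ))) (by positivity)
      (min_le_left _ _)).trans ?_
    rw [Finset.sum_add_distrib, Finset.mul_sum]
    have e3 := mul_le_mul_of_nonneg_left e1 e2
    rw [Finset.mul_sum] at e3
    linarith
  have hM' : (p : ℝ) * δ + δ + m * δ = 8 * (h : ℝ) ^ 2 := by rw [← hMδ]; ring
  have hla' : xs ≤ (p : ℝ) * δ + δ := by linarith
  have hp0 : 0 ≤ (p : ℝ) * δ := by positivity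
  have hm0 : 0 ≤ (m : ℝ) * δ := by positivity
  -- right branch
  have hR1 : c0 * h * kap V (W (p + 1)) - 3 * δ ≤
      Ph h V (((p : ℝ) + 1) * δ - xs) (W (p + 1 + 0)) := by
    have e1 := Ph_start hh0 (by linarith : 0 ≤ ((p : ℝ) + 1) * δ - xs) V (W (p + 1))
    rw [Ph_zero hh0, ← hc0] at e1
    have e2 := (abs_le.1 e1).1
    rw [add_zero]
    linarith
  have hR2 : Ph h V (((p : ℝ) + 1) * δ - xs + m * δ) (W (p + 1 + m)) ≤ 200 * Q := by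
    rw [hQ]
    exact Ph_end hh' V hw hs (by linarith) (by linarith) _
  have hR3 := hbr (((p : ℝ) + 1) * δ - xs) m (fun l => p + 1 + l) (by linarith)
  have hR4 := hdisc (((p : ℝ) + 1) * δ - xs + m * δ) (m * δ) (by linarith) hm0 (by linarith)
  -- left branch
  have hL1 : c0 * h * kap V (W p) - 3 * δ ≤ Ph h V (xs - (p : ℝ) * δ) (W (p - 0)) := by
    have e1 := Ph_start hh0 (by linarith : 0 ≤ xs - (p : ℝ) * δ) V (W p)
    rw [Ph_zero hh0, ← hc0] at e1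
    have e2 := (abs_le.1 e1).1
    rw [Nat.sub_zero]
    linarith
  have hL2 : Ph h V (xs - (p : ℝ) * δ + p * δ) (W (p - p)) ≤ 200 * Q := by
    rw [hQ]
    exact Ph_end hh' V hw hs (by linarith) (by linarith) _
  have hL3 := hbr (xs - (p : ℝ) * δ) p (fun l => p - 1 - l) (by linarith)
  have hL4 := hdisc (xs - (p : ℝ) * δ + p * δ) (p * δ) (by linarith) hp0 (by linarith)
  simp only [abs_neg] at hL
  -- the two values at the tangency point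
  have hT : c0 * h * kap V (W (p + 1)) - (1 / 10 + 3 * h * |ν p|) ≤ c0 * h * kap V (W p) := by
    have e1 := kap_lip V (W (p + 1)) (W p)
    have e2 := hW' p (by omega)
    have e3 : |W (p + 1) - W p| ≤ δ ^ 2 / (2 * h ^ 2) + |ν p| := by
      have e4 : W (p + 1) - W p =
          -(((((p : ℝ) + 1) * δ - xs) ^ 2 - ((p : ℝ) * δ - xs) ^ 2) / (2 * h ^ 2)) + ν p := by
        rw [e2]; ring
      rw [e4]
      refine (abs_add_le _ _).trans ?_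
      rw [abs_neg, abs_div, abs_of_pos (show 0 < 2 * (h : ℝ) ^ 2 by positivity)]
      have e5 : |(((p : ℝ) + 1) * δ - xs) ^ 2 - ((p : ℝ) * δ - xs) ^ 2| ≤ δ ^ 2 := by
        have hX : (((p : ℝ) + 1) * δ - xs) ^ 2 ≤ δ ^ 2 :=
          pow_le_pow_left₀ (by linarith) (by linarith) 2
        have hY : ((p : ℝ) * δ - xs) ^ 2 ≤ δ ^ 2 := by
          rw [← neg_sub, neg_sq]
          exact pow_le_pow_left₀ (by linarith) (by linarith) 2
        rw [abs_le]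
        constructor
        · linarith [sq_nonneg (((p : ℝ) + 1) * δ - xs)]
        · linarith [sq_nonneg ((p : ℝ) * δ - xs)]
      gcongr
    have e6 : |kap V (W (p + 1)) - kap V (W p)| ≤ δ ^ 2 / (2 * h ^ 2) + |ν p| := e1.trans e3
    have e7 := (abs_le.1 e6).2
    have e8 : c0 * h ≤ 3 * h := mul_le_mul_of_nonneg_right hc03 hh0.le
    have e9 : 0 ≤ δ ^ 2 / (2 * (h : ℝ) ^ 2) + |ν p| := by positivity
    have e10 : c0 * h * (kap V (W (p + 1)) - kap V (W p)) ≤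
        3 * h * (δ ^ 2 / (2 * (h : ℝ) ^ 2) + |ν p|) := by
      have : c0 * h * (kap V (W (p + 1)) - kap V (W p)) ≤
          c0 * h * (δ ^ 2 / (2 * (h : ℝ) ^ 2) + |ν p|) :=
        mul_le_mul_of_nonneg_left e7 (by positivity)
      exact this.trans (mul_le_mul_of_nonneg_right e8 e9)
    have e11 : 3 * h * (δ ^ 2 / (2 * (h : ℝ) ^ 2)) ≤ 1 / 10 := by
      have e12 : 3 * h * (δ ^ 2 / (2 * (h : ℝ) ^ 2)) = 3 * δ ^ 2 / (2 * h) := by
        field_simp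
      rw [e12, div_le_iff₀ (by positivity)]
      have e13 : δ ^ 2 ≤ 1 / 100 := by
        have : δ ^ 2 ≤ (1 / 10) ^ 2 := pow_le_pow_left₀ hδ0.le (by linarith) 2
        linarith
      linarith
    rw [mul_sub, mul_add] at e10
    linarith
  have hp3 := hnu p (3 * h) (by positivity) le_rfl
  -- splitting the sums
  have hE : ∑ l ∈ range p, e (p - 1 - l) + e p + ∑ l ∈ range m, e (p + 1 + l) =
      1 / (u1 * a) * ∑ x ∈ Finset.Ico (al a0 u1 0) (al a0 u1 (Mh h a)), psi (u x) := by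
    rw [← hesum, hm, Finset.sum_range_add, Finset.sum_range_succ, Finset.sum_range_reflect]
  have hF : ∑ l ∈ range (Mh h a + 1), 16 / (a : ℝ) * Th V (W l) =
      δ * Th V (W 0) + ∑ l ∈ range p, δ * Th V (W (p - l)) +
        ∑ l ∈ range m, δ * Th V (W (p + 1 + l)) + δ * Th V (W (p + 1 + m)) := by
    rw [← hδ, hm, Finset.sum_range_succ, Finset.sum_range_add, Finset.sum_range_succ',
      ← Finset.sum_range_reflect (fun j => δ * Th V (W (j + 1))) p]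
    have e1 : ∑ j ∈ range p, δ * Th V (W (p - 1 - j + 1)) = ∑ j ∈ range p, δ * Th V (W (p - j)) := by
      refine Finset.sum_congr rfl fun j hj => ?_
      have := mem_range.1 hj
      rw [show p - 1 - j + 1 = p - j by omega]
    rw [e1]
    ring
  have hT0 : -(2 * δ) ≤ δ * Th V (W 0) := by
    have := mul_le_mul_of_nonneg_left (abs_le.1 (abs_Th_le V (W 0))).1 hδ0.le
    linarith
  have hTM : -(2 * δ) ≤ δ * Th V (W (p + 1 + m)) := by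
    have := mul_le_mul_of_nonneg_left (abs_le.1 (abs_Th_le V (W (p + 1 + m)))).1 hδ0.le
    linarith
  have hpert : lamh / (4 * A) * (25 * h ^ 3) + lamh / (4 * A) * (25 * h ^ 3) +
      lamh / (4 * A) * (δ * (3 * h) ^ 2) ≤ 60 * (h / Ac) := by
    have e1 : lamh / (4 * A) ≤ 4 / (4 * A) := by gcongr
    have e2 : 25 * (h : ℝ) ^ 3 + 25 * h ^ 3 + δ * (3 * h) ^ 2 ≤ 60 * h ^ 3 := by
      have e3 : (h : ℝ) ^ 2 ≤ (h : ℝ) ^ 3 := pow_le_pow_right₀ hh' (by norm_num)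
      have e4 : δ * (3 * (h : ℝ)) ^ 2 ≤ 1 * (3 * (h : ℝ)) ^ 2 :=
        mul_le_mul_of_nonneg_right (by linarith) (by positivity)
      have e5 : 1 * (3 * (h : ℝ)) ^ 2 = 9 * (h : ℝ) ^ 2 := by ring
      linarith
    calc lamh / (4 * A) * (25 * h ^ 3) + lamh / (4 * A) * (25 * h ^ 3) +
          lamh / (4 * A) * (δ * (3 * h) ^ 2)
        = lamh / (4 * A) * (25 * (h : ℝ) ^ 3 + 25 * h ^ 3 + δ * (3 * h) ^ 2) := by ring
      _ ≤ 4 / (4 * A) * (60 * h ^ 3) := by gcongr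
      _ = 60 * (h / Ac) := by rw [hA]; field_simp
  obtain ⟨E, hEE⟩ : ∃ E : ℝ, E = 1 / (u1 * a) *
      ∑ x ∈ Finset.Ico (al a0 u1 0) (al a0 u1 (Mh h a)), psi (u x) := ⟨_, rfl⟩
  have hE0 : 0 ≤ ∑ l ∈ range p, e (p - 1 - l) + e p + ∑ l ∈ range m, e (p + 1 + l) :=
    add_nonneg (add_nonneg (Finset.sum_nonneg fun l _ => he0 _) (he0 _))
      (Finset.sum_nonneg fun l _ => he0 _)
  have hE1 : 2 * A * lamh * (∑ l ∈ range p, e (p - 1 - l) + e p + ∑ l ∈ range m, e (p + 1 + l)) ≤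
      8 * Ac * h ^ 2 * E := by
    rw [hEE, ← hE, hA]
    have e1 : 2 * (Ac * (h : ℝ) ^ 2) * lamh ≤ 8 * Ac * h ^ 2 := by
      have : 0 ≤ Ac * (h : ℝ) ^ 2 := by positivity
      have := mul_le_mul_of_nonneg_left h2 this
      linarith
    exact mul_le_mul_of_nonneg_right e1 hE0
  rw [hF, hp, ← hEE, ← hc0, ← hQ]
  linarith

end Pool.Agent.Lib.HBP
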