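import Mathlib
import Pool.Agent.Lib.HBP.PartSum
import Pool.Agent.Lib.HBP.NlF
import Pool.Agent.Lib.HBP.StrSlow

/-!
MODULE CsA: the tangential strand of an arc (column `al l` in row `be l`).

PROOF.  `B = a u2 b`, `κ1 = (1+λ)/u2 ≤ 5` (if `u2 = 1`: `λ ≤ 4/u1 ≤ 4`; if `u1 = 1`: `λ ≤ 4 u2`), `lamh = λ u1/u2`,
`u x = du A b lam x`, `M = Mh h a`, `φ v = Th V (v/B)`.
(1) `part_sum` with `m = M + 1`, `x l = al l`, `r l = be l`: up to an error
`B ∑_l (2λ/(a u2) |u-1| + 12 κ√κ + 16 κ psi)`, `κ = κ1/a`, the sum is `B (κ1/a) ∑ Th V (W l)`,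
`W l = (A (al l) + be l b)/B`.  Error: `2λ/u2 ≤ 8`, `8|u-1| ≤ 64/(12 Ac h²) + 6 Ac h² psi u` (`mul_abs_le`,
`A = 3 Ac h² ≥ 9`), `(M+1)/a ≤ h²`; `12 κ√κ (M+1) ≤ 12 · 12 h²/√a ≤ 1`; `16 κ1/a psi ≤ (80/a) psi`.  In total
`≤ B (3 + 90 Ac h² · (1/a) ∑_l psi (u (al l)))`.
(2) `W l = W' l - 2ρ_l/a` with `ρ_l ∈ [0,1)` from `Nl_eq` and
`W' l = (A (al l) + b0 b + 2 u2 b (33h²a/2 - l - 64l²/(ah²)))/B`; `W'` satisfies the recursion of `strand_slow`
with `lamh` (`A_sub` : `A (al (l+1)) - A (al l) = b λ ∑ u x = b λ (16 u1 + ∑ (u x - 1))`,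
`b λ 16 u1/B = lamh · 16/a`, `b λ/B = λ/(a u2) = lamh/(u1 a)`, `2 u2 b/B = 2/a`,
`(2/a)(1 + 64((l+1)²-l²)/(ah²)) = (1/8)(16/a) + ((16(l+1)/a)² - (16 l/a)²)/(2h²)`).
`|Th V (W l) - Th V (W' l)| ≤ 4 √(2/a)` (`Th_holder`), so the sums `∑ (16/a) Th` differ by
`(8h² + 16/a) 4 √(2/a) ≤ 1`.  `kap V (W' l*) ≥ kap V (W l*) - 2/a` (`kap_lip`).
(3) `strand_slow`, multiplied by `κ1/16` (`B (κ1/a) ∑ Th = B (κ1/16) ∑ (16/a) Th`): main term
`κ1 · 2(π/√2)/16 · h kap ≥ κ1 h/4 · kap` (`2π/(16√2) = 0.2776..`), the other terms multiplied by `5/16`.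
Finally `(1/a)∑_l psi(u (al l)) + (1/(u1 a)) ∑ psi ≤ arcE`.
-/

namespace Pool.Agent.Lib.HBP

open Finset

private theorem csA_rec {h a b u1 u2 a0 b0 : ℕ} (hh : 1 ≤ h) (ha : 1 ≤ a) (hb : 1 ≤ b) (hu1 : 1 ≤ u1)
    (hu2 : 1 ≤ u2) (A : ℕ → ℕ) (hA : Monotone A) {lam : ℝ} (hl : 0 < lam) (l : ℕ) :
    ((A (al a0 u1 (l + 1)) : ℝ) + b0 * b +
        2 * u2 * b * (33 * h ^ 2 * a / 2 - ((l + 1 : ℕ) : ℝ) - 64 * ((l + 1 : ℕ) : ℝ) ^ 2 / (a * h ^ 2))) /
        (a * u2 * b) =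
      ((A (al a0 u1 l) : ℝ) + b0 * b +
        2 * u2 * b * (33 * h ^ 2 * a / 2 - (l : ℝ) - 64 * (l : ℝ) ^ 2 / (a * h ^ 2))) / (a * u2 * b) +
      lam * u1 / u2 * (16 / a) -
      (1 / 8 * (16 / a) + ((16 * ((l : ℝ) + 1) / a) ^ 2 - (16 * (l : ℝ) / a) ^ 2) / (2 * h ^ 2)) +
      lam * u1 / u2 / (u1 * a) *
        ∑ x ∈ Finset.Ico (al a0 u1 l) (al a0 u1 (l + 1)), (du A b lam x - 1) := by
  have hle : al a0 u1 l ≤ al a0 u1 (l + 1) := by
    unfold al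
    have : 16 * u1 * l ≤ 16 * u1 * (l + 1) := Nat.mul_le_mul_left _ (Nat.le_succ l)
    omega
  have h1 := A_sub hb A hA hl hle
  have hcard : al a0 u1 (l + 1) - al a0 u1 l = 16 * u1 := by
    unfold al
    rw [Nat.mul_succ]
    omega
  rw [Finset.sum_sub_distrib, Finset.sum_const, nsmul_eq_mul, mul_one, Nat.card_Ico, hcard]
  set s := ∑ x ∈ Finset.Ico (al a0 u1 l) (al a0 u1 (l + 1)), du A b lam x with hs
  have h2 : (A (al a0 u1 (l + 1)) : ℝ) = A (al a0 u1 l) + b * lam * s := by linarith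
  have haR : (a : ℝ) ≠ 0 := by positivity
  have hbR : (b : ℝ) ≠ 0 := by positivity
  have hhR : (h : ℝ) ≠ 0 := by positivity
  have hu1R : (u1 : ℝ) ≠ 0 := by positivity
  have hu2R : (u2 : ℝ) ≠ 0 := by positivity
  rw [h2]
  push_cast
  field_simp
  ring

private theorem csA_sqrt {h a : ℕ} (ha : 10 ^ 12 * h ^ 8 ≤ a) {c : ℝ} (hc : 0 ≤ c) (hc' : c ≤ 9) :
    (h : ℝ) ^ 2 * √(c / a) ≤ 3 / 10 ^ 6 := by
  rcases Nat.eq_zero_or_pos h with h0 | h0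
  · subst h0
    simp
    norm_num
  · have hR : (1 : ℝ) ≤ h := by exact_mod_cast h0
    have haR : (10 : ℝ) ^ 12 * (h : ℝ) ^ 8 ≤ a := by exact_mod_cast ha
    have hh0 : (0 : ℝ) < h := by linarith
    have ha0 : (0 : ℝ) < a := lt_of_lt_of_le (by positivity) haR
    have h1 : √(c / a) ≤ 3 / (10 ^ 6 * (h : ℝ) ^ 4) := by
      rw [Real.sqrt_le_left (by positivity), div_pow, mul_pow, ← pow_mul, ← pow_mul]
      rw [div_le_div_iff₀ ha0 (by positivity)]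
      norm_num at haR ⊢
      nlinarith
    calc (h : ℝ) ^ 2 * √(c / a) ≤ (h : ℝ) ^ 2 * (3 / (10 ^ 6 * (h : ℝ) ^ 4)) := by gcongr
      _ = 3 / 10 ^ 6 * (1 / (h : ℝ) ^ 2) := by field_simp
      _ ≤ 3 / 10 ^ 6 * 1 := by
        gcongr
        rw [div_le_one (by positivity)]
        nlinarith
      _ = 3 / 10 ^ 6 := mul_one _

private theorem csA_M {h a : ℕ} (hh : 1 ≤ h) (ha2 : 2 ∣ a) (ha : 10 ^ 12 * h ^ 8 ≤ a) :
    ((Mh h a : ℝ) + 1) ≤ h ^ 2 * a := by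
  have hR : (1 : ℝ) ≤ h := by exact_mod_cast hh
  have haR : (10 : ℝ) ^ 12 * (h : ℝ) ^ 8 ≤ a := by exact_mod_cast ha
  have h8 : (1 : ℝ) ≤ (h : ℝ) ^ 8 := one_le_pow₀ hR
  have h2 : (1 : ℝ) ≤ (h : ℝ) ^ 2 := one_le_pow₀ hR
  rw [Mh_cast ha2]
  norm_num at haR
  nlinarith

private theorem csA_err {h a b u1 u2 a0 : ℕ} (hh : 1 ≤ h) (ha2 : 2 ∣ a) (ha : 10 ^ 12 * h ^ 8 ≤ a)
    (hb : 1 ≤ b) (hu1 : 1 ≤ u1) (hu2 : 1 ≤ u2) {Ac : ℝ} (hAc : 3 ≤ Ac) (A : ℕ → ℕ) (hA : Monotone A)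
    {lam : ℝ} (hl : 0 < lam) (h4 : lam / u2 ≤ 4) :
    ∑ l ∈ range (Mh h a + 1), (2 * lam / (a * u2) * |du A b lam (al a0 u1 l) - 1| +
      12 * ((1 + lam) / (a * u2) * √((1 + lam) / (a * u2))) +
      16 * ((1 + lam) / (a * u2)) * psi (du A b lam (al a0 u1 l))) ≤
    3 + 33 * Ac * h ^ 2 * (1 / a * ∑ l ∈ range (Mh h a + 1), psi (du A b lam (al a0 u1 l))) := by
  have hR : (1 : ℝ) ≤ h := by exact_mod_cast hh
  have haR : (10 : ℝ) ^ 12 * (h : ℝ) ^ 8 ≤ a := by exact_mod_cast ha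
  have hh0 : (0 : ℝ) < h := by linarith
  have ha0 : (0 : ℝ) < a := lt_of_lt_of_le (by positivity) haR
  have hu2R : (1 : ℝ) ≤ u2 := by exact_mod_cast hu2
  have hu20 : (0 : ℝ) < u2 := by linarith
  have h2 : (1 : ℝ) ≤ (h : ℝ) ^ 2 := one_le_pow₀ hR
  have hM := csA_M hh ha2 ha
  have hk1 : (1 + lam) / (a * u2) = (1 + lam) / u2 / a := by
    rw [div_div]
    congr 1
    ring
  have hk5 : (1 + lam) / u2 ≤ 5 := by
    rw [add_div]
    have : 1 / (u2 : ℝ) ≤ 1 := by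
      rw [div_le_one hu20]
      exact hu2R
    linarith
  have hk0 : 0 < (1 + lam) / u2 := by positivity
  set k1 := (1 + lam) / (u2 : ℝ) with hk
  rw [hk1]
  have hterm : ∀ l ∈ range (Mh h a + 1), (2 * lam / (a * u2) * |du A b lam (al a0 u1 l) - 1| +
      12 * (k1 / a * √(k1 / a)) + 16 * (k1 / a) * psi (du A b lam (al a0 u1 l))) ≤
      1 / a * (64 / (12 * Ac * h ^ 2) + 60 * √(5 / a)) +
      33 * Ac * h ^ 2 * (1 / a * psi (du A b lam (al a0 u1 l))) := by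
    intro l _
    set u := du A b lam (al a0 u1 l) with hu
    have hu0 : 0 ≤ u := du_nonneg A hA hl _
    have hp := psi_nonneg u
    have hA9 : 9 ≤ 3 * Ac * (h : ℝ) ^ 2 := by nlinarith
    have h5 := mul_abs_le hu0 (by norm_num : (0 : ℝ) ≤ 8) (by linarith) (by linarith : (8 : ℝ) ≤ 3 * Ac * h ^ 2)
    have h6 : 2 * lam / (a * u2) * |u - 1| ≤ 1 / a * (8 * |u - 1|) := by
      have h7 : 2 * lam / (a * u2) = 1 / a * (2 * (lam / u2)) := by
        field_simp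
      rw [h7, mul_assoc]
      apply mul_le_mul_of_nonneg_left _ (by positivity)
      apply mul_le_mul_of_nonneg_right _ (abs_nonneg _)
      linarith
    have h8 : k1 / a * √(k1 / a) ≤ 5 / a * √(5 / a) := by
      have h9 : k1 / a ≤ 5 / a := div_le_div_of_nonneg_right hk5 ha0.le
      exact mul_le_mul h9 (Real.sqrt_le_sqrt h9) (Real.sqrt_nonneg _) (by positivity)
    have h10 : 16 * (k1 / a) * psi u ≤ 80 * (1 / a * psi u) := by
      have h11 : 16 * (k1 / a) * psi u = 16 * k1 * (1 / a * psi u) := by ring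
      rw [h11]
      apply mul_le_mul_of_nonneg_right _ (by positivity)
      linarith
    have h12 : 8 * |u - 1| ≤ 64 / (12 * Ac * h ^ 2) + 6 * Ac * h ^ 2 * psi u := by
      have h13 : (8 : ℝ) ^ 2 / (4 * (3 * Ac * h ^ 2)) = 64 / (12 * Ac * h ^ 2) := by
        congr 1
        · norm_num
        · ring
      rw [h13] at h5
      linarith
    have h14 : 1 / (a : ℝ) * (8 * |u - 1|) ≤
        1 / a * (64 / (12 * Ac * h ^ 2) + 6 * Ac * h ^ 2 * psi u) :=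
      mul_le_mul_of_nonneg_left h12 (by positivity)
    have h15 : 0 ≤ 1 / (a : ℝ) * psi u := by positivity
    have h16 : 80 * (1 / (a : ℝ) * psi u) ≤ 27 * Ac * h ^ 2 * (1 / a * psi u) := by
      apply mul_le_mul_of_nonneg_right _ h15
      nlinarith
    calc _ ≤ 1 / a * (64 / (12 * Ac * h ^ 2) + 6 * Ac * h ^ 2 * psi u) + 12 * (5 / a * √(5 / a)) +
          27 * Ac * h ^ 2 * (1 / a * psi u) := by linarith
      _ = _ := by ring
  refine (sum_le_sum hterm).trans ?_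
  rw [sum_add_distrib, sum_const, card_range, nsmul_eq_mul, ← mul_sum, ← mul_sum]
  have hs := csA_sqrt ha (by norm_num : (0 : ℝ) ≤ 5) (by norm_num)
  have hsn : 0 ≤ √(5 / (a : ℝ)) := Real.sqrt_nonneg _
  have hx : 0 ≤ 64 / (12 * Ac * (h : ℝ) ^ 2) + 60 * √(5 / a) := by positivity
  have h17 : ((Mh h a + 1 : ℕ) : ℝ) * (1 / a * (64 / (12 * Ac * h ^ 2) + 60 * √(5 / a))) ≤ 3 := by
    push_cast
    have h18 : ((Mh h a : ℝ) + 1) * (1 / a) ≤ h ^ 2 := by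
      rw [mul_one_div, div_le_iff₀ ha0]
      exact hM
    rw [← mul_assoc]
    calc ((Mh h a : ℝ) + 1) * (1 / a) * (64 / (12 * Ac * h ^ 2) + 60 * √(5 / a))
        ≤ h ^ 2 * (64 / (12 * Ac * h ^ 2) + 60 * √(5 / a)) := mul_le_mul_of_nonneg_right h18 hx
      _ = 64 / (12 * Ac) + 60 * (h ^ 2 * √(5 / a)) := by
        field_simp
      _ ≤ 64 / 36 + 60 * (3 / 10 ^ 6) := by
        have h19 : 64 / (12 * Ac) ≤ 64 / 36 := by
          apply div_le_div_of_nonneg_left (by norm_num) (by norm_num)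
          linarith
        linarith
      _ ≤ 3 := by norm_num
  linarith

private theorem csA_alg {h Ac k1 K X Y E0 E1 E T S1 pi2 : ℝ} (hh : 1 ≤ h) (hAc : 3 ≤ Ac) (hk0 : 0 < k1)
    (hk5 : k1 ≤ 5) (hK : 0 ≤ K) (hpi : 2 ≤ pi2) (hX : 1 ≤ X) (hY : 0 ≤ Y) (hE0 : 0 ≤ E0)
    (hE1 : 0 ≤ E1) (hE : E0 + E1 ≤ E)
    (hS : 2 * pi2 * h * K - 1 - 400 * X - 60 * Y - 8 * Ac * h ^ 2 * E1 - 11 ≤ S1)
    (hT : k1 / 16 * S1 ≤ T) :
    k1 * h / 4 * K - 1000 * (X + Y) - 1000 * Ac * h ^ 2 * E ≤ T - (3 + 33 * Ac * h ^ 2 * E0) := by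
  have hAh : 0 ≤ Ac * h ^ 2 := by positivity
  have h1 := mul_le_mul_of_nonneg_left hS (by positivity : 0 ≤ k1 / 16)
  have h2 : k1 * h / 4 * K ≤ k1 / 16 * (2 * pi2 * h * K) := by
    have h3 : 0 ≤ k1 * h * K := by positivity
    nlinarith
  have h4 : k1 / 16 * (400 * X + 60 * Y + 8 * Ac * h ^ 2 * E1 + 12) ≤
      5 / 16 * (400 * X + 60 * Y + 8 * Ac * h ^ 2 * E1 + 12) := by
    apply mul_le_mul_of_nonneg_right _ _
    · linarith
    · have := mul_nonneg hAh hE1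
      nlinarith
  have h5 : Ac * h ^ 2 * (E0 + E1) ≤ Ac * h ^ 2 * E := mul_le_mul_of_nonneg_left hE hAh
  have h6 := mul_nonneg hAh hE0
  have h7 := mul_nonneg hAh hE1
  nlinarith

theorem cs_A {h a b u1 u2 a0 b0 w N : ℕ} (hh : 1 ≤ h) (ha2 : 2 ∣ a)
    (ha : 10 ^ 12 * h ^ 8 * (u1 * u2) ^ 4 ≤ a) (hb : 1 ≤ b) (hu : u1 = 1 ∨ u2 = 1) (hu1 : 1 ≤ u1)
    (hu2 : 1 ≤ u2) {Ac : ℝ} (hAc : 3 ≤ Ac) (A : ℕ → ℕ) (hA : Monotone A) {lam : ℝ}
    (hl1 : 1 / 4 ≤ lam * u1 / u2) (hl2 : lam * u1 / u2 ≤ 4) (V : Finset ℤ) (hw : 1 ≤ w)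
    (hs : Sparse V w N) :
    (a : ℝ) * u2 * b * ((1 + lam) / u2 * h / 4 *
        kap V (((A (al a0 u1 (lst h a (lam * u1 / u2))) : ℝ) +
          be b0 u2 h a (lst h a (lam * u1 / u2)) * b) / (a * u2 * b)) -
      1000 * (1 + √N + N * h / w + h / Ac) -
      1000 * Ac * h ^ 2 * arcE A b lam a u1 u2 (al a0 u1) (be b0 u2 h a) (Mh h a)) ≤
    ∑ l ∈ range (Mh h a + 1),
      csum (fun v => Th V ((v : ℝ) / (a * u2 * b))) A b (al a0 u1 l) (be b0 u2 h a l) := by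
  have haN : 10 ^ 12 * h ^ 8 ≤ a :=
    le_trans (Nat.le_mul_of_pos_right _ (by positivity)) ha
  have hR : (1 : ℝ) ≤ h := by exact_mod_cast hh
  have haR : (10 : ℝ) ^ 12 * (h : ℝ) ^ 8 ≤ a := by exact_mod_cast haN
  have hh0 : (0 : ℝ) < h := by linarith
  have h8 : (1 : ℝ) ≤ (h : ℝ) ^ 8 := one_le_pow₀ hR
  have ha0 : (0 : ℝ) < a := lt_of_lt_of_le (by positivity) haR
  have ha1 : 1 ≤ a := by
    have : (0 : ℝ) < a := ha0
    exact_mod_cast this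
  have hb0 : (0 : ℝ) < b := by exact_mod_cast hb
  have hu1R : (1 : ℝ) ≤ u1 := by exact_mod_cast hu1
  have hu2R : (1 : ℝ) ≤ u2 := by exact_mod_cast hu2
  have hu10 : (0 : ℝ) < u1 := by linarith
  have hu20 : (0 : ℝ) < u2 := by linarith
  have hl : 0 < lam := by
    by_contra hn
    have h3 : lam * u1 / u2 ≤ 0 :=
      div_nonpos_of_nonpos_of_nonneg (mul_nonpos_of_nonpos_of_nonneg (not_lt.1 hn) hu10.le) hu20.le
    linarith
  have h4 : lam / u2 ≤ 4 := by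
    have h5 : lam / u2 ≤ lam * u1 / u2 := by
      apply div_le_div_of_nonneg_right _ hu20.le
      nlinarith
    linarith
  have hB : (0 : ℝ) < a * u2 * b := by positivity
  obtain ⟨hl1', hl2'⟩ := lst_bounds hh ha2 haN hl1 hl2
  have hps := part_sum ha1 hb hu2 A hA hl V (Mh h a + 1) (al a0 u1) (be b0 u2 h a)
  have herr := csA_err (a0 := a0) hh ha2 haN hb hu1 hu2 hAc A hA hl h4
  have hstr := strand_slow (a0 := a0) (N := N) hh ha2 haN hu1 hl1 hl2 hAc V hw hs (du A b lam)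
    (fun x => du_nonneg A hA hl x)
    (fun l => ((A (al a0 u1 l) : ℝ) + b0 * b +
        2 * u2 * b * (33 * h ^ 2 * a / 2 - (l : ℝ) - 64 * (l : ℝ) ^ 2 / (a * h ^ 2))) / (a * u2 * b))
    (fun l _ => csA_rec hh ha1 hb hu1 hu2 A hA hl l)
  set W : ℕ → ℝ := fun l => ((A (al a0 u1 l) : ℝ) + be b0 u2 h a l * b) / (a * u2 * b) with hW
  set W' : ℕ → ℝ := fun l => ((A (al a0 u1 l) : ℝ) + b0 * b +
        2 * u2 * b * (33 * h ^ 2 * a / 2 - (l : ℝ) - 64 * (l : ℝ) ^ 2 / (a * h ^ 2))) / (a * u2 * b)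
    with hW'
  have hrel : ∀ l, l ≤ Mh h a → |W l - W' l| ≤ 2 / a := by
    intro l hlM
    obtain ⟨ρ, hρ0, hρ1, hρ⟩ := Nl_eq hh ha1 ha2 hlM
    have h5 : W l - W' l = -(2 * ρ / a) := by
      simp only [hW, hW']
      unfold be
      push_cast
      rw [hρ]
      field_simp
      ring
    rw [h5, abs_neg, abs_of_nonneg (by positivity)]
    apply div_le_div_of_nonneg_right _ ha0.le
    linarith
  have hkap : kap V (W (lst h a (lam * u1 / u2))) - 2 / a ≤ kap V (W' (lst h a (lam * u1 / u2))) := by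
    have h5 := kap_lip V (W (lst h a (lam * u1 / u2))) (W' (lst h a (lam * u1 / u2)))
    have h6 := hrel _ hl2'
    have h7 := (abs_le.1 h5).2
    linarith
  have hsum : ∑ l ∈ range (Mh h a + 1), 16 / (a : ℝ) * Th V (W' l) - 1 ≤
      ∑ l ∈ range (Mh h a + 1), 16 / (a : ℝ) * Th V (W l) := by
    have h5 : ∀ l ∈ range (Mh h a + 1), 16 / (a : ℝ) * Th V (W' l) - 16 / a * (4 * √(2 / a)) ≤
        16 / (a : ℝ) * Th V (W l) := by
      intro l hlr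
      have h6 : l ≤ Mh h a := Nat.lt_succ_iff.1 (mem_range.1 hlr)
      have h7 := Th_holder V (W l) (W' l)
      have h8 := Real.sqrt_le_sqrt (hrel l h6)
      have h9 := (abs_le.1 h7).1
      have h10 : Th V (W' l) - 4 * √(2 / a) ≤ Th V (W l) := by linarith
      have h11 := mul_le_mul_of_nonneg_left h10 (by positivity : 0 ≤ 16 / (a : ℝ))
      linarith
    have h6 := sum_le_sum h5
    rw [sum_sub_distrib, sum_const, card_range, nsmul_eq_mul] at h6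
    have h7 : ((Mh h a + 1 : ℕ) : ℝ) * (16 / a * (4 * √(2 / a))) ≤ 1 := by
      push_cast
      have hM := csA_M hh ha2 haN
      have h18 : ((Mh h a : ℝ) + 1) * (1 / a) ≤ h ^ 2 := by
        rw [mul_one_div, div_le_iff₀ ha0]
        exact hM
      have hs2 := csA_sqrt haN (by norm_num : (0 : ℝ) ≤ 2) (by norm_num)
      have hsn : 0 ≤ √(2 / (a : ℝ)) := Real.sqrt_nonneg _
      calc ((Mh h a : ℝ) + 1) * (16 / a * (4 * √(2 / a)))
          = ((Mh h a : ℝ) + 1) * (1 / a) * (64 * √(2 / a)) := by ring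
        _ ≤ h ^ 2 * (64 * √(2 / a)) := mul_le_mul_of_nonneg_right h18 (by positivity)
        _ = 64 * (h ^ 2 * √(2 / a)) := by ring
        _ ≤ 64 * (3 / 10 ^ 6) := by linarith
        _ ≤ 1 := by norm_num
    linarith
  have hpi2 : 2 ≤ Real.pi / √2 := by
    rw [le_div_iff₀ (by positivity)]
    have h5 : √2 ≤ 3 / 2 := by
      rw [Real.sqrt_le_left (by norm_num)]
      norm_num
    have h6 := Real.pi_gt_three
    linarith
  have hpi4 : Real.pi / √2 ≤ 4 := by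
    rw [div_le_iff₀ (by positivity)]
    have h5 : 1 ≤ √2 := by
      rw [Real.one_le_sqrt]
      norm_num
    have h6 := Real.pi_le_four
    linarith
  have hk5 : (1 + lam) / u2 ≤ 5 := by
    rw [add_div]
    have : 1 / (u2 : ℝ) ≤ 1 := by
      rw [div_le_one hu20]
      exact hu2R
    linarith
  have hk0 : 0 < (1 + lam) / u2 := by positivity
  have hK := kap_nonneg V (W (lst h a (lam * u1 / u2)))
  have hwR : (1 : ℝ) ≤ w := by exact_mod_cast hw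
  have hE0 : 0 ≤ 1 / (a : ℝ) * ∑ l ∈ range (Mh h a + 1), psi (du A b lam (al a0 u1 l)) :=
    mul_nonneg (by positivity) (sum_nonneg fun _ _ => psi_nonneg _)
  have hE1 : 0 ≤ 1 / ((u1 : ℝ) * a) *
      ∑ x ∈ Finset.Ico (al a0 u1 0) (al a0 u1 (Mh h a)), psi (du A b lam x) :=
    mul_nonneg (by positivity) (sum_nonneg fun _ _ => psi_nonneg _)
  have hE : 1 / (a : ℝ) * ∑ l ∈ range (Mh h a + 1), psi (du A b lam (al a0 u1 l)) +
      1 / ((u1 : ℝ) * a) *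
      ∑ x ∈ Finset.Ico (al a0 u1 0) (al a0 u1 (Mh h a)), psi (du A b lam x) ≤
      arcE A b lam a u1 u2 (al a0 u1) (be b0 u2 h a) (Mh h a) := by
    unfold arcE
    rw [sum_add_distrib, mul_add]
    have h5 : 0 ≤ 1 / (a : ℝ) * ∑ l ∈ range (Mh h a + 1), psi (du A b lam (be b0 u2 h a l)) :=
      mul_nonneg (by positivity) (sum_nonneg fun _ _ => psi_nonneg _)
    have h6 : 0 ≤ 1 / ((u2 : ℝ) * a) * ∑ x ∈ Finset.Ico (be b0 u2 h a (Mh h a)) (be b0 u2 h a 0),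
        psi (du A b lam x) :=
      mul_nonneg (by positivity) (sum_nonneg fun _ _ => psi_nonneg _)
    linarith
  have h12 : 2 * (Real.pi / √2) * h * (2 / a) ≤ 1 := by
    have h5 : (h : ℝ) ≤ (h : ℝ) ^ 8 := le_self_pow₀ hR (by norm_num)
    have h6 : 2 * (Real.pi / √2) * h * (2 / a) = (Real.pi / √2) * (4 * h / a) := by ring
    rw [h6]
    have h7 : 4 * (h : ℝ) / a ≤ 1 / 4 := by
      rw [div_le_iff₀ ha0]
      norm_num at haR
      nlinarith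
    have h8 : 0 ≤ 4 * (h : ℝ) / a := by positivity
    nlinarith
  have hX : (1 : ℝ) ≤ 1 + √N + N / w * h := by
    have h5 := Real.sqrt_nonneg (N : ℝ)
    have h6 : 0 ≤ (N : ℝ) / w * h := by positivity
    linarith
  have hmain := csA_alg (T := (1 + lam) / (a * u2) * ∑ l ∈ range (Mh h a + 1), Th V (W l))
    (S1 := ∑ l ∈ range (Mh h a + 1), 16 / (a : ℝ) * Th V (W l)) hR hAc hk0 hk5 hK hpi2 hX
    (by positivity : 0 ≤ (h : ℝ) / Ac) hE0 hE1 hE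
    (by
      have h5 : 2 * (Real.pi / √2) * h * (kap V (W (lst h a (lam * u1 / u2))) - 2 / a) ≤
          2 * (Real.pi / √2) * h * kap V (W' (lst h a (lam * u1 / u2))) :=
        mul_le_mul_of_nonneg_left hkap (by positivity)
      rw [mul_sub] at h5
      linarith)
    (by
      rw [← mul_sum, ← mul_assoc]
      apply le_of_eq
      congr 1
      field_simp)
  have hfin : (a * u2 * b : ℝ) * ((1 + lam) / (a * u2) * ∑ l ∈ range (Mh h a + 1), Th V (W l) -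
      (3 + 33 * Ac * h ^ 2 * (1 / a * ∑ l ∈ range (Mh h a + 1), psi (du A b lam (al a0 u1 l))))) ≤
      ∑ l ∈ range (Mh h a + 1),
        csum (fun v => Th V ((v : ℝ) / (a * u2 * b))) A b (al a0 u1 l) (be b0 u2 h a l) := by
    have h5 := (abs_le.1 hps).1
    have h6 := mul_le_mul_of_nonneg_left herr hB.le
    rw [mul_sub, ← mul_assoc]
    linarith
  refine le_trans ?_ hfin
  apply mul_le_mul_of_nonneg_left _ hB.le
  refine le_trans (le_of_eq ?_) hmain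
  ring

end Pool.Agent.Lib.HBP
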