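import Mathlib
import Pool.Agent.Lib.HBP.ThBound

/-!
MODULE PsOsc: the antiderivative `Ps V` of `Th V`.

PROOF.  `x ↦ (4/3) x √x` has derivative `2 √x` everywhere (also for `x ≤ 0`, where both vanish), so `Ps V` has
derivative `Th V`.  TAYLOR: mean value inequality with `|Th V s - Th V v| ≤ min 4 (4 √|s-v|)`
(`abs_Th_le`, `Th_holder`).
OSCILLATION.  `ps0 u = 0` for `u ≤ -1`, `0 ≤ ps0 u ≤ 2` always, `ps0 u ≤ (u-1)^(-1/2)` for `u ≥ 2`
(`ps0 u = ∫ hat(u-t) t^(-1/2) dt`; or: second difference of the function `(4/3) x √x` with second derivative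
`x^(-1/2)`), and `|th0 u| ≤ (1/2)(u-1)^(-3/2)` for `u ≥ 2`; `ps0` is nonincreasing on `[1, ∞)`.
Let `v ≤ v'`, `r = v' - v`.  `N` may be replaced by `min N w` (a window contains at most `w` integers), so
`N ≤ w`.  `|Ps V v' - Ps V v| ≤ ∑_c |ps0 (v'-c) - ps0 (v-c)|`.
(i) `c ≥ v - 2`: at most `ps0 (v' - c) + ps0 (v - c)`: the second is nonzero for at most 3 integers; the first:
at most 3 integers with `v' - c < 2` (value `≤ 2`), the others have `t = v' - c ≥ 2`, `t ≤ r + 2`: the first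
window of `w` integers gives at most `∑_{k ≤ N} k^(-1/2) ≤ 2 √N`, the `j`-th one (`1 ≤ j ≤ (r+2)/w + 1`) at most
`N (j w)^(-1/2)`; total `≤ 12 + 2 √N + 2 N √((r+2)/w + 1)/√w ≤ 12 + 2√N + 2 N √r/w + 4 N/√w`, and
`N/√w ≤ √N`.
(ii) `c < v - 2`, `t = v - c > 2`: difference `≤ min ((t-1)^(-1/2)) ((r/2)(t-1)^(-3/2))`.  The part `t ≤ r + 2`
is estimated as in (i).  For `t > r + 2`: first window `≤ 2 √N`; `j`-th window (`j ≥ 1`, `t ≥ r + 2 + j w`):
`≤ N (r/2) (r + j w)^(-3/2)`, `∑_{j≥1} (r + j w)^(-3/2) ≤ (1/w) ∫_r^∞ x^(-3/2) dx = 2/(w √r)`, total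
`≤ N √r/w`.
-/

namespace Pool.Agent.Lib.HBP

open Finset

private theorem po_xsqrt (x : ℝ) : HasDerivAt (fun x : ℝ => x * √x) (3 / 2 * √x) x := by
  rcases lt_trichotomy x 0 with hx | hx | hx
  · have h1 : (fun x : ℝ => x * √x) =ᶠ[nhds x] fun _ => 0 := by
      filter_upwards [gt_mem_nhds hx] with y hy
      rw [Real.sqrt_eq_zero_of_nonpos hy.le, mul_zero]
    rw [Real.sqrt_eq_zero_of_nonpos hx.le, mul_zero]
    exact (hasDerivAt_const x (0 : ℝ)).congr_of_eventuallyEq h1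
  · subst hx
    rw [hasDerivAt_iff_tendsto_slope, Real.sqrt_zero, mul_zero]
    have h1 : Filter.Tendsto (fun y : ℝ => √y) (nhdsWithin 0 {0}ᶜ) (nhds 0) := by
      have := (Real.continuous_sqrt.tendsto 0).mono_left
        (nhdsWithin_le_nhds (s := ({0}ᶜ : Set ℝ)))
      rwa [Real.sqrt_zero] at this
    refine h1.congr' ?_
    filter_upwards [self_mem_nhdsWithin] with y hy
    have hy0 : y ≠ 0 := hy
    rw [slope_def_field]
    simp only [Real.sqrt_zero, mul_zero, sub_zero]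
    field_simp
  · have h1 : HasDerivAt (fun x : ℝ => x * √x) (1 * √x + x * (1 / (2 * √x))) x :=
      (hasDerivAt_id x).mul (Real.hasDerivAt_sqrt hx.ne')
    refine h1.congr_deriv ?_
    have hs : √x ≠ 0 := (Real.sqrt_pos.2 hx).ne'
    have h2 : x = √x * √x := (Real.mul_self_sqrt hx.le).symm
    have h3 : x * (1 / (2 * √x)) = √x / 2 := by
      rw [mul_one_div, div_eq_div_iff (by positivity) (by norm_num)]
      linarith
    rw [h3]
    ring

private theorem po_deriv (u : ℝ) : HasDerivAt ps0 (th0 u) u := by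
  have h1 : HasDerivAt (fun u : ℝ => (u + 1) * √(u + 1)) (3 / 2 * √(u + 1)) u := by
    have := (po_xsqrt (u + 1)).comp_add_const u 1
    exact this
  have h2 : HasDerivAt (fun u : ℝ => (u - 1) * √(u - 1)) (3 / 2 * √(u - 1)) u := by
    have := (po_xsqrt (u - 1)).comp_sub_const u 1
    exact this
  have h3 := (((h1.sub ((po_xsqrt u).const_mul 2)).add h2).const_mul (4 / 3))
  have h4 : (4 / 3 * (3 / 2 * √(u + 1) - 2 * (3 / 2 * √u) + 3 / 2 * √(u - 1)) : ℝ) = th0 u := by
    unfold th0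
    ring
  rw [← h4]
  exact h3

theorem hasDerivAt_Ps (V : Finset ℤ) (v : ℝ) : HasDerivAt (Ps V) (Th V v) v := by
  unfold Th
  have h := HasDerivAt.fun_sum (u := V) (A := fun c v => ps0 (v - (c : ℝ)))
    (A' := fun c => th0 (v - (c : ℝ))) (x := v)
    (fun c _ => (po_deriv (v - c)).comp_sub_const v c)
  exact h

theorem Ps_taylor (V : Finset ℤ) (v v' : ℝ) :
    |Ps V v' - Ps V v - (v' - v) * Th V v| ≤ |v' - v| * min 4 (4 * √|v' - v|) := by
  have key : ∀ x ∈ Set.uIcc v v', ‖Th V x - Th V v‖ ≤ min 4 (4 * √|v' - v|) := by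
    intro x hx
    rw [Real.norm_eq_abs]
    refine le_min ?_ ?_
    · have h1 := abs_sub (Th V x) (Th V v)
      have h2 := abs_Th_le V x
      have h3 := abs_Th_le V v
      linarith
    · refine (Th_holder V x v).trans ?_
      refine mul_le_mul_of_nonneg_left (Real.sqrt_le_sqrt ?_) (by norm_num)
      have := Set.abs_sub_left_of_mem_uIcc hx
      exact this
  have hd : ∀ x ∈ Set.uIcc v v', HasDerivWithinAt (fun x => Ps V x - x * Th V v)
      (Th V x - Th V v) (Set.uIcc v v') x := by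
    intro x _
    have h1 := (hasDerivAt_Ps V x).sub ((hasDerivAt_id x).mul_const (Th V v))
    simp only [id, one_mul] at h1
    exact h1.hasDerivWithinAt
  have h := (convex_uIcc v v').norm_image_sub_le_of_norm_hasDerivWithin_le hd key
    Set.left_mem_uIcc Set.right_mem_uIcc
  rw [Real.norm_eq_abs, Real.norm_eq_abs] at h
  have e : Ps V v' - v' * Th V v - (Ps V v - v * Th V v) =
      Ps V v' - Ps V v - (v' - v) * Th V v := by ring
  rw [e] at h
  exact h.trans_eq (mul_comm _ _)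

private theorem po_th0 (u : ℝ) : |th0 u| ≤ 2 := by
  have h := abs_Th_le {0} u
  unfold Th at h
  rw [Finset.sum_singleton, Int.cast_zero, sub_zero] at h
  exact h

private theorem po_zero {u : ℝ} (hu : u ≤ -1) : ps0 u = 0 := by
  unfold ps0
  rw [Real.sqrt_eq_zero_of_nonpos (by linarith : u + 1 ≤ 0),
    Real.sqrt_eq_zero_of_nonpos (by linarith : u ≤ 0),
    Real.sqrt_eq_zero_of_nonpos (by linarith : u - 1 ≤ 0)]
  ring

private theorem po_six {u : ℝ} (hu : u ≤ 2) : |ps0 u| ≤ 6 := by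
  rcases le_or_gt u (-1) with h | h
  · rw [po_zero h, abs_zero]
    norm_num
  · have h1 := (convex_uIcc (-1) u).norm_image_sub_le_of_norm_hasDerivWithin_le (C := 2)
      (f := ps0) (f' := th0) (x := -1) (y := u)
      (fun x _ => (po_deriv x).hasDerivWithinAt) (fun x _ => po_th0 x) Set.left_mem_uIcc
      Set.right_mem_uIcc
    rw [po_zero le_rfl, sub_zero, Real.norm_eq_abs, Real.norm_eq_abs,
      abs_of_nonneg (by linarith : (0 : ℝ) ≤ u - -1)] at h1
    linarith

private theorem po_th0_eq {u : ℝ} (hu : 1 ≤ u) : th0 u * ((√(u - 1) + √(u + 1)) *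
    (√(u + 1) + √u) * (√(u - 1) + √u)) = -4 := by
  have ha : √(u - 1) * √(u - 1) = u - 1 := Real.mul_self_sqrt (by linarith)
  have hb : √u * √u = u := Real.mul_self_sqrt (by linarith)
  have hc : √(u + 1) * √(u + 1) = u + 1 := Real.mul_self_sqrt (by linarith)
  unfold th0
  set a := √(u - 1)
  set b := √u
  set c := √(u + 1)
  have e1 : (c - b) * (c + b) = 1 := by linear_combination hc - hb
  have e2 : (b - a) * (a + b) = 1 := by linear_combination hb - ha
  have e3 : (a - c) * (a + c) = -2 := by linear_combination ha - hc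
  linear_combination 2 * (a + b) * (a + c) * e1 - 2 * (c + b) * (a + c) * e2 + 2 * e3

private theorem po_pos3 {u : ℝ} (hu : 1 < u) : 8 * (√(u - 1) * √(u - 1) * √(u - 1)) ≤
    (√(u - 1) + √(u + 1)) * (√(u + 1) + √u) * (√(u - 1) + √u) ∧ 0 < √(u - 1) := by
  have h0 : 0 < √(u - 1) := Real.sqrt_pos.2 (by linarith)
  have h1 : √(u - 1) ≤ √u := Real.sqrt_le_sqrt (by linarith)
  have h2 : √(u - 1) ≤ √(u + 1) := Real.sqrt_le_sqrt (by linarith)
  refine ⟨?_, h0⟩
  calc 8 * (√(u - 1) * √(u - 1) * √(u - 1)) = (2 * √(u - 1)) * (2 * √(u - 1)) * (2 * √(u - 1)) := by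
        ring
    _ ≤ _ := by
        gcongr
        · linarith
        · linarith
        · linarith

private theorem po_th0_bd {u : ℝ} (hu : 1 < u) :
    th0 u ≤ 0 ∧ -(1 / (2 * (√(u - 1) * √(u - 1) * √(u - 1)))) ≤ th0 u := by
  obtain ⟨h1, h2⟩ := po_pos3 hu
  have h3 := po_th0_eq hu.le
  set W := (√(u - 1) + √(u + 1)) * (√(u + 1) + √u) * (√(u - 1) + √u)
  set z := √(u - 1) * √(u - 1) * √(u - 1) with hz
  have hz0 : 0 < z := by positivity
  have hW : 0 < W := by linarith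
  have h4 : th0 u = -(4 / W) := by
    field_simp
    linarith
  rw [h4]
  constructor
  · have : 0 < 4 / W := by positivity
    linarith
  · have : 4 / W ≤ 1 / (2 * z) := by
      rw [div_le_div_iff₀ hW (by positivity)]
      linarith
    linarith

private theorem po_invsqrt {u : ℝ} (hu : 1 < u) : HasDerivAt (fun u : ℝ => 1 / √(u - 1))
    (-(1 / (2 * (√(u - 1) * √(u - 1) * √(u - 1))))) u := by
  have h0 : 0 < √(u - 1) := Real.sqrt_pos.2 (by linarith)
  have h1 : HasDerivAt (fun u : ℝ => √(u - 1)) (1 / (2 * √(u - 1))) u := by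
    have := (Real.hasDerivAt_sqrt (by linarith : u - 1 ≠ 0)).comp_sub_const u 1
    exact this
  have h2 := h1.inv h0.ne'
  have h3 : (fun u : ℝ => 1 / √(u - 1)) = fun u : ℝ => (√(u - 1))⁻¹ := by
    funext x
    rw [one_div]
  rw [h3]
  refine HasDerivAt.congr_deriv (f' := -(1 / (2 * √(u - 1))) / √(u - 1) ^ 2) h2 ?_
  field_simp

/-- the decrease of `ps0` -/
private theorem po_diff {t r : ℝ} (ht : 2 ≤ t) (hr : 0 ≤ r) :
    0 ≤ ps0 t - ps0 (t + r) ∧ ps0 t - ps0 (t + r) ≤ 1 / √(t - 1) - 1 / √(t - 1 + r) := by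
  have hcont : Continuous ps0 := by
    have : Differentiable ℝ ps0 := fun u => (po_deriv u).differentiableAt
    exact this.continuous
  constructor
  · have h1 : AntitoneOn ps0 (Set.Ici 2) := by
      refine antitoneOn_of_deriv_nonpos (convex_Ici 2) hcont.continuousOn
        (fun u _ => (po_deriv u).differentiableAt.differentiableWithinAt) ?_
      intro u hu
      rw [interior_Ici, Set.mem_Ioi] at hu
      rw [(po_deriv u).deriv]
      exact (po_th0_bd (by linarith)).1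
    have := h1 (Set.mem_Ici.2 ht) (Set.mem_Ici.2 (by linarith : (2 : ℝ) ≤ t + r))
      (by linarith : t ≤ t + r)
    linarith
  · have hd : ∀ u : ℝ, 1 < u → HasDerivAt (fun u : ℝ => ps0 u - 1 / √(u - 1))
        (th0 u - -(1 / (2 * (√(u - 1) * √(u - 1) * √(u - 1))))) u := fun u hu =>
      (po_deriv u).sub (po_invsqrt hu)
    have h1 : MonotoneOn (fun u : ℝ => ps0 u - 1 / √(u - 1)) (Set.Ici 2) := by
      refine monotoneOn_of_deriv_nonneg (convex_Ici 2) ?_ ?_ ?_
      · intro u hu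
        rw [Set.mem_Ici] at hu
        exact (hd u (by linarith)).continuousAt.continuousWithinAt
      · intro u hu
        rw [interior_Ici, Set.mem_Ioi] at hu
        exact (hd u (by linarith)).differentiableAt.differentiableWithinAt
      · intro u hu
        rw [interior_Ici, Set.mem_Ioi] at hu
        rw [(hd u (by linarith)).deriv]
        have := (po_th0_bd (by linarith : 1 < u)).2
        linarith
    have h2 := h1 (Set.mem_Ici.2 ht) (Set.mem_Ici.2 (by linarith : (2 : ℝ) ≤ t + r))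
      (by linarith : t ≤ t + r)
    simp only at h2
    have h3 : t + r - 1 = t - 1 + r := by ring
    rw [h3] at h2
    linarith

/-- the size of `ps0` -/
private theorem po_size {u : ℝ} (hu : 2 ≤ u) : |ps0 u| ≤ 4 / 3 * (1 / √(u - 1)) := by
  have ha : √(u - 1) * √(u - 1) = u - 1 := Real.mul_self_sqrt (by linarith)
  have hb : √u * √u = u := Real.mul_self_sqrt (by linarith)
  have hc : √(u + 1) * √(u + 1) = u + 1 := Real.mul_self_sqrt (by linarith)
  have h0 : 0 < √(u - 1) := Real.sqrt_pos.2 (by linarith)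
  have h1 : √(u - 1) ≤ √u := Real.sqrt_le_sqrt (by linarith)
  have h2 : √u ≤ √(u + 1) := Real.sqrt_le_sqrt (by linarith)
  unfold ps0
  set a := √(u - 1)
  set b := √u
  set c := √(u + 1)
  have hb0 : 0 < b := by linarith
  have hc0 : 0 < c := by linarith
  have hP : 0 < (c + b) * (a + b) := by positivity
  have e1 : (c - b) * (c + b) = 1 := by linear_combination hc - hb
  have e2 : (b - a) * (a + b) = 1 := by linear_combination hb - ha
  have e3 : (c - a) * (a + c) = 2 := by linear_combination hc - ha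
  have hX : ((u + 1) * c - 2 * (u * b) + (u - 1) * a) * ((c + b) * (a + b)) =
      (c - a) * ((c + b) * (a + b) - b ^ 2) := by
    rw [← ha, ← hc]
    have hu' : u = b * b := hb.symm
    rw [hu']
    have f1 : c ^ 3 - b ^ 3 = (c - b) * (c ^ 2 + c * b + b ^ 2) := by ring
    have f2 : b ^ 3 - a ^ 3 = (b - a) * (b ^ 2 + a * b + a ^ 2) := by ring
    have f3 : (c * c * c - 2 * (b * b * b) + a * a * a) * ((c + b) * (a + b)) =
        (c ^ 3 - b ^ 3) * (c + b) * (a + b) - (b ^ 3 - a ^ 3) * (a + b) * (c + b) := by ring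
    rw [f3, f1, f2]
    linear_combination (c ^ 2 + c * b + b ^ 2) * (a + b) * e1 -
      (b ^ 2 + a * b + a ^ 2) * (c + b) * e2
  have hca : 0 ≤ c - a := by linarith
  have hca2 : c - a ≤ 1 / a := by
    rw [le_div_iff₀ h0]
    nlinarith
  have hb2 : 0 ≤ (c + b) * (a + b) - b ^ 2 := by nlinarith [mul_pos hc0 h0, mul_pos hc0 hb0, mul_pos hb0 h0]
  have hX0 : 0 ≤ (u + 1) * c - 2 * (u * b) + (u - 1) * a := by
    by_contra hneg
    rw [not_le] at hneg
    have := mul_neg_of_neg_of_pos hneg hP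
    rw [hX] at this
    exact absurd (mul_nonneg hca hb2) (not_le.2 this)
  have hX1 : (u + 1) * c - 2 * (u * b) + (u - 1) * a ≤ c - a := by
    by_contra hgt
    rw [not_le] at hgt
    have h3 := mul_lt_mul_of_pos_right hgt hP
    rw [hX] at h3
    have h4 : (c - a) * ((c + b) * (a + b) - b ^ 2) ≤ (c - a) * ((c + b) * (a + b)) :=
      mul_le_mul_of_nonneg_left (by nlinarith) hca
    linarith
  rw [abs_of_nonneg (by positivity)]
  linarith

private theorem po_sum_range (n : ℕ) : ∑ j ∈ range n, 1 / √((j : ℝ) + 1) ≤ 2 * √n := by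
  induction n with
  | zero => simp
  | succ n ih =>
    rw [Finset.sum_range_succ]
    push_cast
    have h1 : 0 < √((n : ℝ) + 1) := Real.sqrt_pos.2 (by positivity)
    have h2 : √(n : ℝ) * √(n : ℝ) = n := Real.mul_self_sqrt (Nat.cast_nonneg n)
    have h3 : √((n : ℝ) + 1) * √((n : ℝ) + 1) = n + 1 := Real.mul_self_sqrt (by positivity)
    have h4 : 1 / √((n : ℝ) + 1) ≤ 2 * √((n : ℝ) + 1) - 2 * √(n : ℝ) := by
      rw [div_le_iff₀ h1]
      nlinarith [sq_nonneg (√((n : ℝ) + 1) - √(n : ℝ))]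
    linarith

private theorem po_set (K : Finset ℕ) : ∑ j ∈ K, 1 / √((j : ℝ) + 1) ≤ 3 * √K.card := by
  classical
  have h1 : ∑ j ∈ K, 1 / √((j : ℝ) + 1) =
      ∑ j ∈ K.filter (fun j => j < K.card), 1 / √((j : ℝ) + 1) +
      ∑ j ∈ K.filter (fun j => ¬ j < K.card), 1 / √((j : ℝ) + 1) :=
    (Finset.sum_filter_add_sum_filter_not K _ _).symm
  have h2 : ∑ j ∈ K.filter (fun j => j < K.card), 1 / √((j : ℝ) + 1) ≤ 2 * √K.card := by
    refine le_trans ?_ (po_sum_range K.card)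
    refine Finset.sum_le_sum_of_subset_of_nonneg ?_ fun j _ _ => by positivity
    intro j hj
    exact Finset.mem_range.2 (Finset.mem_filter.1 hj).2
  have h3 : ∑ j ∈ K.filter (fun j => ¬ j < K.card), 1 / √((j : ℝ) + 1) ≤ √K.card := by
    rcases Nat.eq_zero_or_pos K.card with h0 | h0
    · have : K = ∅ := Finset.card_eq_zero.1 h0
      subst this
      simp
    have hs : 0 < √(K.card : ℝ) := Real.sqrt_pos.2 (by exact_mod_cast h0)
    have h4 : ∑ j ∈ K.filter (fun j => ¬ j < K.card), 1 / √((j : ℝ) + 1) ≤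
        ∑ _j ∈ K.filter (fun j => ¬ j < K.card), 1 / √(K.card : ℝ) := by
      refine Finset.sum_le_sum fun j hj => ?_
      have hj' := (Finset.mem_filter.1 hj).2
      rw [not_lt] at hj'
      refine one_div_le_one_div_of_le hs (Real.sqrt_le_sqrt ?_)
      have : (K.card : ℝ) ≤ j := by exact_mod_cast hj'
      linarith
    refine h4.trans ?_
    rw [Finset.sum_const, nsmul_eq_mul]
    have h5 : ((K.filter (fun j => ¬ j < K.card)).card : ℝ) ≤ K.card := by
      exact_mod_cast Finset.card_filter_le _ _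
    calc ((K.filter (fun j => ¬ j < K.card)).card : ℝ) * (1 / √(K.card : ℝ))
        ≤ K.card * (1 / √(K.card : ℝ)) := mul_le_mul_of_nonneg_right h5 (by positivity)
      _ = √(K.card : ℝ) := by
          rw [mul_one_div, div_eq_iff hs.ne']
          exact (Real.mul_self_sqrt (Nat.cast_nonneg _)).symm
  rw [h1]
  linarith

private theorem po_first (S : Finset ℤ) (u : ℝ) (h2 : ∀ c ∈ S, 2 ≤ u - (c : ℝ)) :
    ∑ c ∈ S, 1 / √(u - (c : ℝ) - 1) ≤ 3 * √S.card := by
  classical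
  have hk : ∀ c ∈ S, c ≤ ⌊u - 2⌋ := by
    intro c hc
    rw [Int.le_floor]
    linarith [h2 c hc]
  have hcast : ∀ c ∈ S, (((⌊u - 2⌋ - c).toNat : ℕ) : ℝ) = ⌊u - 2⌋ - c := by
    intro c hc
    have h1 : (((⌊u - 2⌋ - c).toNat : ℕ) : ℤ) = ⌊u - 2⌋ - c :=
      Int.toNat_of_nonneg (by linarith [hk c hc])
    have h3 : ((((⌊u - 2⌋ - c).toNat : ℕ) : ℤ) : ℝ) = ((⌊u - 2⌋ - c : ℤ) : ℝ) := by rw [h1]
    rw [Int.cast_natCast, Int.cast_sub] at h3
    exact h3
  have hinj : Set.InjOn (fun c : ℤ => (⌊u - 2⌋ - c).toNat) S := by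
    intro a ha b hb hab
    have h1 := hcast a ha
    have h3 := hcast b hb
    simp only at hab
    rw [hab, h3] at h1
    have h4 : (b : ℝ) = a := by linarith
    exact_mod_cast h4.symm
  have hfl : (⌊u - 2⌋ : ℝ) ≤ u - 2 := Int.floor_le _
  calc ∑ c ∈ S, 1 / √(u - (c : ℝ) - 1)
      ≤ ∑ c ∈ S, 1 / √((((⌊u - 2⌋ - c).toNat : ℕ) : ℝ) + 1) := by
        refine Finset.sum_le_sum fun c hc => ?_
        have h0 : (0 : ℝ) ≤ (((⌊u - 2⌋ - c).toNat : ℕ) : ℝ) := Nat.cast_nonneg _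
        refine one_div_le_one_div_of_le (Real.sqrt_pos.2 (by linarith)) (Real.sqrt_le_sqrt ?_)
        rw [hcast c hc]
        linarith
    _ = ∑ j ∈ S.image (fun c : ℤ => (⌊u - 2⌋ - c).toNat), 1 / √((j : ℝ) + 1) :=
        (Finset.sum_image (f := fun j : ℕ => 1 / √((j : ℝ) + 1)) hinj).symm
    _ ≤ 3 * √(S.image (fun c : ℤ => (⌊u - 2⌋ - c).toNat)).card := po_set _
    _ = 3 * √S.card := by rw [Finset.card_image_of_injOn hinj]

private theorem po_fl {w : ℕ} (hw : 1 ≤ w) {x : ℝ} (hx : 0 ≤ x) {j : ℕ}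
    (h : ⌊x / w⌋₊ = j) : (j : ℝ) * w ≤ x ∧ x < ((j : ℝ) + 1) * w := by
  have hw0 : (0 : ℝ) < w := by exact_mod_cast hw
  have h1 : 0 ≤ x / w := by positivity
  rw [Nat.floor_eq_iff h1] at h
  rw [le_div_iff₀ hw0, div_lt_iff₀ hw0] at h
  exact h

private theorem po_card {V : Finset ℤ} {w N : ℕ} (hw : 1 ≤ w) (hs : Sparse V w N) {S : Finset ℤ}
    (hS : S ⊆ V) {u : ℝ} (h2 : ∀ c ∈ S, 2 ≤ u - (c : ℝ)) (j : ℕ) :
    (S.filter (fun c : ℤ => ⌊(u - (c : ℝ) - 2) / w⌋₊ = j)).card ≤ N := by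
  refine le_trans (Finset.card_le_card ?_) (hs (⌊u - 2 - (j : ℝ) * w⌋ - w + 1))
  intro c hc
  obtain ⟨hc1, hc2⟩ := Finset.mem_filter.1 hc
  obtain ⟨h3, h4⟩ := po_fl hw (by linarith [h2 c hc1]) hc2
  refine Finset.mem_filter.2 ⟨hS hc1, ?_, ?_⟩
  · have h5 : (⌊u - 2 - (j : ℝ) * w⌋ : ℝ) ≤ u - 2 - (j : ℝ) * w := Int.floor_le _
    have h6 : ((⌊u - 2 - (j : ℝ) * w⌋ - w : ℤ) : ℝ) < (c : ℝ) := by
      push_cast
      linarith
    have h7 : ⌊u - 2 - (j : ℝ) * w⌋ - w < c := by exact_mod_cast h6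
    omega
  · have h5 : c ≤ ⌊u - 2 - (j : ℝ) * w⌋ := by
      rw [Int.le_floor]
      linarith
    omega

private theorem po_window {V : Finset ℤ} {w N : ℕ} (hw : 1 ≤ w) (hs : Sparse V w N)
    {S : Finset ℤ} (hS : S ⊆ V) {u R B : ℝ} (h2 : ∀ c ∈ S, 2 ≤ u - (c : ℝ)) (hR0 : 0 ≤ R)
    (hR : ∀ c ∈ S, u - (c : ℝ) - 2 ≤ R) (f : ℝ → ℝ) (hf0 : ∀ x, 0 < x → 0 ≤ f x)
    (hfa : ∀ x y, 0 < x → x ≤ y → f y ≤ f x) (hfp : ∀ x, 1 ≤ x → f x ≤ 1 / √x)
    (hB : ∀ J : ℕ, (J : ℝ) * w ≤ R → ∑ j ∈ range J, f (((j : ℝ) + 1) * w) ≤ B) :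
    ∑ c ∈ S, f (u - (c : ℝ) - 1) ≤ 3 * √N + N * B := by
  classical
  have hw0 : (0 : ℝ) < w := by exact_mod_cast hw
  obtain ⟨J, hJ⟩ : ∃ J : ℕ, J = ⌊R / w⌋₊ := ⟨_, rfl⟩
  have hJR : (J : ℝ) * w ≤ R := (po_fl hw hR0 hJ.symm).1
  have hmaps : ∀ c ∈ S, ⌊(u - (c : ℝ) - 2) / w⌋₊ ∈ range (J + 1) := by
    intro c hc
    rw [Finset.mem_range, Nat.lt_succ_iff, hJ]
    exact Nat.floor_le_floor (div_le_div_of_nonneg_right (hR c hc) hw0.le)
  have h1 := Finset.sum_fiberwise_of_maps_to hmaps (fun c : ℤ => f (u - (c : ℝ) - 1))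
  rw [← h1, Finset.sum_range_succ', add_comm]
  refine add_le_add ?_ ?_
  · refine le_trans (Finset.sum_le_sum (g := fun c : ℤ => 1 / √(u - (c : ℝ) - 1))
      fun c hc => hfp _ ?_) ?_
    · have := h2 c (Finset.mem_filter.1 hc).1
      linarith
    · refine (po_first _ u fun c hc => h2 c (Finset.mem_filter.1 hc).1).trans ?_
      refine mul_le_mul_of_nonneg_left (Real.sqrt_le_sqrt ?_) (by norm_num)
      exact_mod_cast po_card hw hs hS h2 0
  · calc ∑ j ∈ range J, ∑ c ∈ S.filter (fun c : ℤ => ⌊(u - (c : ℝ) - 2) / w⌋₊ = j + 1),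
          f (u - (c : ℝ) - 1) ≤ ∑ j ∈ range J, N * f (((j : ℝ) + 1) * w) := by
          refine Finset.sum_le_sum fun j _ => ?_
          have hpos : 0 < ((j : ℝ) + 1) * w := by positivity
          calc ∑ c ∈ S.filter (fun c : ℤ => ⌊(u - (c : ℝ) - 2) / w⌋₊ = j + 1),
                f (u - (c : ℝ) - 1) ≤
                ∑ _c ∈ S.filter (fun c : ℤ => ⌊(u - (c : ℝ) - 2) / w⌋₊ = j + 1),
                f (((j : ℝ) + 1) * w) := by
                refine Finset.sum_le_sum fun c hc => hfa _ _ hpos ?_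
                obtain ⟨hc1, hc2⟩ := Finset.mem_filter.1 hc
                have h3 := (po_fl hw (by linarith [h2 c hc1]) hc2).1
                push_cast at h3
                linarith
            _ ≤ N * f (((j : ℝ) + 1) * w) := by
                rw [Finset.sum_const, nsmul_eq_mul]
                refine mul_le_mul_of_nonneg_right ?_ (hf0 _ hpos)
                exact_mod_cast po_card hw hs hS h2 (j + 1)
      _ = N * ∑ j ∈ range J, f (((j : ℝ) + 1) * w) := by rw [Finset.mul_sum]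
      _ ≤ N * B := mul_le_mul_of_nonneg_left (hB J hJR) (Nat.cast_nonneg _)

/-- `∑ (j w)^(-1/2)` -/
private theorem po_pot1 {w : ℕ} (hw : 1 ≤ w) (J : ℕ) :
    ∑ j ∈ range J, 1 / √(((j : ℝ) + 1) * w) ≤ 2 * √((J : ℝ) * w) / w := by
  have hw0 : (0 : ℝ) < w := by exact_mod_cast hw
  induction J with
  | zero => simp
  | succ n ih =>
    rw [Finset.sum_range_succ]
    push_cast
    have h1 : 0 < √(((n : ℝ) + 1) * w) := Real.sqrt_pos.2 (by positivity)
    have h2 : √((n : ℝ) * w) * √((n : ℝ) * w) = n * w := Real.mul_self_sqrt (by positivity)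
    have h3 : √(((n : ℝ) + 1) * w) * √(((n : ℝ) + 1) * w) = (n + 1) * w :=
      Real.mul_self_sqrt (by positivity)
    set A := √(((n : ℝ) + 1) * w)
    set A' := √((n : ℝ) * w)
    have h4 : 1 / A ≤ 2 * A / w - 2 * A' / w := by
      rw [← sub_div, div_le_div_iff₀ h1 hw0]
      nlinarith [sq_nonneg (A - A')]
    linarith

private theorem po_pot2 {w : ℕ} (hw : 1 ≤ w) {r : ℝ} (hr : 0 ≤ r) (J : ℕ) :
    ∑ j ∈ range J, (1 / √(((j : ℝ) + 1) * w) - 1 / √(((j : ℝ) + 1) * w + r)) ≤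
      2 * √r / w - 2 * (√((J : ℝ) * w + r) - √((J : ℝ) * w)) / w := by
  have hw0 : (0 : ℝ) < w := by exact_mod_cast hw
  induction J with
  | zero => simp
  | succ n ih =>
    rw [Finset.sum_range_succ]
    push_cast
    have p0 : (0 : ℝ) ≤ (n : ℝ) * w := by positivity
    have p1 : 0 < √(((n : ℝ) + 1) * w) := Real.sqrt_pos.2 (by positivity)
    have p2 : 0 ≤ √((n : ℝ) * w) := Real.sqrt_nonneg _
    have h2 : √((n : ℝ) * w) * √((n : ℝ) * w) = n * w := Real.mul_self_sqrt p0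
    have h3 : √(((n : ℝ) + 1) * w) * √(((n : ℝ) + 1) * w) = (n + 1) * w :=
      Real.mul_self_sqrt (by positivity)
    have h4 : √((n : ℝ) * w + r) * √((n : ℝ) * w + r) = n * w + r :=
      Real.mul_self_sqrt (by positivity)
    have h5 : √(((n : ℝ) + 1) * w + r) * √(((n : ℝ) + 1) * w + r) = (n + 1) * w + r :=
      Real.mul_self_sqrt (by positivity)
    have m1 : √(((n : ℝ) + 1) * w) ≤ √(((n : ℝ) + 1) * w + r) :=
      Real.sqrt_le_sqrt (by linarith)
    have m2 : √((n : ℝ) * w) ≤ √((n : ℝ) * w + r) := Real.sqrt_le_sqrt (by linarith)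
    have m3 : √((n : ℝ) * w) ≤ √(((n : ℝ) + 1) * w) := Real.sqrt_le_sqrt (by linarith)
    set A := √(((n : ℝ) + 1) * w)
    set A' := √((n : ℝ) * w)
    set E := √(((n : ℝ) + 1) * w + r)
    set E' := √((n : ℝ) * w + r)
    have hE : 0 < E := by linarith
    have hE' : 0 ≤ E' := by linarith
    -- A - A' = w/(A+A'), E - E' = w/(E+E')
    have q1 : (A - A') * (A + A') = w := by linear_combination h3 - h2
    have q2 : (E - E') * (E + E') = w := by linear_combination h5 - h4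
    have q3 : A - A' = w / (A + A') := by
      rw [eq_div_iff (by positivity)]
      exact q1
    have q4 : E - E' = w / (E + E') := by
      rw [eq_div_iff (by positivity)]
      exact q2
    have q5 : E - E' ≤ A - A' := by
      rw [q3, q4]
      exact div_le_div_of_nonneg_left hw0.le (by positivity) (by linarith)
    -- 2/(A+A') - 1/A = (A-A')/(A(A+A'))
    have q6 : 2 * (A - A') / w - 1 / A = (A - A') / (A * (A + A')) := by
      rw [q3]
      field_simp
      have : (w : ℝ) = (A - A') * (A + A') := q1.symm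
      nlinarith [q1]
    have q7 : 2 * (E - E') / w - 1 / E = (E - E') / (E * (E + E')) := by
      rw [q4]
      field_simp
      nlinarith [q2]
    have q8 : (E - E') / (E * (E + E')) ≤ (A - A') / (A * (A + A')) := by
      have z0 : 0 ≤ E - E' := by rw [q4]; positivity
      refine div_le_div₀ (by linarith) q5 (by positivity) ?_
      exact mul_le_mul m1 (by linarith) (by positivity) hE.le
    have q9 : 1 / A - 1 / E ≤ 2 * (A - A') / w - 2 * (E - E') / w := by linarith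
    have q10 : 2 * (E - A) / w = 2 * (E' - A') / w - (2 * (A - A') / w - 2 * (E - E') / w) := by
      ring
    rw [q10]
    linarith

private theorem po_near (S : Finset ℤ) (x : ℝ) (h : ∀ c ∈ S, x - (c : ℝ) < 2) :
    ∑ c ∈ S, |ps0 (x - c)| ≤ 18 := by
  classical
  have h1 : ∑ c ∈ S, |ps0 (x - c)| = ∑ c ∈ S.filter (fun c : ℤ => -1 < x - (c : ℝ)), |ps0 (x - c)| := by
    symm
    refine Finset.sum_subset (Finset.filter_subset _ _) fun c hc hc' => ?_
    rw [po_zero, abs_zero]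
    by_contra hcon
    exact hc' (Finset.mem_filter.2 ⟨hc, not_le.1 hcon⟩)
  have h2 : (S.filter (fun c : ℤ => -1 < x - (c : ℝ))).card ≤ 3 := by
    have h3 : S.filter (fun c : ℤ => -1 < x - (c : ℝ)) ⊆ Finset.Icc (⌊x⌋ - 1) (⌊x⌋ + 1) := by
      intro c hc
      obtain ⟨hc1, hc2⟩ := Finset.mem_filter.1 hc
      have hc3 := h c hc1
      have f1 : (⌊x⌋ : ℝ) ≤ x := Int.floor_le x
      have f2 : x < ⌊x⌋ + 1 := Int.lt_floor_add_one x
      rw [Finset.mem_Icc]
      constructor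
      · have h4 : ((⌊x⌋ - 2 : ℤ) : ℝ) < (c : ℝ) := by push_cast; linarith
        have h5 : ⌊x⌋ - 2 < c := by exact_mod_cast h4
        omega
      · have h4 : (c : ℝ) < ((⌊x⌋ + 2 : ℤ) : ℝ) := by push_cast; linarith
        have h5 : c < ⌊x⌋ + 2 := by exact_mod_cast h4
        omega
    refine (Finset.card_le_card h3).trans ?_
    rw [Int.card_Icc]
    omega
  rw [h1]
  calc ∑ c ∈ S.filter (fun c : ℤ => -1 < x - (c : ℝ)), |ps0 (x - c)|
      ≤ ∑ _c ∈ S.filter (fun c : ℤ => -1 < x - (c : ℝ)), (6 : ℝ) :=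
        Finset.sum_le_sum fun c hc => po_six (h c (Finset.mem_filter.1 hc).1).le
    _ = ((S.filter (fun c : ℤ => -1 < x - (c : ℝ))).card : ℝ) * 6 := by
        rw [Finset.sum_const, nsmul_eq_mul]
    _ ≤ 3 * 6 := mul_le_mul_of_nonneg_right (by exact_mod_cast h2) (by norm_num)
    _ = 18 := by norm_num

private theorem po_main (V : Finset ℤ) {w N : ℕ} (hw : 1 ≤ w) (hs : Sparse V w N) {v v' : ℝ}
    (hv : v ≤ v') : |Ps V v - Ps V v'| ≤ 40 * (1 + √N + N / w * √(v' - v)) := by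
  classical
  have hw0 : (0 : ℝ) < w := by exact_mod_cast hw
  obtain ⟨r, hr⟩ : ∃ r : ℝ, r = v' - v := ⟨_, rfl⟩
  have hr0 : 0 ≤ r := by linarith
  rw [← hr]
  have e0 : Ps V v - Ps V v' = ∑ c ∈ V, (ps0 (v - c) - ps0 (v' - c)) := by
    unfold Ps
    rw [Finset.sum_sub_distrib]
  have e1 : |Ps V v - Ps V v'| ≤ ∑ c ∈ V, |ps0 (v - c) - ps0 (v' - c)| := by
    rw [e0]
    exact Finset.abs_sum_le_sum_abs _ _
  have e2 : ∑ c ∈ V, |ps0 (v - c) - ps0 (v' - c)| =
      ∑ c ∈ V.filter (fun c : ℤ => 2 ≤ v - (c : ℝ)), |ps0 (v - c) - ps0 (v' - c)| +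
      ∑ c ∈ V.filter (fun c : ℤ => ¬ 2 ≤ v - (c : ℝ)), |ps0 (v - c) - ps0 (v' - c)| :=
    (Finset.sum_filter_add_sum_filter_not V _ _).symm
  -- far points
  have e3 : ∑ c ∈ V.filter (fun c : ℤ => 2 ≤ v - (c : ℝ)), |ps0 (v - c) - ps0 (v' - c)| ≤
      3 * √N + N * (2 * √r / w) := by
    have h1 : ∑ c ∈ V.filter (fun c : ℤ => 2 ≤ v - (c : ℝ)), |ps0 (v - c) - ps0 (v' - c)| ≤
        ∑ c ∈ V.filter (fun c : ℤ => 2 ≤ v - (c : ℝ)),
          (fun x : ℝ => 1 / √x - 1 / √(x + r)) (v - (c : ℝ) - 1) := by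
      refine Finset.sum_le_sum fun c hc => ?_
      have h2 := (Finset.mem_filter.1 hc).2
      obtain ⟨h3, h4⟩ := po_diff h2 hr0
      have h5 : v' - (c : ℝ) = v - c + r := by rw [hr]; ring
      rw [h5, abs_of_nonneg h3]
      exact h4
    refine h1.trans ?_
    obtain ⟨R, hR0, hR⟩ : ∃ R : ℝ, 0 ≤ R ∧
        ∀ c ∈ V.filter (fun c : ℤ => 2 ≤ v - (c : ℝ)), v - (c : ℝ) - 2 ≤ R := by
      refine ⟨∑ c ∈ V.filter (fun c : ℤ => 2 ≤ v - (c : ℝ)), (v - (c : ℝ) - 2), ?_, ?_⟩
      · refine Finset.sum_nonneg fun c hc => ?_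
        have := (Finset.mem_filter.1 hc).2
        linarith
      · intro c hc
        refine Finset.single_le_sum (f := fun c : ℤ => v - (c : ℝ) - 2) (fun d hd => ?_) hc
        have := (Finset.mem_filter.1 hd).2
        linarith
    refine po_window (B := 2 * √r / w) (f := fun x : ℝ => 1 / √x - 1 / √(x + r)) hw hs
      (Finset.filter_subset _ _) (fun c hc => (Finset.mem_filter.1 hc).2) hR0 hR ?_ ?_ ?_ ?_
    · intro x hx
      have : 1 / √(x + r) ≤ 1 / √x :=
        one_div_le_one_div_of_le (Real.sqrt_pos.2 hx) (Real.sqrt_le_sqrt (by linarith))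
      linarith
    · intro x y hx hxy
      have p1 : 0 < √x := Real.sqrt_pos.2 hx
      have m1 : √x ≤ √y := Real.sqrt_le_sqrt hxy
      have m2 : √x ≤ √(x + r) := Real.sqrt_le_sqrt (by linarith)
      have m3 : √y ≤ √(y + r) := Real.sqrt_le_sqrt (by linarith)
      have m4 : √(x + r) ≤ √(y + r) := Real.sqrt_le_sqrt (by linarith)
      have s1 : √x * √x = x := Real.mul_self_sqrt hx.le
      have s2 : √y * √y = y := Real.mul_self_sqrt (by linarith)
      have s3 : √(x + r) * √(x + r) = x + r := Real.mul_self_sqrt (by linarith)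
      have s4 : √(y + r) * √(y + r) = y + r := Real.mul_self_sqrt (by linarith)
      set a := √x
      set b := √y
      set a' := √(x + r)
      set b' := √(y + r)
      have k1 : 1 / a - 1 / a' = r / (a * a' * (a + a')) := by
        have hr' : r = (a' - a) * (a + a') := by linear_combination s1 - s3
        have ha' : 0 < a' := by linarith
        rw [div_sub_div _ _ p1.ne' ha'.ne', div_eq_div_iff (by positivity) (by positivity)]
        linear_combination -(a * a') * hr'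
      have k2 : 1 / b - 1 / b' = r / (b * b' * (b + b')) := by
        have hr' : r = (b' - b) * (b + b') := by linear_combination s2 - s4
        have hb : 0 < b := by linarith
        have hb' : 0 < b' := by linarith
        rw [div_sub_div _ _ hb.ne' hb'.ne', div_eq_div_iff (by positivity) (by positivity)]
        linear_combination -(b * b') * hr'
      show 1 / b - 1 / b' ≤ 1 / a - 1 / a'
      rw [k1, k2]
      have ha' : 0 < a' := by linarith
      refine div_le_div_of_nonneg_left hr0 (by positivity) ?_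
      gcongr
    · intro x hx
      have : 0 ≤ 1 / √(x + r) := by positivity
      linarith
    · intro J _
      refine (po_pot2 hw hr0 J).trans ?_
      have h6 : √((J : ℝ) * w) ≤ √((J : ℝ) * w + r) := Real.sqrt_le_sqrt (by linarith)
      have h7 : 0 ≤ 2 * (√((J : ℝ) * w + r) - √((J : ℝ) * w)) / w :=
        div_nonneg (by linarith) hw0.le
      linarith
  -- near points
  have e4 : ∑ c ∈ V.filter (fun c : ℤ => ¬ 2 ≤ v - (c : ℝ)), |ps0 (v - c) - ps0 (v' - c)| ≤
      ∑ c ∈ V.filter (fun c : ℤ => ¬ 2 ≤ v - (c : ℝ)), |ps0 (v - c)| +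
      ∑ c ∈ V.filter (fun c : ℤ => ¬ 2 ≤ v - (c : ℝ)), |ps0 (v' - c)| := by
    rw [← Finset.sum_add_distrib]
    exact Finset.sum_le_sum fun c _ => abs_sub _ _
  have e5 : ∑ c ∈ V.filter (fun c : ℤ => ¬ 2 ≤ v - (c : ℝ)), |ps0 (v - c)| ≤ 18 :=
    po_near _ v fun c hc => not_le.1 (Finset.mem_filter.1 hc).2
  have e6 : ∑ c ∈ V.filter (fun c : ℤ => ¬ 2 ≤ v - (c : ℝ)), |ps0 (v' - c)| ≤
      18 + 4 / 3 * (3 * √N + N * (2 * √r / w)) := by
    rw [← Finset.sum_filter_add_sum_filter_not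
      (V.filter (fun c : ℤ => ¬ 2 ≤ v - (c : ℝ))) (fun c : ℤ => ¬ 2 ≤ v' - (c : ℝ))]
    refine add_le_add (po_near _ v' fun c hc => not_le.1 (Finset.mem_filter.1 hc).2) ?_
    have g1 : ∀ c ∈ (V.filter (fun c : ℤ => ¬ 2 ≤ v - (c : ℝ))).filter
        (fun c : ℤ => ¬ ¬ 2 ≤ v' - (c : ℝ)), 2 ≤ v' - (c : ℝ) := fun c hc =>
      not_not.1 (Finset.mem_filter.1 hc).2
    have g2 : ∑ c ∈ (V.filter (fun c : ℤ => ¬ 2 ≤ v - (c : ℝ))).filter
        (fun c : ℤ => ¬ ¬ 2 ≤ v' - (c : ℝ)), |ps0 (v' - c)| ≤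
        ∑ c ∈ (V.filter (fun c : ℤ => ¬ 2 ≤ v - (c : ℝ))).filter
        (fun c : ℤ => ¬ ¬ 2 ≤ v' - (c : ℝ)), 4 / 3 * (1 / √(v' - (c : ℝ) - 1)) :=
      Finset.sum_le_sum fun c hc => po_size (g1 c hc)
    refine g2.trans ?_
    rw [← Finset.mul_sum]
    refine mul_le_mul_of_nonneg_left ?_ (by norm_num)
    refine po_window (f := fun x : ℝ => 1 / √x) (R := r) hw hs
      ((Finset.filter_subset _ _).trans (Finset.filter_subset _ _)) g1 hr0 ?_ ?_ ?_ ?_ ?_
    · intro c hc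
      have h1 := not_le.1 (Finset.mem_filter.1 (Finset.mem_filter.1 hc).1).2
      linarith
    · intro x _
      positivity
    · intro x y hx hxy
      exact one_div_le_one_div_of_le (Real.sqrt_pos.2 hx) (Real.sqrt_le_sqrt hxy)
    · intro x _
      exact le_rfl
    · intro J hJ
      refine (po_pot1 hw J).trans ?_
      refine div_le_div_of_nonneg_right ?_ hw0.le
      exact mul_le_mul_of_nonneg_left (Real.sqrt_le_sqrt hJ) (by norm_num)
  have e7 : N * (2 * √r / w) = 2 * (N / w * √r) := by ring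
  have e8 : (0 : ℝ) ≤ N / w * √r := by positivity
  have e9 : (0 : ℝ) ≤ √N := Real.sqrt_nonneg _
  rw [e7] at e3 e6
  linarith

theorem Ps_osc (V : Finset ℤ) {w N : ℕ} (hw : 1 ≤ w) (hs : Sparse V w N) (v v' : ℝ) :
    |Ps V v - Ps V v'| ≤ 40 * (1 + √N + N / w * √|v - v'|) := by
  rcases le_total v v' with h | h
  · rw [abs_sub_comm v v', abs_of_nonneg (by linarith : 0 ≤ v' - v)]
    exact po_main V hw hs h
  · rw [abs_of_nonneg (by linarith : 0 ≤ v - v'), abs_sub_comm]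
    exact po_main V hw hs h

end Pool.Agent.Lib.HBP
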