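import Mathlib
import Pool.Agent.Lib.HBP.PsOsc

/-!
MODULE FastPath: the sum of `Th` along a path of speed bounded below is small.

PROOF.  `ε = ± 1`.  With `τ l = 1/s l`:
`δ Th(w l) = ε τ l (w (l+1) - w l - ν l) Th (w l) = ε τ l (Ps (w (l+1)) - Ps (w l) - e l - ν l Th (w l))`,
`|e l| ≤ |Δw| min 4 (4√|Δw|)` (`Ps_taylor`).  If `|ν l| ≤ s l δ` then `|Δw| ≤ 2 s l δ` and
`|e l| ≤ 2 s δ · 4 √(2 s δ) ≤ 12 (s l δ) √(s l δ)`; otherwise `|Δw| ≤ 2|ν l|`, `|e l| ≤ 8 |ν l|`.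
So `τ l |e l| ≤ 12 δ √(s1 δ) + (8/s0)|ν l|`, `τ l |ν l Th| ≤ (2/s0)|ν l|`.
Abel summation with `Q l = Ps (w l) - Ps (w 0)` and the monotone sequence `τ ∈ [0, 1/s0]`:
`|∑ τ l (Q (l+1) - Q l)| ≤ (1/s0) Os + |τ (m-1) - τ 0| Os ≤ 2 Os/s0`.
-/

namespace Pool.Agent.Lib.HBP

open Finset

private theorem FastPath_abel (τ Q : ℕ → ℝ) (hQ : Q 0 = 0) (m : ℕ) :
    ∑ l ∈ range (m + 1), τ l * (Q (l + 1) - Q l) =
      τ m * Q (m + 1) - ∑ l ∈ range m, (τ (l + 1) - τ l) * Q (l + 1) := by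
  induction m with
  | zero => simp [hQ]
  | succ m ih =>
    rw [sum_range_succ, ih, sum_range_succ (fun l => (τ (l + 1) - τ l) * Q (l + 1)) m]
    ring

private theorem FastPath_abel_le {s0 Os : ℝ} (hs0 : 0 < s0) (m : ℕ) (s Q : ℕ → ℝ)
    (hs : ∀ l < m, s0 ≤ s l)
    (hmon : (∀ l l', l ≤ l' → l' < m → s l ≤ s l') ∨ (∀ l l', l ≤ l' → l' < m → s l' ≤ s l))
    (hQ : Q 0 = 0) (hO : ∀ l ≤ m, |Q l| ≤ Os) :
    |∑ l ∈ range m, 1 / s l * (Q (l + 1) - Q l)| ≤ 2 * (1 / s0 * Os) := by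
  have hOs : 0 ≤ Os := le_trans (abs_nonneg _) (hO 0 (Nat.zero_le _))
  rcases m with _ | m
  · simp only [range_zero, sum_empty, abs_zero]
    positivity
  rw [FastPath_abel (fun l => 1 / s l) Q hQ m]
  have hpos : ∀ l < m + 1, 0 < s l := fun l hl => lt_of_lt_of_le hs0 (hs l hl)
  have hτ : ∀ l < m + 1, 0 ≤ 1 / s l ∧ 1 / s l ≤ 1 / s0 := by
    intro l hl
    exact ⟨le_of_lt (one_div_pos.2 (hpos l hl)), one_div_le_one_div_of_le hs0 (hs l hl)⟩
  have h1 : |1 / s m * Q (m + 1)| ≤ 1 / s m * Os := by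
    rw [abs_mul, abs_of_nonneg (hτ m (Nat.lt_succ_self m)).1]
    exact mul_le_mul_of_nonneg_left (hO (m + 1) le_rfl) (hτ m (Nat.lt_succ_self m)).1
  have h2 : |∑ l ∈ range m, (1 / s (l + 1) - 1 / s l) * Q (l + 1)| ≤
      (∑ l ∈ range m, |1 / s (l + 1) - 1 / s l|) * Os := by
    rw [sum_mul]
    refine le_trans (abs_sum_le_sum_abs _ _) (sum_le_sum fun l hl => ?_)
    rw [abs_mul]
    exact mul_le_mul_of_nonneg_left (hO (l + 1) (by have := mem_range.1 hl; omega)) (abs_nonneg _)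
  have h3 : ∑ l ∈ range m, |1 / s (l + 1) - 1 / s l| = |1 / s m - 1 / s 0| := by
    rcases hmon with hm | hm
    · have h4 : ∀ l ∈ range m, |1 / s (l + 1) - 1 / s l| = 1 / s l - 1 / s (l + 1) := by
        intro l hl
        have hl' := mem_range.1 hl
        have h5 : 1 / s (l + 1) ≤ 1 / s l :=
          one_div_le_one_div_of_le (hpos l (by omega)) (hm l (l + 1) (by omega) (by omega))
        rw [abs_of_nonpos (by linarith)]
        ring
      rw [sum_congr rfl h4, sum_range_sub' (fun l => 1 / s l) m]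
      have h6 : 1 / s m ≤ 1 / s 0 :=
        one_div_le_one_div_of_le (hpos 0 (by omega)) (hm 0 m (by omega) (by omega))
      rw [abs_of_nonpos (by linarith)]
      ring
    · have h4 : ∀ l ∈ range m, |1 / s (l + 1) - 1 / s l| = 1 / s (l + 1) - 1 / s l := by
        intro l hl
        have hl' := mem_range.1 hl
        have h5 : 1 / s l ≤ 1 / s (l + 1) :=
          one_div_le_one_div_of_le (hpos (l + 1) (by omega)) (hm l (l + 1) (by omega) (by omega))
        rw [abs_of_nonneg (by linarith)]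
      rw [sum_congr rfl h4, sum_range_sub (fun l => 1 / s l) m]
      have h6 : 1 / s 0 ≤ 1 / s m :=
        one_div_le_one_div_of_le (hpos m (by omega)) (hm 0 m (by omega) (by omega))
      rw [abs_of_nonneg (by linarith)]
  have h7 : |1 / s m - 1 / s 0| ≤ 1 / s0 := by
    obtain ⟨ha, hb⟩ := hτ m (Nat.lt_succ_self m)
    obtain ⟨hc, hd⟩ := hτ 0 (Nat.succ_pos m)
    rw [abs_le]
    constructor <;> linarith
  calc |1 / s m * Q (m + 1) - ∑ l ∈ range m, (1 / s (l + 1) - 1 / s l) * Q (l + 1)|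
      ≤ |1 / s m * Q (m + 1)| + |∑ l ∈ range m, (1 / s (l + 1) - 1 / s l) * Q (l + 1)| :=
        abs_sub _ _
    _ ≤ 1 / s m * Os + |1 / s m - 1 / s 0| * Os := by
        rw [h3] at h2
        exact add_le_add h1 h2
    _ ≤ 1 / s0 * Os + 1 / s0 * Os :=
        add_le_add (mul_le_mul_of_nonneg_right (hτ m (Nat.lt_succ_self m)).2 hOs)
          (mul_le_mul_of_nonneg_right h7 hOs)
    _ = 2 * (1 / s0 * Os) := by ring

private theorem FastPath_term {δ s0 s1 ε w w' ν s : ℝ} (hδ : 0 < δ) (hs0 : 0 < s0)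
    (hε : ε = 1 ∨ ε = -1) (V : Finset ℤ) (h0 : s0 ≤ s) (h1 : s ≤ s1)
    (hw : w' = w + ε * s * δ + ν) :
    |δ * Th V w - ε * (1 / s * (Ps V w' - Ps V w))| ≤
      δ * (12 * √(s1 * δ)) + 1 / s0 * (10 * |ν|) := by
  have hs : 0 < s := lt_of_lt_of_le hs0 h0
  have hεε : ε * ε = 1 := by rcases hε with h | h <;> rw [h] <;> norm_num
  have hεa : |ε| = 1 := by rcases hε with h | h <;> rw [h] <;> norm_num
  have hT := Ps_taylor V w w'
  have hB := abs_Th_le V w
  obtain ⟨e, he⟩ : ∃ e, e = Ps V w' - Ps V w - (w' - w) * Th V w := ⟨_, rfl⟩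
  rw [← he] at hT
  have hkey : δ * Th V w - ε * (1 / s * (Ps V w' - Ps V w)) =
      -(ε * (1 / s * e)) - ε * (1 / s * (ν * Th V w)) := by
    have h2 : Ps V w' - Ps V w = e + (w' - w) * Th V w := by rw [he]; ring
    have h3 : w' - w = ε * s * δ + ν := by rw [hw]; ring
    rw [h2, h3]
    have h4 : 1 / s * (ε * s * δ + ν) = ε * δ + 1 / s * ν := by
      field_simp
    calc δ * Th V w - ε * (1 / s * (e + (ε * s * δ + ν) * Th V w))
        = δ * Th V w - ε * (1 / s * e) - ε * (1 / s * (ε * s * δ + ν)) * Th V w := by ring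
      _ = δ * Th V w - ε * (1 / s * e) - ε * (ε * δ + 1 / s * ν) * Th V w := by rw [h4]
      _ = (1 - ε * ε) * (δ * Th V w) - ε * (1 / s * e) - ε * (1 / s * (ν * Th V w)) := by ring
      _ = _ := by rw [hεε]; ring
  have hτ0 : 0 ≤ 1 / s := le_of_lt (one_div_pos.2 hs)
  have hτ1 : 1 / s ≤ 1 / s0 := one_div_le_one_div_of_le hs0 h0
  have hE : 1 / s * |e| ≤ δ * (12 * √(s1 * δ)) + 1 / s0 * (8 * |ν|) := by
    have hd : |w' - w| ≤ s * δ + |ν| := by
      have h3 : w' - w = ε * (s * δ) + ν := by rw [hw]; ring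
      rw [h3]
      refine le_trans (abs_add_le _ _) ?_
      rw [abs_mul, hεa, one_mul, abs_of_pos (mul_pos hs hδ)]
    have hν0 : 0 ≤ |ν| := abs_nonneg _
    rcases le_total |ν| (s * δ) with hc | hc
    · have h5 : |w' - w| ≤ 2 * (s * δ) := by linarith
      have h6 : |e| ≤ 2 * (s * δ) * (4 * √(2 * (s * δ))) := by
        refine le_trans hT ?_
        refine mul_le_mul h5 ?_ ?_ (by positivity)
        · refine le_trans (min_le_right _ _) ?_
          exact mul_le_mul_of_nonneg_left (Real.sqrt_le_sqrt h5) (by norm_num)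
        · exact le_min (by norm_num) (by positivity)
      have h7 : √(2 * (s * δ)) = √2 * √(s * δ) := Real.sqrt_mul (by norm_num) _
      have h8 : √2 ≤ 3 / 2 := by
        rw [show (3 / 2 : ℝ) = √((3 / 2) ^ 2) by
          rw [Real.sqrt_sq (by norm_num)]]
        exact Real.sqrt_le_sqrt (by norm_num)
      have h9 : √(s * δ) ≤ √(s1 * δ) :=
        Real.sqrt_le_sqrt (mul_le_mul_of_nonneg_right h1 hδ.le)
      have h10 : |e| ≤ s * (δ * (12 * √(s1 * δ))) := by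
        refine le_trans h6 ?_
        rw [h7]
        have h11 : √2 * √(s * δ) ≤ 3 / 2 * √(s1 * δ) :=
          mul_le_mul h8 h9 (Real.sqrt_nonneg _) (by norm_num)
        have h12 : 0 ≤ s * δ := (mul_pos hs hδ).le
        calc 2 * (s * δ) * (4 * (√2 * √(s * δ))) = 8 * (s * δ) * (√2 * √(s * δ)) := by ring
          _ ≤ 8 * (s * δ) * (3 / 2 * √(s1 * δ)) :=
              mul_le_mul_of_nonneg_left h11 (by positivity)
          _ = s * (δ * (12 * √(s1 * δ))) := by ring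
      have h13 : 1 / s * |e| ≤ δ * (12 * √(s1 * δ)) := by
        calc 1 / s * |e| ≤ 1 / s * (s * (δ * (12 * √(s1 * δ)))) :=
              mul_le_mul_of_nonneg_left h10 hτ0
          _ = δ * (12 * √(s1 * δ)) := by
              rw [← mul_assoc, one_div_mul_cancel hs.ne', one_mul]
      have h14 : 0 ≤ 1 / s0 * (8 * |ν|) := by positivity
      linarith
    · have h5 : |w' - w| ≤ 2 * |ν| := by linarith
      have h6 : |e| ≤ 8 * |ν| := by
        refine le_trans hT ?_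
        calc |w' - w| * min 4 (4 * √|w' - w|) ≤ 2 * |ν| * 4 :=
              mul_le_mul h5 (min_le_left _ _)
                (le_min (by norm_num) (by positivity)) (by positivity)
          _ = 8 * |ν| := by ring
      have h7 : 1 / s * |e| ≤ 1 / s0 * (8 * |ν|) :=
        mul_le_mul hτ1 h6 (abs_nonneg _) (by positivity)
      have h8 : 0 ≤ δ * (12 * √(s1 * δ)) := by positivity
      linarith
  have hN : 1 / s * (|ν| * |Th V w|) ≤ 1 / s0 * (2 * |ν|) := by
    refine mul_le_mul hτ1 ?_ (by positivity) (by positivity)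
    have := mul_le_mul_of_nonneg_left hB (abs_nonneg ν)
    linarith
  rw [hkey]
  calc |-(ε * (1 / s * e)) - ε * (1 / s * (ν * Th V w))|
      ≤ |-(ε * (1 / s * e))| + |ε * (1 / s * (ν * Th V w))| := abs_sub _ _
    _ = 1 / s * |e| + 1 / s * (|ν| * |Th V w|) := by
        rw [abs_neg, abs_mul, abs_mul, abs_mul, abs_mul, abs_mul, hεa, one_mul, one_mul,
          abs_of_nonneg hτ0]
    _ ≤ (δ * (12 * √(s1 * δ)) + 1 / s0 * (8 * |ν|)) + 1 / s0 * (2 * |ν|) := add_le_add hE hN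
    _ = δ * (12 * √(s1 * δ)) + 1 / s0 * (10 * |ν|) := by ring

theorem fast_path {δ s0 s1 ε Os : ℝ} (hδ : 0 < δ) (hs0 : 0 < s0) (hε : ε = 1 ∨ ε = -1)
    (V : Finset ℤ) (m : ℕ) (w ν s : ℕ → ℝ) (hs : ∀ l < m, s0 ≤ s l ∧ s l ≤ s1)
    (hmon : (∀ l l', l ≤ l' → l' < m → s l ≤ s l') ∨ (∀ l l', l ≤ l' → l' < m → s l' ≤ s l))
    (hw : ∀ l < m, w (l + 1) = w l + ε * s l * δ + ν l)
    (hO : ∀ l ≤ m, |Ps V (w l) - Ps V (w 0)| ≤ Os) :
    |∑ l ∈ range m, δ * Th V (w l)| ≤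
      1 / s0 * (3 * Os + 10 * ∑ l ∈ range m, |ν l|) + m * δ * (12 * √(s1 * δ)) := by
  have hOs : 0 ≤ Os := le_trans (abs_nonneg _) (hO 0 (Nat.zero_le _))
  have hεa : |ε| = 1 := by rcases hε with h | h <;> rw [h] <;> norm_num
  have hA := FastPath_abel_le hs0 m s (fun l => Ps V (w l) - Ps V (w 0))
    (fun l hl => (hs l hl).1) hmon (sub_self _) hO
  have hA' : |∑ l ∈ range m, ε * (1 / s l * (Ps V (w (l + 1)) - Ps V (w l)))| ≤
      2 * (1 / s0 * Os) := by
    rw [← mul_sum, abs_mul, hεa, one_mul]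
    refine le_trans (le_of_eq ?_) hA
    congr 1
    refine sum_congr rfl fun l _ => ?_
    ring
  have hB : |∑ l ∈ range m, (δ * Th V (w l) -
      ε * (1 / s l * (Ps V (w (l + 1)) - Ps V (w l))))| ≤
      ∑ l ∈ range m, (δ * (12 * √(s1 * δ)) + 1 / s0 * (10 * |ν l|)) := by
    refine le_trans (abs_sum_le_sum_abs _ _) (sum_le_sum fun l hl => ?_)
    have hl' := mem_range.1 hl
    exact FastPath_term hδ hs0 hε V (hs l hl').1 (hs l hl').2 (hw l hl')
  have hC : ∑ l ∈ range m, δ * Th V (w l) =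
      ∑ l ∈ range m, ε * (1 / s l * (Ps V (w (l + 1)) - Ps V (w l))) +
      ∑ l ∈ range m, (δ * Th V (w l) -
        ε * (1 / s l * (Ps V (w (l + 1)) - Ps V (w l)))) := by
    rw [← sum_add_distrib]
    refine sum_congr rfl fun l _ => ?_
    ring
  have hD : ∑ l ∈ range m, (δ * (12 * √(s1 * δ)) + 1 / s0 * (10 * |ν l|)) =
      m * δ * (12 * √(s1 * δ)) + 1 / s0 * (10 * ∑ l ∈ range m, |ν l|) := by
    rw [sum_add_distrib, sum_const, card_range, nsmul_eq_mul, mul_sum, mul_sum]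
    ring
  rw [hC]
  refine le_trans (abs_add_le _ _) (le_trans (add_le_add hA' hB) ?_)
  rw [hD]
  have hE : 0 ≤ 1 / s0 * Os := by positivity
  have hF : 1 / s0 * (3 * Os + 10 * ∑ l ∈ range m, |ν l|) =
      3 * (1 / s0 * Os) + 1 / s0 * (10 * ∑ l ∈ range m, |ν l|) := by ring
  rw [hF]
  linarith

end Pool.Agent.Lib.HBP
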