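import Mathlib
import Pool.Agent.Lib.HBP.FastPath

/-!
MODULE StrFast: the sum of `Th` along a transversal strand, for sparse `V`.

PROOF.  Put `S = ∑_{l<m} |ν l|`, `N' = min N w`; `Sparse V w N'` holds (a window of `w` integers contains at most
`w` integers).  For `l ≤ m`: `|w l - w 0| ≤ D1 + S` (hypothesis `hD`), so `Ps_osc` gives
`|Ps V (w l) - Ps V (w 0)| ≤ 40 (1 + √N' + N'/w √(D1 + S)) ≤ 40 (1 + √N + N/w √D1 + √S)
≤ 40 (2 + √N + N/w √D1 + S) =: Os`.  `fast_path` gives `(1/s0)(3 Os + 10 S) + m δ 12 √(s1 δ)`, and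
`3 Os + 10 S = 120 (2 + √N + N/w √D1) + 130 S`.
-/

namespace Pool.Agent.Lib.HBP

open Finset

theorem strand_fast {δ s0 s1 ε D1 : ℝ} (hδ : 0 < δ) (hs0 : 0 < s0) (hε : ε = 1 ∨ ε = -1)
    (V : Finset ℤ) {wd N : ℕ} (hwd : 1 ≤ wd) (hs : Sparse V wd N) (m : ℕ) (w ν s : ℕ → ℝ)
    (hsb : ∀ l < m, s0 ≤ s l ∧ s l ≤ s1)
    (hmon : (∀ l l', l ≤ l' → l' < m → s l ≤ s l') ∨ (∀ l l', l ≤ l' → l' < m → s l' ≤ s l))
    (hw : ∀ l < m, w (l + 1) = w l + ε * s l * δ + ν l) (hD1 : 0 ≤ D1)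
    (hD : ∑ l ∈ range m, s l * δ ≤ D1) :
    |∑ l ∈ range m, δ * Th V (w l)| ≤
      1 / s0 * (120 * (2 + √N + N / wd * √D1) + 130 * ∑ l ∈ range m, |ν l|) +
        m * δ * (12 * √(s1 * δ)) := by
  have hεa : |ε| = 1 := by rcases hε with h | h <;> rw [h] <;> norm_num
  obtain ⟨S, hS⟩ : ∃ S, S = ∑ l ∈ range m, |ν l| := ⟨_, rfl⟩
  have hS0 : 0 ≤ S := by rw [hS]; exact sum_nonneg fun _ _ => abs_nonneg _
  have hwd' : (0 : ℝ) < wd := by exact_mod_cast hwd
  have hs' : Sparse V wd (min N wd) := by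
    intro z
    refine le_min (hs z) ?_
    have h1 : (V.filter fun c => z ≤ c ∧ c < z + wd) ⊆ Finset.Ico z (z + wd) := by
      intro c hc
      rw [mem_filter] at hc
      exact Finset.mem_Ico.2 hc.2
    refine (card_le_card h1).trans ?_
    rw [Int.card_Ico]
    omega
  have hpath : ∀ l ≤ m, |w l - w 0| ≤ ∑ i ∈ range l, (s i * δ + |ν i|) := by
    intro l
    induction l with
    | zero => intro _; simp
    | succ l ih =>
      intro hl
      rw [sum_range_succ]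
      have h1 := ih (by omega)
      have h2 : w (l + 1) - w 0 = (w l - w 0) + (ε * (s l * δ) + ν l) := by
        rw [hw l (by omega)]; ring
      have hsl : 0 ≤ s l * δ := by
        have := (hsb l (by omega)).1
        exact (mul_pos (by linarith) hδ).le
      have h3 : |ε * (s l * δ) + ν l| ≤ s l * δ + |ν l| := by
        refine (abs_add_le _ _).trans ?_
        rw [abs_mul, hεa, one_mul, abs_of_nonneg hsl]
      rw [h2]
      exact (abs_add_le _ _).trans (add_le_add h1 h3)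
  have hdist : ∀ l ≤ m, |w l - w 0| ≤ D1 + S := by
    intro l hl
    refine (hpath l hl).trans ?_
    have h1 : ∑ i ∈ range l, (s i * δ + |ν i|) ≤ ∑ i ∈ range m, (s i * δ + |ν i|) := by
      refine sum_le_sum_of_subset_of_nonneg (range_mono hl) fun i hi _ => ?_
      have := (hsb i (mem_range.1 hi)).1
      have h2 : 0 ≤ s i * δ := (mul_pos (by linarith) hδ).le
      have h3 := abs_nonneg (ν i)
      linarith
    refine h1.trans ?_
    rw [sum_add_distrib, hS]
    linarith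
  have hN1 : ((min N wd : ℕ) : ℝ) ≤ N := by exact_mod_cast min_le_left N wd
  have hN2 : ((min N wd : ℕ) : ℝ) / wd ≤ 1 := by
    rw [div_le_one hwd']
    exact_mod_cast min_le_right N wd
  have hN3 : ((min N wd : ℕ) : ℝ) / wd ≤ N / wd := by gcongr
  have hN0 : (0 : ℝ) ≤ ((min N wd : ℕ) : ℝ) / wd := by positivity
  have hsq : √S ≤ 1 + S := by
    have h1 := Real.sq_sqrt hS0
    nlinarith [Real.sqrt_nonneg S, sq_nonneg (√S - 1)]
  have hO : ∀ l ≤ m, |Ps V (w l) - Ps V (w 0)| ≤ 40 * (2 + √N + N / wd * √D1 + S) := by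
    intro l hl
    refine (Ps_osc V hwd hs' (w l) (w 0)).trans ?_
    have h1 : √|w l - w 0| ≤ √D1 + √S :=
      (Real.sqrt_le_sqrt (hdist l hl)).trans (Real.sqrt_le_iff.2 ⟨by positivity, by
        nlinarith [Real.sq_sqrt hD1, Real.sq_sqrt hS0,
          mul_nonneg (Real.sqrt_nonneg D1) (Real.sqrt_nonneg S)]⟩)
    have h2 : √((min N wd : ℕ) : ℝ) ≤ √N := Real.sqrt_le_sqrt hN1
    have h3 : ((min N wd : ℕ) : ℝ) / wd * √|w l - w 0| ≤ N / wd * √D1 + √S := by
      calc ((min N wd : ℕ) : ℝ) / wd * √|w l - w 0|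
          ≤ ((min N wd : ℕ) : ℝ) / wd * (√D1 + √S) := mul_le_mul_of_nonneg_left h1 hN0
        _ = ((min N wd : ℕ) : ℝ) / wd * √D1 + ((min N wd : ℕ) : ℝ) / wd * √S := by ring
        _ ≤ N / wd * √D1 + 1 * √S := add_le_add
            (mul_le_mul_of_nonneg_right hN3 (Real.sqrt_nonneg _))
            (mul_le_mul_of_nonneg_right hN2 (Real.sqrt_nonneg _))
        _ = N / wd * √D1 + √S := by rw [one_mul]
    linarith
  refine (fast_path hδ hs0 hε V m w ν s hsb hmon hw hO).trans (le_of_eq ?_)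
  rw [← hS]
  ring

end Pool.Agent.Lib.HBP
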