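import Mathlib
import Pool.Agent.Lib.HBP.PartSum
import Pool.Agent.Lib.HBP.NlF
import Pool.Agent.Lib.HBP.StrFast

/-!
MODULE CsB: the return strand of an arc (column `be l` in row `al (M - l)`).

PROOF.  Notation as in CsA, CsD, `U = u1 u2`.  Step (1) with `x l = be l`, `r l = al (M - l)`: error
`≤ B (3 + 90 Ac h² (1/a) ∑_l psi (u (be l)))`.
(2) `W l = (A (be l) + al (M-l) b)/B = W' l - λ 2ρ_l/a` with
`W' (l+1) = W' l - s l δ + ν l`, `δ = 16/a`, `s l = λ (1/8 + (x_l + δ/2)/h²) + u1/u2` (increasing; the row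
`al (M - l)` decreases by `16 u1` per step, `16 u1 b/B = (u1/u2) δ`), `s0 = λ/8 + u1/u2`,
`s1 = 9 λ + u1/u2`, `|ν l| ≤ (λ/(a u2)) ∑_{Ico (be (l+1)) (be l)} |u x - 1|`.
`∑ s l δ ≤ λ f(8h²) + (u1/u2) 8h² = (33 λ + 8 u1/u2) h² =: D1`, and `D1 ≤ 140 U h²` (`λ ≤ 4 U`).
`κ1/s0 ≤ 40/U`: if `u1 = 1`: `κ1/s0 = (1+λ)/(U λ/8 + 1) ≤ 8(1+λ)/(Uλ) ≤ 8 (1 + 4/U)/U ≤ 40/U` (`λ ≥ U/4`);
if `u2 = 1`: `κ1/s0 ≤ 5/U` (`s0 ≥ U`).
ROUNDING: `|Th V (W l) - Th V (W' l)| ≤ 4 √(2λ/a)`, total `(κ1/16)(8h²+δ) 4 √(2λ/a) ≤ 1`.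
`strand_fast` (`ε = -1`, `m = M`), term `l = M` separately, multiply by `κ1/16`, `(κ1/16)/s0 ≤ 5/(2U)`,
`(5/(2U)) √D1 ≤ 30 h`: `≤ 300 (2 + √N) + 3600 (N/w) h + (325/U) ∑|ν l| + 1`
(`(κ1/16) M δ 12 √(s1 δ) ≤ 1` since `s1 ≤ 40 U`, `a ≥ 10^12 h^8 U^4`).
`(325/U) ∑|ν l| ≤ (325 λ/U)(1/(u2 a)) ∑_{Ico (be M) (be 0)} |u x - 1|`, `λ/U ≤ 4`;
`1300 |u-1| ≤ 1300²/(4·500 Ac h²) + 1000 Ac h² psi u` (`mul_abs_le`, `A = 500 Ac h² ≥ 1500`), there are
`≤ 33 u2 h² a` values of `x`: `≤ 28000/Ac + 1000 Ac h² (1/(u2 a)) ∑ psi`; `28000/Ac ≤ 10000`.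
-/

namespace Pool.Agent.Lib.HBP

open Finset

private theorem csb_cst {h a u1 u2 lam : ℝ} (hh : 1 ≤ h) (ha : 10 ^ 12 * h ^ 8 * (u1 * u2) ^ 4 ≤ a)
    (hu : u1 = 1 ∨ u2 = 1) (hu1 : 1 ≤ u1) (hu2 : 1 ≤ u2)
    (hl1 : 1 / 4 ≤ lam * u1 / u2) (hl2 : lam * u1 / u2 ≤ 4) :
    0 < lam ∧ lam ≤ 4 * (u1 * u2) ∧ (1 + lam) / u2 ≤ 5 ∧ lam / u2 ≤ 4 ∧
      (1 + lam) / u2 / (lam / 8 + u1 / u2) ≤ 40 / (u1 * u2) ∧
      h ^ 2 * √(u1 * u2 / a) ≤ 1 / 10 ^ 6 ∧ 10 ^ 12 ≤ a := by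
  have hu1p : 0 < u1 := by linarith
  have hu2p : 0 < u2 := by linarith
  have hU : 1 ≤ u1 * u2 := by nlinarith
  rw [div_le_iff₀ hu2p] at hl2
  rw [le_div_iff₀ hu2p] at hl1
  have hl : 0 < lam := by
    by_contra hc
    push Not at hc
    nlinarith
  have hlu : lam ≤ 4 * u2 := by nlinarith
  have h2 : lam ≤ 4 * (u1 * u2) := by nlinarith
  have h3 : (1 + lam) / u2 ≤ 5 := by
    rw [div_le_iff₀ hu2p]
    linarith
  have h4 : lam / u2 ≤ 4 := by
    rw [div_le_iff₀ hu2p]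
    linarith
  refine ⟨hl, h2, h3, h4, ?_, ?_, ?_⟩
  · have hs0 : 0 < lam / 8 + u1 / u2 := by positivity
    rw [div_le_div_iff₀ hs0 (by positivity)]
    rcases hu with h | h
    · subst h
      have e1 : (1 + lam) / u2 * (1 * u2) = 1 + lam := by field_simp
      have e2 : 40 * (lam / 8 + 1 / u2) = 5 * lam + 40 / u2 := by ring
      rw [e1, e2]
      have : 1 ≤ 4 * lam + 40 / u2 := by
        have h5 : 1 / 4 * u2 ≤ lam := by linarith
        have h6 : 0 < 40 / u2 := by positivity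
        nlinarith
      linarith
    · subst h
      rw [div_one, div_one, mul_one]
      nlinarith
  · have h6 : 0 < h ^ 4 := by positivity
    have h7 : √(u1 * u2 / a) ≤ 1 / (10 ^ 6 * h ^ 4) := by
      rw [Real.sqrt_le_left (by positivity), div_pow, one_pow]
      have hap : 0 < a := lt_of_lt_of_le (by positivity) ha
      rw [div_le_div_iff₀ hap (by positivity)]
      have e3 : u1 * u2 * (10 ^ 6 * h ^ 4) ^ 2 = 10 ^ 12 * h ^ 8 * (u1 * u2) := by ring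
      rw [e3, one_mul]
      refine le_trans ?_ ha
      have : u1 * u2 ≤ (u1 * u2) ^ 4 := by
        calc u1 * u2 = (u1 * u2) ^ 1 := (pow_one _).symm
          _ ≤ (u1 * u2) ^ 4 := pow_le_pow_right₀ hU (by norm_num)
      have h8 : 0 < 10 ^ 12 * h ^ 8 := by positivity
      exact mul_le_mul_of_nonneg_left this h8.le
    calc h ^ 2 * √(u1 * u2 / a) ≤ h ^ 2 * (1 / (10 ^ 6 * h ^ 4)) :=
          mul_le_mul_of_nonneg_left h7 (by positivity)
      _ = 1 / 10 ^ 6 * (1 / h ^ 2) := by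
          field_simp
      _ ≤ 1 / 10 ^ 6 * 1 := by
          refine mul_le_mul_of_nonneg_left ?_ (by positivity)
          rw [div_le_one (by positivity)]
          exact one_le_pow₀ hh
      _ = 1 / 10 ^ 6 := mul_one _
  · refine le_trans ?_ ha
    have h8 : (1 : ℝ) ≤ h ^ 8 := one_le_pow₀ hh
    have h9 : (1 : ℝ) ≤ (u1 * u2) ^ 4 := one_le_pow₀ hU
    nlinarith

private theorem csb_tele (F : ℕ → ℝ) (g : ℕ → ℕ) (m : ℕ) (hg : ∀ l < m, g (l + 1) ≤ g l) :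
    ∑ l ∈ range m, ∑ z ∈ Finset.Ico (g (l + 1)) (g l), F z = ∑ z ∈ Finset.Ico (g m) (g 0), F z ∧
      g m ≤ g 0 := by
  induction m with
  | zero => simp
  | succ m ih =>
    obtain ⟨h1, h2⟩ := ih fun l hl => hg l (by omega)
    have h3 := hg m (by omega)
    refine ⟨?_, h3.trans h2⟩
    rw [sum_range_succ, h1, add_comm]
    exact Finset.sum_Ico_consecutive F h3 h2

/-- the error of `part_sum` -/
private theorem csb_err {h a u2 lam Ac U : ℝ} (hh : 1 ≤ h) (hap : 10 ^ 12 ≤ a) (hu2 : 1 ≤ u2)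
    (hU : 1 ≤ U) (hl : 0 < lam) (h3 : (1 + lam) / u2 ≤ 5) (h4 : lam / u2 ≤ 4)
    (h6 : h ^ 2 * √(U / a) ≤ 1 / 10 ^ 6) (hAc : 3 ≤ Ac) (M : ℕ) (hM : (M : ℝ) = h ^ 2 * a / 2)
    (u : ℕ → ℝ) (hu : ∀ l, 0 ≤ u l) :
    ∑ l ∈ range (M + 1), (2 * lam / (a * u2) * |u l - 1| +
      12 * ((1 + lam) / (a * u2) * √((1 + lam) / (a * u2))) +
      16 * ((1 + lam) / (a * u2)) * psi (u l)) ≤
      3 + 90 * Ac * h ^ 2 * (1 / a * ∑ l ∈ range (M + 1), psi (u l)) := by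
  have ha0 : 0 < a := by linarith [show (0 : ℝ) < 10 ^ 12 by norm_num]
  have hu2p : 0 < u2 := by linarith
  have hh2 : 1 ≤ h ^ 2 := one_le_pow₀ hh
  have hk : (1 + lam) / (a * u2) ≤ 5 / a := by
    have : (1 + lam) / (a * u2) = (1 + lam) / u2 / a := by field_simp
    rw [this]
    gcongr
  have hk0 : 0 < (1 + lam) / (a * u2) := by positivity
  have hsq : √((1 + lam) / (a * u2)) ≤ 3 * √(U / a) := by
    rw [Real.sqrt_le_left (by positivity), mul_pow, Real.sq_sqrt (by positivity)]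
    refine hk.trans ?_
    rw [div_le_iff₀ ha0]
    have : 3 ^ 2 * (U / a) * a = 9 * U := by field_simp; norm_num
    rw [this]
    linarith
  have hM1 : ((M : ℝ) + 1) / a ≤ h ^ 2 := by
    rw [div_le_iff₀ ha0, hM]
    nlinarith
  have hterm : ∀ l, 2 * lam / (a * u2) * |u l - 1| +
      12 * ((1 + lam) / (a * u2) * √((1 + lam) / (a * u2))) +
      16 * ((1 + lam) / (a * u2)) * psi (u l) ≤
      1 / a * (64 / (12 * (Ac * h ^ 2)) + 180 * √(U / a)) +
        90 * Ac * h ^ 2 * (1 / a * psi (u l)) := by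
    intro l
    have hps := psi_nonneg (u l)
    have e1 : 2 * lam / (a * u2) = 1 / a * (2 * (lam / u2)) := by field_simp
    have hAh : 3 ≤ Ac * h ^ 2 := by nlinarith
    have e2 := mul_abs_le (c := 8) (A := 3 * (Ac * h ^ 2)) (hu l) (by norm_num) (by linarith)
      (by linarith)
    have e3 : 2 * lam / (a * u2) * |u l - 1| ≤ 1 / a * (8 * |u l - 1|) := by
      rw [e1, mul_assoc]
      refine mul_le_mul_of_nonneg_left ?_ (by positivity)
      exact mul_le_mul_of_nonneg_right (by linarith) (abs_nonneg _)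
    have e4 : 12 * ((1 + lam) / (a * u2) * √((1 + lam) / (a * u2))) ≤
        1 / a * (180 * √(U / a)) := by
      calc 12 * ((1 + lam) / (a * u2) * √((1 + lam) / (a * u2)))
          ≤ 12 * (5 / a * (3 * √(U / a))) := by gcongr
        _ = 1 / a * (180 * √(U / a)) := by ring
    have e5 : 16 * ((1 + lam) / (a * u2)) * psi (u l) ≤ 1 / a * (80 * psi (u l)) := by
      calc 16 * ((1 + lam) / (a * u2)) * psi (u l) ≤ 16 * (5 / a) * psi (u l) := by gcongr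
        _ = 1 / a * (80 * psi (u l)) := by ring
    have e6 : 1 / a * (8 * |u l - 1|) ≤ 1 / a * (64 / (12 * (Ac * h ^ 2)) +
        6 * (Ac * h ^ 2) * psi (u l)) := by
      refine mul_le_mul_of_nonneg_left (e2.trans (le_of_eq ?_)) (by positivity)
      ring
    have e7 : 1 / a * (6 * (Ac * h ^ 2) * psi (u l) + 80 * psi (u l)) ≤
        90 * Ac * h ^ 2 * (1 / a * psi (u l)) := by
      have : 90 * Ac * h ^ 2 * (1 / a * psi (u l)) = 1 / a * (90 * (Ac * h ^ 2) * psi (u l)) := by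
        ring
      rw [this]
      refine mul_le_mul_of_nonneg_left ?_ (by positivity)
      nlinarith
    calc _ ≤ 1 / a * (64 / (12 * (Ac * h ^ 2)) + 6 * (Ac * h ^ 2) * psi (u l)) +
          1 / a * (180 * √(U / a)) + 1 / a * (80 * psi (u l)) := by linarith
      _ = 1 / a * (64 / (12 * (Ac * h ^ 2)) + 180 * √(U / a)) +
          1 / a * (6 * (Ac * h ^ 2) * psi (u l) + 80 * psi (u l)) := by ring
      _ ≤ _ := by linarith
  refine (sum_le_sum fun l _ => hterm l).trans ?_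
  rw [sum_add_distrib, sum_const, card_range, nsmul_eq_mul, ← mul_sum, ← mul_sum]
  have f1 : ((M + 1 : ℕ) : ℝ) * (1 / a * (64 / (12 * (Ac * h ^ 2)) + 180 * √(U / a))) ≤ 3 := by
    have f2 : ((M + 1 : ℕ) : ℝ) * (1 / a * (64 / (12 * (Ac * h ^ 2)) + 180 * √(U / a))) =
        ((M : ℝ) + 1) / a * (64 / (12 * (Ac * h ^ 2)) + 180 * √(U / a)) := by
      push_cast; ring
    rw [f2]
    have f3 : ((M : ℝ) + 1) / a * (64 / (12 * (Ac * h ^ 2)) + 180 * √(U / a)) ≤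
        h ^ 2 * (64 / (12 * (Ac * h ^ 2)) + 180 * √(U / a)) := by gcongr
    have f4 : h ^ 2 * (64 / (12 * (Ac * h ^ 2)) + 180 * √(U / a)) =
        64 / 12 * (1 / Ac) + 180 * (h ^ 2 * √(U / a)) := by
      field_simp
    have f5 : 1 / Ac ≤ 1 / 3 := by gcongr
    rw [f4] at f3
    linarith
  linarith

theorem cs_B {h a b u1 u2 a0 b0 w N : ℕ} (hh : 1 ≤ h) (ha2 : 2 ∣ a)
    (ha : 10 ^ 12 * h ^ 8 * (u1 * u2) ^ 4 ≤ a) (hb : 1 ≤ b) (hu : u1 = 1 ∨ u2 = 1) (hu1 : 1 ≤ u1)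
    (hu2 : 1 ≤ u2) {Ac : ℝ} (hAc : 3 ≤ Ac) (A : ℕ → ℕ) (hA : Monotone A) {lam : ℝ}
    (hl1 : 1 / 4 ≤ lam * u1 / u2) (hl2 : lam * u1 / u2 ≤ 4) (V : Finset ℤ) (hw : 1 ≤ w)
    (hs : Sparse V w N) :
    |∑ l ∈ range (Mh h a + 1),
      csum (fun v => Th V ((v : ℝ) / (a * u2 * b))) A b (be b0 u2 h a l) (al a0 u1 (Mh h a - l))| ≤
    (a : ℝ) * u2 * b * (20000 * (1 + √N + N * h / w + h / Ac) +
      20000 * Ac * h ^ 2 * arcE A b lam a u1 u2 (al a0 u1) (be b0 u2 h a) (Mh h a)) := by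
  -- real parameters
  have hhR : (1 : ℝ) ≤ h := by exact_mod_cast hh
  have hbR : (1 : ℝ) ≤ b := by exact_mod_cast hb
  have hu1R : (1 : ℝ) ≤ u1 := by exact_mod_cast hu1
  have hu2R : (1 : ℝ) ≤ u2 := by exact_mod_cast hu2
  have haR : (10 : ℝ) ^ 12 * h ^ 8 * (u1 * u2) ^ 4 ≤ a := by exact_mod_cast ha
  have huR : (u1 : ℝ) = 1 ∨ (u2 : ℝ) = 1 := by
    rcases hu with h | h
    · left; exact_mod_cast h
    · right; exact_mod_cast h
  obtain ⟨hl, c2, c3, c4, c5, c6, c7⟩ := csb_cst hhR haR huR hu1R hu2R hl1 hl2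
  have ha0 : (0 : ℝ) < a := by linarith [show (0 : ℝ) < 10 ^ 12 by norm_num]
  have ha1 : 1 ≤ a := by
    have : (0 : ℝ) < (a : ℝ) := ha0
    exact_mod_cast this
  have hu1p : (0 : ℝ) < u1 := by linarith
  have hu2p : (0 : ℝ) < u2 := by linarith
  have hbp : (0 : ℝ) < b := by linarith
  have hU : (1 : ℝ) ≤ u1 * u2 := by nlinarith
  have hwR : (0 : ℝ) < w := by exact_mod_cast hw
  have hM := Mh_cast (h := h) ha2
  set M := Mh h a with hMdef
  have hh2 : (1 : ℝ) ≤ (h : ℝ) ^ 2 := one_le_pow₀ hhR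
  -- step 1
  have hpart := part_sum (a := a) (b := b) (u2 := u2) ha1 hb hu2 A hA hl V (M + 1)
    (be b0 u2 h a) (fun l => al a0 u1 (M - l))
  have herr := csb_err (u2 := (u2 : ℝ)) (U := (u1 : ℝ) * u2) hhR c7 hu2R hU hl c3 c4 c6 hAc M hM
    (fun l => du A b lam (be b0 u2 h a l)) (fun l => du_nonneg A hA hl _)
  -- the path
  obtain ⟨W, hW⟩ : ∃ W : ℕ → ℝ, ∀ l, W l = ((A (be b0 u2 h a l) : ℝ) +
      (al a0 u1 (M - l) : ℕ) * b) / (a * u2 * b) := ⟨_, fun _ => rfl⟩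
  obtain ⟨ρ, hρ⟩ : ∃ ρ : ℕ → ℝ, ∀ l, ρ l = 33 * (h : ℝ) ^ 2 * a / 2 - l -
      64 * (l : ℝ) ^ 2 / (a * h ^ 2) - Nl h a l := ⟨_, fun _ => rfl⟩
  have hρ01 : ∀ l ≤ M, 0 ≤ ρ l ∧ ρ l < 1 := by
    intro l hlM
    obtain ⟨r, r0, r1, hr⟩ := Nl_eq (h := h) (a := a) hh ha1 ha2 hlM
    have : ρ l = r := by rw [hρ, hr]; ring
    rw [this]
    exact ⟨r0, r1⟩
  obtain ⟨W', hW'⟩ : ∃ W' : ℕ → ℝ, ∀ l, W' l = W l + 2 * lam * ρ l / a := ⟨_, fun _ => rfl⟩
  obtain ⟨T, hT⟩ : ∃ T : ℕ → ℝ, ∀ l, T l = ∑ z ∈ Finset.Ico (be b0 u2 h a (l + 1))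
      (be b0 u2 h a l), (du A b lam z - 1) := ⟨_, fun _ => rfl⟩
  have hbe : ∀ l < M, be b0 u2 h a (l + 1) ≤ be b0 u2 h a l := by
    intro l hlM
    have := Nl_anti (h := h) (a := a) (l := l) (l' := l + 1) hh ha1 ha2 (by omega) (by omega)
    unfold be
    have h1 := Nat.mul_le_mul_left (2 * u2) this.le
    omega
  obtain ⟨s, hsd⟩ : ∃ s : ℕ → ℝ, ∀ l, s l = lam * (1 / 8 + (16 * l / a + 16 / a / 2) / h ^ 2) +
      u1 / u2 := ⟨_, fun _ => rfl⟩
  have hrec : ∀ l < M, W' (l + 1) = W' l + (-1) * s l * (16 / a) + (-(lam / (a * u2) * T l)) := by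
    intro l hlM
    have e1 := A_sub (b := b) hb A hA hl (hbe l hlM)
    have e2 : ∑ z ∈ Finset.Ico (be b0 u2 h a (l + 1)) (be b0 u2 h a l), du A b lam z =
        T l + 2 * u2 * ((Nl h a l : ℝ) - Nl h a (l + 1)) := by
      rw [hT, sum_sub_distrib, sum_const, Nat.card_Ico, nsmul_eq_mul, mul_one,
        Nat.cast_sub (hbe l hlM)]
      unfold be
      push_cast
      ring
    rw [e2] at e1
    have e3 : ((al a0 u1 (M - l) : ℕ) : ℝ) = (al a0 u1 (M - (l + 1)) : ℕ) + 16 * u1 := by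
      unfold al
      have : M - l = (M - (l + 1)) + 1 := by omega
      rw [this]
      push_cast
      ring
    have e4 : (A (be b0 u2 h a l) : ℝ) = A (be b0 u2 h a (l + 1)) +
        b * lam * (T l + 2 * u2 * ((Nl h a l : ℝ) - Nl h a (l + 1))) := by linarith
    have e5 : (Nl h a l : ℝ) = 33 * (h : ℝ) ^ 2 * a / 2 - l -
      64 * (l : ℝ) ^ 2 / (a * h ^ 2) - ρ l := by rw [hρ]; ring
    have e6 : (Nl h a (l + 1) : ℝ) = 33 * (h : ℝ) ^ 2 * a / 2 - (l + 1) -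
      64 * ((l : ℝ) + 1) ^ 2 / (a * h ^ 2) - ρ (l + 1) := by rw [hρ]; push_cast; ring
    rw [hW', hW', hW, hW, e3, e4, e5, e6, hsd]
    field_simp
    ring
  have hνb : ∀ l, |(-(lam / (a * u2) * T l))| ≤ lam / (a * u2) *
      ∑ z ∈ Finset.Ico (be b0 u2 h a (l + 1)) (be b0 u2 h a l), |du A b lam z - 1| := by
    intro l
    rw [abs_neg, abs_mul, abs_of_nonneg (by positivity : (0 : ℝ) ≤ lam / (a * u2)), hT]
    exact mul_le_mul_of_nonneg_left (abs_sum_le_sum_abs _ _) (by positivity)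
  have hνs : ∑ l ∈ range M, |(-(lam / (a * u2) * T l))| ≤ lam / (a * u2) *
      ∑ z ∈ Finset.Ico (be b0 u2 h a M) (be b0 u2 h a 0), |du A b lam z - 1| := by
    refine (sum_le_sum fun l _ => hνb l).trans ?_
    rw [← mul_sum, (csb_tele (fun z => |du A b lam z - 1|) (be b0 u2 h a) M hbe).1]
  -- bounds of the speed
  have hsb : ∀ l < M, lam / 8 + (u1 : ℝ) / u2 ≤ s l ∧ s l ≤ 9 * lam + (u1 : ℝ) / u2 := by
    intro l hlM
    have h1 : ((l : ℝ) + 1) ≤ M := by exact_mod_cast hlM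
    have h2 : (16 * (l : ℝ) / a + 16 / a / 2) / h ^ 2 ≤ 8 := by
      rw [div_le_iff₀ (by positivity)]
      have : 16 * (l : ℝ) / a + 16 / a / 2 = (16 * l + 8) / a := by ring
      rw [this, div_le_iff₀ ha0]
      rw [hM] at h1
      linarith
    have h3 : 0 ≤ (16 * (l : ℝ) / a + 16 / a / 2) / h ^ 2 := by positivity
    rw [hsd]
    constructor
    · have := mul_nonneg hl.le h3
      linarith
    · have := mul_le_mul_of_nonneg_left h2 hl.le
      linarith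
  have hmon : ∀ l l', l ≤ l' → l' < M → s l ≤ s l' := by
    intro l l' hll _
    have h1 : (l : ℝ) ≤ l' := by exact_mod_cast hll
    rw [hsd, hsd]
    gcongr
  have hDs : ∀ m : ℕ, ∑ l ∈ range m, s l * (16 / (a : ℝ)) =
      lam * (16 * m / a / 8 + (16 * m / a) ^ 2 / (2 * h ^ 2)) + u1 / u2 * (16 * m / a) := by
    intro m
    induction m with
    | zero => simp
    | succ m ih =>
      rw [sum_range_succ, ih, hsd]
      push_cast
      field_simp
      ring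
  obtain ⟨D1, hD1⟩ : ∃ D1 : ℝ, D1 = (33 * lam + 8 * (u1 / u2)) * h ^ 2 := ⟨_, rfl⟩
  have hDM : ∑ l ∈ range M, s l * (16 / (a : ℝ)) = D1 := by
    rw [hDs, hM, hD1]
    field_simp
    ring
  have hD0 : 0 ≤ D1 := by rw [hD1]; positivity
  have hu12 : (u1 : ℝ) / u2 ≤ u1 * u2 := by
    rw [div_le_iff₀ hu2p, mul_assoc]
    exact le_mul_of_one_le_right hu1p.le (one_le_mul_of_one_le_of_one_le hu2R hu2R)
  have hsqD : √D1 ≤ 12 * h * (u1 * u2) := by
    rw [Real.sqrt_le_left (by positivity), hD1]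
    have e1 : (33 * lam + 8 * ((u1 : ℝ) / u2)) * h ^ 2 ≤ 140 * (u1 * u2) * h ^ 2 :=
      mul_le_mul_of_nonneg_right (by linarith) (by positivity)
    have e2 : (u1 * u2 : ℝ) ≤ (u1 * u2) ^ 2 := le_self_pow₀ hU (by norm_num)
    have e3 : (12 * h * (u1 * u2) : ℝ) ^ 2 = 144 * (u1 * u2) ^ 2 * h ^ 2 := by ring
    rw [e3]
    refine e1.trans (mul_le_mul_of_nonneg_right ?_ (by positivity))
    linarith
  have hfast := strand_fast (δ := 16 / (a : ℝ)) (s0 := lam / 8 + (u1 : ℝ) / u2)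
    (s1 := 9 * lam + (u1 : ℝ) / u2) (ε := -1) (D1 := D1) (by positivity) (by positivity)
    (Or.inr rfl) V hw hs M W' (fun l => -(lam / (a * u2) * T l)) s hsb (Or.inl hmon) hrec hD0
    hDM.le
  -- names
  obtain ⟨U, hUd⟩ : ∃ U : ℝ, U = u1 * u2 := ⟨_, rfl⟩
  rw [← hUd] at c2 c5 c6 hU hu12 hsqD
  obtain ⟨K, hK⟩ : ∃ K : ℝ, K = (1 + lam) / u2 := ⟨_, rfl⟩
  rw [← hK] at c3 c5
  have hK0 : 0 ≤ K := by rw [hK]; positivity
  obtain ⟨q, hq⟩ : ∃ q : ℝ, q = √(U / a) := ⟨_, rfl⟩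
  rw [← hq] at c6
  have hq0 : 0 ≤ q := by rw [hq]; positivity
  have hU0 : 0 < U := by linarith
  have hUa : 0 ≤ U / a := by positivity
  have hMδ : (M : ℝ) * (16 / a) = 8 * h ^ 2 := by
    rw [hM]; field_simp; norm_num
  -- rounding
  have hround : ∀ l ≤ M, |Th V (W l) - Th V (W' l)| ≤ 12 * q := by
    intro l hlM
    obtain ⟨r0, r1⟩ := hρ01 l hlM
    refine (Th_holder V _ _).trans ?_
    have e1 : |W l - W' l| ≤ 9 * (U / a) := by
      rw [hW']
      have : W l - (W l + 2 * lam * ρ l / a) = -(2 * lam * ρ l / a) := by ring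
      rw [this, abs_neg, abs_of_nonneg (by positivity)]
      have e2 : 2 * lam * ρ l / a ≤ 9 * U / a := by
        refine div_le_div_of_nonneg_right ?_ ha0.le
        have := mul_le_mul_of_nonneg_left r1.le hl.le
        linarith
      exact e2.trans (le_of_eq (mul_div_assoc _ _ _))
    have e3 : √|W l - W' l| ≤ 3 * q := by
      rw [Real.sqrt_le_left (by positivity), hq, mul_pow, Real.sq_sqrt hUa]
      linarith
    linarith
  have hsum : |∑ l ∈ range (M + 1), (16 / (a : ℝ)) * Th V (W l)| ≤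
      |∑ l ∈ range M, (16 / (a : ℝ)) * Th V (W' l)| + 96 * (h ^ 2 * q) + 16 / a * 2 := by
    rw [sum_range_succ]
    have e1 : ∑ l ∈ range M, (16 / (a : ℝ)) * Th V (W l) =
        ∑ l ∈ range M, (16 / (a : ℝ)) * Th V (W' l) +
        ∑ l ∈ range M, (16 / (a : ℝ)) * (Th V (W l) - Th V (W' l)) := by
      rw [← sum_add_distrib]
      exact sum_congr rfl fun l _ => by ring
    have e2 : |∑ l ∈ range M, (16 / (a : ℝ)) * (Th V (W l) - Th V (W' l))| ≤ 96 * (h ^ 2 * q) := by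
      refine (abs_sum_le_sum_abs _ _).trans ?_
      have e3 : ∀ l ∈ range M, |(16 / (a : ℝ)) * (Th V (W l) - Th V (W' l))| ≤
          (16 / (a : ℝ)) * (12 * q) := by
        intro l hl
        rw [abs_mul, abs_of_nonneg (by positivity : (0 : ℝ) ≤ 16 / a)]
        exact mul_le_mul_of_nonneg_left (hround l (mem_range.1 hl).le) (by positivity)
      refine (sum_le_sum e3).trans (le_of_eq ?_)
      rw [sum_const, card_range, nsmul_eq_mul]
      calc (M : ℝ) * (16 / a * (12 * q)) = M * (16 / a) * (12 * q) := by ring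
        _ = 96 * (h ^ 2 * q) := by rw [hMδ]; ring
    have e4 : |(16 / (a : ℝ)) * Th V (W M)| ≤ 16 / a * 2 := by
      rw [abs_mul, abs_of_nonneg (by positivity : (0 : ℝ) ≤ 16 / a)]
      exact mul_le_mul_of_nonneg_left (abs_Th_le V _) (by positivity)
    rw [e1]
    refine (abs_add_le _ _).trans (add_le_add ((abs_add_le _ _).trans ?_) e4)
    linarith
  have hsqs : √((9 * lam + (u1 : ℝ) / u2) * (16 / a)) ≤ 25 * q := by
    rw [Real.sqrt_le_left (by positivity), hq, mul_pow, Real.sq_sqrt hUa]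
    have e1 : (9 * lam + (u1 : ℝ) / u2) * (16 / a) ≤ (37 * U) * (16 / a) :=
      mul_le_mul_of_nonneg_right (by linarith) (by positivity)
    refine e1.trans ?_
    have e2 : (37 * U) * (16 / (a : ℝ)) = 592 * (U / a) := by ring
    rw [e2]
    linarith
  -- the energy along the strand
  obtain ⟨X, hX⟩ : ∃ X : ℝ, X = ∑ z ∈ Finset.Ico (be b0 u2 h a M) (be b0 u2 h a 0),
      |du A b lam z - 1| := ⟨_, rfl⟩
  obtain ⟨Y, hY⟩ : ∃ Y : ℝ, Y = ∑ z ∈ Finset.Ico (be b0 u2 h a M) (be b0 u2 h a 0),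
      psi (du A b lam z) := ⟨_, rfl⟩
  obtain ⟨Z, hZ⟩ : ∃ Z : ℝ, Z = ∑ l ∈ range (M + 1), psi (du A b lam (be b0 u2 h a l)) := ⟨_, rfl⟩
  rw [← hX] at hνs
  rw [← hZ] at herr
  have hAh : 3 ≤ Ac * (h : ℝ) ^ 2 := hAc.trans (le_mul_of_one_le_right (by linarith) hh2)
  have hXY : 1300 * (1 / (u2 * a) * X) ≤ 9300 + 1000 * Ac * h ^ 2 * (1 / (u2 * a) * Y) := by
    have e1 : 1300 * X ≤ (be b0 u2 h a 0 - be b0 u2 h a M : ℕ) * (845 / (Ac * h ^ 2)) +
        1000 * Ac * h ^ 2 * Y := by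
      rw [hX, hY, mul_sum, mul_sum, ← Nat.card_Ico, ← nsmul_eq_mul, ← sum_const,
        ← sum_add_distrib]
      refine sum_le_sum fun z _ => ?_
      have e2 := mul_abs_le (c := 1300) (A := 500 * (Ac * h ^ 2)) (du_nonneg (b := b) A hA hl z)
        (by norm_num) (by linarith) (by linarith)
      refine e2.trans (le_of_eq ?_)
      have e3 : (1300 : ℝ) ^ 2 / (4 * (500 * (Ac * h ^ 2))) = 845 / (Ac * h ^ 2) := by
        field_simp; norm_num
      rw [e3]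
      ring
    have e4 : ((be b0 u2 h a 0 - be b0 u2 h a M : ℕ) : ℝ) ≤ 33 * u2 * h ^ 2 * a := by
      have e5 : be b0 u2 h a 0 - be b0 u2 h a M ≤ 2 * u2 * (33 * h ^ 2 * a / 2) := by
        have := Nl_le h a 0
        unfold be
        have h1 := Nat.mul_le_mul_left (2 * u2) this
        omega
      have e6 : ((33 * h ^ 2 * a / 2 : ℕ) : ℝ) ≤ 33 * (h : ℝ) ^ 2 * a / 2 := by
        have := @Nat.cast_div_le ℝ _ _ _ (33 * h ^ 2 * a) 2
        push_cast at this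
        exact this
      calc ((be b0 u2 h a 0 - be b0 u2 h a M : ℕ) : ℝ)
          ≤ ((2 * u2 * (33 * h ^ 2 * a / 2) : ℕ) : ℝ) := by exact_mod_cast e5
        _ = 2 * u2 * ((33 * h ^ 2 * a / 2 : ℕ) : ℝ) := by push_cast; ring
        _ ≤ 2 * u2 * (33 * (h : ℝ) ^ 2 * a / 2) := mul_le_mul_of_nonneg_left e6 (by positivity)
        _ = _ := by ring
    have e7 : 1 / (u2 * a) * (1300 * X) ≤ 1 / (u2 * a) * (33 * u2 * h ^ 2 * a *
        (845 / (Ac * h ^ 2)) + 1000 * Ac * h ^ 2 * Y) := by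
      refine mul_le_mul_of_nonneg_left (e1.trans ?_) (by positivity)
      have := mul_le_mul_of_nonneg_right e4 (by positivity : (0 : ℝ) ≤ 845 / (Ac * h ^ 2))
      linarith
    have e8 : 1 / ((u2 : ℝ) * a) * (33 * u2 * h ^ 2 * a * (845 / (Ac * h ^ 2)) +
        1000 * Ac * h ^ 2 * Y) = 27885 * (1 / Ac) + 1000 * Ac * h ^ 2 * (1 / (u2 * a) * Y) := by
      have : Ac ≠ 0 := by linarith
      field_simp
      ring
    have e9 : 1 / Ac ≤ 1 / 3 := by gcongr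
    rw [e8] at e7
    linarith
  -- assembly
  have hKs : K / 16 * (1 / (lam / 8 + (u1 : ℝ) / u2)) ≤ 5 / (2 * U) := by
    have e1 : K / 16 * (1 / (lam / 8 + (u1 : ℝ) / u2)) =
        K / (lam / 8 + (u1 : ℝ) / u2) / 16 := by ring
    rw [e1]
    refine (div_le_div_of_nonneg_right c5 (by norm_num)).trans (le_of_eq ?_)
    ring
  obtain ⟨F, hF⟩ : ∃ F : ℝ, F = |∑ l ∈ range M, (16 / (a : ℝ)) * Th V (W' l)| := ⟨_, rfl⟩
  rw [← hF] at hfast hsum
  have hNw : (0 : ℝ) ≤ N / w := by positivity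
  have hKF : K / 16 * F ≤ 300 * (2 + √N) + 3600 * (N * h / w) + 1300 * (1 / (u2 * a) * X) + 1 := by
    have e1 : K / 16 * F ≤ K / 16 * (1 / (lam / 8 + (u1 : ℝ) / u2)) *
        (120 * (2 + √N + N / w * √D1) + 130 * (lam / (a * u2) * X)) +
        K / 16 * (8 * h ^ 2 * (12 * (25 * q))) := by
      have e2 := mul_le_mul_of_nonneg_left hfast (by positivity : (0 : ℝ) ≤ K / 16)
      refine e2.trans ?_
      have e3 : (M : ℝ) * (16 / a) * (12 * √((9 * lam + (u1 : ℝ) / u2) * (16 / a))) ≤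
          8 * h ^ 2 * (12 * (25 * q)) := by
        rw [hMδ]
        gcongr
      have e4 : 1 / (lam / 8 + (u1 : ℝ) / u2) * (120 * (2 + √N + N / w * √D1) +
          130 * ∑ l ∈ range M, |(-(lam / (a * u2) * T l))|) ≤
          1 / (lam / 8 + (u1 : ℝ) / u2) * (120 * (2 + √N + N / w * √D1) +
          130 * (lam / (a * u2) * X)) := by
        refine mul_le_mul_of_nonneg_left ?_ (by positivity)
        linarith
      have e5 := mul_le_mul_of_nonneg_left (add_le_add e4 e3) (by positivity : (0 : ℝ) ≤ K / 16)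
      refine e5.trans (le_of_eq ?_)
      ring
    have hX0 : 0 ≤ X := by rw [hX]; exact sum_nonneg fun _ _ => abs_nonneg _
    have e6 : K / 16 * (1 / (lam / 8 + (u1 : ℝ) / u2)) *
        (120 * (2 + √N + N / w * √D1) + 130 * (lam / (a * u2) * X)) ≤
        5 / (2 * U) * (120 * (2 + √N + N / w * √D1) + 130 * (lam / (a * u2) * X)) :=
      mul_le_mul_of_nonneg_right hKs (by positivity)
    have e7 : 5 / (2 * U) * (120 * (2 + √N + N / w * √D1) + 130 * (lam / (a * u2) * X)) =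
        1 / U * (300 * (2 + √N)) + 300 * (N / w) * (1 / U * √D1) +
        325 * (lam / U) * (1 / (u2 * a) * X) := by
      field_simp
      ring
    have e8 : 1 / U * (300 * (2 + √N)) ≤ 300 * (2 + √N) := by
      have : 1 / U ≤ 1 := by rw [div_le_one hU0]; exact hU
      calc 1 / U * (300 * (2 + √N)) ≤ 1 * (300 * (2 + √N)) := by gcongr
        _ = _ := one_mul _
    have e9 : 1 / U * √D1 ≤ 12 * h := by
      calc 1 / U * √D1 ≤ 1 / U * (12 * h * U) := by gcongr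
        _ = 12 * h := by field_simp
    have e10 : 300 * ((N : ℝ) / w) * (1 / U * √D1) ≤ 3600 * (N * h / w) := by
      calc 300 * ((N : ℝ) / w) * (1 / U * √D1) ≤ 300 * ((N : ℝ) / w) * (12 * h) := by gcongr
        _ = _ := by ring
    have e11 : 325 * (lam / U) * (1 / (u2 * a) * X) ≤ 1300 * (1 / (u2 * a) * X) := by
      refine mul_le_mul_of_nonneg_right ?_ (by positivity)
      have : lam / U ≤ 4 := by rw [div_le_iff₀ hU0]; linarith
      linarith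
    have e12 : K / 16 * (8 * h ^ 2 * (12 * (25 * q))) ≤ 1 := by
      have : K / 16 * (8 * h ^ 2 * (12 * (25 * q))) = K * (150 * (h ^ 2 * q)) := by ring
      rw [this]
      have h1 : 0 ≤ (h : ℝ) ^ 2 * q := by positivity
      have h2 := mul_le_mul c3 c6 h1 (by norm_num)
      linarith
    linarith
  have hBpos : (0 : ℝ) < (a : ℝ) * u2 * b := by positivity
  have hKS : K / a * |∑ l ∈ range (M + 1), Th V (W l)| ≤
      300 * (2 + √N) + 3600 * (N * h / w) + 1300 * (1 / (u2 * a) * X) + 3 := by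
    have e1 : K / a * |∑ l ∈ range (M + 1), Th V (W l)| =
        K / 16 * |∑ l ∈ range (M + 1), (16 / (a : ℝ)) * Th V (W l)| := by
      rw [← mul_sum, abs_mul, abs_of_nonneg (by positivity : (0 : ℝ) ≤ 16 / a)]
      ring
    rw [e1]
    have e2 := mul_le_mul_of_nonneg_left hsum (by positivity : (0 : ℝ) ≤ K / 16)
    have e3 : K / 16 * (96 * (h ^ 2 * q)) ≤ 1 := by
      have h1 : 0 ≤ (h : ℝ) ^ 2 * q := by positivity
      have h2 := mul_le_mul c3 c6 h1 (by norm_num)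
      linarith
    have e4 : K / 16 * (16 / a * 2) ≤ 1 := by
      have : K / 16 * (16 / a * 2) = 2 * K / a := by ring
      rw [this, div_le_one ha0]
      linarith [show (10 : ℝ) ≤ 10 ^ 12 by norm_num]
    linarith
  have hmain : |∑ l ∈ range (M + 1),
      csum (fun v => Th V ((v : ℝ) / (a * u2 * b))) A b (be b0 u2 h a l) (al a0 u1 (M - l))| ≤
      (a : ℝ) * u2 * b * (3 + 90 * Ac * h ^ 2 * (1 / a * Z) +
        K / a * |∑ l ∈ range (M + 1), Th V (W l)|) := by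
    have e1 : ∀ l, ((A (be b0 u2 h a l) : ℝ) + (al a0 u1 (M - l) : ℕ) * b) / (a * u2 * b) = W l :=
      fun l => (hW l).symm
    simp only [e1] at hpart
    have e2 := abs_le.1 hpart
    have e3 : ((1 + lam) / (a * u2) : ℝ) = K / a := by rw [hK]; field_simp
    rw [e3] at e2
    have e4 := mul_le_mul_of_nonneg_left herr hBpos.le
    rw [e3] at e4
    have e5 := abs_le.1 (le_refl |∑ l ∈ range (M + 1), Th V (W l)|)
    have hKa : 0 ≤ (a : ℝ) * u2 * b * (K / a) := by positivity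
    have e6 := mul_le_mul_of_nonneg_left e5.1 hKa
    have e7 := mul_le_mul_of_nonneg_left e5.2 hKa
    rw [abs_le]
    constructor
    · linarith [e2.1, e4, e6]
    · linarith [e2.2, e4, e7]
  refine hmain.trans (mul_le_mul_of_nonneg_left ?_ hBpos.le)
  -- energy
  have hE : 1 / a * Z + 1 / (u2 * a) * Y ≤
      arcE A b lam a u1 u2 (al a0 u1) (be b0 u2 h a) M := by
    unfold arcE
    rw [← hY, sum_add_distrib, ← hZ]
    have e1 : 0 ≤ ∑ l ∈ range (M + 1), psi (du A b lam (al a0 u1 l)) :=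
      sum_nonneg fun _ _ => psi_nonneg _
    have e2 : 0 ≤ ∑ x ∈ Finset.Ico (al a0 u1 0) (al a0 u1 M), psi (du A b lam x) :=
      sum_nonneg fun _ _ => psi_nonneg _
    have e3 : 0 ≤ 1 / (a : ℝ) * ∑ l ∈ range (M + 1), psi (du A b lam (al a0 u1 l)) := by positivity
    have e4 : 0 ≤ 1 / ((u1 : ℝ) * a) *
        ∑ x ∈ Finset.Ico (al a0 u1 0) (al a0 u1 M), psi (du A b lam x) := by positivity
    rw [mul_add]
    linarith
  have hZ0 : 0 ≤ 1 / (a : ℝ) * Z := by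
    rw [hZ]
    exact mul_nonneg (by positivity) (sum_nonneg fun _ _ => psi_nonneg _)
  have hY0 : 0 ≤ 1 / ((u2 : ℝ) * a) * Y := by
    rw [hY]
    exact mul_nonneg (by positivity) (sum_nonneg fun _ _ => psi_nonneg _)
  have hAh0 : 0 ≤ Ac * (h : ℝ) ^ 2 := by linarith
  have g1 := mul_le_mul_of_nonneg_left hE (by linarith : 0 ≤ 20000 * (Ac * (h : ℝ) ^ 2))
  have g2 := mul_nonneg hAh0 hZ0
  have g3 := mul_nonneg hAh0 hY0
  have g4 : 0 ≤ √(N : ℝ) := Real.sqrt_nonneg _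
  have g5 : 0 ≤ (N : ℝ) * h / w := by positivity
  have g6 : 0 ≤ (h : ℝ) / Ac := by positivity
  have g7 : 90 * Ac * (h : ℝ) ^ 2 * (1 / a * Z) = 90 * (Ac * h ^ 2 * (1 / a * Z)) := by ring
  have g8 : 1000 * Ac * (h : ℝ) ^ 2 * (1 / (u2 * a) * Y) =
      1000 * (Ac * h ^ 2 * (1 / (u2 * a) * Y)) := by ring
  have g9 : 20000 * Ac * (h : ℝ) ^ 2 * arcE A b lam a u1 u2 (al a0 u1) (be b0 u2 h a) M =
      20000 * (Ac * h ^ 2) * arcE A b lam a u1 u2 (al a0 u1) (be b0 u2 h a) M := by ring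
  have g10 : 20000 * (Ac * (h : ℝ) ^ 2) * (1 / a * Z + 1 / (u2 * a) * Y) =
      20000 * (Ac * h ^ 2 * (1 / a * Z)) + 20000 * (Ac * h ^ 2 * (1 / (u2 * a) * Y)) := by ring
  rw [g8] at hXY
  rw [g10] at g1
  rw [g7, g9]
  linarith

end Pool.Agent.Lib.HBP
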