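import Mathlib
import Pool.Agent.Lib.HBP.PartSum
import Pool.Agent.Lib.HBP.NlF
import Pool.Agent.Lib.HBP.StrFast

/-!
MODULE CsC: the identity strand at the columns `al l` (column `al l` in row `al l`).

PROOF.  Notation and step (1) as in CsA (with `r l = al l`): error `≤ B (3 + 90 Ac h² (1/a) ∑_l psi (u (al l)))`.
(2) `W l = (A (al l) + al l b)/B`, `W (l+1) = W l + s (16/a) + ν l`, `s = κ1 u1 ≥ 1/4` (`b 16 u1/B = 16 u1/(a u2)`,
`b λ 16 u1/B = λ u1/u2 · 16/a`, sum `= κ1 u1 · 16/a`, and `κ1 u1 ≥ λ u1/u2 ≥ 1/4`),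
`ν l = (lamh/(u1 a)) ∑_{Ico (al l) (al (l+1))} (u x - 1)`.
`strand_fast` with `δ = 16/a`, `s0 = s1 = s`, `ε = 1`, `m = M`, `D1 = 8 h² s`; the term `l = M` is `≤ 2δ`.
Multiply by `κ1/16`: `(κ1/16)(1/s) = 1/(16 u1)`, `√D1 = √8 h √s`, and `(κ1/16)(1/s) √s ≤ κ1/(16 √s) ≤ 5/8`
(`s ≥ 1/4`); so `≤ 8 (2+√N) + 250 (N/w) h + 9 ∑|ν l| + (κ1/16)(M δ · 12 √(s δ) + 2δ)`; the last part is
`≤ 1` (`s ≤ 5 u1`, `a ≥ 10^12 h^8 u1^4`).
`9 ∑|ν l| ≤ (36/(u1 a)) ∑ |u x - 1|`, `36 |u-1| ≤ 36²/(4·12 Ac h²) + 24 Ac h² psi u` (`mul_abs_le`,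
`A = 12 Ac h² ≥ 36`), there are `16 u1 M = 8 u1 a h²` values of `x`: `≤ 216/Ac + 24 Ac h² (1/(u1 a)) ∑ psi`.
-/

namespace Pool.Agent.Lib.HBP

open Finset

private theorem csc_pow {h a u1 u2 : ℕ} (hh : 1 ≤ h) (ha : 10 ^ 12 * h ^ 8 * (u1 * u2) ^ 4 ≤ a)
    (hu2 : 1 ≤ u2) : (10 : ℝ) ^ 12 * (h ^ 4 * u1) ≤ a := by
  have h1 : h ^ 4 * u1 ≤ h ^ 8 * (u1 * u2) ^ 4 := by
    refine Nat.mul_le_mul (Nat.pow_le_pow_right hh (by norm_num)) ?_
    calc u1 = u1 * 1 := (mul_one _).symm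
      _ ≤ u1 * u2 := Nat.mul_le_mul_left _ hu2
      _ ≤ (u1 * u2) ^ 4 := Nat.le_self_pow (by norm_num) _
  have h2 : 10 ^ 12 * (h ^ 4 * u1) ≤ a := by
    refine le_trans ?_ ha
    rw [mul_assoc (10 ^ 12)]
    exact Nat.mul_le_mul_left _ h1
  exact_mod_cast h2

private theorem csc_one {h a b u1 u2 a0 : ℕ} (hh : 1 ≤ h) (ha2 : 2 ∣ a) (ha : 1 ≤ a)
    (haR : (10 : ℝ) ^ 12 * (h ^ 4 * u1) ≤ a) (hb : 1 ≤ b) (hu1 : 1 ≤ u1)
    (hu2 : 1 ≤ u2) {Ac : ℝ} (hAc : 3 ≤ Ac) (A : ℕ → ℕ) (hA : Monotone A) {lam : ℝ} (hl : 0 < lam)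
    (hl2 : lam / u2 ≤ 4) (hk : (1 + lam) / u2 ≤ 5) (V : Finset ℤ) :
    |∑ l ∈ range (Mh h a + 1),
        csum (fun v => Th V ((v : ℝ) / (a * u2 * b))) A b (al a0 u1 l) (al a0 u1 l) -
      (a * u2 * b : ℝ) * ((1 + lam) / (a * u2)) * ∑ l ∈ range (Mh h a + 1),
        Th V (((A (al a0 u1 l) : ℝ) + al a0 u1 l * b) / (a * u2 * b))| ≤
    (a * u2 * b : ℝ) * (3 + 33 * Ac * h ^ 2 *
      (1 / a * ∑ l ∈ range (Mh h a + 1), psi (du A b lam (al a0 u1 l)))) := by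
  have haP : (0 : ℝ) < a := by exact_mod_cast ha
  have hhR : (1 : ℝ) ≤ h := by exact_mod_cast hh
  have hhP : (0 : ℝ) < h := by linarith
  have hu1R : (1 : ℝ) ≤ u1 := by exact_mod_cast hu1
  have hu2P : (0 : ℝ) < u2 := by exact_mod_cast hu2
  have hh2 : (1 : ℝ) ≤ (h : ℝ) ^ 2 := one_le_pow₀ hhR
  have hAcP : (0 : ℝ) < Ac := by linarith
  have hAh : 3 ≤ Ac * h ^ 2 := by nlinarith
  refine (part_sum ha hb hu2 A hA hl V (Mh h a + 1) (fun l => al a0 u1 l)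
    (fun l => al a0 u1 l)).trans ?_
  refine mul_le_mul_of_nonneg_left ?_ (by positivity)
  have hkap : (1 + lam) / (a * u2) ≤ 5 / a := by
    have : (1 + lam) / (a * u2) = (1 + lam) / u2 / a := by field_simp
    rw [this]
    exact div_le_div_of_nonneg_right hk haP.le
  have hkap0 : 0 < (1 + lam) / (a * u2) := by positivity
  have hsq : √((1 + lam) / (a * u2)) ≤ 1 / (60 * h ^ 2) := by
    refine (Real.sqrt_le_sqrt hkap).trans ?_
    refine Real.sqrt_le_iff.2 ⟨by positivity, ?_⟩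
    rw [div_pow, one_pow, div_le_div_iff₀ haP (by positivity)]
    have h4 : (0 : ℝ) < (h : ℝ) ^ 4 := by positivity
    nlinarith [mul_le_mul_of_nonneg_left hu1R h4.le]
  have hterm : ∀ l ∈ range (Mh h a + 1), 2 * lam / (a * u2) * |du A b lam (al a0 u1 l) - 1| +
      12 * ((1 + lam) / (a * u2) * √((1 + lam) / (a * u2))) +
      16 * ((1 + lam) / (a * u2)) * psi (du A b lam (al a0 u1 l)) ≤
      (1 / a * (64 / (12 * (Ac * h ^ 2))) + 1 / (h ^ 2 * a)) +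
        33 * Ac * h ^ 2 * (1 / a) * psi (du A b lam (al a0 u1 l)) := by
    intro l _
    have hu0 := du_nonneg (b := b) A hA hl (al a0 u1 l)
    have hp0 := psi_nonneg (du A b lam (al a0 u1 l))
    set u := du A b lam (al a0 u1 l) with hu
    have h1 : 2 * lam / (a * u2) * |u - 1| ≤
        1 / a * (8 ^ 2 / (4 * (3 * (Ac * h ^ 2))) + 2 * (3 * (Ac * h ^ 2)) * psi u) := by
      have h2 : 2 * lam / (a * u2) * |u - 1| = 1 / a * (2 * (lam / u2) * |u - 1|) := by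
        field_simp
      rw [h2]
      refine mul_le_mul_of_nonneg_left ?_ (by positivity)
      refine le_trans ?_ (mul_abs_le hu0 (by norm_num : (0 : ℝ) ≤ 8)
        (by positivity : 0 < 3 * (Ac * h ^ 2)) (by linarith))
      exact mul_le_mul_of_nonneg_right (by linarith) (abs_nonneg _)
    have h3 : 12 * ((1 + lam) / (a * u2) * √((1 + lam) / (a * u2))) ≤ 1 / (h ^ 2 * a) := by
      have h4 : (1 + lam) / (a * u2) * √((1 + lam) / (a * u2)) ≤ 5 / a * (1 / (60 * h ^ 2)) :=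
        mul_le_mul hkap hsq (Real.sqrt_nonneg _) (by positivity)
      calc 12 * ((1 + lam) / (a * u2) * √((1 + lam) / (a * u2)))
          ≤ 12 * (5 / a * (1 / (60 * h ^ 2))) := by linarith
        _ = 1 / (h ^ 2 * a) := by field_simp; norm_num
    have h5 : 16 * ((1 + lam) / (a * u2)) * psi u ≤ 27 * (Ac * h ^ 2) * (1 / a) * psi u := by
      refine mul_le_mul_of_nonneg_right ?_ hp0
      have h6 : 16 * ((1 + lam) / (a * u2)) ≤ 16 * (5 / a) := by linarith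
      have h7 : 16 * (5 / (a : ℝ)) = 80 * (1 / a) := by ring
      have h8 : 80 * (1 / (a : ℝ)) ≤ 27 * (Ac * h ^ 2) * (1 / a) :=
        mul_le_mul_of_nonneg_right (by linarith) (by positivity)
      linarith
    have h9 : 1 / (a : ℝ) * (8 ^ 2 / (4 * (3 * (Ac * h ^ 2))) + 2 * (3 * (Ac * h ^ 2)) * psi u) =
        1 / a * (64 / (12 * (Ac * h ^ 2))) + 6 * (Ac * h ^ 2) * (1 / a) * psi u := by
      rw [mul_add]
      congr 1
      · congr 1
        rw [show 4 * (3 * (Ac * h ^ 2)) = 12 * (Ac * h ^ 2) by ring]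
        norm_num
      · ring
    rw [h9] at h1
    have h10 : 33 * Ac * h ^ 2 * (1 / a) * psi u =
        6 * (Ac * h ^ 2) * (1 / a) * psi u + 27 * (Ac * h ^ 2) * (1 / a) * psi u := by ring
    linarith
  refine (sum_le_sum hterm).trans ?_
  rw [sum_add_distrib, sum_const, card_range, ← mul_sum, nsmul_eq_mul]
  have hM : ((Mh h a + 1 : ℕ) : ℝ) ≤ h ^ 2 * a := by
    push_cast
    rw [Mh_cast ha2]
    have h1 : (2 : ℝ) ≤ h ^ 2 * a := by
      have h2 : (2 : ℝ) ≤ a := by exact_mod_cast Nat.le_of_dvd ha ha2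
      nlinarith
    linarith
  have hc : ((Mh h a + 1 : ℕ) : ℝ) * (1 / a * (64 / (12 * (Ac * h ^ 2))) + 1 / (h ^ 2 * a)) ≤ 3 := by
    have h1 : ((Mh h a + 1 : ℕ) : ℝ) * (1 / a * (64 / (12 * (Ac * h ^ 2))) + 1 / (h ^ 2 * a)) ≤
        h ^ 2 * a * (1 / a * (64 / (12 * (Ac * h ^ 2))) + 1 / (h ^ 2 * a)) :=
      mul_le_mul_of_nonneg_right hM (by positivity)
    have h2 : (h : ℝ) ^ 2 * a * (1 / a * (64 / (12 * (Ac * h ^ 2))) + 1 / (h ^ 2 * a)) =
        64 / (12 * Ac) + 1 := by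
      field_simp
    have h3 : 64 / (12 * Ac) ≤ 2 := by
      rw [div_le_iff₀ (by positivity)]
      linarith
    linarith
  have he : 33 * Ac * h ^ 2 * (1 / a) * ∑ i ∈ range (Mh h a + 1), psi (du A b lam (al a0 u1 i)) =
      33 * Ac * h ^ 2 * (1 / a * ∑ i ∈ range (Mh h a + 1), psi (du A b lam (al a0 u1 i))) := by
    ring
  rw [he]
  linarith

private theorem csc_two {h a b u1 u2 a0 w N : ℕ} (hh : 1 ≤ h) (ha2 : 2 ∣ a) (ha : 1 ≤ a)
    (haR : (10 : ℝ) ^ 12 * (h ^ 4 * u1) ≤ a) (hb : 1 ≤ b) (hu1 : 1 ≤ u1)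
    (hu2 : 1 ≤ u2) {Ac : ℝ} (hAc : 3 ≤ Ac) (A : ℕ → ℕ) (hA : Monotone A) {lam : ℝ} (hl : 0 < lam)
    (hl1 : 1 / 4 ≤ lam * u1 / u2) (hl2 : lam * u1 / u2 ≤ 4)
    (hk : (1 + lam) / u2 ≤ 5) (V : Finset ℤ) (hw : 1 ≤ w) (hs : Sparse V w N) :
    |(1 + lam) / (a * u2) * ∑ l ∈ range (Mh h a + 1),
        Th V (((A (al a0 u1 l) : ℝ) + al a0 u1 l * b) / (a * u2 * b))| ≤
    17 + 8 * √N + 53 * (N * h / w) + 182 / Ac + 24 * Ac * h ^ 2 *
      (1 / (u1 * a) * ∑ x ∈ Finset.Ico (al a0 u1 0) (al a0 u1 (Mh h a)), psi (du A b lam x)) := by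
  have haP : (0 : ℝ) < a := by exact_mod_cast ha
  have hbP : (0 : ℝ) < b := by exact_mod_cast hb
  have hhR : (1 : ℝ) ≤ h := by exact_mod_cast hh
  have hhP : (0 : ℝ) < h := by linarith
  have hu1R : (1 : ℝ) ≤ u1 := by exact_mod_cast hu1
  have hu1P : (0 : ℝ) < u1 := by linarith
  have hu2R : (1 : ℝ) ≤ u2 := by exact_mod_cast hu2
  have hu2P : (0 : ℝ) < u2 := by linarith
  have hwP : (0 : ℝ) < w := by exact_mod_cast hw
  have hh2 : (1 : ℝ) ≤ (h : ℝ) ^ 2 := one_le_pow₀ hhR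
  have hAcP : (0 : ℝ) < Ac := by linarith
  have hAh : 3 ≤ Ac * h ^ 2 := by nlinarith
  have hM := Mh_cast (h := h) ha2
  set M := Mh h a with hMdef
  set W : ℕ → ℝ := fun l => ((A (al a0 u1 l) : ℝ) + al a0 u1 l * b) / (a * u2 * b) with hW
  set δ : ℝ := 16 / a with hδ
  have hδP : 0 < δ := by positivity
  set k1 : ℝ := (1 + lam) / u2 with hk1
  have hk1P : 0 < k1 := by positivity
  set s : ℝ := k1 * u1 with hsdef
  have hs1 : 1 / 4 ≤ s := by
    have h1 : s = u1 / u2 + lam * u1 / u2 := by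
      rw [hsdef, hk1]
      ring
    have h2 : (0 : ℝ) < u1 / u2 := by positivity
    linarith
  have hsP : 0 < s := by linarith
  have hs5 : s ≤ 5 * u1 := mul_le_mul_of_nonneg_right hk hu1P.le
  set ν : ℕ → ℝ := fun l => lam / (a * u2) *
    ∑ x ∈ Finset.Ico (al a0 u1 l) (al a0 u1 (l + 1)), (du A b lam x - 1) with hν
  have hal : ∀ l, al a0 u1 l ≤ al a0 u1 (l + 1) := by
    intro l
    unfold al
    have : 16 * u1 * l ≤ 16 * u1 * (l + 1) := Nat.mul_le_mul_left _ (Nat.le_succ l)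
    omega
  have hstep : ∀ l < M, W (l + 1) = W l + 1 * s * δ + ν l := by
    intro l _
    have h1 := A_sub hb A hA hl (hal l)
    have h2 : ∑ x ∈ Finset.Ico (al a0 u1 l) (al a0 u1 (l + 1)), (du A b lam x - 1) =
        ∑ x ∈ Finset.Ico (al a0 u1 l) (al a0 u1 (l + 1)), du A b lam x - 16 * u1 := by
      rw [sum_sub_distrib, sum_const, Nat.card_Ico, nsmul_eq_mul, mul_one]
      congr 1
      have h3 : al a0 u1 (l + 1) - al a0 u1 l = 16 * u1 := by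
        unfold al
        rw [Nat.mul_succ]
        omega
      rw [h3]
      push_cast
      ring
    have h4 : ((al a0 u1 (l + 1) : ℕ) : ℝ) = al a0 u1 l + 16 * u1 := by
      unfold al
      push_cast
      ring
    simp only [hW, hν]
    rw [h2, h4, hsdef, hk1, hδ]
    have h5 : (A (al a0 u1 (l + 1)) : ℝ) = A (al a0 u1 l) +
        b * lam * ∑ z ∈ Finset.Ico (al a0 u1 l) (al a0 u1 (l + 1)), du A b lam z := by
      linarith
    rw [h5]
    field_simp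
    ring
  have hD : ∑ l ∈ range M, (fun _ : ℕ => s) l * δ ≤ 8 * h ^ 2 * s := by
    rw [sum_const, card_range, nsmul_eq_mul, hM, hδ]
    apply le_of_eq
    field_simp
    ring
  have hsf := strand_fast hδP hsP (Or.inl rfl) V hw hs M W ν (fun _ => s)
    (fun l _ => ⟨le_refl s, le_refl s⟩) (Or.inl fun _ _ _ _ => le_refl s) hstep
    (by positivity) hD
  -- sum of `ν`
  have hνs : ∑ l ∈ range M, |ν l| ≤
      lam / (a * u2) * ∑ x ∈ Finset.Ico (al a0 u1 0) (al a0 u1 M), |du A b lam x - 1| := by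
    have h1 : ∀ m, ∑ l ∈ range m, ∑ x ∈ Finset.Ico (al a0 u1 l) (al a0 u1 (l + 1)),
        |du A b lam x - 1| = ∑ x ∈ Finset.Ico (al a0 u1 0) (al a0 u1 m), |du A b lam x - 1| := by
      intro m
      induction m with
      | zero => simp
      | succ n ih =>
        rw [sum_range_succ, ih]
        refine sum_Ico_consecutive _ ?_ (hal n)
        unfold al
        simp
    rw [← h1, mul_sum]
    refine sum_le_sum fun l _ => ?_
    simp only [hν]
    rw [abs_mul, abs_of_pos (by positivity : 0 < lam / (a * u2))]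
    exact mul_le_mul_of_nonneg_left (abs_sum_le_sum_abs _ _) (by positivity)
  have hE : ∑ x ∈ Finset.Ico (al a0 u1 0) (al a0 u1 M), (33 * |du A b lam x - 1|) ≤
      8 * u1 * a * h ^ 2 * (33 ^ 2 / (4 * (12 * (Ac * h ^ 2)))) +
      2 * (12 * (Ac * h ^ 2)) * ∑ x ∈ Finset.Ico (al a0 u1 0) (al a0 u1 M), psi (du A b lam x) := by
    have h1 : ∀ x ∈ Finset.Ico (al a0 u1 0) (al a0 u1 M), 33 * |du A b lam x - 1| ≤
        33 ^ 2 / (4 * (12 * (Ac * h ^ 2))) + 2 * (12 * (Ac * h ^ 2)) * psi (du A b lam x) :=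
      fun x _ => mul_abs_le (du_nonneg A hA hl x) (by norm_num) (by positivity) (by linarith)
    refine (sum_le_sum h1).trans ?_
    rw [sum_add_distrib, sum_const, Nat.card_Ico, nsmul_eq_mul, ← mul_sum]
    refine add_le_add (le_of_eq ?_) le_rfl
    congr 1
    have h3 : al a0 u1 M - al a0 u1 0 = 16 * u1 * M := by
      unfold al
      omega
    rw [h3]
    push_cast
    rw [hM]
    ring
  have hSν0 : 0 ≤ ∑ l ∈ range M, |ν l| := sum_nonneg fun _ _ => abs_nonneg _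
  set Sν := ∑ l ∈ range M, |ν l| with hSν
  set Sd := ∑ x ∈ Finset.Ico (al a0 u1 0) (al a0 u1 M), |du A b lam x - 1| with hSd
  have hSd0 : 0 ≤ Sd := sum_nonneg fun _ _ => abs_nonneg _
  set Sp := ∑ x ∈ Finset.Ico (al a0 u1 0) (al a0 u1 M), psi (du A b lam x) with hSp
  rw [← mul_sum, ← hSd] at hE
  have hν2 : 130 / (16 * u1) * Sν ≤ 182 / Ac + 24 * Ac * h ^ 2 * (1 / (u1 * a) * Sp) := by
    have hlu : lam / u2 ≤ 4 := by
      have h1 : lam / u2 ≤ lam * u1 / u2 := by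
        rw [mul_div_right_comm]
        exact le_mul_of_one_le_right (by positivity) hu1R
      linarith
    have h1 : 130 / (16 * u1) * Sν ≤ 130 / (16 * u1) * (lam / (a * u2) * Sd) :=
      mul_le_mul_of_nonneg_left hνs (by positivity)
    have h2 : 130 / (16 * u1) * (lam / (a * u2) * Sd) = 130 / 16 * (lam / u2) * (1 / (u1 * a) * Sd) := by
      field_simp
    have h3 : 130 / 16 * (lam / u2) * (1 / (u1 * a) * Sd) ≤ 33 * (1 / (u1 * a) * Sd) :=
      mul_le_mul_of_nonneg_right (by linarith) (by positivity)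
    have h4 : 33 * (1 / (u1 * a) * Sd) = 1 / (u1 * a) * (33 * Sd) := by ring
    have h5 : 1 / (u1 * a) * (33 * Sd) ≤ 1 / (u1 * a) *
        (8 * u1 * a * h ^ 2 * (33 ^ 2 / (4 * (12 * (Ac * h ^ 2)))) + 2 * (12 * (Ac * h ^ 2)) * Sp) :=
      mul_le_mul_of_nonneg_left hE (by positivity)
    have h6 : 1 / (u1 * a) *
        (8 * u1 * a * h ^ 2 * (33 ^ 2 / (4 * (12 * (Ac * h ^ 2)))) + 2 * (12 * (Ac * h ^ 2)) * Sp) =
        (8 * 33 ^ 2 / 48) / Ac + 24 * Ac * h ^ 2 * (1 / (u1 * a) * Sp) := by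
      field_simp
      ring
    have h7 : ((8 * 33 ^ 2 / 48 : ℝ)) / Ac ≤ 182 / Ac :=
      div_le_div_of_nonneg_right (by norm_num) hAcP.le
    linarith
  have hrew : (1 + lam) / (a * u2) * ∑ l ∈ range (M + 1), Th V (W l) =
      k1 / 16 * ∑ l ∈ range M, δ * Th V (W l) + k1 / 16 * (δ * Th V (W M)) := by
    rw [← mul_add, ← sum_range_succ (fun l => δ * Th V (W l)) M, ← mul_sum, ← mul_assoc]
    congr 1
    rw [hk1, hδ]
    field_simp
  have hgoal : ∑ l ∈ range (M + 1), Th V (((A (al a0 u1 l) : ℝ) + al a0 u1 l * b) / (a * u2 * b)) =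
      ∑ l ∈ range (M + 1), Th V (W l) := rfl
  rw [hgoal, hrew]
  have hlast : |k1 / 16 * (δ * Th V (W M))| ≤ 1 := by
    rw [abs_mul, abs_mul, abs_of_pos (by positivity : 0 < k1 / 16), abs_of_pos hδP]
    have h1 := abs_Th_le V (W M)
    have h2 : k1 / 16 * (δ * |Th V (W M)|) ≤ 5 / 16 * (16 / a * 2) := by
      refine mul_le_mul (by linarith) ?_ (by positivity) (by norm_num)
      exact mul_le_mul_of_nonneg_left h1 (by positivity)
    have h3 : 5 / 16 * (16 / (a : ℝ) * 2) ≤ 1 := by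
      have h4 : 5 / 16 * (16 / (a : ℝ) * 2) = 10 / a := by ring
      rw [h4, div_le_one haP]
      have h5 : (1 : ℝ) ≤ (h : ℝ) ^ 4 * u1 := by
        have := one_le_pow₀ hhR (n := 4)
        nlinarith
      nlinarith
    linarith
  have hsq1 : √(8 * h ^ 2 * s) ≤ 7 * h * u1 := by
    refine Real.sqrt_le_iff.2 ⟨by positivity, ?_⟩
    have h1 : 8 * (h : ℝ) ^ 2 * s ≤ 8 * h ^ 2 * (5 * u1) :=
      mul_le_mul_of_nonneg_left hs5 (by positivity)
    have h2 : (u1 : ℝ) ≤ u1 ^ 2 := by nlinarith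
    have h3 : (h : ℝ) ^ 2 * u1 ≤ h ^ 2 * u1 ^ 2 := mul_le_mul_of_nonneg_left h2 (by positivity)
    have h4 : 0 ≤ (h : ℝ) ^ 2 * u1 ^ 2 := by positivity
    nlinarith
  have hsq2 : √(s * δ) ≤ 1 / (30 * h ^ 2) := by
    refine Real.sqrt_le_iff.2 ⟨by positivity, ?_⟩
    have h1 : s * δ ≤ 5 * u1 * (16 / a) := mul_le_mul_of_nonneg_right hs5 hδP.le
    refine h1.trans ?_
    rw [div_pow, one_pow, show 5 * (u1 : ℝ) * (16 / a) = 80 * u1 / a by ring,
      div_le_div_iff₀ haP (by positivity)]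
    have h2 : 0 ≤ (h : ℝ) ^ 4 * u1 := by positivity
    nlinarith
  have hmain : |k1 / 16 * ∑ l ∈ range M, δ * Th V (W l)| ≤
      k1 / 16 * (1 / s * (120 * (2 + √N + N / w * √(8 * h ^ 2 * s)) + 130 * Sν) +
        M * δ * (12 * √(s * δ))) := by
    rw [abs_mul, abs_of_pos (by positivity : 0 < k1 / 16)]
    exact mul_le_mul_of_nonneg_left hsf (by positivity)
  have hp1 : k1 / 16 * (M * δ * (12 * √(s * δ))) ≤ 1 := by
    have h1 : (M : ℝ) * δ = 8 * h ^ 2 := by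
      rw [hM, hδ]
      field_simp
      norm_num
    rw [h1]
    have h2 : 8 * (h : ℝ) ^ 2 * (12 * √(s * δ)) ≤ 8 * h ^ 2 * (12 * (1 / (30 * h ^ 2))) :=
      mul_le_mul_of_nonneg_left (by linarith) (by positivity)
    have h3 : 8 * (h : ℝ) ^ 2 * (12 * (1 / (30 * h ^ 2))) = 96 / 30 := by
      field_simp
      norm_num
    have h4 : k1 / 16 * (8 * (h : ℝ) ^ 2 * (12 * √(s * δ))) ≤ 5 / 16 * (96 / 30) :=
      mul_le_mul (by linarith) (by linarith) (by positivity) (by norm_num)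
    linarith
  have hp2 : k1 / 16 * (1 / s * (120 * (2 + √N + N / w * √(8 * h ^ 2 * s)) + 130 * Sν)) ≤
      15 + 8 * √N + 53 * (N * h / w) + 130 / (16 * u1) * Sν := by
    have h1 : k1 / 16 * (1 / s * (120 * (2 + √N + N / w * √(8 * h ^ 2 * s)) + 130 * Sν)) =
        1 / (16 * u1) * (120 * (2 + √N + N / w * √(8 * h ^ 2 * s))) + 130 / (16 * u1) * Sν := by
      rw [hsdef]
      field_simp
    have h2 : 1 / (16 * (u1 : ℝ)) * (120 * (2 + √N + N / w * √(8 * h ^ 2 * s))) ≤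
        1 / (16 * u1) * (120 * (2 + √N + N / w * (7 * h * u1))) := by
      refine mul_le_mul_of_nonneg_left ?_ (by positivity)
      have : (N : ℝ) / w * √(8 * h ^ 2 * s) ≤ N / w * (7 * h * u1) :=
        mul_le_mul_of_nonneg_left hsq1 (by positivity)
      linarith
    have h3 : 1 / (16 * (u1 : ℝ)) * (120 * (2 + √N + N / w * (7 * h * u1))) =
        1 / u1 * (15 + 15 / 2 * √N) + 105 / 2 * (N * h / w) := by
      field_simp
      ring
    have h4 : 1 / (u1 : ℝ) * (15 + 15 / 2 * √N) ≤ 1 * (15 + 15 / 2 * √N) := by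
      refine mul_le_mul_of_nonneg_right ?_ (by positivity)
      rw [div_le_one hu1P]
      exact hu1R
    have h5 : (0 : ℝ) ≤ √N := Real.sqrt_nonneg _
    have h6 : (0 : ℝ) ≤ N * h / w := by positivity
    rw [h1]
    linarith
  refine (abs_add_le _ _).trans ?_
  have hfin : k1 / 16 * (1 / s * (120 * (2 + √N + N / w * √(8 * h ^ 2 * s)) + 130 * Sν) +
        M * δ * (12 * √(s * δ))) =
      k1 / 16 * (1 / s * (120 * (2 + √N + N / w * √(8 * h ^ 2 * s)) + 130 * Sν)) +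
      k1 / 16 * (M * δ * (12 * √(s * δ))) := by ring
  rw [hfin] at hmain
  linarith

theorem cs_C {h a b u1 u2 a0 b0 w N : ℕ} (hh : 1 ≤ h) (ha2 : 2 ∣ a)
    (ha : 10 ^ 12 * h ^ 8 * (u1 * u2) ^ 4 ≤ a) (hb : 1 ≤ b) (hu : u1 = 1 ∨ u2 = 1) (hu1 : 1 ≤ u1)
    (hu2 : 1 ≤ u2) {Ac : ℝ} (hAc : 3 ≤ Ac) (A : ℕ → ℕ) (hA : Monotone A) {lam : ℝ}
    (hl1 : 1 / 4 ≤ lam * u1 / u2) (hl2 : lam * u1 / u2 ≤ 4) (V : Finset ℤ) (hw : 1 ≤ w)
    (hs : Sparse V w N) :
    |∑ l ∈ range (Mh h a + 1),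
      csum (fun v => Th V ((v : ℝ) / (a * u2 * b))) A b (al a0 u1 l) (al a0 u1 l)| ≤
    (a : ℝ) * u2 * b * (5000 * (1 + √N + N * h / w + h / Ac) +
      5000 * Ac * h ^ 2 * arcE A b lam a u1 u2 (al a0 u1) (be b0 u2 h a) (Mh h a)) := by
  have hpow := csc_pow hh ha hu2
  have ha1 : 1 ≤ a := by
    refine le_trans ?_ ha
    have h1 : 1 ≤ h ^ 8 := Nat.one_le_pow _ _ hh
    have h2 : 1 ≤ (u1 * u2) ^ 4 := Nat.one_le_pow _ _ (Nat.mul_le_mul hu1 hu2)
    calc 1 = 1 * 1 * 1 := rfl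
      _ ≤ 10 ^ 12 * h ^ 8 * (u1 * u2) ^ 4 :=
        Nat.mul_le_mul (Nat.mul_le_mul (by norm_num) h1) h2
  have haP : (0 : ℝ) < a := by exact_mod_cast ha1
  have hbP : (0 : ℝ) < b := by exact_mod_cast hb
  have hhR : (1 : ℝ) ≤ h := by exact_mod_cast hh
  have hu1R : (1 : ℝ) ≤ u1 := by exact_mod_cast hu1
  have hu1P : (0 : ℝ) < u1 := by linarith
  have hu2R : (1 : ℝ) ≤ u2 := by exact_mod_cast hu2
  have hu2P : (0 : ℝ) < u2 := by linarith
  have hwP : (0 : ℝ) < w := by exact_mod_cast hw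
  have hAcP : (0 : ℝ) < Ac := by linarith
  have hl : 0 < lam := by
    by_contra hneg
    rw [not_lt] at hneg
    have h1 : lam * u1 / u2 ≤ 0 :=
      div_nonpos_of_nonpos_of_nonneg (mul_nonpos_of_nonpos_of_nonneg hneg hu1P.le) hu2P.le
    linarith
  have hlu : lam / u2 ≤ 4 := by
    have h1 : lam / u2 ≤ lam * u1 / u2 := by
      rw [mul_div_right_comm]
      exact le_mul_of_one_le_right (by positivity) hu1R
    linarith
  have hk : (1 + lam) / u2 ≤ 5 := by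
    rw [add_div]
    have h1 : 1 / (u2 : ℝ) ≤ 1 := by
      rw [div_le_one hu2P]
      exact hu2R
    linarith
  have e1 := csc_one (a0 := a0) hh ha2 ha1 hpow hb hu1 hu2 hAc A hA hl hlu hk V
  have e2 := csc_two (a0 := a0) hh ha2 ha1 hpow hb hu1 hu2 hAc A hA hl hl1 hl2 hk V hw hs
  set B : ℝ := (a : ℝ) * u2 * b with hB
  have hBP : 0 < B := by positivity
  set S := ∑ l ∈ range (Mh h a + 1),
    Th V (((A (al a0 u1 l) : ℝ) + al a0 u1 l * b) / B) with hS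
  set C := ∑ l ∈ range (Mh h a + 1),
    csum (fun v => Th V ((v : ℝ) / B)) A b (al a0 u1 l) (al a0 u1 l) with hC
  set P1 := 1 / (a : ℝ) * ∑ l ∈ range (Mh h a + 1), psi (du A b lam (al a0 u1 l)) with hP1
  set P2 := 1 / ((u1 : ℝ) * a) * ∑ x ∈ Finset.Ico (al a0 u1 0) (al a0 u1 (Mh h a)),
    psi (du A b lam x) with hP2
  have hP10 : 0 ≤ P1 := mul_nonneg (by positivity) (sum_nonneg fun _ _ => psi_nonneg _)
  have hP20 : 0 ≤ P2 := mul_nonneg (by positivity) (sum_nonneg fun _ _ => psi_nonneg _)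
  have hE : P1 + P2 ≤ arcE A b lam a u1 u2 (al a0 u1) (be b0 u2 h a) (Mh h a) := by
    unfold arcE
    rw [sum_add_distrib, mul_add]
    have h1 : 0 ≤ 1 / (a : ℝ) * ∑ l ∈ range (Mh h a + 1), psi (du A b lam (be b0 u2 h a l)) :=
      mul_nonneg (by positivity) (sum_nonneg fun _ _ => psi_nonneg _)
    have h2 : 0 ≤ 1 / ((u2 : ℝ) * a) * ∑ x ∈ Finset.Ico (be b0 u2 h a (Mh h a)) (be b0 u2 h a 0),
        psi (du A b lam x) :=
      mul_nonneg (by positivity) (sum_nonneg fun _ _ => psi_nonneg _)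
    linarith
  have e3 : |C| ≤ |C - B * ((1 + lam) / (a * u2)) * S| + |B * ((1 + lam) / (a * u2)) * S| := by
    have h1 : C = (C - B * ((1 + lam) / (a * u2)) * S) + B * ((1 + lam) / (a * u2)) * S := by ring
    calc |C| = |(C - B * ((1 + lam) / (a * u2)) * S) + B * ((1 + lam) / (a * u2)) * S| := by
          rw [← h1]
      _ ≤ _ := abs_add_le _ _
  have e4 : |B * ((1 + lam) / (a * u2)) * S| = B * |(1 + lam) / (a * u2) * S| := by
    rw [mul_assoc, abs_mul, abs_of_pos hBP]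
  have e5 : B * |(1 + lam) / (a * u2) * S| ≤
      B * (17 + 8 * √N + 53 * (N * h / w) + 182 / Ac + 24 * Ac * h ^ 2 * P2) :=
    mul_le_mul_of_nonneg_left e2 hBP.le
  rw [e4] at e3
  have e6 : |C| ≤ B * (3 + 33 * Ac * h ^ 2 * P1) +
      B * (17 + 8 * √N + 53 * (N * h / w) + 182 / Ac + 24 * Ac * h ^ 2 * P2) := by
    linarith
  refine e6.trans ?_
  rw [← mul_add]
  refine mul_le_mul_of_nonneg_left ?_ hBP.le
  have hAh : 0 ≤ Ac * (h : ℝ) ^ 2 := by positivity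
  have f1 : 5000 * Ac * (h : ℝ) ^ 2 * (P1 + P2) ≤ 5000 * Ac * h ^ 2 *
      arcE A b lam a u1 u2 (al a0 u1) (be b0 u2 h a) (Mh h a) :=
    mul_le_mul_of_nonneg_left hE (by positivity)
  have f2 : 0 ≤ Ac * (h : ℝ) ^ 2 * P1 := mul_nonneg hAh hP10
  have f3 : 0 ≤ Ac * (h : ℝ) ^ 2 * P2 := mul_nonneg hAh hP20
  have f4 : (0 : ℝ) ≤ √N := Real.sqrt_nonneg _
  have f5 : (0 : ℝ) ≤ N * h / w := by positivity
  have f6 : 182 / Ac ≤ 5000 * (h / Ac) := by
    rw [← mul_div_assoc]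
    exact div_le_div_of_nonneg_right (by linarith) hAcP.le
  have f7 : 33 * Ac * (h : ℝ) ^ 2 * P1 = 33 * (Ac * h ^ 2 * P1) := by ring
  have f8 : 24 * Ac * (h : ℝ) ^ 2 * P2 = 24 * (Ac * h ^ 2 * P2) := by ring
  have f9 : 5000 * Ac * (h : ℝ) ^ 2 * (P1 + P2) =
      5000 * (Ac * h ^ 2 * P1) + 5000 * (Ac * h ^ 2 * P2) := by ring
  rw [f7, f8]
  rw [f9] at f1
  linarith

end Pool.Agent.Lib.HBP
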