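import Mathlib
import Pool.Agent.Lib.HBP.PartSum
import Pool.Agent.Lib.HBP.NlF
import Pool.Agent.Lib.HBP.StrFast

/-!
MODULE CsD: the identity strand at the columns `be l` (column `be l` in row `be l`).

PROOF.  Notation as in CsA, `f x = x/8 + x²/(2h²)`, `x_l = 16 l/a`.  Step (1) with `x l = r l = be l`: error
`≤ B (3 + 90 Ac h² (1/a) ∑_l psi (u (be l)))`.
(2) `W l = (A (be l) + be l b)/B = W' l - (1+λ) 2ρ_l/a`, where
`W' l = const + (λ/(a u2)) ∑_{x ∈ Ico (be M) (be l)} (u x - 1) - (1+λ) f(x_l)` (`A_sub` with `be M ≤ be l`,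
`b (1+λ) 2 u2 Nl/B = (1+λ)(2/a) Nl`, `(2/a)(33h²a/2 - l - 64l²/(ah²)) = 33h² - f(x_l)`, `Nl_eq`).
So `W' (l+1) = W' l - s l δ + ν l`, `δ = 16/a`, `s l = (1+λ)(1/8 + (x_l + δ/2)/h²)` increasing,
`s0 = (1+λ)/8 ≤ s l ≤ 9 (1+λ) = s1`, `|ν l| ≤ (λ/(a u2)) ∑_{Ico (be (l+1)) (be l)} |u x - 1|`
(`be (l+1) ≤ be l` by `Nl_anti`).  `∑ s l δ ≤ (1+λ) f(8h²) = 33 h² (1+λ) =: D1`.
ROUNDING: `|Th V (W l) - Th V (W' l)| ≤ 4 √(2(1+λ)/a)`, total
`(κ1/16)(8h²+δ) 4 √(2(1+λ)/a) ≤ 1` (`1 + λ ≤ 5 u1 u2`, `a ≥ 10^12 h^8 (u1 u2)^4`).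
`strand_fast` (`ε = -1`, `m = M`), term `l = M` separately, multiply by `κ1/16`: `(κ1/16)(1/s0) = 1/(2 u2)`,
`(1/(2 u2)) √D1 ≤ 3 h √(1+λ)/u2 ≤ 7h` (`1 + λ ≤ 5 u2`), so `≤ 60 (2 + √N) + 840 (N/w) h + (65/u2) ∑|ν l| + 1`.
`(65/u2) ∑ |ν l| ≤ (65 λ/u2) (1/(u2 a)) ∑_{Ico (be M) (be 0)} |u x - 1|`, `λ/u2 ≤ 4`;
`260 |u-1| ≤ 260²/(4·100 Ac h²) + 200 Ac h² psi u` (`mul_abs_le`, `A = 100 Ac h² ≥ 300`), there are
`be 0 - be M ≤ 33 u2 h² a` values of `x`: `≤ 5600/Ac + 200 Ac h² (1/(u2 a)) ∑ psi`; `1/Ac ≤ 1/3`.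
-/

namespace Pool.Agent.Lib.HBP

open Finset

private theorem csD_path {h a b u2 b0 : ℕ} (hh : 1 ≤ h) (ha : 1 ≤ a) (ha2 : 2 ∣ a) (hb : 1 ≤ b)
    (hu2 : 1 ≤ u2) (A : ℕ → ℕ) (hA : Monotone A) {lam : ℝ} (hl : 0 < lam) :
    ∃ W' : ℕ → ℝ,
      (∀ l ≤ Mh h a, |((A (be b0 u2 h a l) : ℝ) + (be b0 u2 h a l : ℕ) * b) / (a * u2 * b) - W' l| ≤
        2 * (1 + lam) / a) ∧
      (∀ l < Mh h a, W' (l + 1) = W' l +
        (-1) * ((1 + lam) * (1 / 8 + (16 * (l : ℝ) / a + 8 / a) / (h : ℝ) ^ 2)) * (16 / (a : ℝ)) +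
        (-(lam / (a * u2) * ∑ x ∈ Finset.Ico (be b0 u2 h a (l + 1)) (be b0 u2 h a l),
          (du A b lam x - 1)))) := by
  have haR : (0 : ℝ) < a := by exact_mod_cast ha
  have hbR : (0 : ℝ) < b := by exact_mod_cast hb
  have huR : (0 : ℝ) < u2 := by exact_mod_cast hu2
  have hhR : (0 : ℝ) < h := by exact_mod_cast hh
  refine ⟨fun l => ((A b0 : ℝ) + b0 * b) / (a * u2 * b) + 33 * (h : ℝ) ^ 2 * (1 + lam) +
    lam / (a * u2) * ∑ x ∈ Finset.Ico b0 (be b0 u2 h a l), (du A b lam x - 1) -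
    (1 + lam) * ((16 * (l : ℝ) / a) / 8 + (16 * (l : ℝ) / a) ^ 2 / (2 * (h : ℝ) ^ 2)), ?_, ?_⟩
  · intro l hlM
    obtain ⟨ρ, h0, h1, h2⟩ := Nl_eq hh ha ha2 hlM
    have hle : b0 ≤ be b0 u2 h a l := Nat.le_add_right _ _
    have h3 := A_sub hb A hA hl hle
    have h4 : ∑ z ∈ Finset.Ico b0 (be b0 u2 h a l), du A b lam z =
        ∑ z ∈ Finset.Ico b0 (be b0 u2 h a l), (du A b lam z - 1) + 2 * u2 * (Nl h a l : ℝ) := by
      rw [Finset.sum_sub_distrib, Finset.sum_const, Nat.card_Ico]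
      unfold be
      rw [Nat.add_sub_cancel_left]
      simp
    have h5 : (be b0 u2 h a l : ℝ) = b0 + 2 * u2 * (Nl h a l : ℝ) := by
      unfold be
      push_cast
      ring
    have h6 : (A (be b0 u2 h a l) : ℝ) = A b0 + b * lam *
        (∑ z ∈ Finset.Ico b0 (be b0 u2 h a l), (du A b lam z - 1) + 2 * u2 * (Nl h a l : ℝ)) := by
      rw [← h4]
      linarith
    have h7 : ((A (be b0 u2 h a l) : ℝ) + (be b0 u2 h a l : ℕ) * b) / (a * u2 * b) -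
        (((A b0 : ℝ) + b0 * b) / (a * u2 * b) + 33 * (h : ℝ) ^ 2 * (1 + lam) +
        lam / (a * u2) * ∑ x ∈ Finset.Ico b0 (be b0 u2 h a l), (du A b lam x - 1) -
        (1 + lam) * ((16 * (l : ℝ) / a) / 8 + (16 * (l : ℝ) / a) ^ 2 / (2 * (h : ℝ) ^ 2))) =
        -(2 * (1 + lam) / a * ρ) := by
      rw [h6, h5, h2]
      generalize ∑ z ∈ Finset.Ico b0 (be b0 u2 h a l), (du A b lam z - 1) = S
      field_simp
      ring
    rw [h7, abs_neg, abs_of_nonneg (by positivity)]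
    have h8 : 0 ≤ 2 * (1 + lam) / a := by positivity
    nlinarith
  · intro l hlM
    have h1 : be b0 u2 h a (l + 1) ≤ be b0 u2 h a l := by
      unfold be
      have := (Nl_anti hh ha ha2 (Nat.lt_succ_self l) hlM).le
      gcongr
    have h2 := Finset.sum_Ico_consecutive (fun x => du A b lam x - 1)
      (show b0 ≤ be b0 u2 h a (l + 1) from Nat.le_add_right _ _) h1
    simp only
    rw [← h2]
    push_cast
    generalize ∑ z ∈ Finset.Ico b0 (be b0 u2 h a (l + 1)), (du A b lam z - 1) = S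
    generalize ∑ z ∈ Finset.Ico (be b0 u2 h a (l + 1)) (be b0 u2 h a l), (du A b lam z - 1) = T
    field_simp
    ring

private theorem csD_tel (g : ℕ → ℝ) (be : ℕ → ℕ) (M : ℕ) (hbe : ∀ l < M, be (l + 1) ≤ be l) :
    ∀ m ≤ M, be m ≤ be 0 ∧ ∑ l ∈ range m, ∑ x ∈ Finset.Ico (be (l + 1)) (be l), g x =
      ∑ x ∈ Finset.Ico (be m) (be 0), g x := by
  intro m
  induction m with
  | zero => intro _; simp
  | succ m ih =>
    intro hm
    obtain ⟨h1, h2⟩ := ih (by omega)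
    have h3 := hbe m (by omega)
    refine ⟨h3.trans h1, ?_⟩
    rw [Finset.sum_range_succ, h2, add_comm]
    exact Finset.sum_Ico_consecutive g h3 h1

private theorem csD_sqrt {x c r e : ℝ} (hc : 0 ≤ c) (he : 0 ≤ e) (hr : r ≤ e ^ 2)
    (hx : x ≤ c ^ 2 * r) : √x ≤ c * e := by
  refine Real.sqrt_le_iff.2 ⟨by positivity, ?_⟩
  rw [mul_pow]
  exact hx.trans (mul_le_mul_of_nonneg_left hr (by positivity))

private theorem csD_tele2 {h a : ℕ} (hh : 1 ≤ h) (ha : 1 ≤ a) (lam : ℝ) (m : ℕ) :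
    ∑ l ∈ range m, ((1 + lam) * (1 / 8 + (16 * (l : ℝ) / a + 8 / a) / (h : ℝ) ^ 2)) * (16 / (a : ℝ)) =
      (1 + lam) * ((16 * (m : ℝ) / a) / 8 + (16 * (m : ℝ) / a) ^ 2 / (2 * (h : ℝ) ^ 2)) := by
  have haR : (0 : ℝ) < a := by exact_mod_cast ha
  have hhR : (0 : ℝ) < h := by exact_mod_cast hh
  induction m with
  | zero => simp
  | succ m ih =>
    rw [Finset.sum_range_succ, ih]
    push_cast
    field_simp
    ring

/-- Energy of the path. -/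
private theorem csD_en {h a b u2 b0 : ℕ} (hh : 1 ≤ h) (ha : 1 ≤ a) (ha2 : 2 ∣ a)
    (hu2 : 1 ≤ u2) {Ac : ℝ} (hAc : 3 ≤ Ac) (A : ℕ → ℕ) (hA : Monotone A) {lam : ℝ} (hl : 0 < lam)
    (hl4 : lam ≤ 4 * u2) :
    65 / (u2 : ℝ) * ∑ l ∈ range (Mh h a), |(-(lam / (a * u2) *
      ∑ x ∈ Finset.Ico (be b0 u2 h a (l + 1)) (be b0 u2 h a l), (du A b lam x - 1)))| ≤
      1859 + 200 * Ac * (h : ℝ) ^ 2 * (1 / ((u2 : ℝ) * a) *
        ∑ x ∈ Finset.Ico (be b0 u2 h a (Mh h a)) (be b0 u2 h a 0), psi (du A b lam x)) := by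
  have haR : (0 : ℝ) < a := by exact_mod_cast ha
  have huR : (0 : ℝ) < u2 := by exact_mod_cast hu2
  have hhR : (1 : ℝ) ≤ h := by exact_mod_cast hh
  have hh0 : (0 : ℝ) < h := by linarith
  have hh2 : (1 : ℝ) ≤ (h : ℝ) ^ 2 := one_le_pow₀ hhR
  have h1 : ∀ l < Mh h a, be b0 u2 h a (l + 1) ≤ be b0 u2 h a l := by
    intro l hlM
    unfold be
    have := (Nl_anti hh ha ha2 (Nat.lt_succ_self l) hlM).le
    gcongr
  have h2 := csD_tel (fun x => |du A b lam x - 1|) (be b0 u2 h a) (Mh h a) h1 (Mh h a) le_rfl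
  have h3 : ∑ l ∈ range (Mh h a), |(-(lam / (a * u2) *
      ∑ x ∈ Finset.Ico (be b0 u2 h a (l + 1)) (be b0 u2 h a l), (du A b lam x - 1)))| ≤
      lam / (a * u2) * ∑ x ∈ Finset.Ico (be b0 u2 h a (Mh h a)) (be b0 u2 h a 0),
        |du A b lam x - 1| := by
    rw [← h2.2, Finset.mul_sum]
    refine Finset.sum_le_sum fun l _ => ?_
    rw [abs_neg, abs_mul, abs_of_nonneg (by positivity)]
    exact mul_le_mul_of_nonneg_left (Finset.abs_sum_le_sum_abs _ _) (by positivity)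
  set I := Finset.Ico (be b0 u2 h a (Mh h a)) (be b0 u2 h a 0) with hI
  have h4 : (I.card : ℝ) ≤ 33 * u2 * (h : ℝ) ^ 2 * a := by
    rw [hI, Nat.card_Ico]
    have h5 : be b0 u2 h a 0 - be b0 u2 h a (Mh h a) ≤ 2 * u2 * Nl h a 0 := by
      unfold be
      rw [Nl_M hh ha ha2]
      omega
    have h6 : 2 * Nl h a 0 ≤ 33 * h ^ 2 * a := by
      have := Nl_le h a 0
      omega
    have h7 : be b0 u2 h a 0 - be b0 u2 h a (Mh h a) ≤ 33 * u2 * h ^ 2 * a := by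
      calc _ ≤ 2 * u2 * Nl h a 0 := h5
        _ = u2 * (2 * Nl h a 0) := by ring
        _ ≤ u2 * (33 * h ^ 2 * a) := by gcongr
        _ = _ := by ring
    exact_mod_cast h7
  have h8 : ∀ x ∈ I, 260 * |du A b lam x - 1| ≤ 169 / (Ac * (h : ℝ) ^ 2) +
      200 * Ac * (h : ℝ) ^ 2 * psi (du A b lam x) := by
    intro x _
    have hA0 : 0 < 100 * Ac * (h : ℝ) ^ 2 := by positivity
    have := mul_abs_le (c := 260) (A := 100 * Ac * (h : ℝ) ^ 2) (du_nonneg (b := b) A hA hl x)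
      (by norm_num) hA0 (by nlinarith)
    have h9 : (260 : ℝ) ^ 2 / (4 * (100 * Ac * (h : ℝ) ^ 2)) = 169 / (Ac * (h : ℝ) ^ 2) := by
      field_simp
      norm_num
    rw [h9] at this
    linarith
  have h10 : ∑ x ∈ I, 260 * |du A b lam x - 1| ≤ I.card * (169 / (Ac * (h : ℝ) ^ 2)) +
      200 * Ac * (h : ℝ) ^ 2 * ∑ x ∈ I, psi (du A b lam x) := by
    refine (Finset.sum_le_sum h8).trans ?_
    rw [Finset.sum_add_distrib, Finset.sum_const, nsmul_eq_mul, Finset.mul_sum]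
  have h11 : 65 / (u2 : ℝ) * ∑ l ∈ range (Mh h a), |(-(lam / (a * u2) *
      ∑ x ∈ Finset.Ico (be b0 u2 h a (l + 1)) (be b0 u2 h a l), (du A b lam x - 1)))| ≤
      1 / ((u2 : ℝ) * a) * ∑ x ∈ I, 260 * |du A b lam x - 1| := by
    calc _ ≤ 65 / (u2 : ℝ) * (lam / (a * u2) * ∑ x ∈ I, |du A b lam x - 1|) :=
          mul_le_mul_of_nonneg_left h3 (by positivity)
      _ = (65 * (lam / u2)) * (1 / ((u2 : ℝ) * a) * ∑ x ∈ I, |du A b lam x - 1|) := by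
          field_simp
      _ ≤ 260 * (1 / ((u2 : ℝ) * a) * ∑ x ∈ I, |du A b lam x - 1|) := by
          have h12 : lam / u2 ≤ 4 := by rw [div_le_iff₀ huR]; exact hl4
          have h13 : 0 ≤ 1 / ((u2 : ℝ) * a) * ∑ x ∈ I, |du A b lam x - 1| :=
            mul_nonneg (by positivity) (Finset.sum_nonneg fun _ _ => abs_nonneg _)
          nlinarith
      _ = _ := by rw [← Finset.mul_sum]; ring
  refine h11.trans ?_
  have h14 : 1 / ((u2 : ℝ) * a) * ∑ x ∈ I, 260 * |du A b lam x - 1| ≤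
      1 / ((u2 : ℝ) * a) * (I.card * (169 / (Ac * (h : ℝ) ^ 2)) +
      200 * Ac * (h : ℝ) ^ 2 * ∑ x ∈ I, psi (du A b lam x)) :=
    mul_le_mul_of_nonneg_left h10 (by positivity)
  have h15 : 1 / ((u2 : ℝ) * a) * (I.card * (169 / (Ac * (h : ℝ) ^ 2))) ≤ 1859 := by
    calc _ ≤ 1 / ((u2 : ℝ) * a) * (33 * u2 * (h : ℝ) ^ 2 * a * (169 / (Ac * (h : ℝ) ^ 2))) := by
          gcongr
      _ = 5577 / Ac := by field_simp; norm_num
      _ ≤ 1859 := by rw [div_le_iff₀ (by linarith)]; linarith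
  calc _ ≤ _ := h14
    _ = 1 / ((u2 : ℝ) * a) * (I.card * (169 / (Ac * (h : ℝ) ^ 2))) + 200 * Ac * (h : ℝ) ^ 2 *
        (1 / ((u2 : ℝ) * a) * ∑ x ∈ I, psi (du A b lam x)) := by ring
    _ ≤ _ := by linarith

/-- Error of `part_sum`. -/
private theorem csD_err {h a b u2 : ℕ} (hh : 1 ≤ h) (ha : 1 ≤ a) (ha2 : 2 ∣ a)
    (hu2 : 1 ≤ u2) {Ac : ℝ} (hAc : 3 ≤ Ac) (A : ℕ → ℕ) (hA : Monotone A) {lam : ℝ} (hl : 0 < lam)
    (hl4 : lam ≤ 4 * u2) (hr : (u2 : ℝ) / a ≤ (1 / (10 ^ 6 * (h : ℝ) ^ 4)) ^ 2) (x : ℕ → ℕ) :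
    ∑ l ∈ range (Mh h a + 1), (2 * lam / (a * u2) * |du A b lam (x l) - 1| +
      12 * ((1 + lam) / (a * u2) * √((1 + lam) / (a * u2))) +
      16 * ((1 + lam) / (a * u2)) * psi (du A b lam (x l))) ≤
    3 + 86 * Ac * (h : ℝ) ^ 2 * (1 / a * ∑ l ∈ range (Mh h a + 1), psi (du A b lam (x l))) := by
  have haR : (0 : ℝ) < a := by exact_mod_cast ha
  have hu1' : (1 : ℝ) ≤ u2 := by exact_mod_cast hu2
  have huR : (0 : ℝ) < u2 := by linarith
  have hhR : (1 : ℝ) ≤ h := by exact_mod_cast hh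
  have hh0 : (0 : ℝ) < h := by linarith
  have hh2 : (1 : ℝ) ≤ (h : ℝ) ^ 2 := one_le_pow₀ hhR
  have hk : (1 + lam) / (a * u2) ≤ 5 / a := by
    rw [div_le_div_iff₀ (by positivity) haR]
    have h1 : 1 + lam ≤ 5 * u2 := by linarith
    nlinarith
  have hk2 : √((1 + lam) / (a * u2)) ≤ 3 * (1 / (10 ^ 6 * (h : ℝ) ^ 4)) := by
    refine csD_sqrt (by norm_num) (by positivity) hr (hk.trans ?_)
    rw [show (3 : ℝ) ^ 2 * ((u2 : ℝ) / a) = 9 * u2 / a by ring]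
    gcongr
    linarith
  have hpt : ∀ l ∈ range (Mh h a + 1), (2 * lam / (a * u2) * |du A b lam (x l) - 1| +
      12 * ((1 + lam) / (a * u2) * √((1 + lam) / (a * u2))) +
      16 * ((1 + lam) / (a * u2)) * psi (du A b lam (x l))) ≤
      1 / a * (16 / (3 * (Ac * (h : ℝ) ^ 2)) + 180 * (1 / (10 ^ 6 * (h : ℝ) ^ 4))) +
        1 / a * (86 * Ac * (h : ℝ) ^ 2 * psi (du A b lam (x l))) := by
    intro l _
    have h1 : 2 * lam / (a * u2) * |du A b lam (x l) - 1| ≤ 1 / a * (8 * |du A b lam (x l) - 1|) := by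
      have h2 : 2 * lam / (a * u2) ≤ 1 / a * 8 := by
        rw [div_le_iff₀ (by positivity)]
        have : 1 / (a : ℝ) * 8 * (a * u2) = 8 * u2 := by field_simp
        rw [this]
        linarith
      calc _ ≤ 1 / a * 8 * |du A b lam (x l) - 1| := mul_le_mul_of_nonneg_right h2 (abs_nonneg _)
        _ = _ := by ring
    have h3 := mul_abs_le (c := 8) (A := 3 * Ac * (h : ℝ) ^ 2) (du_nonneg (b := b) A hA hl (x l))
      (by norm_num) (by positivity) (by nlinarith)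
    have h4 : (8 : ℝ) ^ 2 / (4 * (3 * Ac * (h : ℝ) ^ 2)) = 16 / (3 * (Ac * (h : ℝ) ^ 2)) := by
      field_simp
      norm_num
    rw [h4] at h3
    have h5 : 12 * ((1 + lam) / (a * u2) * √((1 + lam) / (a * u2))) ≤
        12 * (5 / a * (3 * (1 / (10 ^ 6 * (h : ℝ) ^ 4)))) := by gcongr
    have h6 : 16 * ((1 + lam) / (a * u2)) * psi (du A b lam (x l)) ≤
        16 * (5 / a) * psi (du A b lam (x l)) := by
      have := psi_nonneg (du A b lam (x l))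
      gcongr
    have h7 : 1 / (a : ℝ) * (8 * |du A b lam (x l) - 1|) ≤ 1 / a * (16 / (3 * (Ac * (h : ℝ) ^ 2)) +
        2 * (3 * Ac * (h : ℝ) ^ 2) * psi (du A b lam (x l))) :=
      mul_le_mul_of_nonneg_left h3 (by positivity)
    have h8 : 16 * (5 / a) * psi (du A b lam (x l)) ≤
        1 / a * (80 * Ac * (h : ℝ) ^ 2 * psi (du A b lam (x l))) := by
      have h9 : (80 : ℝ) ≤ 80 * Ac * (h : ℝ) ^ 2 := by nlinarith
      have h10 := psi_nonneg (du A b lam (x l))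
      calc 16 * (5 / (a : ℝ)) * psi (du A b lam (x l)) = 1 / a * (80 * psi (du A b lam (x l))) := by
            ring
        _ ≤ _ := by gcongr
    calc _ ≤ 1 / a * (16 / (3 * (Ac * (h : ℝ) ^ 2)) +
        2 * (3 * Ac * (h : ℝ) ^ 2) * psi (du A b lam (x l))) +
        12 * (5 / a * (3 * (1 / (10 ^ 6 * (h : ℝ) ^ 4)))) +
        1 / a * (80 * Ac * (h : ℝ) ^ 2 * psi (du A b lam (x l))) := by linarith
      _ = _ := by ring
  refine (Finset.sum_le_sum hpt).trans ?_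
  rw [Finset.sum_add_distrib, Finset.sum_const, nsmul_eq_mul, Finset.card_range, ← Finset.mul_sum,
    ← Finset.mul_sum]
  have hM : ((Mh h a + 1 : ℕ) : ℝ) * (1 / a) ≤ (h : ℝ) ^ 2 := by
    push_cast
    rw [Mh_cast ha2, mul_one_div, div_le_iff₀ haR]
    have h2 : (2 : ℝ) ≤ a := by exact_mod_cast Nat.le_of_dvd ha ha2
    nlinarith
  have h1 : ((Mh h a + 1 : ℕ) : ℝ) * (1 / a * (16 / (3 * (Ac * (h : ℝ) ^ 2)) +
      180 * (1 / (10 ^ 6 * (h : ℝ) ^ 4)))) ≤ 3 := by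
    calc _ = ((Mh h a + 1 : ℕ) : ℝ) * (1 / a) * (16 / (3 * (Ac * (h : ℝ) ^ 2)) +
          180 * (1 / (10 ^ 6 * (h : ℝ) ^ 4))) := by ring
      _ ≤ (h : ℝ) ^ 2 * (16 / (3 * (Ac * (h : ℝ) ^ 2)) + 180 * (1 / (10 ^ 6 * (h : ℝ) ^ 4))) := by
          gcongr
      _ = 16 / (3 * Ac) + 180 * (1 / (10 ^ 6 * (h : ℝ) ^ 2)) := by field_simp
      _ ≤ 2 + 1 := by
          refine add_le_add ?_ ?_
          · rw [div_le_iff₀ (by positivity)]; linarith
          · rw [mul_one_div, div_le_iff₀ (by positivity)]; nlinarith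
      _ = 3 := by norm_num
  calc _ ≤ 3 + 1 / a * (86 * Ac * (h : ℝ) ^ 2 *
        ∑ l ∈ range (Mh h a + 1), psi (du A b lam (x l))) := by linarith
    _ = _ := by ring

theorem cs_D {h a b u1 u2 a0 b0 w N : ℕ} (hh : 1 ≤ h) (ha2 : 2 ∣ a)
    (ha : 10 ^ 12 * h ^ 8 * (u1 * u2) ^ 4 ≤ a) (hb : 1 ≤ b) (hu : u1 = 1 ∨ u2 = 1) (hu1 : 1 ≤ u1)
    (hu2 : 1 ≤ u2) {Ac : ℝ} (hAc : 3 ≤ Ac) (A : ℕ → ℕ) (hA : Monotone A) {lam : ℝ}
    (hl1 : 1 / 4 ≤ lam * u1 / u2) (hl2 : lam * u1 / u2 ≤ 4) (V : Finset ℤ) (hw : 1 ≤ w)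
    (hs : Sparse V w N) :
    |∑ l ∈ range (Mh h a + 1),
      csum (fun v => Th V ((v : ℝ) / (a * u2 * b))) A b (be b0 u2 h a l) (be b0 u2 h a l)| ≤
    (a : ℝ) * u2 * b * (5000 * (1 + √N + N * h / w + h / Ac) +
      5000 * Ac * h ^ 2 * arcE A b lam a u1 u2 (al a0 u1) (be b0 u2 h a) (Mh h a)) := by
  have haR0 : (10 : ℝ) ^ 12 * h ^ 8 * (u1 * u2) ^ 4 ≤ a := by exact_mod_cast ha
  have hu1R : (1 : ℝ) ≤ u1 := by exact_mod_cast hu1
  have hu2R : (1 : ℝ) ≤ u2 := by exact_mod_cast hu2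
  have hhR : (1 : ℝ) ≤ h := by exact_mod_cast hh
  have hbR : (1 : ℝ) ≤ b := by exact_mod_cast hb
  have hwR : (1 : ℝ) ≤ w := by exact_mod_cast hw
  have hh2 : (1 : ℝ) ≤ (h : ℝ) ^ 2 := one_le_pow₀ hhR
  have ha1 : 1 ≤ a := by
    refine le_trans ?_ ha
    have h1 : 0 < u1 * u2 := Nat.mul_pos hu1 hu2
    have h2 : 0 < h := hh
    exact Nat.succ_le_of_lt (by positivity)
  have haR : (1 : ℝ) ≤ a := by exact_mod_cast ha1
  have hlam : 0 < lam := by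
    by_contra hneg
    rw [not_lt] at hneg
    have : lam * u1 / u2 ≤ 0 := div_nonpos_of_nonpos_of_nonneg
      (mul_nonpos_of_nonpos_of_nonneg hneg (by positivity)) (by positivity)
    linarith
  have hl4 : lam ≤ 4 * u2 := by
    rw [div_le_iff₀ (by positivity)] at hl2
    nlinarith
  have hr : (u2 : ℝ) / a ≤ (1 / (10 ^ 6 * (h : ℝ) ^ 4)) ^ 2 := by
    rw [div_pow, one_pow, div_le_div_iff₀ (by positivity) (by positivity)]
    have h1 : (u2 : ℝ) ≤ (u1 * u2) ^ 4 := by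
      have h2 : (u2 : ℝ) ≤ u1 * u2 := by nlinarith
      exact h2.trans (le_self_pow₀ (by nlinarith) (by norm_num))
    have h3 : (0 : ℝ) ≤ 10 ^ 12 * h ^ 8 := by positivity
    calc (u2 : ℝ) * (10 ^ 6 * (h : ℝ) ^ 4) ^ 2 = 10 ^ 12 * (h : ℝ) ^ 8 * (u2 : ℝ) := by ring
      _ ≤ 10 ^ 12 * (h : ℝ) ^ 8 * ((u1 : ℝ) * u2) ^ 4 := mul_le_mul_of_nonneg_left h1 h3
      _ ≤ 1 * (a : ℝ) := by linarith
  obtain ⟨W', hW1, hW2⟩ := csD_path (b0 := b0) hh ha1 ha2 hb hu2 A hA hlam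
  have hMR : (Mh h a : ℝ) = h ^ 2 * a / 2 := Mh_cast ha2
  have hMδ : 16 * (Mh h a : ℝ) / a = 8 * h ^ 2 := by
    rw [hMR]; field_simp; norm_num
  have hps := part_sum ha1 hb hu2 A hA hlam V (Mh h a + 1) (be b0 u2 h a) (be b0 u2 h a)
  have hsf := strand_fast (δ := 16 / (a : ℝ)) (s0 := (1 + lam) / 8) (s1 := 9 * (1 + lam)) (ε := -1)
    (D1 := 33 * (h : ℝ) ^ 2 * (1 + lam)) (by positivity) (by positivity) (Or.inr rfl) V hw hs
    (Mh h a) W' (fun l => -(lam / (a * u2) *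
      ∑ x ∈ Finset.Ico (be b0 u2 h a (l + 1)) (be b0 u2 h a l), (du A b lam x - 1)))
    (fun l => (1 + lam) * (1 / 8 + (16 * (l : ℝ) / a + 8 / a) / (h : ℝ) ^ 2))
    (by
      intro l hl
      have h1 : 16 * (l : ℝ) / a + 8 / a ≤ 8 * h ^ 2 := by
        rw [← hMδ, ← add_div]
        have : (l : ℝ) + 1 ≤ Mh h a := by exact_mod_cast hl
        gcongr
        linarith
      have h2 : (16 * (l : ℝ) / a + 8 / a) / (h : ℝ) ^ 2 ≤ 8 := by
        rw [div_le_iff₀ (by positivity)]; exact h1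
      have h3 : 0 ≤ (16 * (l : ℝ) / a + 8 / a) / (h : ℝ) ^ 2 := by positivity
      constructor <;> nlinarith)
    (Or.inl (by
      intro l l' hll' _
      have : (l : ℝ) ≤ l' := by exact_mod_cast hll'
      gcongr))
    hW2 (by positivity)
    (by
      rw [csD_tele2 hh ha1 lam (Mh h a), hMδ]
      apply le_of_eq
      field_simp
      ring)
  have hen := csD_en (b0 := b0) (b := b) hh ha1 ha2 hu2 hAc A hA hlam hl4
  have herr := csD_err (b := b) hh ha1 ha2 hu2 hAc A hA hlam hl4 hr (be b0 u2 h a)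
  set S := ∑ l ∈ range (Mh h a), |(-(lam / (a * u2) *
      ∑ x ∈ Finset.Ico (be b0 u2 h a (l + 1)) (be b0 u2 h a l), (du A b lam x - 1)))| with hS
  set W := fun l => ((A (be b0 u2 h a l) : ℝ) + (be b0 u2 h a l : ℕ) * b) / (a * u2 * b) with hW
  set e : ℝ := 1 / (10 ^ 6 * (h : ℝ) ^ 4) with he
  have he0 : 0 ≤ e := by rw [he]; positivity
  have heh : (h : ℝ) ^ 2 * e ≤ 1 / 10 ^ 6 := by
    rw [he, mul_one_div, div_le_div_iff₀ (by positivity) (by positivity)]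
    nlinarith [mul_le_mul hh2 (le_refl ((h : ℝ) ^ 2)) (by positivity) (by positivity)]
  -- square roots
  have hlu : 1 + lam ≤ 5 * u2 := by linarith
  have hq1 : √(33 * (h : ℝ) ^ 2 * (1 + lam)) ≤ 13 * (h * u2) := by
    refine Real.sqrt_le_iff.2 ⟨by positivity, ?_⟩
    calc 33 * (h : ℝ) ^ 2 * (1 + lam) ≤ 33 * (h : ℝ) ^ 2 * (5 * u2) := by gcongr
      _ ≤ 169 * ((h : ℝ) ^ 2 * (u2 * u2)) := by
          have h1 : (u2 : ℝ) ≤ u2 * u2 := by nlinarith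
          have h2 : (0 : ℝ) ≤ (h : ℝ) ^ 2 := by positivity
          nlinarith [mul_le_mul_of_nonneg_left h1 h2]
      _ = _ := by ring
  have hq2 : √(9 * (1 + lam) * (16 / a)) ≤ 27 * e := by
    refine csD_sqrt (by norm_num) he0 hr ?_
    calc 9 * (1 + lam) * (16 / (a : ℝ)) ≤ 9 * (5 * u2) * (16 / (a : ℝ)) := by gcongr
      _ = 720 * (u2 / a) := by ring
      _ ≤ _ := by gcongr; norm_num
  have hq3 : √(2 * (1 + lam) / a) ≤ 4 * e := by
    refine csD_sqrt (by norm_num) he0 hr ?_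
    calc 2 * (1 + lam) / (a : ℝ) ≤ 2 * (5 * u2) / (a : ℝ) := by gcongr
      _ = 10 * (u2 / a) := by ring
      _ ≤ _ := by gcongr; norm_num
  -- rounding
  have hround : |∑ l ∈ range (Mh h a + 1), 16 / (a : ℝ) * Th V (W l)| ≤
      |∑ l ∈ range (Mh h a), 16 / (a : ℝ) * Th V (W' l)| + 8 * h ^ 2 * (16 * e) + 32 / a := by
    rw [Finset.sum_range_succ]
    have h1 : |16 / (a : ℝ) * Th V (W (Mh h a))| ≤ 32 / a := by
      rw [abs_mul, abs_of_nonneg (by positivity)]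
      calc 16 / (a : ℝ) * |Th V (W (Mh h a))| ≤ 16 / (a : ℝ) * 2 :=
            mul_le_mul_of_nonneg_left (abs_Th_le _ _) (by positivity)
        _ = 32 / a := by ring
    have h2 : |∑ l ∈ range (Mh h a), 16 / (a : ℝ) * Th V (W l) -
        ∑ l ∈ range (Mh h a), 16 / (a : ℝ) * Th V (W' l)| ≤ 8 * h ^ 2 * (16 * e) := by
      rw [← Finset.sum_sub_distrib]
      refine (Finset.abs_sum_le_sum_abs _ _).trans ?_
      have h3 : ∀ l ∈ range (Mh h a), |16 / (a : ℝ) * Th V (W l) - 16 / (a : ℝ) * Th V (W' l)| ≤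
          16 / (a : ℝ) * (16 * e) := by
        intro l hl
        rw [← mul_sub, abs_mul, abs_of_nonneg (by positivity)]
        refine mul_le_mul_of_nonneg_left ?_ (by positivity)
        have h4 := Th_holder V (W l) (W' l)
        have h5 : √|W l - W' l| ≤ √(2 * (1 + lam) / a) :=
          Real.sqrt_le_sqrt (hW1 l (Finset.mem_range.1 hl).le)
        linarith
      refine (Finset.sum_le_sum h3).trans ?_
      rw [Finset.sum_const, nsmul_eq_mul, Finset.card_range, ← hMδ]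
      apply le_of_eq
      ring
    have h6 := abs_sub_abs_le_abs_sub (∑ l ∈ range (Mh h a), 16 / (a : ℝ) * Th V (W l))
      (∑ l ∈ range (Mh h a), 16 / (a : ℝ) * Th V (W' l))
    have h7 := abs_add_le (∑ l ∈ range (Mh h a), 16 / (a : ℝ) * Th V (W l))
      (16 / (a : ℝ) * Th V (W (Mh h a)))
    linarith
  -- main term
  have hK : 0 < (1 + lam) / (16 * u2) := by positivity
  have hK5 : (1 + lam) / (16 * u2) ≤ 5 / 16 := by
    rw [div_le_iff₀ (by positivity)]; linarith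
  have hmain : (1 + lam) / (a * u2) * |∑ l ∈ range (Mh h a + 1), Th V (W l)| ≤
      60 * (2 + √N) + 780 * (N * h / w) + 65 / u2 * S + 12 := by
    have h1 : (1 + lam) / (a * u2) * |∑ l ∈ range (Mh h a + 1), Th V (W l)| =
        (1 + lam) / (16 * u2) * |∑ l ∈ range (Mh h a + 1), 16 / (a : ℝ) * Th V (W l)| := by
      rw [← Finset.mul_sum, abs_mul, abs_of_nonneg (show (0 : ℝ) ≤ 16 / a by positivity)]
      field_simp
    rw [h1]
    have h2 : (1 + lam) / (16 * u2) * |∑ l ∈ range (Mh h a + 1), 16 / (a : ℝ) * Th V (W l)| ≤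
        (1 + lam) / (16 * u2) * ((1 / ((1 + lam) / 8) * (120 * (2 + √N + N / w *
          √(33 * (h : ℝ) ^ 2 * (1 + lam))) + 130 * S) + Mh h a * (16 / a) *
          (12 * √(9 * (1 + lam) * (16 / a)))) + 8 * h ^ 2 * (16 * e) + 32 / a) := by
      refine mul_le_mul_of_nonneg_left ?_ hK.le
      linarith
    refine h2.trans ?_
    have h3 : (1 + lam) / (16 * u2) * ((1 / ((1 + lam) / 8) * (120 * (2 + √N + N / w *
          √(33 * (h : ℝ) ^ 2 * (1 + lam))) + 130 * S) + Mh h a * (16 / a) *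
          (12 * √(9 * (1 + lam) * (16 / a)))) + 8 * h ^ 2 * (16 * e) + 32 / a) =
        1 / (2 * u2) * (120 * (2 + √N)) + 1 / (2 * u2) * (120 * (N / w *
          √(33 * (h : ℝ) ^ 2 * (1 + lam)))) + 65 / u2 * S +
        (1 + lam) / (16 * u2) * ((16 * Mh h a / a) *
          (12 * √(9 * (1 + lam) * (16 / a))) + 8 * h ^ 2 * (16 * e) + 32 / a) := by
      have h1l : (1 + lam) ≠ 0 := by positivity
      field_simp
      ring
    rw [h3, hMδ]
    have h4 : 1 / (2 * (u2 : ℝ)) * (120 * (2 + √N)) ≤ 60 * (2 + √N) := by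
      have h5 : 1 / (2 * (u2 : ℝ)) ≤ 1 / 2 := by
        rw [div_le_div_iff₀ (by positivity) (by norm_num)]; linarith
      have h6 : 0 ≤ 120 * (2 + √(N : ℝ)) := by positivity
      nlinarith
    have h7 : 1 / (2 * (u2 : ℝ)) * (120 * (N / w * √(33 * (h : ℝ) ^ 2 * (1 + lam)))) ≤
        780 * (N * h / w) := by
      calc _ ≤ 1 / (2 * (u2 : ℝ)) * (120 * (N / w * (13 * (h * u2)))) := by gcongr
        _ = _ := by field_simp; ring
    have h8 : (1 + lam) / (16 * u2) * ((8 * (h : ℝ) ^ 2) *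
          (12 * √(9 * (1 + lam) * (16 / a))) + 8 * h ^ 2 * (16 * e) + 32 / a) ≤ 12 := by
      have h9 : (8 * (h : ℝ) ^ 2) * (12 * √(9 * (1 + lam) * (16 / a))) ≤
          (8 * (h : ℝ) ^ 2) * (12 * (27 * e)) := by gcongr
      have h10 : 32 / (a : ℝ) ≤ 32 := by
        rw [div_le_iff₀ (by positivity)]; linarith
      calc _ ≤ 5 / 16 * ((8 * (h : ℝ) ^ 2) * (12 * (27 * e)) + 8 * h ^ 2 * (16 * e) + 32) := by
            refine mul_le_mul hK5 (by linarith) (by positivity) (by norm_num)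
        _ ≤ 12 := by nlinarith
    linarith
  -- assembly
  have hB : (0 : ℝ) < a * u2 * b := by positivity
  have h1 : |∑ l ∈ range (Mh h a + 1),
      csum (fun v => Th V ((v : ℝ) / (a * u2 * b))) A b (be b0 u2 h a l) (be b0 u2 h a l)| ≤
      (a * u2 * b : ℝ) * (3 + 86 * Ac * (h : ℝ) ^ 2 *
        (1 / a * ∑ l ∈ range (Mh h a + 1), psi (du A b lam (be b0 u2 h a l)))) +
      (a * u2 * b : ℝ) * (60 * (2 + √N) + 780 * (N * h / w) + 65 / u2 * S + 12) := by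
    have h2 := hps.trans (mul_le_mul_of_nonneg_left herr hB.le)
    have h3 : |(a * u2 * b : ℝ) * ((1 + lam) / (a * u2)) *
        ∑ l ∈ range (Mh h a + 1), Th V (W l)| ≤
        (a * u2 * b : ℝ) * (60 * (2 + √N) + 780 * (N * h / w) + 65 / u2 * S + 12) := by
      rw [abs_mul, abs_of_nonneg (by positivity), mul_assoc]
      exact mul_le_mul_of_nonneg_left hmain hB.le
    have h4 := abs_sub_abs_le_abs_sub (∑ l ∈ range (Mh h a + 1),
      csum (fun v => Th V ((v : ℝ) / (a * u2 * b))) A b (be b0 u2 h a l) (be b0 u2 h a l))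
      ((a * u2 * b : ℝ) * ((1 + lam) / (a * u2)) * ∑ l ∈ range (Mh h a + 1), Th V (W l))
    linarith
  refine h1.trans ?_
  rw [← mul_add]
  refine mul_le_mul_of_nonneg_left ?_ hB.le
  have hE1 : 1 / (a : ℝ) * ∑ l ∈ range (Mh h a + 1), psi (du A b lam (be b0 u2 h a l)) +
      1 / ((u2 : ℝ) * a) * ∑ x ∈ Finset.Ico (be b0 u2 h a (Mh h a)) (be b0 u2 h a 0),
        psi (du A b lam x) ≤
      arcE A b lam a u1 u2 (al a0 u1) (be b0 u2 h a) (Mh h a) := by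
    unfold arcE
    rw [Finset.sum_add_distrib]
    have h2 : 0 ≤ ∑ l ∈ range (Mh h a + 1), psi (du A b lam (al a0 u1 l)) :=
      Finset.sum_nonneg fun _ _ => psi_nonneg _
    have h3 : 0 ≤ 1 / ((u1 : ℝ) * a) * ∑ x ∈ Finset.Ico (al a0 u1 0) (al a0 u1 (Mh h a)),
        psi (du A b lam x) :=
      mul_nonneg (by positivity) (Finset.sum_nonneg fun _ _ => psi_nonneg _)
    have h4 : 0 ≤ 1 / (a : ℝ) * ∑ l ∈ range (Mh h a + 1), psi (du A b lam (al a0 u1 l)) :=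
      mul_nonneg (by positivity) h2
    rw [mul_add]
    linarith
  have hP1 : 0 ≤ 1 / (a : ℝ) * ∑ l ∈ range (Mh h a + 1), psi (du A b lam (be b0 u2 h a l)) :=
    mul_nonneg (by positivity) (Finset.sum_nonneg fun _ _ => psi_nonneg _)
  have hP2 : 0 ≤ 1 / ((u2 : ℝ) * a) *
      ∑ x ∈ Finset.Ico (be b0 u2 h a (Mh h a)) (be b0 u2 h a 0), psi (du A b lam x) :=
    mul_nonneg (by positivity) (Finset.sum_nonneg fun _ _ => psi_nonneg _)
  set P1 := 1 / (a : ℝ) * ∑ l ∈ range (Mh h a + 1), psi (du A b lam (be b0 u2 h a l))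
  set P2 := 1 / ((u2 : ℝ) * a) *
      ∑ x ∈ Finset.Ico (be b0 u2 h a (Mh h a)) (be b0 u2 h a 0), psi (du A b lam x)
  have hAh : 0 ≤ Ac * (h : ℝ) ^ 2 := by positivity
  have hE2 : 86 * Ac * (h : ℝ) ^ 2 * P1 + 200 * Ac * (h : ℝ) ^ 2 * P2 ≤ 5000 * Ac * (h : ℝ) ^ 2 *
      arcE A b lam a u1 u2 (al a0 u1) (be b0 u2 h a) (Mh h a) := by
    have h2 : 86 * Ac * (h : ℝ) ^ 2 * P1 ≤ 5000 * Ac * (h : ℝ) ^ 2 * P1 := by
      gcongr; norm_num
    have h3 : 200 * Ac * (h : ℝ) ^ 2 * P2 ≤ 5000 * Ac * (h : ℝ) ^ 2 * P2 := by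
      gcongr; norm_num
    have h4 : 5000 * Ac * (h : ℝ) ^ 2 * (P1 + P2) ≤ 5000 * Ac * (h : ℝ) ^ 2 *
      arcE A b lam a u1 u2 (al a0 u1) (be b0 u2 h a) (Mh h a) := by gcongr
    linarith
  have hN : 0 ≤ √(N : ℝ) := Real.sqrt_nonneg _
  have hN2 : 0 ≤ (N : ℝ) * h / w := by positivity
  have hAc2 : 0 ≤ (h : ℝ) / Ac := by positivity
  linarith

end Pool.Agent.Lib.HBP
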