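import Mathlib

/-!
# Project HBP, GLOBAL: hierarchical permutations

`σ t k x` is the place of child `x` of the block `k` of level `t` (`t` counts from the top);
`lam L σ t k` is the index of the row block into which the (column) block `k` of level `t` is
mapped.  At level `0` there are `q` blocks, mapped identically.  The blocks of level `t` have
size `L ^ (R - t)`, and the permutation itself is `lam L σ R`.
-/

namespace Pool.Agent.Lib.HBP

/-- Row block of the block `k` of level `t`. -/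
def lam (L : ℕ) (σ : ℕ → ℕ → ℕ → ℕ) : ℕ → ℕ → ℕ
  | 0, k => k
  | t + 1, k => lam L σ t (k / L) * L + σ t (k / L) (k % L)

/-- `s` maps `[0, N)` injectively into itself. -/
def PermOn (N : ℕ) (s : ℕ → ℕ) : Prop :=
  (∀ x, x < N → s x < N) ∧ ∀ x y, x < N → y < N → s x = s y → x = y

theorem PermOn.id (N : ℕ) : PermOn N (fun x => x) := ⟨fun _ h => h, fun _ _ _ _ h => h⟩

/-- A self-map of `[0, N)` which is injective is surjective. -/
theorem PermOn.surj {N : ℕ} {s : ℕ → ℕ} (hs : PermOn N s) {y : ℕ} (hy : y < N) :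
    ∃ x < N, s x = y := by
  have h1 : (Finset.range N).image s ⊆ Finset.range N := by
    intro z hz
    rw [Finset.mem_image] at hz
    obtain ⟨x, hx, rfl⟩ := hz
    exact Finset.mem_range.mpr (hs.1 x (Finset.mem_range.mp hx))
  have h2 : (Finset.range N).card ≤ ((Finset.range N).image s).card := by
    rw [Finset.card_image_of_injOn]
    intro a ha b hb hab
    exact hs.2 a b (by simpa using ha) (by simpa using hb) hab
  have h3 := Finset.eq_of_subset_of_card_le h1 h2
  have h4 : y ∈ (Finset.range N).image s := by rw [h3]; exact Finset.mem_range.mpr hy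
  rw [Finset.mem_image] at h4
  obtain ⟨x, hx, hxy⟩ := h4
  exact ⟨x, Finset.mem_range.mp hx, hxy⟩

theorem permOn_step {L N : ℕ} (hL : 0 < L) {l : ℕ → ℕ} (hl : PermOn N l) {s : ℕ → ℕ → ℕ}
    (hs : ∀ k, PermOn L (s k)) :
    PermOn (N * L) (fun k => l (k / L) * L + s (k / L) (k % L)) := by
  constructor
  · intro k hk
    have h1 : k / L < N := by rwa [Nat.div_lt_iff_lt_mul hL]
    have h2 := hl.1 _ h1
    have h3 := (hs (k / L)).1 _ (Nat.mod_lt k hL)
    calc l (k / L) * L + s (k / L) (k % L) < l (k / L) * L + L := by omega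
      _ = (l (k / L) + 1) * L := by ring
      _ ≤ N * L := Nat.mul_le_mul_right _ h2
  · intro k k' hk hk' h
    have h1 : k / L < N := by rwa [Nat.div_lt_iff_lt_mul hL]
    have h1' : k' / L < N := by rwa [Nat.div_lt_iff_lt_mul hL]
    have h3 := (hs (k / L)).1 _ (Nat.mod_lt k hL)
    have h3' := (hs (k' / L)).1 _ (Nat.mod_lt k' hL)
    simp only at h
    have e1 : (l (k / L) * L + s (k / L) (k % L)) / L = l (k / L) := by
      rw [Nat.add_comm, Nat.add_mul_div_right _ _ hL, Nat.div_eq_of_lt h3, zero_add]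
    have e2 : (l (k' / L) * L + s (k' / L) (k' % L)) / L = l (k' / L) := by
      rw [Nat.add_comm, Nat.add_mul_div_right _ _ hL, Nat.div_eq_of_lt h3', zero_add]
    have h4 : l (k / L) = l (k' / L) := by rw [← e1, ← e2, h]
    have h5 := hl.2 _ _ h1 h1' h4
    rw [h5] at h
    have h6 : s (k' / L) (k % L) = s (k' / L) (k' % L) := by omega
    have h7 := (hs (k' / L)).2 _ _ (Nat.mod_lt k hL) (Nat.mod_lt k' hL) h6
    rw [← Nat.div_add_mod k L, ← Nat.div_add_mod k' L, h5, h7]

theorem lam_permOn {L : ℕ} (hL : 0 < L) {σ : ℕ → ℕ → ℕ → ℕ} (hσ : ∀ t k, PermOn L (σ t k))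
    (q t : ℕ) : PermOn (q * L ^ t) (lam L σ t) := by
  induction t with
  | zero =>
    have h : lam L σ 0 = fun k => k := rfl
    rw [h]
    simpa using PermOn.id q
  | succ t ih =>
    have h := permOn_step hL ih (hσ t)
    rw [pow_succ, ← mul_assoc]
    exact h

theorem lam_div_one {L : ℕ} (hL : 0 < L) {σ : ℕ → ℕ → ℕ → ℕ} (hσ : ∀ t k, PermOn L (σ t k))
    (t k : ℕ) : lam L σ (t + 1) k / L = lam L σ t (k / L) := by
  have h3 := (hσ t (k / L)).1 _ (Nat.mod_lt k hL)
  simp only [lam]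
  rw [Nat.add_comm, Nat.add_mul_div_right _ _ hL, Nat.div_eq_of_lt h3, zero_add]

theorem lam_mod_one {L : ℕ} (hL : 0 < L) {σ : ℕ → ℕ → ℕ → ℕ} (hσ : ∀ t k, PermOn L (σ t k))
    (t k : ℕ) : lam L σ (t + 1) k % L = σ t (k / L) (k % L) := by
  have h3 := (hσ t (k / L)).1 _ (Nat.mod_lt k hL)
  simp only [lam]
  rw [Nat.add_comm, Nat.add_mul_mod_self_right, Nat.mod_eq_of_lt h3]

theorem lam_div {L : ℕ} (hL : 0 < L) {σ : ℕ → ℕ → ℕ → ℕ} (hσ : ∀ t k, PermOn L (σ t k))
    (t m k : ℕ) : lam L σ (t + m) k / L ^ m = lam L σ t (k / L ^ m) := by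
  induction m generalizing k with
  | zero => simp
  | succ m ih =>
    rw [← add_assoc, pow_succ, mul_comm (L ^ m) L, ← Nat.div_div_eq_div_mul,
      lam_div_one hL hσ, ih, Nat.div_div_eq_div_mul]

/-- The row of the single position `p` lies in the row block of its block of level `t`. -/
theorem lam_div' {L : ℕ} (hL : 0 < L) {σ : ℕ → ℕ → ℕ → ℕ} (hσ : ∀ t k, PermOn L (σ t k))
    {R t : ℕ} (ht : t ≤ R) (p : ℕ) :
    lam L σ R p / L ^ (R - t) = lam L σ t (p / L ^ (R - t)) := by
  have h := lam_div hL hσ t (R - t) p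
  rwa [show t + (R - t) = R by omega] at h

/-- Existence of a hierarchical permutation with a given property at every level. -/
theorem exists_tree {L q R : ℕ} (hL : 0 < L) (G : ℕ → (ℕ → ℕ) → (ℕ → ℕ → ℕ) → Prop)
    (hG : ∀ t, t < R → ∀ l : ℕ → ℕ, PermOn (q * L ^ t) l →
      ∃ s : ℕ → ℕ → ℕ, (∀ k, PermOn L (s k)) ∧ G t l s) :
    ∃ σ : ℕ → ℕ → ℕ → ℕ, (∀ t k, PermOn L (σ t k)) ∧ ∀ t, t < R → G t (lam L σ t) (σ t) := by
  classical
  have h0 : ∀ (t : ℕ) (l : ℕ → ℕ), ∃ s : ℕ → ℕ → ℕ, (∀ k, PermOn L (s k)) ∧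
      (t < R → PermOn (q * L ^ t) l → G t l s) := by
    intro t l
    by_cases ht : t < R
    · by_cases hl : PermOn (q * L ^ t) l
      · obtain ⟨s, h1, h2⟩ := hG t ht l hl
        exact ⟨s, h1, fun _ _ => h2⟩
      · exact ⟨fun _ x => x, fun _ => PermOn.id L, fun _ h => absurd h hl⟩
    · exact ⟨fun _ x => x, fun _ => PermOn.id L, fun h => absurd h ht⟩
  choose s hs using h0
  -- the row maps
  let l : ℕ → ℕ → ℕ := fun t => Nat.rec (fun k => k)
    (fun t lt k => lt (k / L) * L + s t lt (k / L) (k % L)) t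
  have hlz : l 0 = fun k => k := rfl
  have hls : ∀ t, l (t + 1) = fun k => l t (k / L) * L + s t (l t) (k / L) (k % L) :=
    fun _ => rfl
  let σ : ℕ → ℕ → ℕ → ℕ := fun t => s t (l t)
  have hσ : ∀ t k, PermOn L (σ t k) := fun t k => (hs t (l t)).1 k
  have hlam : ∀ t, lam L σ t = l t := by
    intro t
    induction t with
    | zero => rfl
    | succ t ih =>
      funext k
      rw [hls]
      simp only [lam, ih]
      rfl
  refine ⟨σ, hσ, fun t ht => ?_⟩
  rw [hlam t]
  refine (hs t (l t)).2 ht ?_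
  rw [← hlam t]
  exact lam_permOn hL hσ q t

end Pool.Agent.Lib.HBP
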