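import Mathlib
import Pool.Agent.Lib.HBP.Defs

/-!
# Project HBP: master definitions for one level and for the hierarchy

LEVEL.  There are `Nb` blocks `k`, each with `L` children of size `b` (block size `S = L b`); block `k` is in
block row `ta k`, child `x` of block `k` in row `sg k x` of the block.  `Y` = the height function (nondecreasing):
the chain elements at position `q` have height `r` with `Y q ≤ r < Y (q+1)`.  Range of weights of child `x` of
block `k`: `[Ak x + sg k x * b, Ak (x+1) + (sg k x + 1) * b)`, `Ak x = Y ((k L + x) b) + ta k * (L b)`.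
ARCS.  Slot `s` of block `k` contains one arc: columns `arcA s l` and `arcB s l`, `l ≤ Mh h a`;
`pos k s < Dh h / 2` is its (random) place.  Hat width `B = a u2 b`.  `wst k s` is the weight (in units of `B`)
of the fold of the arc.
-/

namespace Pool.Agent.Lib.HBP

open Finset

noncomputable section

/-- Length of a slot (in units of `a` children). -/
def Dh (h : ℕ) : ℕ := 10 ^ 26 * h ^ 3

/-- Window length for crowding. -/
def w0 (G h : ℕ) : ℕ := 10 ^ 15 * G * h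

/-- Maximal number of arcs in an uncrowded window. -/
def X1 (G h' : ℕ) : ℕ := 10 ^ 4 * G * h'

/-- All conditions on the parameters.  `h = K2 h'`; `Q` dominates everything, `G` dominates `log Q`. -/
structure Par (h h' K2 G a L J0 Q : ℕ) : Prop where
  K2pos : 1 ≤ K2
  hh : h = K2 * h'
  Gpos : 1 ≤ G
  hG : 10 ^ 25 * G ≤ h'
  hQ : 10 ^ 60 * h ^ 4 * G * K2 * 4 ^ J0 ≤ Q
  hQG : 1000 * Real.log Q ≤ G
  ha : Q ^ 20 ≤ a
  hdiv : 32 * 4 ^ J0 ∣ a
  hL : a * Q ^ 20 ≤ L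

/-- The class of the arcs of one level. -/
structure Cls (u1 u2 J0 : ℕ) : Prop where
  one : u1 = 1 ∨ u2 = 1
  pow : ∃ i ≤ J0, u1 * u2 = 4 ^ i

/-- Number of slots of a block. -/
def nsl (h G a L u1 u2 : ℕ) : ℕ := G * ((L / (Dh h * a) - (u1 * u2 + 3)) / G)

/-- Columns of the first kind of the arc in slot `s`. -/
def arcA (h a u1 u2 : ℕ) (pos : ℕ → ℕ) (s l : ℕ) : ℕ :=
  al ((s * Dh h + pos s) * a + if u1 = 1 then 0 else 34 * h ^ 2 * a + 2 * (s % (u1 * u2)) + 1) u1 l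

/-- Columns of the second kind of the arc in slot `s`. -/
def arcB (h a u1 u2 : ℕ) (pos : ℕ → ℕ) (s l : ℕ) : ℕ :=
  be ((s * Dh h + pos s) * a + if u1 = 1 then 34 * h ^ 2 * a + 2 * (s % (u1 * u2)) + 1 else 0) u2 h a l

/-- Start of the weights of child `x` of block `k` (without its row in the block). -/
def Ak (Y ta : ℕ → ℕ) (L b k x : ℕ) : ℕ := Y ((k * L + x) * b) + ta k * (L * b)

/-- Slope of block `k` (block size `S`). -/
def slo (Y : ℕ → ℕ) (S k : ℕ) : ℝ := ((Y ((k + 1) * S) : ℝ) - Y (k * S)) / S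

/-- Relative slope of child `x` of block `k`. -/
def ux (Y ta : ℕ → ℕ) (L b k x : ℕ) : ℝ := du (Ak Y ta L b k) b (slo Y (L * b) k) x

/-- Weight of the fold of the arc in slot `s` of block `k`, in units of `a u2 b`. -/
def wst (h a u1 u2 L b : ℕ) (Y ta : ℕ → ℕ) (pos : ℕ → ℕ → ℕ) (k s : ℕ) : ℝ :=
  ((Ak Y ta L b k (arcA h a u1 u2 (pos k) s (lst h a (slo Y (L * b) k * u1 / u2))) : ℝ) +
    arcB h a u1 u2 (pos k) s (lst h a (slo Y (L * b) k * u1 / u2)) * b) / (a * u2 * b)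

/-- The hats of a set of arcs. -/
def hatV (h a u1 u2 L b : ℕ) (Y ta : ℕ → ℕ) (pos : ℕ → ℕ → ℕ) (sel : Finset (ℕ × ℕ)) : Finset ℤ :=
  sel.image (fun p => ⌊wst h a u1 u2 L b Y ta pos p.1 p.2⌋) ∪
    sel.image (fun p => ⌊wst h a u1 u2 L b Y ta pos p.1 p.2⌋ + 1)

/-- The permutation `sg` of the children of one block realises the arcs. -/
def Real1 (h G a u1 u2 L : ℕ) (pos sg : ℕ → ℕ) : Prop :=
  (∀ x < L, sg x < L) ∧ Set.InjOn sg (Set.Iio L) ∧
  ∀ (φ : ℕ → ℝ) (A : ℕ → ℕ) (b : ℕ), ∑ x ∈ range L, csum φ A b x (sg x) =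
    ∑ x ∈ range L, csum φ A b x x +
      ∑ s ∈ range (nsl h G a L u1 u2), arcD φ A b (arcA h a u1 u2 pos s) (arcB h a u1 u2 pos s) (Mh h a)

/-- The places of the arcs of one level are uncrowded: for every height function `Y` and every set `𝒦` of
matched blocks with bounded load and small energy, 4/5 of the arcs can be selected such that their hats are
sparse. -/
def Uncr (h h' G a u1 u2 L b Nb Q : ℕ) (ta : ℕ → ℕ) (pos : ℕ → ℕ → ℕ) : Prop :=
  (∀ k s, pos k s < Dh h / 2) ∧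
  ∀ (Y : ℕ → ℕ) (𝒦 : Finset ℕ), Monotone Y → (∀ x, Y x ≤ 2 * (Nb * L * b)) → 𝒦 ⊆ range Nb →
    Nb ≤ Q ^ 2 * 𝒦.card →
    (∀ k ∈ 𝒦, 1 / 4 ≤ slo Y (L * b) k * u1 / u2 ∧ slo Y (L * b) k * u1 / u2 ≤ 4) →
    (∀ v : ℕ, (𝒦.filter fun k => Ak Y ta L b k 0 ≤ v + L * b ∧ v ≤ Ak Y ta L b k L + 2 * (L * b)).card
      ≤ h ^ 2 * h') →
    ∑ k ∈ 𝒦, ∑ x ∈ range L, psi (ux Y ta L b k x) ≤ a * nsl h G a L u1 u2 * 𝒦.card / (1000 * h) →
    ∃ sel : Finset (ℕ × ℕ), sel ⊆ 𝒦 ×ˢ range (nsl h G a L u1 u2) ∧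
      4 * (𝒦.card * nsl h G a L u1 u2) ≤ 5 * sel.card ∧
      Sparse (hatV h a u1 u2 L b Y ta pos sel) (w0 G h) (8 * X1 G h')

/-! ### The chain -/

/-- Number of chain elements in block `k` (block size `S`). -/
def cnt (C : Finset ℕ) (S k : ℕ) : ℕ := (C.filter fun q => q / S = k).card

/-- Hellinger deficit of block `k`. -/
def Hd (C : Finset ℕ) (L b k : ℕ) : ℝ :=
  ∑ x ∈ range L, (√((cnt C b (k * L + x) : ℝ) / cnt C (L * b) k) - √(1 / L)) ^ 2

/-- Hellinger energy of the slopes of block `k`. -/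
def Ed (Y : ℕ → ℕ) (L b k : ℕ) : ℝ :=
  1 / L * ∑ x ∈ range L, (√(slo Y b (k * L + x) / slo Y (L * b) k) - 1) ^ 2

/-- Number of chain elements in blocks of the set `𝓛` whose weight is in cell `c` of size `s`
(blocks of size `S`). -/
def ncell (C : Finset ℕ) (w : ℕ → ℕ) (S : ℕ) (𝓛 : Finset ℕ) (s c : ℕ) : ℕ :=
  (C.filter fun q => q / S ∈ 𝓛 ∧ w q / s = c).card

/-- Increase of the quadratic energy of the chain elements in the blocks `𝓛` if the parent cells (size `L b`)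
are divided into cells of size `b`. -/
def Vq (C : Finset ℕ) (w : ℕ → ℕ) (L b : ℕ) (𝓛 : Finset ℕ) (cmax : ℕ) : ℝ :=
  1 / b * ∑ c ∈ range (cmax * L),
    ((ncell C w (L * b) 𝓛 b c : ℝ) - (ncell C w (L * b) 𝓛 (L * b) (c / L) : ℝ) / L) ^ 2

/-- The weights `w q` of the chain are in the ranges of the children. -/
def InRange (Y ta : ℕ → ℕ) (sg : ℕ → ℕ → ℕ) (L b : ℕ) (C : Finset ℕ) (w : ℕ → ℕ) : Prop :=
  ∀ q ∈ C, Ak Y ta L b (q / b / L) (q / b % L) + sg (q / b / L) (q / b % L) * b ≤ w q ∧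
    w q < Ak Y ta L b (q / b / L) (q / b % L + 1) + (sg (q / b / L) (q / b % L) + 1) * b

/-! ### The hierarchy -/

/-- Block size at level `t` (of `R`). -/
def bs (L R a₀ t : ℕ) : ℕ := L ^ (R - t) * a₀

/-- Row of block `K` of level `t`; `sg t k` = permutation of the children of block `k` of level `t`. -/
def row (L : ℕ) (sg : ℕ → ℕ → ℕ → ℕ) : ℕ → ℕ → ℕ
  | 0, _ => 0
  | t + 1, K => row L sg t (K / L) * L + sg t (K / L) (K % L)

/-- The class of a slope: `4^j ≤ 2 θ < 4^(j+1)`. -/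
def cls (θ : ℝ) : ℤ := ⌊Real.logb 4 (2 * θ)⌋

/-- Labels of the blocks; `θ t k` = slope of block `k` of level `t`. -/
def lab (L : ℕ) (θ : ℕ → ℕ → ℝ) : ℕ → ℕ → ℤ
  | 0, k => cls (θ 0 k)
  | t + 1, k => if (1 / 4 : ℝ) ≤ θ (t + 1) k / (4 : ℝ) ^ (lab L θ t (k / L)) ∧
      θ (t + 1) k / (4 : ℝ) ^ (lab L θ t (k / L)) ≤ 4 then lab L θ t (k / L) else cls (θ (t + 1) k)

/-- Class of the arcs of level `t`. -/
def ty (J0 t : ℕ) : ℤ := (t % (2 * J0 + 1) : ℕ) - (J0 : ℤ)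

/-- First parameter of class `j`. -/
def cu1 (j : ℤ) : ℕ := 4 ^ (-j).toNat

/-- Second parameter of class `j`. -/
def cu2 (j : ℤ) : ℕ := 4 ^ j.toNat

end

end Pool.Agent.Lib.HBP
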