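import Mathlib
import Pool.Agent.Lib.HBP.GTree
import Pool.Agent.Lib.HBP.Level

/-!
# Project HBP, GLOBAL: rows of the blocks (`row`), level by level existence

`row L sg t K` is the row of block `K < L ^ t` of level `t`.
-/

namespace Pool.Agent.Lib.HBP

theorem row_permOn {L : ℕ} (hL : 0 < L) {sg : ℕ → ℕ → ℕ → ℕ} (hσ : ∀ t k, PermOn L (sg t k))
    (t : ℕ) : PermOn (L ^ t) (row L sg t) := by
  induction t with
  | zero =>
    refine ⟨fun x _ => by simp [row], fun x y hx hy _ => ?_⟩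
    simp only [pow_zero] at hx hy
    omega
  | succ t ih =>
    have h := permOn_step hL ih (hσ t)
    rw [pow_succ]
    exact h

theorem row_div_one {L : ℕ} (hL : 0 < L) {sg : ℕ → ℕ → ℕ → ℕ} (hσ : ∀ t k, PermOn L (sg t k))
    (t K : ℕ) : row L sg (t + 1) K / L = row L sg t (K / L) := by
  have h3 := (hσ t (K / L)).1 _ (Nat.mod_lt K hL)
  simp only [row]
  rw [Nat.add_comm, Nat.add_mul_div_right _ _ hL, Nat.div_eq_of_lt h3, zero_add]

theorem row_div {L : ℕ} (hL : 0 < L) {sg : ℕ → ℕ → ℕ → ℕ} (hσ : ∀ t k, PermOn L (sg t k))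
    (t m K : ℕ) : row L sg (t + m) K / L ^ m = row L sg t (K / L ^ m) := by
  induction m generalizing K with
  | zero => simp
  | succ m ih =>
    rw [← add_assoc, pow_succ, mul_comm (L ^ m) L, ← Nat.div_div_eq_div_mul,
      row_div_one hL hσ, ih, Nat.div_div_eq_div_mul]

/-- Existence of a hierarchical permutation with a given property at every level. -/
theorem exists_rows {L R : ℕ} (hL : 0 < L) (G : ℕ → (ℕ → ℕ) → (ℕ → ℕ → ℕ) → Prop)
    (hG : ∀ t, t < R → ∀ l : ℕ → ℕ, PermOn (L ^ t) l →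
      ∃ s : ℕ → ℕ → ℕ, (∀ k, PermOn L (s k)) ∧ G t l s) :
    ∃ sg : ℕ → ℕ → ℕ → ℕ, (∀ t k, PermOn L (sg t k)) ∧ ∀ t, t < R → G t (row L sg t) (sg t) := by
  classical
  have h0 : ∀ (t : ℕ) (l : ℕ → ℕ), ∃ s : ℕ → ℕ → ℕ, (∀ k, PermOn L (s k)) ∧
      (t < R → PermOn (L ^ t) l → G t l s) := by
    intro t l
    by_cases ht : t < R
    · by_cases hl : PermOn (L ^ t) l
      · obtain ⟨s, h1, h2⟩ := hG t ht l hl
        exact ⟨s, h1, fun _ _ => h2⟩
      · exact ⟨fun _ x => x, fun _ => PermOn.id L, fun _ h => absurd h hl⟩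
    · exact ⟨fun _ x => x, fun _ => PermOn.id L, fun h => absurd h ht⟩
  choose s hs using h0
  let l : ℕ → ℕ → ℕ := fun t => Nat.rec (fun _ => 0)
    (fun t lt k => lt (k / L) * L + s t lt (k / L) (k % L)) t
  have hls : ∀ t, l (t + 1) = fun k => l t (k / L) * L + s t (l t) (k / L) (k % L) :=
    fun _ => rfl
  let sg : ℕ → ℕ → ℕ → ℕ := fun t => s t (l t)
  have hσ : ∀ t k, PermOn L (sg t k) := fun t k => (hs t (l t)).1 k
  have hlam : ∀ t, row L sg t = l t := by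
    intro t
    induction t with
    | zero => rfl
    | succ t ih =>
      funext k
      rw [hls]
      simp only [row, ih]
      rfl
  refine ⟨sg, hσ, fun t ht => ?_⟩
  rw [hlam t]
  refine (hs t (l t)).2 ht ?_
  rw [← hlam t]
  exact row_permOn hL hσ t

/-- Positions `p < L ^ R * a₀`: the permutation `rowPi`. -/
def rowPi (L : ℕ) (sg : ℕ → ℕ → ℕ → ℕ) (R a₀ p : ℕ) : ℕ := row L sg R (p / a₀) * a₀ + p % a₀

theorem rowPi_permOn {L : ℕ} (hL : 0 < L) {sg : ℕ → ℕ → ℕ → ℕ} (hσ : ∀ t k, PermOn L (sg t k))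
    (R : ℕ) {a₀ : ℕ} (ha : 0 < a₀) : PermOn (L ^ R * a₀) (rowPi L sg R a₀) := by
  have h := permOn_step ha (row_permOn hL hσ R) (s := fun _ x => x) (fun _ => PermOn.id a₀)
  exact h

/-- The place of `p` lies in the row block of its block of level `t`. -/
theorem rowPi_div {L : ℕ} (hL : 0 < L) {sg : ℕ → ℕ → ℕ → ℕ} (hσ : ∀ t k, PermOn L (sg t k))
    {R a₀ t : ℕ} (ha : 0 < a₀) (ht : t ≤ R) (p : ℕ) :
    rowPi L sg R a₀ p / bs L R a₀ t = row L sg t (p / bs L R a₀ t) := by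
  have h1 : rowPi L sg R a₀ p / a₀ = row L sg R (p / a₀) := by
    unfold rowPi
    rw [Nat.add_comm, Nat.add_mul_div_right _ _ ha, Nat.div_eq_of_lt (Nat.mod_lt _ ha), zero_add]
  have h2 := row_div hL hσ t (R - t) (p / a₀)
  rw [show t + (R - t) = R by omega] at h2
  unfold bs
  rw [mul_comm (L ^ (R - t)) a₀, ← Nat.div_div_eq_div_mul, h1, h2, Nat.div_div_eq_div_mul]

theorem bs_succ {L R a₀ t : ℕ} (ht : t < R) : bs L R a₀ t = L * bs L R a₀ (t + 1) := by
  unfold bs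
  rw [show R - t = (R - (t + 1)) + 1 by omega, pow_succ]
  ring

theorem bs_pos {L R a₀ t : ℕ} (hL : 0 < L) (ha : 0 < a₀) : 0 < bs L R a₀ t := by
  unfold bs
  positivity

theorem pow_mul_bs {L R a₀ t : ℕ} (ht : t ≤ R) : L ^ t * bs L R a₀ t = L ^ R * a₀ := by
  unfold bs
  rw [← mul_assoc, ← pow_add, show t + (R - t) = R by omega]

end Pool.Agent.Lib.HBP
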