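import Mathlib
import Pool.Agent.Lib.MP_70146a_co.Upper
import Pool.Agent.Lib.HBP.GRow

/-!
# Project HBP, GLOBAL: from a strictly monotone set of edges to a chain

`gPi` is the permutation of `[0, n)`: hierarchical on `[0, L ^ R * a₀)`, identity on the rest.
-/

namespace Pool.Agent.Lib.HBP

open Finset
open Pool.Agent.Lib.MP_70146a_co

/-- The permutation of `[0, n)`. -/
def gPi (L : ℕ) (sg : ℕ → ℕ → ℕ → ℕ) (R a₀ p : ℕ) : ℕ :=
  if p < L ^ R * a₀ then rowPi L sg R a₀ p else p

theorem gPi_permOn {L : ℕ} (hL : 0 < L) {sg : ℕ → ℕ → ℕ → ℕ} (hσ : ∀ t k, PermOn L (sg t k))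
    (R : ℕ) {a₀ n : ℕ} (ha : 0 < a₀) (hn : L ^ R * a₀ ≤ n) : PermOn n (gPi L sg R a₀) := by
  have h := rowPi_permOn hL hσ R ha
  constructor
  · intro x hx
    unfold gPi
    split_ifs with h1
    · exact lt_of_lt_of_le (h.1 x h1) hn
    · exact hx
  · intro x y hx hy hxy
    unfold gPi at hxy
    split_ifs at hxy with h1 h2 h2
    · exact h.2 x y h1 h2 hxy
    · have := h.1 x h1; omega
    · have := h.1 y h2; omega
    · exact hxy

/-- A subset with distinct weights. -/
theorem exists_distinct (f : ℕ → ℕ) (E : Finset (ℕ × ℕ)) :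
    ∃ E1 ⊆ E, E1.card = nw f E ∧
      ∀ e ∈ E1, ∀ e' ∈ E1, e.2 + f e.1 = e'.2 + f e'.1 → e = e' := by
  classical
  have h : ∀ v, ∃ e : ℕ × ℕ, v ∈ E.image (fun e => e.2 + f e.1) → e ∈ E ∧ e.2 + f e.1 = v := by
    intro v
    by_cases hv : v ∈ E.image (fun e => e.2 + f e.1)
    · rw [Finset.mem_image] at hv
      obtain ⟨e, he, hev⟩ := hv
      exact ⟨e, fun _ => ⟨he, hev⟩⟩
    · exact ⟨(0, 0), fun h => absurd h hv⟩
  choose c hc using h
  refine ⟨(E.image fun e => e.2 + f e.1).image c, ?_, ?_, ?_⟩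
  · intro e he
    rw [Finset.mem_image] at he
    obtain ⟨v, hv, rfl⟩ := he
    exact (hc v hv).1
  · unfold nw
    apply Finset.card_image_of_injOn
    intro v hv v' hv' hvv
    rw [← (hc v hv).2, ← (hc v' hv').2, hvv]
  · intro e he e' he' h
    rw [Finset.mem_image] at he he'
    obtain ⟨v, hv, rfl⟩ := he
    obtain ⟨v', hv', rfl⟩ := he'
    rw [(hc v hv).2, (hc v' hv').2] at h
    rw [h]

theorem chain_data {L R a₀ n : ℕ} (hL : 0 < L) (ha : 0 < a₀) {sg : ℕ → ℕ → ℕ → ℕ}
    (hσ : ∀ t k, PermOn L (sg t k)) (hn2 : n ≤ 2 * (L ^ R * a₀))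
    (E : Finset (ℕ × ℕ)) (hE : ∀ e ∈ E, e.1 < n ∧ e.2 < n)
    (hinj : ∀ e ∈ E, ∀ e' ∈ E, e.1 = e'.1 → e = e')
    (hmon : ∀ e ∈ E, ∀ e' ∈ E, e.1 < e'.1 → e.2 < e'.2) :
    ∃ (Y : ℕ → ℕ) (C : Finset ℕ) (w : ℕ → ℕ), Monotone Y ∧ (∀ x, Y x ≤ 2 * (L ^ R * a₀)) ∧
      C ⊆ range (L ^ R * a₀) ∧ Set.InjOn w C ∧ (∀ q ∈ C, w q < 4 * (L ^ R * a₀)) ∧
      (∀ q ∈ C, Y q + 1 ≤ Y (q + 1)) ∧
      (∀ t < R, InRange Y (row L sg t) (sg t) L (bs L R a₀ (t + 1)) C w) ∧
      nw (gPi L sg R a₀) E ≤ C.card + (n - L ^ R * a₀) := by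
  classical
  set N : ℕ := L ^ R * a₀ with hN
  set f := gPi L sg R a₀ with hf
  obtain ⟨E1, hE1, hcard, hdist⟩ := exists_distinct f E
  have hE1b : ∀ e ∈ E1, e.1 < n ∧ e.2 < n := fun e he => hE e (hE1 he)
  have hinj1 : ∀ e ∈ E1, ∀ e' ∈ E1, e.1 = e'.1 → e = e' :=
    fun e he e' he' h => hinj e (hE1 he) e' (hE1 he') h
  have hmon1 : ∀ e ∈ E1, ∀ e' ∈ E1, e.1 < e'.1 → e.2 < e'.2 :=
    fun e he e' he' h => hmon e (hE1 he) e' (hE1 he') h
  set Y : ℕ → ℕ := stair E1 with hY
  have hcomp := stair_compat E1 hmon1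
  set C : Finset ℕ := (E1.filter fun e => e.1 < N).image fun e => e.1 with hC
  have hmemC : ∀ q, q ∈ C → ∃ r, (q, r) ∈ E1 := by
    intro q hq
    rw [hC, mem_image] at hq
    obtain ⟨e, he, rfl⟩ := hq
    rw [mem_filter] at he
    exact ⟨e.2, he.1⟩
  have hCN : ∀ q ∈ C, q < N := by
    intro q hq
    rw [hC, mem_image] at hq
    obtain ⟨e, he, rfl⟩ := hq
    rw [mem_filter] at he
    exact he.2
  have hr0 : ∀ q, ∃ r, q ∈ C → (q, r) ∈ E1 := by
    intro q
    by_cases hq : q ∈ C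
    · obtain ⟨r, hr⟩ := hmemC q hq
      exact ⟨r, fun _ => hr⟩
    · exact ⟨0, fun h => absurd h hq⟩
  choose r hr using hr0
  have hfq : ∀ q, q < N → f q = rowPi L sg R a₀ q := by
    intro q hq
    rw [hf]
    unfold gPi
    rw [if_pos hq]
  have hperm := rowPi_permOn hL hσ R ha
  refine ⟨Y, C, fun q => r q + f q, stair_mono E1, ?_, ?_, ?_, ?_, ?_, ?_, ?_⟩
  · intro x
    exact (stair_le E1 n (fun e he => (hE1b e he).2) x).trans hn2
  · intro q hq
    exact mem_range.mpr (hCN q hq)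
  · intro q hq q' hq' h
    have h1 := hdist _ (hr q hq) _ (hr q' hq') h
    exact congrArg Prod.fst h1
  · intro q hq
    have h1 := (hE1b _ (hr q hq)).2
    have h2 := hperm.1 q (hCN q hq)
    simp only at h1 ⊢
    rw [hfq q (hCN q hq)]
    omega
  · intro q hq
    have h1 := hcomp _ (hr q hq)
    simp only at h1
    rw [← hY] at h1
    omega
  · intro t ht q hq
    set b := bs L R a₀ (t + 1) with hb
    have hbpos : 0 < b := bs_pos hL ha
    have h1 := hcomp _ (hr q hq)
    simp only at h1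
    rw [← hY] at h1
    have hdiv := rowPi_div hL hσ ha (show t + 1 ≤ R by omega) q
    rw [← hb] at hdiv
    have hrow : row L sg (t + 1) (q / b) =
        row L sg t (q / b / L) * L + sg t (q / b / L) (q / b % L) := rfl
    have hlo : row L sg (t + 1) (q / b) * b ≤ rowPi L sg R a₀ q := by
      rw [← hdiv]; exact Nat.div_mul_le_self _ _
    have hhi : rowPi L sg R a₀ q < row L sg (t + 1) (q / b) * b + b := by
      rw [← hdiv]; exact Nat.lt_div_mul_add hbpos
    have hkx : q / b / L * L + q / b % L = q / b := by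
      rw [mul_comm]; exact Nat.div_add_mod _ _
    have hY1 : Y (q / b * b) ≤ Y q := stair_mono E1 (Nat.div_mul_le_self _ _)
    have hY2 : Y (q + 1) ≤ Y ((q / b + 1) * b) := by
      apply stair_mono E1
      have := Nat.lt_div_mul_add (a := q) hbpos
      rw [add_mul, one_mul]
      omega
    unfold Ak
    rw [hkx, ← add_assoc (q / b / L * L) (q / b % L) 1, hkx]
    simp only
    rw [hfq q (hCN q hq)]
    have e1 : row L sg t (q / b / L) * (L * b) + sg t (q / b / L) (q / b % L) * b =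
        row L sg (t + 1) (q / b) * b := by rw [hrow]; ring
    constructor
    · calc Y (q / b * b) + row L sg t (q / b / L) * (L * b) + sg t (q / b / L) (q / b % L) * b
          = Y (q / b * b) + row L sg (t + 1) (q / b) * b := by rw [← e1]; ring
        _ ≤ r q + rowPi L sg R a₀ q := by omega
    · calc r q + rowPi L sg R a₀ q
          < Y ((q / b + 1) * b) + row L sg (t + 1) (q / b) * b + b := by omega
        _ = Y ((q / b + 1) * b) + row L sg t (q / b / L) * (L * b) +
            (sg t (q / b / L) (q / b % L) + 1) * b := by rw [← e1]; ring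
  · have h1 : C.card = (E1.filter fun e => e.1 < N).card := by
      rw [hC]
      apply card_image_of_injOn
      intro e he e' he' h
      have he1 := (mem_filter.mp (by simpa using he : e ∈ E1.filter fun e => e.1 < N)).1
      have he1' := (mem_filter.mp (by simpa using he' : e' ∈ E1.filter fun e => e.1 < N)).1
      exact hinj1 e he1 e' he1' h
    have h2 : (E1.filter fun e => ¬ e.1 < N).card ≤ n - N := by
      have h3 : ((E1.filter fun e => ¬ e.1 < N).image fun e => e.1) ⊆ Finset.Ico N n := by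
        intro q hq
        rw [mem_image] at hq
        obtain ⟨e, he, rfl⟩ := hq
        rw [mem_filter] at he
        rw [Finset.mem_Ico]
        exact ⟨by omega, (hE1b e he.1).1⟩
      have h4 := card_le_card h3
      rw [Nat.card_Ico, card_image_of_injOn] at h4
      · exact h4
      · intro e he e' he' h
        have he1 := (mem_filter.mp (by simpa using he : e ∈ E1.filter fun e => ¬ e.1 < N)).1
        have he1' := (mem_filter.mp (by simpa using he' : e' ∈ E1.filter fun e => ¬ e.1 < N)).1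
        exact hinj1 e he1 e' he1' h
    have h5 := card_filter_add_card_filter_not (s := E1) (fun e => e.1 < N)
    rw [← hcard]
    omega

end Pool.Agent.Lib.HBP
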