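import Mathlib

/-!
# Project HBP, GLOBAL: removing the blocks with extreme slopes

The blocks of level `t ≤ R` have size `L ^ (R - t) * a₀`, block `k` is `[k S, (k+1) S)`.
`C` is a finite set of positions, `F` a monotone height function with
`F (p+1) ≥ F p + 1` for `p ∈ C`.
-/

namespace Pool.Agent.Lib.HBP

open Finset

/-- Height of block `k` of size `S`. -/
def dF (F : ℕ → ℕ) (S k : ℕ) : ℕ := F ((k + 1) * S) - F (k * S)

/-- The block `k` of size `S` has an extreme slope. -/
def ExtS (A : ℕ) (F : ℕ → ℕ) (S k : ℕ) : Prop := A * S < dF F S k ∨ A * dF F S k < S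

/-- `C` without the positions which lie in an extreme block of some level. -/
noncomputable def cutC (A L R a₀ : ℕ) (F : ℕ → ℕ) (C : Finset ℕ) : Finset ℕ :=
  open Classical in
    C.filter fun p => ∀ t ≤ R, ¬ ExtS A F (L ^ (R - t) * a₀) (p / (L ^ (R - t) * a₀))

/-- The points of `C` in block `k` of level `R - i` which lie in an extreme block of a level
`≥ R - i`. -/
noncomputable def badC (A L a₀ : ℕ) (F : ℕ → ℕ) (C : Finset ℕ) (i k : ℕ) : Finset ℕ :=
  open Classical in
    C.filter fun p => p / (L ^ i * a₀) = k ∧ ∃ j ≤ i, ExtS A F (L ^ j * a₀) (p / (L ^ j * a₀))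

theorem dF_split {F : ℕ → ℕ} (hF : Monotone F) (L S k : ℕ) :
    ∑ x ∈ range L, dF F S (k * L + x) = dF F (L * S) k := by
  have h : ∀ m, ∑ x ∈ range m, dF F S (k * L + x) = F ((k * L + m) * S) - F (k * L * S) := by
    intro m
    induction m with
    | zero => simp
    | succ m ih =>
      rw [sum_range_succ, ih]
      unfold dF
      have h1 : F (k * L * S) ≤ F ((k * L + m) * S) :=
        hF (Nat.mul_le_mul_right _ (by omega))
      have h2 : F ((k * L + m) * S) ≤ F ((k * L + m + 1) * S) :=
        hF (Nat.mul_le_mul_right _ (by omega))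
      have e : (k * L + (m + 1)) * S = (k * L + m + 1) * S := by ring
      rw [e]
      omega
  rw [h L]
  unfold dF
  have e1 : (k * L + L) * S = (k + 1) * (L * S) := by ring
  have e2 : k * L * S = k * (L * S) := by ring
  rw [e1, e2]

/-- The number of points of `C` in a block is at most its height. -/
theorem card_le_height {F : ℕ → ℕ} (hF : Monotone F) {C : Finset ℕ}
    (hC : ∀ p ∈ C, F p + 1 ≤ F (p + 1)) (a m : ℕ) :
    (C.filter fun p => a ≤ p ∧ p < a + m).card ≤ F (a + m) - F a := by
  induction m with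
  | zero =>
    have : (C.filter fun p => a ≤ p ∧ p < a + 0) = ∅ := by
      rw [Finset.filter_eq_empty_iff]
      intro p _
      omega
    rw [this]; simp
  | succ m ih =>
    have h1 : F a ≤ F (a + m) := hF (by omega)
    have h2 : F (a + m) ≤ F (a + m + 1) := hF (by omega)
    by_cases hm : a + m ∈ C
    · have h3 := hC _ hm
      have h4 : (C.filter fun p => a ≤ p ∧ p < a + (m + 1)) ⊆
          insert (a + m) (C.filter fun p => a ≤ p ∧ p < a + m) := by
        intro p hp
        rw [mem_filter] at hp
        rw [mem_insert, mem_filter]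
        by_cases h5 : p = a + m
        · exact Or.inl h5
        · exact Or.inr ⟨hp.1, hp.2.1, by omega⟩
      have h5 := card_le_card h4
      have h6 := card_insert_le (a + m) (C.filter fun p => a ≤ p ∧ p < a + m)
      have e : F (a + (m + 1)) = F (a + m + 1) := rfl
      rw [e]
      omega
    · have h4 : (C.filter fun p => a ≤ p ∧ p < a + (m + 1)) ⊆
          (C.filter fun p => a ≤ p ∧ p < a + m) := by
        intro p hp
        rw [mem_filter] at hp ⊢
        refine ⟨hp.1, hp.2.1, ?_⟩
        have : p ≠ a + m := fun h => hm (h ▸ hp.1)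
        omega
      have h5 := card_le_card h4
      have e : F (a + (m + 1)) = F (a + m + 1) := rfl
      rw [e]
      omega

theorem card_block_le {C : Finset ℕ} (a m : ℕ) :
    (C.filter fun p => a ≤ p ∧ p < a + m).card ≤ m := by
  have h : (C.filter fun p => a ≤ p ∧ p < a + m) ⊆ Finset.Ico a (a + m) := by
    intro p hp
    rw [mem_filter] at hp
    rw [Finset.mem_Ico]
    exact hp.2
  have := card_le_card h
  rwa [Nat.card_Ico, Nat.add_sub_cancel_left] at this

/-- The points of an extreme block. -/
theorem card_ext {A S : ℕ} (hS : 0 < S) {F : ℕ → ℕ} (hF : Monotone F)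
    {C : Finset ℕ} (hC : ∀ p ∈ C, F p + 1 ≤ F (p + 1)) {k : ℕ} (hE : ExtS A F S k)
    {D : Finset ℕ} (hD : ∀ p ∈ D, p ∈ C ∧ p / S = k) :
    A * D.card ≤ S + dF F S k := by
  have hsub : D ⊆ C.filter fun p => k * S ≤ p ∧ p < k * S + S := by
    intro p hp
    obtain ⟨hpC, hk⟩ := hD p hp
    rw [mem_filter]
    refine ⟨hpC, ?_, ?_⟩
    · rw [← hk]; exact Nat.div_mul_le_self _ _
    · rw [← hk]; exact Nat.lt_div_mul_add hS
  have h1 := (card_le_card hsub).trans (card_le_height hF hC _ _)
  have h2 := (card_le_card hsub).trans (card_block_le _ _)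
  have e : k * S + S = (k + 1) * S := by ring
  rw [e] at h1
  unfold ExtS dF at hE
  unfold dF
  rcases hE with h | h
  · have h3 : A * D.card ≤ A * S := Nat.mul_le_mul_left _ h2
    omega
  · have h3 : A * D.card ≤ A * (F ((k + 1) * S) - F (k * S)) := Nat.mul_le_mul_left _ h1
    omega

theorem badC_card {A L a₀ : ℕ} (hL : 0 < L) (ha : 0 < a₀) {F : ℕ → ℕ} (hF : Monotone F)
    {C : Finset ℕ} (hC : ∀ p ∈ C, F p + 1 ≤ F (p + 1)) (i : ℕ) :
    ∀ k, A * (badC A L a₀ F C i k).card ≤ L ^ i * a₀ + dF F (L ^ i * a₀) k := by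
  classical
  induction i with
  | zero =>
    intro k
    by_cases hE : ExtS A F (L ^ 0 * a₀) k
    · refine card_ext (by positivity) hF hC hE fun p hp => ?_
      unfold badC at hp
      rw [mem_filter] at hp
      exact ⟨hp.1, hp.2.1⟩
    · have h0 : badC A L a₀ F C 0 k = ∅ := by
        unfold badC
        rw [Finset.filter_eq_empty_iff]
        rintro p hpC ⟨hk, j, hj, hEj⟩
        have hj0 : j = 0 := by omega
        subst hj0
        rw [hk] at hEj
        exact hE hEj
      rw [h0]; simp
  | succ i ih =>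
    intro k
    by_cases hE : ExtS A F (L ^ (i + 1) * a₀) k
    · refine card_ext (by positivity) hF hC hE fun p hp => ?_
      unfold badC at hp
      rw [mem_filter] at hp
      exact ⟨hp.1, hp.2.1⟩
    · have hsub : badC A L a₀ F C (i + 1) k ⊆
          (range L).biUnion fun x => badC A L a₀ F C i (k * L + x) := by
        intro p hp
        unfold badC at hp
        rw [mem_filter] at hp
        obtain ⟨hpC, hk, j, hj, hEj⟩ := hp
        have hji : j ≤ i := by
          by_contra hlt
          have : j = i + 1 := by omega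
          subst this
          rw [hk] at hEj
          exact hE hEj
        have hkk : p / (L ^ i * a₀) / L = k := by
          rw [Nat.div_div_eq_div_mul, ← hk]
          congr 1
          ring
        rw [mem_biUnion]
        refine ⟨p / (L ^ i * a₀) % L, mem_range.mpr (Nat.mod_lt _ hL), ?_⟩
        unfold badC
        rw [mem_filter]
        refine ⟨hpC, ?_, j, hji, hEj⟩
        rw [← hkk]
        rw [mul_comm (p / (L ^ i * a₀) / L) L]
        exact (Nat.div_add_mod _ _).symm
      have h1 : (badC A L a₀ F C (i + 1) k).card ≤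
          ∑ x ∈ range L, (badC A L a₀ F C i (k * L + x)).card :=
        (card_le_card hsub).trans card_biUnion_le
      calc A * (badC A L a₀ F C (i + 1) k).card
          ≤ A * ∑ x ∈ range L, (badC A L a₀ F C i (k * L + x)).card := Nat.mul_le_mul_left _ h1
        _ = ∑ x ∈ range L, A * (badC A L a₀ F C i (k * L + x)).card := by rw [mul_sum]
        _ ≤ ∑ x ∈ range L, (L ^ i * a₀ + dF F (L ^ i * a₀) (k * L + x)) :=
            sum_le_sum fun x _ => ih _
        _ = L ^ (i + 1) * a₀ + dF F (L ^ (i + 1) * a₀) k := by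
            have e : L * (L ^ i * a₀) = L ^ (i + 1) * a₀ := by ring
            rw [sum_add_distrib, dF_split hF, sum_const, card_range, smul_eq_mul, e]

/-- Few points are removed. -/
theorem card_cutC {A L R a₀ : ℕ} (hL : 0 < L) (ha : 0 < a₀) {F : ℕ → ℕ} (hF : Monotone F)
    {C : Finset ℕ} (hC : ∀ p ∈ C, F p + 1 ≤ F (p + 1)) (hCq : ∀ p ∈ C, p < L ^ R * a₀) :
    A * C.card ≤ A * (cutC A L R a₀ F C).card + (L ^ R * a₀ + (F (L ^ R * a₀) - F 0)) := by
  classical
  have hS : 0 < L ^ R * a₀ := by positivity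
  have hsub : C ⊆ cutC A L R a₀ F C ∪ badC A L a₀ F C R 0 := by
    intro p hp
    rw [mem_union]
    by_cases h : ∀ t ≤ R, ¬ ExtS A F (L ^ (R - t) * a₀) (p / (L ^ (R - t) * a₀))
    · left
      unfold cutC
      rw [mem_filter]
      exact ⟨hp, h⟩
    · right
      push Not at h
      obtain ⟨t, ht, hE⟩ := h
      unfold badC
      rw [mem_filter]
      exact ⟨hp, Nat.div_eq_of_lt (hCq p hp), R - t, by omega, hE⟩
  have h1 : C.card ≤ (cutC A L R a₀ F C).card + (badC A L a₀ F C R 0).card :=
    (card_le_card hsub).trans (card_union_le _ _)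
  have h2 := badC_card (A := A) hL ha hF hC R 0
  have h3 : dF F (L ^ R * a₀) 0 = F (L ^ R * a₀) - F 0 := by
    unfold dF
    simp
  rw [h3] at h2
  calc A * C.card ≤ A * ((cutC A L R a₀ F C).card + (badC A L a₀ F C R 0).card) :=
        Nat.mul_le_mul_left _ h1
    _ = A * (cutC A L R a₀ F C).card + A * (badC A L a₀ F C R 0).card := by ring
    _ ≤ _ := Nat.add_le_add_left h2 _

theorem cutC_subset (A L R a₀ : ℕ) (F : ℕ → ℕ) (C : Finset ℕ) : cutC A L R a₀ F C ⊆ C := by
  classical
  unfold cutC
  exact filter_subset _ _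

/-- Blocks of all levels which contain a remaining point have a moderate slope. -/
theorem cutC_slope {A L R a₀ : ℕ} {F : ℕ → ℕ} {C : Finset ℕ} {p : ℕ}
    (hp : p ∈ cutC A L R a₀ F C) {t : ℕ} (ht : t ≤ R) :
    dF F (L ^ (R - t) * a₀) (p / (L ^ (R - t) * a₀)) ≤ A * (L ^ (R - t) * a₀) ∧
      L ^ (R - t) * a₀ ≤ A * dF F (L ^ (R - t) * a₀) (p / (L ^ (R - t) * a₀)) := by
  classical
  unfold cutC at hp
  rw [mem_filter] at hp
  have h := hp.2 t ht
  unfold ExtS at h
  push Not at h
  exact h

end Pool.Agent.Lib.HBP
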