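import Mathlib
import Pool.Agent.Lib.HBP.GSlope
import Pool.Agent.Lib.HBP.Level

/-!
# Project HBP, GLOBAL: the slope condition of `red` for the cut chain
-/

namespace Pool.Agent.Lib.HBP

open Finset

theorem cut_slo {J0 L R a₀ : ℕ} (hL : 0 < L) (ha : 0 < a₀) {Y : ℕ → ℕ} (hY : Monotone Y)
    {C : Finset ℕ} {q : ℕ} (hq : q ∈ cutC (4 ^ J0) L R a₀ Y C) {t : ℕ} (ht : t ≤ R) :
    1 ≤ slo Y (bs L R a₀ t) (q / bs L R a₀ t) * 4 ^ J0 ∧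
      slo Y (bs L R a₀ t) (q / bs L R a₀ t) ≤ 4 ^ J0 := by
  obtain ⟨h1, h2⟩ := cutC_slope hq ht
  have hS : 0 < bs L R a₀ t := by unfold bs; positivity
  have hSr : (0 : ℝ) < (bs L R a₀ t : ℕ) := by exact_mod_cast hS
  set S := bs L R a₀ t with hSdef
  set k := q / S with hk
  have e : L ^ (R - t) * a₀ = S := rfl
  rw [e] at h1 h2
  have hmono : Y (k * S) ≤ Y ((k + 1) * S) := hY (Nat.mul_le_mul_right _ (by omega))
  have hd : ((dF Y S k : ℕ) : ℝ) = (Y ((k + 1) * S) : ℝ) - Y (k * S) := by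
    unfold dF
    rw [Nat.cast_sub hmono]
  have h1' : (Y ((k + 1) * S) : ℝ) - Y (k * S) ≤ 4 ^ J0 * S := by
    rw [← hd]
    exact_mod_cast h1
  have h2' : (S : ℝ) ≤ 4 ^ J0 * ((Y ((k + 1) * S) : ℝ) - Y (k * S)) := by
    rw [← hd]
    exact_mod_cast h2
  unfold slo
  constructor
  · rw [div_mul_eq_mul_div, le_div_iff₀ hSr]
    linarith
  · rw [div_le_iff₀ hSr]
    exact h1'

/-- The number of removed points, with `Y ≤ 2 N`. -/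
theorem cut_card {J0 L R a₀ : ℕ} (hL : 0 < L) (ha : 0 < a₀) {Y : ℕ → ℕ} (hY : Monotone Y)
    (hY2 : ∀ x, Y x ≤ 2 * (L ^ R * a₀)) {C : Finset ℕ} (hC : ∀ p ∈ C, Y p + 1 ≤ Y (p + 1))
    (hCq : ∀ p ∈ C, p < L ^ R * a₀) :
    (4 : ℝ) ^ J0 * C.card ≤ 4 ^ J0 * (cutC (4 ^ J0) L R a₀ Y C).card + 3 * (L ^ R * a₀ : ℕ) := by
  have h := card_cutC (A := 4 ^ J0) hL ha hY hC hCq
  have h1 : Y (L ^ R * a₀) - Y 0 ≤ 2 * (L ^ R * a₀) := (Nat.sub_le _ _).trans (hY2 _)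
  have h2 : 4 ^ J0 * C.card ≤ 4 ^ J0 * (cutC (4 ^ J0) L R a₀ Y C).card + 3 * (L ^ R * a₀) := by
    omega
  exact_mod_cast h2

end Pool.Agent.Lib.HBP
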