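import Mathlib
import Pool.Agent.Lib.HBP.Level
import Pool.Agent.Lib.HBP.NlF

/-!
MODULE SgDisj: the columns of all arcs of a block are pairwise distinct and `< L`.

PROOF.  `U = u1 u2 = 4^i`, `i ≤ J0`, so `2U ∣ a` and `2 ∣ a` (`P.hdiv`); `D = Dh h = 10^26 h^3`, `D/2 ≥ 34 h²+1`;
`c s = (s D + pos s) a`, `e s = 2 (s % U) + 1 < 2U` (odd).  One of the two families is NEAR: columns
`c s + (even number ≤ 33 h² a)`, the other one FAR: columns `c s + 34 h² a + e s + 2U k` with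
`2 U k ≤ 33 U h² a`:  if `u1 = 1` (`u2 = U`): `arcA = c s + 16 l` near (`16 l ≤ 8h²a`),
`arcB = c s + 34h²a + e s + 2U Nl` far (`Nl ≤ 33h²a/2`, `Nl_le`); if `u1 ≠ 1` (`u2 = 1`, `u1 = U`):
`arcA = c s + 34h²a + e s + 16 U l` far, `arcB = c s + 2 Nl` near.
PARITY: near columns are even, far columns are odd, so `arcA ≠ arcB`.
NEAR INJECTIVE: for `s < s'`: `c s' - c s ≥ (D - pos s) a ≥ (D/2) a > 33h²a`, so columns of different slots differ;
in one slot `l ↦ 16 l`, `l ↦ Nl` are injective (`Nl_anti`).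
FAR INJECTIVE: equality implies (mod `2U`, all other terms are multiples of `2U`) `e s = e s'`, so `s ≡ s'` mod
`U`; if `s < s'` then `s' ≥ s + U` and `c s' - c s ≥ (U D - D/2) a ≥ (U D/2) a > 33 U h² a`, contradiction; so
`s = s'` and `k = k'`, `l = l'`.
BOUND: `s + 1 ≤ nsl ≤ L/(D a) - (U + 3)`, `c s < (s+1) D a`, and `34h²a + 2U + 33Uh²a ≤ (U+3) D a`
(`2U ≤ a`), so every column is `< (L/(D a)) (D a) ≤ L`.
-/

namespace Pool.Agent.Lib.HBP

private theorem par_h {h h' K2 G a L J0 Q : ℕ} (P : Par h h' K2 G a L J0 Q) : 1 ≤ h := by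
  have h1 : 10 ^ 25 * 1 ≤ 10 ^ 25 * G := Nat.mul_le_mul_left _ P.Gpos
  have h2 : 1 ≤ h' := le_trans (by norm_num) (h1.trans P.hG)
  rw [P.hh]
  exact Nat.mul_pos P.K2pos h2

private theorem par_a {h h' K2 G a L J0 Q : ℕ} (P : Par h h' K2 G a L J0 Q) : 1 ≤ a := by
  have h1 : 1 ≤ Q := by
    refine le_trans ?_ P.hQ
    have := par_h P
    have hG := P.Gpos
    have hK := P.K2pos
    exact Nat.one_le_iff_ne_zero.mpr (by positivity)
  exact le_trans (Nat.one_le_pow _ _ h1) P.ha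

private theorem par_U {h h' K2 G a L J0 Q u1 u2 : ℕ} (P : Par h h' K2 G a L J0 Q)
    (hc : Cls u1 u2 J0) : 1 ≤ u1 * u2 ∧ 2 * (u1 * u2) ∣ a := by
  obtain ⟨i, hi, hU⟩ := hc.pow
  rw [hU]
  refine ⟨Nat.one_le_pow _ _ (by norm_num), ?_⟩
  refine Dvd.dvd.trans (mul_dvd_mul (by norm_num : 2 ∣ 32) (pow_dvd_pow 4 hi)) P.hdiv

private theorem half_ge {h : ℕ} (h1 : 1 ≤ h) : 35 * h ^ 2 ≤ Dh h / 2 := by
  rw [Nat.le_div_iff_mul_le (by norm_num), Dh]
  have h3 : h ^ 2 ≤ h ^ 3 := Nat.pow_le_pow_right h1 (by norm_num)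
  nlinarith

private theorem near_gap {h a : ℕ} (h1 : 1 ≤ h) (a1 : 1 ≤ a) (pos : ℕ → ℕ)
    (hpos : ∀ s, pos s < Dh h / 2) {s s' : ℕ} (hs : s < s') :
    (s * Dh h + pos s) * a + 33 * h ^ 2 * a < (s' * Dh h + pos s') * a := by
  have e1 := half_ge h1
  have e2 := hpos s
  have e3 : 2 * (Dh h / 2) ≤ Dh h := Nat.mul_div_le _ _
  have e4 : (s + 1) * Dh h ≤ s' * Dh h := Nat.mul_le_mul_right _ hs
  have e5 : s * Dh h + pos s + 33 * h ^ 2 < s' * Dh h + pos s' := by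
    have : (s + 1) * Dh h = s * Dh h + Dh h := by ring
    have e6 : 33 * h ^ 2 ≤ 35 * h ^ 2 := Nat.mul_le_mul_right _ (by norm_num)
    omega
  calc (s * Dh h + pos s) * a + 33 * h ^ 2 * a = (s * Dh h + pos s + 33 * h ^ 2) * a := by ring
    _ < (s' * Dh h + pos s') * a := Nat.mul_lt_mul_of_pos_right e5 a1

private theorem near_inj {h a : ℕ} (h1 : 1 ≤ h) (a1 : 1 ≤ a) (pos : ℕ → ℕ)
    (hpos : ∀ s, pos s < Dh h / 2) {s s' x x' : ℕ} (hx : x ≤ 33 * h ^ 2 * a)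
    (hx' : x' ≤ 33 * h ^ 2 * a)
    (he : (s * Dh h + pos s) * a + x = (s' * Dh h + pos s') * a + x') : s = s' ∧ x = x' := by
  rcases lt_trichotomy s s' with hs | hs | hs
  · have := near_gap h1 a1 pos hpos hs
    omega
  · subst hs
    exact ⟨rfl, by omega⟩
  · have := near_gap h1 a1 pos hpos hs
    omega

private theorem far_gap {h a U : ℕ} (h1 : 1 ≤ h) (a1 : 1 ≤ a) (U1 : 1 ≤ U) (pos : ℕ → ℕ)
    (hpos : ∀ s, pos s < Dh h / 2) {s s' : ℕ} (hs : s < s') (hm : s % U = s' % U) :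
    (s * Dh h + pos s) * a + 33 * U * h ^ 2 * a < (s' * Dh h + pos s') * a := by
  have e1 := half_ge h1
  have e2 := hpos s
  have e3 : 2 * (Dh h / 2) ≤ Dh h := Nat.mul_div_le _ _
  have e0 : s + U ≤ s' := by
    have hd : U ∣ s' - s := (Nat.modEq_iff_dvd' hs.le).mp hm
    have := Nat.le_of_dvd (by omega) hd
    omega
  have e4 : (s + U) * Dh h ≤ s' * Dh h := Nat.mul_le_mul_right _ e0
  have e5 : s * Dh h + pos s + 33 * U * h ^ 2 < s' * Dh h + pos s' := by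
    have f1 : (s + U) * Dh h = s * Dh h + U * Dh h := by ring
    have f2 : U * (2 * (Dh h / 2)) ≤ U * Dh h := Nat.mul_le_mul_left _ e3
    have f3 : U * (33 * h ^ 2) ≤ U * (Dh h / 2) :=
      Nat.mul_le_mul_left _ (le_trans (Nat.mul_le_mul_right _ (by norm_num)) e1)
    have f4 : Dh h / 2 ≤ U * (Dh h / 2) := Nat.le_mul_of_pos_left _ U1
    have f5 : U * (2 * (Dh h / 2)) = U * (Dh h / 2) + U * (Dh h / 2) := by ring
    have f6 : 33 * U * h ^ 2 = U * (33 * h ^ 2) := by ring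
    omega
  calc (s * Dh h + pos s) * a + 33 * U * h ^ 2 * a =
      (s * Dh h + pos s + 33 * U * h ^ 2) * a := by ring
    _ < (s' * Dh h + pos s') * a := Nat.mul_lt_mul_of_pos_right e5 a1

private theorem far_inj {h a U : ℕ} (h1 : 1 ≤ h) (a1 : 1 ≤ a) (U1 : 1 ≤ U) (hUa : 2 * U ∣ a)
    (pos : ℕ → ℕ) (hpos : ∀ s, pos s < Dh h / 2) {s s' k k' : ℕ}
    (hk : 2 * U * k ≤ 33 * U * h ^ 2 * a) (hk' : 2 * U * k' ≤ 33 * U * h ^ 2 * a)
    (he : (s * Dh h + pos s) * a + (34 * h ^ 2 * a + 2 * (s % U) + 1) + 2 * U * k =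
      (s' * Dh h + pos s') * a + (34 * h ^ 2 * a + 2 * (s' % U) + 1) + 2 * U * k') :
    s = s' ∧ k = k' := by
  have hm : s % U = s' % U := by
    obtain ⟨m, hm⟩ := hUa
    have r1 : 2 * (s % U) + 1 < 2 * U := by
      have := Nat.mod_lt s (show 0 < U by omega)
      omega
    have r2 : 2 * (s' % U) + 1 < 2 * U := by
      have := Nat.mod_lt s' (show 0 < U by omega)
      omega
    have q1 : (s * Dh h + pos s) * a + (34 * h ^ 2 * a + 2 * (s % U) + 1) + 2 * U * k =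
        2 * U * ((s * Dh h + pos s) * m + 34 * h ^ 2 * m + k) + (2 * (s % U) + 1) := by
      rw [hm]
      ring
    have q2 : (s' * Dh h + pos s') * a + (34 * h ^ 2 * a + 2 * (s' % U) + 1) + 2 * U * k' =
        2 * U * ((s' * Dh h + pos s') * m + 34 * h ^ 2 * m + k') + (2 * (s' % U) + 1) := by
      rw [hm]
      ring
    rw [q1, q2] at he
    have := congrArg (fun z => z % (2 * U)) he
    simp only [Nat.mul_add_mod, Nat.mod_eq_of_lt r1, Nat.mod_eq_of_lt r2] at this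
    omega
  have he' : (s * Dh h + pos s) * a + 2 * U * k = (s' * Dh h + pos s') * a + 2 * U * k' := by
    rw [hm] at he
    omega
  rcases lt_trichotomy s s' with hs | hs | hs
  · have := far_gap h1 a1 U1 pos hpos hs hm
    omega
  · subst hs
    refine ⟨rfl, ?_⟩
    have : 2 * U * k = 2 * U * k' := by omega
    exact Nat.eq_of_mul_eq_mul_left (by omega) this
  · have := far_gap h1 a1 U1 pos hpos hs hm.symm
    omega

private theorem l_bound {h a l : ℕ} (hl : l ≤ Mh h a) : 16 * l ≤ 8 * h ^ 2 * a := by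
  have : 2 * (h ^ 2 * a / 2) ≤ h ^ 2 * a := Nat.mul_div_le _ _
  unfold Mh at hl
  calc 16 * l ≤ 16 * (h ^ 2 * a / 2) := Nat.mul_le_mul_left _ hl
    _ = 8 * (2 * (h ^ 2 * a / 2)) := by ring
    _ ≤ 8 * (h ^ 2 * a) := Nat.mul_le_mul_left _ this
    _ = 8 * h ^ 2 * a := by ring

private theorem N_bound (h a l : ℕ) : 2 * Nl h a l ≤ 33 * h ^ 2 * a := by
  have h1 := Nl_le h a l
  have : 2 * (33 * h ^ 2 * a / 2) ≤ 33 * h ^ 2 * a := Nat.mul_div_le _ _
  omega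

private theorem Nl_inj {h a l l' : ℕ} (h1 : 1 ≤ h) (a1 : 1 ≤ a) (a2 : 2 ∣ a) (hl : l ≤ Mh h a)
    (hl' : l' ≤ Mh h a) (he : Nl h a l = Nl h a l') : l = l' := by
  rcases lt_trichotomy l l' with hs | hs | hs
  · have := Nl_anti h1 a1 a2 hs hl'
    omega
  · exact hs
  · have := Nl_anti h1 a1 a2 hs hl
    omega

theorem arcA_inj {h h' K2 G a L J0 Q u1 u2 : ℕ} (P : Par h h' K2 G a L J0 Q) (hc : Cls u1 u2 J0)
    (pos : ℕ → ℕ) (hpos : ∀ s, pos s < Dh h / 2) {s l s' l' : ℕ} (hl : l ≤ Mh h a) (hl' : l' ≤ Mh h a)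
    (he : arcA h a u1 u2 pos s l = arcA h a u1 u2 pos s' l') : s = s' ∧ l = l' := by
  have h1 := par_h P
  have a1 := par_a P
  obtain ⟨U1, hUa⟩ := par_U P hc
  unfold arcA al at he
  have b1 := l_bound hl
  have b2 := l_bound hl'
  by_cases hu : u1 = 1
  · rw [if_pos hu, if_pos hu, hu] at he
    have c1 : 8 * h ^ 2 * a ≤ 33 * h ^ 2 * a := by
      rw [mul_assoc, mul_assoc]
      exact Nat.mul_le_mul_right _ (by norm_num)
    have := near_inj (x := 16 * 1 * l) (x' := 16 * 1 * l') h1 a1 pos hpos (by omega) (by omega)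
      (by simpa using he)
    exact ⟨this.1, by omega⟩
  · have hu2 : u2 = 1 := hc.one.resolve_left hu
    rw [if_neg hu, if_neg hu] at he
    subst hu2
    rw [mul_one] at he U1 hUa
    have c1 : ∀ l, 16 * l ≤ 8 * h ^ 2 * a → 2 * u1 * (8 * l) ≤ 33 * u1 * h ^ 2 * a := by
      intro l hl
      calc 2 * u1 * (8 * l) = u1 * (16 * l) := by ring
        _ ≤ u1 * (8 * h ^ 2 * a) := Nat.mul_le_mul_left _ hl
        _ = 8 * (u1 * h ^ 2 * a) := by ring
        _ ≤ 33 * (u1 * h ^ 2 * a) := Nat.mul_le_mul_right _ (by norm_num)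
        _ = 33 * u1 * h ^ 2 * a := by ring
    have := far_inj (U := u1) (k := 8 * l) (k' := 8 * l') h1 a1 U1 hUa pos hpos (c1 l b1) (c1 l' b2)
      (by
        have e1 : 2 * u1 * (8 * l) = 16 * u1 * l := by ring
        have e2 : 2 * u1 * (8 * l') = 16 * u1 * l' := by ring
        rw [e1, e2]
        exact he)
    exact ⟨this.1, by omega⟩

theorem arcB_inj {h h' K2 G a L J0 Q u1 u2 : ℕ} (P : Par h h' K2 G a L J0 Q) (hc : Cls u1 u2 J0)
    (pos : ℕ → ℕ) (hpos : ∀ s, pos s < Dh h / 2) {s l s' l' : ℕ} (hl : l ≤ Mh h a) (hl' : l' ≤ Mh h a)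
    (he : arcB h a u1 u2 pos s l = arcB h a u1 u2 pos s' l') : s = s' ∧ l = l' := by
  have h1 := par_h P
  have a1 := par_a P
  obtain ⟨U1, hUa⟩ := par_U P hc
  have a2 : 2 ∣ a := (dvd_mul_right 2 (u1 * u2)).trans hUa
  unfold arcB be at he
  have b1 := N_bound h a l
  have b2 := N_bound h a l'
  by_cases hu : u1 = 1
  · rw [if_pos hu, if_pos hu] at he
    subst hu
    rw [one_mul] at he U1 hUa
    have c1 : ∀ k, 2 * k ≤ 33 * h ^ 2 * a → 2 * u2 * k ≤ 33 * u2 * h ^ 2 * a := by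
      intro k hk
      calc 2 * u2 * k = u2 * (2 * k) := by ring
        _ ≤ u2 * (33 * h ^ 2 * a) := Nat.mul_le_mul_left _ hk
        _ = 33 * u2 * h ^ 2 * a := by ring
    have := far_inj (U := u2) (k := Nl h a l) (k' := Nl h a l') h1 a1 U1 hUa pos hpos
      (c1 _ b1) (c1 _ b2) he
    exact ⟨this.1, Nl_inj h1 a1 a2 hl hl' this.2⟩
  · have hu2 : u2 = 1 := hc.one.resolve_left hu
    rw [if_neg hu, if_neg hu] at he
    subst hu2
    have := near_inj (x := 2 * 1 * Nl h a l) (x' := 2 * 1 * Nl h a l') h1 a1 pos hpos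
      (by omega) (by omega) (by simpa using he)
    exact ⟨this.1, Nl_inj h1 a1 a2 hl hl' (by omega)⟩

theorem arcA_ne_arcB {h h' K2 G a L J0 Q u1 u2 : ℕ} (P : Par h h' K2 G a L J0 Q) (hc : Cls u1 u2 J0)
    (pos : ℕ → ℕ) {s l s' l' : ℕ} : arcA h a u1 u2 pos s l ≠ arcB h a u1 u2 pos s' l' := by
  obtain ⟨U1, hUa⟩ := par_U P hc
  obtain ⟨m, hm⟩ := (dvd_mul_right 2 (u1 * u2)).trans hUa
  intro he
  unfold arcA arcB al be at he
  by_cases hu : u1 = 1
  · rw [if_pos hu, if_pos hu] at he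
    have q1 : (s * Dh h + pos s) * a + 0 + 16 * u1 * l =
        2 * ((s * Dh h + pos s) * m + 8 * u1 * l) := by
      rw [hm]
      ring
    have q2 : (s' * Dh h + pos s') * a + (34 * h ^ 2 * a + 2 * (s' % (u1 * u2)) + 1) +
        2 * u2 * Nl h a l' =
        2 * ((s' * Dh h + pos s') * m + 34 * h ^ 2 * m + s' % (u1 * u2) + u2 * Nl h a l') + 1 := by
      generalize Nl h a l' = N
      rw [hm]
      ring
    rw [q1, q2] at he
    omega
  · rw [if_neg hu, if_neg hu] at he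
    have q1 : (s * Dh h + pos s) * a + (34 * h ^ 2 * a + 2 * (s % (u1 * u2)) + 1) + 16 * u1 * l =
        2 * ((s * Dh h + pos s) * m + 34 * h ^ 2 * m + s % (u1 * u2) + 8 * u1 * l) + 1 := by
      rw [hm]
      ring
    have q2 : (s' * Dh h + pos s') * a + 0 + 2 * u2 * Nl h a l' =
        2 * ((s' * Dh h + pos s') * m + u2 * Nl h a l') := by
      generalize Nl h a l' = N
      rw [hm]
      ring
    rw [q1, q2] at he
    omega

private theorem col_lt {h h' K2 G a L J0 Q u1 u2 : ℕ} (P : Par h h' K2 G a L J0 Q)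
    (hc : Cls u1 u2 J0) (pos : ℕ → ℕ) (hpos : ∀ s, pos s < Dh h / 2) {s x : ℕ}
    (hs : s < nsl h G a L u1 u2)
    (hx : x ≤ 34 * h ^ 2 * a + 2 * (u1 * u2) + 33 * (u1 * u2) * h ^ 2 * a) :
    (s * Dh h + pos s) * a + x < L := by
  have h1 := par_h P
  have a1 := par_a P
  obtain ⟨U1, hUa⟩ := par_U P hc
  have hUle : 2 * (u1 * u2) ≤ a := Nat.le_of_dvd a1 hUa
  generalize hU : u1 * u2 = U at *
  have e1 := half_ge h1
  have e3 : 2 * (Dh h / 2) ≤ Dh h := Nat.mul_div_le _ _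
  have hD : 70 * h ^ 2 ≤ Dh h := by
    calc 70 * h ^ 2 = 2 * (35 * h ^ 2) := by ring
      _ ≤ 2 * (Dh h / 2) := Nat.mul_le_mul_left _ e1
      _ ≤ Dh h := e3
  have s1 : s < L / (Dh h * a) - (U + 3) := by
    have : nsl h G a L u1 u2 ≤ L / (Dh h * a) - (U + 3) := by
      unfold nsl
      rw [hU]
      exact Nat.mul_div_le _ _
    omega
  have s2 : (s + 1 + (U + 3)) * (Dh h * a) ≤ L := by
    calc (s + 1 + (U + 3)) * (Dh h * a) ≤ L / (Dh h * a) * (Dh h * a) :=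
          Nat.mul_le_mul_right _ (by omega)
      _ ≤ L := Nat.div_mul_le_self _ _
  have c1 : (s * Dh h + pos s) * a < (s + 1) * (Dh h * a) := by
    have := hpos s
    calc (s * Dh h + pos s) * a < (s * Dh h + Dh h) * a :=
          Nat.mul_lt_mul_of_pos_right (by omega) a1
      _ = (s + 1) * (Dh h * a) := by ring
  have c2 : 34 * h ^ 2 * a + 2 * U + 33 * U * h ^ 2 * a ≤ (U + 3) * (Dh h * a) := by
    have k1 : 1 ≤ h ^ 2 := Nat.one_le_pow _ _ h1
    have k2 : a ≤ h ^ 2 * a := Nat.le_mul_of_pos_left _ k1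
    have k3 : (U + 3) * (70 * h ^ 2 * a) ≤ (U + 3) * (Dh h * a) :=
      Nat.mul_le_mul_left _ (Nat.mul_le_mul_right _ hD)
    refine le_trans ?_ k3
    have k4 : (U + 3) * (70 * h ^ 2 * a) = 70 * (U * (h ^ 2 * a)) + 210 * (h ^ 2 * a) := by ring
    have k5 : 33 * U * h ^ 2 * a = 33 * (U * (h ^ 2 * a)) := by ring
    have k6 : 34 * h ^ 2 * a = 34 * (h ^ 2 * a) := by ring
    rw [k4, k5, k6]
    generalize U * (h ^ 2 * a) = X
    generalize h ^ 2 * a = Y at *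
    omega
  have c3 : (s + 1 + (U + 3)) * (Dh h * a) = (s + 1) * (Dh h * a) + (U + 3) * (Dh h * a) := by ring
  omega

theorem arcA_lt {h h' K2 G a L J0 Q u1 u2 : ℕ} (P : Par h h' K2 G a L J0 Q) (hc : Cls u1 u2 J0)
    (pos : ℕ → ℕ) (hpos : ∀ s, pos s < Dh h / 2) {s l : ℕ} (hs : s < nsl h G a L u1 u2)
    (hl : l ≤ Mh h a) : arcA h a u1 u2 pos s l < L := by
  obtain ⟨U1, hUa⟩ := par_U P hc
  have b1 := l_bound hl
  unfold arcA al
  rw [add_assoc]
  refine col_lt P hc pos hpos hs ?_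
  have hmod := Nat.mod_lt s (show 0 < u1 * u2 by omega)
  by_cases hu : u1 = 1
  · rw [if_pos hu]
    subst hu
    have c1 : 8 * h ^ 2 * a ≤ 34 * h ^ 2 * a := by
      rw [mul_assoc, mul_assoc]
      exact Nat.mul_le_mul_right _ (by norm_num)
    have c2 : 0 + 16 * 1 * l = 16 * l := by ring
    rw [c2]
    omega
  · rw [if_neg hu]
    have hu2 : u2 = 1 := hc.one.resolve_left hu
    subst hu2
    rw [mul_one] at hmod ⊢
    have c1 : 16 * u1 * l ≤ 33 * u1 * h ^ 2 * a := by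
      calc 16 * u1 * l = u1 * (16 * l) := by ring
        _ ≤ u1 * (8 * h ^ 2 * a) := Nat.mul_le_mul_left _ b1
        _ = 8 * (u1 * h ^ 2 * a) := by ring
        _ ≤ 33 * (u1 * h ^ 2 * a) := Nat.mul_le_mul_right _ (by norm_num)
        _ = 33 * u1 * h ^ 2 * a := by ring
    omega

theorem arcB_lt {h h' K2 G a L J0 Q u1 u2 : ℕ} (P : Par h h' K2 G a L J0 Q) (hc : Cls u1 u2 J0)
    (pos : ℕ → ℕ) (hpos : ∀ s, pos s < Dh h / 2) {s l : ℕ} (hs : s < nsl h G a L u1 u2)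
    (hl : l ≤ Mh h a) : arcB h a u1 u2 pos s l < L := by
  obtain ⟨U1, hUa⟩ := par_U P hc
  have b1 := N_bound h a l
  unfold arcB be
  rw [add_assoc]
  refine col_lt P hc pos hpos hs ?_
  have hmod := Nat.mod_lt s (show 0 < u1 * u2 by omega)
  by_cases hu : u1 = 1
  · rw [if_pos hu]
    subst hu
    rw [one_mul] at hmod ⊢
    have c1 : 2 * u2 * Nl h a l ≤ 33 * u2 * h ^ 2 * a := by
      calc 2 * u2 * Nl h a l = u2 * (2 * Nl h a l) := by ring
        _ ≤ u2 * (33 * h ^ 2 * a) := Nat.mul_le_mul_left _ b1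
        _ = 33 * u2 * h ^ 2 * a := by ring
    omega
  · rw [if_neg hu]
    have hu2 : u2 = 1 := hc.one.resolve_left hu
    subst hu2
    have c1 : 33 * h ^ 2 * a ≤ 33 * (u1 * 1) * h ^ 2 * a := by
      calc 33 * h ^ 2 * a = 1 * (33 * h ^ 2 * a) := by ring
        _ ≤ (u1 * 1) * (33 * h ^ 2 * a) := Nat.mul_le_mul_right _ U1
        _ = 33 * (u1 * 1) * h ^ 2 * a := by ring
    omega

end Pool.Agent.Lib.HBP
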