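import Mathlib
import Pool.Agent.Lib.HBP.Level
import Pool.Agent.Lib.HBP.CsA
import Pool.Agent.Lib.HBP.CsB
import Pool.Agent.Lib.HBP.CsC
import Pool.Agent.Lib.HBP.CsD

/-!
MASTER STATEMENT ArcLower (helper40): the effect of one matched arc.
`wst' = (A (α l*) + β l* b)/B` is the fold.
-/

namespace Pool.Agent.Lib.HBP

open Finset

theorem arc_lower {h a b u1 u2 a0 b0 w N : ℕ} (hh : 1 ≤ h) (ha2 : 2 ∣ a)
    (ha : 10 ^ 12 * h ^ 8 * (u1 * u2) ^ 4 ≤ a) (hb : 1 ≤ b) (hu : u1 = 1 ∨ u2 = 1) (hu1 : 1 ≤ u1)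
    (hu2 : 1 ≤ u2) {Ac : ℝ} (hAc : 3 ≤ Ac) (A : ℕ → ℕ) (hA : Monotone A) {lam : ℝ}
    (hl1 : 1 / 4 ≤ lam * u1 / u2) (hl2 : lam * u1 / u2 ≤ 4) (V : Finset ℤ) (hw : 1 ≤ w)
    (hs : Sparse V w N) :
    (a : ℝ) * u2 * b * ((1 + lam) / u2 * h / 4 *
        kap V (((A (al a0 u1 (lst h a (lam * u1 / u2))) : ℝ) +
          be b0 u2 h a (lst h a (lam * u1 / u2)) * b) / (a * u2 * b)) -
      10 ^ 5 * (1 + √N + N * h / w + h / Ac) -
      10 ^ 5 * Ac * h ^ 2 * arcE A b lam a u1 u2 (al a0 u1) (be b0 u2 h a) (Mh h a)) ≤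
    arcD (fun v => Th V ((v : ℝ) / (a * u2 * b))) A b (al a0 u1) (be b0 u2 h a) (Mh h a) := by
  have hA' := cs_A (a0 := a0) (b0 := b0) hh ha2 ha hb hu hu1 hu2 hAc A hA hl1 hl2 V hw hs
  have hB' := cs_B (a0 := a0) (b0 := b0) hh ha2 ha hb hu hu1 hu2 hAc A hA hl1 hl2 V hw hs
  have hC' := cs_C (a0 := a0) (b0 := b0) hh ha2 ha hb hu hu1 hu2 hAc A hA hl1 hl2 V hw hs
  have hD' := cs_D (a0 := a0) (b0 := b0) hh ha2 ha hb hu hu1 hu2 hAc A hA hl1 hl2 V hw hs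
  have hE0 : 0 ≤ arcE A b lam a u1 u2 (al a0 u1) (be b0 u2 h a) (Mh h a) := by
    unfold arcE
    have hp : ∀ x, 0 ≤ psi (du A b lam x) := fun x => psi_nonneg _
    have h1 : 0 ≤ ∑ l ∈ range (Mh h a + 1), (psi (du A b lam (al a0 u1 l)) + psi (du A b lam (be b0 u2 h a l))) :=
      Finset.sum_nonneg fun l _ => add_nonneg (hp _) (hp _)
    have h2 : 0 ≤ ∑ x ∈ Finset.Ico (al a0 u1 0) (al a0 u1 (Mh h a)), psi (du A b lam x) :=
      Finset.sum_nonneg fun l _ => hp _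
    have h3 : 0 ≤ ∑ x ∈ Finset.Ico (be b0 u2 h a (Mh h a)) (be b0 u2 h a 0), psi (du A b lam x) :=
      Finset.sum_nonneg fun l _ => hp _
    positivity
  set E := arcE A b lam a u1 u2 (al a0 u1) (be b0 u2 h a) (Mh h a) with hE
  set Kp := kap V (((A (al a0 u1 (lst h a (lam * u1 / u2))) : ℝ) +
          be b0 u2 h a (lst h a (lam * u1 / u2)) * b) / (a * u2 * b)) with hKp
  have hX0 : (0 : ℝ) ≤ 1 + √N + N * h / w + h / Ac := by positivity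
  set X := (1 : ℝ) + √N + N * h / w + h / Ac with hX
  have hBp : (0 : ℝ) ≤ (a : ℝ) * u2 * b := by positivity
  set B := (a : ℝ) * u2 * b with hBdef
  have hY0 : 0 ≤ Ac * h ^ 2 * E := by positivity
  rw [abs_le] at hB' hC' hD'
  have hsum : arcD (fun v => Th V ((v : ℝ) / (a * u2 * b))) A b (al a0 u1) (be b0 u2 h a) (Mh h a) =
      ∑ l ∈ range (Mh h a + 1),
        csum (fun v => Th V ((v : ℝ) / (a * u2 * b))) A b (al a0 u1 l) (be b0 u2 h a l) +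
      ∑ l ∈ range (Mh h a + 1),
        csum (fun v => Th V ((v : ℝ) / (a * u2 * b))) A b (be b0 u2 h a l) (al a0 u1 (Mh h a - l)) -
      ∑ l ∈ range (Mh h a + 1),
        csum (fun v => Th V ((v : ℝ) / (a * u2 * b))) A b (al a0 u1 l) (al a0 u1 l) -
      ∑ l ∈ range (Mh h a + 1),
        csum (fun v => Th V ((v : ℝ) / (a * u2 * b))) A b (be b0 u2 h a l) (be b0 u2 h a l) := by
    unfold arcD
    rw [← Finset.sum_add_distrib, ← Finset.sum_sub_distrib, ← Finset.sum_sub_distrib]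
  rw [hsum]
  have e1 := mul_nonneg hBp hX0
  have e2 := mul_nonneg hBp hY0
  have a1 := hA'
  have b1 := hB'.1
  have c1 := hC'.2
  have d1 := hD'.2
  nlinarith [a1, b1, c1, d1, e1, e2]

end Pool.Agent.Lib.HBP
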