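import Mathlib
import Pool.Agent.Lib.HBP.Level
import Pool.Agent.Lib.HBP.L.Load
import Pool.Agent.Lib.HBP.L.FinNum

/-!
MASTER STATEMENT Local (helper69): one level with small deficit, small energy and small increase of the
quadratic energy cannot carry a set `𝒦` of matched blocks of constant chain density `τ0 ≥ 40 K2/h^3` with a
share `1/K2` of the chain.
-/

namespace Pool.Agent.Lib.HBP

open Finset

theorem local_false {h h' K2 G a L J0 Q u1 u2 : ℕ} (P : Par h h' K2 G a L J0 Q) (hc : Cls u1 u2 J0)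
    {b Nb : ℕ} (hb : 1 ≤ b) (hNb : 1 ≤ Nb) (ta : ℕ → ℕ) (hta : ∀ k < Nb, ta k < Nb)
    (hti : Set.InjOn ta (Set.Iio Nb)) (pos : ℕ → ℕ → ℕ) (hU : Uncr h h' G a u1 u2 L b Nb Q ta pos)
    (sg : ℕ → ℕ → ℕ) (hsg : ∀ k < Nb, Real1 h G a u1 u2 L (pos k) (sg k))
    (Y : ℕ → ℕ) (hY : Monotone Y) (hY2 : ∀ x, Y x ≤ 2 * (Nb * L * b))
    (C : Finset ℕ) (hC : C ⊆ range (Nb * L * b)) (w : ℕ → ℕ) (hw : Set.InjOn w C)
    (hr : InRange Y ta sg L b C w) (𝓛 𝒦 : Finset ℕ) (h𝓛 : 𝓛 ⊆ range Nb) (h𝒦 : 𝒦 ⊆ 𝓛)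
    (hlam : ∀ k ∈ 𝓛, 1 / 4 ≤ slo Y (L * b) k * u1 / u2 ∧ slo Y (L * b) k * u1 / u2 ≤ 4)
    (τ : ℝ) (hτ : 40 * K2 ≤ τ * h ^ 3)
    (hK1 : ∀ k ∈ 𝒦, τ * ((1 + slo Y (L * b) k) * (L * b)) ≤ cnt C (L * b) k)
    (hK2 : ∀ k ∈ 𝒦, (cnt C (L * b) k : ℝ) ≤ 2 * (τ * ((1 + slo Y (L * b) k) * (L * b))))
    (hm𝒦 : C.card ≤ K2 * ∑ k ∈ 𝒦, cnt C (L * b) k) (hm : Nb * L * b ≤ Q * C.card)
    (δ : ℝ) (hδ0 : 0 ≤ δ) (hδ : 10 ^ 48 * K2 ^ 2 * h ^ 4 * δ ≤ 1)
    (hH : ∑ k ∈ 𝓛, cnt C (L * b) k * Hd C L b k ≤ δ * C.card)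
    (hE : ∑ k ∈ 𝓛, cnt C (L * b) k * Ed Y L b k ≤ δ * C.card)
    (hV : Vq C w L b 𝓛 (4 * Nb) ≤ δ * C.card) (hC0 : C.Nonempty) : False := by
  obtain ⟨hh', hh, hQ, ha, hL, ha2⟩ := HBP.L.par_facts P
  obtain ⟨hu1, hu2, hu⟩ := HBP.L.cls_facts hc
  have hK2p := P.K2pos
  have hGp := P.Gpos
  have hLp : (0 : ℝ) < L := by exact_mod_cast hL
  have hbp : (0 : ℝ) < b := by exact_mod_cast hb
  have hap : (0 : ℝ) < a := by exact_mod_cast ha
  have hhp : (0 : ℝ) < h := by exact_mod_cast hh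
  have hu2p : (0 : ℝ) < u2 := by exact_mod_cast hu2
  have hh'p : (1 : ℝ) ≤ h' := by exact_mod_cast hh'
  have hKp : (1 : ℝ) ≤ K2 := by exact_mod_cast hK2p
  have hGr : (1 : ℝ) ≤ G := by exact_mod_cast hGp
  have hQp : (1 : ℝ) ≤ Q := by exact_mod_cast hQ
  have hHK : (h : ℝ) = K2 * h' := by exact_mod_cast P.hh
  have hmpos : (0 : ℝ) < C.card := by exact_mod_cast hC0.card_pos
  have hτ0 : 0 < τ := by
    by_contra hcon
    push Not at hcon
    have : τ * (h : ℝ) ^ 3 ≤ 0 := mul_nonpos_of_nonpos_of_nonneg hcon (by positivity)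
    linarith
  set m : ℝ := (C.card : ℝ) with hmdef
  set mK : ℝ := ∑ k ∈ 𝒦, (cnt C (L * b) k : ℝ) with hmKdef
  have hmK : m ≤ K2 * mK := by
    have : ((C.card : ℕ) : ℝ) ≤ ((K2 * ∑ k ∈ 𝒦, cnt C (L * b) k : ℕ) : ℝ) := by exact_mod_cast hm𝒦
    push_cast at this
    exact this
  have hmK0 : 0 < mK := by
    by_contra hcon
    push Not at hcon
    have : (K2 : ℝ) * mK ≤ 0 := mul_nonpos_of_nonneg_of_nonpos (by linarith) hcon
    linarith
  have hmKm : mK ≤ m := by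
    rw [hmKdef, HBP.L.card_chn, hmdef]
    exact_mod_cast Finset.card_le_card (HBP.L.chn_sub C (L * b) 𝒦)
  have h𝒦ne : 𝒦.Nonempty := by
    rw [Finset.nonempty_iff_ne_empty]
    intro h0
    rw [hmKdef, h0, Finset.sum_empty] at hmK0
    exact lt_irrefl _ hmK0
  have hcardp : (0 : ℝ) < 𝒦.card := by exact_mod_cast h𝒦ne.card_pos
  have h𝒦N : ∀ k ∈ 𝒦, k < Nb := fun k hk => mem_range.1 (h𝓛 (h𝒦 hk))
  have hlamK : ∀ k ∈ 𝒦, 1 / 4 ≤ slo Y (L * b) k * u1 / u2 ∧ slo Y (L * b) k * u1 / u2 ≤ 4 :=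
    fun k hk => hlam k (h𝒦 hk)
  have hcmp := HBP.L.cnt_compare hc Y C 𝒦 hlamK τ hτ0 hK1 hK2
  set ρ : ℝ := a * nsl h G a L u1 u2 / L with hρdef
  have hρ : 1 / (2 * (10 ^ 26 * (h : ℝ) ^ 3)) ≤ ρ := HBP.L.nsl_lower P hc
  have hρ0 : 0 < ρ := lt_of_lt_of_le (by positivity) hρ
  -- Q is large
  have hQ2 : 10 ^ 48 * (K2 : ℝ) ^ 2 * (h : ℝ) ^ 4 ≤ (Q : ℝ) ^ 2 := by
    have h1 : 10 ^ 60 * h ^ 4 * K2 ≤ Q := by
      refine le_trans ?_ P.hQ
      have h5 : 1 ≤ 4 ^ J0 := Nat.one_le_pow _ _ (by norm_num)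
      calc _ = 10 ^ 60 * h ^ 4 * 1 * K2 * 1 := by ring
        _ ≤ _ := Nat.mul_le_mul (Nat.mul_le_mul_right _ (Nat.mul_le_mul_left _ hGp)) h5
    have h2 : (10 ^ 60 * (h : ℝ) ^ 4 * K2) ≤ Q := by exact_mod_cast h1
    have h3 : (10 ^ 60 * (h : ℝ) ^ 4 * K2) ^ 2 ≤ (Q : ℝ) ^ 2 := pow_le_pow_left₀ (by positivity) h2 2
    refine le_trans ?_ h3
    have hh1 : (1 : ℝ) ≤ h := by exact_mod_cast hh
    have h4 : (h : ℝ) ^ 4 ≤ (h : ℝ) ^ 8 := pow_le_pow_right₀ hh1 (by norm_num)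
    calc 10 ^ 48 * (K2 : ℝ) ^ 2 * (h : ℝ) ^ 4 ≤ 10 ^ 120 * (K2 : ℝ) ^ 2 * (h : ℝ) ^ 8 :=
          mul_le_mul (mul_le_mul_of_nonneg_right (by norm_num) (sq_nonneg _)) h4 (by positivity)
            (by positivity)
      _ = _ := by ring
  have small : ∀ x : ℝ, 0 ≤ x → x ^ 2 * (Q : ℝ) ^ 4 ≤ 1 →
      10 ^ 48 * (K2 : ℝ) ^ 2 * (h : ℝ) ^ 4 * x ≤ 1 := by
    intro x hx h1
    have h2 : (x * (Q : ℝ) ^ 2) ^ 2 ≤ 1 := by
      calc _ = x ^ 2 * (Q : ℝ) ^ 4 := by ring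
        _ ≤ 1 := h1
    have h3 : x * (Q : ℝ) ^ 2 ≤ 1 := by
      have := abs_le_of_sq_le_sq' (show (x * (Q : ℝ) ^ 2) ^ 2 ≤ 1 ^ 2 by simpa using h2) (by norm_num)
      exact this.2
    calc _ ≤ (Q : ℝ) ^ 2 * x := mul_le_mul_of_nonneg_right hQ2 hx
      _ = x * (Q : ℝ) ^ 2 := mul_comm _ _
      _ ≤ 1 := h3
  have hQ5 : (5 : ℝ) ≤ Q := by
    have h1 : 5 ≤ Q := by
      refine le_trans ?_ P.hQ
      have h5 : 1 ≤ 4 ^ J0 := Nat.one_le_pow _ _ (by norm_num)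
      have h6 : 1 ≤ h ^ 4 := Nat.one_le_pow _ _ hh
      calc 5 ≤ 10 ^ 60 * 1 * 1 * 1 * 1 := by norm_num
        _ ≤ _ := Nat.mul_le_mul (Nat.mul_le_mul (Nat.mul_le_mul (Nat.mul_le_mul_left _ h6) hGp) hK2p) h5
    exact_mod_cast h1
  have haQ : (Q : ℝ) ^ 20 ≤ a := by exact_mod_cast P.ha
  have hLQ : (a : ℝ) * (Q : ℝ) ^ 20 ≤ L := by exact_mod_cast P.hL
  set r : ℝ := √(5 / a) with hrdef
  have hr0 : 0 ≤ r := Real.sqrt_nonneg _
  have hrs : 10 ^ 48 * (K2 : ℝ) ^ 2 * (h : ℝ) ^ 4 * r ≤ 1 := by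
    refine small r hr0 ?_
    rw [hrdef, Real.sq_sqrt (by positivity), div_mul_eq_mul_div, div_le_one hap]
    refine le_trans ?_ haQ
    calc 5 * (Q : ℝ) ^ 4 ≤ Q * (Q : ℝ) ^ 4 := mul_le_mul_of_nonneg_right hQ5 (by positivity)
      _ = (Q : ℝ) ^ 5 := by ring
      _ ≤ (Q : ℝ) ^ 20 := pow_le_pow_right₀ hQp (by norm_num)
  set q : ℝ := √((a * u2 : ℕ) / L) with hqdef
  have hq0 : 0 ≤ q := Real.sqrt_nonneg _
  have hu2Q : (u2 : ℝ) ≤ Q := by
    have h1 : u2 ≤ Q := by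
      have h2 : u2 ≤ 4 ^ J0 := le_trans (Nat.le_mul_of_pos_left _ hu1) hu
      refine le_trans h2 (le_trans ?_ P.hQ)
      have h6 : 1 ≤ h ^ 4 := Nat.one_le_pow _ _ hh
      calc 4 ^ J0 = 1 * 1 * 1 * 1 * 4 ^ J0 := by ring
        _ ≤ _ := Nat.mul_le_mul_right _
          (Nat.mul_le_mul (Nat.mul_le_mul (Nat.mul_le_mul (by norm_num) h6) hGp) hK2p)
    exact_mod_cast h1
  have hqs : 10 ^ 48 * (K2 : ℝ) ^ 2 * (h : ℝ) ^ 4 * q ≤ 1 := by
    refine small q hq0 ?_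
    rw [hqdef, Real.sq_sqrt (by positivity), div_mul_eq_mul_div, div_le_one hLp]
    refine le_trans ?_ hLQ
    push_cast
    calc (a : ℝ) * u2 * (Q : ℝ) ^ 4 ≤ a * Q * (Q : ℝ) ^ 4 :=
          mul_le_mul_of_nonneg_right (mul_le_mul_of_nonneg_left hu2Q hap.le) (by positivity)
      _ = a * (Q : ℝ) ^ 5 := by ring
      _ ≤ a * (Q : ℝ) ^ 20 := mul_le_mul_of_nonneg_left
          (pow_le_pow_right₀ hQp (by norm_num)) hap.le
  -- crowding
  have hEd0 : ∀ k, 0 ≤ Ed Y L b k := fun k => by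
    unfold Ed
    exact mul_nonneg (by positivity) (Finset.sum_nonneg fun _ _ => sq_nonneg _)
  have hNbQ : Nb ≤ Q ^ 2 * 𝒦.card := by
    have h1 : ∀ k, cnt C (L * b) k ≤ L * b := by
      intro k
      unfold cnt
      refine (Finset.card_le_card (t := Finset.Ico (k * (L * b)) (k * (L * b) + L * b)) ?_).trans ?_
      · intro z hz
        have hz2 := (Finset.mem_filter.1 hz).2
        rw [Finset.mem_Ico, ← hz2]
        exact ⟨Nat.div_mul_le_self _ _, Nat.lt_div_mul_add (Nat.mul_pos hL hb)⟩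
      · rw [Nat.card_Ico]; omega
    have h2 : ∑ k ∈ 𝒦, cnt C (L * b) k ≤ 𝒦.card * (L * b) := by
      have := Finset.sum_le_card_nsmul 𝒦 (fun k => cnt C (L * b) k) (L * b) (fun k _ => h1 k)
      simpa using this
    have hK2Q : K2 ≤ Q := by
      have h5 : 1 ≤ 4 ^ J0 := Nat.one_le_pow _ _ (by norm_num)
      have h6 : 1 ≤ h ^ 4 := Nat.one_le_pow _ _ hh
      refine le_trans ?_ P.hQ
      calc K2 = 1 * 1 * 1 * K2 * 1 := by ring
        _ ≤ _ := Nat.mul_le_mul (Nat.mul_le_mul_right _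
            (Nat.mul_le_mul (Nat.mul_le_mul (by norm_num) h6) hGp)) h5
    have h3 : Nb * (L * b) ≤ (Q ^ 2 * 𝒦.card) * (L * b) := by
      calc Nb * (L * b) = Nb * L * b := by ring
        _ ≤ Q * C.card := hm
        _ ≤ Q * (K2 * ∑ k ∈ 𝒦, cnt C (L * b) k) := Nat.mul_le_mul_left _ hm𝒦
        _ ≤ Q * (Q * (𝒦.card * (L * b))) := Nat.mul_le_mul_left _ (Nat.mul_le_mul hK2Q h2)
        _ = _ := by ring
    exact Nat.le_of_mul_le_mul_right h3 (Nat.mul_pos hL hb)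
  have hload : ∀ v : ℕ, (𝒦.filter fun k => Ak Y ta L b k 0 ≤ v + L * b ∧
      v ≤ Ak Y ta L b k L + 2 * (L * b)).card ≤ h ^ 2 * h' := by
    intro v
    have h1 := HBP.L.load hc hL hb Y ta hY sg C w hw hr 𝒦 (fun k hk x hx => (hsg k (h𝒦N k hk)).1 x hx)
      hlamK τ hτ0 hK1 v
    have h2 : 32 / τ ≤ ((h ^ 2 * h' : ℕ) : ℝ) := by
      rw [div_le_iff₀ hτ0]
      push_cast
      have h3 : (K2 : ℝ) * ((h : ℝ) ^ 2 * h' * τ) = τ * (h : ℝ) ^ 3 := by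
        rw [show (h : ℝ) ^ 3 = (h : ℝ) ^ 2 * h by ring]
        nth_rewrite 3 [hHK]
        ring
      have h4 : (K2 : ℝ) * 32 ≤ K2 * ((h : ℝ) ^ 2 * h' * τ) := by rw [h3]; linarith
      exact le_of_mul_le_mul_left h4 (by linarith)
    exact_mod_cast h1.trans h2
  have hen : ∑ k ∈ 𝒦, ∑ x ∈ range L, psi (ux Y ta L b k x) ≤
      a * nsl h G a L u1 u2 * 𝒦.card / (1000 * h) := by
    have h1 : ∀ k ∈ 𝒦, ∑ x ∈ range L, psi (ux Y ta L b k x) ≤ 4 * L * Ed Y L b k := by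
      intro k hk
      have hmp := (HBP.L.slope_facts hc (hlamK k hk).1 (hlamK k hk).2).1
      have h1 := HBP.L.psi_energy L hL (fun x => ((Ak Y ta L b k (x + 1) : ℝ) - Ak Y ta L b k x) / b)
        (slo Y (L * b) k) (Ed Y L b k / 2) (fun x _ => div_nonneg (by
          have : (Ak Y ta L b k x : ℝ) ≤ Ak Y ta L b k (x + 1) := by
            exact_mod_cast HBP.L.Ak_mono Y ta hY L b k (Nat.le_succ x)
          linarith) hbp.le) hmp (by
          rw [← HBP.L.slo_block Y ta L b k hL hb, ← Finset.sum_div]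
          congr 1
          exact Finset.sum_range_sub (fun x : ℕ => (Ak Y ta L b k x : ℝ)) L)
          (HBP.L.Ed_eq Y ta hY L b k hL hb hmp)
      have e2 : ∀ x, ux Y ta L b k x = ((Ak Y ta L b k (x + 1) : ℝ) - Ak Y ta L b k x) / b /
          slo Y (L * b) k := fun x => by
        unfold ux du
        rw [div_div]
      simp only [e2]
      refine h1.trans (le_of_eq ?_)
      ring
    have h2 : mK * ∑ k ∈ 𝒦, Ed Y L b k ≤ 32 * 𝒦.card * (δ * m) := by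
      rw [Finset.mul_sum]
      have h3 : ∀ k ∈ 𝒦, mK * Ed Y L b k ≤ 32 * 𝒦.card * (cnt C (L * b) k * Ed Y L b k) := by
        intro k hk
        have := mul_le_mul_of_nonneg_right (hcmp k hk) (hEd0 k)
        linarith
      refine (Finset.sum_le_sum h3).trans ?_
      rw [← Finset.mul_sum]
      refine mul_le_mul_of_nonneg_left ?_ (by positivity)
      refine le_trans ?_ hE
      exact Finset.sum_le_sum_of_subset_of_nonneg h𝒦 fun k _ _ =>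
        mul_nonneg (Nat.cast_nonneg _) (hEd0 k)
    have h3 : ∑ k ∈ 𝒦, Ed Y L b k ≤ 32 * 𝒦.card * (K2 * δ) := by
      have h4 : mK * ∑ k ∈ 𝒦, Ed Y L b k ≤ mK * (32 * 𝒦.card * (K2 * δ)) := by
        refine h2.trans ?_
        have : 32 * (𝒦.card : ℝ) * (δ * m) ≤ 32 * 𝒦.card * (δ * (K2 * mK)) := by
          refine mul_le_mul_of_nonneg_left (mul_le_mul_of_nonneg_left hmK hδ0) (by positivity)
        linarith
      exact le_of_mul_le_mul_left h4 hmK0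
    have h5 : ∑ k ∈ 𝒦, ∑ x ∈ range L, psi (ux Y ta L b k x) ≤
        4 * L * (32 * 𝒦.card * (K2 * δ)) := by
      refine (Finset.sum_le_sum h1).trans ?_
      rw [← Finset.mul_sum]
      exact mul_le_mul_of_nonneg_left h3 (by positivity)
    refine h5.trans ?_
    rw [le_div_iff₀ (by positivity)]
    have h6 : (a : ℝ) * nsl h G a L u1 u2 * 𝒦.card = L * ρ * 𝒦.card := by
      rw [hρdef]; field_simp
    rw [h6]
    -- 128000 K2 δ h ≤ ρ
    have h7 : 128000 * (K2 * δ) * h ≤ ρ := by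
      refine le_trans ?_ hρ
      rw [le_div_iff₀ (by positivity)]
      have h8 : (K2 : ℝ) * h ^ 4 * δ ≤ (K2 : ℝ) ^ 2 * h ^ 4 * δ := by
        refine mul_le_mul_of_nonneg_right (mul_le_mul_of_nonneg_right ?_ (by positivity)) hδ0
        exact le_self_pow₀ hKp (by norm_num)
      have h9 : 128000 * (K2 * δ) * h * (2 * (10 ^ 26 * (h : ℝ) ^ 3)) =
          256000 * 10 ^ 26 * ((K2 : ℝ) * h ^ 4 * δ) := by ring
      rw [h9]
      have h10 : 0 ≤ (K2 : ℝ) ^ 2 * h ^ 4 * δ := by positivity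
      linarith
    have h8 := mul_le_mul_of_nonneg_left h7 (show (0 : ℝ) ≤ L * 𝒦.card by positivity)
    linarith
  obtain ⟨hpos, hUn⟩ := hU
  obtain ⟨sel, hsel1, hsel2, hsp⟩ := hUn Y 𝒦 hY hY2 (h𝒦.trans h𝓛) hNbQ hlamK hload hen
  set V := hatV h a u1 u2 L b Y ta pos sel with hVdef
  have hkap : ∀ p ∈ sel, kap V (wst h a u1 u2 L b Y ta pos p.1 p.2) = 1 := by
    intro p hp
    refine kap_eq_one V _ ?_ ?_
    · rw [hVdef]
      unfold hatV
      exact Finset.mem_union_left _ (Finset.mem_image_of_mem (fun p : ℕ × ℕ => ⌊wst h a u1 u2 L b Y ta pos p.1 p.2⌋) hp)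
    · rw [hVdef]
      unfold hatV
      exact Finset.mem_union_right _ (Finset.mem_image_of_mem (fun p : ℕ × ℕ => ⌊wst h a u1 u2 L b Y ta pos p.1 p.2⌋ + 1) hp)
  have hVcard : V.card ≤ 2 * sel.card := by
    rw [hVdef]
    unfold hatV
    refine (Finset.card_union_le _ _).trans ?_
    have h1 := Finset.card_image_le (s := sel) (f := fun p : ℕ × ℕ => ⌊wst h a u1 u2 L b Y ta pos p.1 p.2⌋)
    have h2 := Finset.card_image_le (s := sel) (f := fun p : ℕ × ℕ => ⌊wst h a u1 u2 L b Y ta pos p.1 p.2⌋ + 1)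
    omega
  have hselcard : sel.card ≤ 𝒦.card * nsl h G a L u1 u2 := by
    have := Finset.card_le_card hsel1
    rwa [Finset.card_product, Finset.card_range] at this
  -- analytic inequality
  have hβ : 0 < a * u2 := Nat.mul_pos ha hu2
  have hM : ∀ q ∈ C, w q / b < 4 * Nb * L := by
    intro q hq
    rw [Nat.div_lt_iff_lt_mul hb]
    have h1 := hr q hq
    have h2 : q < Nb * L * b := mem_range.1 (hC hq)
    have h3 : q / b / L < Nb := by
      rw [Nat.div_lt_iff_lt_mul hL, Nat.div_lt_iff_lt_mul hb]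
      exact h2
    have h4 := hta _ h3
    have h5 := (hsg _ h3).1 (q / b % L) (Nat.mod_lt _ hL)
    have h6 := hY2 ((q / b / L * L + (q / b % L + 1)) * b)
    have h7 : (sg (q / b / L) (q / b % L) + 1) * b ≤ L * b := Nat.mul_le_mul_right _ h5
    have h8 : (ta (q / b / L) + 1) * (L * b) ≤ Nb * (L * b) := Nat.mul_le_mul_right _ h4
    have h9 : w q < Y ((q / b / L * L + (q / b % L + 1)) * b) + ta (q / b / L) * (L * b) +
        (sg (q / b / L) (q / b % L) + 1) * b := h1.2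
    have h10 : 4 * Nb * L * b = 4 * (Nb * L * b) := by ring
    have h11 : Nb * (L * b) = Nb * L * b := by ring
    rw [h10]
    rw [add_mul, one_mul] at h8
    omega
  have hr1 : ∀ k ∈ 𝓛, √((1 + slo Y (L * b) k) / (a * u2 : ℕ)) ≤ r := by
    intro k hk
    have h1 := HBP.L.slope_facts hc (hlam k hk).1 (hlam k hk).2
    rw [hrdef]
    refine Real.sqrt_le_sqrt ?_
    rw [div_le_div_iff₀ (by exact_mod_cast hβ) hap]
    push_cast
    have h2 := mul_le_mul_of_nonneg_right h1.2.2 hap.le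
    linarith
  have han := HBP.L.analytic (Nb := 4 * Nb) hL hb hβ V Y ta hY sg C w hw hr 𝓛 hM
    (fun k hk => (HBP.L.slope_facts hc (hlam k hk).1 (hlam k hk).2).1) hr0 hr1 hδ0 hH hE hV
  -- arcs
  obtain ⟨E, hEdef⟩ : ∃ E : ℝ, E = 10 ^ 5 * (1 + √((8 * X1 G h' : ℕ) : ℝ) +
    ((8 * X1 G h' : ℕ) : ℝ) * h / ((w0 G h : ℕ) : ℝ) + h / (10 ^ 10 * (K2 : ℝ))) := ⟨_, rfl⟩
  have hw0 : 1 ≤ w0 G h := by
    unfold w0
    exact Nat.mul_pos (Nat.mul_pos (by norm_num) hGp) hh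
  have hblk : ∀ k ∈ 𝓛, (cnt C (L * b) k : ℝ) * (a * h / (4 * L) *
      ∑ s ∈ range (nsl h G a L u1 u2), kap V (wst h a u1 u2 L b Y ta pos k s) - 2 * q - 4 * ρ * E -
      96 * 10 ^ 5 * (10 ^ 10 * K2) * h ^ 2 * Ed Y L b k) ≤
      (cnt C (L * b) k : ℝ) / L * ((∑ x ∈ range L,
        csum (fun v => Th V ((v : ℝ) / (a * u2 * b : ℕ))) (Ak Y ta L b k) b x (sg k x)) /
        (b * (1 + slo Y (L * b) k))) := by
    intro k hk
    have hkN : k < Nb := mem_range.1 (h𝓛 hk)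
    have h1 := HBP.L.block_arcs P hc hb Y ta hY pos (sg k) k (hpos k) (hsg k hkN) (hlam k hk).1
      (hlam k hk).2 V hw0 hsp (Ac := 10 ^ 10 * (K2 : ℝ)) (by linarith)
    rw [← hEdef] at h1
    have h2 := mul_le_mul_of_nonneg_left h1 (Nat.cast_nonneg (α := ℝ) (cnt C (L * b) k))
    refine h2.trans (le_of_eq ?_)
    ring
  have hsum := Finset.sum_le_sum hblk
  have hchain := hsum.trans han
  have hE0 : 0 ≤ E := by rw [hEdef]; positivity
  -- lower bound of the left side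
  have hn𝓛 : ∑ k ∈ 𝓛, (cnt C (L * b) k : ℝ) ≤ m := by
    rw [HBP.L.card_chn, hmdef]
    exact_mod_cast Finset.card_le_card (HBP.L.chn_sub C (L * b) 𝓛)
  have hgain : nsl h G a L u1 u2 * mK / 40 ≤ ∑ k ∈ 𝓛, (cnt C (L * b) k : ℝ) *
      ∑ s ∈ range (nsl h G a L u1 u2), kap V (wst h a u1 u2 L b Y ta pos k s) := by
    have h1 : ∑ p ∈ sel, (cnt C (L * b) p.1 : ℝ) ≤ ∑ k ∈ 𝓛, (cnt C (L * b) k : ℝ) *
        ∑ s ∈ range (nsl h G a L u1 u2), kap V (wst h a u1 u2 L b Y ta pos k s) := by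
      have h2 : ∑ k ∈ 𝓛, (cnt C (L * b) k : ℝ) *
          ∑ s ∈ range (nsl h G a L u1 u2), kap V (wst h a u1 u2 L b Y ta pos k s) =
          ∑ p ∈ 𝓛 ×ˢ range (nsl h G a L u1 u2), (cnt C (L * b) p.1 : ℝ) *
            kap V (wst h a u1 u2 L b Y ta pos p.1 p.2) := by
        rw [Finset.sum_product]
        exact Finset.sum_congr rfl fun k _ => Finset.mul_sum _ _ _
      rw [h2]
      have h3 : ∑ p ∈ sel, (cnt C (L * b) p.1 : ℝ) = ∑ p ∈ sel, (cnt C (L * b) p.1 : ℝ) *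
          kap V (wst h a u1 u2 L b Y ta pos p.1 p.2) :=
        Finset.sum_congr rfl fun p hp => by rw [hkap p hp, mul_one]
      rw [h3]
      exact Finset.sum_le_sum_of_subset_of_nonneg
        (hsel1.trans (Finset.product_subset_product_left h𝒦))
        fun p _ _ => mul_nonneg (Nat.cast_nonneg _) (kap_nonneg _ _)
    refine le_trans ?_ h1
    have h2 : ∀ p ∈ sel, mK ≤ 𝒦.card * (32 * (cnt C (L * b) p.1 : ℝ)) := fun p hp =>
      hcmp p.1 (Finset.mem_product.1 (hsel1 hp)).1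
    have h3 := Finset.sum_le_sum h2
    rw [Finset.sum_const, nsmul_eq_mul, ← Finset.mul_sum, ← Finset.mul_sum] at h3
    have h4 : (4 : ℝ) * (𝒦.card * nsl h G a L u1 u2) ≤ 5 * sel.card := by exact_mod_cast hsel2
    have h5 : (𝒦.card : ℝ) * (nsl h G a L u1 u2 * mK / 40) ≤
        𝒦.card * ∑ p ∈ sel, (cnt C (L * b) p.1 : ℝ) := by
      have h6 := mul_le_mul_of_nonneg_right h4 hmK0.le
      linarith
    exact le_of_mul_le_mul_left h5 hcardp
  have hleft : ρ * h * mK / 160 - 2 * m * q - 4 * ρ * E * m -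
      96 * 10 ^ 5 * (10 ^ 10 * K2) * h ^ 2 * (δ * m) ≤
      ∑ k ∈ 𝓛, (cnt C (L * b) k : ℝ) * (a * h / (4 * L) *
      ∑ s ∈ range (nsl h G a L u1 u2), kap V (wst h a u1 u2 L b Y ta pos k s) - 2 * q - 4 * ρ * E -
      96 * 10 ^ 5 * (10 ^ 10 * K2) * h ^ 2 * Ed Y L b k) := by
    have h1 : ∑ k ∈ 𝓛, (cnt C (L * b) k : ℝ) * (a * h / (4 * L) *
      ∑ s ∈ range (nsl h G a L u1 u2), kap V (wst h a u1 u2 L b Y ta pos k s) - 2 * q - 4 * ρ * E -
      96 * 10 ^ 5 * (10 ^ 10 * K2) * h ^ 2 * Ed Y L b k) =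
      a * h / (4 * L) * (∑ k ∈ 𝓛, (cnt C (L * b) k : ℝ) *
        ∑ s ∈ range (nsl h G a L u1 u2), kap V (wst h a u1 u2 L b Y ta pos k s)) -
      (2 * q + 4 * ρ * E) * (∑ k ∈ 𝓛, (cnt C (L * b) k : ℝ)) -
      96 * 10 ^ 5 * (10 ^ 10 * K2) * h ^ 2 * ∑ k ∈ 𝓛, (cnt C (L * b) k : ℝ) * Ed Y L b k := by
      rw [Finset.mul_sum, Finset.mul_sum, Finset.mul_sum, ← Finset.sum_sub_distrib,
        ← Finset.sum_sub_distrib]
      exact Finset.sum_congr rfl fun k _ => by ring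
    rw [h1]
    have h2 : ρ * h * mK / 160 ≤ a * h / (4 * L) * (∑ k ∈ 𝓛, (cnt C (L * b) k : ℝ) *
        ∑ s ∈ range (nsl h G a L u1 u2), kap V (wst h a u1 u2 L b Y ta pos k s)) := by
      refine le_trans (le_of_eq ?_) (mul_le_mul_of_nonneg_left hgain (by positivity))
      rw [hρdef]
      field_simp
      ring
    have h3 : (2 * q + 4 * ρ * E) * (∑ k ∈ 𝓛, (cnt C (L * b) k : ℝ)) ≤ (2 * q + 4 * ρ * E) * m :=
      mul_le_mul_of_nonneg_left hn𝓛 (by positivity)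
    have h4 : 96 * 10 ^ 5 * (10 ^ 10 * (K2 : ℝ)) * h ^ 2 *
        ∑ k ∈ 𝓛, (cnt C (L * b) k : ℝ) * Ed Y L b k ≤
        96 * 10 ^ 5 * (10 ^ 10 * K2) * h ^ 2 * (δ * m) :=
      mul_le_mul_of_nonneg_left hE (by positivity)
    linarith
  have hmain := hleft.trans hchain
  -- numerical part
  set Yv : ℝ := b * ((a * u2 : ℕ) : ℝ) * V.card with hYv
  have hYτ : Yv * τ ≤ 8 * ρ * m := by
    have h1 : ∀ k ∈ 𝒦, τ * u2 * (L * b) ≤ 4 * (cnt C (L * b) k : ℝ) := by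
      intro k hk
      have h2 := (HBP.L.slope_facts hc (hlamK k hk).1 (hlamK k hk).2).2.1
      have h3 := hK1 k hk
      have h4 : τ * u2 * ((L : ℝ) * b) ≤ 4 * (τ * ((1 + slo Y (L * b) k) * (L * b))) := by
        have h5 := mul_le_mul_of_nonneg_left h2 (show 0 ≤ τ * ((L : ℝ) * b) by positivity)
        linarith
      linarith
    have h2 := Finset.sum_le_sum h1
    rw [Finset.sum_const, nsmul_eq_mul, ← Finset.mul_sum] at h2
    have h3 : (𝒦.card : ℝ) * (τ * u2 * (L * b)) ≤ 4 * m := by linarith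
    have h4 : (V.card : ℝ) ≤ 2 * (𝒦.card * nsl h G a L u1 u2) := by
      have : V.card ≤ 2 * (𝒦.card * nsl h G a L u1 u2) := by omega
      exact_mod_cast this
    have h5 : Yv * τ ≤ b * ((a * u2 : ℕ) : ℝ) * (2 * (𝒦.card * nsl h G a L u1 u2)) * τ := by
      rw [hYv]
      exact mul_le_mul_of_nonneg_right (mul_le_mul_of_nonneg_left h4 (by positivity)) hτ0.le
    have h6 : b * ((a * u2 : ℕ) : ℝ) * (2 * (𝒦.card * nsl h G a L u1 u2)) * τ =
        2 * ρ * (𝒦.card * (τ * u2 * (L * b))) := by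
      rw [hρdef]
      push_cast
      field_simp
    rw [h6] at h5
    have h7 := mul_le_mul_of_nonneg_left h3 hρ0.le
    linarith
  have hEs : 10 ^ 4 * E ≤ h' := by
    have hG25 : 10 ^ 25 * (G : ℝ) ≤ h' := by exact_mod_cast P.hG
    have e1 : ((8 * X1 G h' : ℕ) : ℝ) = 8 * 10 ^ 4 * G * h' := by
      unfold X1
      push_cast
      ring
    have e2 : ((w0 G h : ℕ) : ℝ) = 10 ^ 15 * G * h := by
      unfold w0
      push_cast
      ring
    have h1 : √((8 * X1 G h' : ℕ) : ℝ) ≤ h' / 10 ^ 10 := by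
      refine Real.sqrt_le_iff.2 ⟨by positivity, ?_⟩
      rw [e1, div_pow]
      rw [le_div_iff₀ (by positivity)]
      have h5 := mul_le_mul_of_nonneg_right hG25 (show (0 : ℝ) ≤ h' by linarith)
      have h6 : 0 ≤ (G : ℝ) * h' := by positivity
      linarith
    have h2 : ((8 * X1 G h' : ℕ) : ℝ) * h / ((w0 G h : ℕ) : ℝ) ≤ h' / 10 ^ 10 := by
      rw [e1, e2]
      have : 8 * 10 ^ 4 * (G : ℝ) * h' * h / (10 ^ 15 * G * h) = h' * (8 / 10 ^ 11) := by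
        field_simp
      rw [this]
      linarith
    have h3 : (h : ℝ) / (10 ^ 10 * (K2 : ℝ)) ≤ h' / 10 ^ 10 := by
      rw [hHK]
      refine le_of_eq ?_
      field_simp
    have h4 : (1 : ℝ) ≤ h' / 10 ^ 25 := by
      rw [le_div_iff₀ (by positivity)]
      linarith
    rw [hEdef]
    linarith
  refine HBP.L.final_numeric (H := h) (H' := h') (K := K2) (ρ := ρ) (δ := δ) (r := r) (q := q) (E := E)
    (Yv := Yv) (τ := τ) (m := m) (mK := mK) hKp hh'p hHK hmpos hmK hρ hδ0 hδ hrs hqs hEs hτ0 hτ hYτ ?_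
  have e3 : √(((a * u2 : ℕ) : ℝ) / L) = q := hqdef.symm
  rw [e3] at hmain
  linarith

end Pool.Agent.Lib.HBP
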