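import Mathlib
import Pool.Agent.Lib.HBP.MLocal

/-!
MODULE GHeavy (helper63): the step between `red` and `local_false`: one dyadic density class of heavy blocks.

`heavy_dyadic`: light blocks (`cnt < ε (1 + θ) S`, `ε = |C| / (6 D N)`) carry at most `3 N ε = |C|/(2D)`;
the densities of the other blocks are in `[ε, 1]`, so one of `I + 1` dyadic classes carries the share
`1/(2 D (I+1))`.
`level_false`: `local_false` for the set `𝓛` given by `red` (with `D = 2 (2 J0 + 1)`).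
-/

namespace Pool.Agent.Lib.HBP

open Finset

theorem slo_nonneg {Y : ℕ → ℕ} (hY : Monotone Y) (S k : ℕ) : 0 ≤ slo Y S k := by
  unfold slo
  apply div_nonneg _ (Nat.cast_nonneg _)
  rw [sub_nonneg]
  exact_mod_cast hY (Nat.mul_le_mul_right S (Nat.le_succ k))

theorem sum_slo_le {Y : ℕ → ℕ} (hY : Monotone Y) {S Nb : ℕ} (hS : 1 ≤ S)
    (hY2 : ∀ x, Y x ≤ 2 * (Nb * S)) {𝓛 : Finset ℕ} (h𝓛 : 𝓛 ⊆ range Nb) :
    ∑ k ∈ 𝓛, (1 + slo Y S k) * S ≤ 3 * (Nb * S : ℝ) := by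
  have hS0 : (0 : ℝ) < S := by exact_mod_cast hS
  have h1 : ∑ k ∈ 𝓛, (1 + slo Y S k) * S ≤ ∑ k ∈ range Nb, (1 + slo Y S k) * S := by
    apply Finset.sum_le_sum_of_subset_of_nonneg h𝓛
    intro k _ _
    have := slo_nonneg hY S k
    positivity
  have h2 : ∀ k : ℕ, (1 + slo Y S k) * S = S + ((Y ((k + 1) * S) : ℝ) - Y (k * S)) := by
    intro k
    unfold slo
    field_simp
  have h3 : ∑ k ∈ range Nb, (1 + slo Y S k) * S = Nb * S + ((Y (Nb * S) : ℝ) - Y (0 * S)) := by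
    rw [Finset.sum_congr rfl fun k _ => h2 k, Finset.sum_add_distrib,
      Finset.sum_range_sub (fun k => (Y (k * S) : ℝ))]
    simp
  have h4 : (Y (Nb * S) : ℝ) ≤ 2 * (Nb * S) := by exact_mod_cast hY2 _
  have h5 : (0 : ℝ) ≤ Y (0 * S) := Nat.cast_nonneg _
  linarith

theorem cnt_le_size (C : Finset ℕ) {S : ℕ} (hS : 1 ≤ S) (k : ℕ) : cnt C S k ≤ S := by
  unfold cnt
  calc (C.filter fun q => q / S = k).card ≤ (Finset.Ico (k * S) ((k + 1) * S)).card := by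
        apply Finset.card_le_card
        intro q hq
        rw [Finset.mem_filter] at hq
        rw [Finset.mem_Ico, ← hq.2]
        exact ⟨Nat.div_mul_le_self q S, by
          rw [add_mul, one_mul]
          have h := Nat.div_add_mod q S
          have h' := Nat.mod_lt q (show 0 < S by omega)
          rw [mul_comm] at h
          omega⟩
    _ = S := by
        rw [Nat.card_Ico, add_mul, one_mul]
        omega

theorem heavy_dyadic {Y : ℕ → ℕ} (hY : Monotone Y) {S Nb : ℕ} (hS : 1 ≤ S)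
    (hY2 : ∀ x, Y x ≤ 2 * (Nb * S)) (C : Finset ℕ) (hC0 : C.Nonempty) (𝓛 : Finset ℕ)
    (h𝓛 : 𝓛 ⊆ range Nb) (D I : ℕ) (hD : 1 ≤ D) (hmass : C.card ≤ D * ∑ k ∈ 𝓛, cnt C S k)
    (hI : 6 * D * (Nb * S) ≤ 2 ^ I * C.card) :
    ∃ 𝒦 ⊆ 𝓛, ∃ τ : ℝ, (C.card : ℝ) ≤ 6 * D * (Nb * S) * τ ∧
      (∀ k ∈ 𝒦, τ * ((1 + slo Y S k) * S) ≤ cnt C S k) ∧
      (∀ k ∈ 𝒦, (cnt C S k : ℝ) ≤ 2 * (τ * ((1 + slo Y S k) * S))) ∧
      C.card ≤ 2 * D * (I + 1) * ∑ k ∈ 𝒦, cnt C S k := by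
  classical
  have hS0 : (0 : ℝ) < S := by exact_mod_cast hS
  have hD0 : (0 : ℝ) < D := by exact_mod_cast hD
  have hCc : 0 < C.card := hC0.card_pos
  have hCc' : (0 : ℝ) < C.card := by exact_mod_cast hCc
  have hNb : 1 ≤ Nb := by
    by_contra hcon
    have h0 : Nb = 0 := by omega
    subst h0
    have : 𝓛 = ∅ := by simpa using h𝓛
    subst this
    rw [Finset.sum_empty, mul_zero] at hmass
    omega
  have hNb0 : (0 : ℝ) < Nb := by exact_mod_cast hNb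
  set N : ℝ := Nb * S with hN
  have hN0 : 0 < N := by positivity
  set ε : ℝ := C.card / (6 * D * N) with hε
  have hε0 : 0 < ε := by positivity
  have hεN : 6 * D * N * ε = C.card := by
    rw [hε]; field_simp
  -- size of the blocks
  set g : ℕ → ℝ := fun k => (1 + slo Y S k) * S with hg
  have hg0 : ∀ k, 0 < g k := fun k => by
    have := slo_nonneg hY S k
    simp only [hg]
    positivity
  have hgS : ∀ k, (S : ℝ) ≤ g k := fun k => by
    have := slo_nonneg hY S k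
    simp only [hg]
    nlinarith
  have hsum : ∑ k ∈ 𝓛, g k ≤ 3 * N := sum_slo_le hY hS hY2 h𝓛
  -- heavy blocks
  set H : Finset ℕ := 𝓛.filter fun k => ε * g k ≤ cnt C S k with hH
  have hlight : ∑ k ∈ 𝓛.filter (fun k => ¬ ε * g k ≤ cnt C S k), (cnt C S k : ℝ) ≤ 3 * N * ε := by
    calc ∑ k ∈ 𝓛.filter (fun k => ¬ ε * g k ≤ cnt C S k), (cnt C S k : ℝ)
        ≤ ∑ k ∈ 𝓛.filter (fun k => ¬ ε * g k ≤ cnt C S k), ε * g k := by
          apply Finset.sum_le_sum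
          intro k hk
          rw [Finset.mem_filter] at hk
          exact (not_le.1 hk.2).le
      _ ≤ ∑ k ∈ 𝓛, ε * g k := by
          apply Finset.sum_le_sum_of_subset_of_nonneg (Finset.filter_subset _ _)
          intro k _ _
          have := hg0 k
          positivity
      _ = ε * ∑ k ∈ 𝓛, g k := by rw [Finset.mul_sum]
      _ ≤ ε * (3 * N) := by gcongr
      _ = 3 * N * ε := by ring
  have hsplit : ∑ k ∈ 𝓛, (cnt C S k : ℝ) = ∑ k ∈ H, (cnt C S k : ℝ) +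
      ∑ k ∈ 𝓛.filter (fun k => ¬ ε * g k ≤ cnt C S k), (cnt C S k : ℝ) :=
    (Finset.sum_filter_add_sum_filter_not _ _ _).symm
  have hmass' : (C.card : ℝ) ≤ D * ∑ k ∈ 𝓛, (cnt C S k : ℝ) := by exact_mod_cast hmass
  have hheavy : (C.card : ℝ) ≤ 2 * D * ∑ k ∈ H, (cnt C S k : ℝ) := by
    have h1 : D * ∑ k ∈ 𝓛, (cnt C S k : ℝ) ≤
        D * ∑ k ∈ H, (cnt C S k : ℝ) + D * (3 * N * ε) := by
      rw [hsplit, mul_add]
      gcongr
    have h2 : (D : ℝ) * (3 * N * ε) = C.card / 2 := by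
      rw [← hεN]; ring
    linarith
  -- class index
  set cl : ℕ → ℕ := fun k => Nat.log 2 ⌊(cnt C S k : ℝ) / (ε * g k)⌋₊ with hcl
  have hcl1 : ∀ k ∈ H, (2 : ℝ) ^ cl k * ε * g k ≤ cnt C S k ∧
      (cnt C S k : ℝ) ≤ 2 * ((2 : ℝ) ^ cl k * ε * g k) := by
    intro k hk
    rw [hH, Finset.mem_filter] at hk
    have hg' := hg0 k
    have hpos : 0 < ε * g k := by positivity
    set x : ℝ := (cnt C S k : ℝ) / (ε * g k) with hx
    have hx1 : 1 ≤ x := by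
      rw [hx, le_div_iff₀ hpos]
      linarith [hk.2]
    have hcx : (cnt C S k : ℝ) = x * (ε * g k) := by
      rw [hx]; field_simp
    have hfl : 1 ≤ ⌊x⌋₊ := Nat.le_floor (by simpa using hx1)
    have h1 : 2 ^ Nat.log 2 ⌊x⌋₊ ≤ ⌊x⌋₊ := Nat.pow_log_le_self 2 (by omega)
    have h2 : ⌊x⌋₊ < 2 ^ (Nat.log 2 ⌊x⌋₊ + 1) := Nat.lt_pow_succ_log_self (by norm_num) _
    have h3 : ((2 : ℝ) ^ Nat.log 2 ⌊x⌋₊) ≤ x := by
      have : ((2 ^ Nat.log 2 ⌊x⌋₊ : ℕ) : ℝ) ≤ x :=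
        le_trans (Nat.cast_le.2 h1) (Nat.floor_le (by linarith))
      exact_mod_cast this
    have h4 : x ≤ (2 : ℝ) ^ (Nat.log 2 ⌊x⌋₊ + 1) := by
      have h5 : ⌊x⌋₊ + 1 ≤ 2 ^ (Nat.log 2 ⌊x⌋₊ + 1) := h2
      have h6 : ((⌊x⌋₊ : ℝ) + 1) ≤ (2 : ℝ) ^ (Nat.log 2 ⌊x⌋₊ + 1) := by exact_mod_cast h5
      exact (Nat.lt_floor_add_one x).le.trans h6
    constructor
    · rw [hcx]
      change (2 : ℝ) ^ Nat.log 2 ⌊x⌋₊ * ε * g k ≤ x * (ε * g k)
      calc (2 : ℝ) ^ Nat.log 2 ⌊x⌋₊ * ε * g k = (2 : ℝ) ^ Nat.log 2 ⌊x⌋₊ * (ε * g k) := by ring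
        _ ≤ x * (ε * g k) := mul_le_mul_of_nonneg_right h3 hpos.le
    · rw [hcx]
      change x * (ε * g k) ≤ 2 * ((2 : ℝ) ^ Nat.log 2 ⌊x⌋₊ * ε * g k)
      calc x * (ε * g k) ≤ (2 : ℝ) ^ (Nat.log 2 ⌊x⌋₊ + 1) * (ε * g k) :=
            mul_le_mul_of_nonneg_right h4 hpos.le
        _ = 2 * ((2 : ℝ) ^ Nat.log 2 ⌊x⌋₊ * ε * g k) := by rw [pow_succ]; ring
  have hcl2 : ∀ k ∈ H, cl k ∈ range (I + 1) := by
    intro k hk
    have h1 := (hcl1 k hk).1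
    have h2 : (cnt C S k : ℝ) ≤ S := by exact_mod_cast cnt_le_size C hS k
    have h3 := hgS k
    have hI' : 6 * D * N ≤ 2 ^ I * (C.card : ℝ) := by
      rw [hN]; exact_mod_cast hI
    have h4 : 1 ≤ 2 ^ I * ε := by
      rw [hε, mul_div_assoc', le_div_iff₀ (by positivity)]
      linarith
    rw [Finset.mem_range, Nat.lt_succ_iff]
    by_contra hcon
    have hcon : I + 1 ≤ cl k := by omega
    have h5 : (2 : ℝ) ^ (I + 1) ≤ (2 : ℝ) ^ cl k := pow_le_pow_right₀ (by norm_num) hcon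
    have h6 : 2 * (S : ℝ) ≤ (2 : ℝ) ^ cl k * ε * g k := by
      calc 2 * (S : ℝ) ≤ 2 * g k := by linarith
        _ ≤ (2 * (2 ^ I * ε)) * g k := by
            have := hg0 k
            nlinarith
        _ = (2 : ℝ) ^ (I + 1) * ε * g k := by rw [pow_succ]; ring
        _ ≤ (2 : ℝ) ^ cl k * ε * g k := by
            have := hg0 k
            gcongr
    linarith
  -- pigeonhole
  have hfib : ∑ k ∈ H, (cnt C S k : ℝ) =
      ∑ i ∈ range (I + 1), ∑ k ∈ H.filter (fun k => cl k = i), (cnt C S k : ℝ) :=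
    (Finset.sum_fiberwise_of_maps_to hcl2 _).symm
  have hex : ∃ i ∈ range (I + 1), ∑ k ∈ H, (cnt C S k : ℝ) ≤
      (I + 1) * ∑ k ∈ H.filter (fun k => cl k = i), (cnt C S k : ℝ) := by
    by_contra hcon
    push Not at hcon
    have h1 : ∑ i ∈ range (I + 1), ((I : ℝ) + 1) *
        ∑ k ∈ H.filter (fun k => cl k = i), (cnt C S k : ℝ) <
        ∑ i ∈ range (I + 1), ∑ k ∈ H, (cnt C S k : ℝ) :=
      Finset.sum_lt_sum_of_nonempty ⟨0, by simp⟩ hcon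
    rw [← Finset.mul_sum, ← hfib, Finset.sum_const, Finset.card_range, nsmul_eq_mul] at h1
    push_cast at h1
    linarith
  obtain ⟨i, hi, hi2⟩ := hex
  refine ⟨H.filter (fun k => cl k = i), ?_, 2 ^ i * ε, ?_, ?_, ?_, ?_⟩
  · exact (Finset.filter_subset _ _).trans (Finset.filter_subset _ _)
  · have h1 : (1 : ℝ) ≤ 2 ^ i := one_le_pow₀ (by norm_num)
    calc (C.card : ℝ) = 6 * D * N * ε := hεN.symm
      _ ≤ 6 * D * N * (2 ^ i * ε) := by
          gcongr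
          nlinarith
  · intro k hk
    rw [Finset.mem_filter] at hk
    have h1 := (hcl1 k hk.1).1
    rw [hk.2] at h1
    exact h1
  · intro k hk
    rw [Finset.mem_filter] at hk
    have h1 := (hcl1 k hk.1).2
    rw [hk.2] at h1
    exact h1
  · have h1 : (C.card : ℝ) ≤ 2 * D * ((I + 1) *
        ∑ k ∈ H.filter (fun k => cl k = i), (cnt C S k : ℝ)) :=
      hheavy.trans (by gcongr)
    have h2 : (C.card : ℝ) ≤ ((2 * D * (I + 1) *
        ∑ k ∈ H.filter (fun k => cl k = i), cnt C S k : ℕ) : ℝ) := by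
      push_cast
      linarith
    exact_mod_cast h2

theorem level_false {h h' K2 G a L J0 Q u1 u2 : ℕ} (P : Par h h' K2 G a L J0 Q) (hc : Cls u1 u2 J0)
    {b Nb : ℕ} (hb : 1 ≤ b) (hNb : 1 ≤ Nb) (ta : ℕ → ℕ) (hta : ∀ k < Nb, ta k < Nb)
    (hti : Set.InjOn ta (Set.Iio Nb)) (pos : ℕ → ℕ → ℕ) (hU : Uncr h h' G a u1 u2 L b Nb Q ta pos)
    (sg : ℕ → ℕ → ℕ) (hsg : ∀ k < Nb, Real1 h G a u1 u2 L (pos k) (sg k))
    (Y : ℕ → ℕ) (hY : Monotone Y) (hY2 : ∀ x, Y x ≤ 2 * (Nb * L * b))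
    (C : Finset ℕ) (hC : C ⊆ range (Nb * L * b)) (w : ℕ → ℕ) (hw : Set.InjOn w C)
    (hr : InRange Y ta sg L b C w) (𝓛 : Finset ℕ) (h𝓛 : 𝓛 ⊆ range Nb)
    (hlam : ∀ k ∈ 𝓛, 1 / 4 ≤ slo Y (L * b) k * u1 / u2 ∧ slo Y (L * b) k * u1 / u2 ≤ 4)
    (D I : ℕ) (hD : 1 ≤ D) (hmass : C.card ≤ D * ∑ k ∈ 𝓛, cnt C (L * b) k)
    (hK : 2 * D * (I + 1) ≤ K2) (hI : h ^ 3 ≤ 2 ^ I)
    (hu : 240 * K2 * D * (Nb * L * b) ≤ C.card * h ^ 3)
    (δ : ℝ) (hδ0 : 0 ≤ δ) (hδ : 10 ^ 48 * K2 ^ 2 * h ^ 4 * δ ≤ 1)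
    (hH : ∑ k ∈ 𝓛, cnt C (L * b) k * Hd C L b k ≤ δ * C.card)
    (hE : ∑ k ∈ 𝓛, cnt C (L * b) k * Ed Y L b k ≤ δ * C.card)
    (hV : Vq C w L b 𝓛 (4 * Nb) ≤ δ * C.card) (hC0 : C.Nonempty) : False := by
  have hQ := P.hQ
  have hK2 := P.K2pos
  have hG := P.Gpos
  have hL1 : 1 ≤ L := by
    by_contra hcon
    have : L = 0 := by omega
    subst this
    simp at hC
    rw [hC] at hC0
    exact Finset.not_nonempty_empty hC0
  have hS : 1 ≤ L * b := Nat.mul_pos hL1 hb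
  have hCc : 0 < C.card := hC0.card_pos
  have hh1 : 1 ≤ h := by
    by_contra hcon
    have : h = 0 := by omega
    subst this
    have h1 : 0 < 240 * K2 * D * (Nb * L * b) := by positivity
    simp at hu
    rcases hu with ((h2 | h2) | h2 | h2) | h2 <;> omega
  have hI' : 6 * D * (Nb * (L * b)) ≤ 2 ^ I * C.card := by
    have h1 : 240 * K2 * D * (Nb * L * b) ≤ C.card * 2 ^ I := hu.trans (Nat.mul_le_mul_left _ hI)
    calc 6 * D * (Nb * (L * b)) ≤ 240 * K2 * D * (Nb * L * b) := by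
          have : 6 * D * (Nb * (L * b)) = 6 * 1 * D * (Nb * L * b) := by ring
          rw [this]
          gcongr
          norm_num
      _ ≤ C.card * 2 ^ I := h1
      _ = 2 ^ I * C.card := by ring
  obtain ⟨𝒦, h𝒦, τ, hτ, hK1, hK2', hm𝒦⟩ := heavy_dyadic hY hS (Nb := Nb)
    (by intro x; rw [show Nb * (L * b) = Nb * L * b from (mul_assoc _ _ _).symm]; exact hY2 x) C hC0 𝓛 h𝓛 D I hD hmass hI'
  have hD0 : (0 : ℝ) < D := by exact_mod_cast hD
  have hN0 : (0 : ℝ) < (Nb : ℝ) * (L * b) := by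
    have h1 : (0 : ℝ) < Nb := by exact_mod_cast hNb
    have h2 : (0 : ℝ) < L := by exact_mod_cast hL1
    have h3 : (0 : ℝ) < b := by exact_mod_cast hb
    positivity
  have hτ' : 40 * (K2 : ℝ) ≤ τ * (h : ℝ) ^ 3 := by
    have h1 : 240 * (K2 : ℝ) * D * (Nb * L * b) ≤ C.card * (h : ℝ) ^ 3 := by exact_mod_cast hu
    have h2 : (C.card : ℝ) ≤ 6 * D * (Nb * (L * b)) * τ := by
      have := hτ
      push_cast at this
      exact this
    have h3 : (C.card : ℝ) * (h : ℝ) ^ 3 ≤ 6 * D * (Nb * (L * b)) * τ * (h : ℝ) ^ 3 := by gcongr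
    have h4 : 6 * D * (Nb * ((L : ℝ) * b)) * (40 * K2) ≤ 6 * D * (Nb * ((L : ℝ) * b)) * (τ * (h : ℝ) ^ 3) := by
      calc 6 * D * (Nb * ((L : ℝ) * b)) * (40 * K2) = 240 * (K2 : ℝ) * D * (Nb * L * b) := by ring
        _ ≤ C.card * (h : ℝ) ^ 3 := h1
        _ ≤ 6 * D * (Nb * (L * b)) * τ * (h : ℝ) ^ 3 := h3
        _ = 6 * D * (Nb * ((L : ℝ) * b)) * (τ * (h : ℝ) ^ 3) := by ring
    exact le_of_mul_le_mul_left h4 (by positivity)
  have hm : Nb * L * b ≤ Q * C.card := by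
    have h1 : h ^ 3 ≤ Q := by
      calc h ^ 3 ≤ h ^ 4 := Nat.pow_le_pow_right hh1 (by norm_num)
        _ = 1 * h ^ 4 * 1 * 1 * 1 := by ring
        _ ≤ 10 ^ 60 * h ^ 4 * G * K2 * 4 ^ J0 := by
            gcongr
            · norm_num
            · exact Nat.one_le_pow _ _ (by norm_num)
        _ ≤ Q := hQ
    calc Nb * L * b = 1 * 1 * 1 * (Nb * L * b) := by ring
      _ ≤ 240 * K2 * D * (Nb * L * b) := by
          gcongr
          norm_num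
      _ ≤ C.card * h ^ 3 := hu
      _ ≤ C.card * Q := Nat.mul_le_mul_left _ h1
      _ = Q * C.card := by ring
  refine local_false P hc hb hNb ta hta hti pos hU sg hsg Y hY hY2 C hC w hw hr 𝓛 𝒦 h𝓛 h𝒦 hlam τ hτ'
    ?_ ?_ ?_ hm δ hδ0 hδ hH hE hV hC0
  · intro k hk
    have := hK1 k hk
    push_cast at this
    exact this
  · intro k hk
    have := hK2' k hk
    push_cast at this
    exact this
  · exact hm𝒦.trans (Nat.mul_le_mul_right _ hK)

end Pool.Agent.Lib.HBP
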