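import Mathlib
import Pool.Agent.Lib.HBP.Level
import Pool.Agent.Lib.HBP.NlF

/-!
MASTER STATEMENT Sigma (helper5): the permutation of the children of a block which realises the arcs.

`sg (arcA s l) = arcB s l`, `sg (arcB s l) = arcA s (M - l)`, identity elsewhere.  One of the two families
(near) stays in the slot and has even columns, the other (far) has the residue `2 (s % U) + 1` modulo
`2 U`, `U = u1 u2`, and slots of the same residue are `U` slots apart.
-/

namespace Pool.Agent.Lib.HBP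

open Finset

/-- Abstract form: a permutation of `[0, L)` with prescribed values on two disjoint injective families. -/
private theorem ms_abs (L n M : ℕ) (P Q : ℕ → ℕ → ℕ)
    (hP : ∀ s < n, ∀ l ≤ M, ∀ s' < n, ∀ l' ≤ M, P s l = P s' l' → s = s' ∧ l = l')
    (hQ : ∀ s < n, ∀ l ≤ M, ∀ s' < n, ∀ l' ≤ M, Q s l = Q s' l' → s = s' ∧ l = l')
    (hPQ : ∀ s < n, ∀ l ≤ M, ∀ s' < n, ∀ l' ≤ M, P s l ≠ Q s' l')
    (hPL : ∀ s < n, ∀ l ≤ M, P s l < L) (hQL : ∀ s < n, ∀ l ≤ M, Q s l < L) :
    ∃ sg : ℕ → ℕ, (∀ x < L, sg x < L) ∧ Set.InjOn sg (Set.Iio L) ∧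
      ∀ g : ℕ → ℕ → ℝ, ∑ x ∈ range L, g x (sg x) = ∑ x ∈ range L, g x x +
        ∑ s ∈ range n, ∑ l ∈ range (M + 1), (g (P s l) (Q s l) + g (Q s l) (P s (M - l)) -
          g (P s l) (P s l) - g (Q s l) (Q s l)) := by
  classical
  set inP : ℕ → Prop := fun x => ∃ p : ℕ × ℕ, (p.1 < n ∧ p.2 ≤ M) ∧ P p.1 p.2 = x with hinP
  set inQ : ℕ → Prop := fun x => ∃ p : ℕ × ℕ, (p.1 < n ∧ p.2 ≤ M) ∧ Q p.1 p.2 = x with hinQ
  set sg : ℕ → ℕ := fun x => if h : inP x then Q h.choose.1 h.choose.2 else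
    if h : inQ x then P h.choose.1 (M - h.choose.2) else x with hsg
  have sP : ∀ s < n, ∀ l ≤ M, sg (P s l) = Q s l := by
    intro s hs l hl
    have h : inP (P s l) := ⟨(s, l), ⟨hs, hl⟩, rfl⟩
    have e : sg (P s l) = Q h.choose.1 h.choose.2 := by
      rw [hsg]; simp only; rw [dif_pos h]
    have hh := h.choose_spec
    have := hP _ hh.1.1 _ hh.1.2 s hs l hl hh.2
    rw [e, this.1, this.2]
  have sQ : ∀ s < n, ∀ l ≤ M, sg (Q s l) = P s (M - l) := by
    intro s hs l hl
    have h : inQ (Q s l) := ⟨(s, l), ⟨hs, hl⟩, rfl⟩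
    have h' : ¬ inP (Q s l) := by
      rintro ⟨p, hp, e⟩
      exact hPQ p.1 hp.1 p.2 hp.2 s hs l hl e
    have e : sg (Q s l) = P h.choose.1 (M - h.choose.2) := by
      rw [hsg]; simp only; rw [dif_neg h', dif_pos h]
    have hh := h.choose_spec
    have := hQ _ hh.1.1 _ hh.1.2 s hs l hl hh.2
    rw [e, this.1, this.2]
  have sO : ∀ x, ¬ inP x → ¬ inQ x → sg x = x := by
    intro x h1 h2
    rw [hsg]; simp only; rw [dif_neg h1, dif_neg h2]
  refine ⟨sg, ?_, ?_, ?_⟩
  · intro x hx
    by_cases h1 : inP x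
    · obtain ⟨p, hp, e⟩ := h1
      rw [← e, sP p.1 hp.1 p.2 hp.2]
      exact hQL _ hp.1 _ hp.2
    · by_cases h2 : inQ x
      · obtain ⟨p, hp, e⟩ := h2
        rw [← e, sQ p.1 hp.1 p.2 hp.2]
        exact hPL _ hp.1 _ (Nat.sub_le _ _)
      · rw [sO x h1 h2]; exact hx
  · intro x _ y _ hxy
    by_cases hx1 : inP x
    · obtain ⟨p, hp, ex⟩ := hx1
      rw [← ex, sP p.1 hp.1 p.2 hp.2] at hxy
      by_cases hy1 : inP y
      · obtain ⟨q, hq, ey⟩ := hy1
        rw [← ey, sP q.1 hq.1 q.2 hq.2] at hxy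
        have := hQ p.1 hp.1 p.2 hp.2 q.1 hq.1 q.2 hq.2 hxy
        rw [← ex, ← ey, this.1, this.2]
      · by_cases hy2 : inQ y
        · obtain ⟨q, hq, ey⟩ := hy2
          rw [← ey, sQ q.1 hq.1 q.2 hq.2] at hxy
          exact absurd hxy.symm (hPQ q.1 hq.1 _ (Nat.sub_le _ _) p.1 hp.1 p.2 hp.2)
        · rw [sO y hy1 hy2] at hxy
          exact absurd ⟨p, hp, hxy⟩ hy2
    · by_cases hx2 : inQ x
      · obtain ⟨p, hp, ex⟩ := hx2
        rw [← ex, sQ p.1 hp.1 p.2 hp.2] at hxy
        by_cases hy1 : inP y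
        · obtain ⟨q, hq, ey⟩ := hy1
          rw [← ey, sP q.1 hq.1 q.2 hq.2] at hxy
          exact absurd hxy (hPQ p.1 hp.1 _ (Nat.sub_le _ _) q.1 hq.1 q.2 hq.2)
        · by_cases hy2 : inQ y
          · obtain ⟨q, hq, ey⟩ := hy2
            rw [← ey, sQ q.1 hq.1 q.2 hq.2] at hxy
            have := hP p.1 hp.1 _ (Nat.sub_le M p.2) q.1 hq.1 _ (Nat.sub_le M q.2) hxy
            have h2 : p.2 = q.2 := by have := hp.2; have := hq.2; omega
            rw [← ex, ← ey, this.1, h2]
          · rw [sO y hy1 hy2] at hxy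
            exact absurd ⟨(p.1, M - p.2), ⟨hp.1, Nat.sub_le _ _⟩, hxy⟩ hy1
      · rw [sO x hx1 hx2] at hxy
        by_cases hy1 : inP y
        · obtain ⟨q, hq, ey⟩ := hy1
          rw [← ey, sP q.1 hq.1 q.2 hq.2] at hxy
          exact absurd ⟨q, hq, hxy.symm⟩ hx2
        · by_cases hy2 : inQ y
          · obtain ⟨q, hq, ey⟩ := hy2
            rw [← ey, sQ q.1 hq.1 q.2 hq.2] at hxy
            exact absurd ⟨(q.1, M - q.2), ⟨hq.1, Nat.sub_le _ _⟩, hxy.symm⟩ hx1
          · rw [sO y hy1 hy2] at hxy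
            exact hxy
  · intro g
    set f : ℕ → ℝ := fun x => g x (sg x) - g x x with hf
    have h0 : ∑ x ∈ range L, g x (sg x) = ∑ x ∈ range L, g x x + ∑ x ∈ range L, f x := by
      rw [← Finset.sum_add_distrib]
      refine Finset.sum_congr rfl fun x _ => ?_
      rw [hf]; ring
    rw [h0]
    congr 1
    set I : Finset (ℕ × ℕ) := range n ×ˢ range (M + 1) with hI
    have hmI : ∀ p ∈ I, p.1 < n ∧ p.2 ≤ M := by
      intro p hp
      rw [hI, Finset.mem_product, Finset.mem_range, Finset.mem_range] at hp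
      omega
    have hmI' : ∀ p : ℕ × ℕ, p.1 < n ∧ p.2 ≤ M → p ∈ I := by
      intro p hp
      rw [hI, Finset.mem_product, Finset.mem_range, Finset.mem_range]
      omega
    have hsub : (I.image fun p => P p.1 p.2) ∪ (I.image fun p => Q p.1 p.2) ⊆ range L := by
      intro x hx
      rw [Finset.mem_union, Finset.mem_image, Finset.mem_image] at hx
      rw [Finset.mem_range]
      rcases hx with ⟨p, hp, e⟩ | ⟨p, hp, e⟩
      · rw [← e]; exact hPL _ (hmI p hp).1 _ (hmI p hp).2
      · rw [← e]; exact hQL _ (hmI p hp).1 _ (hmI p hp).2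
    rw [← Finset.sum_subset hsub]
    · rw [Finset.sum_union, Finset.sum_image, Finset.sum_image, ← Finset.sum_add_distrib, hI,
        Finset.sum_product]
      · refine Finset.sum_congr rfl fun s hs => ?_
        refine Finset.sum_congr rfl fun l hl => ?_
        have hs' := Finset.mem_range.mp hs
        have hl' : l ≤ M := by have := Finset.mem_range.mp hl; omega
        rw [hf]
        simp only
        rw [sP s hs' l hl', sQ s hs' l hl']
        ring
      · intro p hp q hq e
        have := hQ _ (hmI p hp).1 _ (hmI p hp).2 _ (hmI q hq).1 _ (hmI q hq).2 e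
        exact Prod.ext this.1 this.2
      · intro p hp q hq e
        have := hP _ (hmI p hp).1 _ (hmI p hp).2 _ (hmI q hq).1 _ (hmI q hq).2 e
        exact Prod.ext this.1 this.2
      · rw [Finset.disjoint_left]
        intro x h1 h2
        rw [Finset.mem_image] at h1 h2
        obtain ⟨p, hp, ep⟩ := h1
        obtain ⟨q, hq, eq⟩ := h2
        exact hPQ _ (hmI p hp).1 _ (hmI p hp).2 _ (hmI q hq).1 _ (hmI q hq).2 (ep.trans eq.symm)
    · intro x _ hx
      have h1 : ¬ inP x := by
        rintro ⟨p, hp, e⟩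
        exact hx (Finset.mem_union_left _ (Finset.mem_image.mpr ⟨p, hmI' p hp, e⟩))
      have h2 : ¬ inQ x := by
        rintro ⟨p, hp, e⟩
        exact hx (Finset.mem_union_right _ (Finset.mem_image.mpr ⟨p, hmI' p hp, e⟩))
      rw [hf]
      simp only
      rw [sO x h1 h2, sub_self]

/-- The near family. -/
private theorem ms_near (D a M : ℕ) (pos ν : ℕ → ℕ) (hpos : ∀ s, 2 * pos s < D)
    (hν : ∀ l ≤ M, 2 * ν l < D * a) (hνi : ∀ l ≤ M, ∀ l' ≤ M, ν l = ν l' → l = l')
    (ha : 0 < a) (s l s' l' : ℕ) (hl : l ≤ M) (hl' : l' ≤ M)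
    (h : (s * D + pos s) * a + ν l = (s' * D + pos s') * a + ν l') : s = s' ∧ l = l' := by
  have b1 : ∀ t k, k ≤ M → t * (D * a) ≤ (t * D + pos t) * a + ν k ∧
      (t * D + pos t) * a + ν k < (t + 1) * (D * a) := by
    intro t k hk
    have h1 := hν k hk
    have h2 := Nat.mul_lt_mul_of_pos_right (hpos t) ha
    constructor
    · have : (t * D + pos t) * a = t * (D * a) + pos t * a := by ring
      omega
    · have e1 : (t * D + pos t) * a = t * (D * a) + pos t * a := by ring
      have e2 : (t + 1) * (D * a) = t * (D * a) + D * a := by ring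
      have e3 : 2 * pos t * a = 2 * (pos t * a) := by ring
      omega
  have h1 := b1 s l hl
  have h2 := b1 s' l' hl'
  rw [h] at h1
  have hDa : 0 < D * a := by
    have := hpos s
    exact Nat.mul_pos (by omega) ha
  have e1 : s < s' + 1 := Nat.lt_of_mul_lt_mul_right (lt_of_le_of_lt h1.1 h2.2)
  have e2 : s' < s + 1 := Nat.lt_of_mul_lt_mul_right (lt_of_le_of_lt h2.1 h1.2)
  have e3 : s = s' := by omega
  subst e3
  exact ⟨rfl, hνi l hl l' hl' (by omega)⟩

/-- The far family. -/
private theorem ms_far (D a M U X : ℕ) (pos μ : ℕ → ℕ) (hpos : ∀ s, 2 * pos s < D)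
    (hU : 0 < U) (hUa : 2 * U ∣ a) (hX : 2 * U ∣ X) (ha : 0 < a)
    (hμ : ∀ l ≤ M, 4 * (U * μ l) < U * (D * a))
    (hμi : ∀ l ≤ M, ∀ l' ≤ M, μ l = μ l' → l = l') (s l s' l' : ℕ) (hl : l ≤ M) (hl' : l' ≤ M)
    (h : (s * D + pos s) * a + (X + 2 * (s % U) + 1) + 2 * U * μ l =
      (s' * D + pos s') * a + (X + 2 * (s' % U) + 1) + 2 * U * μ l') : s = s' ∧ l = l' := by
  obtain ⟨c, hc⟩ := hUa
  obtain ⟨d, hd⟩ := hX
  have hr : s % U = s' % U := by
    have e1 : ∀ t k, ((t * D + pos t) * a + (X + 2 * (t % U) + 1) + 2 * U * μ k) % (2 * U) =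
        2 * (t % U) + 1 := by
      intro t k
      have h3 : (t * D + pos t) * a + (X + 2 * (t % U) + 1) + 2 * U * μ k =
          (2 * (t % U) + 1) + 2 * U * ((t * D + pos t) * c + d + μ k) := by
        rw [hc, hd]; ring
      rw [h3, Nat.add_mul_mod_self_left]
      have := Nat.mod_lt t hU
      exact Nat.mod_eq_of_lt (by omega)
    have h1 := e1 s l
    have h2 := e1 s' l'
    rw [h] at h1
    omega
  have key : ∀ s l s' l', l ≤ M → l' ≤ M → s % U = s' % U →
      (s * D + pos s) * a + (X + 2 * (s % U) + 1) + 2 * U * μ l =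
      (s' * D + pos s') * a + (X + 2 * (s' % U) + 1) + 2 * U * μ l' → ¬ s < s' := by
    intro s l s' l' hl _ hr h hlt
    rw [hr] at h
    have h3 : s + U ≤ s' := by
      have a1 := Nat.div_add_mod s U
      have a2 := Nat.div_add_mod s' U
      have a3 : s / U < s' / U := by
        by_contra hcon
        push Not at hcon
        have := Nat.mul_le_mul_left U hcon
        omega
      have a4 : U * (s / U + 1) ≤ U * (s' / U) := Nat.mul_le_mul_left U a3
      rw [Nat.mul_add, Nat.mul_one] at a4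
      omega
    have h4 : (s + U) * D * a ≤ s' * D * a := Nat.mul_le_mul_right a (Nat.mul_le_mul_right D h3)
    have h5 := hμ l hl
    have h6 := Nat.mul_lt_mul_of_pos_right (hpos s) ha
    have h7 : D * a ≤ U * (D * a) := Nat.le_mul_of_pos_left _ hU
    have e1 : (s + U) * D * a = s * D * a + U * (D * a) := by ring
    have e2 : (s * D + pos s) * a = s * D * a + pos s * a := by ring
    have e3 : (s' * D + pos s') * a = s' * D * a + pos s' * a := by ring
    have e4 : 2 * pos s * a = 2 * (pos s * a) := by ring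
    have e5 : 2 * U * μ l = 2 * (U * μ l) := by ring
    omega
  have n1 := key s l s' l' hl hl' hr h
  have n2 := key s' l' s l hl' hl hr.symm h.symm
  have e3 : s = s' := by omega
  subst e3
  refine ⟨rfl, hμi l hl l' hl' ?_⟩
  have : 2 * U * μ l = 2 * U * μ l' := by omega
  exact Nat.eq_of_mul_eq_mul_left (by omega) this

theorem real1_exists {h h' K2 G a L J0 Q u1 u2 : ℕ} (P : Par h h' K2 G a L J0 Q) (hc : Cls u1 u2 J0)
    (pos : ℕ → ℕ) (hpos : ∀ s, pos s < Dh h / 2) : ∃ sg : ℕ → ℕ, Real1 h G a u1 u2 L pos sg := by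
  classical
  obtain ⟨i, hi, hUi⟩ := hc.pow
  set U := u1 * u2 with hUdef
  have hU : 0 < U := by rw [hUi]; positivity
  have hu1 : 0 < u1 := Nat.pos_of_mul_pos_right hU |> fun _ => by
    rcases Nat.eq_zero_or_pos u1 with e | e
    · rw [hUdef, e, zero_mul] at hU; omega
    · exact e
  have hh' : 1 ≤ h' := by
    have := P.hG; have := P.Gpos
    have h1 : 1 ≤ 10 ^ 25 * G := Nat.one_le_iff_ne_zero.mpr (by positivity)
    omega
  have hh : 1 ≤ h := by
    rw [P.hh]
    exact Nat.mul_pos P.K2pos hh'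
  have hQ : 1 ≤ Q := by
    refine le_trans ?_ P.hQ
    have := P.Gpos; have := P.K2pos
    exact Nat.one_le_iff_ne_zero.mpr (by positivity)
  have ha : 0 < a := lt_of_lt_of_le (by positivity) P.ha
  have hUa : 2 * U ∣ a := by
    refine dvd_trans ?_ P.hdiv
    rw [hUi]
    obtain ⟨k, rfl⟩ := Nat.exists_eq_add_of_le hi
    exact ⟨16 * 4 ^ k, by rw [pow_add]; ring⟩
  have ha2 : 2 ∣ a := (Dvd.intro _ rfl).trans hUa
  have hD : Dh h = 10 ^ 26 * h ^ 3 := rfl
  have hh2 : h ^ 2 ≤ h ^ 3 := Nat.pow_le_pow_right hh (by norm_num)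
  have hD2 : 10 ^ 26 * h ^ 2 ≤ Dh h := by rw [hD]; exact Nat.mul_le_mul_left _ hh2
  have hpos' : ∀ s, 2 * pos s < Dh h := by
    intro s
    have := hpos s
    omega
  have hMa : Mh h a ≤ h ^ 2 * a := Nat.div_le_self _ _
  have hX : 2 * U ∣ 34 * h ^ 2 * a := hUa.mul_left _
  have hNl : ∀ l, 2 * Nl h a l ≤ 33 * h ^ 2 * a := by
    intro l
    have := Nl_le h a l
    omega
  have hDa : 10 ^ 26 * (h ^ 2 * a) ≤ Dh h * a := by
    calc 10 ^ 26 * (h ^ 2 * a) = 10 ^ 26 * h ^ 2 * a := by ring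
      _ ≤ Dh h * a := Nat.mul_le_mul_right a hD2
  have hha : 1 ≤ h ^ 2 * a := Nat.mul_pos (by positivity) ha
  have hNli : ∀ l ≤ Mh h a, ∀ l' ≤ Mh h a, Nl h a l = Nl h a l' → l = l' := by
    intro l hl l' hl' e
    rcases lt_trichotomy l l' with c | c | c
    · have := Nl_anti hh ha ha2 c hl'; omega
    · exact c
    · have := Nl_anti hh ha ha2 c hl; omega
  have hsl : ∀ s < nsl h G a L u1 u2, (s + 1 + U + 3) * (Dh h * a) ≤ L := by
    intro s hs
    have h1 : nsl h G a L u1 u2 ≤ L / (Dh h * a) - (U + 3) := by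
      unfold nsl
      exact Nat.mul_div_le _ _
    have h2 : s + 1 + U + 3 ≤ L / (Dh h * a) := by omega
    exact (Nat.mul_le_mul_right _ h2).trans (Nat.div_mul_le_self _ _)
  -- bounds of the two families
  have nearL : ∀ s < nsl h G a L u1 u2, ∀ v, 2 * v < Dh h * a →
      (s * Dh h + pos s) * a + v < L := by
    intro s hs v hv
    have h1 := hsl s hs
    have h2 := Nat.mul_lt_mul_of_pos_right (hpos' s) ha
    have e1 : (s * Dh h + pos s) * a = s * (Dh h * a) + pos s * a := by ring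
    have e2 : (s + 1 + U + 3) * (Dh h * a) = s * (Dh h * a) + (U + 4) * (Dh h * a) := by ring
    have e3 : Dh h * a ≤ (U + 4) * (Dh h * a) := Nat.le_mul_of_pos_left _ (by omega)
    have e4 : 2 * pos s * a = 2 * (pos s * a) := by ring
    omega
  have farL : ∀ s < nsl h G a L u1 u2, ∀ v, 4 * v < U * (Dh h * a) →
      (s * Dh h + pos s) * a + (34 * h ^ 2 * a + 2 * (s % U) + 1) + 2 * v < L := by
    intro s hs v hv
    have h1 := hsl s hs
    have h2 := Nat.mul_lt_mul_of_pos_right (hpos' s) ha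
    have h3 := Nat.mod_lt s hU
    have e1 : (s * Dh h + pos s) * a = s * (Dh h * a) + pos s * a := by ring
    have e2 : (s + 1 + U + 3) * (Dh h * a) = s * (Dh h * a) + U * (Dh h * a) + 4 * (Dh h * a) := by
      ring
    have e3 : U ≤ U * (Dh h * a) := Nat.le_mul_of_pos_right _ (by omega)
    have e4 : 2 * pos s * a = 2 * (pos s * a) := by ring
    have e5 : 34 * h ^ 2 * a = 34 * (h ^ 2 * a) := by ring
    have e6 : 34 * (h ^ 2 * a) ≤ 10 ^ 26 * (h ^ 2 * a) := Nat.mul_le_mul_right _ (by norm_num)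
    have e7 : 4 * U ≤ U * (Dh h * a) := by
      rw [mul_comm 4 U]
      refine Nat.mul_le_mul_left U ?_
      calc 4 ≤ 10 ^ 26 * 1 := by norm_num
        _ ≤ 10 ^ 26 * (h ^ 2 * a) := Nat.mul_le_mul_left _ hha
        _ ≤ _ := hDa
    omega
  have hev : ∀ s, 2 ∣ (s * Dh h + pos s) * a := fun s => ha2.mul_left _
  have hev2 : 2 ∣ 34 * h ^ 2 * a := ha2.mul_left _
  by_cases hu : u1 = 1
  · -- A near, B far
    have hUu : U = u2 := by rw [hUdef, hu, one_mul]
    have eA : ∀ s l, arcA h a u1 u2 pos s l = (s * Dh h + pos s) * a + 16 * l := by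
      intro s l
      unfold arcA al
      rw [if_pos hu, hu]
      ring
    have eB : ∀ s l, arcB h a u1 u2 pos s l = (s * Dh h + pos s) * a +
        (34 * h ^ 2 * a + 2 * (s % U) + 1) + 2 * U * Nl h a l := by
      intro s l
      unfold arcB be
      rw [if_pos hu, ← hUdef, hUu]
    have hν : ∀ l ≤ Mh h a, 2 * (16 * l) < Dh h * a := by
      intro l hl
      have : 2 * (16 * l) ≤ 32 * (h ^ 2 * a) := by omega
      have h2 : 32 * (h ^ 2 * a) < 10 ^ 26 * (h ^ 2 * a) := Nat.mul_lt_mul_of_pos_right (by norm_num) hha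
      omega
    have hμ : ∀ l ≤ Mh h a, 4 * (U * Nl h a l) < U * (Dh h * a) := by
      intro l _
      have h1 := hNl l
      have h2 : 4 * Nl h a l < Dh h * a := by
        have h3 : 4 * Nl h a l ≤ 66 * (h ^ 2 * a) := by
          have e : 33 * h ^ 2 * a = 33 * (h ^ 2 * a) := by ring
          omega
        have h4 : 66 * (h ^ 2 * a) < 10 ^ 26 * (h ^ 2 * a) :=
          Nat.mul_lt_mul_of_pos_right (by norm_num) hha
        omega
      calc 4 * (U * Nl h a l) = U * (4 * Nl h a l) := by ring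
        _ < U * (Dh h * a) := Nat.mul_lt_mul_of_pos_left h2 hU
    obtain ⟨sg, h1, h2, h3⟩ := ms_abs L (nsl h G a L u1 u2) (Mh h a) (arcA h a u1 u2 pos)
      (arcB h a u1 u2 pos)
      (by
        intro s _ l hl s' _ l' hl' e
        rw [eA, eA] at e
        exact ms_near (Dh h) a (Mh h a) pos (fun l => 16 * l) hpos' hν
          (fun l _ l' _ e => by simpa using e) ha s l s' l' hl hl' e)
      (by
        intro s _ l hl s' _ l' hl' e
        rw [eB, eB] at e
        exact ms_far (Dh h) a (Mh h a) U _ pos (Nl h a) hpos' hU hUa hX ha hμ hNli s l s' l' hl hl' e)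
      (by
        intro s _ l _ s' _ l' _ e
        rw [eA, eB] at e
        have c1 := hev s
        have c2 := hev s'
        have e5 : 2 * U * Nl h a l' = 2 * (U * Nl h a l') := by ring
        omega)
      (by
        intro s hs l hl
        rw [eA]
        exact nearL s hs _ (hν l hl))
      (by
        intro s hs l hl
        rw [eB, mul_assoc 2 U]
        exact farL s hs _ (hμ l hl))
    refine ⟨sg, h1, h2, ?_⟩
    intro φ A b
    have := h3 (fun x r => csum φ A b x r)
    exact this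
  · -- A far, B near
    have hu2 : u2 = 1 := by rcases hc.one with e | e; exact absurd e hu; exact e
    have hUu : U = u1 := by rw [hUdef, hu2, mul_one]
    have eA : ∀ s l, arcA h a u1 u2 pos s l = (s * Dh h + pos s) * a +
        (34 * h ^ 2 * a + 2 * (s % U) + 1) + 2 * U * (8 * l) := by
      intro s l
      unfold arcA al
      rw [if_neg hu, ← hUdef, hUu]
      ring
    have eB : ∀ s l, arcB h a u1 u2 pos s l = (s * Dh h + pos s) * a + 2 * Nl h a l := by
      intro s l
      unfold arcB be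
      rw [if_neg hu, hu2]
      ring
    have hν : ∀ l ≤ Mh h a, 2 * (2 * Nl h a l) < Dh h * a := by
      intro l _
      have h1 := hNl l
      have h3 : 2 * (2 * Nl h a l) ≤ 66 * (h ^ 2 * a) := by
        have e : 33 * h ^ 2 * a = 33 * (h ^ 2 * a) := by ring
        omega
      have h4 : 66 * (h ^ 2 * a) < 10 ^ 26 * (h ^ 2 * a) :=
        Nat.mul_lt_mul_of_pos_right (by norm_num) hha
      omega
    have hμ : ∀ l ≤ Mh h a, 4 * (U * (8 * l)) < U * (Dh h * a) := by
      intro l hl
      have h2 : 4 * (8 * l) < Dh h * a := by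
        have h3 : 4 * (8 * l) ≤ 32 * (h ^ 2 * a) := by omega
        have h4 : 32 * (h ^ 2 * a) < 10 ^ 26 * (h ^ 2 * a) :=
          Nat.mul_lt_mul_of_pos_right (by norm_num) hha
        omega
      calc 4 * (U * (8 * l)) = U * (4 * (8 * l)) := by ring
        _ < U * (Dh h * a) := Nat.mul_lt_mul_of_pos_left h2 hU
    obtain ⟨sg, h1, h2, h3⟩ := ms_abs L (nsl h G a L u1 u2) (Mh h a) (arcA h a u1 u2 pos)
      (arcB h a u1 u2 pos)
      (by
        intro s _ l hl s' _ l' hl' e
        rw [eA, eA] at e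
        exact ms_far (Dh h) a (Mh h a) U _ pos (fun l => 8 * l) hpos' hU hUa hX ha hμ
          (fun l _ l' _ e => by simpa using e) s l s' l' hl hl' e)
      (by
        intro s _ l hl s' _ l' hl' e
        rw [eB, eB] at e
        exact ms_near (Dh h) a (Mh h a) pos (fun l => 2 * Nl h a l) hpos' hν
          (fun l hl l' hl' e => hNli l hl l' hl' (by simpa using e)) ha s l s' l' hl hl' e)
      (by
        intro s _ l _ s' _ l' _ e
        rw [eA, eB] at e
        have c1 := hev s
        have c2 := hev s'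
        have e5 : 2 * U * (8 * l) = 2 * (U * (8 * l)) := by ring
        omega)
      (by
        intro s hs l hl
        rw [eA, mul_assoc 2 U]
        exact farL s hs _ (hμ l hl))
      (by
        intro s hs l hl
        rw [eB]
        exact nearL s hs _ (hν l hl))
    refine ⟨sg, h1, h2, ?_⟩
    intro φ A b
    have := h3 (fun x r => csum φ A b x r)
    exact this

end Pool.Agent.Lib.HBP
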