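import Mathlib

/-!
# Project HBP, section Uncrowd: the tail bound

`K` independent uniform variables `ξ k : α`; variable `k ∈ A` falls into the window `win k (ξ k)`.
`ucnt` = number of variables in a window, `ucrw` = number of variables in windows with at least `2 r`
variables.  If the expected number in every window is at most `μ`, then `ucrw` has exponential moments:
the variable `k` is late if its window contains already `r` variables; the sum of the conditional
probabilities to be late is at most `μ |A| / r` for all `ξ`.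
-/

namespace Pool.Agent.Lib.HBP

open Finset

noncomputable section

/-- Number of `k < K`, `k ∈ A`, in the window `ω`. -/
def ucnt {α : Type*} (A : Finset ℕ) (win : ℕ → α → ℤ) (K : ℕ) (ξ : Fin K → α) (ω : ℤ) : ℕ :=
  (univ.filter fun k : Fin K => (k : ℕ) ∈ A ∧ win k (ξ k) = ω).card

/-- Number of late variables. -/
def ulate {α : Type*} (A : Finset ℕ) (win : ℕ → α → ℤ) (r : ℕ) : (K : ℕ) → (Fin K → α) → ℕ
  | 0, _ => 0
  | K + 1, ξ => ulate A win r K (Fin.init ξ) +
      if K ∈ A ∧ r ≤ ucnt A win K (Fin.init ξ) (win K (ξ (Fin.last K))) then 1 else 0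

/-- Sum of the conditional probabilities to be late. -/
def ucomp {α : Type*} [Fintype α] (A : Finset ℕ) (win : ℕ → α → ℤ) (r : ℕ) :
    (K : ℕ) → (Fin K → α) → ℝ
  | 0, _ => 0
  | K + 1, ξ => ucomp A win r K (Fin.init ξ) +
      ((univ.filter fun x : α => K ∈ A ∧ r ≤ ucnt A win K (Fin.init ξ) (win K x)).card : ℝ) /
        Fintype.card α

/-- Number of variables in windows with at least `2 r` variables. -/
def ucrw {α : Type*} (A : Finset ℕ) (win : ℕ → α → ℤ) (r K : ℕ) (ξ : Fin K → α) : ℕ :=
  (univ.filter fun k : Fin K => (k : ℕ) ∈ A ∧ 2 * r ≤ ucnt A win K ξ (win k (ξ k))).card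

end

private lemma utail_ucnt_succ {α : Type*} (A : Finset ℕ) (win : ℕ → α → ℤ) (K : ℕ)
    (ξ : Fin (K + 1) → α) (ω : ℤ) :
    ucnt A win (K + 1) ξ ω = ucnt A win K (Fin.init ξ) ω +
      if K ∈ A ∧ win K (ξ (Fin.last K)) = ω then 1 else 0 := by
  unfold ucnt
  rw [Finset.card_filter, Finset.card_filter, Fin.sum_univ_castSucc]
  rfl

private lemma utail_sum_snoc {α : Type*} [Fintype α] (K : ℕ) (g : (Fin (K + 1) → α) → ℝ) :
    ∑ ξ, g ξ = ∑ ξ : Fin K → α, ∑ x : α, g (Fin.snoc (α := fun _ => α) ξ x) := by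
  rw [← Equiv.sum_comp (Fin.snocEquiv (fun _ : Fin (K + 1) => α)) g, Fintype.sum_prod_type,
    Finset.sum_comm]
  rfl

/-- The exponential supermartingale. -/
theorem ulate_super {α : Type*} [Fintype α] [Nonempty α] (A : Finset ℕ) (win : ℕ → α → ℤ) (r K : ℕ)
    (lam : ℝ) (hl : 0 ≤ lam) :
    ∑ ξ : Fin K → α, Real.exp (lam * ulate A win r K ξ - (Real.exp lam - 1) * ucomp A win r K ξ)
      ≤ (Fintype.card α : ℝ) ^ K := by
  have hα : (0 : ℝ) < Fintype.card α := by exact_mod_cast Fintype.card_pos
  have hc : 0 ≤ Real.exp lam - 1 := by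
    have := Real.add_one_le_exp lam
    linarith
  induction K with
  | zero =>
    simp [ulate, ucomp]
  | succ K ih =>
    rw [utail_sum_snoc]
    have key : ∀ ξ : Fin K → α, ∑ x : α, Real.exp (lam * ulate A win r (K + 1)
        (Fin.snoc (α := fun _ => α) ξ x) - (Real.exp lam - 1) * ucomp A win r (K + 1)
        (Fin.snoc (α := fun _ => α) ξ x))
        ≤ Real.exp (lam * ulate A win r K ξ - (Real.exp lam - 1) * ucomp A win r K ξ) *
          Fintype.card α := by
      intro ξ
      set c : ℝ := ((univ.filter fun x : α => K ∈ A ∧ r ≤ ucnt A win K ξ (win K x)).card : ℝ)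
        with hcdef
      have hc0 : 0 ≤ c := by positivity
      have e1 : ∀ x : α, Real.exp (lam * ulate A win r (K + 1) (Fin.snoc (α := fun _ => α) ξ x)
          - (Real.exp lam - 1) * ucomp A win r (K + 1) (Fin.snoc (α := fun _ => α) ξ x))
          = Real.exp (lam * ulate A win r K ξ - (Real.exp lam - 1) * ucomp A win r K ξ) *
            (Real.exp (-((Real.exp lam - 1) * (c / Fintype.card α))) *
              (1 + (Real.exp lam - 1) *
                (if K ∈ A ∧ r ≤ ucnt A win K ξ (win K x) then 1 else 0))) := by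
        intro x
        have h1 : ulate A win r (K + 1) (Fin.snoc (α := fun _ => α) ξ x)
            = ulate A win r K ξ + if K ∈ A ∧ r ≤ ucnt A win K ξ (win K x) then 1 else 0 := by
          simp only [ulate, Fin.init_snoc, Fin.snoc_last]
        have h2 : ucomp A win r (K + 1) (Fin.snoc (α := fun _ => α) ξ x)
            = ucomp A win r K ξ + c / Fintype.card α := by
          simp only [ucomp, Fin.init_snoc, hcdef]
        rw [h1, h2]
        have h3 : (1 : ℝ) + (Real.exp lam - 1) *
            (if K ∈ A ∧ r ≤ ucnt A win K ξ (win K x) then 1 else 0)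
            = Real.exp (lam * (if K ∈ A ∧ r ≤ ucnt A win K ξ (win K x) then (1 : ℝ) else 0)) := by
          split_ifs <;> simp
        rw [h3, ← Real.exp_add, ← Real.exp_add]
        congr 1
        push_cast
        ring
      rw [Finset.sum_congr rfl fun x _ => e1 x, ← Finset.mul_sum, ← Finset.mul_sum]
      apply mul_le_mul_of_nonneg_left _ (Real.exp_pos _).le
      have h4 : ∑ x : α, ((1 : ℝ) + (Real.exp lam - 1) *
          (if K ∈ A ∧ r ≤ ucnt A win K ξ (win K x) then 1 else 0))
          = Fintype.card α * (1 + (Real.exp lam - 1) * (c / Fintype.card α)) := by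
        rw [Finset.sum_add_distrib, ← Finset.mul_sum, Finset.sum_boole, Finset.sum_const,
          Finset.card_univ, nsmul_eq_mul, ← hcdef]
        field_simp
      rw [h4]
      set y := (Real.exp lam - 1) * (c / Fintype.card α) with hy
      have h5 : 1 + y ≤ Real.exp y := by
        have := Real.add_one_le_exp y
        linarith
      calc Real.exp (-y) * (Fintype.card α * (1 + y))
          ≤ Real.exp (-y) * (Fintype.card α * Real.exp y) := by
            apply mul_le_mul_of_nonneg_left _ (Real.exp_pos _).le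
            exact mul_le_mul_of_nonneg_left h5 hα.le
        _ = Fintype.card α := by
            rw [Real.exp_neg]
            field_simp
    calc _ ≤ ∑ ξ : Fin K → α, Real.exp (lam * ulate A win r K ξ
          - (Real.exp lam - 1) * ucomp A win r K ξ) * Fintype.card α :=
          Finset.sum_le_sum fun ξ _ => key ξ
      _ = (∑ ξ : Fin K → α, Real.exp (lam * ulate A win r K ξ
          - (Real.exp lam - 1) * ucomp A win r K ξ)) * Fintype.card α := by
          rw [Finset.sum_mul]
      _ ≤ (Fintype.card α : ℝ) ^ K * Fintype.card α :=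
          mul_le_mul_of_nonneg_right ih hα.le
      _ = _ := by rw [pow_succ]

private lemma utail_ucnt_init_le {α : Type*} (A : Finset ℕ) (win : ℕ → α → ℤ) (K : ℕ)
    (ξ : Fin (K + 1) → α) (ω : ℤ) : ucnt A win K (Fin.init ξ) ω ≤ ucnt A win (K + 1) ξ ω := by
  rw [utail_ucnt_succ]; omega

private lemma utail_comp_le {α : Type*} [Fintype α] [Nonempty α] (A : Finset ℕ) (win : ℕ → α → ℤ)
    (r K : ℕ) (ξ : Fin K → α) (M : ℤ → ℕ) (hM : ∀ ω, ucnt A win K ξ ω ≤ M ω) :
    ucomp A win r K ξ ≤ ∑ k ∈ (range K).filter (· ∈ A),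
      ((univ.filter fun x : α => r ≤ M (win k x)).card : ℝ) / Fintype.card α := by
  have hα : (0 : ℝ) < Fintype.card α := by exact_mod_cast Fintype.card_pos
  induction K with
  | zero => simp [ucomp]
  | succ K ih =>
    have h1 := ih (Fin.init ξ) (fun ω => (utail_ucnt_init_le A win K ξ ω).trans (hM ω))
    simp only [ucomp]
    by_cases hK : K ∈ A
    · rw [Finset.range_add_one, Finset.filter_insert, if_pos hK, Finset.sum_insert (by simp)]
      have h2 : ((univ.filter fun x : α => K ∈ A ∧ r ≤ ucnt A win K (Fin.init ξ) (win K x)).card : ℝ)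
          ≤ ((univ.filter fun x : α => r ≤ M (win K x)).card : ℝ) := by
        have : (univ.filter fun x : α => K ∈ A ∧ r ≤ ucnt A win K (Fin.init ξ) (win K x)).card
            ≤ (univ.filter fun x : α => r ≤ M (win K x)).card := by
          apply Finset.card_le_card
          intro x hx
          rw [Finset.mem_filter] at hx ⊢
          exact ⟨hx.1, hx.2.2.trans ((utail_ucnt_init_le A win K ξ _).trans (hM _))⟩
        exact_mod_cast this
      have h3 := div_le_div_of_nonneg_right h2 hα.le
      linarith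
    · rw [Finset.range_add_one, Finset.filter_insert, if_neg hK]
      have h2 : (univ.filter fun x : α => K ∈ A ∧ r ≤ ucnt A win K (Fin.init ξ) (win K x)) = ∅ := by
        apply Finset.filter_eq_empty_iff.mpr
        intro x _ h
        exact hK h.1
      rw [h2]
      simpa using h1

private lemma utail_sum_ucnt {α : Type*} (A : Finset ℕ) (win : ℕ → α → ℤ) (K : ℕ) (ξ : Fin K → α)
    (S : Finset ℤ) : ∑ ω ∈ S, ucnt A win K ξ ω
      = (univ.filter fun k : Fin K => (k : ℕ) ∈ A ∧ win k (ξ k) ∈ S).card := by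
  unfold ucnt
  rw [← Finset.card_biUnion]
  · congr 1
    ext k
    simp only [Finset.mem_biUnion, Finset.mem_filter, Finset.mem_univ, true_and]
    constructor
    · rintro ⟨ω, hω, h1, h2⟩
      exact ⟨h1, h2 ▸ hω⟩
    · rintro ⟨h1, h2⟩
      exact ⟨_, h2, h1, rfl⟩
  · intro ω _ ω' _ hne
    rw [Function.onFun, Finset.disjoint_filter]
    intro k _ h1 h2
    exact hne (h1.2.symm.trans h2.2)

/-- The compensator is bounded for all `ξ`. -/
theorem ucomp_le {α : Type*} [Fintype α] [Nonempty α] (A : Finset ℕ) (win : ℕ → α → ℤ) (r K : ℕ)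
    (hr : 1 ≤ r) (hA : A ⊆ range K) (μ : ℝ) (hμ0 : 0 ≤ μ)
    (hμ : ∀ ω : ℤ, (∑ k ∈ A, ((univ.filter fun x : α => win k x = ω).card : ℝ))
      ≤ μ * Fintype.card α) (ξ : Fin K → α) :
    ucomp A win r K ξ ≤ (A.card : ℝ) / r * μ := by
  have hα : (0 : ℝ) < Fintype.card α := by exact_mod_cast Fintype.card_pos
  have hr0 : (0 : ℝ) < r := by exact_mod_cast hr
  have hfil : (range K).filter (· ∈ A) = A := by
    ext k
    rw [Finset.mem_filter]
    exact ⟨fun h => h.2, fun h => ⟨hA h, h⟩⟩
  have h1 := utail_comp_le A win r K ξ (ucnt A win K ξ) (fun ω => le_rfl)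
  rw [hfil] at h1
  set HC : Finset ℤ := (univ.image fun k : Fin K => win k (ξ k)).filter
    (fun ω => r ≤ ucnt A win K ξ ω) with hHC
  have hmem : ∀ ω, r ≤ ucnt A win K ξ ω → ω ∈ HC := by
    intro ω hω
    rw [hHC, Finset.mem_filter]
    refine ⟨?_, hω⟩
    have : 0 < ucnt A win K ξ ω := by omega
    unfold ucnt at this
    obtain ⟨k, hk⟩ := Finset.card_pos.mp this
    rw [Finset.mem_filter] at hk
    rw [Finset.mem_image]
    exact ⟨k, Finset.mem_univ _, hk.2.2⟩
  have hHCcard : (HC.card : ℝ) ≤ (A.card : ℝ) / r := by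
    rw [le_div_iff₀ hr0]
    have h2 : HC.card * r ≤ A.card := by
      calc HC.card * r = ∑ ω ∈ HC, r := by rw [Finset.sum_const, smul_eq_mul]
        _ ≤ ∑ ω ∈ HC, ucnt A win K ξ ω := by
            apply Finset.sum_le_sum
            intro ω hω
            rw [hHC, Finset.mem_filter] at hω
            exact hω.2
        _ = (univ.filter fun k : Fin K => (k : ℕ) ∈ A ∧ win k (ξ k) ∈ HC).card :=
            utail_sum_ucnt A win K ξ HC
        _ ≤ A.card := by
            apply Finset.card_le_card_of_injOn (fun k : Fin K => (k : ℕ))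
            · intro k hk
              rw [Finset.mem_coe, Finset.mem_filter] at hk
              exact hk.2.1
            · intro a _ b _ hab
              exact Fin.ext hab
    exact_mod_cast h2
  have h3 : ∑ k ∈ A, ((univ.filter fun x : α => r ≤ ucnt A win K ξ (win k x)).card : ℝ)
      ≤ HC.card * (μ * Fintype.card α) := by
    have h4 : ∀ k ∈ A, ((univ.filter fun x : α => r ≤ ucnt A win K ξ (win k x)).card : ℝ)
        = ∑ ω ∈ HC, ((univ.filter fun x : α => win k x = ω).card : ℝ) := by
      intro k _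
      classical
      rw [← Nat.cast_sum, ← Finset.card_biUnion]
      · congr 2
        ext x
        simp only [Finset.mem_biUnion, Finset.mem_filter, Finset.mem_univ, true_and]
        constructor
        · intro h
          exact ⟨_, hmem _ h, rfl⟩
        · rintro ⟨ω, hω, h⟩
          rw [hHC, Finset.mem_filter] at hω
          rw [h]; exact hω.2
      · intro ω _ ω' _ hne
        rw [Function.onFun, Finset.disjoint_filter]
        intro x _ h1 h2
        exact hne (h1.symm.trans h2)
    rw [Finset.sum_congr rfl h4, Finset.sum_comm]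
    calc ∑ ω ∈ HC, ∑ k ∈ A, ((univ.filter fun x : α => win k x = ω).card : ℝ)
        ≤ ∑ ω ∈ HC, μ * Fintype.card α := Finset.sum_le_sum fun ω _ => hμ ω
      _ = _ := by rw [Finset.sum_const, nsmul_eq_mul]
  have h4 : ∑ k ∈ A, ((univ.filter fun x : α => r ≤ ucnt A win K ξ (win k x)).card : ℝ)
      / Fintype.card α ≤ HC.card * μ := by
    rw [← Finset.sum_div, div_le_iff₀ hα]
    calc _ ≤ _ := h3
      _ = _ := by ring
  calc _ ≤ _ := h1
    _ ≤ (HC.card : ℝ) * μ := h4
    _ ≤ _ := mul_le_mul_of_nonneg_right hHCcard hμ0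

private lemma utail_late_ge {α : Type*} (A : Finset ℕ) (win : ℕ → α → ℤ) (r K : ℕ) (ξ : Fin K → α)
    (S : Finset ℤ) : ∑ ω ∈ S, (ucnt A win K ξ ω - r) ≤ ulate A win r K ξ := by
  induction K with
  | zero =>
    have : ∀ ω ∈ S, ucnt A win 0 ξ ω - r = 0 := by
      intro ω _
      unfold ucnt
      simp
    rw [Finset.sum_eq_zero this]; exact Nat.zero_le _
  | succ K ih =>
    have h1 := ih (Fin.init ξ)
    simp only [ulate]
    set ω0 := win K (ξ (Fin.last K)) with hω0
    have h2 : ∀ ω ∈ S, ucnt A win (K + 1) ξ ω - r ≤ (ucnt A win K (Fin.init ξ) ω - r) +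
        (if ω = ω0 then (if K ∈ A ∧ r ≤ ucnt A win K (Fin.init ξ) ω0 then 1 else 0) else 0) := by
      intro ω _
      rw [utail_ucnt_succ]
      by_cases h : ω = ω0
      · rw [if_pos h, h]
        by_cases hK : K ∈ A
        · simp only [hK, ← hω0, and_self, if_true, true_and]
          split_ifs <;> omega
        · simp [hK]
      · rw [if_neg h]
        have : ¬ (K ∈ A ∧ win K (ξ (Fin.last K)) = ω) := fun hh => h hh.2.symm
        rw [if_neg this]
        omega
    refine (Finset.sum_le_sum h2).trans ?_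
    rw [Finset.sum_add_distrib]
    apply Nat.add_le_add h1
    rw [Finset.sum_ite_eq']
    split_ifs <;> simp_all

/-- Crowded variables versus late variables. -/
theorem ucrw_le {α : Type*} (A : Finset ℕ) (win : ℕ → α → ℤ) (r K : ℕ) (ξ : Fin K → α) :
    ucrw A win r K ξ ≤ 2 * ulate A win r K ξ := by
  set S : Finset ℤ := (univ.image fun k : Fin K => win k (ξ k)).filter
    (fun ω => 2 * r ≤ ucnt A win K ξ ω) with hS
  have h1 : ucrw A win r K ξ = ∑ ω ∈ S, ucnt A win K ξ ω := by
    rw [utail_sum_ucnt]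
    unfold ucrw
    congr 1
    ext k
    simp only [Finset.mem_filter, Finset.mem_univ, true_and, hS, Finset.mem_image,
      exists_apply_eq_apply]
  have h2 : ∀ ω ∈ S, ucnt A win K ξ ω ≤ 2 * (ucnt A win K ξ ω - r) := by
    intro ω hω
    rw [hS, Finset.mem_filter] at hω
    omega
  rw [h1]
  calc ∑ ω ∈ S, ucnt A win K ξ ω ≤ ∑ ω ∈ S, 2 * (ucnt A win K ξ ω - r) := Finset.sum_le_sum h2
    _ = 2 * ∑ ω ∈ S, (ucnt A win K ξ ω - r) := by rw [Finset.mul_sum]
    _ ≤ _ := Nat.mul_le_mul_left _ (utail_late_ge A win r K ξ S)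

/-- The tail bound. -/
theorem ucrw_tail {α : Type*} [Fintype α] [Nonempty α] (A : Finset ℕ) (win : ℕ → α → ℤ) (r K : ℕ)
    (hr : 1 ≤ r) (hA : A ⊆ range K) (μ : ℝ) (hμ0 : 0 ≤ μ)
    (hμ : ∀ ω : ℤ, (∑ k ∈ A, ((univ.filter fun x : α => win k x = ω).card : ℝ))
      ≤ μ * Fintype.card α) (lam : ℝ) (hl : 0 ≤ lam) (N : ℝ) :
    ((univ.filter fun ξ : Fin K → α => N ≤ (ucrw A win r K ξ : ℝ)).card : ℝ)
      ≤ (Fintype.card α : ℝ) ^ K *
        Real.exp ((Real.exp lam - 1) * ((A.card : ℝ) / r * μ) - lam * (N / 2)) := by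
  have hc : 0 ≤ Real.exp lam - 1 := by
    have := Real.add_one_le_exp lam
    linarith
  set C : ℝ := (A.card : ℝ) / r * μ with hC
  have h1 := ulate_super (α := α) A win r K lam hl
  have h2 : ∀ ξ : Fin K → α, N ≤ (ucrw A win r K ξ : ℝ) →
      Real.exp (lam * (N / 2) - (Real.exp lam - 1) * C) ≤
      Real.exp (lam * ulate A win r K ξ - (Real.exp lam - 1) * ucomp A win r K ξ) := by
    intro ξ hξ
    apply Real.exp_le_exp.mpr
    have h3 := ucomp_le (α := α) A win r K hr hA μ hμ0 hμ ξ
    have h4 : (ucrw A win r K ξ : ℝ) ≤ 2 * ulate A win r K ξ := by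
      exact_mod_cast ucrw_le A win r K ξ
    have h5 : lam * (N / 2) ≤ lam * ulate A win r K ξ :=
      mul_le_mul_of_nonneg_left (by linarith) hl
    have h6 : (Real.exp lam - 1) * ucomp A win r K ξ ≤ (Real.exp lam - 1) * C :=
      mul_le_mul_of_nonneg_left h3 hc
    linarith
  have h3 : ((univ.filter fun ξ : Fin K → α => N ≤ (ucrw A win r K ξ : ℝ)).card : ℝ) *
      Real.exp (lam * (N / 2) - (Real.exp lam - 1) * C) ≤ (Fintype.card α : ℝ) ^ K := by
    calc _ = ∑ ξ ∈ univ.filter fun ξ : Fin K → α => N ≤ (ucrw A win r K ξ : ℝ),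
          Real.exp (lam * (N / 2) - (Real.exp lam - 1) * C) := by
          rw [Finset.sum_const, nsmul_eq_mul]
      _ ≤ ∑ ξ ∈ univ.filter fun ξ : Fin K → α => N ≤ (ucrw A win r K ξ : ℝ),
          Real.exp (lam * ulate A win r K ξ - (Real.exp lam - 1) * ucomp A win r K ξ) := by
          apply Finset.sum_le_sum
          intro ξ hξ
          rw [Finset.mem_filter] at hξ
          exact h2 ξ hξ.2
      _ ≤ ∑ ξ : Fin K → α,
          Real.exp (lam * ulate A win r K ξ - (Real.exp lam - 1) * ucomp A win r K ξ) := by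
          apply Finset.sum_le_sum_of_subset_of_nonneg (Finset.filter_subset _ _)
          intro ξ _ _
          exact (Real.exp_pos _).le
      _ ≤ _ := h1
  have h4 : (0 : ℝ) < Real.exp (lam * (N / 2) - (Real.exp lam - 1) * C) := Real.exp_pos _
  calc ((univ.filter fun ξ : Fin K → α => N ≤ (ucrw A win r K ξ : ℝ)).card : ℝ)
      ≤ (Fintype.card α : ℝ) ^ K / Real.exp (lam * (N / 2) - (Real.exp lam - 1) * C) := by
        rw [le_div_iff₀ h4]; exact h3
    _ = (Fintype.card α : ℝ) ^ K *
        Real.exp ((Real.exp lam - 1) * C - lam * (N / 2)) := by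
        rw [div_eq_mul_inv, ← Real.exp_neg]
        congr 2
        ring

end Pool.Agent.Lib.HBP
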