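import Mathlib
import Pool.Agent.Lib.HBP.Level
import Pool.Agent.Lib.HBP.UTail

/-!
# Project HBP, section Uncrowd: codes and predicted folds

`B = a u2 b` is the width of the hats, `D = Dh h`.  The slots `s` of a block are divided into pieces of `G`
consecutive slots; piece `p` has the columns `[p G D a + 16 u1 l, (p+1) G D a + 16 u1 l)`, where `l` is the
index of the fold.  A code `U` of a block contains the exact heights `y0`, `y1` of its two ends, `l`, the
heights `c p` at the ends of the pieces (relative to `y0`, in units of `B`, rounded down), and the set `g` of the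
good pieces.  `pW` is the prediction of the weight of the fold of the arc of slot `s` at place `m`, in
units of `B`, by linear interpolation.
-/

namespace Pool.Agent.Lib.HBP

open Finset

noncomputable section

/-- Offset of the columns of the first kind. -/
def oA (h a u1 u2 s : ℕ) : ℕ := if u1 = 1 then 0 else 34 * h ^ 2 * a + 2 * (s % (u1 * u2)) + 1

/-- Offset of the columns of the second kind. -/
def oB (h a u1 u2 s : ℕ) : ℕ := if u1 = 1 then 34 * h ^ 2 * a + 2 * (s % (u1 * u2)) + 1 else 0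

/-- Code of a block. -/
structure UC where
  y0 : ℕ
  y1 : ℕ
  l : ℕ
  c : ℕ → ℕ
  g : ℕ → Bool

/-- Predicted weight of the fold, in units of `a u2 b`; `t` = row of the block. -/
def pW (h a u1 u2 G L b : ℕ) (U : UC) (t s m : ℕ) : ℝ :=
  (U.y0 : ℝ) / (a * u2 * b) + U.c (s / G) +
    ((U.c (s / G + 1) : ℝ) - U.c (s / G)) *
      ((((s % G : ℕ) * Dh h + m) * a + oA h a u1 u2 s) / (G * Dh h * a)) +
    t * L / (a * u2) + ((s * Dh h + m) * a + oB h a u1 u2 s + 2 * u2 * Nl h a U.l) / (a * u2)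

/-- Predicted window. -/
def pwin (h a u1 u2 G L b : ℕ) (U : UC) (t s m : ℕ) : ℤ := ⌊pW h a u1 u2 G L b U t s m / w0 G h⌋

/-- Number of pieces of a block. -/
def npc (h G a L u1 u2 : ℕ) : ℕ := (L / (Dh h * a) - (u1 * u2 + 3)) / G

/-- Conditions on the code of one block: fold index in the arc, heights nondecreasing and between `y0` and `y1`,
good pieces have slope at least `1/16`. -/
structure UOk (h a u1 u2 G L b : ℕ) (U : UC) : Prop where
  hl : U.l ≤ Mh h a
  mono : ∀ p < npc h G a L u1 u2, U.c p ≤ U.c (p + 1)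
  top : U.y0 + a * u2 * b * U.c (npc h G a L u1 u2) ≤ U.y1
  slope : ∀ p < npc h G a L u1 u2, U.g p = true →
    (1 : ℝ) / 16 ≤ 1 / u2 + ((U.c (p + 1) : ℝ) - U.c p) / (G * Dh h)

/-- The arcs in good pieces: arc `s` of block `k` has number `k nsl + s`. -/
def uA (h a u1 u2 G L : ℕ) (𝒦 : Finset ℕ) (U : ℕ → UC) : Finset ℕ :=
  (𝒦 ×ˢ range (nsl h G a L u1 u2)).filter (fun p => (U p.1).g (p.2 / G) = true) |>.image
    (fun p => p.1 * nsl h G a L u1 u2 + p.2)

/-- Window of the variable number `κ = k nsl + s`. -/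
def uwin (h a u1 u2 G L b : ℕ) (ta : ℕ → ℕ) (U : ℕ → UC) (κ : ℕ) (x : Fin (Dh h / 2)) : ℤ :=
  pwin h a u1 u2 G L b (U (κ / nsl h G a L u1 u2)) (ta (κ / nsl h G a L u1 u2))
    (κ % nsl h G a L u1 u2) x

/-- The load condition for the codes. -/
def ULd (h h' L b : ℕ) (ta : ℕ → ℕ) (𝒦 : Finset ℕ) (U : ℕ → UC) : Prop :=
  ∀ v : ℕ, (𝒦.filter fun k => (U k).y0 + ta k * (L * b) ≤ v + L * b ∧
    v ≤ (U k).y1 + ta k * (L * b) + 2 * (L * b)).card ≤ h ^ 2 * h'

/-- The bound for the expected number of arcs in a window. -/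
def uMu (h h' G : ℕ) : ℝ := (h ^ 2 * h' * (16 * w0 G h + 1) : ℕ) / (Dh h / 2 : ℕ)

end

end Pool.Agent.Lib.HBP
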