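import Mathlib
import Pool.Agent.Lib.HBP.UDefs

/-!
# Project HBP, section Uncrowd: the code of a block of a chain, finite codes
-/

namespace Pool.Agent.Lib.HBP

open Finset

noncomputable section

/-- First column of piece `p` (fold index `l`). -/
def uX (h G a u1 l p : ℕ) : ℕ := p * (G * Dh h * a) + 16 * u1 * l

open Classical in
/-- The code of block `k` for the height function `Y`; a piece is good if its energy is at most `a G / h`. -/
def ucode (h a u1 u2 G L b : ℕ) (Y ta : ℕ → ℕ) (k : ℕ) : UC where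
  y0 := Y (k * (L * b))
  y1 := Y ((k + 1) * (L * b))
  l := lst h a (slo Y (L * b) k * u1 / u2)
  c := fun p => if p ≤ npc h G a L u1 u2 then
    (Y ((k * L + uX h G a u1 (lst h a (slo Y (L * b) k * u1 / u2)) p) * b) - Y (k * (L * b))) /
      (a * u2 * b) else 0
  g := fun p => decide (p < npc h G a L u1 u2 ∧
    ∑ x ∈ Finset.Ico (uX h G a u1 (lst h a (slo Y (L * b) k * u1 / u2)) p)
      (uX h G a u1 (lst h a (slo Y (L * b) k * u1 / u2)) (p + 1)), psi (ux Y ta L b k x) ≤
      (a * G : ℝ) / h)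

/-- Finite type of block codes: `y0`, `y1 < M1`, `l < M2`, heights `< M3` at `np + 1` knots, `np` bits. -/
abbrev BC (M1 M2 M3 np : ℕ) : Type :=
  Fin M1 × Fin M1 × Fin M2 × (Fin (np + 1) → Fin M3) × (Fin np → Bool)

/-- The code described by an element of `BC`. -/
def toUC {M1 M2 M3 np : ℕ} (x : BC M1 M2 M3 np) : UC where
  y0 := x.1
  y1 := x.2.1
  l := x.2.2.1
  c := fun p => if hp : p < np + 1 then (x.2.2.2.1 ⟨p, hp⟩ : ℕ) else 0
  g := fun p => if hp : p < np then x.2.2.2.2 ⟨p, hp⟩ else false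

/-- The places of the arcs, from the array of all random places; `n = nsl ..`. -/
def upos (h Nb n : ℕ) (ξ : Fin (Nb * n) → Fin (Dh h / 2)) (k s : ℕ) : ℕ :=
  if hks : k * n + s < Nb * n then (ξ ⟨k * n + s, hks⟩ : ℕ) else 0

end

end Pool.Agent.Lib.HBP
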