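import Mathlib
import Pool.Agent.Lib.HBP.UDefs

/-!
# Project HBP, module ULoad: the expected number of predicted folds in a window

STATEMENTS (for one code `U` with `UOk`, `B = a u2 b`, `D = Dh h`, `m, m' < D/2`)
(1) `pW_step`: `s` in a good piece, `m ≤ m'`: `pW s m' - pW s m ≥ (m' - m)/16`.
(2) `pW_gap`: `s < s' < nsl`, `s` in a good piece: `pW s' m' - pW s m ≥ w0`.
(3) `pW_range`: `y0 + t L b ≤ B pW` and `B pW ≤ y1 + t L b + L b`.
(4) `uload`: `∑ over the arcs in good pieces of #(places with predicted window ω) ≤ uMu · (D/2)`.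

PROOF. Write `p = s / G`, `i = s % G`, `dc = c (p+1) - c p ≥ 0` (UOk.mono; `p < npc` because `s < nsl = G npc`),
`σ = 1/u2 + dc/(G D) ≥ 1/16` (UOk.slope, good piece).
(1) the difference is `dc (m'-m) a/(G D a) + (m'-m) a/(a u2) = σ (m' - m)`.
(2) Put for a slot `s` with offset `m`: `V(s,m) = c p + dc (i D + m)/(G D) + (s D + m)/u2` (real). Then
`pW s m = V(s,m) + dc oA(s)/(G D a) + oB(s)/(a u2) + const`, `const = y0/B + t L/(a u2) + 2 Nl/a`.
For `u1 = 1`: `oA = 0`, `34 h^2/u2 ≤ oB(s)/(a u2) ≤ 34 h^2/u2 + (2 u1 u2 + 1)/(a u2) ≤ 34 h^2/u2 + 1/u2`.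
For `u1 ≠ 1` (then `u2 = 1` by Cls.one): `oB = 0`, `0 ≤ dc oA(s)/(G D a) ≤ (dc/(G D)) (34 h^2 + 1)`
(`2 (s % (u1 u2)) + 1 ≤ 2 u1 u2 ≤ a`). In both cases `pW s' m' - pW s m ≥ V(s',m') - V(s,m) - σ (34 h^2 + 1)`
(in the case `u1 = 1` the constant `34 h^2/u2` cancels and the rest is `≤ 1/u2 ≤ σ`).
`V(s',m') ≥ V(s',0) ≥ V(s,D)` where `V(s,D) = c p + dc (i+1)/G + (s+1) D/u2`: the part `(s D + m)/u2` is increasing,
and the part `c p + dc i/G` is nondecreasing in `s` (within a piece clear; from one piece to a later one because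
`c p + dc (i+1)/G ≤ c (p+1) ≤ c p' ≤ ..`, UOk.mono and induction). `V(s,D) - V(s,m) = σ (D - m) ≥ σ D/2`. So
`pW s' m' - pW s m ≥ σ (D/2 - 34 h^2 - 1) ≥ (D/2 - 35 h^2)/16 ≥ 10^24 h^3 ≥ 10^15 G h = w0`, because `G ≤ h' ≤ h`
(`10^25 G ≤ h'`, `h = K2 h'`, `K2 ≥ 1`).
(3) `c p + dc (..) ≥ 0` gives the lower bound. Upper bound: the fraction `(i D + m) a + oA)/(G D a)` is `≤ 1`
(`m a + oA ≤ D a/2 + 34 h^2 a + 2 u1 u2 ≤ D a`), so `c p + dc (..) ≤ c (p+1) ≤ c (npc)` and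
`y0 + B c(npc) ≤ y1` (UOk.top); the label part `((s D + m) a + oB + 2 u2 Nl) b ≤ L b`: `s + 1 ≤ nsl ≤ L/(D a) - (u1 u2 + 3)`
so `(s D + m) a + oB ≤ (s + 1) D a`, `2 u2 Nl ≤ 33 u2 h^2 a ≤ u1 u2 D a` (`Nl ≤ 33 h^2 a/2`), and
`(s + 1) D a + u1 u2 D a ≤ L`. (If `L/(D a) < u1 u2 + 3` then `nsl = 0`.)
(4) Fix `ω`; the sum over `κ = k nsl + s` (injective in `(k,s)`, `s < nsl`: `κ / nsl = k`, `κ % nsl = s`) is
`∑_{k ∈ 𝒦} T_k`, `T_k = ∑_{s good} #(m < D/2 : ⌊pW/w0⌋ = ω)`. By (2) at most one slot `s` of block `k` contributes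
(two different slots differ by at least `w0`, but a window is half open of length `w0`), and by (1) at most
`16 w0 + 1` places `m`; so `T_k ≤ 16 w0 + 1`. If `T_k ≠ 0` then `ω ≥ 0` and with `v = ω.toNat * w0 * B` by (3)
`y0 + t L b ≤ B pW < v + w0 B ≤ v + L b` and `v ≤ B pW ≤ y1 + t L b + L b`, so `k` is in the set of the load condition
`ULd` for `v` (`w0 B ≤ L b`: `w0 a u2 ≤ L`). Hence at most `h^2 h'` blocks contribute.
-/

namespace Pool.Agent.Lib.HBP

open Finset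


private lemma uload_par {h h' K2 G a L J0 Q u1 u2 : ℕ} (P : Par h h' K2 G a L J0 Q)
    (hc : Cls u1 u2 J0) :
    1 ≤ h ∧ G ≤ h ∧ 1 ≤ G ∧ 1 ≤ a ∧ 1 ≤ u1 ∧ 1 ≤ u2 ∧ 2 * (u1 * u2) + 1 ≤ a ∧
      w0 G h * a * u2 ≤ L := by
  obtain ⟨h1, hh, hG1, hG, hQ, hQG, ha, hdiv, hL⟩ := P
  obtain ⟨hone, i, hi, hpow⟩ := hc
  have hGh' : G ≤ h' := by
    norm_num at hG
    omega
  have hh' : h' ≤ h := by
    rw [hh]
    exact Nat.le_mul_of_pos_left _ h1
  have hGh : G ≤ h := hGh'.trans hh'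
  have hh1 : 1 ≤ h := hG1.trans hGh
  have hle : u1 * u2 ≤ 4 ^ J0 := by
    rw [hpow]
    exact Nat.pow_le_pow_right (by norm_num) hi
  have hpos : 0 < u1 * u2 := by
    rw [hpow]
    positivity
  have hu1 : 1 ≤ u1 := Nat.pos_of_mul_pos_right hpos
  have hu2 : 1 ≤ u2 := Nat.pos_of_mul_pos_left hpos
  have hJ : 1 ≤ 4 ^ J0 := Nat.one_le_pow _ _ (by norm_num)
  have hh4 : h ≤ h ^ 4 := Nat.le_self_pow (by norm_num) h
  have hX : 10 ^ 15 * G * h * 4 ^ J0 ≤ Q := by
    refine le_trans ?_ hQ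
    have e1 : 10 ^ 60 * h ^ 4 * G * K2 * 4 ^ J0 = (10 ^ 60 * G) * h ^ 4 * K2 * 4 ^ J0 := by ring
    rw [e1]
    refine Nat.mul_le_mul ?_ le_rfl
    calc 10 ^ 15 * G * h ≤ 10 ^ 60 * G * h ^ 4 :=
          Nat.mul_le_mul (Nat.mul_le_mul (by norm_num) le_rfl) hh4
      _ ≤ 10 ^ 60 * G * h ^ 4 * K2 := Nat.le_mul_of_pos_right _ h1
  have hX3 : 3 * 4 ^ J0 ≤ Q := by
    refine le_trans ?_ hX
    refine Nat.mul_le_mul ?_ le_rfl
    calc 3 ≤ 10 ^ 15 * 1 * 1 := by norm_num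
      _ ≤ 10 ^ 15 * G * h := Nat.mul_le_mul (Nat.mul_le_mul le_rfl hG1) hh1
  have hQQ : Q ≤ Q ^ 20 := Nat.le_self_pow (by norm_num) Q
  have hQa : Q ≤ a := hQQ.trans ha
  refine ⟨hh1, hGh, hG1, by omega, hu1, hu2, by omega, ?_⟩
  have hu2J : u2 ≤ 4 ^ J0 := le_trans (Nat.le_mul_of_pos_left _ hu1) hle
  calc w0 G h * a * u2 = a * (10 ^ 15 * G * h * u2) := by
        unfold w0
        ring
    _ ≤ a * (10 ^ 15 * G * h * 4 ^ J0) :=
        Nat.mul_le_mul le_rfl (Nat.mul_le_mul le_rfl hu2J)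
    _ ≤ a * Q ^ 20 := Nat.mul_le_mul le_rfl (hX.trans hQQ)
    _ ≤ L := hL

private noncomputable def uload_dc (G : ℕ) (U : UC) (s : ℕ) : ℝ :=
  (U.c (s / G + 1) : ℝ) - U.c (s / G)

private noncomputable def uload_F (G : ℕ) (U : UC) (s : ℕ) : ℝ :=
  (U.c (s / G) : ℝ) + uload_dc G U s * (((s % G : ℕ) : ℝ) / G)

private noncomputable def uload_sg (h G u2 : ℕ) (U : UC) (s : ℕ) : ℝ :=
  1 / u2 + uload_dc G U s / (G * Dh h)

private lemma uload_Fsucc {G : ℕ} (hG : 1 ≤ G) (U : UC) (s : ℕ) :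
    uload_F G U (s + 1) = uload_F G U s + uload_dc G U s / G := by
  have hG0 : (G : ℝ) ≠ 0 := by
    have : 0 < G := hG
    positivity
  have hlt : s % G < G := Nat.mod_lt _ hG
  have hs : G * (s / G) + s % G = s := Nat.div_add_mod s G
  by_cases hi : s % G + 1 < G
  · have e1 : (s + 1) / G = s / G := by
      have : s + 1 = (s % G + 1) + G * (s / G) := by omega
      rw [this, Nat.add_mul_div_left _ _ hG, Nat.div_eq_of_lt hi, zero_add]
    have e2 : (s + 1) % G = s % G + 1 := by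
      have : s + 1 = (s % G + 1) + G * (s / G) := by omega
      rw [this, Nat.add_mul_mod_self_left, Nat.mod_eq_of_lt hi]
    unfold uload_F uload_dc
    rw [e1, e2]
    push_cast
    field_simp
    ring
  · have hi' : s % G + 1 = G := by omega
    have e1 : (s + 1) / G = s / G + 1 := by
      have : s + 1 = 0 + G * (s / G + 1) := by
        rw [Nat.mul_add]
        omega
      rw [this, Nat.add_mul_div_left _ _ hG, Nat.zero_div, zero_add]
    have e2 : (s + 1) % G = 0 := by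
      have : s + 1 = 0 + G * (s / G + 1) := by
        rw [Nat.mul_add]
        omega
      rw [this, Nat.add_mul_mod_self_left, Nat.zero_mod]
    have hiR : ((s % G : ℕ) : ℝ) = G - 1 := by
      have : (((s % G + 1 : ℕ)) : ℝ) = (G : ℕ) := by rw [hi']
      push_cast at this
      linarith
    unfold uload_F
    rw [e1, e2, hiR]
    unfold uload_dc
    push_cast
    field_simp
    ring

private lemma uload_Fmono {G : ℕ} (hG : 1 ≤ G) (U : UC) {s s' : ℕ} (hs : s ≤ s')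
    (hd : ∀ j < s', 0 ≤ uload_dc G U j) : uload_F G U s ≤ uload_F G U s' := by
  induction s', hs using Nat.le_induction with
  | base => exact le_rfl
  | succ k hk ih =>
    have h1 := ih (fun j hj => hd j (by omega))
    have h2 := hd k (by omega)
    rw [uload_Fsucc hG]
    have : 0 ≤ uload_dc G U k / G := div_nonneg h2 (by positivity)
    linarith

private lemma uload_pos {h G a b u2 : ℕ} (hh : 1 ≤ h) (hG : 1 ≤ G) (ha : 1 ≤ a) (hu : 1 ≤ u2)
    (hb : 1 ≤ b) :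
    (0 : ℝ) < h ∧ (0 : ℝ) < G ∧ (0 : ℝ) < a ∧ (0 : ℝ) < u2 ∧ (0 : ℝ) < b ∧ (0 : ℝ) < Dh h := by
  have hD : 0 < Dh h := by
    unfold Dh
    have : 0 < h ^ 3 := by positivity
    positivity
  refine ⟨?_, ?_, ?_, ?_, ?_, ?_⟩ <;> exact_mod_cast (by assumption)

private lemma uload_eq {h G a L b u1 u2 : ℕ} (hh : 1 ≤ h) (hG : 1 ≤ G) (ha : 1 ≤ a) (hu : 1 ≤ u2)
    (hb : 1 ≤ b) (U : UC) (t s m : ℕ) :
    pW h a u1 u2 G L b U t s m =
      ((U.y0 : ℝ) / (a * u2 * b) + t * L / (a * u2) + 2 * u2 * Nl h a U.l / (a * u2)) +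
      (uload_F G U s + s * Dh h / u2) + m * uload_sg h G u2 U s +
      uload_dc G U s * (oA h a u1 u2 s / (G * Dh h * a)) + oB h a u1 u2 s / (a * u2) := by
  obtain ⟨p1, p2, p3, p4, p5, p6⟩ := uload_pos hh hG ha hu hb
  unfold pW uload_F uload_sg
  have e0 : ((U.c (s / G + 1) : ℝ) - U.c (s / G)) = uload_dc G U s := rfl
  rw [e0]
  generalize uload_dc G U s = x
  generalize (Dh h : ℝ) = D at *
  generalize (oA h a u1 u2 s : ℝ) = oa
  generalize (oB h a u1 u2 s : ℝ) = ob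
  generalize (Nl h a U.l : ℝ) = nl
  generalize ((s % G : ℕ) : ℝ) = i
  field_simp
  ring

private lemma uload_div {h G a L u1 u2 s : ℕ} (hs : s < nsl h G a L u1 u2) :
    s / G < npc h G a L u1 u2 := by
  have : s < G * npc h G a L u1 u2 := hs
  exact Nat.div_lt_of_lt_mul this

private lemma uload_dcn {h G a L u1 u2 b s : ℕ} {U : UC} (hU : UOk h a u1 u2 G L b U)
    (hs : s < nsl h G a L u1 u2) : 0 ≤ uload_dc G U s := by
  have := hU.mono (s / G) (uload_div hs)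
  have h2 : (U.c (s / G) : ℝ) ≤ U.c (s / G + 1) := by exact_mod_cast this
  unfold uload_dc
  linarith

theorem pW_step {h h' K2 G a L J0 Q u1 u2 : ℕ} (P : Par h h' K2 G a L J0 Q) (hc : Cls u1 u2 J0)
    {b : ℕ} (hb : 1 ≤ b) {U : UC} (hU : UOk h a u1 u2 G L b U) (t : ℕ) {s m m' : ℕ}
    (hs : s < nsl h G a L u1 u2) (hg : U.g (s / G) = true) (hm : m ≤ m') :
    ((m' : ℝ) - m) / 16 ≤ pW h a u1 u2 G L b U t s m' - pW h a u1 u2 G L b U t s m := by
  obtain ⟨q1, q2, q3, q4, q5, q6, q7, q8⟩ := uload_par P hc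
  rw [uload_eq q1 q3 q4 q6 hb, uload_eq q1 q3 q4 q6 hb]
  have hsl : (1 : ℝ) / 16 ≤ uload_sg h G u2 U s := hU.slope (s / G) (uload_div hs) hg
  have hmm : (0 : ℝ) ≤ (m' : ℝ) - m := by
    have : (m : ℝ) ≤ m' := by exact_mod_cast hm
    linarith
  nlinarith [mul_le_mul_of_nonneg_left hsl hmm]

theorem pW_gap {h h' K2 G a L J0 Q u1 u2 : ℕ} (P : Par h h' K2 G a L J0 Q) (hc : Cls u1 u2 J0)
    {b : ℕ} (hb : 1 ≤ b) {U : UC} (hU : UOk h a u1 u2 G L b U) (t : ℕ) {s s' m m' : ℕ}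
    (hss : s < s') (hs : s' < nsl h G a L u1 u2) (hg : U.g (s / G) = true) (hm : m < Dh h / 2)
    (hm' : m' < Dh h / 2) :
    (w0 G h : ℝ) ≤ pW h a u1 u2 G L b U t s' m' - pW h a u1 u2 G L b U t s m := by
  obtain ⟨q1, q2, q3, q4, q5, q6, q7, q8⟩ := uload_par P hc
  obtain ⟨p1, p2, p3, p4, p5, p6⟩ := uload_pos q1 q3 q4 q6 hb
  have hs0 : s < nsl h G a L u1 u2 := hss.trans hs
  rw [uload_eq q1 q3 q4 q6 hb, uload_eq q1 q3 q4 q6 hb]
  have hsl : (1 : ℝ) / 16 ≤ uload_sg h G u2 U s := hU.slope (s / G) (uload_div hs0) hg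
  have hd : 0 ≤ uload_dc G U s := uload_dcn hU hs0
  have hd' : 0 ≤ uload_dc G U s' := uload_dcn hU hs
  have hF : uload_F G U (s + 1) ≤ uload_F G U s' :=
    uload_Fmono q3 U hss (fun j hj => uload_dcn hU (hj.trans hs))
  rw [uload_Fsucc q3] at hF
  have hsg' : 0 ≤ uload_sg h G u2 U s' := by
    unfold uload_sg
    positivity
  have hsR : (s : ℝ) + 1 ≤ s' := by exact_mod_cast hss
  have hsD : (s : ℝ) * Dh h / u2 + Dh h / u2 ≤ s' * Dh h / u2 := by
    rw [← add_div]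
    apply div_le_div_of_nonneg_right _ p4.le
    nlinarith
  have hsgD : Dh h / u2 + uload_dc G U s / G = Dh h * uload_sg h G u2 U s := by
    unfold uload_sg
    field_simp
  have hm'0 : (0 : ℝ) ≤ m' * uload_sg h G u2 U s' := by positivity
  have hDm : (m : ℝ) ≤ Dh h / 2 := by
    have h2 : 2 * m ≤ Dh h := by omega
    have h3 : (2 : ℝ) * m ≤ Dh h := by exact_mod_cast h2
    linarith
  have hsgm : (m : ℝ) * uload_sg h G u2 U s ≤ Dh h / 2 * uload_sg h G u2 U s :=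
    mul_le_mul_of_nonneg_right hDm (by linarith)
  -- the offsets
  have hoff : -(uload_sg h G u2 U s * (34 * h ^ 2 + 1)) ≤
      (uload_dc G U s' * (oA h a u1 u2 s' / (G * Dh h * a)) + oB h a u1 u2 s' / (a * u2)) -
      (uload_dc G U s * (oA h a u1 u2 s / (G * Dh h * a)) + oB h a u1 u2 s / (a * u2)) := by
    have hmod : ∀ x : ℕ, 2 * (x % (u1 * u2)) + 1 ≤ a := by
      intro x
      have hx : x % (u1 * u2) < u1 * u2 := Nat.mod_lt _ (Nat.mul_pos q5 q6)
      omega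
    by_cases hu : u1 = 1
    · have oa : ∀ x : ℕ, (oA h a u1 u2 x : ℝ) = 0 := by
        intro x
        unfold oA
        rw [if_pos hu]
        simp
      have ob : ∀ x : ℕ, (oB h a u1 u2 x : ℝ) = 34 * h ^ 2 * a + (2 * (x % (u1 * u2)) + 1 : ℕ) := by
        intro x
        unfold oB
        rw [if_pos hu]
        push_cast
        ring
      rw [oa, oa, ob, ob]
      have hx1 : ((2 * (s % (u1 * u2)) + 1 : ℕ) : ℝ) ≤ a := by exact_mod_cast hmod s
      have hx2 : (0 : ℝ) ≤ ((2 * (s' % (u1 * u2)) + 1 : ℕ) : ℝ) := by positivity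
      have h1 : (1 : ℝ) / u2 ≤ uload_sg h G u2 U s := by
        unfold uload_sg
        have : 0 ≤ uload_dc G U s / (G * Dh h) := by positivity
        linarith
      have h2 : (34 * h ^ 2 * a + ((2 * (s % (u1 * u2)) + 1 : ℕ) : ℝ)) / (a * u2) -
          (34 * h ^ 2 * a + ((2 * (s' % (u1 * u2)) + 1 : ℕ) : ℝ)) / (a * u2) ≤ 1 / u2 := by
        rw [← sub_div, div_le_div_iff₀ (by positivity) p4]
        nlinarith
      have h3 : uload_sg h G u2 U s ≤ uload_sg h G u2 U s * (34 * h ^ 2 + 1) := by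
        have : 0 ≤ uload_sg h G u2 U s * (34 * (h : ℝ) ^ 2) := by
          have : 0 ≤ uload_sg h G u2 U s := by linarith
          positivity
        linarith
      simp only [zero_div, mul_zero, zero_add]
      linarith
    · have ob : ∀ x : ℕ, (oB h a u1 u2 x : ℝ) = 0 := by
        intro x
        unfold oB
        rw [if_neg hu]
        simp
      have oa : ∀ x : ℕ, (oA h a u1 u2 x : ℝ) = 34 * h ^ 2 * a + (2 * (x % (u1 * u2)) + 1 : ℕ) := by
        intro x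
        unfold oA
        rw [if_neg hu]
        push_cast
        ring
      rw [ob, ob, oa, oa]
      have hx1 : ((2 * (s % (u1 * u2)) + 1 : ℕ) : ℝ) ≤ a := by exact_mod_cast hmod s
      have h1 : 0 ≤ uload_dc G U s' *
          ((34 * h ^ 2 * a + ((2 * (s' % (u1 * u2)) + 1 : ℕ) : ℝ)) / (G * Dh h * a)) := by
        positivity
      have h2 : (34 * h ^ 2 * a + ((2 * (s % (u1 * u2)) + 1 : ℕ) : ℝ)) / (G * Dh h * a) ≤
          (34 * h ^ 2 + 1) / (G * Dh h) := by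
        rw [div_le_div_iff₀ (by positivity) (by positivity)]
        have : (34 * h ^ 2 * a + ((2 * (s % (u1 * u2)) + 1 : ℕ) : ℝ)) ≤ (34 * h ^ 2 + 1) * a := by
          linarith
        nlinarith [mul_le_mul_of_nonneg_right this (by positivity : (0 : ℝ) ≤ G * Dh h)]
      have h3 : uload_dc G U s *
          ((34 * h ^ 2 * a + ((2 * (s % (u1 * u2)) + 1 : ℕ) : ℝ)) / (G * Dh h * a)) ≤
          uload_dc G U s * ((34 * h ^ 2 + 1) / (G * Dh h)) := mul_le_mul_of_nonneg_left h2 hd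
      have h4 : uload_dc G U s * ((34 * h ^ 2 + 1) / (G * Dh h)) ≤
          uload_sg h G u2 U s * (34 * h ^ 2 + 1) := by
        unfold uload_sg
        have : (1 / (u2 : ℝ) + uload_dc G U s / (G * Dh h)) * (34 * h ^ 2 + 1) =
            1 / (u2 : ℝ) * (34 * h ^ 2 + 1) + uload_dc G U s * ((34 * h ^ 2 + 1) / (G * Dh h)) := by
          ring
        rw [this]
        have : (0 : ℝ) ≤ 1 / (u2 : ℝ) * (34 * h ^ 2 + 1) := by positivity
        linarith
      simp only [zero_div, add_zero]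
      linarith
  have hw : (w0 G h : ℝ) ≤ 1 / 16 * (Dh h / 2 - (34 * h ^ 2 + 1)) := by
    have hGh : (G : ℝ) ≤ h := by exact_mod_cast q2
    have hh1 : (1 : ℝ) ≤ h := by exact_mod_cast q1
    unfold w0 Dh
    push_cast
    have e1 : (h : ℝ) ^ 2 ≤ h ^ 3 := by nlinarith [sq_nonneg (h : ℝ)]
    have e2 : (1 : ℝ) ≤ h ^ 3 := one_le_pow₀ hh1
    have e3 : (G : ℝ) * h ≤ h ^ 3 := by nlinarith
    nlinarith
  have hfin : 1 / 16 * ((Dh h : ℝ) / 2 - (34 * h ^ 2 + 1)) ≤
      uload_sg h G u2 U s * (Dh h / 2 - (34 * h ^ 2 + 1)) := by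
    apply mul_le_mul_of_nonneg_right hsl
    have : (0 : ℝ) ≤ w0 G h := by positivity
    linarith
  nlinarith


private lemma uload_fit {h a u1 u2 : ℕ} (hh : 1 ≤ h) (h1 : 1 ≤ u1) (h2 : 1 ≤ u2)
    (ha : 2 * (u1 * u2) + 1 ≤ a) {m : ℕ} (hm : m < Dh h / 2) (s : ℕ) :
    m * a + oA h a u1 u2 s ≤ Dh h * a ∧ m * a + oB h a u1 u2 s ≤ Dh h * a := by
  have hmod : 2 * (s % (u1 * u2)) + 1 ≤ a := by
    have hx : s % (u1 * u2) < u1 * u2 := Nat.mod_lt _ (Nat.mul_pos h1 h2)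
    omega
  have hD : 2 * m + 2 ≤ Dh h := by omega
  have h34 : 68 * h ^ 2 ≤ Dh h := by
    unfold Dh
    calc 68 * h ^ 2 ≤ 10 ^ 26 * h ^ 2 := Nat.mul_le_mul (by norm_num) le_rfl
      _ ≤ 10 ^ 26 * h ^ 3 := Nat.mul_le_mul le_rfl (Nat.pow_le_pow_right hh (by norm_num))
  have hkey : m * a + (34 * h ^ 2 * a + 2 * (s % (u1 * u2)) + 1) ≤ Dh h * a := by
    have e1 : (2 * m + 2 + 68 * h ^ 2) * a ≤ (Dh h + Dh h) * a :=
      Nat.mul_le_mul (Nat.add_le_add hD h34) le_rfl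
    nlinarith
  have hkey0 : m * a + 0 ≤ Dh h * a := by
    have : m ≤ Dh h := by omega
    rw [add_zero]
    exact Nat.mul_le_mul this le_rfl
  constructor
  · unfold oA
    split_ifs
    · exact hkey0
    · exact hkey
  · unfold oB
    split_ifs
    · exact hkey
    · exact hkey0

private lemma uload_cmono {h G a L u1 u2 b : ℕ} {U : UC} (hU : UOk h a u1 u2 G L b U) {p : ℕ}
    (hp : p ≤ npc h G a L u1 u2) : U.c p ≤ U.c (npc h G a L u1 u2) := by
  obtain ⟨d, hd⟩ := Nat.exists_eq_add_of_le hp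
  have key : ∀ j, p + j ≤ npc h G a L u1 u2 → U.c p ≤ U.c (p + j) := by
    intro j
    induction j with
    | zero => intro _; exact le_rfl
    | succ j ih =>
      intro hj
      exact (ih (by omega)).trans (hU.mono (p + j) (by omega))
  rw [hd]
  exact key d (by omega)

theorem pW_range {h h' K2 G a L J0 Q u1 u2 : ℕ} (P : Par h h' K2 G a L J0 Q) (hc : Cls u1 u2 J0)
    {b : ℕ} (hb : 1 ≤ b) {U : UC} (hU : UOk h a u1 u2 G L b U) (t : ℕ) {s m : ℕ}
    (hs : s < nsl h G a L u1 u2) (hm : m < Dh h / 2) :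
    (U.y0 : ℝ) + t * (L * b) ≤ a * u2 * b * pW h a u1 u2 G L b U t s m ∧
    a * u2 * b * pW h a u1 u2 G L b U t s m ≤ U.y1 + t * (L * b) + L * b := by
  obtain ⟨q1, q2, q3, q4, q5, q6, q7, q8⟩ := uload_par P hc
  obtain ⟨p1, p2, p3, p4, p5, p6⟩ := uload_pos q1 q3 q4 q6 hb
  obtain ⟨f1, f2⟩ := uload_fit q1 q5 q6 q7 hm s
  have hd : 0 ≤ uload_dc G U s := uload_dcn hU hs
  set dc := uload_dc G U s with hdc
  set fr : ℝ := ((((s % G : ℕ) : ℝ) * Dh h + m) * a + oA h a u1 u2 s) / (G * Dh h * a) with hfr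
  have hfr0 : 0 ≤ fr := by
    rw [hfr]
    positivity
  have hfr1 : fr ≤ 1 := by
    rw [hfr, div_le_one (by positivity)]
    have hi : s % G + 1 ≤ G := Nat.mod_lt _ q3
    have e1 : (s % G * Dh h + m) * a + oA h a u1 u2 s ≤ G * Dh h * a := by
      calc (s % G * Dh h + m) * a + oA h a u1 u2 s
          = s % G * (Dh h * a) + (m * a + oA h a u1 u2 s) := by ring
        _ ≤ s % G * (Dh h * a) + Dh h * a := Nat.add_le_add_left f1 _
        _ = (s % G + 1) * (Dh h * a) := by ring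
        _ ≤ G * (Dh h * a) := Nat.mul_le_mul hi le_rfl
        _ = G * Dh h * a := by ring
    exact_mod_cast e1
  have hid : a * u2 * b * pW h a u1 u2 G L b U t s m =
      U.y0 + a * u2 * b * (U.c (s / G) + dc * fr) + t * (L * b) +
      ((s * Dh h + m) * a + oB h a u1 u2 s + 2 * u2 * Nl h a U.l) * b := by
    unfold pW
    have e0 : ((U.c (s / G + 1) : ℝ) - U.c (s / G)) = dc := rfl
    rw [e0, ← hfr]
    field_simp
    ring
  rw [hid]
  constructor
  · have h1 : 0 ≤ (a : ℝ) * u2 * b * (U.c (s / G) + dc * fr) := by positivity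
    have h2 : (0 : ℝ) ≤ ((s * Dh h + m) * a + oB h a u1 u2 s + 2 * u2 * Nl h a U.l) * b := by
      positivity
    linarith
  · have hp := uload_div hs
    have h1 : (U.c (s / G) : ℝ) + dc * fr ≤ U.c (npc h G a L u1 u2) := by
      have e1 : dc * fr ≤ dc := by nlinarith
      have e2 : (U.c (s / G) : ℝ) + dc = U.c (s / G + 1) := by
        rw [hdc]
        unfold uload_dc
        ring
      have e3 : U.c (s / G + 1) ≤ U.c (npc h G a L u1 u2) := uload_cmono hU hp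
      have e4 : (U.c (s / G + 1) : ℝ) ≤ U.c (npc h G a L u1 u2) := by exact_mod_cast e3
      linarith
    have h2 : (a : ℝ) * u2 * b * (U.c (s / G) + dc * fr) ≤
        a * u2 * b * U.c (npc h G a L u1 u2) := mul_le_mul_of_nonneg_left h1 (by positivity)
    have h3 : (U.y0 : ℝ) + a * u2 * b * U.c (npc h G a L u1 u2) ≤ U.y1 := by exact_mod_cast hU.top
    have h4 : (s * Dh h + m) * a + oB h a u1 u2 s + 2 * u2 * Nl h a U.l ≤ L := by
      have hs2 : s < G * ((L / (Dh h * a) - (u1 * u2 + 3)) / G) := hs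
      have hs3 : G * ((L / (Dh h * a) - (u1 * u2 + 3)) / G) ≤ L / (Dh h * a) - (u1 * u2 + 3) :=
        Nat.mul_div_le _ _
      have hs4 : s + 1 + u1 * u2 ≤ L / (Dh h * a) := by omega
      have hN : Nl h a U.l ≤ 33 * h ^ 2 * a / 2 := by
        unfold Nl
        exact (Nat.sub_le _ _).trans (Nat.sub_le _ _)
      have hN2 : 2 * Nl h a U.l ≤ 33 * h ^ 2 * a := by omega
      have h33 : 33 * h ^ 2 ≤ Dh h := by
        unfold Dh
        calc 33 * h ^ 2 ≤ 10 ^ 26 * h ^ 2 := Nat.mul_le_mul (by norm_num) le_rfl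
          _ ≤ 10 ^ 26 * h ^ 3 := Nat.mul_le_mul le_rfl (Nat.pow_le_pow_right q1 (by norm_num))
      have hN3 : 2 * u2 * Nl h a U.l ≤ u1 * u2 * (Dh h * a) := by
        calc 2 * u2 * Nl h a U.l = u2 * (2 * Nl h a U.l) := by ring
          _ ≤ u2 * (33 * h ^ 2 * a) := Nat.mul_le_mul le_rfl hN2
          _ ≤ u2 * (Dh h * a) := Nat.mul_le_mul le_rfl (Nat.mul_le_mul h33 le_rfl)
          _ ≤ (u1 * u2) * (Dh h * a) :=
            Nat.mul_le_mul (Nat.le_mul_of_pos_left _ q5) le_rfl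
      calc (s * Dh h + m) * a + oB h a u1 u2 s + 2 * u2 * Nl h a U.l
          = s * (Dh h * a) + (m * a + oB h a u1 u2 s) + 2 * u2 * Nl h a U.l := by ring
        _ ≤ s * (Dh h * a) + Dh h * a + u1 * u2 * (Dh h * a) :=
            Nat.add_le_add (Nat.add_le_add_left f2 _) hN3
        _ = (s + 1 + u1 * u2) * (Dh h * a) := by ring
        _ ≤ L / (Dh h * a) * (Dh h * a) := Nat.mul_le_mul hs4 le_rfl
        _ ≤ L := Nat.div_mul_le_self _ _
    have h5 : (((s : ℝ) * Dh h + m) * a + oB h a u1 u2 s + 2 * u2 * Nl h a U.l) ≤ L := by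
      exact_mod_cast h4
    have h6 : (((s : ℝ) * Dh h + m) * a + oB h a u1 u2 s + 2 * u2 * Nl h a U.l) * b ≤ L * b :=
      mul_le_mul_of_nonneg_right h5 p5.le
    linarith

/-- number of places of one slot in one window -/
private noncomputable def uload_N (h a u1 u2 G L b : ℕ) (U : UC) (t s : ℕ) (ω : ℤ) : ℕ :=
  (univ.filter fun x : Fin (Dh h / 2) => pwin h a u1 u2 G L b U t s x = ω).card

private lemma uload_win {G h : ℕ} (hw : (0 : ℝ) < w0 G h) {x y : ℝ} {ω : ℤ}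
    (hx : ⌊x / w0 G h⌋ = ω) (hy : ⌊y / w0 G h⌋ = ω) : y - x < w0 G h := by
  have h1 : (ω : ℝ) ≤ x / w0 G h := by
    rw [← hx]
    exact Int.floor_le _
  have h2 : y / w0 G h < ω + 1 := by
    rw [← hy]
    exact Int.lt_floor_add_one _
  rw [le_div_iff₀ hw] at h1
  rw [div_lt_iff₀ hw] at h2
  nlinarith

private lemma uload_N_le {h h' K2 G a L J0 Q u1 u2 : ℕ} (P : Par h h' K2 G a L J0 Q)
    (hc : Cls u1 u2 J0) {b : ℕ} (hb : 1 ≤ b) {U : UC} (hU : UOk h a u1 u2 G L b U) (t : ℕ) {s : ℕ}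
    (hs : s < nsl h G a L u1 u2) (hg : U.g (s / G) = true) (ω : ℤ) :
    uload_N h a u1 u2 G L b U t s ω ≤ 16 * w0 G h + 1 := by
  obtain ⟨q1, q2, q3, q4, q5, q6, q7, q8⟩ := uload_par P hc
  have hw : (0 : ℝ) < w0 G h := by
    have : 0 < w0 G h := by
      unfold w0
      positivity
    exact_mod_cast this
  unfold uload_N
  set A := (univ.filter fun x : Fin (Dh h / 2) => pwin h a u1 u2 G L b U t s x = ω) with hA
  rcases A.eq_empty_or_nonempty with h0 | hne
  · rw [h0]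
    simp
  · have himg : A.card = (A.image (fun x : Fin (Dh h / 2) => (x : ℕ))).card :=
      (card_image_of_injective _ Fin.val_injective).symm
    obtain ⟨m, hmA, hmin⟩ := A.exists_min_image (fun x => (x : ℕ)) hne
    have hsub : A.image (fun x : Fin (Dh h / 2) => (x : ℕ)) ⊆
        Finset.Icc (m : ℕ) (m + 16 * w0 G h) := by
      intro y hy
      obtain ⟨x, hx, rfl⟩ := mem_image.1 hy
      have hle := hmin x hx
      rw [Finset.mem_Icc]
      refine ⟨hle, ?_⟩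
      have h1 := pW_step P hc hb hU t hs hg hle
      have hx' : pwin h a u1 u2 G L b U t s x = ω := (mem_filter.1 hx).2
      have hm' : pwin h a u1 u2 G L b U t s m = ω := (mem_filter.1 hmA).2
      have h2 := uload_win hw hm' hx'
      have h3 : ((x : ℕ) : ℝ) - (m : ℕ) < 16 * w0 G h := by linarith
      have h4 : ((x : ℕ) : ℝ) < ((m + 16 * w0 G h : ℕ) : ℝ) := by
        push_cast
        linarith
      exact le_of_lt (by exact_mod_cast h4)
    rw [himg]
    refine (card_le_card hsub).trans ?_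
    rw [Nat.card_Icc]
    omega

theorem uload {h h' K2 G a L J0 Q u1 u2 : ℕ} (P : Par h h' K2 G a L J0 Q) (hc : Cls u1 u2 J0)
    {b : ℕ} (hb : 1 ≤ b) (ta : ℕ → ℕ) (𝒦 : Finset ℕ) (U : ℕ → UC)
    (hU : ∀ k ∈ 𝒦, UOk h a u1 u2 G L b (U k)) (hL : ULd h h' L b ta 𝒦 U) (ω : ℤ) :
    (∑ κ ∈ uA h a u1 u2 G L 𝒦 U,
      ((univ.filter fun x : Fin (Dh h / 2) => uwin h a u1 u2 G L b ta U κ x = ω).card : ℝ)) ≤
      uMu h h' G * Fintype.card (Fin (Dh h / 2)) := by
  classical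
  obtain ⟨q1, q2, q3, q4, q5, q6, q7, q8⟩ := uload_par P hc
  obtain ⟨p1, p2, p3, p4, p5, p6⟩ := uload_pos q1 q3 q4 q6 hb
  have hw : (0 : ℝ) < w0 G h := by
    have : 0 < w0 G h := by
      unfold w0
      positivity
    exact_mod_cast this
  set n := nsl h G a L u1 u2 with hn
  set E := (𝒦 ×ˢ range n).filter (fun p => (U p.1).g (p.2 / G) = true) with hE
  have hmem : ∀ p ∈ E, p.1 ∈ 𝒦 ∧ p.2 < n ∧ (U p.1).g (p.2 / G) = true := by
    intro p hp
    obtain ⟨h1, h2⟩ := mem_filter.1 hp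
    obtain ⟨h3, h4⟩ := mem_product.1 h1
    exact ⟨h3, mem_range.1 h4, h2⟩
  have hdm : ∀ k s : ℕ, s < n → (k * n + s) / n = k ∧ (k * n + s) % n = s := by
    intro k s hs
    have hn0 : 0 < n := by omega
    constructor
    · rw [add_comm, Nat.add_mul_div_right _ _ hn0, Nat.div_eq_of_lt hs, zero_add]
    · rw [add_comm, Nat.add_mul_mod_self_right, Nat.mod_eq_of_lt hs]
  have hinj : Set.InjOn (fun p : ℕ × ℕ => p.1 * n + p.2) (E : Set (ℕ × ℕ)) := by
    intro p hp q hq hpq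
    have h1 := hdm p.1 p.2 (hmem p hp).2.1
    have h2 := hdm q.1 q.2 (hmem q hq).2.1
    have hpq' : p.1 * n + p.2 = q.1 * n + q.2 := hpq
    rw [hpq'] at h1
    exact Prod.ext (h1.1.symm.trans h2.1) (h1.2.symm.trans h2.2)
  have hsum1 : (∑ κ ∈ uA h a u1 u2 G L 𝒦 U,
      ((univ.filter fun x : Fin (Dh h / 2) => uwin h a u1 u2 G L b ta U κ x = ω).card : ℝ)) =
      ∑ p ∈ E, (uload_N h a u1 u2 G L b (U p.1) (ta p.1) p.2 ω : ℝ) := by
    unfold uA
    rw [← hn, ← hE, sum_image hinj]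
    refine sum_congr rfl (fun p hp => ?_)
    have h1 := hdm p.1 p.2 (hmem p hp).2.1
    unfold uload_N
    congr 2
    ext x
    simp only [mem_filter, mem_univ, true_and]
    unfold uwin
    rw [← hn, h1.1, h1.2]
  rw [hsum1]
  -- sum over the blocks
  have hsum2 : (∑ p ∈ E, (uload_N h a u1 u2 G L b (U p.1) (ta p.1) p.2 ω : ℝ)) =
      ∑ k ∈ 𝒦, ∑ s ∈ (range n).filter (fun s => (U k).g (s / G) = true),
        (uload_N h a u1 u2 G L b (U k) (ta k) s ω : ℝ) := by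
    rw [hE, sum_filter, sum_product]
    refine sum_congr rfl (fun k _ => ?_)
    rw [sum_filter]
  rw [hsum2]
  set v : ℕ := ω.toNat * w0 G h * (a * u2 * b) with hv
  set 𝒦' := 𝒦.filter fun k => (U k).y0 + ta k * (L * b) ≤ v + L * b ∧
    v ≤ (U k).y1 + ta k * (L * b) + 2 * (L * b) with hK'
  have hcard : 𝒦'.card ≤ h ^ 2 * h' := hL v
  have hin : ∀ k ∈ 𝒦, ∀ s < n, (U k).g (s / G) = true →
      uload_N h a u1 u2 G L b (U k) (ta k) s ω ≠ 0 → k ∈ 𝒦' := by
    intro k hk s hs hg hne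
    unfold uload_N at hne
    obtain ⟨x, hx⟩ := card_pos.1 (Nat.pos_of_ne_zero hne)
    have hx' : ⌊pW h a u1 u2 G L b (U k) (ta k) s x / w0 G h⌋ = ω := (mem_filter.1 hx).2
    obtain ⟨r1, r2⟩ := pW_range P hc hb (hU k hk) (ta k) hs x.2
    set X := pW h a u1 u2 G L b (U k) (ta k) s x with hX
    have hB : (0 : ℝ) < a * u2 * b := by positivity
    have hX0 : 0 ≤ X := by
      have h1 : (0 : ℝ) ≤ a * u2 * b * X := by
        refine le_trans ?_ r1
        positivity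
      exact nonneg_of_mul_nonneg_right h1 hB
    have hω0 : 0 ≤ ω := by
      rw [← hx']
      exact Int.floor_nonneg.2 (div_nonneg hX0 hw.le)
    have hωR : ((ω.toNat : ℕ) : ℝ) = ω := by
      have : ((ω.toNat : ℕ) : ℤ) = ω := Int.toNat_of_nonneg hω0
      exact_mod_cast this
    have hfl : (ω : ℝ) ≤ X / w0 G h := by
      rw [← hx']
      exact Int.floor_le _
    have hfu : X / w0 G h < ω + 1 := by
      rw [← hx']
      exact Int.lt_floor_add_one _
    rw [le_div_iff₀ hw] at hfl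
    rw [div_lt_iff₀ hw] at hfu
    have hvR : (v : ℝ) = ω * w0 G h * (a * u2 * b) := by
      rw [hv]
      push_cast
      rw [hωR]
    have hvl : (v : ℝ) ≤ a * u2 * b * X := by
      rw [hvR]
      nlinarith [mul_le_mul_of_nonneg_right hfl hB.le]
    have hvu : a * u2 * b * X < v + w0 G h * (a * u2 * b) := by
      rw [hvR]
      nlinarith [mul_lt_mul_of_pos_right hfu hB]
    have hLb : (w0 G h : ℝ) * (a * u2 * b) ≤ L * b := by
      have : (w0 G h : ℝ) * a * u2 ≤ L := by exact_mod_cast q8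
      nlinarith [mul_le_mul_of_nonneg_right this p5.le]
    rw [hK', mem_filter]
    refine ⟨hk, ?_, ?_⟩
    · have : ((U k).y0 : ℝ) + ta k * (L * b) ≤ v + L * b := by linarith
      exact_mod_cast this
    · have hLb0 : (0 : ℝ) ≤ L * b := by positivity
      have : (v : ℝ) ≤ (U k).y1 + ta k * (L * b) + 2 * (L * b) := by linarith
      exact_mod_cast this
  have hT : ∀ k ∈ 𝒦, (∑ s ∈ (range n).filter (fun s => (U k).g (s / G) = true),
      (uload_N h a u1 u2 G L b (U k) (ta k) s ω : ℝ)) ≤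
      if k ∈ 𝒦' then ((16 * w0 G h + 1 : ℕ) : ℝ) else 0 := by
    intro k hk
    set R := (range n).filter (fun s => (U k).g (s / G) = true) with hR
    have hRm : ∀ s ∈ R, s < n ∧ (U k).g (s / G) = true := by
      intro s hs
      obtain ⟨h1, h2⟩ := mem_filter.1 hs
      exact ⟨mem_range.1 h1, h2⟩
    by_cases hex : ∃ s ∈ R, uload_N h a u1 u2 G L b (U k) (ta k) s ω ≠ 0
    · obtain ⟨s, hsR, hs0⟩ := hex
      have hkK : k ∈ 𝒦' := hin k hk s (hRm s hsR).1 (hRm s hsR).2 hs0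
      rw [if_pos hkK]
      have hone : ∀ s' ∈ R, s' ≠ s → (uload_N h a u1 u2 G L b (U k) (ta k) s' ω : ℝ) = 0 := by
        intro s' hs'R hne
        by_contra hcon
        have hs'0 : uload_N h a u1 u2 G L b (U k) (ta k) s' ω ≠ 0 := by
          intro h0
          exact hcon (by rw [h0]; simp)
        unfold uload_N at hs0 hs'0
        obtain ⟨x, hx⟩ := card_pos.1 (Nat.pos_of_ne_zero hs0)
        obtain ⟨x', hx'⟩ := card_pos.1 (Nat.pos_of_ne_zero hs'0)
        have e1 : ⌊pW h a u1 u2 G L b (U k) (ta k) s x / w0 G h⌋ = ω := (mem_filter.1 hx).2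
        have e2 : ⌊pW h a u1 u2 G L b (U k) (ta k) s' x' / w0 G h⌋ = ω := (mem_filter.1 hx').2
        rcases lt_or_gt_of_ne hne with hlt | hlt
        · have g1 := pW_gap P hc hb (hU k hk) (ta k) hlt (hRm s hsR).1 (hRm s' hs'R).2 x'.2 x.2
          have g2 := uload_win hw e2 e1
          linarith
        · have g1 := pW_gap P hc hb (hU k hk) (ta k) hlt (hRm s' hs'R).1 (hRm s hsR).2 x.2 x'.2
          have g2 := uload_win hw e1 e2
          linarith
      rw [sum_eq_single_of_mem s hsR hone]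
      exact_mod_cast uload_N_le P hc hb (hU k hk) (ta k) (hRm s hsR).1 (hRm s hsR).2 ω
    · push Not at hex
      have h0 : (∑ s ∈ R, (uload_N h a u1 u2 G L b (U k) (ta k) s ω : ℝ)) = 0 := by
        refine sum_eq_zero (fun s hs => ?_)
        rw [hex s hs]
        simp
      rw [h0]
      split_ifs
      · positivity
      · exact le_rfl
  calc (∑ k ∈ 𝒦, ∑ s ∈ (range n).filter (fun s => (U k).g (s / G) = true),
        (uload_N h a u1 u2 G L b (U k) (ta k) s ω : ℝ))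
      ≤ ∑ k ∈ 𝒦, (if k ∈ 𝒦' then ((16 * w0 G h + 1 : ℕ) : ℝ) else 0) := sum_le_sum hT
    _ = ∑ k ∈ 𝒦', ((16 * w0 G h + 1 : ℕ) : ℝ) := by
        rw [← sum_filter]
        congr 1
        ext k
        rw [mem_filter]
        exact ⟨fun h => h.2, fun h => ⟨(mem_filter.1 h).1, h⟩⟩
    _ = 𝒦'.card * ((16 * w0 G h + 1 : ℕ) : ℝ) := by
        rw [sum_const, nsmul_eq_mul]
    _ ≤ (h ^ 2 * h' : ℕ) * ((16 * w0 G h + 1 : ℕ) : ℝ) := by
        apply mul_le_mul_of_nonneg_right _ (by positivity)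
        exact_mod_cast hcard
    _ = uMu h h' G * Fintype.card (Fin (Dh h / 2)) := by
        unfold uMu
        rw [Fintype.card_fin]
        have hD0 : ((Dh h / 2 : ℕ) : ℝ) ≠ 0 := by
          have h1 : 2 ≤ Dh h := by
            unfold Dh
            have : 1 ≤ h ^ 3 := Nat.one_le_pow _ _ q1
            omega
          have h2 : 0 < Dh h / 2 := by omega
          positivity
        rw [div_mul_cancel₀ _ hD0]
        push_cast
        ring

end Pool.Agent.Lib.HBP
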