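import Mathlib
import Pool.Agent.Lib.HBP.UDefs

/-!
# Project HBP, module UNum: numerical estimates

STATEMENTS
(1) `unum_tail`: with `r = 5000 G h'`, `μ = uMu h h' G`, `A ≤ M` (numbers of arcs):
`(e^24 - 1) (A/r μ) - 24 ((19/100) M/2) ≤ - 2 M`.
(2) `unum_codes`: `Nb · M1^2 M2 M3^(np+1) 2^np · exp(- 2 G np) ≤ 1/2` for `M1 = 2 Nb L b + 1`,
`M2 = Mh h a + 1`, `M3 = 4 L + 1`, `np = npc ..`.

PROOF. (1) `μ = h^2 h' (16 w0 + 1)/(D/2)` with `w0 = 10^15 G h`, `D/2 = 5 · 10^25 h^3` (exact):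
`μ/r ≤ h^2 h' · 17 · 10^15 G h/(5 · 10^25 h^3 · 5000 G h') = 17 · 10^15/(25 · 10^28) = 6.8 · 10^(-14)`;
`e^24 ≤ 3^24 ≤ 3 · 10^11` (`Real.exp_one_lt_d9`: `e < 3`), so the first term is `≤ 0.03 M`, and
`24 · 0.095 = 2.28`; `0.03 - 2.28 ≤ - 2`.
(2) logarithms: `log Nb ≤ Q^2`, `2 log M1 ≤ 2 Q^2` (`M1 ≤ 4 Nb L b`, hypothesis `hN`), `log M2 ≤ log (4 L + 1)`
(`Mh h a = h^2 a/2 ≤ L`, from `a Q^20 ≤ L`, `h ≤ Q`), `log (4 L + 1) ≤ log 5 + 100 log Q ≤ 102 log Q ≤ G/9`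
(`hLQ : L ≤ Q^100`, `1000 log Q ≤ G`, `Q ≥ 10^60`), `log 2 ≤ G/9`. So the logarithm of the left side is at most
`3 Q^2 + (np + 2) G/9 + np G/9 - 2 G np`, which is `≤ - 1 ≤ log (1/2)` as soon as `G np ≥ 3 Q^2 + G + 1`.
And `np ≥ Q^3`: `np = (L/(D a) - (u1 u2 + 3))/G` (natural divisions) with `L/(D a) ≥ Q^19` (`a Q^20 ≤ L`, `D ≤ Q`),
`u1 u2 ≤ 4^J0 ≤ Q`, `G ≤ Q` (`hQ`).
-/

namespace Pool.Agent.Lib.HBP

open Finset

private theorem par_h'pos {h h' K2 G a L J0 Q : ℕ} (P : Par h h' K2 G a L J0 Q) : 1 ≤ h' := by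
  have h1 := P.hG
  have h2 := P.Gpos
  have h3 : 1 ≤ 10 ^ 25 * G := Nat.one_le_iff_ne_zero.2 (by positivity)
  omega

private theorem par_hpos {h h' K2 G a L J0 Q : ℕ} (P : Par h h' K2 G a L J0 Q) : 1 ≤ h := by
  rw [P.hh]
  exact Nat.mul_pos P.K2pos (par_h'pos P)

theorem unum_mu {h h' K2 G a L J0 Q : ℕ} (P : Par h h' K2 G a L J0 Q) : 0 ≤ uMu h h' G := by
  have _ := P.Gpos
  unfold uMu
  positivity

theorem unum_tail {h h' K2 G a L J0 Q : ℕ} (P : Par h h' K2 G a L J0 Q) {A M : ℝ} (hA0 : 0 ≤ A)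
    (hA : A ≤ M) :
    (Real.exp 24 - 1) * (A / (5000 * G * h' : ℕ) * uMu h h' G) - 24 * (19 / 100 * M / 2) ≤ -2 * M := by
  have hG := P.Gpos
  have hh' := par_h'pos P
  have hh := par_hpos P
  have e1 : Real.exp 24 ≤ 3 * 10 ^ 11 := by
    have h1 : Real.exp 24 = (Real.exp 1) ^ 24 := by
      rw [← Real.exp_nat_mul]; norm_num
    rw [h1]
    have h2 : Real.exp 1 ≤ 3 := by
      have := Real.exp_one_lt_d9
      linarith
    calc (Real.exp 1) ^ 24 ≤ 3 ^ 24 := pow_le_pow_left₀ (Real.exp_pos 1).le h2 24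
      _ ≤ 3 * 10 ^ 11 := by norm_num
  have hD : Dh h / 2 = 5 * 10 ^ 25 * h ^ 3 := by
    unfold Dh
    rw [show 10 ^ 26 * h ^ 3 = 2 * (5 * 10 ^ 25 * h ^ 3) by ring]
    exact Nat.mul_div_cancel_left _ (by norm_num)
  have hGr : (1 : ℝ) ≤ G := by exact_mod_cast hG
  have hhr : (1 : ℝ) ≤ h := by exact_mod_cast hh
  have hh'r : (1 : ℝ) ≤ h' := by exact_mod_cast hh'
  have hmu : uMu h h' G ≤ (6.8 * 10 ^ (-14 : ℤ)) * ((5000 * G * h' : ℕ) : ℝ) := by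
    unfold uMu w0
    rw [hD]
    push_cast
    rw [div_le_iff₀ (by positivity)]
    have h1 : (1 : ℝ) ≤ G * h := by nlinarith
    have h3 : (16 * (1000000000000000 * G * h) + 1 : ℝ) ≤ 17 * 10 ^ 15 * (G * h) := by nlinarith
    calc (h : ℝ) ^ 2 * h' * (16 * (1000000000000000 * G * h) + 1)
        ≤ (h : ℝ) ^ 2 * h' * (17 * 10 ^ 15 * (G * h)) :=
          mul_le_mul_of_nonneg_left h3 (by positivity)
      _ = (6.8 * 10 ^ (-14 : ℤ)) * (5000 * G * h') * (50000000000000000000000000 * h ^ 3) := by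
          norm_num
          ring
  have hr : (0 : ℝ) < ((5000 * G * h' : ℕ) : ℝ) := by
    have : 0 < 5000 * G * h' := by positivity
    exact_mod_cast this
  have hAm : A / ((5000 * G * h' : ℕ) : ℝ) * uMu h h' G ≤ (6.8 * 10 ^ (-14 : ℤ)) * A := by
    calc A / ((5000 * G * h' : ℕ) : ℝ) * uMu h h' G
        ≤ A / ((5000 * G * h' : ℕ) : ℝ) * ((6.8 * 10 ^ (-14 : ℤ)) * ((5000 * G * h' : ℕ) : ℝ)) :=
          mul_le_mul_of_nonneg_left hmu (by positivity)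
      _ = _ := by field_simp
  have hAm0 : 0 ≤ A / ((5000 * G * h' : ℕ) : ℝ) * uMu h h' G :=
    mul_nonneg (by positivity) (unum_mu P)
  have e2 : (Real.exp 24 - 1) * (A / ((5000 * G * h' : ℕ) : ℝ) * uMu h h' G) ≤ 0.03 * A := by
    calc (Real.exp 24 - 1) * (A / ((5000 * G * h' : ℕ) : ℝ) * uMu h h' G)
        ≤ (3 * 10 ^ 11) * (A / ((5000 * G * h' : ℕ) : ℝ) * uMu h h' G) :=
          mul_le_mul_of_nonneg_right (by linarith) hAm0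
      _ ≤ (3 * 10 ^ 11) * ((6.8 * 10 ^ (-14 : ℤ)) * A) :=
          mul_le_mul_of_nonneg_left hAm (by norm_num)
      _ ≤ 0.03 * A := by
          have : (3 * 10 ^ 11 : ℝ) * ((6.8 * 10 ^ (-14 : ℤ)) * A) = 0.0204 * A := by
            norm_num
            ring
          rw [this]
          linarith
  linarith

private theorem npc_ge {h h' K2 G a L J0 Q u1 u2 : ℕ} (P : Par h h' K2 G a L J0 Q)
    (hc : Cls u1 u2 J0) (hQ2 : 10 ^ 60 ≤ Q) (hDQ : Dh h ≤ Q) (hGQ : G ≤ Q) (hJQ : 4 ^ J0 ≤ Q) :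
    Q ^ 3 ≤ npc h G a L u1 u2 := by
  unfold npc
  rw [Nat.le_div_iff_mul_le P.Gpos]
  obtain ⟨i, hi, hu⟩ := hc.pow
  have hu2 : u1 * u2 ≤ Q := by
    rw [hu]
    exact (Nat.pow_le_pow_right (by norm_num) hi).trans hJQ
  have ha : 0 < a := by
    have := P.ha
    have h2 : 0 < Q ^ 20 := by positivity
    omega
  have hD0 : 0 < Dh h := by
    unfold Dh
    have := par_hpos P
    positivity
  have h1 : Q ^ 19 ≤ L / (Dh h * a) := by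
    rw [Nat.le_div_iff_mul_le (by positivity)]
    calc Q ^ 19 * (Dh h * a) ≤ Q ^ 19 * (Q * a) :=
          Nat.mul_le_mul_left _ (Nat.mul_le_mul_right _ hDQ)
      _ = a * Q ^ 20 := by ring
      _ ≤ L := P.hL
  have h2 : Q ^ 3 * G ≤ Q ^ 4 := by
    calc Q ^ 3 * G ≤ Q ^ 3 * Q := Nat.mul_le_mul_left _ hGQ
      _ = Q ^ 4 := by ring
  have h3 : Q ^ 4 + (Q + 3) ≤ Q ^ 19 := by
    have hQ1 : 1 ≤ Q := le_trans (by norm_num) hQ2
    have hQ3 : 5 ≤ Q := le_trans (by norm_num) hQ2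
    calc Q ^ 4 + (Q + 3) ≤ Q ^ 4 + (Q ^ 4 + 3 * Q ^ 4) := by
          have t1 : Q ≤ Q ^ 4 := Nat.le_self_pow (by norm_num) Q
          have t2 : 1 ≤ Q ^ 4 := Nat.one_le_pow _ _ hQ1
          omega
      _ = 5 * Q ^ 4 := by ring
      _ ≤ Q * Q ^ 4 := Nat.mul_le_mul_right _ hQ3
      _ = Q ^ 5 := by ring
      _ ≤ Q ^ 19 := Nat.pow_le_pow_right hQ1 (by norm_num)
  omega

theorem unum_codes {h h' K2 G a L J0 Q u1 u2 : ℕ} (P : Par h h' K2 G a L J0 Q) (hc : Cls u1 u2 J0)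
    {b Nb : ℕ} (hb : 1 ≤ b) (hNb : 1 ≤ Nb) (hLQ : L ≤ Q ^ 100)
    (hN : Real.log (4 * (Nb * L * b)) ≤ Q ^ 2) :
    (Nb : ℝ) * (((2 * (Nb * L * b) + 1 : ℕ) : ℝ) ^ 2 * ((Mh h a + 1 : ℕ) : ℝ) *
      ((4 * L + 1 : ℕ) : ℝ) ^ (npc h G a L u1 u2 + 1) * 2 ^ (npc h G a L u1 u2)) *
      Real.exp (-2 * nsl h G a L u1 u2) ≤ 1 / 2 := by
  have hh := par_hpos P
  have hG := P.Gpos
  have hK := P.K2pos
  have hJ1 : 1 ≤ 4 ^ J0 := Nat.one_le_pow _ _ (by norm_num)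
  have hh4 : 1 ≤ h ^ 4 := Nat.one_le_pow _ _ hh
  -- consequences of hQ
  have hQ1 : 10 ^ 60 ≤ Q := by
    refine le_trans ?_ P.hQ
    calc 10 ^ 60 = 10 ^ 60 * 1 * 1 * 1 * 1 := by norm_num
      _ ≤ 10 ^ 60 * h ^ 4 * G * K2 * 4 ^ J0 := by gcongr
  have hGQ : G ≤ Q := by
    refine le_trans ?_ P.hQ
    calc G = 1 * 1 * G * 1 * 1 := by ring
      _ ≤ 10 ^ 60 * h ^ 4 * G * K2 * 4 ^ J0 := by gcongr; norm_num
  have hJQ : 4 ^ J0 ≤ Q := by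
    refine le_trans ?_ P.hQ
    calc 4 ^ J0 = 1 * 1 * 1 * 1 * 4 ^ J0 := by ring
      _ ≤ 10 ^ 60 * h ^ 4 * G * K2 * 4 ^ J0 := by gcongr; norm_num
  have hDQ : Dh h ≤ Q := by
    refine le_trans ?_ P.hQ
    unfold Dh
    calc 10 ^ 26 * h ^ 3 = 10 ^ 26 * h ^ 3 * 1 * 1 * 1 := by ring
      _ ≤ 10 ^ 60 * h ^ 4 * G * K2 * 4 ^ J0 := by
          apply Nat.mul_le_mul _ hJ1
          apply Nat.mul_le_mul _ hK
          apply Nat.mul_le_mul _ hG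
          exact Nat.mul_le_mul (by norm_num) (Nat.pow_le_pow_right hh (by norm_num))
  have hhQ : h ^ 2 ≤ Q := by
    refine le_trans ?_ P.hQ
    calc h ^ 2 = 1 * h ^ 2 * 1 * 1 * 1 := by ring
      _ ≤ 10 ^ 60 * h ^ 4 * G * K2 * 4 ^ J0 := by
          apply Nat.mul_le_mul _ hJ1
          apply Nat.mul_le_mul _ hK
          apply Nat.mul_le_mul _ hG
          exact Nat.mul_le_mul (by norm_num) (Nat.pow_le_pow_right hh (by norm_num))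
  have hnp := npc_ge P hc hQ1 hDQ hGQ hJQ
  set np := npc h G a L u1 u2 with hnpdef
  have hnsl : nsl h G a L u1 u2 = G * np := rfl
  rw [hnsl]
  have hQ0 : 0 < Q := by omega
  have ha : 0 < a := by
    have := P.ha
    have h2 : 0 < Q ^ 20 := by positivity
    omega
  have hL1 : 1 ≤ L := by
    have h1 := P.hL
    have h2 : 0 < a * Q ^ 20 := by positivity
    omega
  -- M2 ≤ 4 L + 1
  have hM2 : Mh h a + 1 ≤ 4 * L + 1 := by
    have h1 : Mh h a ≤ L := by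
      unfold Mh
      calc h ^ 2 * a / 2 ≤ h ^ 2 * a := Nat.div_le_self _ _
        _ ≤ Q * a := Nat.mul_le_mul_right _ hhQ
        _ = a * Q := Nat.mul_comm _ _
        _ ≤ a * Q ^ 20 := Nat.mul_le_mul_left _ (Nat.le_self_pow (by norm_num) Q)
        _ ≤ L := P.hL
    omega
  have hQr : (10 ^ 60 : ℝ) ≤ Q := by exact_mod_cast hQ1
  have hQr0 : (0 : ℝ) < Q := by exact_mod_cast hQ0
  have hlogQ : 1 ≤ Real.log Q := by
    rw [Real.le_log_iff_exp_le hQr0]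
    have := Real.exp_one_lt_d9
    have h2 : (3 : ℝ) ≤ 10 ^ 60 := by norm_num
    linarith
  have hGr : 1000 * Real.log Q ≤ G := P.hQG
  have hLr : (1 : ℝ) ≤ L := by exact_mod_cast hL1
  -- E
  set E := Real.exp ((G : ℝ) / 9) with hE
  have hM3 : ((4 * L + 1 : ℕ) : ℝ) ≤ E := by
    rw [hE]
    have h1 : (0 : ℝ) < ((4 * L + 1 : ℕ) : ℝ) := by positivity
    rw [← Real.exp_log h1]
    apply Real.exp_le_exp.2
    have h2 : ((4 * L + 1 : ℕ) : ℝ) ≤ 5 * (Q : ℝ) ^ 100 := by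
      have h3 : 4 * L + 1 ≤ 5 * Q ^ 100 := by omega
      exact_mod_cast h3
    have h3 : Real.log ((4 * L + 1 : ℕ) : ℝ) ≤ Real.log (5 * (Q : ℝ) ^ 100) :=
      Real.log_le_log h1 h2
    have h4 : Real.log (5 * (Q : ℝ) ^ 100) = Real.log 5 + 100 * Real.log Q := by
      rw [Real.log_mul (by norm_num) (by positivity), Real.log_pow]
      norm_num
    have h5 : Real.log 5 ≤ 2 := by
      rw [Real.log_le_iff_le_exp (by norm_num)]
      have h6 : Real.exp 2 = Real.exp 1 * Real.exp 1 := by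
        rw [← Real.exp_add]; norm_num
      rw [h6]
      have := Real.exp_one_gt_d9
      nlinarith
    linarith
  have hG1000 : (1000 : ℝ) ≤ G := by linarith
  have h2E : (2 : ℝ) ≤ E := by
    rw [hE]
    have := Real.add_one_le_exp ((G : ℝ) / 9)
    linarith
  have hE0 : 0 < E := Real.exp_pos _
  have hX : (0 : ℝ) < 4 * ((Nb : ℝ) * L * b) := by
    have h1 : (0 : ℝ) < Nb := by exact_mod_cast hNb
    have h2 : (0 : ℝ) < b := by exact_mod_cast hb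
    positivity
  have hNexp : 4 * ((Nb : ℝ) * L * b) ≤ Real.exp (Q ^ 2 : ℝ) :=
    (Real.log_le_iff_le_exp hX).1 hN
  have hprod1 : 1 ≤ Nb * L * b := Nat.mul_pos (Nat.mul_pos hNb hL1) hb
  have hNb' : (Nb : ℝ) ≤ Real.exp (Q ^ 2 : ℝ) := by
    refine le_trans ?_ hNexp
    have h1 : Nb ≤ 4 * (Nb * L * b) := by
      have : Nb * 1 * 1 ≤ Nb * L * b := by gcongr
      omega
    exact_mod_cast h1
  have hM1 : ((2 * (Nb * L * b) + 1 : ℕ) : ℝ) ≤ Real.exp (Q ^ 2 : ℝ) := by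
    refine le_trans ?_ hNexp
    have h1 : 2 * (Nb * L * b) + 1 ≤ 4 * (Nb * L * b) := by omega
    exact_mod_cast h1
  have hM2r : ((Mh h a + 1 : ℕ) : ℝ) ≤ E := le_trans (by exact_mod_cast hM2) hM3
  -- assemble
  have hmain : (Nb : ℝ) * (((2 * (Nb * L * b) + 1 : ℕ) : ℝ) ^ 2 * ((Mh h a + 1 : ℕ) : ℝ) *
      ((4 * L + 1 : ℕ) : ℝ) ^ (np + 1) * 2 ^ np) ≤
      Real.exp (Q ^ 2 : ℝ) * ((Real.exp (Q ^ 2 : ℝ)) ^ 2 * E * E ^ (np + 1) * E ^ np) := by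
    gcongr
  have hexp : Real.exp (Q ^ 2 : ℝ) * ((Real.exp (Q ^ 2 : ℝ)) ^ 2 * E * E ^ (np + 1) * E ^ np) =
      Real.exp (3 * (Q : ℝ) ^ 2 + (2 * np + 2) * ((G : ℝ) / 9)) := by
    have h1 : Real.exp (Q ^ 2 : ℝ) * ((Real.exp (Q ^ 2 : ℝ)) ^ 2 * E * E ^ (np + 1) * E ^ np) =
        (Real.exp (Q ^ 2 : ℝ)) ^ 3 * E ^ (2 * np + 2) := by ring
    rw [h1, hE, ← Real.exp_nat_mul, ← Real.exp_nat_mul, ← Real.exp_add]
    congr 1
    push_cast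
    ring
  have hnpr : (Q : ℝ) ^ 3 ≤ np := by exact_mod_cast hnp
  have hfinal : 3 * (Q : ℝ) ^ 2 + (2 * np + 2) * ((G : ℝ) / 9) + -2 * ((G * np : ℕ) : ℝ) ≤ -1 := by
    push_cast
    have hQ3 : (10 ^ 60 : ℝ) * (Q : ℝ) ^ 2 ≤ (Q : ℝ) ^ 3 := by
      have : (Q : ℝ) ^ 3 = Q * (Q : ℝ) ^ 2 := by ring
      rw [this]
      exact mul_le_mul_of_nonneg_right hQr (by positivity)
    have hQ21 : (1 : ℝ) ≤ (Q : ℝ) ^ 2 := by
      have : (1 : ℝ) ≤ Q := by linarith [show (1 : ℝ) ≤ 10 ^ 60 by norm_num]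
      nlinarith
    have h1 : (10 : ℝ) * (Q : ℝ) ^ 2 ≤ np := by nlinarith
    have h2 : (10 : ℝ) ≤ np := by nlinarith
    have h3 : (G : ℝ) * (10 * (Q : ℝ) ^ 2) ≤ G * np := mul_le_mul_of_nonneg_left h1 (by positivity)
    have h4 : (10 : ℝ) * (Q : ℝ) ^ 2 ≤ G * (10 * (Q : ℝ) ^ 2) := by nlinarith
    have h5 : (G : ℝ) * 10 ≤ G * np := mul_le_mul_of_nonneg_left h2 (by positivity)
    nlinarith
  calc (Nb : ℝ) * (((2 * (Nb * L * b) + 1 : ℕ) : ℝ) ^ 2 * ((Mh h a + 1 : ℕ) : ℝ) *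
      ((4 * L + 1 : ℕ) : ℝ) ^ (np + 1) * 2 ^ np) * Real.exp (-2 * ((G * np : ℕ) : ℝ))
      ≤ Real.exp (3 * (Q : ℝ) ^ 2 + (2 * np + 2) * ((G : ℝ) / 9)) *
        Real.exp (-2 * ((G * np : ℕ) : ℝ)) := by
        apply mul_le_mul_of_nonneg_right _ (Real.exp_pos _).le
        rw [← hexp]
        exact hmain
    _ = Real.exp (3 * (Q : ℝ) ^ 2 + (2 * np + 2) * ((G : ℝ) / 9) + -2 * ((G * np : ℕ) : ℝ)) := by
        rw [← Real.exp_add]
    _ ≤ Real.exp (-1) := Real.exp_le_exp.2 hfinal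
    _ ≤ 1 / 2 := by
        rw [Real.exp_neg, inv_eq_one_div]
        apply one_div_le_one_div_of_le (by norm_num)
        have := Real.exp_one_gt_d9
        linarith

end Pool.Agent.Lib.HBP
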