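import Mathlib

/-!
# Project HBP, section Uncrowd: union bound over partial codes

A partial code is `c : Fin Nb → Option β`; the bad set of a code with support of size `m ≥ 1` has at most
`|α|^K x^m` elements.  If `Nb |β| x ≤ 1/2` then some `ξ` is in no bad set:
`∑ over c ≠ none of x^(supp c) = (1 + |β| x)^Nb - 1 ≤ e^(1/2) - 1 < 1`.
-/

namespace Pool.Agent.Lib.HBP

open Finset

theorem uunion {α β : Type*} [Fintype α] [Nonempty α] [Fintype β] (Nb K : ℕ)
    (bad : (Fin Nb → Option β) → Finset (Fin K → α)) (x : ℝ) (hx : 0 ≤ x)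
    (hbad : ∀ c : Fin Nb → Option β, (∃ k, (c k).isSome = true) → ((bad c).card : ℝ) ≤
      (Fintype.card α : ℝ) ^ K * x ^ (univ.filter fun k => (c k).isSome = true).card)
    (hs : (Nb : ℝ) * Fintype.card β * x ≤ 1 / 2) :
    ∃ ξ : Fin K → α, ∀ c : Fin Nb → Option β, (∃ k, (c k).isSome = true) → ξ ∉ bad c := by
  classical
  have hα : (0 : ℝ) < Fintype.card α := by exact_mod_cast Fintype.card_pos
  by_contra hcon
  push Not at hcon
  set CS : Finset (Fin Nb → Option β) := univ.filter fun c => ∃ k, (c k).isSome = true with hCS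
  have h1 : (univ : Finset (Fin K → α)) ⊆ CS.biUnion bad := by
    intro ξ _
    obtain ⟨c, hc, hm⟩ := hcon ξ
    rw [Finset.mem_biUnion]
    exact ⟨c, by rw [hCS, Finset.mem_filter]; exact ⟨Finset.mem_univ _, hc⟩, hm⟩
  have h2 : (Fintype.card α : ℝ) ^ K ≤ ∑ c ∈ CS, ((bad c).card : ℝ) := by
    have h3 := (Finset.card_le_card h1).trans Finset.card_biUnion_le
    rw [Finset.card_univ, Fintype.card_fun, Fintype.card_fin] at h3
    exact_mod_cast h3
  set w : Option β → ℝ := fun o => if o.isSome = true then x else 1 with hw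
  have hw1 : ∀ c : Fin Nb → Option β, ∏ k, w (c k)
      = x ^ (univ.filter fun k => (c k).isSome = true).card := by
    intro c
    rw [hw]
    simp only
    rw [Finset.prod_ite, Finset.prod_const, Finset.prod_const_one, mul_one]
  have h3 : ∑ c ∈ CS, ((bad c).card : ℝ)
      ≤ (Fintype.card α : ℝ) ^ K * ∑ c ∈ CS, ∏ k, w (c k) := by
    rw [Finset.mul_sum]
    apply Finset.sum_le_sum
    intro c hc
    rw [hCS, Finset.mem_filter] at hc
    rw [hw1 c]
    exact hbad c hc.2
  have h4 : ∑ c : Fin Nb → Option β, ∏ k, w (c k) = (1 + Fintype.card β * x) ^ Nb := by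
    have h5 : ∑ o : Option β, w o = 1 + Fintype.card β * x := by
      rw [Fintype.sum_option, hw]
      simp
    have h6 := Finset.prod_univ_sum (R := ℝ) (fun _ : Fin Nb => (univ : Finset (Option β)))
      (fun _ o => w o)
    rw [Fintype.piFinset_univ] at h6
    rw [← h6, Finset.prod_const, Finset.card_univ, Fintype.card_fin, h5]
  have h5 : ∑ c ∈ CS, ∏ k, w (c k) = (1 + Fintype.card β * x) ^ Nb - 1 := by
    rw [← h4]
    have h6 : (univ : Finset (Fin Nb → Option β)) = insert (fun _ => none) CS := by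
      ext c
      simp only [Finset.mem_univ, Finset.mem_insert, true_iff]
      by_cases h : ∃ k, (c k).isSome = true
      · right; rw [hCS, Finset.mem_filter]; exact ⟨Finset.mem_univ _, h⟩
      · left
        push Not at h
        funext k
        have := h k
        simpa using this
    have h7 : (fun _ => none : Fin Nb → Option β) ∉ CS := by
      rw [hCS, Finset.mem_filter]
      rintro ⟨_, k, hk⟩
      simp at hk
    rw [h6, Finset.sum_insert h7, hw1]
    simp
  have h6 : (1 + Fintype.card β * x) ^ Nb ≤ Real.exp (1 / 2) := by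
    have h7 : (1 + Fintype.card β * x : ℝ) ≤ Real.exp (Fintype.card β * x) := by
      have := Real.add_one_le_exp ((Fintype.card β : ℝ) * x)
      linarith
    calc (1 + Fintype.card β * x : ℝ) ^ Nb ≤ (Real.exp (Fintype.card β * x)) ^ Nb := by
          apply pow_le_pow_left₀ (by positivity) h7
      _ = Real.exp (Nb * (Fintype.card β * x)) := by rw [← Real.exp_nat_mul]
      _ ≤ Real.exp (1 / 2) := by
          apply Real.exp_le_exp.mpr
          calc (Nb : ℝ) * (Fintype.card β * x) = (Nb : ℝ) * Fintype.card β * x := by ring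
            _ ≤ 1 / 2 := hs
  have h7 : Real.exp (1 / 2) < 2 := by
    have h8 : Real.exp (1 / 2) * Real.exp (1 / 2) = Real.exp 1 := by
      rw [← Real.exp_add]; norm_num
    have h9 := Real.exp_one_lt_d9
    have h10 := Real.exp_pos (1 / 2 : ℝ)
    nlinarith
  have h8 : (0 : ℝ) < (Fintype.card α : ℝ) ^ K := by positivity
  have h9 : ∑ c ∈ CS, ∏ k, w (c k) < 1 := by rw [h5]; linarith
  have h10 : (Fintype.card α : ℝ) ^ K * ∑ c ∈ CS, ∏ k, w (c k) < (Fintype.card α : ℝ) ^ K := by
    calc _ < (Fintype.card α : ℝ) ^ K * 1 := mul_lt_mul_of_pos_left h9 h8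
      _ = _ := mul_one _
  linarith

end Pool.Agent.Lib.HBP
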