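import Mathlib
import Pool.Agent.Lib.HBP.UTail
import Pool.Agent.Lib.HBP.UUnion
import Pool.Agent.Lib.HBP.UCode
import Pool.Agent.Lib.HBP.ULoad
import Pool.Agent.Lib.HBP.UNum

/-!
# Project HBP, module UFin: one array of places is uncrowded for all codes (union bound)

PROOF: `ucrw_tail` (with `uload`, `unum_tail`) for every fixed partial code, `uunion` with `unum_codes`.
-/

namespace Pool.Agent.Lib.HBP

open Finset

private lemma ufin_npc {h G a L u1 u2 : ℕ} : nsl h G a L u1 u2 = G * npc h G a L u1 u2 := rfl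

private lemma ufin_mem_uA {h a u1 u2 G L : ℕ} {𝒦 : Finset ℕ} {U : ℕ → UC} {κ : ℕ}
    (hκ : κ ∈ uA h a u1 u2 G L 𝒦 U) : ∃ k ∈ 𝒦, ∃ s < nsl h G a L u1 u2,
      (U k).g (s / G) = true ∧ k * nsl h G a L u1 u2 + s = κ := by
  unfold uA at hκ
  rw [Finset.mem_image] at hκ
  obtain ⟨p, hp, hpκ⟩ := hκ
  rw [Finset.mem_filter, Finset.mem_product, Finset.mem_range] at hp
  exact ⟨p.1, hp.1.1, p.2, hp.1.2, hp.2, hpκ⟩

private lemma ufin_div {n k s : ℕ} (hs : s < n) : (k * n + s) / n = k := by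
  rw [mul_comm, Nat.mul_add_div (by omega), Nat.div_eq_of_lt hs, add_zero]

private lemma ufin_uA_sub {h a u1 u2 G L Nb : ℕ} {𝒦 : Finset ℕ} (U : ℕ → UC) (h𝒦 : 𝒦 ⊆ range Nb) :
    uA h a u1 u2 G L 𝒦 U ⊆ range (Nb * nsl h G a L u1 u2) := by
  intro κ hκ
  obtain ⟨k, hk, s, hs, _, rfl⟩ := ufin_mem_uA hκ
  have hk' : k < Nb := Finset.mem_range.1 (h𝒦 hk)
  rw [Finset.mem_range]
  calc k * nsl h G a L u1 u2 + s < k * nsl h G a L u1 u2 + nsl h G a L u1 u2 := by omega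
    _ = (k + 1) * nsl h G a L u1 u2 := by ring
    _ ≤ Nb * nsl h G a L u1 u2 := Nat.mul_le_mul_right _ hk'

private lemma ufin_uA_card {h a u1 u2 G L : ℕ} {𝒦 : Finset ℕ} (U : ℕ → UC) :
    (uA h a u1 u2 G L 𝒦 U).card ≤ 𝒦.card * nsl h G a L u1 u2 := by
  unfold uA
  refine Finset.card_image_le.trans ((Finset.card_filter_le _ _).trans ?_)
  rw [Finset.card_product, Finset.card_range]

private lemma ufin_congr {h a u1 u2 G L b : ℕ} (ta : ℕ → ℕ) {𝒦 : Finset ℕ} {U U' : ℕ → UC}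
    (hUU : ∀ k ∈ 𝒦, U k = U' k) (r K : ℕ) (ξ : Fin K → Fin (Dh h / 2)) :
    uA h a u1 u2 G L 𝒦 U = uA h a u1 u2 G L 𝒦 U' ∧
    ucrw (uA h a u1 u2 G L 𝒦 U) (uwin h a u1 u2 G L b ta U) r K ξ =
      ucrw (uA h a u1 u2 G L 𝒦 U') (uwin h a u1 u2 G L b ta U') r K ξ := by
  have h1 : uA h a u1 u2 G L 𝒦 U = uA h a u1 u2 G L 𝒦 U' := by
    unfold uA
    congr 1
    apply Finset.filter_congr
    intro p hp
    rw [Finset.mem_product] at hp
    rw [hUU p.1 hp.1]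
  refine ⟨h1, ?_⟩
  have hw : ∀ κ ∈ uA h a u1 u2 G L 𝒦 U', ∀ x, uwin h a u1 u2 G L b ta U κ x =
      uwin h a u1 u2 G L b ta U' κ x := by
    intro κ hκ x
    obtain ⟨k, hk, s, hs, _, rfl⟩ := ufin_mem_uA hκ
    unfold uwin
    rw [ufin_div hs, hUU k hk]
  have hcnt : ∀ ω, ucnt (uA h a u1 u2 G L 𝒦 U') (uwin h a u1 u2 G L b ta U) K ξ ω =
      ucnt (uA h a u1 u2 G L 𝒦 U') (uwin h a u1 u2 G L b ta U') K ξ ω := by
    intro ω
    unfold ucnt
    congr 1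
    apply Finset.filter_congr
    intro k _
    constructor
    · rintro ⟨h2, h3⟩
      exact ⟨h2, by rw [← hw _ h2]; exact h3⟩
    · rintro ⟨h2, h3⟩
      exact ⟨h2, by rw [hw _ h2]; exact h3⟩
  rw [h1]
  unfold ucrw
  congr 1
  apply Finset.filter_congr
  intro k _
  constructor
  · rintro ⟨h2, h3⟩
    exact ⟨h2, by rw [← hw _ h2, ← hcnt]; exact h3⟩
  · rintro ⟨h2, h3⟩
    exact ⟨h2, by rw [hw _ h2, hcnt]; exact h3⟩

private lemma ufin_hpos {h h' K2 G a L J0 Q : ℕ} (P : Par h h' K2 G a L J0 Q) :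
    1 ≤ h ∧ 1 ≤ h' ∧ 1 ≤ Dh h / 2 := by
  have h1 : 1 ≤ h' := by
    have h2 := P.hG
    have h3 := P.Gpos
    omega
  have h2 : 1 ≤ h := by
    rw [P.hh]
    exact Nat.mul_pos P.K2pos h1
  refine ⟨h2, h1, ?_⟩
  unfold Dh
  have h3 : 1 ≤ h ^ 3 := Nat.one_le_pow _ _ h2
  omega

private lemma ufin_tail {h h' K2 G a L J0 Q u1 u2 : ℕ} (P : Par h h' K2 G a L J0 Q)
    (hc : Cls u1 u2 J0) {b Nb : ℕ} (hb : 1 ≤ b) (ta : ℕ → ℕ) (𝒦 : Finset ℕ) (U : ℕ → UC)
    (h𝒦 : 𝒦 ⊆ range Nb) (hU : ∀ k ∈ 𝒦, UOk h a u1 u2 G L b (U k)) (hL : ULd h h' L b ta 𝒦 U) :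
    ((univ.filter fun ξ : Fin (Nb * nsl h G a L u1 u2) → Fin (Dh h / 2) =>
      (19 / 100 * (𝒦.card * nsl h G a L u1 u2 : ℕ) : ℝ) ≤
      (ucrw (uA h a u1 u2 G L 𝒦 U) (uwin h a u1 u2 G L b ta U) (5000 * G * h')
        (Nb * nsl h G a L u1 u2) ξ : ℝ)).card : ℝ) ≤
      (Fintype.card (Fin (Dh h / 2)) : ℝ) ^ (Nb * nsl h G a L u1 u2) *
        Real.exp (-2 * nsl h G a L u1 u2) ^ 𝒦.card := by
  obtain ⟨hh, hh', hD⟩ := ufin_hpos P
  have : Nonempty (Fin (Dh h / 2)) := ⟨⟨0, hD⟩⟩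
  have hr : 1 ≤ 5000 * G * h' := by
    have := Nat.mul_pos (Nat.mul_pos (by norm_num : 0 < 5000) P.Gpos) hh'
    omega
  refine (ucrw_tail _ _ _ _ hr (ufin_uA_sub U h𝒦) (uMu h h' G) (unum_mu P)
    (fun ω => uload P hc hb ta 𝒦 U hU hL ω) 24 (by norm_num) _).trans ?_
  apply mul_le_mul_of_nonneg_left _ (by positivity)
  rw [← Real.exp_nat_mul]
  apply Real.exp_le_exp.2
  have h1 := unum_tail P (A := ((uA h a u1 u2 G L 𝒦 U).card : ℝ))
    (M := ((𝒦.card * nsl h G a L u1 u2 : ℕ) : ℝ)) (by positivity)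
    (by exact_mod_cast ufin_uA_card U)
  refine h1.trans (le_of_eq ?_)
  push_cast
  ring

open Classical in
/-- The set of blocks of a partial code. -/
private noncomputable def ufinK {Nb : ℕ} {β : Type*} (c : Fin Nb → Option β) : Finset ℕ :=
  (univ.filter fun k => (c k).isSome = true).image (fun k : Fin Nb => (k : ℕ))

/-- The codes of a partial code. -/
private noncomputable def ufinU {Nb : ℕ} {M1 M2 M3 np : ℕ} (c : Fin Nb → Option (BC M1 M2 M3 np))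
    (k : ℕ) : UC :=
  if hk : k < Nb then ((c ⟨k, hk⟩).map toUC).getD ⟨0, 0, 0, fun _ => 0, fun _ => false⟩
  else ⟨0, 0, 0, fun _ => 0, fun _ => false⟩

private lemma ufinK_card {Nb : ℕ} {β : Type*} (c : Fin Nb → Option β) :
    (ufinK c).card = (univ.filter fun k => (c k).isSome = true).card := by
  unfold ufinK
  rw [Finset.card_image_of_injective _ Fin.val_injective]

private lemma ufinK_sub {Nb : ℕ} {β : Type*} (c : Fin Nb → Option β) : ufinK c ⊆ range Nb := by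
  intro k hk
  unfold ufinK at hk
  rw [Finset.mem_image] at hk
  obtain ⟨k', _, rfl⟩ := hk
  exact Finset.mem_range.2 k'.2

private lemma ufin_cardBC (M1 M2 M3 np : ℕ) : (Fintype.card (BC M1 M2 M3 np) : ℝ) =
    (M1 : ℝ) ^ 2 * M2 * (M3 : ℝ) ^ (np + 1) * 2 ^ np := by
  simp only [Fintype.card_prod, Fintype.card_fin, Fintype.card_fun, Fintype.card_bool]
  push_cast
  ring

theorem ufin {h h' K2 G a L J0 Q u1 u2 : ℕ} (P : Par h h' K2 G a L J0 Q) (hc : Cls u1 u2 J0)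
    {b Nb : ℕ} (hb : 1 ≤ b) (hNb : 1 ≤ Nb) (hLQ : L ≤ Q ^ 100)
    (hN : Real.log (4 * (Nb * L * b)) ≤ Q ^ 2) (ta : ℕ → ℕ) :
    ∃ ξ : Fin (Nb * nsl h G a L u1 u2) → Fin (Dh h / 2), ∀ (𝒦 : Finset ℕ) (U : ℕ → UC),
      𝒦 ⊆ range Nb → 𝒦.Nonempty →
      (∀ k ∈ 𝒦, ∃ x : BC (2 * (Nb * L * b) + 1) (Mh h a + 1) (4 * L + 1) (npc h G a L u1 u2),
        U k = toUC x) →
      (∀ k ∈ 𝒦, UOk h a u1 u2 G L b (U k)) → ULd h h' L b ta 𝒦 U →
      (ucrw (uA h a u1 u2 G L 𝒦 U) (uwin h a u1 u2 G L b ta U) (5000 * G * h')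
        (Nb * nsl h G a L u1 u2) ξ : ℝ) < 19 / 100 * (𝒦.card * nsl h G a L u1 u2 : ℕ) := by
  classical
  obtain ⟨hh, hh', hD⟩ := ufin_hpos P
  have : Nonempty (Fin (Dh h / 2)) := ⟨⟨0, hD⟩⟩
  set β : Type := BC (2 * (Nb * L * b) + 1) (Mh h a + 1) (4 * L + 1) (npc h G a L u1 u2) with hβ
  set bad : (Fin Nb → Option β) → Finset (Fin (Nb * nsl h G a L u1 u2) → Fin (Dh h / 2)) :=
    fun c => if (∀ k ∈ ufinK c, UOk h a u1 u2 G L b (ufinU c k)) ∧
        ULd h h' L b ta (ufinK c) (ufinU c) then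
      univ.filter fun ξ : Fin (Nb * nsl h G a L u1 u2) → Fin (Dh h / 2) =>
        (19 / 100 * ((ufinK c).card * nsl h G a L u1 u2 : ℕ) : ℝ) ≤
        (ucrw (uA h a u1 u2 G L (ufinK c) (ufinU c)) (uwin h a u1 u2 G L b ta (ufinU c))
          (5000 * G * h') (Nb * nsl h G a L u1 u2) ξ : ℝ) else ∅ with hbad
  obtain ⟨ξ, hξ⟩ := uunion (α := Fin (Dh h / 2)) (β := β) Nb (Nb * nsl h G a L u1 u2) bad
    (Real.exp (-2 * nsl h G a L u1 u2)) (Real.exp_pos _).le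
    (by
      intro c hcne
      rw [← ufinK_card c]
      rw [hbad]
      simp only
      split_ifs with hcond
      · exact ufin_tail P hc hb ta (ufinK c) (ufinU c) (ufinK_sub c) hcond.1 hcond.2
      · rw [Finset.card_empty]
        have : (0 : ℝ) ≤ (Fintype.card (Fin (Dh h / 2)) : ℝ) ^ (Nb * nsl h G a L u1 u2) *
          Real.exp (-2 * nsl h G a L u1 u2) ^ (ufinK c).card := by positivity
        exact_mod_cast this)
    (by
      refine le_trans (le_of_eq ?_) (unum_codes P hc hb hNb hLQ hN)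
      exact congrArg (fun y : ℝ => (Nb : ℝ) * y * Real.exp (-2 * nsl h G a L u1 u2))
        (ufin_cardBC (2 * (Nb * L * b) + 1) (Mh h a + 1) (4 * L + 1) (npc h G a L u1 u2)))
  refine ⟨ξ, fun 𝒦 U h𝒦 hne hcode hUok hUld => ?_⟩
  choose! x hx using hcode
  set c : Fin Nb → Option β := fun k => if (k : ℕ) ∈ 𝒦 then some (x k) else none with hcdef
  have hK : ufinK c = 𝒦 := by
    ext k
    unfold ufinK
    rw [Finset.mem_image]
    constructor
    · rintro ⟨k', hk', rfl⟩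
      rw [Finset.mem_filter] at hk'
      by_contra hcon
      rw [hcdef] at hk'
      simp [hcon] at hk'
    · intro hk
      refine ⟨⟨k, Finset.mem_range.1 (h𝒦 hk)⟩, ?_, rfl⟩
      rw [Finset.mem_filter]
      refine ⟨Finset.mem_univ _, ?_⟩
      rw [hcdef]
      simp [hk]
  have hUc : ∀ k ∈ 𝒦, U k = ufinU c k := by
    intro k hk
    unfold ufinU
    rw [dif_pos (Finset.mem_range.1 (h𝒦 hk)), hcdef]
    simp only [hk, if_true, Option.map_some, Option.getD_some]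
    exact hx k hk
  have hex : ∃ k, (c k).isSome = true := by
    obtain ⟨k, hk⟩ := hne
    refine ⟨⟨k, Finset.mem_range.1 (h𝒦 hk)⟩, ?_⟩
    rw [hcdef]
    simp [hk]
  have h1 := hξ c hex
  rw [hbad] at h1
  simp only at h1
  rw [hK] at h1
  rw [if_pos] at h1
  · rw [Finset.mem_filter, not_and] at h1
    have h2 := h1 (Finset.mem_univ _)
    rw [not_le] at h2
    rw [(ufin_congr ta hUc (5000 * G * h') (Nb * nsl h G a L u1 u2) ξ).2]
    exact h2
  · constructor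
    · intro k hk
      rw [← hUc k hk]
      exact hUok k hk
    · intro v
      have h3 := hUld v
      refine le_trans (le_of_eq ?_) h3
      congr 1
      apply Finset.filter_congr
      intro k hk
      rw [hUc k hk]

end Pool.Agent.Lib.HBP
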