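import Mathlib
import Pool.Agent.Lib.HBP.UCode

/-!
# Project HBP, module UBad: few bad pieces; ranges of the codes

STATEMENTS
(1) `ulen`: the columns of all pieces are in the block: `uX h G a u1 l (npc ..) ≤ L` for `l ≤ Mh h a`.
(2) `ulst`: `lst h a lamh ≤ Mh h a` for `lamh ≤ 4`.
(3) `ubad`: if the energy of the blocks `𝒦` is at most `a nsl |𝒦|/(1000 h)`, the number of arcs in bad pieces is at
most `nsl |𝒦| / 1000`.
(4) `ucode_c`: the heights at the knots of the code are at most `4 L`; `ucode_ok1`: monotone, `y0 + B c(np) ≤ y1`.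

PROOF. (1) `npc · G ≤ L/(D a) - (u1 u2 + 3)` (floor; `D = Dh h = 10^26 h^3`), so
`npc G D a ≤ L - (u1 u2 + 3) D a` if `L/(D a) ≥ u1 u2 + 3` (otherwise `npc = 0`); `L/(D a)` is large: `a Q^20 ≤ L`,
`D ≤ Q`, `u1 u2 ≤ 4^J0 ≤ Q`; and `16 u1 l ≤ 16 u1 h^2 a/2 = 8 u1 h^2 a ≤ u1 u2 D a`. (If `npc = 0` one needs only
`16 u1 l ≤ L`, same estimate.)
(2) `lst = ⌈a (h^2 (lamh - 1/8))/16⌉ ≤ a h^2 (31/8)/16 + 1 ≤ a h^2/4 + 1 ≤ h^2 a/2` (natural division; `a ≥ 32`,
`h ≥ 1`; `32 · 4^J0 ∣ a` and `a ≥ Q^20 > 0`).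
(3) Let `l_k = lst ..`. For fixed `k` the intervals `Ico (uX l_k p) (uX l_k (p+1))`, `p < npc`, are disjoint and, by
(1), contained in `range L`; `psi ≥ 0`. So (number of bad pieces of `k`) `· a G/h ≤ ∑_{x<L} psi (ux ..)`; sum over
`k ∈ 𝒦`: (number of bad pieces) `· a G/h ≤ a nsl |𝒦|/(1000 h)`, i.e. number of bad pieces `≤ nsl |𝒦|/(1000 G)`; each
has `G` slots `s` (`s / G = p`, `s < nsl = G npc` iff `p < npc`).
(4) `c p ≤ (y1 - y0)/(a u2 b)` since `Y` is monotone and the column is `≤ L` by (1), (2); `y1 - y0 = slo · (L b)`,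
`slo ≤ 4 u2/u1 ≤ 4 u2`, so `c p ≤ 4 u2 L b/(a u2 b) ≤ 4 L`. Monotone: `Nat.div_le_div_right`, `Y` monotone.
`y0 + B c(np) ≤ y0 + (Y(..) - y0) = Y (..) ≤ y1`.
-/

namespace Pool.Agent.Lib.HBP

open Finset

private theorem ub_psi_nonneg (u : ℝ) : 0 ≤ psi u := by
  unfold psi
  exact div_nonneg (sq_nonneg _) (le_max_of_le_left zero_le_one)

private theorem ub_h_pos {h h' K2 G a L J0 Q : ℕ} (P : Par h h' K2 G a L J0 Q) : 1 ≤ h := by
  rw [P.hh]
  have h1 : 1 ≤ h' := by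
    have := P.hG
    have := P.Gpos
    omega
  exact Nat.mul_pos P.K2pos h1

private theorem ub_Q_big {h h' K2 G a L J0 Q : ℕ} (P : Par h h' K2 G a L J0 Q) :
    10 ^ 60 * h ^ 4 * 4 ^ J0 ≤ Q := by
  refine le_trans ?_ P.hQ
  have h1 : 1 ≤ G * K2 := Nat.mul_pos P.Gpos P.K2pos
  calc 10 ^ 60 * h ^ 4 * 4 ^ J0 = 10 ^ 60 * h ^ 4 * 4 ^ J0 * 1 := (Nat.mul_one _).symm
    _ ≤ 10 ^ 60 * h ^ 4 * 4 ^ J0 * (G * K2) := Nat.mul_le_mul_left _ h1
    _ = 10 ^ 60 * h ^ 4 * G * K2 * 4 ^ J0 := by ring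

private theorem ub_Q_pos {h h' K2 G a L J0 Q : ℕ} (P : Par h h' K2 G a L J0 Q) : 1 ≤ Q := by
  have h1 := ub_h_pos P
  refine le_trans (Nat.succ_le_of_lt ?_) (ub_Q_big P)
  positivity

private theorem ub_a_pos {h h' K2 G a L J0 Q : ℕ} (P : Par h h' K2 G a L J0 Q) : 1 ≤ a :=
  le_trans (Nat.one_le_pow _ _ (ub_Q_pos P)) P.ha

private theorem ub_a32 {h h' K2 G a L J0 Q : ℕ} (P : Par h h' K2 G a L J0 Q) :
    ∃ m, a = 32 * m := by
  obtain ⟨c, hc⟩ := P.hdiv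
  exact ⟨4 ^ J0 * c, by rw [hc]; ring⟩

private theorem ub_u {u1 u2 J0 : ℕ} (hc : Cls u1 u2 J0) :
    1 ≤ u1 ∧ 1 ≤ u2 ∧ u1 * u2 ≤ 4 ^ J0 := by
  obtain ⟨i, hi, h⟩ := hc.pow
  have h1 : 0 < u1 * u2 := by rw [h]; positivity
  refine ⟨Nat.pos_of_mul_pos_right h1, Nat.pos_of_mul_pos_left h1, ?_⟩
  rw [h]
  exact Nat.pow_le_pow_right (by norm_num) hi

theorem ulst {h h' K2 G a L J0 Q : ℕ} (P : Par h h' K2 G a L J0 Q) {lamh : ℝ} (hl : lamh ≤ 4) :
    lst h a lamh ≤ Mh h a := by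
  obtain ⟨m, hm⟩ := ub_a32 P
  have hM : Mh h a = 16 * (m * h ^ 2) := by
    unfold Mh
    rw [hm]
    have : h ^ 2 * (32 * m) = 2 * (16 * (m * h ^ 2)) := by ring
    rw [this, Nat.mul_div_cancel_left _ (by norm_num)]
  rw [hM]
  unfold lst
  rw [Nat.ceil_le, hm]
  push_cast
  have h1 : (0 : ℝ) ≤ (m : ℝ) * (h : ℝ) ^ 2 := by positivity
  nlinarith [mul_le_mul_of_nonneg_left hl h1]

private theorem ub_Dbig {h h' K2 G a L J0 Q u1 u2 : ℕ} (P : Par h h' K2 G a L J0 Q)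
    (hc : Cls u1 u2 J0) : (u1 * u2 + 3) * (Dh h * a) ≤ L := by
  obtain ⟨-, -, hu⟩ := ub_u hc
  have h1 := ub_h_pos P
  have hQ := ub_Q_big P
  have h4 : 1 ≤ 4 ^ J0 := Nat.one_le_pow _ _ (by norm_num)
  have e1 : (u1 * u2 + 3) * Dh h ≤ Q := by
    refine le_trans ?_ hQ
    unfold Dh
    calc (u1 * u2 + 3) * (10 ^ 26 * h ^ 3) ≤ (4 * 4 ^ J0) * (10 ^ 26 * h ^ 3) :=
          Nat.mul_le_mul_right _ (by omega)
      _ = (4 * 10 ^ 26) * (h ^ 3 * 1) * 4 ^ J0 := by ring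
      _ ≤ 10 ^ 60 * (h ^ 3 * h) * 4 ^ J0 := by
          refine Nat.mul_le_mul_right _ (Nat.mul_le_mul (by norm_num) (Nat.mul_le_mul_left _ h1))
      _ = 10 ^ 60 * h ^ 4 * 4 ^ J0 := by ring
  have e2 : Q ≤ Q ^ 20 := Nat.le_self_pow (by norm_num) Q
  calc (u1 * u2 + 3) * (Dh h * a) = a * ((u1 * u2 + 3) * Dh h) := by ring
    _ ≤ a * Q ^ 20 := Nat.mul_le_mul_left _ (le_trans e1 e2)
    _ ≤ L := P.hL

theorem ulen {h h' K2 G a L J0 Q u1 u2 : ℕ} (P : Par h h' K2 G a L J0 Q) (hc : Cls u1 u2 J0)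
    {l : ℕ} (hl : l ≤ Mh h a) : uX h G a u1 l (npc h G a L u1 u2) ≤ L := by
  obtain ⟨hu1, hu2, -⟩ := ub_u hc
  have h1 := ub_h_pos P
  have ha := ub_a_pos P
  have hD := ub_Dbig P hc
  have hDpos : 0 < Dh h * a := by
    unfold Dh
    positivity
  have hT : u1 * u2 + 3 ≤ L / (Dh h * a) := (Nat.le_div_iff_mul_le hDpos).2 hD
  have hl2 : 2 * l ≤ h ^ 2 * a := by
    unfold Mh at hl
    omega
  have e1 : 16 * u1 * l ≤ (u1 * u2 + 3) * (Dh h * a) := by
    calc 16 * u1 * l = 8 * u1 * (2 * l) := by ring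
      _ ≤ 8 * u1 * (h ^ 2 * a) := Nat.mul_le_mul_left _ hl2
      _ = (u1 * 1) * (8 * (h ^ 2 * 1) * a) := by ring
      _ ≤ (u1 * u2 + 3) * (10 ^ 26 * (h ^ 2 * h) * a) := by
          refine Nat.mul_le_mul ?_ (Nat.mul_le_mul_right _ (Nat.mul_le_mul (by norm_num)
            (Nat.mul_le_mul_left _ h1)))
          have := Nat.mul_le_mul_left u1 hu2
          omega
      _ = (u1 * u2 + 3) * (Dh h * a) := by
          unfold Dh
          ring
  have e2 : npc h G a L u1 u2 * G ≤ L / (Dh h * a) - (u1 * u2 + 3) := by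
    unfold npc
    exact Nat.div_mul_le_self _ _
  unfold uX
  calc npc h G a L u1 u2 * (G * Dh h * a) + 16 * u1 * l
      = (npc h G a L u1 u2 * G) * (Dh h * a) + 16 * u1 * l := by ring
    _ ≤ (L / (Dh h * a) - (u1 * u2 + 3)) * (Dh h * a) + (u1 * u2 + 3) * (Dh h * a) :=
        Nat.add_le_add (Nat.mul_le_mul_right _ e2) e1
    _ = (L / (Dh h * a)) * (Dh h * a) := by
        rw [← Nat.add_mul, Nat.sub_add_cancel hT]
    _ ≤ L := Nat.div_mul_le_self _ _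

private theorem ub_uX_mono {h G a u1 l p p' : ℕ} (hp : p ≤ p') :
    uX h G a u1 l p ≤ uX h G a u1 l p' := by
  unfold uX
  exact Nat.add_le_add_right (Nat.mul_le_mul_right _ hp) _

/-- the height at the end of piece `p` is at most the height of the end of the block -/
private theorem ub_Y {h h' K2 G a L J0 Q u1 u2 : ℕ} (P : Par h h' K2 G a L J0 Q)
    (hc : Cls u1 u2 J0) {b : ℕ} (Y : ℕ → ℕ) (hY : Monotone Y) (k : ℕ)
    (hl2 : slo Y (L * b) k * u1 / u2 ≤ 4) {p : ℕ} (hp : p ≤ npc h G a L u1 u2) :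
    Y ((k * L + uX h G a u1 (lst h a (slo Y (L * b) k * u1 / u2)) p) * b) ≤
      Y ((k + 1) * (L * b)) := by
  refine hY ?_
  have h1 := le_trans (ub_uX_mono (h := h) (G := G) (a := a) (u1 := u1)
    (l := lst h a (slo Y (L * b) k * u1 / u2)) hp) (ulen P hc (ulst P hl2))
  calc (k * L + uX h G a u1 (lst h a (slo Y (L * b) k * u1 / u2)) p) * b ≤ (k * L + L) * b :=
        Nat.mul_le_mul_right _ (Nat.add_le_add_left h1 _)
    _ = (k + 1) * (L * b) := by ring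

private theorem ub_Y0 {b L : ℕ} (Y : ℕ → ℕ) (hY : Monotone Y) (k X : ℕ) :
    Y (k * (L * b)) ≤ Y ((k * L + X) * b) := by
  refine hY ?_
  calc k * (L * b) = k * L * b := by ring
    _ ≤ (k * L + X) * b := Nat.mul_le_mul_right _ (Nat.le_add_right _ _)

theorem ucode_c {h h' K2 G a L J0 Q u1 u2 : ℕ} (P : Par h h' K2 G a L J0 Q) (hc : Cls u1 u2 J0)
    {b : ℕ} (hb : 1 ≤ b) (Y ta : ℕ → ℕ) (hY : Monotone Y) (k : ℕ)
    (hl2 : slo Y (L * b) k * u1 / u2 ≤ 4) (p : ℕ) :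
    (ucode h a u1 u2 G L b Y ta k).c p ≤ 4 * L := by
  unfold ucode
  simp only
  split_ifs with hp
  swap
  · exact Nat.zero_le _
  obtain ⟨hu1, hu2, -⟩ := ub_u hc
  have ha := ub_a_pos P
  have h1 := ub_Y P hc Y hY k hl2 hp
  have hLpos : 0 < L := by
    have := P.hL
    have h2 : 0 < a * Q ^ 20 := Nat.mul_pos ha (Nat.pow_pos (ub_Q_pos P))
    omega
  have hy : Y (k * (L * b)) ≤ Y ((k + 1) * (L * b)) := hY (Nat.mul_le_mul_right _ (Nat.le_succ _))
  -- the slope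
  have h3 : Y ((k + 1) * (L * b)) - Y (k * (L * b)) ≤ 4 * u2 * (L * b) := by
    have hLb : (0 : ℝ) < ((L * b : ℕ) : ℝ) := by exact_mod_cast Nat.mul_pos hLpos hb
    have hu2' : (0 : ℝ) < u2 := by exact_mod_cast hu2
    have hu1' : (1 : ℝ) ≤ u1 := by exact_mod_cast hu1
    have hs0 : 0 ≤ slo Y (L * b) k := by
      unfold slo
      refine div_nonneg ?_ hLb.le
      have : (Y (k * (L * b)) : ℝ) ≤ Y ((k + 1) * (L * b)) := by exact_mod_cast hy
      linarith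
    rw [div_le_iff₀ hu2'] at hl2
    have h4 : slo Y (L * b) k ≤ 4 * u2 := by nlinarith
    unfold slo at h4
    rw [div_le_iff₀ hLb] at h4
    have h5 : ((Y ((k + 1) * (L * b)) - Y (k * (L * b)) : ℕ) : ℝ) ≤ ((4 * u2 * (L * b) : ℕ) : ℝ) := by
      rw [Nat.cast_sub hy]
      push_cast at h4 ⊢
      exact h4
    exact_mod_cast h5
  refine Nat.div_le_of_le_mul ?_
  calc Y ((k * L + uX h G a u1 (lst h a (slo Y (L * b) k * u1 / u2)) p) * b) - Y (k * (L * b))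
      ≤ Y ((k + 1) * (L * b)) - Y (k * (L * b)) := Nat.sub_le_sub_right h1 _
    _ ≤ 4 * u2 * (L * b) := h3
    _ = 1 * (u2 * b * (4 * L)) := by ring
    _ ≤ a * (u2 * b * (4 * L)) := Nat.mul_le_mul_right _ ha
    _ = a * u2 * b * (4 * L) := by ring

theorem ucode_ok1 {h h' K2 G a L J0 Q u1 u2 : ℕ} (P : Par h h' K2 G a L J0 Q) (hc : Cls u1 u2 J0)
    {b : ℕ} (hb : 1 ≤ b) (Y ta : ℕ → ℕ) (hY : Monotone Y) (k : ℕ)
    (hl2 : slo Y (L * b) k * u1 / u2 ≤ 4) :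
    (∀ p < npc h G a L u1 u2, (ucode h a u1 u2 G L b Y ta k).c p ≤
      (ucode h a u1 u2 G L b Y ta k).c (p + 1)) ∧
    (ucode h a u1 u2 G L b Y ta k).y0 +
      a * u2 * b * (ucode h a u1 u2 G L b Y ta k).c (npc h G a L u1 u2) ≤
      (ucode h a u1 u2 G L b Y ta k).y1 := by
  constructor
  · intro p hp
    unfold ucode
    simp only
    rw [if_pos hp.le, if_pos (Nat.succ_le_of_lt hp)]
    refine Nat.div_le_div_right (Nat.sub_le_sub_right (hY ?_) _)
    exact Nat.mul_le_mul_right _ (Nat.add_le_add_left (ub_uX_mono (Nat.le_succ p)) _)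
  · unfold ucode
    simp only
    rw [if_pos le_rfl]
    have h1 := ub_Y P hc Y hY k hl2 (p := npc h G a L u1 u2) le_rfl
    have h2 := ub_Y0 (b := b) (L := L) Y hY k
      (uX h G a u1 (lst h a (slo Y (L * b) k * u1 / u2)) (npc h G a L u1 u2))
    have h3 := Nat.mul_div_le
      (Y ((k * L + uX h G a u1 (lst h a (slo Y (L * b) k * u1 / u2)) (npc h G a L u1 u2)) * b) -
        Y (k * (L * b))) (a * u2 * b)
    omega

private theorem ub_sum_div (G n : ℕ) (hG : 1 ≤ G) (f : ℕ → ℝ) :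
    ∑ s ∈ range (G * n), f (s / G) = G * ∑ p ∈ range n, f p := by
  induction n with
  | zero => simp
  | succ n ih =>
    rw [Nat.mul_succ, Finset.sum_range_add, ih, Finset.sum_range_succ, mul_add]
    congr 1
    rw [Finset.sum_congr rfl (g := fun _ => f n)]
    · rw [Finset.sum_const, Finset.card_range, nsmul_eq_mul]
    · intro i hi
      rw [Finset.mem_range] at hi
      congr 1
      rw [Nat.mul_add_div hG, Nat.div_eq_of_lt hi, Nat.add_zero]

private theorem ub_sum_Ico (X : ℕ → ℕ) (hX : Monotone X) (f : ℕ → ℝ) (n : ℕ) :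
    ∑ p ∈ range n, ∑ x ∈ Finset.Ico (X p) (X (p + 1)), f x = ∑ x ∈ Finset.Ico (X 0) (X n), f x := by
  induction n with
  | zero => simp
  | succ n ih =>
    rw [Finset.sum_range_succ, ih]
    exact Finset.sum_Ico_consecutive f (hX (Nat.zero_le n)) (hX (Nat.le_succ n))

theorem ubad {h h' K2 G a L J0 Q u1 u2 : ℕ} (P : Par h h' K2 G a L J0 Q) (hc : Cls u1 u2 J0)
    {b : ℕ} (hb : 1 ≤ b) (Y ta : ℕ → ℕ) (hY : Monotone Y) (𝒦 : Finset ℕ)
    (hl2 : ∀ k ∈ 𝒦, slo Y (L * b) k * u1 / u2 ≤ 4)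
    (hE : ∑ k ∈ 𝒦, ∑ x ∈ range L, psi (ux Y ta L b k x) ≤ a * nsl h G a L u1 u2 * 𝒦.card / (1000 * h)) :
    1000 * ((𝒦 ×ˢ range (nsl h G a L u1 u2)).filter
      fun q => (ucode h a u1 u2 G L b Y ta q.1).g (q.2 / G) = false).card ≤
      nsl h G a L u1 u2 * 𝒦.card := by
  have hh : (0 : ℝ) < h := by exact_mod_cast ub_h_pos P
  have ha : (0 : ℝ) < a := by exact_mod_cast ub_a_pos P
  have hG : (0 : ℝ) < G := by exact_mod_cast P.Gpos
  have hnsl : nsl h G a L u1 u2 = G * npc h G a L u1 u2 := rfl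
  -- energy of a piece
  set S : ℕ → ℕ → ℝ := fun k p =>
    ∑ x ∈ Finset.Ico (uX h G a u1 (lst h a (slo Y (L * b) k * u1 / u2)) p)
      (uX h G a u1 (lst h a (slo Y (L * b) k * u1 / u2)) (p + 1)), psi (ux Y ta L b k x) with hS
  have hS0 : ∀ k p, 0 ≤ S k p := fun k p => Finset.sum_nonneg fun x _ => ub_psi_nonneg _
  have hbad : ∀ k s, s < nsl h G a L u1 u2 →
      (ucode h a u1 u2 G L b Y ta k).g (s / G) = false → (a * G : ℝ) / h < S k (s / G) := by
    intro k s hs hg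
    unfold ucode at hg
    simp only at hg
    rw [decide_eq_false_iff_not] at hg
    have h1 : s / G < npc h G a L u1 u2 := by
      rw [hnsl] at hs
      exact Nat.div_lt_of_lt_mul hs
    by_contra hcon
    exact hg ⟨h1, not_lt.1 hcon⟩
  have hk : ∀ k ∈ 𝒦, ∑ s ∈ range (nsl h G a L u1 u2),
      (if (ucode h a u1 u2 G L b Y ta k).g (s / G) = false then (1 : ℝ) else 0) * (a / h) ≤
      ∑ x ∈ range L, psi (ux Y ta L b k x) := by
    intro k hk
    calc ∑ s ∈ range (nsl h G a L u1 u2),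
        (if (ucode h a u1 u2 G L b Y ta k).g (s / G) = false then (1 : ℝ) else 0) * (a / h)
        ≤ ∑ s ∈ range (nsl h G a L u1 u2), 1 / G * S k (s / G) := by
          refine Finset.sum_le_sum fun s hs => ?_
          split_ifs with hg
          · have h1 := hbad k s (mem_range.1 hs) hg
            have h2 : (1 : ℝ) * (a / h) = 1 / G * ((a * G : ℝ) / h) := by
              field_simp
            rw [h2]
            exact mul_le_mul_of_nonneg_left h1.le (by positivity)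
          · rw [zero_mul]
            exact mul_nonneg (by positivity) (hS0 k _)
      _ = ∑ p ∈ range (npc h G a L u1 u2), S k p := by
          rw [hnsl, ← Finset.mul_sum, ub_sum_div G _ P.Gpos (fun p => S k p)]
          field_simp
      _ = ∑ x ∈ Finset.Ico (uX h G a u1 (lst h a (slo Y (L * b) k * u1 / u2)) 0)
          (uX h G a u1 (lst h a (slo Y (L * b) k * u1 / u2)) (npc h G a L u1 u2)),
            psi (ux Y ta L b k x) :=
          ub_sum_Ico _ (fun p p' hp => ub_uX_mono hp) _ _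
      _ ≤ ∑ x ∈ range L, psi (ux Y ta L b k x) := by
          refine Finset.sum_le_sum_of_subset_of_nonneg ?_ fun x _ _ => ub_psi_nonneg _
          intro x hx
          rw [Finset.mem_Ico] at hx
          rw [Finset.mem_range]
          exact lt_of_lt_of_le hx.2 (ulen P hc (ulst P (hl2 k hk)))
  set F := (𝒦 ×ˢ range (nsl h G a L u1 u2)).filter
      fun q => (ucode h a u1 u2 G L b Y ta q.1).g (q.2 / G) = false with hF
  have hcard : (F.card : ℝ) * (a / h) ≤ a * nsl h G a L u1 u2 * 𝒦.card / (1000 * h) := by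
    calc (F.card : ℝ) * (a / h) = ∑ k ∈ 𝒦, ∑ s ∈ range (nsl h G a L u1 u2),
        (if (ucode h a u1 u2 G L b Y ta k).g (s / G) = false then (1 : ℝ) else 0) * (a / h) := by
          rw [hF, Finset.card_eq_sum_ones, Finset.sum_filter, ← Finset.sum_product',
            ← Finset.sum_mul]
          push_cast
          rfl
      _ ≤ ∑ k ∈ 𝒦, ∑ x ∈ range L, psi (ux Y ta L b k x) := Finset.sum_le_sum hk
      _ ≤ _ := hE
  have h1 : (1000 : ℝ) * F.card ≤ nsl h G a L u1 u2 * 𝒦.card := by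
    have h2 : (a : ℝ) * nsl h G a L u1 u2 * 𝒦.card / (1000 * h) =
        (nsl h G a L u1 u2 * 𝒦.card / 1000) * (a / h) := by
      field_simp
    rw [h2] at hcard
    have h3 := le_of_mul_le_mul_right hcard (div_pos ha hh)
    linarith
  exact_mod_cast h1

end Pool.Agent.Lib.HBP
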