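import Mathlib
import Pool.Agent.Lib.HBP.UCode

/-!
# Project HBP, module UPred: the energy bounds the deviation from the straight line; prediction of the folds

STATEMENTS
(1) `psi_dev`: `A` nondecreasing, `u x = du A b lam x = (A (x+1) - A x)/(b lam) ≥ 0`, energy
`∑ psi (u x) ≤ E` over `W` consecutive children starting at `X0`. Then
`|A x - A X0 - (x - X0) b lam| ≤ b lam (E + √(E W))` for `X0 ≤ x ≤ X0 + W`.
(2) `upred`: in a good piece the fold `wst` is predicted by `pW` up to `w0 / 4`.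
(3) `uslope`: in a good piece `1/16 ≤ 1/u2 + (c (p+1) - c p)/(G D)`.

PROOF of (1). `psi u = (u-1)^2/max 1 u`, so `|u - 1| = √(psi u) √(max 1 u)` and `max 1 u ≤ 1 + |u - 1|`.
Let `S = ∑_{X0 ≤ x < X0+W} |u x - 1|`. Cauchy-Schwarz: `S^2 ≤ (∑ psi) (∑ max 1 u) ≤ E (W + S)`, hence
`S ≤ E + √(E W)` (otherwise `S = E + √(EW) + d`, `d > 0`: `S^2 - E S = S (S - E) ≥ (√(EW) + d)^2 > E W`; note
`E ≥ 0` because `psi ≥ 0`). Finally `A x - A X0 - (x - X0) b lam = b lam ∑_{X0 ≤ y < x} (u y - 1)`.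

PROOF of (2). Put `W = G D a` (`D = Dh h = 10^26 h^3`), `l = lst ..`, `p = s / G`, `B = a u2 b`,
`A x = Y ((k L + x) b)`, `lam = slo Y (L b) k`, `X = uX .. l p`, so `uX .. l (p+1) = X + W`.
`ux Y ta L b k x = du A b lam x` (the constant `ta k (L b)` cancels). The column of the fold is
`x = arcA .. s l = (s D + m) a + oA s + 16 u1 l = X + ((s % G) D + m) a + oA s` with `m = pos k s < D / 2`,
and `X ≤ x ≤ X + W`, because `s % G ≤ G - 1` and `m a + oA s ≤ D a / 2 + 34 h^2 a + 2 u1 u2 + 1 ≤ D a`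
(`2 (s % (u1 u2)) ≤ 2 u1 u2 ≤ 2 · 4^J0 ≤ a`, `h ≥ 1`). Energy `E = a G / h`:
`E + √(E W) = a G / h + √(10^26 a^2 G^2 h^2) = a G / h + 10^13 a G h ≤ 2 · 10^13 a G h =: S0`.
By (1) `A x`, `A (X + W)` are `A X + (x - X) b lam`, `A X + W b lam` up to `b lam S0` each, hence
`|A x - A X - (x - X)/W (A (X+W) - A X)| ≤ 2 b lam S0`. Also `0 ≤ (A X - y0)/B - c p < 1` (floor of a
quotient of naturals; `A X ≥ y0` by monotonicity), same at `X + W`; so the interpolation of the exact values differs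
from the interpolation of `y0/B + c` by at most `1`. All other terms of `wst` and `pW` are equal
(`arcB .. s l = (s D + m) a + oB s + 2 u2 Nl h a l`, `ta k (L b)/B = ta k L/(a u2)`). Total
`|wst - pW| ≤ 2 b lam S0/B + 1 = 2 (lam/u2) S0 / a + 1 ≤ 8 · 2 · 10^13 G h + 1 ≤ 10^15 G h / 4`, because
`lam/u2 ≤ 4/u1 ≤ 4`.

PROOF of (3). If `u2 = 1` then `1/u2 = 1` and `c (p+1) ≥ c p`. Otherwise `u1 = 1` (Cls), `lam / u2 ≥ 1/4`;
`A (X+W) - A X ≥ b lam (W - S0) ≥ b lam W / 2` (`S0 = 2 · 10^13 a G h ≤ W/2`), so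
`c (p+1) - c p ≥ (A (X+W) - A X)/B - 1 ≥ (lam/u2) G D / 2 - 1 ≥ G D/8 - 1 ≥ G D/16`.
-/

namespace Pool.Agent.Lib.HBP

open Finset

private lemma upred_tel (A : ℕ → ℕ) {b : ℕ} {lam : ℝ} (hbl : (b : ℝ) * lam ≠ 0) (X0 : ℕ) :
    ∀ x, X0 ≤ x → (A x : ℝ) - A X0 - ((x : ℝ) - X0) * (b * lam) =
      b * lam * ∑ y ∈ Finset.Ico X0 x, (du A b lam y - 1) := by
  intro x hx
  induction x, hx using Nat.le_induction with
  | base => simp
  | succ n hn ih =>
    rw [Finset.sum_Ico_succ_top hn, mul_add, ← ih]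
    unfold du
    rw [mul_sub, mul_div_cancel₀ _ hbl]
    push_cast
    ring

theorem psi_dev {A : ℕ → ℕ} (hA : Monotone A) {b : ℕ} (hb : 1 ≤ b) {lam : ℝ} (hlam : 0 < lam)
    (X0 W : ℕ) {E : ℝ} (hE : ∑ x ∈ Finset.Ico X0 (X0 + W), psi (du A b lam x) ≤ E) {x : ℕ}
    (hx0 : X0 ≤ x) (hx1 : x ≤ X0 + W) :
    |(A x : ℝ) - A X0 - ((x : ℝ) - X0) * (b * lam)| ≤ b * lam * (E + √(E * W)) := by
  have hb0 : (0 : ℝ) < b := by exact_mod_cast hb
  have hbl : (0 : ℝ) < b * lam := mul_pos hb0 hlam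
  set S : ℝ := ∑ y ∈ Finset.Ico X0 (X0 + W), |du A b lam y - 1| with hS
  have hS0 : 0 ≤ S := Finset.sum_nonneg fun _ _ => abs_nonneg _
  have hpsi : ∀ u : ℝ, 0 ≤ psi u := by
    intro u
    unfold psi
    positivity
  have hE0 : 0 ≤ E := (Finset.sum_nonneg fun _ _ => hpsi _).trans hE
  have hCS : S ^ 2 ≤ (∑ y ∈ Finset.Ico X0 (X0 + W), psi (du A b lam y)) *
      ∑ y ∈ Finset.Ico X0 (X0 + W), max 1 (du A b lam y) := by
    rw [hS]
    apply Finset.sum_sq_le_sum_mul_sum_of_sq_le_mul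
    · intro i _; exact hpsi _
    · intro i _; positivity
    · intro i _
      rw [sq_abs]
      unfold psi
      have : max 1 (du A b lam i) ≠ 0 := by positivity
      rw [div_mul_cancel₀ _ this]
  have hmax : ∑ y ∈ Finset.Ico X0 (X0 + W), max 1 (du A b lam y) ≤ W + S := by
    have h1 : ∀ y ∈ Finset.Ico X0 (X0 + W), max 1 (du A b lam y) ≤ 1 + |du A b lam y - 1| := by
      intro y _
      apply max_le
      · have := abs_nonneg (du A b lam y - 1)
        linarith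
      · have := le_abs_self (du A b lam y - 1)
        linarith
    refine (Finset.sum_le_sum h1).trans ?_
    rw [Finset.sum_add_distrib, Finset.sum_const, Nat.card_Ico]
    simp [hS]
  have hq : S ^ 2 ≤ E * (W + S) := by
    refine hCS.trans ?_
    apply mul_le_mul hE hmax _ hE0
    exact Finset.sum_nonneg fun _ _ => by positivity
  have hSb : S ≤ E + √(E * W) := by
    by_contra hcon
    push Not at hcon
    have hW : (0 : ℝ) ≤ E * W := by positivity
    have hsq := Real.sq_sqrt hW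
    have hq0 := Real.sqrt_nonneg (E * W)
    set q := √(E * W)
    nlinarith [mul_pos (sub_pos.mpr hcon) (by linarith : (0 : ℝ) < S + q), mul_nonneg hE0 hq0]
  rw [upred_tel A hbl.ne' X0 x hx0, abs_mul, abs_of_pos hbl]
  apply mul_le_mul_of_nonneg_left _ hbl.le
  refine (Finset.abs_sum_le_sum_abs _ _).trans (le_trans ?_ hSb)
  rw [hS]
  apply Finset.sum_le_sum_of_subset_of_nonneg
  · exact Finset.Ico_subset_Ico_right hx1
  · intro _ _ _; exact abs_nonneg _

private lemma upred_par {h h' K2 G a L J0 Q : ℕ} (P : Par h h' K2 G a L J0 Q) :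
    1 ≤ h ∧ 1 ≤ G ∧ 1 ≤ a ∧ 32 * 4 ^ J0 ≤ a := by
  have h1 := P.K2pos
  have h3 := P.Gpos
  have hh' : 1 ≤ h' := le_trans (Nat.mul_pos (by norm_num) h3) P.hG
  have hh : 1 ≤ h := by
    rw [P.hh]
    exact Nat.mul_pos h1 hh'
  have hQ : 1 ≤ Q := by
    refine le_trans ?_ P.hQ
    have : 0 < 10 ^ 60 * h ^ 4 * G * K2 * 4 ^ J0 := by positivity
    exact this
  have ha : 1 ≤ a := le_trans (Nat.one_le_pow _ _ hQ) P.ha
  exact ⟨hh, h3, ha, Nat.le_of_dvd ha P.hdiv⟩

private lemma upred_cls {u1 u2 J0 : ℕ} (hc : Cls u1 u2 J0) :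
    1 ≤ u1 ∧ 1 ≤ u2 ∧ u1 * u2 ≤ 4 ^ J0 := by
  obtain ⟨i, hi, h⟩ := hc.pow
  have hpos : 0 < u1 * u2 := by rw [h]; positivity
  refine ⟨Nat.pos_of_mul_pos_right hpos |> fun _ => ?_, ?_, ?_⟩
  · rcases Nat.eq_zero_or_pos u1 with h0 | h0
    · rw [h0] at hpos; simp at hpos
    · exact h0
  · rcases Nat.eq_zero_or_pos u2 with h0 | h0
    · rw [h0] at hpos; simp at hpos
    · exact h0
  · rw [h]
    exact Nat.pow_le_pow_right (by norm_num) hi

private lemma upred_S0 {h G a : ℕ} (hh : 1 ≤ h) :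
    (a * G : ℝ) / h + √((a * G : ℝ) / h * ((G * Dh h * a : ℕ) : ℝ)) ≤
      2 * 10 ^ 13 * (a * G * h) := by
  have h0 : (1 : ℝ) ≤ h := by exact_mod_cast hh
  have e : (a * G : ℝ) / h * ((G * Dh h * a : ℕ) : ℝ) = (10 ^ 13 * (a * G * h)) ^ 2 := by
    unfold Dh
    push_cast
    field_simp
    ring
  rw [e, Real.sqrt_sq (by positivity)]
  have h1 : (a * G : ℝ) / h ≤ a * G * h := by
    rw [div_le_iff₀ (by positivity)]
    have : (0 : ℝ) ≤ a * G := by positivity
    nlinarith [mul_nonneg this (by nlinarith : (0 : ℝ) ≤ h * h - 1)]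
  have h2 : (0 : ℝ) ≤ a * G * h := by positivity
  linarith

private lemma upred_dev {h G a L u1 u2 : ℕ} (hh : 1 ≤ h) {b : ℕ} (hb : 1 ≤ b) (Y ta : ℕ → ℕ)
    (hY : Monotone Y) (k : ℕ) (hlam : 0 < slo Y (L * b) k) (p : ℕ)
    (hg : (ucode h a u1 u2 G L b Y ta k).g p = true) {x : ℕ}
    (hx0 : uX h G a u1 (lst h a (slo Y (L * b) k * u1 / u2)) p ≤ x)
    (hx1 : x ≤ uX h G a u1 (lst h a (slo Y (L * b) k * u1 / u2)) p + G * Dh h * a) :
    |(Y ((k * L + x) * b) : ℝ) -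
      Y ((k * L + uX h G a u1 (lst h a (slo Y (L * b) k * u1 / u2)) p) * b) -
      ((x : ℝ) - (uX h G a u1 (lst h a (slo Y (L * b) k * u1 / u2)) p : ℕ)) *
        (b * slo Y (L * b) k)| ≤ b * slo Y (L * b) k * (2 * 10 ^ 13 * (a * G * h)) := by
  have hg' := of_decide_eq_true hg
  have hA : Monotone (Ak Y ta L b k) := by
    intro i j hij
    unfold Ak
    apply Nat.add_le_add_right
    exact hY (Nat.mul_le_mul_right _ (Nat.add_le_add_left hij _))
  set l := lst h a (slo Y (L * b) k * u1 / u2) with hl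
  have hX : uX h G a u1 l (p + 1) = uX h G a u1 l p + G * Dh h * a := by
    unfold uX
    ring
  have hE := hg'.2
  rw [hX] at hE
  have hd := psi_dev hA hb hlam (uX h G a u1 l p) (G * Dh h * a)
    (E := (a * G : ℝ) / h) (by simpa only [ux] using hE) hx0 hx1
  have e1 : (Ak Y ta L b k x : ℝ) - Ak Y ta L b k (uX h G a u1 l p) =
      (Y ((k * L + x) * b) : ℝ) - Y ((k * L + uX h G a u1 l p) * b) := by
    unfold Ak
    push_cast
    ring
  rw [e1] at hd
  refine hd.trans ?_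
  have hb0 : (0 : ℝ) ≤ b * slo Y (L * b) k := by positivity
  exact mul_le_mul_of_nonneg_left (upred_S0 hh) hb0

private lemma upred_floor (n B : ℕ) (hB : 0 < B) :
    ((n / B : ℕ) : ℝ) ≤ (n : ℝ) / B ∧ (n : ℝ) / B < ((n / B : ℕ) : ℝ) + 1 := by
  have hB' : (0 : ℝ) < B := by exact_mod_cast hB
  refine ⟨Nat.cast_div_le, ?_⟩
  rw [div_lt_iff₀ hB']
  have h1 := Nat.div_add_mod n B
  have h2 := Nat.mod_lt n hB
  have h3 : n < (n / B + 1) * B := by
    rw [add_mul, one_mul, mul_comm (n / B) B]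
    omega
  exact_mod_cast h3

private lemma upred_c {h G a L u1 u2 : ℕ} (ha : 1 ≤ a) (hu2 : 1 ≤ u2) {b : ℕ} (hb : 1 ≤ b)
    (Y ta : ℕ → ℕ) (hY : Monotone Y) (k q : ℕ) (hq : q ≤ npc h G a L u1 u2) :
    ((ucode h a u1 u2 G L b Y ta k).c q : ℝ) ≤
      ((Y ((k * L + uX h G a u1 (lst h a (slo Y (L * b) k * u1 / u2)) q) * b) : ℝ) -
        Y (k * (L * b))) / (a * u2 * b) ∧
    ((Y ((k * L + uX h G a u1 (lst h a (slo Y (L * b) k * u1 / u2)) q) * b) : ℝ) -
        Y (k * (L * b))) / (a * u2 * b) < ((ucode h a u1 u2 G L b Y ta k).c q : ℝ) + 1 := by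
  have hle : Y (k * (L * b)) ≤
      Y ((k * L + uX h G a u1 (lst h a (slo Y (L * b) k * u1 / u2)) q) * b) := by
    apply hY
    rw [add_mul, mul_assoc]
    exact Nat.le_add_right _ _
  have hB : 0 < a * u2 * b := by positivity
  have e : (ucode h a u1 u2 G L b Y ta k).c q =
      (Y ((k * L + uX h G a u1 (lst h a (slo Y (L * b) k * u1 / u2)) q) * b) -
        Y (k * (L * b))) / (a * u2 * b) := by
    unfold ucode
    dsimp only
    rw [if_pos hq]
  rw [e]
  have := upred_floor (Y ((k * L + uX h G a u1 (lst h a (slo Y (L * b) k * u1 / u2)) q) * b) -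
        Y (k * (L * b))) (a * u2 * b) hB
  rw [Nat.cast_sub hle] at this
  push_cast at this ⊢
  exact this

theorem upred {h h' K2 G a L J0 Q u1 u2 : ℕ} (P : Par h h' K2 G a L J0 Q) (hc : Cls u1 u2 J0)
    {b : ℕ} (hb : 1 ≤ b) (Y ta : ℕ → ℕ) (hY : Monotone Y) (k : ℕ)
    (hl1 : 1 / 4 ≤ slo Y (L * b) k * u1 / u2) (hl2 : slo Y (L * b) k * u1 / u2 ≤ 4)
    (pos : ℕ → ℕ → ℕ) (s : ℕ) (hs : s < nsl h G a L u1 u2) (hpos : pos k s < Dh h / 2)
    (hg : (ucode h a u1 u2 G L b Y ta k).g (s / G) = true) :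
    |wst h a u1 u2 L b Y ta pos k s -
      pW h a u1 u2 G L b (ucode h a u1 u2 G L b Y ta k) (ta k) s (pos k s)| ≤ (w0 G h : ℝ) / 4 := by
  obtain ⟨hh, hG, ha, h4⟩ := upred_par P
  obtain ⟨hu1, hu2, h12⟩ := upred_cls hc
  have hu1' : (1 : ℝ) ≤ u1 := by exact_mod_cast hu1
  have hu2' : (1 : ℝ) ≤ u2 := by exact_mod_cast hu2
  have ha' : (1 : ℝ) ≤ a := by exact_mod_cast ha
  have hb' : (1 : ℝ) ≤ b := by exact_mod_cast hb
  have hG' : (1 : ℝ) ≤ G := by exact_mod_cast hG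
  have hh' : (1 : ℝ) ≤ h := by exact_mod_cast hh
  have hlam : 0 < slo Y (L * b) k := by
    by_contra hcon
    push Not at hcon
    have : slo Y (L * b) k * u1 / u2 ≤ 0 :=
      div_nonpos_of_nonpos_of_nonneg (mul_nonpos_of_nonpos_of_nonneg hcon (by positivity))
        (by positivity)
    linarith
  have hlu : slo Y (L * b) k / u2 ≤ 4 := by
    refine le_trans ?_ hl2
    apply div_le_div_of_nonneg_right _ (by positivity)
    nlinarith
  have hnsl : nsl h G a L u1 u2 = G * npc h G a L u1 u2 := rfl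
  have hpn : s / G < npc h G a L u1 u2 := by
    rw [hnsl] at hs
    exact Nat.div_lt_of_lt_mul hs
  set l := lst h a (slo Y (L * b) k * u1 / u2) with hl
  obtain ⟨X, hX⟩ : ∃ X, X = uX h G a u1 l (s / G) := ⟨_, rfl⟩
  obtain ⟨W, hW⟩ : ∃ W, W = G * Dh h * a := ⟨_, rfl⟩
  obtain ⟨d, hd⟩ : ∃ d, d = (s % G * Dh h + pos k s) * a + oA h a u1 u2 s := ⟨_, rfl⟩
  have hXW : uX h G a u1 l (s / G + 1) = X + W := by
    rw [hX, hW]
    unfold uX
    ring
  have hx : arcA h a u1 u2 (pos k) s l = X + d := by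
    unfold arcA al
    rw [hX, hd]
    unfold uX oA
    have := Nat.div_add_mod s G
    have e : s * Dh h = s / G * (G * Dh h) + s % G * Dh h := by
      calc s * Dh h = (G * (s / G) + s % G) * Dh h := by rw [this]
        _ = _ := by ring
    rw [e]
    ring
  have hDa : 10 ^ 26 * h ^ 3 * a = Dh h * a := rfl
  have hoA : oA h a u1 u2 s ≤ 35 * h ^ 2 * a := by
    unfold oA
    split_ifs
    · exact Nat.zero_le _
    · have hm : s % (u1 * u2) < u1 * u2 := Nat.mod_lt _ (by positivity)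
      have hq : 1 * a ≤ h ^ 2 * a := Nat.mul_le_mul_right _ (Nat.one_le_pow _ _ hh)
      have : 35 * h ^ 2 * a = 34 * h ^ 2 * a + h ^ 2 * a := by ring
      omega
  have hdW : d ≤ W := by
    rw [hd, hW]
    have hm : s % G + 1 ≤ G := Nat.mod_lt _ hG
    have h1 : (s % G + 1) * (Dh h * a) ≤ G * (Dh h * a) := Nat.mul_le_mul_right _ hm
    have h2 : 2 * pos k s ≤ Dh h := by omega
    have h3 : 2 * pos k s * a ≤ Dh h * a := Nat.mul_le_mul_right _ h2
    have h5 : 70 * h ^ 2 * a ≤ Dh h * a := by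
      apply Nat.mul_le_mul_right
      unfold Dh
      calc 70 * h ^ 2 ≤ 10 ^ 26 * h ^ 2 := Nat.mul_le_mul_right _ (by norm_num)
        _ ≤ 10 ^ 26 * h ^ 3 := Nat.mul_le_mul_left _ (Nat.pow_le_pow_right hh (by norm_num))
    have e1 : (s % G + 1) * (Dh h * a) = s % G * Dh h * a + Dh h * a := by ring
    have e2 : (s % G * Dh h + pos k s) * a = s % G * Dh h * a + pos k s * a := by ring
    have e3 : G * Dh h * a = G * (Dh h * a) := by ring
    have e4 : 2 * pos k s * a = 2 * (pos k s * a) := by ring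
    have e5 : 70 * h ^ 2 * a = 2 * (35 * h ^ 2 * a) := by ring
    rw [e2, e3]
    omega
  have hWpos : (0 : ℝ) < W := by
    have : 0 < W := by
      rw [hW]
      unfold Dh
      positivity
    exact_mod_cast this
  -- deviations
  have dev1 := upred_dev (u1 := u1) (u2 := u2) hh hb Y ta hY k hlam (s / G) hg (x := X + d)
    (by rw [← hl, ← hX]; omega) (by rw [← hl, ← hX, ← hW]; omega)
  have dev2 := upred_dev (u1 := u1) (u2 := u2) hh hb Y ta hY k hlam (s / G) hg (x := X + W)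
    (by rw [← hl, ← hX]; omega) (by rw [← hl, ← hX, ← hW])
  rw [← hl, ← hX] at dev1 dev2
  obtain ⟨c1, c2⟩ := upred_c (u1 := u1) (u2 := u2) ha hu2 hb Y ta hY k (s / G) hpn.le
  obtain ⟨c3, c4⟩ := upred_c (u1 := u1) (u2 := u2) ha hu2 hb Y ta hY k (s / G + 1) hpn
  rw [← hl, ← hX] at c1 c2
  rw [← hl, hXW] at c3 c4
  set c := (ucode h a u1 u2 G L b Y ta k).c (s / G) with hcdef
  set c' := (ucode h a u1 u2 G L b Y ta k).c (s / G + 1) with hcdef'
  set lam := slo Y (L * b) k with hlamdef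
  set y0 : ℝ := (Y (k * (L * b)) : ℝ) with hy0
  set yX : ℝ := (Y ((k * L + X) * b) : ℝ) with hyX
  set yx : ℝ := (Y ((k * L + (X + d)) * b) : ℝ) with hyx
  set yW : ℝ := (Y ((k * L + (X + W)) * b) : ℝ) with hyW
  obtain ⟨B, hB⟩ : ∃ B : ℝ, B = a * u2 * b := ⟨_, rfl⟩
  have hBpos : 0 < B := by rw [hB]; positivity
  obtain ⟨θ, hθ⟩ : ∃ θ : ℝ, θ = (d : ℝ) / W := ⟨_, rfl⟩
  have hθ0 : 0 ≤ θ := by rw [hθ]; positivity
  have hθ1 : θ ≤ 1 := by
    rw [hθ, div_le_one hWpos]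
    exact_mod_cast hdW
  have hθW : θ * W = d := by
    rw [hθ]
    exact div_mul_cancel₀ _ hWpos.ne'
  rw [← hB] at c1 c2 c3 c4
  -- the difference
  have hdiff : wst h a u1 u2 L b Y ta pos k s -
      pW h a u1 u2 G L b (ucode h a u1 u2 G L b Y ta k) (ta k) s (pos k s) =
      (yx - yX - θ * (yW - yX)) / B + (((yX - y0) / B - c) * (1 - θ) +
        ((yW - y0) / B - c') * θ) := by
    have e1 : wst h a u1 u2 L b Y ta pos k s =
        (yx + ta k * (L * b) + ((s * Dh h + pos k s) * a + oB h a u1 u2 s +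
          2 * u2 * Nl h a l : ℕ) * b) / B := by
      unfold wst
      rw [← hlamdef, ← hl, hx, hB]
      unfold Ak arcB be oB
      push_cast
      ring
    have e2 : pW h a u1 u2 G L b (ucode h a u1 u2 G L b Y ta k) (ta k) s (pos k s) =
        y0 / B + c + ((c' : ℝ) - c) * θ + ta k * L / (a * u2) +
          (((s * Dh h + pos k s) * a + oB h a u1 u2 s + 2 * u2 * Nl h a l : ℕ) : ℝ) /
            (a * u2) := by
      unfold pW
      rw [hθ, hd, hW, hB]
      have : (ucode h a u1 u2 G L b Y ta k).l = l := rfl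
      rw [this]
      have : (ucode h a u1 u2 G L b Y ta k).y0 = Y (k * (L * b)) := rfl
      rw [this, ← hcdef, ← hcdef', hy0]
      push_cast
      ring
    rw [e1, e2, hB]
    have hb0 : (b : ℝ) ≠ 0 := by positivity
    have ha0 : (a : ℝ) ≠ 0 := by positivity
    have hu0 : (u2 : ℝ) ≠ 0 := by positivity
    field_simp
    ring
  rw [hdiff]
  have hfl : |(((yX - y0) / B - c) * (1 - θ) + ((yW - y0) / B - c') * θ)| ≤ 1 := by
    rw [abs_of_nonneg]
    · nlinarith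
    · have := mul_nonneg (by linarith : 0 ≤ (yX - y0) / B - c) (by linarith : 0 ≤ 1 - θ)
      have := mul_nonneg (by linarith : 0 ≤ (yW - y0) / B - c') hθ0
      linarith
  obtain ⟨S0, hS0⟩ : ∃ S0 : ℝ, S0 = 2 * 10 ^ 13 * (a * G * h) := ⟨_, rfl⟩
  rw [← hS0] at dev1 dev2
  have hS0pos : 0 ≤ S0 := by rw [hS0]; positivity
  have hdev : |yx - yX - θ * (yW - yX)| ≤ 2 * (b * lam * S0) := by
    have e : yx - yX - θ * (yW - yX) = (yx - yX - (((X + d : ℕ) : ℝ) - (X : ℕ)) * (b * lam)) -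
        θ * (yW - yX - (((X + W : ℕ) : ℝ) - (X : ℕ)) * (b * lam)) := by
      push_cast
      linear_combination (-(b * lam)) * hθW
    rw [e]
    refine (abs_sub _ _).trans ?_
    rw [abs_mul, abs_of_nonneg hθ0]
    have h1 : θ * |yW - yX - (((X + W : ℕ) : ℝ) - (X : ℕ)) * (b * lam)| ≤
        1 * (b * lam * S0) := mul_le_mul hθ1 dev2 (abs_nonneg _) (by norm_num)
    linarith
  have hmain : |(yx - yX - θ * (yW - yX)) / B| ≤ 16 * 10 ^ 13 * (G * h) := by
    rw [abs_div, abs_of_pos hBpos, div_le_iff₀ hBpos]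
    refine hdev.trans ?_
    have hl4 : lam ≤ 4 * u2 := by
      rw [div_le_iff₀ (by positivity)] at hlu
      exact hlu
    rw [hS0, hB]
    have e : 16 * 10 ^ 13 * (G * h) * (a * u2 * b : ℝ) - 2 * (b * lam * (2 * 10 ^ 13 * (a * G * h)))
        = 4 * 10 ^ 13 * (G * h * a * b) * (4 * u2 - lam) := by ring
    have : (0 : ℝ) ≤ 4 * 10 ^ 13 * (G * h * a * b) * (4 * u2 - lam) :=
      mul_nonneg (by positivity) (by linarith)
    linarith
  refine (abs_add_le _ _).trans ?_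
  unfold w0
  push_cast
  have hGh : (1 : ℝ) ≤ G * h := by nlinarith
  linarith

theorem uslope {h h' K2 G a L J0 Q u1 u2 : ℕ} (P : Par h h' K2 G a L J0 Q) (hc : Cls u1 u2 J0)
    {b : ℕ} (hb : 1 ≤ b) (Y ta : ℕ → ℕ) (hY : Monotone Y) (k : ℕ)
    (hl1 : 1 / 4 ≤ slo Y (L * b) k * u1 / u2) (hl2 : slo Y (L * b) k * u1 / u2 ≤ 4)
    (p : ℕ) (hp : p < npc h G a L u1 u2) (hg : (ucode h a u1 u2 G L b Y ta k).g p = true) :
    (1 : ℝ) / 16 ≤ 1 / u2 + (((ucode h a u1 u2 G L b Y ta k).c (p + 1) : ℝ) -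
      (ucode h a u1 u2 G L b Y ta k).c p) / (G * Dh h) := by
  obtain ⟨hh, hG, ha, h4⟩ := upred_par P
  obtain ⟨hu1, hu2, h12⟩ := upred_cls hc
  have hu1' : (1 : ℝ) ≤ u1 := by exact_mod_cast hu1
  have hu2' : (1 : ℝ) ≤ u2 := by exact_mod_cast hu2
  have ha' : (1 : ℝ) ≤ a := by exact_mod_cast ha
  have hb' : (1 : ℝ) ≤ b := by exact_mod_cast hb
  have hG' : (1 : ℝ) ≤ G := by exact_mod_cast hG
  have hh' : (1 : ℝ) ≤ h := by exact_mod_cast hh
  have hh3 : (1 : ℝ) ≤ (h : ℝ) ^ 3 := one_le_pow₀ hh'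
  have hD : ((Dh h : ℕ) : ℝ) = 10 ^ 26 * (h : ℝ) ^ 3 := by
    unfold Dh
    push_cast
    ring
  have hGD : (0 : ℝ) < G * Dh h := by rw [hD]; positivity
  obtain ⟨l, hl⟩ : ∃ l, l = lst h a (slo Y (L * b) k * u1 / u2) := ⟨_, rfl⟩
  obtain ⟨c1, c2⟩ := upred_c (u1 := u1) (u2 := u2) ha hu2 hb Y ta hY k p hp.le
  obtain ⟨c3, c4⟩ := upred_c (u1 := u1) (u2 := u2) ha hu2 hb Y ta hY k (p + 1) hp
  by_cases h21 : u2 = 1
  · have hmono : (ucode h a u1 u2 G L b Y ta k).c p ≤ (ucode h a u1 u2 G L b Y ta k).c (p + 1) := by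
      unfold ucode
      dsimp only
      rw [if_pos hp.le, if_pos (by omega : p + 1 ≤ npc h G a L u1 u2)]
      apply Nat.div_le_div_right
      apply Nat.sub_le_sub_right
      apply hY
      apply Nat.mul_le_mul_right
      apply Nat.add_le_add_left
      unfold uX
      apply Nat.add_le_add_right
      exact Nat.mul_le_mul_right _ (Nat.le_succ _)
    have h1 : (0 : ℝ) ≤ (((ucode h a u1 u2 G L b Y ta k).c (p + 1) : ℝ) -
      (ucode h a u1 u2 G L b Y ta k).c p) / (G * Dh h) := by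
      apply div_nonneg _ hGD.le
      rw [sub_nonneg]
      exact_mod_cast hmono
    rw [h21] at h1 ⊢
    norm_num at h1 ⊢
    linarith
  · have hu1e : u1 = 1 := by
      rcases hc.one with h | h
      · exact h
      · exact absurd h h21
    have hlam4 : (u2 : ℝ) / 4 ≤ slo Y (L * b) k := by
      rw [hu1e] at hl1
      rw [le_div_iff₀ (by positivity)] at hl1
      push_cast at hl1
      linarith
    have hlam : 0 < slo Y (L * b) k := by linarith
    have dev := upred_dev (u1 := u1) (u2 := u2) hh hb Y ta hY k hlam p hg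
      (x := uX h G a u1 l p + G * Dh h * a) (by rw [← hl]; omega) (by rw [← hl])
    have hXW : uX h G a u1 l (p + 1) = uX h G a u1 l p + G * Dh h * a := by
      unfold uX
      ring
    rw [← hl] at dev c1 c2 c3 c4
    rw [hXW] at c3 c4
    set c := (ucode h a u1 u2 G L b Y ta k).c p
    set c' := (ucode h a u1 u2 G L b Y ta k).c (p + 1)
    set lam := slo Y (L * b) k
    set yX : ℝ := (Y ((k * L + uX h G a u1 l p) * b) : ℝ)
    set yW : ℝ := (Y ((k * L + (uX h G a u1 l p + G * Dh h * a)) * b) : ℝ)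
    set y0 : ℝ := (Y (k * (L * b)) : ℝ)
    have hdev := (abs_le.mp dev).1
    have hW : (((uX h G a u1 l p + G * Dh h * a : ℕ) : ℝ) - ((uX h G a u1 l p : ℕ) : ℝ)) =
        G * Dh h * a := by
      push_cast
      ring
    rw [hW] at hdev
    have hB : (0 : ℝ) < a * u2 * b := by positivity
    have h1 : b * lam * (G * Dh h * a / 2) ≤ yW - yX := by
      have h2 : 2 * 10 ^ 13 * (a * G * h : ℝ) ≤ G * Dh h * a / 2 := by
        rw [hD]
        have h3 : (h : ℝ) ≤ (h : ℝ) ^ 3 := by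
          calc (h : ℝ) = (h : ℝ) ^ 1 := by ring
            _ ≤ (h : ℝ) ^ 3 := pow_le_pow_right₀ hh' (by norm_num)
        have h5 : (0 : ℝ) ≤ a * G := by positivity
        have h6 : (a * G : ℝ) * h ≤ a * G * (h : ℝ) ^ 3 := mul_le_mul_of_nonneg_left h3 h5
        have h7 : (0 : ℝ) ≤ a * G * (h : ℝ) ^ 3 := by positivity
        nlinarith
      have h3 : b * lam * (2 * 10 ^ 13 * (a * G * h : ℝ)) ≤ b * lam * (G * Dh h * a / 2) :=
        mul_le_mul_of_nonneg_left h2 (by positivity)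
      linarith
    have h2 : (G * Dh h : ℝ) / 8 ≤ (yW - yX) / (a * u2 * b) := by
      rw [le_div_iff₀ hB]
      refine le_trans ?_ h1
      have e : b * lam * (G * Dh h * a / 2) - (G * Dh h : ℝ) / 8 * (a * u2 * b) =
          (G * Dh h) * a * b / 2 * (lam - u2 / 4) := by ring
      have : 0 ≤ (G * Dh h : ℝ) * a * b / 2 * (lam - u2 / 4) :=
        mul_nonneg (by positivity) (by linarith)
      linarith
    have h3 : (yW - yX) / (a * u2 * b) = (yW - y0) / (a * u2 * b) - (yX - y0) / (a * u2 * b) := by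
      ring
    have h5 : (16 : ℝ) ≤ G * Dh h := by
      rw [hD]
      nlinarith
    have h6 : (1 : ℝ) / 16 ≤ ((c' : ℝ) - c) / (G * Dh h) := by
      rw [le_div_iff₀ hGD]
      linarith
    have h7 : (0 : ℝ) ≤ 1 / u2 := by positivity
    linarith

end Pool.Agent.Lib.HBP
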