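import Mathlib
import Pool.Agent.Lib.HBP.UTail
import Pool.Agent.Lib.HBP.UCode
import Pool.Agent.Lib.HBP.UPred
import Pool.Agent.Lib.HBP.UBad

/-!
# Project HBP, module USel: the selected arcs and the sparse hats

STATEMENT `usel`: `Y` with small energy, `ξ` an array of places for which fewer than `19/100` of all arcs are in
crowded windows (window = predicted window of length `w0`, crowded = at least `2 r = X1` arcs, `r = 5000 G h'`).
Then the arcs in good pieces and uncrowded windows are at least `4/5` of all arcs, and their hats are sparse.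

PROOF. Let `n = nsl ..`, `A = uA .. 𝒦 (ucode ..)`, `win = uwin .. ta (ucode ..)`, `K = Nb n`,
`win k (ξ k)` for `κ = k n + s` is `ω(k,s) := ⌊pW .. (ucode k) (ta k) s (pos k s) / w0⌋` with `pos = upos h Nb n ξ`
(`κ / n = k`, `κ % n = s`, `κ < K` because `k < Nb`, `s < n`).
`sel := (𝒦 ×ˢ range n).filter (good piece ∧ ucnt A win K ξ ω(k,s) < 2 r)`.
SIZE: the complement in `𝒦 ×ˢ range n` is the set of the arcs in bad pieces (`≤ n |𝒦|/1000`, `ubad`) and the arcs in
good pieces with `2 r ≤ ucnt`, injected by `(k,s) ↦ κ` into the set counted by `ucrw` (`< 19/100 |𝒦| n`);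
`1/1000 + 19/100 ≤ 1/5`.
SPARSE: let `z : ℤ`. If `c ∈ hatV` and `z ≤ c < z + w0`, then `c = ⌊wst⌋` or `⌊wst⌋ + 1` of a selected arc, so
`z - 1 ≤ wst < z + w0`, and by `upred` `z - 1 - w0/4 ≤ pW < z + w0 + w0/4`: an interval of length
`3/2 w0 + 1 ≤ 2 w0` (`w0 ≥ 10^15`), which meets at most `3` windows `ω0, ω0+1, ω0+2` with
`ω0 = ⌊(z - 1 - w0/4)/w0⌋`. Each of these windows contains fewer than `2 r = X1` selected arcs: if some selected arc
`(k,s)` has `ω(k,s) = ω`, then all selected arcs with this window are injected in the set counted by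
`ucnt A win K ξ ω < 2 r = 10^4 G h' = X1`. So at most `3 X1` arcs and `6 X1 ≤ 8 X1` points (each arc gives two points).
-/

namespace Pool.Agent.Lib.HBP

open Finset

/-- the floor of the predicted weight is one of three windows -/
private theorem usel_win {w z wst p : ℝ} (hw : 2 ≤ w) (h1 : z - 1 ≤ wst) (h2 : wst < z + w)
    (h3 : |wst - p| ≤ w / 4) :
    ⌊p / w⌋ = ⌊(z - 1 - w / 4) / w⌋ ∨ ⌊p / w⌋ = ⌊(z - 1 - w / 4) / w⌋ + 1 ∨
      ⌊p / w⌋ = ⌊(z - 1 - w / 4) / w⌋ + 2 := by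
  have hw0 : 0 < w := by linarith
  obtain ⟨h4, h5⟩ := abs_le.1 h3
  have h6 : ⌊(z - 1 - w / 4) / w⌋ ≤ ⌊p / w⌋ := by
    apply Int.floor_le_floor
    apply div_le_div_of_nonneg_right _ hw0.le
    linarith
  have h7 : ⌊p / w⌋ < ⌊(z - 1 - w / 4) / w⌋ + 3 := by
    rw [Int.floor_lt]
    push_cast
    have h8 := Int.lt_floor_add_one ((z - 1 - w / 4) / w)
    have h9 : p / w < (z - 1 - w / 4) / w + 2 := by
      rw [div_add' _ _ _ hw0.ne']
      apply div_lt_div_of_pos_right _ hw0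
      linarith
    linarith
  omega

private theorem usel_card {n Nb : ℕ} {S : Finset (ℕ × ℕ)}
    (hlt : ∀ q ∈ S, q.1 * n + q.2 < Nb * n)
    (hinj : ∀ q ∈ S, ∀ q' ∈ S, q.1 * n + q.2 = q'.1 * n + q'.2 → q = q')
    (T : Finset (Fin (Nb * n))) (hT : ∀ q, ∀ hq : q ∈ S, (⟨q.1 * n + q.2, hlt q hq⟩ : Fin (Nb * n)) ∈ T) :
    S.card ≤ T.card := by
  calc S.card = (S.image fun q => q.1 * n + q.2).card := by
        rw [Finset.card_image_of_injOn]
        intro q hq q' hq' he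
        exact hinj q hq q' hq' he
    _ ≤ (T.image fun k : Fin (Nb * n) => (k : ℕ)).card := by
        apply Finset.card_le_card
        intro x hx
        rw [Finset.mem_image] at hx ⊢
        obtain ⟨q, hq, rfl⟩ := hx
        exact ⟨_, hT q hq, rfl⟩
    _ ≤ T.card := Finset.card_image_le

private theorem usel_aux {h h' K2 G a L J0 Q u1 u2 : ℕ} (P : Par h h' K2 G a L J0 Q)
    (hc : Cls u1 u2 J0)
    {b Nb : ℕ} (hb : 1 ≤ b) (Y ta : ℕ → ℕ) (hY : Monotone Y) (𝒦 : Finset ℕ) (h𝒦 : 𝒦 ⊆ range Nb)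
    (hsl : ∀ k ∈ 𝒦, 1 / 4 ≤ slo Y (L * b) k * u1 / u2 ∧ slo Y (L * b) k * u1 / u2 ≤ 4)
    (hE : ∑ k ∈ 𝒦, ∑ x ∈ range L, psi (ux Y ta L b k x) ≤ a * nsl h G a L u1 u2 * 𝒦.card / (1000 * h))
    (n : ℕ) (hn : nsl h G a L u1 u2 = n)
    (ξ : Fin (Nb * n) → Fin (Dh h / 2))
    (hcr : (ucrw (uA h a u1 u2 G L 𝒦 (ucode h a u1 u2 G L b Y ta))
      (uwin h a u1 u2 G L b ta (ucode h a u1 u2 G L b Y ta)) (5000 * G * h')
      (Nb * n) ξ : ℝ) < 19 / 100 * (𝒦.card * n : ℕ)) :
    ∃ sel : Finset (ℕ × ℕ), sel ⊆ 𝒦 ×ˢ range n ∧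
      4 * (𝒦.card * n) ≤ 5 * sel.card ∧
      Sparse (hatV h a u1 u2 L b Y ta (upos h Nb n ξ) sel) (w0 G h)
        (8 * X1 G h') := by
  classical
  set U := ucode h a u1 u2 G L b Y ta with hU
  set A := uA h a u1 u2 G L 𝒦 U with hA
  set win := uwin h a u1 u2 G L b ta U with hwin
  set pos := upos h Nb n ξ with hpos
  have hGp := P.Gpos
  have hKp := P.K2pos
  have hhG := P.hG
  have hhK := P.hh
  have hh'1 : 1 ≤ h' := by
    calc 1 ≤ 10 ^ 25 * G := Nat.mul_pos (by positivity) hGp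
      _ ≤ h' := hhG
  have hh1 : 1 ≤ h := by rw [hhK]; exact Nat.mul_pos hKp hh'1
  have hwn : 2 ≤ w0 G h := by
    unfold w0
    calc 2 ≤ 10 ^ 15 * 1 * 1 := by norm_num
      _ ≤ 10 ^ 15 * G * h := by gcongr
  have hwr : (2 : ℝ) ≤ w0 G h := by exact_mod_cast hwn
  -- the numbers of the arcs
  have hlt : ∀ q : ℕ × ℕ, q ∈ 𝒦 ×ˢ range n → q.1 * n + q.2 < Nb * n := by
    rintro ⟨k, s⟩ hq
    rw [Finset.mem_product, Finset.mem_range] at hq
    have h1 : k < Nb := Finset.mem_range.1 (h𝒦 hq.1)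
    have h2 : s < n := hq.2
    calc k * n + s < k * n + n := by omega
      _ = (k + 1) * n := by ring
      _ ≤ Nb * n := Nat.mul_le_mul_right _ h1
  have hposv : ∀ q : ℕ × ℕ, ∀ hq : q ∈ 𝒦 ×ˢ range n,
      pos q.1 q.2 = (ξ ⟨q.1 * n + q.2, hlt q hq⟩ : ℕ) := by
    intro q hq
    rw [hpos]
    unfold upos
    rw [dif_pos (hlt q hq)]
  have hposlt : ∀ q : ℕ × ℕ, q ∈ 𝒦 ×ˢ range n → pos q.1 q.2 < Dh h / 2 := by
    intro q hq
    rw [hposv q hq]
    exact Fin.is_lt _
  set ω : ℕ × ℕ → ℤ := fun q => pwin h a u1 u2 G L b (U q.1) (ta q.1) q.2 (pos q.1 q.2) with hω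
  have hwinv : ∀ q : ℕ × ℕ, ∀ hq : q ∈ 𝒦 ×ˢ range n,
      win (q.1 * n + q.2) (ξ ⟨q.1 * n + q.2, hlt q hq⟩) = ω q := by
    rintro ⟨k, s⟩ hq
    have h2 : s < n := Finset.mem_range.1 (Finset.mem_product.1 hq).2
    have hn0 : 0 < n := by omega
    have hd : (k * n + s) / n = k := by
      rw [mul_comm, Nat.mul_add_div hn0, Nat.div_eq_of_lt h2, add_zero]
    have hm : (k * n + s) % n = s := by
      rw [mul_comm, Nat.mul_add_mod, Nat.mod_eq_of_lt h2]
    have hp := hposv (k, s) hq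
    simp only at hp
    simp only [hwin, hω]
    unfold uwin
    rw [hn, hd, hm, hp]
  have hAmem : ∀ q : ℕ × ℕ, q ∈ 𝒦 ×ˢ range n → (U q.1).g (q.2 / G) = true →
      q.1 * n + q.2 ∈ A := by
    intro q hq hg
    rw [hA]
    unfold uA
    rw [Finset.mem_image, hn]
    exact ⟨q, Finset.mem_filter.2 ⟨hq, hg⟩, rfl⟩
  have hinj : ∀ q : ℕ × ℕ, q ∈ 𝒦 ×ˢ range n → ∀ q' : ℕ × ℕ, q' ∈ 𝒦 ×ˢ range n →
      q.1 * n + q.2 = q'.1 * n + q'.2 → q = q' := by
    rintro ⟨k, s⟩ hq ⟨k', s'⟩ hq' he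
    have h2 : s < n := Finset.mem_range.1 (Finset.mem_product.1 hq).2
    have h2' : s' < n := Finset.mem_range.1 (Finset.mem_product.1 hq').2
    have hn0 : 0 < n := by omega
    simp only at he
    have hd : (k * n + s) / n = k := by
      rw [mul_comm, Nat.mul_add_div hn0, Nat.div_eq_of_lt h2, add_zero]
    have hd' : (k' * n + s') / n = k' := by
      rw [mul_comm, Nat.mul_add_div hn0, Nat.div_eq_of_lt h2', add_zero]
    have hk : k = k' := by rw [← hd, ← hd', he]
    subst hk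
    have hs : s = s' := by omega
    rw [hs]
  -- the selected arcs
  set sel : Finset (ℕ × ℕ) := (𝒦 ×ˢ range n).filter (fun q => (U q.1).g (q.2 / G) = true ∧
    ucnt A win (Nb * n) ξ (ω q) < 2 * (5000 * G * h')) with hsel
  refine ⟨sel, Finset.filter_subset _ _, ?_, ?_⟩
  · -- size
    have hb1 := ubad P hc hb Y ta hY 𝒦 (fun k hk => (hsl k hk).2) hE
    rw [hn, ← hU] at hb1
    set B1 := (𝒦 ×ˢ range n).filter (fun q => (U q.1).g (q.2 / G) = false) with hB1
    set B2 := (𝒦 ×ˢ range n).filter (fun q => (U q.1).g (q.2 / G) = true ∧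
      2 * (5000 * G * h') ≤ ucnt A win (Nb * n) ξ (ω q)) with hB2
    have hcov : 𝒦 ×ˢ range n ⊆ sel ∪ (B1 ∪ B2) := by
      intro q hq
      rw [Finset.mem_union, Finset.mem_union]
      cases hg : (U q.1).g (q.2 / G) with
      | false => exact Or.inr (Or.inl (Finset.mem_filter.2 ⟨hq, hg⟩))
      | true =>
        by_cases hu : ucnt A win (Nb * n) ξ (ω q) < 2 * (5000 * G * h')
        · exact Or.inl (Finset.mem_filter.2 ⟨hq, hg, hu⟩)
        · exact Or.inr (Or.inr (Finset.mem_filter.2 ⟨hq, hg, not_lt.1 hu⟩))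
    have hcard : 𝒦.card * n ≤ sel.card + (B1.card + B2.card) := by
      have h1 := Finset.card_le_card hcov
      rw [Finset.card_product, Finset.card_range] at h1
      have h2 := Finset.card_union_le sel (B1 ∪ B2)
      have h3 := Finset.card_union_le B1 B2
      omega
    have hB2s : ∀ q ∈ B2, q ∈ 𝒦 ×ˢ range n := fun q hq => (Finset.mem_filter.1 hq).1
    have hB2c : B2.card ≤ ucrw A win (5000 * G * h') (Nb * n) ξ := by
      unfold ucrw
      refine usel_card (fun q hq => hlt q (hB2s q hq))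
        (fun q hq q' hq' => hinj q (hB2s q hq) q' (hB2s q' hq')) _ ?_
      intro q hq
      have hq1 := hB2s q hq
      have hq2 := (Finset.mem_filter.1 hq).2
      rw [Finset.mem_filter]
      refine ⟨Finset.mem_univ _, hAmem q hq1 hq2.1, ?_⟩
      have h4 := hwinv q hq1
      simp only
      rw [h4]
      exact hq2.2
    have h5 : (B2.card : ℝ) < 19 / 100 * (𝒦.card * n : ℕ) :=
      lt_of_le_of_lt (by exact_mod_cast hB2c) hcr
    have h6 : 100 * B2.card < 19 * (𝒦.card * n) := by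
      have h7 : 100 * (B2.card : ℝ) < 19 * ((𝒦.card * n : ℕ) : ℝ) := by linarith
      exact_mod_cast h7
    have h8 : 1000 * B1.card ≤ 𝒦.card * n := by rw [mul_comm 𝒦.card]; exact hb1
    omega
  · -- sparse
    intro z
    have hsels : ∀ q ∈ sel, q ∈ 𝒦 ×ˢ range n := fun q hq => (Finset.mem_filter.1 hq).1
    set ω0 : ℤ := ⌊((z : ℝ) - 1 - (w0 G h : ℝ) / 4) / w0 G h⌋ with hω0
    set S : Finset (ℕ × ℕ) := sel.filter (fun q => ω q = ω0 ∨ ω q = ω0 + 1 ∨ ω q = ω0 + 2) with hS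
    -- every window contains few selected arcs
    have hone : ∀ v : ℤ, (sel.filter (fun q => ω q = v)).card ≤ X1 G h' := by
      intro v
      by_cases he : (sel.filter (fun q => ω q = v)) = ∅
      · rw [he, Finset.card_empty]
        exact Nat.zero_le _
      · obtain ⟨q0, hq0⟩ := Finset.nonempty_iff_ne_empty.2 he
        rw [Finset.mem_filter] at hq0
        have h1 := (Finset.mem_filter.1 hq0.1).2.2
        rw [hq0.2] at h1
        have h2 : (sel.filter (fun q => ω q = v)).card ≤ ucnt A win (Nb * n) ξ v := by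
          have hfs : ∀ q ∈ sel.filter (fun q => ω q = v), q ∈ 𝒦 ×ˢ range n := fun q hq =>
            hsels q (Finset.mem_filter.1 hq).1
          unfold ucnt
          refine usel_card (fun q hq => hlt q (hfs q hq))
            (fun q hq q' hq' => hinj q (hfs q hq) q' (hfs q' hq')) _ ?_
          intro q hq
          have hq1 := hfs q hq
          rw [Finset.mem_filter]
          refine ⟨Finset.mem_univ _, hAmem q hq1 (Finset.mem_filter.1 (Finset.mem_filter.1 hq).1).2.1,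
            ?_⟩
          have h4 := hwinv q hq1
          rw [h4]
          exact (Finset.mem_filter.1 hq).2
        have h3 : 2 * (5000 * G * h') = X1 G h' := by
          unfold X1
          ring
        omega
    have hScard : S.card ≤ 3 * X1 G h' := by
      have h1 : S ⊆ sel.filter (fun q => ω q = ω0) ∪ (sel.filter (fun q => ω q = ω0 + 1) ∪
          sel.filter (fun q => ω q = ω0 + 2)) := by
        intro q hq
        rw [hS, Finset.mem_filter] at hq
        rw [Finset.mem_union, Finset.mem_union]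
        rcases hq.2 with h | h | h
        · exact Or.inl (Finset.mem_filter.2 ⟨hq.1, h⟩)
        · exact Or.inr (Or.inl (Finset.mem_filter.2 ⟨hq.1, h⟩))
        · exact Or.inr (Or.inr (Finset.mem_filter.2 ⟨hq.1, h⟩))
      have h2 := Finset.card_le_card h1
      have h3 := Finset.card_union_le (sel.filter (fun q => ω q = ω0))
        (sel.filter (fun q => ω q = ω0 + 1) ∪ sel.filter (fun q => ω q = ω0 + 2))
      have h4 := Finset.card_union_le (sel.filter (fun q => ω q = ω0 + 1))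
        (sel.filter (fun q => ω q = ω0 + 2))
      have h5 := hone ω0
      have h6 := hone (ω0 + 1)
      have h7 := hone (ω0 + 2)
      omega
    -- the prediction
    have hpred : ∀ q ∈ sel, (z : ℝ) - 1 ≤ wst h a u1 u2 L b Y ta pos q.1 q.2 →
        wst h a u1 u2 L b Y ta pos q.1 q.2 < z + w0 G h → q ∈ S := by
      intro q hq h1 h2
      rw [hS, Finset.mem_filter]
      refine ⟨hq, ?_⟩
      have hq1 := hsels q hq
      have hqk : q.1 ∈ 𝒦 := (Finset.mem_product.1 hq1).1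
      have hqs : q.2 < n := Finset.mem_range.1 (Finset.mem_product.1 hq1).2
      have hp := upred P hc hb Y ta hY q.1 (hsl q.1 hqk).1 (hsl q.1 hqk).2 pos q.2
        (by rw [hn]; exact hqs) (hposlt q hq1) (Finset.mem_filter.1 hq).2.1
      exact usel_win hwr h1 h2 hp
    have hcover : (hatV h a u1 u2 L b Y ta pos sel).filter (fun c => z ≤ c ∧ c < z + w0 G h) ⊆
        S.image (fun p => ⌊wst h a u1 u2 L b Y ta pos p.1 p.2⌋) ∪
        S.image (fun p => ⌊wst h a u1 u2 L b Y ta pos p.1 p.2⌋ + 1) := by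
      intro c hc'
      rw [Finset.mem_filter] at hc'
      obtain ⟨hcV, hz1, hz2⟩ := hc'
      have hz1r : (z : ℝ) ≤ c := by exact_mod_cast hz1
      have hz2r : (c : ℝ) + 1 ≤ z + w0 G h := by exact_mod_cast hz2
      unfold hatV at hcV
      rw [Finset.mem_union, Finset.mem_image, Finset.mem_image] at hcV
      rw [Finset.mem_union, Finset.mem_image, Finset.mem_image]
      rcases hcV with ⟨q, hq, rfl⟩ | ⟨q, hq, rfl⟩
      · left
        have h1 := Int.floor_le (wst h a u1 u2 L b Y ta pos q.1 q.2)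
        have h2 := Int.lt_floor_add_one (wst h a u1 u2 L b Y ta pos q.1 q.2)
        exact ⟨q, hpred q hq (by linarith) (by linarith), rfl⟩
      · right
        have h1 := Int.floor_le (wst h a u1 u2 L b Y ta pos q.1 q.2)
        have h2 := Int.lt_floor_add_one (wst h a u1 u2 L b Y ta pos q.1 q.2)
        push_cast at hz1r hz2r
        exact ⟨q, hpred q hq (by linarith) (by linarith), rfl⟩
    have h1 := Finset.card_le_card hcover
    have h2 := Finset.card_union_le (S.image (fun p => ⌊wst h a u1 u2 L b Y ta pos p.1 p.2⌋))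
      (S.image (fun p => ⌊wst h a u1 u2 L b Y ta pos p.1 p.2⌋ + 1))
    have h3 : (S.image (fun p => ⌊wst h a u1 u2 L b Y ta pos p.1 p.2⌋)).card ≤ S.card :=
      Finset.card_image_le
    have h4 : (S.image (fun p => ⌊wst h a u1 u2 L b Y ta pos p.1 p.2⌋ + 1)).card ≤ S.card :=
      Finset.card_image_le
    omega

theorem usel {h h' K2 G a L J0 Q u1 u2 : ℕ} (P : Par h h' K2 G a L J0 Q) (hc : Cls u1 u2 J0)
    {b Nb : ℕ} (hb : 1 ≤ b) (Y ta : ℕ → ℕ) (hY : Monotone Y) (𝒦 : Finset ℕ) (h𝒦 : 𝒦 ⊆ range Nb)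
    (hsl : ∀ k ∈ 𝒦, 1 / 4 ≤ slo Y (L * b) k * u1 / u2 ∧ slo Y (L * b) k * u1 / u2 ≤ 4)
    (hE : ∑ k ∈ 𝒦, ∑ x ∈ range L, psi (ux Y ta L b k x) ≤ a * nsl h G a L u1 u2 * 𝒦.card / (1000 * h))
    (ξ : Fin (Nb * nsl h G a L u1 u2) → Fin (Dh h / 2))
    (hcr : (ucrw (uA h a u1 u2 G L 𝒦 (ucode h a u1 u2 G L b Y ta))
      (uwin h a u1 u2 G L b ta (ucode h a u1 u2 G L b Y ta)) (5000 * G * h')
      (Nb * nsl h G a L u1 u2) ξ : ℝ) < 19 / 100 * (𝒦.card * nsl h G a L u1 u2 : ℕ)) :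
    ∃ sel : Finset (ℕ × ℕ), sel ⊆ 𝒦 ×ˢ range (nsl h G a L u1 u2) ∧
      4 * (𝒦.card * nsl h G a L u1 u2) ≤ 5 * sel.card ∧
      Sparse (hatV h a u1 u2 L b Y ta (upos h Nb (nsl h G a L u1 u2) ξ) sel) (w0 G h)
        (8 * X1 G h') :=
  usel_aux P hc hb Y ta hY 𝒦 h𝒦 hsl hE _ rfl ξ hcr

end Pool.Agent.Lib.HBP
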