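import Mathlib
import Pool.Agent.Lib.HBP.UFin
import Pool.Agent.Lib.HBP.USel

/-!
# Project HBP, module UAsm: assembly of section Uncrowd
-/

namespace Pool.Agent.Lib.HBP

open Finset

private lemma uasm_toUC (U : UC) {N M2 M3 np : ℕ} (h0 : U.y0 ≤ N) (h1 : U.y1 ≤ N) (hl : U.l ≤ M2)
    (hc : ∀ p, U.c p ≤ M3) (hc0 : ∀ p, ¬ p < np + 1 → U.c p = 0)
    (hg0 : ∀ p, ¬ p < np → U.g p = false) :
    ∃ x : BC (N + 1) (M2 + 1) (M3 + 1) np, U = toUC x := by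
  obtain ⟨y0, y1, l, c, g⟩ := U
  simp only at h0 h1 hl hc hc0 hg0
  refine ⟨⟨⟨y0, Nat.lt_succ_of_le h0⟩, ⟨y1, Nat.lt_succ_of_le h1⟩,
    ⟨l, Nat.lt_succ_of_le hl⟩, fun p => ⟨c p, Nat.lt_succ_of_le (hc _)⟩, fun p => g p⟩, ?_⟩
  unfold toUC
  rw [UC.mk.injEq]
  refine ⟨rfl, rfl, rfl, ?_, ?_⟩
  · funext p
    by_cases hp : p < np + 1
    · simp [hp]
    · rw [dif_neg hp, hc0 p hp]
  · funext p
    by_cases hp : p < np
    · simp [hp]
    · rw [dif_neg hp, hg0 p hp]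

private lemma uasm_code {h h' K2 G a L J0 Q u1 u2 : ℕ} (P : Par h h' K2 G a L J0 Q)
    (hc : Cls u1 u2 J0) {b : ℕ} (hb : 1 ≤ b) (Y ta : ℕ → ℕ) (hY : Monotone Y) {N : ℕ}
    (hYN : ∀ x, Y x ≤ N) (k : ℕ) (hl2 : slo Y (L * b) k * u1 / u2 ≤ 4) :
    ∃ x : BC (N + 1) (Mh h a + 1) (4 * L + 1) (npc h G a L u1 u2),
      ucode h a u1 u2 G L b Y ta k = toUC x := by
  refine uasm_toUC _ (hYN _) (hYN _) (ulst P hl2) (fun p => ucode_c P hc hb Y ta hY k hl2 p) ?_ ?_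
  · intro p hp
    unfold ucode
    simp only
    rw [if_neg]
    omega
  · intro p hp
    unfold ucode
    simp only
    rw [decide_eq_false]
    rintro ⟨h1, _⟩
    exact hp h1

theorem uncr_asm {h h' K2 G a L J0 Q u1 u2 : ℕ} (P : Par h h' K2 G a L J0 Q) (hc : Cls u1 u2 J0)
    {b Nb : ℕ} (hb : 1 ≤ b) (hNb : 1 ≤ Nb) (hLQ : L ≤ Q ^ 100)
    (hN : Real.log (4 * (Nb * L * b)) ≤ Q ^ 2) (ta : ℕ → ℕ) :
    ∃ pos : ℕ → ℕ → ℕ, Uncr h h' G a u1 u2 L b Nb Q ta pos := by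
  obtain ⟨ξ, hξ⟩ := ufin P hc hb hNb hLQ hN ta
  have h1 : 1 ≤ h := by
    have h2 := P.hG
    have h3 := P.Gpos
    rw [P.hh]
    exact Nat.mul_pos P.K2pos (by omega)
  have hD : 1 ≤ Dh h / 2 := by
    unfold Dh
    have h3 : 1 ≤ h ^ 3 := Nat.one_le_pow _ _ h1
    omega
  refine ⟨upos h Nb (nsl h G a L u1 u2) ξ, ?_, ?_⟩
  · intro k s
    unfold upos
    split_ifs with hks
    · exact (ξ _).2
    · omega
  · intro Y 𝒦 hY hYN h𝒦 hNQ hsl hload hE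
    have hne : 𝒦.Nonempty := by
      rw [Finset.nonempty_iff_ne_empty]
      rintro rfl
      simp at hNQ
      omega
    refine usel P hc hb Y ta hY 𝒦 h𝒦 hsl hE ξ (hξ 𝒦 (ucode h a u1 u2 G L b Y ta) h𝒦 hne ?_ ?_ ?_)
    · intro k hk
      exact uasm_code P hc hb Y ta hY hYN k (hsl k hk).2
    · intro k hk
      have h2 := ucode_ok1 P hc hb Y ta hY k (hsl k hk).2
      exact ⟨ulst P (hsl k hk).2, h2.1, h2.2, fun p hp hg =>
        uslope P hc hb Y ta hY k (hsl k hk).1 (hsl k hk).2 p hp hg⟩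
    · intro v
      refine le_trans (le_of_eq ?_) (hload v)
      congr 1
      apply Finset.filter_congr
      intro k _
      have e1 : (ucode h a u1 u2 G L b Y ta k).y0 + ta k * (L * b) = Ak Y ta L b k 0 := by
        unfold ucode Ak
        simp only [add_zero, mul_assoc]
      have e2 : (ucode h a u1 u2 G L b Y ta k).y1 + ta k * (L * b) = Ak Y ta L b k L := by
        unfold ucode Ak
        simp only
        congr 2
        ring
      rw [e1, e2]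

end Pool.Agent.Lib.HBP
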