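import Mathlib
import Pool.Agent.Lib.HBP.Level
import Pool.Agent.Lib.HBP.UAsm

/-!
MASTER STATEMENT Uncrowd (helper49): places of the arcs which are uncrowded for all height functions.
-/

namespace Pool.Agent.Lib.HBP

open Finset

theorem uncr_exists {h h' K2 G a L J0 Q u1 u2 : ℕ} (P : Par h h' K2 G a L J0 Q) (hc : Cls u1 u2 J0)
    {b Nb : ℕ} (hb : 1 ≤ b) (hNb : 1 ≤ Nb) (hLQ : L ≤ Q ^ 100)
    (hN : Real.log (4 * (Nb * L * b)) ≤ Q ^ 2) (ta : ℕ → ℕ) (_hta : ∀ k < Nb, ta k < Nb) :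
    ∃ pos : ℕ → ℕ → ℕ, Uncr h h' G a u1 u2 L b Nb Q ta pos :=
  uncr_asm P hc hb hNb hLQ hN ta

end Pool.Agent.Lib.HBP
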