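import Mathlib
import Pool.Agent.Lib.HBP.GRow
import Pool.Agent.Lib.HBP.MSigma
import Pool.Agent.Lib.HBP.MUncrowd

/-!
# Project HBP, GLOBAL: existence of the permutation, level by level
-/

namespace Pool.Agent.Lib.HBP

theorem cls_ty (J0 t : ℕ) : Cls (cu1 (ty J0 t)) (cu2 (ty J0 t)) J0 := by
  have h1 : t % (2 * J0 + 1) < 2 * J0 + 1 := Nat.mod_lt _ (by omega)
  unfold cu1 cu2 ty
  set r := t % (2 * J0 + 1) with hr
  constructor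
  · rcases le_total r J0 with h | h
    · right
      have : ((r : ℤ) - (J0 : ℤ)).toNat = 0 := by omega
      rw [this, pow_zero]
    · left
      have : (-((r : ℤ) - (J0 : ℤ))).toNat = 0 := by omega
      rw [this, pow_zero]
  · refine ⟨(-((r : ℤ) - (J0 : ℤ))).toNat + ((r : ℤ) - (J0 : ℤ)).toNat, by omega, ?_⟩
    rw [pow_add]

/-- The property of one level. -/
def LevelOK (h h' G a L J0 Q R a₀ t : ℕ) (l : ℕ → ℕ) (s : ℕ → ℕ → ℕ) : Prop :=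
  ∃ pos : ℕ → ℕ → ℕ,
    Uncr h h' G a (cu1 (ty J0 t)) (cu2 (ty J0 t)) L (bs L R a₀ (t + 1)) (L ^ t) Q l pos ∧
    ∀ k, Real1 h G a (cu1 (ty J0 t)) (cu2 (ty J0 t)) L (pos k) (s k)

theorem levels_exist {h h' K2 G a L J0 Q R a₀ : ℕ} (P : Par h h' K2 G a L J0 Q) (hL : 0 < L)
    (ha₀ : 1 ≤ a₀) (hLQ : L ≤ Q ^ 100) (hN : Real.log (4 * (L ^ R * a₀ : ℕ)) ≤ (Q : ℝ) ^ 2) :
    ∃ sg : ℕ → ℕ → ℕ → ℕ, (∀ t k, PermOn L (sg t k)) ∧
      ∀ t, t < R → LevelOK h h' G a L J0 Q R a₀ t (row L sg t) (sg t) := by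
  refine exists_rows hL (fun t l s => LevelOK h h' G a L J0 Q R a₀ t l s) ?_
  intro t ht l hl
  have hb : 1 ≤ bs L R a₀ (t + 1) := bs_pos hL ha₀
  have hNb : 1 ≤ L ^ t := Nat.one_le_pow _ _ hL
  have hN' : Real.log (4 * ((L ^ t : ℕ) * L * bs L R a₀ (t + 1) : ℝ)) ≤ (Q : ℝ) ^ 2 := by
    have e : (L ^ t * L * bs L R a₀ (t + 1) : ℕ) = L ^ R * a₀ := by
      rw [← pow_succ]
      exact pow_mul_bs (by omega)
    have e2 : ((L ^ t : ℕ) * L * bs L R a₀ (t + 1) : ℝ) = ((L ^ R * a₀ : ℕ) : ℝ) := by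
      rw [← e]; push_cast; ring
    rw [e2]
    exact hN
  obtain ⟨pos, hpos⟩ := uncr_exists P (cls_ty J0 t) hb hNb hLQ hN' l (fun k hk => hl.1 k hk)
  have hs : ∀ k, ∃ s : ℕ → ℕ, Real1 h G a (cu1 (ty J0 t)) (cu2 (ty J0 t)) L (pos k) s :=
    fun k => real1_exists P (cls_ty J0 t) (pos k) (hpos.1 k)
  choose s hs using hs
  refine ⟨s, fun k => ?_, pos, hpos, hs⟩
  obtain ⟨h1, h2, _⟩ := hs k
  exact ⟨h1, fun x y hx hy hxy => h2 hx hy hxy⟩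

end Pool.Agent.Lib.HBP
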