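import Pool.Agent.Lib.HBP.RSplit

/-!
# HBP, REDUCTION: the quadratic energy of the loads

PROOF of `r_ncell_le`: the elements of the filter have distinct `w` in `[s c, s c + s)` (`Finset.card_le_card_of_injOn` with the map
`w` into `Finset.Ico (s * c) (s * c + s)`).
PROOF of `r_ncell_split`: like `r_cnt_split` (fibers of `(w q / b) % L`).
PROOF of `r_ncell_leave`: an element counted on the left has either `q / b ∈ 𝓛'` (counted by the first term) or is in the set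
of the second.
PROOF of `r_quad_step`. With `n_c = ncell C w (L b) 𝓛 b c` (`c < cmax * L`) and `n' c' = ncell C w (L b) 𝓛 (L b) c'`:
(a) for one parent cell `c'`: `∑_{x<L} (n_{c' L + x} - n'/L)^2 = ∑ n^2 - n'^2/L` because `∑_x n_{c' L + x} = n'`
(`r_ncell_split`), and `(c' L + x)/L = c'`. With `r_sum_split` over `c < cmax * L`:
`rEQ C w (L b) 𝓛 cmax + Vq C w L b 𝓛 cmax = ∑_{c < cmax L} n_c^2/b`.
(b) `N' = ncell C w b 𝓛' b c`, `r_c = card {q ∈ C | (q/(L b) ∈ 𝓛 ∧ q/b ∉ 𝓛') ∧ w q / b = c}`: `n_c ≤ N' + r_c`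
(`r_ncell_leave`), `n_c ≤ b` (`r_ncell_le`), so `n_c^2 ≤ N'^2 + 2 b r_c` (if `n_c ≤ N'` clear; otherwise `0 < n_c - N' ≤ r_c` and
`n_c^2 - N'^2 = (n_c - N')(n_c + N') ≤ r_c * 2 n_c ≤ 2 b r_c`). Divide by `b`, sum over `c`:
`∑_c r_c ≤ card {q ∈ C | q/(L b) ∈ 𝓛 ∧ q/b ∉ 𝓛'}` (disjoint fibers).
PROOF of `r_quad_last`: `ncell ≤ S` (`r_ncell_le`), so `ncell^2/S ≤ ncell`, and `∑_{j ∈ J} ∑_c ncell C w S (𝓛 j) S c ≤ card C`
(the sets `{q ∈ C | q / S ∈ 𝓛 j ∧ w q / S = c}` are disjoint subsets of `C`).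
-/

namespace Pool.Agent.Lib.HBP

open Finset

theorem r_ncell_le (C : Finset ℕ) (w : ℕ → ℕ) (hw : Set.InjOn w C) (S : ℕ) (𝓛 : Finset ℕ) (s c : ℕ)
    (hs : 0 < s) : ncell C w S 𝓛 s c ≤ s := by
  classical
  unfold ncell
  calc (C.filter fun q => q / S ∈ 𝓛 ∧ w q / s = c).card
      ≤ (Finset.Ico (s * c) (s * c + s)).card := by
        refine Finset.card_le_card_of_injOn w ?_ ?_
        · intro q hq
          have hq' := (Finset.mem_filter.mp (Finset.mem_coe.mp hq)).2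
          have h1 := Nat.div_add_mod (w q) s
          have h2 := Nat.mod_lt (w q) hs
          rw [hq'.2] at h1
          exact Finset.mem_coe.mpr (Finset.mem_Ico.mpr ⟨by omega, by omega⟩)
        · intro q hq q' hq' h
          exact hw (Finset.mem_coe.mpr (Finset.mem_filter.mp (Finset.mem_coe.mp hq)).1)
            (Finset.mem_coe.mpr (Finset.mem_filter.mp (Finset.mem_coe.mp hq')).1) h
    _ = s := by rw [Nat.card_Ico]; omega

theorem r_ncell_split (C : Finset ℕ) (w : ℕ → ℕ) (S : ℕ) (𝓛 : Finset ℕ) (L b c : ℕ) (hL : 0 < L) :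
    ncell C w S 𝓛 (L * b) c = ∑ x ∈ range L, ncell C w S 𝓛 b (c * L + x) := by
  classical
  unfold ncell
  rw [Finset.card_eq_sum_card_fiberwise (f := fun q => (w q / b) % L) (t := range L)]
  · refine Finset.sum_congr rfl fun x hx => ?_
    congr 1
    ext q
    rw [Finset.mem_filter, Finset.mem_filter, Finset.mem_filter]
    have hx' : x < L := Finset.mem_range.mp hx
    rw [r_div L b (w q)]
    constructor
    · rintro ⟨⟨h1, h0, h2⟩, h3⟩
      refine ⟨h1, h0, ?_⟩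
      have := Nat.div_add_mod (w q / b) L
      rw [h2, h3] at this
      rw [← this]; ring
    · rintro ⟨h1, h0, h2⟩
      refine ⟨⟨h1, h0, ?_⟩, ?_⟩
      · rw [h2, mul_comm, Nat.mul_add_div hL, Nat.div_eq_of_lt hx', add_zero]
      · rw [h2, mul_comm, Nat.mul_add_mod, Nat.mod_eq_of_lt hx']
  · intro q _
    exact Finset.mem_coe.mpr (Finset.mem_range.mpr (Nat.mod_lt _ hL))

theorem r_ncell_leave (C : Finset ℕ) (w : ℕ → ℕ) (L b : ℕ) (𝓛 𝓛' : Finset ℕ) (c : ℕ) :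
    ncell C w (L * b) 𝓛 b c ≤ ncell C w b 𝓛' b c +
      (C.filter fun q => (q / (L * b) ∈ 𝓛 ∧ q / b ∉ 𝓛') ∧ w q / b = c).card := by
  classical
  unfold ncell
  refine le_trans (Finset.card_le_card ?_) (Finset.card_union_le _ _)
  intro q hq
  rw [Finset.mem_filter] at hq
  rw [Finset.mem_union, Finset.mem_filter, Finset.mem_filter]
  by_cases h : q / b ∈ 𝓛'
  · exact Or.inl ⟨hq.1, h, hq.2.2⟩
  · exact Or.inr ⟨hq.1, ⟨hq.2.1, h⟩, hq.2.2⟩

private theorem RQuad_fib (C : Finset ℕ) (P : ℕ → Prop) [DecidablePred P] (w : ℕ → ℕ) (b N : ℕ) :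
    ∑ c ∈ range N, ((C.filter fun q => P q ∧ w q / b = c).card : ℝ) ≤ ((C.filter P).card : ℝ) := by
  classical
  rw [← Nat.cast_sum]
  refine Nat.cast_le.mpr ?_
  rw [← Finset.card_biUnion]
  · refine Finset.card_le_card fun q hq => ?_
    rw [Finset.mem_biUnion] at hq
    obtain ⟨c, _, hc⟩ := hq
    rw [Finset.mem_filter] at hc ⊢
    exact ⟨hc.1, hc.2.1⟩
  · intro c _ c' _ hcc
    refine Finset.disjoint_left.mpr ?_
    intro q hq hq'
    rw [Finset.mem_filter] at hq hq'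
    exact hcc (hq.2.2.symm.trans hq'.2.2)

private theorem RQuad_var (L : ℕ) (hL : 0 < L) (n : ℕ → ℝ) (m : ℝ)
    (hm : m = ∑ x ∈ range L, n x) :
    ∑ x ∈ range L, (n x - m / L) ^ 2 = ∑ x ∈ range L, n x ^ 2 - m ^ 2 / L := by
  have hL' : (L : ℝ) ≠ 0 := by exact_mod_cast hL.ne'
  have h1 : ∑ x ∈ range L, (n x - m / L) ^ 2 =
      ∑ x ∈ range L, n x ^ 2 - 2 * (m / L) * ∑ x ∈ range L, n x + L * (m / L) ^ 2 := by
    rw [Finset.mul_sum, ← Finset.sum_sub_distrib]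
    have h2 : (L : ℝ) * (m / L) ^ 2 = ∑ _x ∈ range L, (m / L) ^ 2 := by
      rw [Finset.sum_const, Finset.card_range, nsmul_eq_mul]
    rw [h2, ← Finset.sum_add_distrib]
    exact Finset.sum_congr rfl fun x _ => by ring
  rw [h1, ← hm]
  field_simp
  ring

private theorem RQuad_sq (n N r b : ℝ) (hn : 0 ≤ n) (hN : 0 ≤ N) (hr : 0 ≤ r) (h1 : n ≤ N + r)
    (h2 : n ≤ b) : n ^ 2 ≤ N ^ 2 + 2 * b * r := by
  rcases le_or_gt n N with h | h
  · have hb : 0 ≤ b := hn.trans h2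
    have := mul_nonneg hb hr
    nlinarith
  · have h3 : n ^ 2 - N ^ 2 = (n - N) * (n + N) := by ring
    have h4 : (n - N) * (n + N) ≤ r * (2 * b) := by
      apply mul_le_mul
      · linarith
      · linarith
      · linarith
      · exact hr
    linarith

theorem r_quad_step (C : Finset ℕ) (w : ℕ → ℕ) (hw : Set.InjOn w C) (L b : ℕ) (hL : 0 < L)
    (hb : 0 < b) (𝓛 𝓛' : Finset ℕ) (cmax : ℕ) :
    rEQ C w (L * b) 𝓛 cmax + Vq C w L b 𝓛 cmax ≤ rEQ C w b 𝓛' (cmax * L) +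
      2 * ((C.filter fun q => q / (L * b) ∈ 𝓛 ∧ q / b ∉ 𝓛').card : ℝ) := by
  classical
  have hL' : (0 : ℝ) < L := by exact_mod_cast hL
  have hb' : (0 : ℝ) < b := by exact_mod_cast hb
  have ha : rEQ C w (L * b) 𝓛 cmax + Vq C w L b 𝓛 cmax =
      ∑ c ∈ range (cmax * L), (ncell C w (L * b) 𝓛 b c : ℝ) ^ 2 / b := by
    unfold rEQ Vq
    rw [r_sum_split, r_sum_split, Finset.mul_sum, ← Finset.sum_add_distrib]
    refine Finset.sum_congr rfl fun c _ => ?_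
    have hm : (ncell C w (L * b) 𝓛 (L * b) c : ℝ) =
        ∑ x ∈ range L, (ncell C w (L * b) 𝓛 b (c * L + x) : ℝ) := by
      rw [r_ncell_split C w (L * b) 𝓛 L b c hL, Nat.cast_sum]
    have hs : ∑ x ∈ range L, ((ncell C w (L * b) 𝓛 b (c * L + x) : ℝ) -
        (ncell C w (L * b) 𝓛 (L * b) ((c * L + x) / L) : ℝ) / L) ^ 2 =
        ∑ x ∈ range L, ((ncell C w (L * b) 𝓛 b (c * L + x) : ℝ) -
        (ncell C w (L * b) 𝓛 (L * b) c : ℝ) / L) ^ 2 := by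
      refine Finset.sum_congr rfl fun x hx => ?_
      have hx' : x < L := Finset.mem_range.mp hx
      have : (c * L + x) / L = c := by
        rw [mul_comm, Nat.mul_add_div hL, Nat.div_eq_of_lt hx', add_zero]
      rw [this]
    rw [hs, RQuad_var L hL (fun x => (ncell C w (L * b) 𝓛 b (c * L + x) : ℝ)) _ hm,
      ← Finset.sum_div]
    push_cast
    field_simp
    ring
  rw [ha]
  have hc : ∀ c ∈ range (cmax * L), (ncell C w (L * b) 𝓛 b c : ℝ) ^ 2 / b ≤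
      (ncell C w b 𝓛' b c : ℝ) ^ 2 / b +
        2 * ((C.filter fun q => (q / (L * b) ∈ 𝓛 ∧ q / b ∉ 𝓛') ∧ w q / b = c).card : ℝ) := by
    intro c _
    have h1 : (ncell C w (L * b) 𝓛 b c : ℝ) ≤ (ncell C w b 𝓛' b c : ℝ) +
        ((C.filter fun q => (q / (L * b) ∈ 𝓛 ∧ q / b ∉ 𝓛') ∧ w q / b = c).card : ℝ) := by
      exact_mod_cast r_ncell_leave C w L b 𝓛 𝓛' c
    have h2 : (ncell C w (L * b) 𝓛 b c : ℝ) ≤ b := by
      exact_mod_cast r_ncell_le C w hw (L * b) 𝓛 b c hb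
    have h3 := RQuad_sq _ _ _ _ (Nat.cast_nonneg _) (Nat.cast_nonneg _) (Nat.cast_nonneg _) h1 h2
    have h4 : (ncell C w b 𝓛' b c : ℝ) ^ 2 / b +
        2 * ((C.filter fun q => (q / (L * b) ∈ 𝓛 ∧ q / b ∉ 𝓛') ∧ w q / b = c).card : ℝ) =
        ((ncell C w b 𝓛' b c : ℝ) ^ 2 + 2 * b *
          ((C.filter fun q => (q / (L * b) ∈ 𝓛 ∧ q / b ∉ 𝓛') ∧ w q / b = c).card : ℝ)) / b := by
      field_simp
    rw [h4]
    exact div_le_div_of_nonneg_right h3 hb'.le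
  refine le_trans (Finset.sum_le_sum hc) ?_
  rw [Finset.sum_add_distrib, ← Finset.mul_sum]
  have h5 := RQuad_fib C (fun q => q / (L * b) ∈ 𝓛 ∧ q / b ∉ 𝓛') w b (cmax * L)
  unfold rEQ
  linarith

theorem r_quad_last (C : Finset ℕ) (w : ℕ → ℕ) (hw : Set.InjOn w C) (S : ℕ) (hS : 0 < S)
    (J : Finset ℤ) (𝓛 : ℤ → Finset ℕ) (hdis : ∀ i ∈ J, ∀ j ∈ J, i ≠ j → Disjoint (𝓛 i) (𝓛 j))
    (cmax : ℕ) : ∑ j ∈ J, rEQ C w S (𝓛 j) cmax ≤ (C.card : ℝ) := by
  classical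
  have hS' : (0 : ℝ) < S := by exact_mod_cast hS
  have h1 : ∀ j ∈ J, rEQ C w S (𝓛 j) cmax ≤ ((C.filter fun q => q / S ∈ 𝓛 j).card : ℝ) := by
    intro j _
    have h2 : rEQ C w S (𝓛 j) cmax ≤ ∑ c ∈ range cmax, (ncell C w S (𝓛 j) S c : ℝ) := by
      unfold rEQ
      refine Finset.sum_le_sum fun c _ => ?_
      have h3 : (ncell C w S (𝓛 j) S c : ℝ) ≤ S := by
        exact_mod_cast r_ncell_le C w hw S (𝓛 j) S c hS
      rw [div_le_iff₀ hS', sq]
      exact mul_le_mul_of_nonneg_left h3 (Nat.cast_nonneg _)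
    refine h2.trans ?_
    exact RQuad_fib C (fun q => q / S ∈ 𝓛 j) w S cmax
  refine le_trans (Finset.sum_le_sum h1) ?_
  rw [← Nat.cast_sum]
  refine Nat.cast_le.mpr ?_
  rw [← Finset.card_biUnion]
  · refine Finset.card_le_card fun q hq => ?_
    rw [Finset.mem_biUnion] at hq
    obtain ⟨j, _, hj⟩ := hq
    exact (Finset.mem_filter.mp hj).1
  · intro i hi j hj hij
    refine Finset.disjoint_left.mpr ?_
    intro q hq hq'
    rw [Finset.mem_filter] at hq hq'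
    exact Finset.disjoint_left.mp (hdis i hi j hj hij) hq.2 hq'.2

theorem rEQ_nonneg (C : Finset ℕ) (w : ℕ → ℕ) (S : ℕ) (𝓛 : Finset ℕ) (cmax : ℕ) :
    0 ≤ rEQ C w S 𝓛 cmax :=
  Finset.sum_nonneg fun _ _ => div_nonneg (sq_nonneg _) (Nat.cast_nonneg _)

theorem Vq_nonneg (C : Finset ℕ) (w : ℕ → ℕ) (L b : ℕ) (𝓛 : Finset ℕ) (cmax : ℕ) :
    0 ≤ Vq C w L b 𝓛 cmax :=
  mul_nonneg (by positivity) (Finset.sum_nonneg fun _ _ => sq_nonneg _)

end Pool.Agent.Lib.HBP
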