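import Pool.Agent.Lib.HBP.RSplit

/-!
# HBP, REDUCTION: properties of the labels

PROOF of `cls_fit`: `j = cls θ = ⌊logb 4 (2 θ)⌋`, `j ≤ logb 4 (2θ) < j + 1` (`Int.floor_le`, `Int.lt_floor_add_one`), so
`4^j ≤ 2 θ < 4^(j+1) = 4 * 4^j` (`Real.le_logb_iff_rpow_le`, `Real.logb_lt_iff_lt_rpow`, `Real.rpow_intCast`).
PROOF of `rl_fit`: if the condition of `rl` holds, the label is `p` and the claim is the condition; otherwise `cls_fit`.
PROOF of `r_lab_succ`: `rfl` (definition of `lab` and `rl`).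
PROOF of `r_lab_fit`: cases `t = 0` (`cls_fit`) and `t + 1` (`rl_fit`).
PROOF of `rQ_drop` (a relabelled block): the condition fails, so `y < 1/4` or `y > 4`, `y = θ/4^p > 0`; in the first case
`√y < 1/2` and `(√y - 1)^2 > 1/4`, in the second `√y > 2`, `(√y - 1)^2 > 1`; so `rQ y ≥ 1/4`. The new label `j = cls θ` has
`z = θ/4^j ∈ [1/2, 2)` (`cls_fit`): `0.7 ≤ √z ≤ 1.4143`, so `(√z - 1)^2 ≤ 0.4143^2 < 0.1717`. So `rQ z ≤ 0.1717 ≤ 1/4 - 3/40`.
PROOF of `r_cls_bound`: if `cls θ ≥ J0 + 1` then `4^(J0+1) ≤ 4^(cls θ) ≤ 2 θ ≤ 2 * 4^J0`, contradiction; if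
`cls θ + 1 ≤ -J0` then `2 θ < 4^(cls θ + 1) ≤ 4^(-J0) ≤ θ`, contradiction.
PROOF of `r_lab_bound`: induction on `t` for all `q`-ancestors: the statement for `t + 1` and block `k`: the label is inherited
from `lab L θ t (k / L)` (bounded by induction) or `cls (θ (t+1) k)` (`r_cls_bound`). The hypothesis is for all ancestors
`anc i` of the block: `anc i = k / L^(t - i)`.
-/

namespace Pool.Agent.Lib.HBP

open Finset

private theorem rlab_logb_floor (x : ℝ) (hx : 0 < x) :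
    (4 : ℝ) ^ (⌊Real.logb 4 x⌋) ≤ x ∧ x < (4 : ℝ) ^ (⌊Real.logb 4 x⌋ + 1) := by
  constructor
  · rw [← Real.rpow_intCast]
    exact (Real.le_logb_iff_rpow_le (by norm_num) hx).mp (Int.floor_le _)
  · rw [← Real.rpow_intCast]
    have h := Int.lt_floor_add_one (Real.logb 4 x)
    have h2 : Real.logb 4 x < ((⌊Real.logb 4 x⌋ + 1 : ℤ) : ℝ) := by push_cast; exact h
    exact (Real.logb_lt_iff_lt_rpow (by norm_num) hx).mp h2

theorem cls_fit (θ : ℝ) (h : 0 < θ) :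
    1 / 2 ≤ θ / (4 : ℝ) ^ (cls θ) ∧ θ / (4 : ℝ) ^ (cls θ) < 2 := by
  obtain ⟨h1, h2⟩ := rlab_logb_floor (2 * θ) (by positivity)
  unfold cls
  have hp : (0 : ℝ) < (4 : ℝ) ^ (⌊Real.logb 4 (2 * θ)⌋) := by positivity
  rw [zpow_add_one₀ (by norm_num : (4 : ℝ) ≠ 0)] at h2
  constructor
  · rw [le_div_iff₀ hp]; linarith
  · rw [div_lt_iff₀ hp]; linarith

theorem rl_fit (p : ℤ) (θ : ℝ) (h : 0 < θ) :
    1 / 4 ≤ θ / (4 : ℝ) ^ (rl p θ) ∧ θ / (4 : ℝ) ^ (rl p θ) ≤ 4 := by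
  unfold rl
  split_ifs with hc
  · exact hc
  · obtain ⟨h1, h2⟩ := cls_fit θ h
    constructor <;> linarith

theorem r_lab_succ (L : ℕ) (θ : ℕ → ℕ → ℝ) (t k : ℕ) :
    lab L θ (t + 1) k = rl (lab L θ t (k / L)) (θ (t + 1) k) := by
  rfl

theorem r_lab_fit (L : ℕ) (θ : ℕ → ℕ → ℝ) (t k : ℕ) (h : 0 < θ t k) :
    1 / 4 ≤ θ t k / (4 : ℝ) ^ (lab L θ t k) ∧ θ t k / (4 : ℝ) ^ (lab L θ t k) ≤ 4 := by
  cases t with
  | zero =>
    have h0 : lab L θ 0 k = cls (θ 0 k) := rfl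
    rw [h0]
    obtain ⟨h1, h2⟩ := cls_fit (θ 0 k) h
    constructor <;> linarith
  | succ t =>
    rw [r_lab_succ]
    exact rl_fit _ _ h

theorem rQ_drop (p : ℤ) (θ : ℝ) (h : 0 < θ) (hne : rl p θ ≠ p) :
    rQ (θ / (4 : ℝ) ^ (rl p θ)) + 3 / 40 ≤ rQ (θ / (4 : ℝ) ^ p) := by
  have hc : ¬ ((1 / 4 : ℝ) ≤ θ / (4 : ℝ) ^ p ∧ θ / (4 : ℝ) ^ p ≤ 4) := by
    intro hc
    exact hne (by unfold rl; rw [if_pos hc])
  have hrl : rl p θ = cls θ := by unfold rl; rw [if_neg hc]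
  rw [hrl]
  obtain ⟨z1, z2⟩ := cls_fit θ h
  set z := θ / (4 : ℝ) ^ (cls θ) with hz
  have hy0 : 0 < θ / (4 : ℝ) ^ p := by positivity
  set y := θ / (4 : ℝ) ^ p with hy
  have hzs1 : (0.7 : ℝ) ≤ √z := Real.le_sqrt_of_sq_le (by norm_num; linarith)
  have hzs2 : √z ≤ 1.4143 := by
    rw [Real.sqrt_le_left (by norm_num)]
    norm_num; linarith
  have hZ : rQ z ≤ 7 / 40 := by
    unfold rQ
    refine (min_le_right _ _).trans ?_
    nlinarith
  have hY : 1 / 4 ≤ rQ y := by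
    unfold rQ
    refine le_min (by norm_num) ?_
    have hys0 : 0 ≤ √y := Real.sqrt_nonneg y
    rw [not_and_or, not_le, not_le] at hc
    rcases hc with hc | hc
    · have : √y < 1 / 2 := by
        rw [Real.sqrt_lt' (by norm_num)]
        norm_num; linarith
      nlinarith
    · have : 2 < √y := by
        apply Real.lt_sqrt_of_sq_lt
        norm_num; linarith
      nlinarith
  linarith

theorem r_cls_bound (J0 : ℕ) (θ : ℝ) (h1 : 1 ≤ θ * 4 ^ J0) (h2 : θ ≤ 4 ^ J0) :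
    -(J0 : ℤ) ≤ cls θ ∧ cls θ ≤ J0 := by
  have hJ : (0 : ℝ) < (4 : ℝ) ^ J0 := by positivity
  have h0 : 0 < θ := by
    by_contra hn
    have : θ * 4 ^ J0 ≤ 0 := mul_nonpos_of_nonpos_of_nonneg (not_lt.mp hn) hJ.le
    linarith
  obtain ⟨f1, f2⟩ := rlab_logb_floor (2 * θ) (by positivity)
  have e : cls θ = ⌊Real.logb 4 (2 * θ)⌋ := rfl
  rw [← e] at f1 f2
  constructor
  · by_contra hn
    have hle : cls θ + 1 ≤ -(J0 : ℤ) := by omega
    have hm : (4 : ℝ) ^ (cls θ + 1) ≤ (4 : ℝ) ^ (-(J0 : ℤ)) := zpow_le_zpow_right₀ (by norm_num) hle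
    rw [zpow_neg, zpow_natCast] at hm
    have hm2 : ((4 : ℝ) ^ J0)⁻¹ ≤ θ := by
      rw [inv_le_iff_one_le_mul₀ hJ]; exact h1
    linarith
  · by_contra hn
    have hle : (J0 : ℤ) + 1 ≤ cls θ := by omega
    have hm : (4 : ℝ) ^ ((J0 : ℤ) + 1) ≤ (4 : ℝ) ^ (cls θ) := zpow_le_zpow_right₀ (by norm_num) hle
    rw [zpow_add_one₀ (by norm_num : (4 : ℝ) ≠ 0), zpow_natCast] at hm
    linarith

theorem r_lab_bound (L J0 : ℕ) (θ : ℕ → ℕ → ℝ) (t k : ℕ)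
    (h : ∀ i ≤ t, 1 ≤ θ i (k / L ^ (t - i)) * 4 ^ J0 ∧ θ i (k / L ^ (t - i)) ≤ 4 ^ J0) :
    -(J0 : ℤ) ≤ lab L θ t k ∧ lab L θ t k ≤ J0 := by
  induction t generalizing k with
  | zero =>
    have h0 := h 0 le_rfl
    simp only [Nat.sub_zero, pow_zero, Nat.div_one] at h0
    have e : lab L θ 0 k = cls (θ 0 k) := rfl
    rw [e]
    exact r_cls_bound J0 _ h0.1 h0.2
  | succ t ih =>
    rw [r_lab_succ]
    unfold rl
    split_ifs with hc
    · apply ih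
      intro i hi
      have := h i (by omega)
      have e : k / L / L ^ (t - i) = k / L ^ (t + 1 - i) := by
        rw [Nat.div_div_eq_div_mul, ← pow_succ']
        congr 2
        omega
      rw [e]; exact this
    · have := h (t + 1) le_rfl
      simp only [Nat.sub_self, pow_zero, Nat.div_one] at this
      exact r_cls_bound J0 _ this.1 this.2

end Pool.Agent.Lib.HBP
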