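import Pool.Agent.Lib.HBP.RStepQ
import Pool.Agent.Lib.HBP.RLab

/-!
# HBP, REDUCTION: the relabelled mass of one level

PROOF. Put `g k' = rQ (slo Y b k' / 4 ^ (lb (k' / L)))` for the children blocks `k'`. For every `q ∈ C`, `k' = q / b`,
`k = q / (L b) = k' / L` (`r_div`): `rQ (slo Y b k'/4^(lb' k')) + 3/40 * (1 if lb' k' ≠ lb k else 0) ≤ g k'`: equal labels:
equality (`hlb'`); different: `rQ_drop` (`slo Y b k' > 0`). Sum over `q ∈ C`:
`rZ C Y b lb' + 3/40 card {..} ≤ ∑_{q ∈ C} g (q / b) = ∑_{k < N} ∑_{x < L} cnt C b (k L + x) * g (k L + x)`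
(`r_sum_blocks` with `N * L` blocks of size `b`, `r_sum_split`), and `(k L + x) / L = k`. For every `k < N`:
if `cnt C (L b) k = 0` all `cnt C b (k L + x) = 0` (`r_cnt_split`) and the sum is `0 ≤ 0 + rD + 36 rE` (`r_D_nonneg`, `r_E_nonneg`);
otherwise take `q ∈ C` with `q / (L b) = k` (`r_exists_of_cnt`), `hlb` for this `q`, and `r_stepQ` with `Λ = 4 ^ (lb k)`:
`∑_x ... ≤ cnt C (L b) k * rQ (slo Y (L b) k / 4^(lb k)) + rD + 36 rE`. Sum over `k` and `r_sum_blocks` (size `L b`, `N` blocks)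
for `rZ C Y (L b) lb`.
-/

namespace Pool.Agent.Lib.HBP

open Finset

theorem r_sumR (C : Finset ℕ) (Y : ℕ → ℕ) (hY : Monotone Y) (N L b : ℕ) (hL : 0 < L) (hb : 0 < b)
    (hC : ∀ q ∈ C, q < N * (L * b)) (hpos : ∀ q ∈ C, 0 < slo Y b (q / b))
    (hpos' : ∀ q ∈ C, 0 < slo Y (L * b) (q / (L * b))) (lb lb' : ℕ → ℤ)
    (hlb : ∀ q ∈ C, 1 / 4 ≤ slo Y (L * b) (q / (L * b)) / (4 : ℝ) ^ (lb (q / (L * b))) ∧
      slo Y (L * b) (q / (L * b)) / (4 : ℝ) ^ (lb (q / (L * b))) ≤ 4)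
    (hlb' : ∀ k, lb' k = rl (lb (k / L)) (slo Y b k)) :
    rZ C Y b lb' + 3 / 40 * ((C.filter fun q => lb' (q / b) ≠ lb (q / (L * b))).card : ℝ) ≤
      rZ C Y (L * b) lb + ∑ k ∈ range N, rD C L b k + 36 * ∑ k ∈ range N, rE C Y L b k := by
  -- the potential of the children blocks with the label of the parent
  obtain ⟨g, hg⟩ : ∃ g : ℕ → ℝ, ∀ k, g k = rQ (slo Y b k / (4 : ℝ) ^ (lb (k / L))) :=
    ⟨_, fun _ => rfl⟩
  have h1 : rZ C Y b lb' + 3 / 40 * ((C.filter fun q => lb' (q / b) ≠ lb (q / (L * b))).card : ℝ) ≤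
      ∑ q ∈ C, g (q / b) := by
    rw [rZ, Finset.card_filter]
    push_cast
    rw [Finset.mul_sum, ← Finset.sum_add_distrib]
    refine Finset.sum_le_sum fun q hq => ?_
    rw [hg, r_div]
    by_cases he : lb' (q / b) = lb (q / b / L)
    · rw [if_neg (not_not.mpr he), he]
      simp
    · rw [if_pos he, mul_one]
      have h2 : rl (lb (q / b / L)) (slo Y b (q / b)) ≠ lb (q / b / L) := by
        rw [← hlb']; exact he
      have h3 := rQ_drop (lb (q / b / L)) (slo Y b (q / b)) (hpos q hq) h2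
      rw [hlb']
      exact h3
  have h2 : ∑ q ∈ C, g (q / b) = ∑ k ∈ range N, ∑ x ∈ range L,
      (cnt C b (k * L + x) : ℝ) * g (k * L + x) := by
    rw [r_sum_blocks C (N * L) b hb (fun q hq => by rw [mul_assoc]; exact hC q hq) g]
    exact r_sum_split N L fun k => (cnt C b k : ℝ) * g k
  have h3 : ∀ k ∈ range N, ∑ x ∈ range L, (cnt C b (k * L + x) : ℝ) * g (k * L + x) ≤
      (cnt C (L * b) k : ℝ) * rQ (slo Y (L * b) k / (4 : ℝ) ^ (lb k)) + rD C L b k +
        36 * rE C Y L b k := by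
    intro k _
    have h4 : ∑ x ∈ range L, (cnt C b (k * L + x) : ℝ) * g (k * L + x) =
        ∑ x ∈ range L, (cnt C b (k * L + x) : ℝ) *
          rQ (slo Y b (k * L + x) / (4 : ℝ) ^ (lb k)) := by
      refine Finset.sum_congr rfl fun x hx => ?_
      have hx' : x < L := Finset.mem_range.mp hx
      have h5 : (k * L + x) / L = k := by
        rw [mul_comm k L, Nat.mul_add_div hL, Nat.div_eq_of_lt hx', add_zero]
      rw [hg, h5]
    rw [h4]
    by_cases hz : cnt C (L * b) k = 0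
    · have h5 : ∀ x ∈ range L, cnt C b (k * L + x) = 0 := by
        have h6 := r_cnt_split C L b k hL
        rw [hz] at h6
        exact Finset.sum_eq_zero_iff.mp h6.symm
      have h6 : ∑ x ∈ range L, (cnt C b (k * L + x) : ℝ) *
          rQ (slo Y b (k * L + x) / (4 : ℝ) ^ (lb k)) = 0 := by
        refine Finset.sum_eq_zero fun x hx => ?_
        rw [h5 x hx, Nat.cast_zero, zero_mul]
      rw [h6, hz, Nat.cast_zero, zero_mul, zero_add]
      have h7 := r_D_nonneg C L b k hL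
      have h8 := r_E_nonneg C Y hY L b k hL hb fun h => absurd hz h
      linarith
    · obtain ⟨q, hq, hqk⟩ := r_exists_of_cnt C (L * b) k hz
      have h5 := hlb q hq
      rw [hqk] at h5
      have h6 := r_stepQ C Y hY L b k hL hb ((4 : ℝ) ^ (lb k)) (by positivity) h5.1 h5.2
      linarith
  have h4 : rZ C Y (L * b) lb =
      ∑ k ∈ range N, (cnt C (L * b) k : ℝ) * rQ (slo Y (L * b) k / (4 : ℝ) ^ (lb k)) :=
    r_sum_blocks C N (L * b) (Nat.mul_pos hL hb) hC
      fun k => rQ (slo Y (L * b) k / (4 : ℝ) ^ (lb k))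
  have h5 := Finset.sum_le_sum h3
  rw [Finset.sum_add_distrib, Finset.sum_add_distrib, ← Finset.mul_sum, ← h4, ← h2] at h5
  exact h1.trans h5

end Pool.Agent.Lib.HBP
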