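import Pool.Agent.Lib.HBP.RSumE
import Pool.Agent.Lib.HBP.RSumR
import Pool.Agent.Lib.HBP.RQuad

/-! # HBP, REDUCTION: telescoping over the levels and pigeonhole over the cycles -/

namespace Pool.Agent.Lib.HBP

open Finset

theorem rp_pig (K Rc : ℕ) (hRc : 0 < Rc) (f : ℕ → ℝ) (B : ℝ)
    (h : ∑ t ∈ range (Rc * K), f t ≤ B) :
    ∃ i < Rc, ∑ x ∈ range K, f (i * K + x) ≤ B / Rc := by
  rw [r_sum_split] at h
  by_contra hcon
  push Not at hcon
  have hR : (0 : ℝ) < Rc := by exact_mod_cast hRc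
  have h1 : ∑ i ∈ range Rc, B / (Rc : ℝ) < ∑ i ∈ range Rc, ∑ x ∈ range K, f (i * K + x) := by
    refine Finset.sum_lt_sum_of_nonempty ?_ ?_
    · exact ⟨0, Finset.mem_range.mpr hRc⟩
    · intro i hi
      exact hcon i (Finset.mem_range.mp hi)
  rw [Finset.sum_const, Finset.card_range, nsmul_eq_mul] at h1
  have h2 : (Rc : ℝ) * (B / Rc) = B := by field_simp
  rw [h2] at h1
  linarith

/-- Telescoping. -/
theorem rp_tel (R : ℕ) (X Yy Z Q DD EE VV RR : ℕ → ℝ) (m Λ J : ℝ)
    (hD : ∀ t < R, DD t = X (t + 1) - X t)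
    (hE : ∀ t < R, 1 / 2 * (Yy (t + 1) - Yy t) ≤ DD t - EE t)
    (hZ : ∀ t < R, Z (t + 1) + 3 / 40 * RR t ≤ Z t + DD t + 36 * EE t)
    (hQ : ∀ t < R, Q t + VV t ≤ Q (t + 1) + 2 * RR t)
    (hX0 : X 0 = - (m * Λ)) (hXR : X R ≤ 0) (hY0 : Yy 0 ≤ m * (J * 2)) (hYR : -(m * (J * 2)) ≤ Yy R)
    (hZ0 : Z 0 ≤ m) (hZR : 0 ≤ Z R) (hQ0 : 0 ≤ Q 0) (hQR : Q R ≤ m)
    (hm : 0 ≤ m) (hΛ : 0 ≤ Λ) (hJ : 0 ≤ J) :
    ∑ t ∈ range R, (DD t + 2 * EE t + VV t + RR t) ≤ 4000 * (m * (1 + J + Λ)) := by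
  have key : ∀ n ≤ R, ∑ t ∈ range n, (DD t) = X n - X 0 ∧
      ∑ t ∈ range n, EE t ≤ (X n - X 0) - 1 / 2 * (Yy n - Yy 0) ∧
      ∑ t ∈ range n, (3 / 40 * RR t) ≤ Z 0 - Z n + (X n - X 0) + 36 * ∑ t ∈ range n, EE t ∧
      ∑ t ∈ range n, VV t ≤ Q n - Q 0 + 2 * ∑ t ∈ range n, RR t := by
    intro n
    induction n with
    | zero => intro _; simp
    | succ n ih =>
      intro hn
      obtain ⟨i1, i2, i3, i4⟩ := ih (by omega)
      have a1 := hD n (by omega)
      have a2 := hE n (by omega)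
      have a3 := hZ n (by omega)
      have a4 := hQ n (by omega)
      simp only [Finset.sum_range_succ]
      refine ⟨by linarith, by linarith, by linarith, by linarith⟩
  obtain ⟨k1, k2, k3, k4⟩ := key R le_rfl
  rw [← Finset.mul_sum] at k3
  simp only [Finset.sum_add_distrib, ← Finset.mul_sum]
  have hmΛ : 0 ≤ m * Λ := mul_nonneg hm hΛ
  have hmJ : 0 ≤ m * J := mul_nonneg hm hJ
  have e1 : m * (1 + J + Λ) = m + m * J + m * Λ := by ring
  have e2 : m * (J * 2) = 2 * (m * J) := by ring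
  rw [e2] at hY0 hYR
  rw [e1]
  have b1 : ∑ t ∈ range R, DD t ≤ m * Λ := by rw [k1]; linarith
  have b2 : ∑ t ∈ range R, EE t ≤ m * Λ + 2 * (m * J) := by linarith
  have b3 : ∑ t ∈ range R, RR t ≤ 1000 * (m + m * J + m * Λ) := by linarith
  linarith

/-- Counting: the mass of a label cannot drop faster than the relabelled mass. -/
theorem rp_mass (C : Finset ℕ) (lq : ℕ → ℕ → ℤ) (j : ℤ) (t1 n : ℕ) :
    (C.filter fun q => lq t1 q = j).card ≤ (C.filter fun q => lq (t1 + n) q = j).card +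
      ∑ x ∈ range n, (C.filter fun q => lq (t1 + x + 1) q ≠ lq (t1 + x) q).card := by
  classical
  induction n with
  | zero => simp
  | succ n ih =>
    rw [Finset.sum_range_succ]
    have h : (C.filter fun q => lq (t1 + n) q = j).card ≤
        (C.filter fun q => lq (t1 + (n + 1)) q = j).card +
          (C.filter fun q => lq (t1 + n + 1) q ≠ lq (t1 + n) q).card := by
      rw [← Nat.add_assoc]
      refine (Finset.card_le_card (t := (C.filter fun q => lq (t1 + n + 1) q = j) ∪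
        (C.filter fun q => lq (t1 + n + 1) q ≠ lq (t1 + n) q)) ?_).trans
        (Finset.card_union_le _ _)
      intro q hq
      rw [Finset.mem_filter] at hq
      rw [Finset.mem_union, Finset.mem_filter, Finset.mem_filter]
      by_cases e : lq (t1 + n + 1) q = j
      · exact Or.inl ⟨hq.1, e⟩
      · refine Or.inr ⟨hq.1, ?_⟩
        rw [hq.2]
        exact e
    omega

/-- Some label has at least the mean mass. -/
theorem rp_label (C : Finset ℕ) (l : ℕ → ℤ) (J0 : ℕ)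
    (hl : ∀ q ∈ C, -(J0 : ℤ) ≤ l q ∧ l q ≤ J0) :
    ∃ x < 2 * J0 + 1, C.card ≤ (2 * J0 + 1) * (C.filter fun q => l q = (x : ℤ) - J0).card := by
  classical
  by_contra hcon
  push Not at hcon
  have h1 : C.card = ∑ x ∈ range (2 * J0 + 1), (C.filter fun q => l q = (x : ℤ) - J0).card := by
    rw [Finset.card_eq_sum_card_fiberwise (f := fun q => (l q + J0).toNat)
      (t := range (2 * J0 + 1))]
    · refine Finset.sum_congr rfl fun x _ => ?_
      congr 1
      ext q
      rw [Finset.mem_filter, Finset.mem_filter]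
      constructor
      · rintro ⟨h1, h2⟩
        have := hl q h1
        exact ⟨h1, by omega⟩
      · rintro ⟨h1, h2⟩
        exact ⟨h1, by omega⟩
    · intro q hq
      have := hl q (Finset.mem_coe.mp hq)
      have h3 : (l q + J0).toNat < 2 * J0 + 1 := by omega
      exact Finset.mem_coe.mpr (Finset.mem_range.mpr h3)
  have h2 : ∑ x ∈ range (2 * J0 + 1), (2 * J0 + 1) * (C.filter fun q => l q = (x : ℤ) - J0).card <
      ∑ x ∈ range (2 * J0 + 1), C.card := by
    refine Finset.sum_lt_sum_of_nonempty ⟨0, Finset.mem_range.mpr (by omega)⟩ ?_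
    intro x hx
    exact hcon x (Finset.mem_range.mp hx)
  rw [← Finset.mul_sum, ← h1, Finset.sum_const, Finset.card_range, smul_eq_mul] at h2
  exact lt_irrefl _ h2

end Pool.Agent.Lib.HBP
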