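import Mathlib
import Pool.Agent.Lib.HBP.Level
import Pool.Agent.Lib.HBP.RPig

/-!
MASTER STATEMENT Red (helper5): the pigeonhole over the cycles of levels.  `θ t k = slo Y (bs t) k`.
-/

namespace Pool.Agent.Lib.HBP

open Finset

/-- The blocks of label `j` which contain elements of `C`. -/
private noncomputable def mrL (C : Finset ℕ) (S N : ℕ) (lb : ℕ → ℤ) (j : ℤ) : Finset ℕ :=
  (range N).filter fun k => lb k = j ∧ cnt C S k ≠ 0

private theorem mr_mem (C : Finset ℕ) (S N : ℕ) (lb : ℕ → ℤ) (j : ℤ) (hS : 0 < S)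
    (hC : ∀ q ∈ C, q < N * S) (q : ℕ) (hq : q ∈ C) :
    q / S ∈ mrL C S N lb j ↔ lb (q / S) = j := by
  classical
  unfold mrL
  rw [Finset.mem_filter]
  constructor
  · rintro ⟨_, h, _⟩
    exact h
  · intro h
    exact ⟨Finset.mem_range.mpr ((Nat.div_lt_iff_lt_mul hS).mpr (hC q hq)), h,
      r_cnt_ne_zero C S q hq⟩

private theorem mr_sum (C : Finset ℕ) (S N : ℕ) (lb : ℕ → ℤ) (j : ℤ) (hS : 0 < S)
    (hC : ∀ q ∈ C, q < N * S) :
    ∑ k ∈ mrL C S N lb j, cnt C S k = (C.filter fun q => lb (q / S) = j).card := by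
  classical
  rw [Finset.card_eq_sum_card_fiberwise (f := fun q => q / S) (t := mrL C S N lb j)]
  · refine Finset.sum_congr rfl fun k hk => ?_
    unfold cnt
    congr 1
    ext q
    rw [Finset.mem_filter, Finset.mem_filter, Finset.mem_filter]
    unfold mrL at hk
    rw [Finset.mem_filter] at hk
    constructor
    · rintro ⟨h1, h2⟩
      exact ⟨⟨h1, by rw [h2]; exact hk.2.1⟩, h2⟩
    · rintro ⟨⟨h1, _⟩, h2⟩
      exact ⟨h1, h2⟩
  · intro q hq
    rw [Finset.mem_coe, Finset.mem_filter] at hq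
    exact Finset.mem_coe.mpr ((mr_mem C S N lb j hS hC q hq.1).mpr hq.2)

private theorem mr_disj (C : Finset ℕ) (S N : ℕ) (lb : ℕ → ℤ) (i j : ℤ) (h : i ≠ j) :
    Disjoint (mrL C S N lb i) (mrL C S N lb j) := by
  classical
  rw [Finset.disjoint_left]
  intro k h1 h2
  unfold mrL at h1 h2
  rw [Finset.mem_filter] at h1 h2
  exact h (h1.2.1.symm.trans h2.2.1)

/-- Sum over the labels of the leaving mass. -/
private theorem mr_leave (C : Finset ℕ) (lq lq' : ℕ → ℤ) (J : Finset ℤ) :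
    ∑ j ∈ J, (C.filter fun q => lq q = j ∧ lq' q ≠ j).card ≤
      (C.filter fun q => lq' q ≠ lq q).card := by
  classical
  rw [← Finset.card_biUnion]
  · refine Finset.card_le_card fun q hq => ?_
    rw [Finset.mem_biUnion] at hq
    obtain ⟨j, _, hq⟩ := hq
    rw [Finset.mem_filter] at hq ⊢
    exact ⟨hq.1, by rw [hq.2.1]; exact hq.2.2⟩
  · intro i _ j _ hij
    show Disjoint _ _
    rw [Finset.disjoint_left]
    intro q h1 h2
    rw [Finset.mem_filter] at h1 h2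
    exact hij (h1.2.1.symm.trans h2.2.1)

private theorem mr_log (J0 : ℕ) (θ : ℝ) (h1 : 1 ≤ θ * 4 ^ J0) (h2 : θ ≤ 4 ^ J0) :
    Real.log θ ≤ (J0 : ℝ) * 2 ∧ -((J0 : ℝ) * 2) ≤ Real.log θ := by
  have h4 : (0 : ℝ) < 4 ^ J0 := by positivity
  have hθ : 0 < θ := by
    by_contra hcon
    push Not at hcon
    have : θ * 4 ^ J0 ≤ 0 := mul_nonpos_of_nonpos_of_nonneg hcon h4.le
    linarith
  have hl4 : Real.log 4 ≤ 2 := by
    have : (4 : ℝ) ≤ Real.exp 2 := by
      have h := Real.add_one_le_exp (1 : ℝ)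
      have e : Real.exp 2 = Real.exp 1 * Real.exp 1 := by rw [← Real.exp_add]; norm_num
      rw [e]; nlinarith
    calc Real.log 4 ≤ Real.log (Real.exp 2) := Real.log_le_log (by norm_num) this
      _ = 2 := Real.log_exp 2
  have hJ : (0 : ℝ) ≤ J0 := Nat.cast_nonneg _
  constructor
  · calc Real.log θ ≤ Real.log (4 ^ J0) := Real.log_le_log hθ h2
      _ = J0 * Real.log 4 := by rw [Real.log_pow]
      _ ≤ J0 * 2 := mul_le_mul_of_nonneg_left hl4 hJ
  · have h3 : 0 ≤ Real.log (θ * 4 ^ J0) := Real.log_nonneg h1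
    rw [Real.log_mul hθ.ne' h4.ne', Real.log_pow] at h3
    have h5 : (J0 : ℝ) * Real.log 4 ≤ J0 * 2 := mul_le_mul_of_nonneg_left hl4 hJ
    linarith

theorem red {L a₀ J0 Rc : ℕ} (hL : 2 ≤ L) (ha : 1 ≤ a₀) (hRc : 1 ≤ Rc) (Y : ℕ → ℕ) (hY : Monotone Y)
    (hY2 : ∀ x, Y x ≤ 2 * (L ^ ((2 * J0 + 1) * Rc) * a₀)) (C : Finset ℕ)
    (hC : C ⊆ range (L ^ ((2 * J0 + 1) * Rc) * a₀)) (hC0 : C.Nonempty) (w : ℕ → ℕ) (hw : Set.InjOn w C)
    (hw2 : ∀ q ∈ C, w q < 4 * (L ^ ((2 * J0 + 1) * Rc) * a₀))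
    (hθ : ∀ q ∈ C, ∀ t ≤ (2 * J0 + 1) * Rc,
      1 ≤ slo Y (bs L ((2 * J0 + 1) * Rc) a₀ t) (q / bs L ((2 * J0 + 1) * Rc) a₀ t) * 4 ^ J0 ∧
      slo Y (bs L ((2 * J0 + 1) * Rc) a₀ t) (q / bs L ((2 * J0 + 1) * Rc) a₀ t) ≤ 4 ^ J0)
    (hR : 10 ^ 6 * (2 * J0 + 1) *
      (1 + J0 + Real.log ((L ^ ((2 * J0 + 1) * Rc) * a₀ : ℝ) / C.card)) ≤ Rc) :
    ∃ t < (2 * J0 + 1) * Rc, ∃ 𝓛 ⊆ range (L ^ t),
      (∀ k ∈ 𝓛, (1 / 4 : ℝ) ≤ slo Y (bs L ((2 * J0 + 1) * Rc) a₀ t) k / (4 : ℝ) ^ (ty J0 t) ∧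
        slo Y (bs L ((2 * J0 + 1) * Rc) a₀ t) k / (4 : ℝ) ^ (ty J0 t) ≤ 4) ∧
      C.card ≤ 2 * (2 * J0 + 1) * ∑ k ∈ 𝓛, cnt C (bs L ((2 * J0 + 1) * Rc) a₀ t) k ∧
      ∑ k ∈ 𝓛, cnt C (bs L ((2 * J0 + 1) * Rc) a₀ t) k * Hd C L (bs L ((2 * J0 + 1) * Rc) a₀ (t + 1)) k +
        ∑ k ∈ 𝓛, cnt C (bs L ((2 * J0 + 1) * Rc) a₀ t) k * Ed Y L (bs L ((2 * J0 + 1) * Rc) a₀ (t + 1)) k +
        Vq C w L (bs L ((2 * J0 + 1) * Rc) a₀ (t + 1)) 𝓛 (4 * L ^ t) ≤
      10 ^ 6 * (1 + J0 + Real.log ((L ^ ((2 * J0 + 1) * Rc) * a₀ : ℝ) / C.card)) / Rc * C.card := by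
  classical
  set K : ℕ := 2 * J0 + 1 with hK
  set R : ℕ := K * Rc with hRdef
  set S : ℕ → ℕ := fun t => bs L R a₀ t with hS
  have hSe : ∀ t, bs L R a₀ t = S t := fun t => rfl
  simp only [hSe] at hθ ⊢
  have hL0 : 0 < L := by omega
  have hSpos : ∀ t, 0 < S t := fun t => r_bs_pos L R a₀ t hL0 (by omega)
  have hSs : ∀ t < R, S t = L * S (t + 1) := fun t ht => r_bs_succ L R a₀ t ht
  have hCt : ∀ t ≤ R, ∀ q ∈ C, q < L ^ t * S t := by
    intro t ht q hq
    have h1 := Finset.mem_range.mp (hC hq)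
    rw [← r_pow_mul_bs L R a₀ t ht] at h1
    exact h1
  set θ : ℕ → ℕ → ℝ := fun t k => slo Y (S t) k with hθdef
  set lb : ℕ → ℕ → ℤ := fun t k => lab L θ t k with hlb
  set lq : ℕ → ℕ → ℤ := fun t q => lb t (q / S t) with hlq
  have hpos : ∀ t ≤ R, ∀ q ∈ C, 0 < slo Y (S t) (q / S t) := by
    intro t ht q hq
    have h1 := (hθ q hq t ht).1
    by_contra hcon
    push Not at hcon
    have : slo Y (S t) (q / S t) * 4 ^ J0 ≤ 0 := mul_nonpos_of_nonpos_of_nonneg hcon (by positivity)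
    linarith
  have hanc : ∀ t ≤ R, ∀ i ≤ t, ∀ q, q / S t / L ^ (t - i) = q / S i := by
    intro t ht i hi q
    rw [Nat.div_div_eq_div_mul]
    congr 1
    show bs L R a₀ t * L ^ (t - i) = bs L R a₀ i
    unfold bs
    have e : R - i = (R - t) + (t - i) := by omega
    rw [e, pow_add]
    ring
  have hlqb : ∀ t ≤ R, ∀ q ∈ C, -(J0 : ℤ) ≤ lq t q ∧ lq t q ≤ J0 := by
    intro t ht q hq
    refine r_lab_bound L J0 θ t (q / S t) ?_
    intro i hi
    rw [hanc t ht i hi q]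
    exact hθ q hq i (hi.trans ht)
  set m : ℝ := (C.card : ℝ) with hm
  have hm0 : 0 < m := by
    rw [hm]; exact_mod_cast Finset.card_pos.mpr hC0
  set n : ℝ := (L : ℝ) ^ R * a₀ with hn
  have hnS : n = (S 0 : ℝ) := by
    have := r_pow_mul_bs L R a₀ 0 (Nat.zero_le _)
    rw [pow_zero, one_mul] at this
    rw [hn, hS]
    simp only
    rw [this]
    push_cast
    ring
  have hn0 : 0 < n := by rw [hnS]; exact_mod_cast hSpos 0
  have hmn : m ≤ n := by
    have h1 := Finset.card_le_card hC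
    rw [Finset.card_range] at h1
    rw [hm, hn]
    exact_mod_cast h1
  set Λ : ℝ := Real.log (n / m) with hΛ
  have hΛ0 : 0 ≤ Λ := Real.log_nonneg ((one_le_div hm0).mpr hmn)
  -- the level quantities
  set DD : ℕ → ℝ := fun t => ∑ k ∈ range (L ^ t), rD C L (S (t + 1)) k with hDD
  set EE : ℕ → ℝ := fun t => ∑ k ∈ range (L ^ t), rE C Y L (S (t + 1)) k with hEE
  set J : Finset ℤ := Finset.Icc (-(J0 : ℤ)) J0 with hJ
  set 𝓛 : ℕ → ℤ → Finset ℕ := fun t j => mrL C (S t) (L ^ t) (lb t) j with h𝓛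
  set VV : ℕ → ℝ := fun t => ∑ j ∈ J, Vq C w L (S (t + 1)) (𝓛 t j) (4 * L ^ t) with hVV
  set RR : ℕ → ℝ := fun t => ((C.filter fun q => lq (t + 1) q ≠ lq t q).card : ℝ) with hRR
  have hDnn : ∀ t < R, ∀ k, 0 ≤ rD C L (S (t + 1)) k := fun t _ k => r_D_nonneg C L _ k hL0
  have hEp : ∀ t < R, ∀ k, cnt C (L * S (t + 1)) k ≠ 0 → 0 < slo Y (L * S (t + 1)) k := by
    intro t ht k hk
    obtain ⟨q, hq, e⟩ := r_exists_of_cnt C _ k hk
    rw [← hSs t ht] at e ⊢
    rw [← e]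
    exact hpos t ht.le q hq
  have hEnn : ∀ t < R, ∀ k, 0 ≤ rE C Y L (S (t + 1)) k := fun t ht k =>
    r_E_nonneg C Y hY L _ k hL0 (hSpos _) (hEp t ht k)
  have hVnn : ∀ t, ∀ j, 0 ≤ Vq C w L (S (t + 1)) (𝓛 t j) (4 * L ^ t) := fun t j =>
    Vq_nonneg _ _ _ _ _ _
  have hCt' : ∀ t < R, ∀ q ∈ C, q < L ^ t * (L * S (t + 1)) := by
    intro t ht q hq
    rw [← hSs t ht]
    exact hCt t ht.le q hq
  have tot : ∑ t ∈ range R, (DD t + 2 * EE t + VV t + RR t) ≤ 4000 * (m * (1 + J0 + Λ)) := by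
    refine rp_tel R (fun t => rX C (S t)) (fun t => rY C Y (S t)) (fun t => rZ C Y (S t) (lb t))
      (fun t => ∑ j ∈ J, rEQ C w (S t) (𝓛 t j) (4 * L ^ t)) DD EE VV RR m Λ J0 ?_ ?_ ?_ ?_ ?_ ?_ ?_
      ?_ ?_ ?_ ?_ ?_ hm0.le hΛ0 (Nat.cast_nonneg _)
    · intro t ht
      have := r_sumD C (L ^ t) L (S (t + 1)) hL0 (hSpos _) (hCt' t ht)
      rw [← hSs t ht] at this
      exact this
    · intro t ht
      have := r_sumE C Y hY (L ^ t) L (S (t + 1)) hL0 (hSpos _) (hCt' t ht)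
        (hpos (t + 1) (by omega))
      rw [← hSs t ht] at this
      exact this
    · intro t ht
      have := r_sumR C Y hY (L ^ t) L (S (t + 1)) hL0 (hSpos _) (hCt' t ht)
        (hpos (t + 1) (by omega)) (by rw [← hSs t ht]; exact hpos t ht.le) (lb t) (lb (t + 1))
        (by
          intro q hq
          rw [← hSs t ht]
          exact r_lab_fit L θ t (q / S t) (hpos t ht.le q hq))
        (fun k => r_lab_succ L θ t k)
      rw [← hSs t ht] at this
      exact this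
    · intro t ht
      have e : ∀ j ∈ J, rEQ C w (S t) (𝓛 t j) (4 * L ^ t) +
          Vq C w L (S (t + 1)) (𝓛 t j) (4 * L ^ t) ≤
          rEQ C w (S (t + 1)) (𝓛 (t + 1) j) (4 * L ^ (t + 1)) +
            2 * ((C.filter fun q => lq t q = j ∧ lq (t + 1) q ≠ j).card : ℝ) := by
        intro j _
        have := r_quad_step C w hw L (S (t + 1)) hL0 (hSpos _) (𝓛 t j) (𝓛 (t + 1) j) (4 * L ^ t)
        rw [← hSs t ht] at this
        have e1 : 4 * L ^ t * L = 4 * L ^ (t + 1) := by ring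
        rw [e1] at this
        have e2 : (C.filter fun q => q / S t ∈ 𝓛 t j ∧ q / S (t + 1) ∉ 𝓛 (t + 1) j) =
            (C.filter fun q => lq t q = j ∧ lq (t + 1) q ≠ j) := by
          refine Finset.filter_congr fun q hq => ?_
          have a1 := mr_mem C (S t) (L ^ t) (lb t) j (hSpos t) (hCt t ht.le) q hq
          have a2 := mr_mem C (S (t + 1)) (L ^ (t + 1)) (lb (t + 1)) j (hSpos _)
            (hCt (t + 1) (by omega)) q hq
          rw [a1, a2]
        rw [e2] at this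
        exact this
      have s := Finset.sum_le_sum e
      rw [Finset.sum_add_distrib, Finset.sum_add_distrib, ← Finset.mul_sum] at s
      have l := mr_leave C (lq t) (lq (t + 1)) J
      have l' : ∑ j ∈ J, ((C.filter fun q => lq t q = j ∧ lq (t + 1) q ≠ j).card : ℝ) ≤ RR t := by
        have l2 := (Nat.cast_le (α := ℝ)).mpr l
        rw [Nat.cast_sum] at l2
        exact l2
      show _ + VV t ≤ _
      linarith
    · have h0 : ∀ q ∈ C, q < S 0 := by
        intro q hq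
        have := hCt 0 (Nat.zero_le _) q hq
        rwa [pow_zero, one_mul] at this
      show rX C (S 0) = _
      rw [rX_top C (S 0) h0, ← hnS, hΛ, ← hm]
      rw [Real.log_div hm0.ne' hn0.ne', Real.log_div hn0.ne' hm0.ne']
      ring
    · exact rX_nonpos C (S R) (hSpos R)
    · show rY C Y (S 0) ≤ _
      unfold rY
      calc ∑ q ∈ C, Real.log (slo Y (S 0) (q / S 0)) ≤ ∑ q ∈ C, (J0 : ℝ) * 2 :=
            Finset.sum_le_sum fun q hq =>
              (mr_log J0 _ (hθ q hq 0 (Nat.zero_le _)).1 (hθ q hq 0 (Nat.zero_le _)).2).1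
        _ = m * (J0 * 2) := by rw [Finset.sum_const, nsmul_eq_mul]
    · show _ ≤ rY C Y (S R)
      unfold rY
      calc -(m * ((J0 : ℝ) * 2)) = ∑ q ∈ C, -((J0 : ℝ) * 2) := by
            rw [Finset.sum_const, nsmul_eq_mul]; ring
        _ ≤ _ := Finset.sum_le_sum fun q hq =>
              (mr_log J0 _ (hθ q hq R le_rfl).1 (hθ q hq R le_rfl).2).2
    · show rZ C Y (S 0) (lb 0) ≤ m
      unfold rZ
      calc _ ≤ ∑ q ∈ C, (1 : ℝ) := Finset.sum_le_sum fun q _ => rQ_le_one _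
        _ = m := by rw [Finset.sum_const, nsmul_eq_mul, mul_one]
    · exact Finset.sum_nonneg fun q _ => rQ_nonneg _
    · exact Finset.sum_nonneg fun j _ => rEQ_nonneg _ _ _ _ _
    · exact r_quad_last C w hw (S R) (hSpos R) J (𝓛 R)
        (fun i _ j _ h => mr_disj C (S R) (L ^ R) (lb R) i j h) _
  have hcyc : ∑ t ∈ range (Rc * K), (DD t + 2 * EE t + VV t + RR t) ≤
      4000 * (m * (1 + J0 + Λ)) := by
    rw [mul_comm Rc K]
    exact tot
  obtain ⟨i, hi, hcy⟩ := rp_pig K Rc (by omega) _ _ hcyc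
  have hiK : i * K + K ≤ R := by
    rw [hRdef, mul_comm K Rc]
    calc i * K + K = (i + 1) * K := by ring
      _ ≤ Rc * K := Nat.mul_le_mul_right _ hi
  obtain ⟨x, hx, hlx⟩ := rp_label C (lq (i * K)) J0 (hlqb (i * K) (by omega))
  have hx' : x < K := hx
  set t : ℕ := i * K + x with ht
  have htR : t < R := by omega
  have hty : ty J0 t = (x : ℤ) - J0 := by
    unfold ty
    have e : t % (2 * J0 + 1) = x := by
      rw [ht, hK, mul_comm, Nat.mul_add_mod]
      exact Nat.mod_eq_of_lt hx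
    rw [e]
  set j : ℤ := ty J0 t with hj
  have hjJ : j ∈ J := by
    rw [hJ, Finset.mem_Icc, hty]
    omega
  have hfnn : ∀ y < K, 0 ≤ DD (i * K + y) + 2 * EE (i * K + y) + VV (i * K + y) + RR (i * K + y) := by
    intro y hy
    have h1 : 0 ≤ DD (i * K + y) := Finset.sum_nonneg fun k _ => hDnn _ (by omega) k
    have h2 : 0 ≤ EE (i * K + y) := Finset.sum_nonneg fun k _ => hEnn _ (by omega) k
    have h3 : 0 ≤ VV (i * K + y) := Finset.sum_nonneg fun k _ => hVnn _ k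
    have h4 : 0 ≤ RR (i * K + y) := Nat.cast_nonneg _
    linarith
  have hRcR : (0 : ℝ) < Rc := by exact_mod_cast (by omega : 0 < Rc)
  have hone : DD t + 2 * EE t + VV t + RR t ≤ 4000 * (m * (1 + J0 + Λ)) / Rc := by
    refine le_trans ?_ hcy
    exact Finset.single_le_sum (f := fun y => DD (i * K + y) + 2 * EE (i * K + y) +
      VV (i * K + y) + RR (i * K + y)) (fun y hy => hfnn y (Finset.mem_range.mp hy))
      (Finset.mem_range.mpr hx')
  have hRRs : ∑ y ∈ range x, RR (i * K + y) ≤ 4000 * (m * (1 + J0 + Λ)) / Rc := by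
    refine le_trans ?_ hcy
    calc ∑ y ∈ range x, RR (i * K + y) ≤ ∑ y ∈ range K, RR (i * K + y) :=
          Finset.sum_le_sum_of_subset_of_nonneg
            (Finset.range_subset_range.mpr hx'.le) (fun _ _ _ => Nat.cast_nonneg _)
      _ ≤ _ := by
          refine Finset.sum_le_sum fun y hy => ?_
          have hy' := Finset.mem_range.mp hy
          have h1 : 0 ≤ DD (i * K + y) := Finset.sum_nonneg fun k _ => hDnn _ (by omega) k
          have h2 : 0 ≤ EE (i * K + y) := Finset.sum_nonneg fun k _ => hEnn _ (by omega) k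
          have h3 : 0 ≤ VV (i * K + y) := Finset.sum_nonneg fun k _ => hVnn _ k
          linarith
  have hRc' : 10 ^ 6 * (K : ℝ) * (1 + J0 + Λ) ≤ Rc := by
    have e : (K : ℝ) = 2 * (J0 : ℝ) + 1 := by rw [hK]; push_cast; ring
    rw [e]
    exact hR
  have hK0 : (0 : ℝ) < K := by rw [hK]; positivity
  have hA0 : 0 < 1 + (J0 : ℝ) + Λ := by positivity
  have hsmall : 4000 * (m * (1 + J0 + Λ)) / Rc ≤ m / (250 * K) := by
    rw [div_le_div_iff₀ hRcR (by positivity)]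
    have : m * (10 ^ 6 * (K : ℝ) * (1 + J0 + Λ)) ≤ m * Rc := mul_le_mul_of_nonneg_left hRc' hm0.le
    nlinarith
  have hmass : m ≤ 2 * (K : ℝ) * ((C.filter fun q => lq t q = j).card : ℝ) := by
    have h1 := rp_mass C lq j (i * K) x
    have h2 : m ≤ (K : ℝ) * ((C.filter fun q => lq (i * K) q = j).card : ℝ) := by
      rw [hty]
      rw [hm]
      have : C.card ≤ K * (C.filter fun q => lq (i * K) q = (x : ℤ) - J0).card := hlx
      exact_mod_cast this
    have h3 : ((C.filter fun q => lq (i * K) q = j).card : ℝ) ≤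
        ((C.filter fun q => lq t q = j).card : ℝ) + ∑ y ∈ range x, RR (i * K + y) := by
      have l2 := (Nat.cast_le (α := ℝ)).mpr h1
      rw [Nat.cast_add, Nat.cast_sum] at l2
      exact l2
    have h4 : (K : ℝ) * ∑ y ∈ range x, RR (i * K + y) ≤ m / 250 := by
      calc (K : ℝ) * ∑ y ∈ range x, RR (i * K + y) ≤ K * (m / (250 * K)) :=
            mul_le_mul_of_nonneg_left (hRRs.trans hsmall) hK0.le
        _ = m / 250 := by field_simp
    have h5 : m ≤ (K : ℝ) * ((C.filter fun q => lq t q = j).card : ℝ) + m / 250 := by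
      calc m ≤ (K : ℝ) * ((C.filter fun q => lq (i * K) q = j).card : ℝ) := h2
        _ ≤ (K : ℝ) * (((C.filter fun q => lq t q = j).card : ℝ) +
            ∑ y ∈ range x, RR (i * K + y)) := mul_le_mul_of_nonneg_left h3 hK0.le
        _ ≤ _ := by rw [mul_add]; linarith
    linarith
  refine ⟨t, htR, 𝓛 t j, Finset.filter_subset _ _, ?_, ?_, ?_⟩
  · intro k hk
    have hk' : k ∈ mrL C (S t) (L ^ t) (lb t) j := hk
    unfold mrL at hk'
    rw [Finset.mem_filter] at hk'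
    obtain ⟨q, hq, e⟩ := r_exists_of_cnt C _ k hk'.2.2
    have hp := hpos t htR.le q hq
    rw [e] at hp
    have := r_lab_fit L θ t k hp
    have e2 : lab L θ t k = j := hk'.2.1
    rw [e2] at this
    exact this
  · rw [mr_sum C (S t) (L ^ t) (lb t) j (hSpos t) (hCt t htR.le)]
    have : (C.card : ℝ) ≤ 2 * (K : ℝ) * ((C.filter fun q => lb t (q / S t) = j).card : ℝ) := hmass
    exact_mod_cast this
  · have hH : ∑ k ∈ 𝓛 t j, (cnt C (S t) k : ℝ) * Hd C L (S (t + 1)) k ≤ DD t := by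
      calc ∑ k ∈ 𝓛 t j, (cnt C (S t) k : ℝ) * Hd C L (S (t + 1)) k ≤
            ∑ k ∈ 𝓛 t j, rD C L (S (t + 1)) k := by
            refine Finset.sum_le_sum fun k _ => ?_
            have := r_Hd_le C L (S (t + 1)) k hL0
            rw [← hSs t htR] at this
            exact this
        _ ≤ DD t := Finset.sum_le_sum_of_subset_of_nonneg (Finset.filter_subset _ _)
            fun k _ _ => hDnn t htR k
    have hE : ∑ k ∈ 𝓛 t j, (cnt C (S t) k : ℝ) * Ed Y L (S (t + 1)) k ≤ 2 * EE t := by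
      rw [hEE]
      simp only
      rw [Finset.mul_sum]
      calc ∑ k ∈ 𝓛 t j, (cnt C (S t) k : ℝ) * Ed Y L (S (t + 1)) k =
            ∑ k ∈ 𝓛 t j, 2 * rE C Y L (S (t + 1)) k := by
            refine Finset.sum_congr rfl fun k _ => ?_
            have := r_Ed_eq C Y hY L (S (t + 1)) k hL0 (hSpos _) (hEp t htR k)
            rw [← hSs t htR] at this
            exact this
        _ ≤ _ := Finset.sum_le_sum_of_subset_of_nonneg (Finset.filter_subset _ _)
            fun k _ _ => mul_nonneg (by norm_num) (hEnn t htR k)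
    have hV : Vq C w L (S (t + 1)) (𝓛 t j) (4 * L ^ t) ≤ VV t :=
      Finset.single_le_sum (f := fun j => Vq C w L (S (t + 1)) (𝓛 t j) (4 * L ^ t))
        (fun j _ => hVnn t j) hjJ
    have hRt : 0 ≤ RR t := Nat.cast_nonneg _
    have hfin : 4000 * (m * (1 + J0 + Λ)) / Rc ≤ 10 ^ 6 * (1 + J0 + Λ) / Rc * m := by
      rw [div_mul_eq_mul_div]
      refine (div_le_div_iff_of_pos_right hRcR).mpr ?_
      nlinarith [mul_pos hm0 hA0]
    linarith

end Pool.Agent.Lib.HBP
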