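import Mathlib
import Pool.Agent.Lib.HBP.GLevels
import Pool.Agent.Lib.HBP.GCut
import Pool.Agent.Lib.HBP.GChain
import Pool.Agent.Lib.HBP.GHeavy
import Pool.Agent.Lib.HBP.MRed

/-!
# Project HBP, GLOBAL: assembly for fixed parameters
-/

namespace Pool.Agent.Lib.HBP

open Finset
open Pool.Agent.Lib.MP_70146a_co

theorem cu_zpow (j : ℤ) : (4 : ℝ) ^ j = (cu2 j : ℝ) / cu1 j := by
  unfold cu1 cu2
  rcases le_total 0 j with h | h
  · obtain ⟨m, rfl⟩ := Int.eq_ofNat_of_zero_le h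
    have h1 : (-(m : ℤ)).toNat = 0 := by omega
    rw [h1]
    simp
  · obtain ⟨m, hm⟩ := Int.eq_ofNat_of_zero_le (show 0 ≤ -j by omega)
    have hj : j = -(m : ℤ) := by omega
    subst hj
    have h1 : (-(m : ℤ)).toNat = 0 := by omega
    have h2 : (- -(m : ℤ)).toNat = m := by omega
    rw [h1, h2]
    simp

theorem gHd_nonneg (C : Finset ℕ) (L b k : ℕ) : 0 ≤ Hd C L b k :=
  Finset.sum_nonneg fun _ _ => sq_nonneg _

theorem gEd_nonneg (Y : ℕ → ℕ) (L b k : ℕ) : 0 ≤ Ed Y L b k :=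
  mul_nonneg (by positivity) (Finset.sum_nonneg fun _ _ => sq_nonneg _)

theorem gVq_nonneg (C : Finset ℕ) (w : ℕ → ℕ) (L b : ℕ) (𝓛 : Finset ℕ) (cmax : ℕ) :
    0 ≤ Vq C w L b 𝓛 cmax :=
  mul_nonneg (by positivity) (Finset.sum_nonneg fun _ _ => sq_nonneg _)

/-- Simple consequences of the parameter conditions. -/
theorem Par.facts {h h' K2 G a L J0 Q : ℕ} (P : Par h h' K2 G a L J0 Q) :
    1 ≤ h ∧ h ^ 3 ≤ Q ∧ h ^ 3 ≤ L ∧ 2 ≤ L ∧ 1 ≤ Q := by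
  have h1 : 1 ≤ h' := by
    have := P.hG
    have := P.Gpos
    nlinarith
  have h2 : 1 ≤ h := by
    rw [P.hh]
    exact Nat.mul_pos P.K2pos h1
  have hQ := P.hQ
  have h3 : 10 ^ 60 * h ^ 4 ≤ Q := by
    have e1 : 1 ≤ G * K2 * 4 ^ J0 :=
      Nat.mul_pos (Nat.mul_pos P.Gpos P.K2pos) (by positivity)
    calc 10 ^ 60 * h ^ 4 = 10 ^ 60 * h ^ 4 * 1 := by ring
      _ ≤ 10 ^ 60 * h ^ 4 * (G * K2 * 4 ^ J0) := Nat.mul_le_mul_left _ e1
      _ = 10 ^ 60 * h ^ 4 * G * K2 * 4 ^ J0 := by ring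
      _ ≤ Q := hQ
  have h4 : h ^ 3 ≤ h ^ 4 := Nat.pow_le_pow_right h2 (by norm_num)
  have h5 : h ^ 3 ≤ Q := by nlinarith
  have hQ1 : 1 ≤ Q := le_trans (by nlinarith [Nat.one_le_pow 4 h h2]) h3
  have hQ2 : 2 ≤ Q := le_trans (by nlinarith [Nat.one_le_pow 4 h h2]) h3
  have h6 : Q ≤ Q ^ 20 := Nat.le_self_pow (by norm_num) Q
  have ha1 : 1 ≤ a := le_trans (Nat.one_le_pow _ _ hQ1) P.ha
  have h7 : Q ≤ L := by
    calc Q ≤ Q ^ 20 := h6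
      _ = 1 * Q ^ 20 := by ring
      _ ≤ a * Q ^ 20 := Nat.mul_le_mul_right _ ha1
      _ ≤ L := P.hL
  exact ⟨h2, h5, h5.trans h7, hQ2.trans h7, hQ1⟩

theorem main_par {h h' K2 G a L J0 Q I Rc n : ℕ} (P : Par h h' K2 G a L J0 Q)
    (hI : h ^ 3 ≤ 2 ^ I) (hK : 2 * (2 * (2 * J0 + 1)) * (I + 1) ≤ K2)
    (hJ : 3 * h ^ 3 ≤ 4 ^ J0 * (240 * K2 * (2 * (2 * J0 + 1))))
    (hRc : 10 ^ 48 * (K2 : ℝ) ^ 2 * (h : ℝ) ^ 4 * (10 ^ 6 * (1 + J0 + Real.log Q)) ≤ Rc)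
    (hn : L ^ ((2 * J0 + 1) * Rc + 1) ≤ n) (hLQ : L ≤ Q ^ 100)
    (hnQ : Real.log (4 * n) ≤ (Q : ℝ) ^ 2) :
    ∃ f : ℕ → ℕ, PermOn n f ∧
      ∀ E : Finset (ℕ × ℕ), (∀ e ∈ E, e.1 < n ∧ e.2 < n) →
        (∀ e ∈ E, ∀ e' ∈ E, e.1 = e'.1 → e = e') →
        (∀ e ∈ E, ∀ e' ∈ E, e.1 < e'.1 → e.2 < e'.2) →
        (nw f E : ℝ) ≤ 960 * K2 * (2 * (2 * J0 + 1)) * n / (h : ℝ) ^ 3 := by
  classical
  obtain ⟨hh1, hh3Q, hh3L, hL2, hQ1⟩ := P.facts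
  have hL0 : 0 < L := by omega
  set R : ℕ := (2 * J0 + 1) * Rc with hR
  set a₀ : ℕ := n / L ^ R with ha₀def
  have hLR : 0 < L ^ R := pow_pos hL0 _
  have ha₀L : L ≤ a₀ := by
    rw [ha₀def, Nat.le_div_iff_mul_le hLR, ← pow_succ']
    exact hn
  have ha₀ : 1 ≤ a₀ := by omega
  have hNn : L ^ R * a₀ ≤ n := by
    rw [ha₀def, mul_comm]; exact Nat.div_mul_le_self _ _
  have hnN : n < L ^ R * a₀ + L ^ R := by
    rw [ha₀def, mul_comm (L ^ R) (n / L ^ R)]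
    exact Nat.lt_div_mul_add hLR
  have hLRN : L ^ R * L ≤ L ^ R * a₀ := Nat.mul_le_mul_left _ ha₀L
  have hn2 : n ≤ 2 * (L ^ R * a₀) := by
    have : L ^ R ≤ L ^ R * a₀ := Nat.le_mul_of_pos_right _ ha₀
    omega
  set N : ℕ := L ^ R * a₀ with hN
  have hN0 : 0 < N := by positivity
  have hlogN : Real.log (4 * (N : ℕ)) ≤ (Q : ℝ) ^ 2 := by
    refine le_trans (Real.log_le_log ?_ ?_) hnQ
    · have : (0 : ℝ) < N := by exact_mod_cast hN0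
      positivity
    · have : (N : ℝ) ≤ n := by exact_mod_cast hNn
      linarith
  obtain ⟨sg, hσ, hlev⟩ := levels_exist (R := R) (a₀ := a₀) P hL0 ha₀ hLQ (by
    rw [← hN]; exact hlogN)
  refine ⟨gPi L sg R a₀, gPi_permOn hL0 hσ R ha₀ hNn, fun E hE hinj hmon => ?_⟩
  obtain ⟨Y, C0, w, hY, hY2, hC0N, hw, hw4, hYC, hIR, hnw⟩ :=
    chain_data hL0 ha₀ hσ hn2 E hE hinj hmon
  rw [← hN] at hY2 hC0N hw4 hnw
  by_contra hcon
  push Not at hcon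
  set D : ℕ := 2 * (2 * J0 + 1) with hD
  have hD1 : 1 ≤ D := by omega
  set C := cutC (4 ^ J0) L R a₀ Y C0 with hC
  have hCsub : C ⊆ C0 := cutC_subset _ _ _ _ _ _
  -- real numbers
  have hhr : (1 : ℝ) ≤ h := by exact_mod_cast hh1
  have hh3 : (0 : ℝ) < (h : ℝ) ^ 3 := by positivity
  set u : ℝ := 240 * K2 * D / (h : ℝ) ^ 3 with hu
  have hNr : (0 : ℝ) < N := by exact_mod_cast hN0
  have hnNr : (N : ℝ) ≤ n := by exact_mod_cast hNn
  have hK2r : (1 : ℝ) ≤ K2 := by exact_mod_cast P.K2pos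
  have hDr : (1 : ℝ) ≤ D := by exact_mod_cast hD1
  have hu1 : 1 / (h : ℝ) ^ 3 ≤ u := by
    rw [hu]
    apply div_le_div_of_nonneg_right _ hh3.le
    nlinarith
  have hcon' : 4 * u * N < (nw (gPi L sg R a₀) E : ℝ) := by
    refine lt_of_le_of_lt ?_ hcon
    rw [hu]
    rw [div_eq_mul_inv, div_eq_mul_inv]
    have : 0 ≤ ((h : ℝ) ^ 3)⁻¹ := by positivity
    have h1 : (0 : ℝ) ≤ K2 := by linarith
    have e : 960 * (K2 : ℝ) * (2 * (2 * J0 + 1)) * n * ((h : ℝ) ^ 3)⁻¹ =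
        4 * (240 * K2 * D * ((h : ℝ) ^ 3)⁻¹) * n := by
      rw [hD]; push_cast; ring
    rw [e]
    apply mul_le_mul_of_nonneg_left hnNr
    positivity
  have hrest : ((n - N : ℕ) : ℝ) ≤ u * N := by
    have h1 : (n - N) * L ≤ N := by
      have : n - N ≤ L ^ R := by omega
      calc (n - N) * L ≤ L ^ R * L := Nat.mul_le_mul_right _ this
        _ ≤ N := hLRN
    have h2 : (n - N) * h ^ 3 ≤ N := (Nat.mul_le_mul_left _ hh3L).trans h1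
    have h3 : ((n - N : ℕ) : ℝ) * (h : ℝ) ^ 3 ≤ N := by exact_mod_cast h2
    calc ((n - N : ℕ) : ℝ) ≤ N / (h : ℝ) ^ 3 := by rwa [le_div_iff₀ hh3]
      _ = 1 / (h : ℝ) ^ 3 * N := by ring
      _ ≤ u * N := mul_le_mul_of_nonneg_right hu1 hNr.le
  have hnwr : (nw (gPi L sg R a₀) E : ℝ) ≤ C0.card + ((n - N : ℕ) : ℝ) := by exact_mod_cast hnw
  have hC0card : 3 * u * N ≤ C0.card := by linarith
  have hcut := cut_card (J0 := J0) hL0 ha₀ hY hY2 hYC (fun p hp => mem_range.mp (hC0N hp))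
  rw [← hN, ← hC] at hcut
  have h4J : (0 : ℝ) < (4 : ℝ) ^ J0 := by positivity
  have hJr : 3 ≤ (4 : ℝ) ^ J0 * u := by
    have : (3 : ℝ) * (h : ℝ) ^ 3 ≤ 4 ^ J0 * (240 * K2 * D) := by
      rw [hD]; exact_mod_cast hJ
    rw [hu, ← mul_div_assoc, le_div_iff₀ hh3]
    exact this
  have hCcard : u * N ≤ C.card := by
    have h1 : (4 : ℝ) ^ J0 * (2 * u * N) ≤ 4 ^ J0 * C.card := by
      have h2 : 3 * (N : ℝ) ≤ 4 ^ J0 * u * N := mul_le_mul_of_nonneg_right hJr hNr.le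
      have h3 : (4 : ℝ) ^ J0 * (3 * u * N) ≤ 4 ^ J0 * C0.card :=
        mul_le_mul_of_nonneg_left hC0card h4J.le
      nlinarith
    have h2 : 2 * u * N ≤ C.card := le_of_mul_le_mul_left h1 h4J
    have h3 : 0 ≤ u * N := by positivity
    linarith
  have hC0' : C.Nonempty := by
    rw [← card_pos]
    have h1 : 0 < u * N := by
      have : 0 < u := lt_of_lt_of_le (by positivity) hu1
      positivity
    have : (0 : ℝ) < C.card := lt_of_lt_of_le h1 hCcard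
    exact_mod_cast this
  have hCr : (0 : ℝ) < C.card := by exact_mod_cast hC0'.card_pos
  -- the logarithm
  have hlog : Real.log ((N : ℝ) / C.card) ≤ Real.log Q := by
    apply Real.log_le_log (by positivity)
    rw [div_le_iff₀ hCr]
    have h1 : (N : ℝ) / (h : ℝ) ^ 3 ≤ C.card := by
      calc (N : ℝ) / (h : ℝ) ^ 3 = 1 / (h : ℝ) ^ 3 * N := by ring
        _ ≤ u * N := mul_le_mul_of_nonneg_right hu1 hNr.le
        _ ≤ _ := hCcard
    rw [div_le_iff₀ hh3] at h1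
    have h2 : (h : ℝ) ^ 3 ≤ Q := by exact_mod_cast hh3Q
    nlinarith
  have hlog0 : 0 ≤ Real.log ((N : ℝ) / C.card) := by
    apply Real.log_nonneg
    rw [le_div_iff₀ hCr, one_mul]
    have h1 : C.card ≤ N := by
      have := card_le_card (hCsub.trans hC0N)
      rwa [card_range] at this
    exact_mod_cast h1
  have hcast : ((L : ℝ) ^ R * a₀) = (N : ℝ) := by rw [hN]; push_cast; ring
  have hX0 : (0 : ℝ) ≤ 1 + J0 + Real.log ((N : ℝ) / C.card) := by positivity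
  have hX : (1 : ℝ) + J0 + Real.log ((N : ℝ) / C.card) ≤ 1 + J0 + Real.log Q := by linarith
  have hRc' : 10 ^ 48 * (K2 : ℝ) ^ 2 * (h : ℝ) ^ 4 *
      (10 ^ 6 * (1 + J0 + Real.log ((N : ℝ) / C.card))) ≤ Rc := by
    refine le_trans ?_ hRc
    gcongr
  have hK2J : (2 * J0 + 1 : ℝ) ≤ 10 ^ 48 * (K2 : ℝ) ^ 2 * (h : ℝ) ^ 4 := by
    have h1 : 2 * J0 + 1 ≤ K2 := by
      refine le_trans ?_ hK
      nlinarith
    have h2 : (2 * J0 + 1 : ℝ) ≤ K2 := by exact_mod_cast h1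
    have h3 : (K2 : ℝ) ≤ (K2 : ℝ) ^ 2 := by nlinarith
    have h4 : (1 : ℝ) ≤ (h : ℝ) ^ 4 := one_le_pow₀ hhr
    calc (2 * J0 + 1 : ℝ) ≤ (K2 : ℝ) ^ 2 := h2.trans h3
      _ = 1 * (K2 : ℝ) ^ 2 * 1 := by ring
      _ ≤ 10 ^ 48 * (K2 : ℝ) ^ 2 * (h : ℝ) ^ 4 := by gcongr; norm_num
  have hRcpos : (0 : ℝ) < Rc := by
    have h1 : (1 : ℝ) ≤ 10 ^ 48 * (K2 : ℝ) ^ 2 * (h : ℝ) ^ 4 := by
      refine le_trans ?_ hK2J
      have : (0 : ℝ) ≤ J0 := Nat.cast_nonneg _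
      linarith
    have h2 : (1 : ℝ) ≤ 10 ^ 6 * (1 + J0 + Real.log ((N : ℝ) / C.card)) := by
      have : (0 : ℝ) ≤ J0 := Nat.cast_nonneg _
      linarith
    have := mul_le_mul h1 h2 zero_le_one (by positivity)
    linarith
  have hRc1 : 1 ≤ Rc := by exact_mod_cast hRcpos
  have hsubN : C ⊆ range N := hCsub.trans hC0N
  obtain ⟨t, ht, 𝓛, h𝓛, hlam, hmass, hsum⟩ := red (L := L) (a₀ := a₀) (J0 := J0) (Rc := Rc)
    hL2 ha₀ hRc1 Y hY (by rw [← hR, ← hN]; exact hY2) C (by rw [← hR, ← hN]; exact hsubN)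
    hC0' w (hw.mono (by exact_mod_cast hCsub))
    (by rw [← hR, ← hN]; exact fun q hq => hw4 q (hCsub hq))
    (by
      rw [← hR]
      intro q hq t ht
      exact cut_slo hL0 ha₀ hY hq ht)
    (by
      rw [← hR, hcast]
      refine le_trans ?_ hRc'
      calc (10 : ℝ) ^ 6 * (2 * J0 + 1) * (1 + J0 + Real.log ((N : ℝ) / C.card))
          = (2 * J0 + 1) * (10 ^ 6 * (1 + J0 + Real.log ((N : ℝ) / C.card))) := by ring
        _ ≤ _ := by gcongr)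
  rw [← hR] at ht hlam hmass hsum
  rw [hcast] at hsum
  obtain ⟨pos, hU, hReal⟩ := hlev t ht
  set b := bs L R a₀ (t + 1) with hb
  have hbs : bs L R a₀ t = L * b := bs_succ ht
  rw [hbs] at hlam hmass hsum
  have hNb : L ^ t * L * b = N := by
    rw [← pow_succ, hb, hN]
    exact pow_mul_bs (by omega)
  have hb1 : 1 ≤ b := bs_pos hL0 ha₀
  have hperm := row_permOn hL0 hσ t
  set δ : ℝ := 10 ^ 6 * (1 + J0 + Real.log ((N : ℝ) / C.card)) / Rc with hδ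
  have hδ0 : 0 ≤ δ := by positivity
  have hH0 : 0 ≤ ∑ k ∈ 𝓛, (cnt C (L * b) k : ℝ) * Hd C L b k :=
    sum_nonneg fun k _ => mul_nonneg (Nat.cast_nonneg _) (gHd_nonneg _ _ _ _)
  have hE0 : 0 ≤ ∑ k ∈ 𝓛, (cnt C (L * b) k : ℝ) * Ed Y L b k :=
    sum_nonneg fun k _ => mul_nonneg (Nat.cast_nonneg _) (gEd_nonneg _ _ _ _)
  have hV0 : 0 ≤ Vq C w L b 𝓛 (4 * L ^ t) := gVq_nonneg _ _ _ _ _ _
  refine level_false P (cls_ty J0 t) hb1 (Nat.one_le_pow _ _ hL0) (row L sg t)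
    (fun k hk => hperm.1 k hk) (fun x hx y hy hxy => hperm.2 x y hx hy hxy) pos hU (sg t)
    (fun k _ => hReal k) Y hY (by rw [hNb]; exact hY2) C (by rw [hNb]; exact hsubN) w
    (hw.mono (by exact_mod_cast hCsub)) (fun q hq => hIR t ht q (hCsub hq)) 𝓛 h𝓛 ?_ D I hD1
    hmass hK hI ?_ δ hδ0 ?_ (by linarith) (by linarith) (by linarith) hC0'
  · intro k hk
    have h1 := hlam k hk
    rw [cu_zpow] at h1
    have hc1 : (0 : ℝ) < cu1 (ty J0 t) := by unfold cu1; positivity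
    have hc2 : (0 : ℝ) < cu2 (ty J0 t) := by unfold cu2; positivity
    have e : slo Y (L * b) k / ((cu2 (ty J0 t) : ℝ) / cu1 (ty J0 t)) =
        slo Y (L * b) k * cu1 (ty J0 t) / cu2 (ty J0 t) := by
      field_simp
    rw [e] at h1
    exact h1
  · rw [hNb]
    have h1 : (240 : ℝ) * K2 * D * N ≤ C.card * (h : ℝ) ^ 3 := by
      have h2 : u * N * (h : ℝ) ^ 3 ≤ C.card * (h : ℝ) ^ 3 :=
        mul_le_mul_of_nonneg_right hCcard hh3.le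
      have h3 : u * N * (h : ℝ) ^ 3 = 240 * K2 * D * N := by
        rw [hu]; field_simp
      linarith
    exact_mod_cast h1
  · rw [hδ, ← mul_div_assoc, div_le_one hRcpos]
    exact hRc'

end Pool.Agent.Lib.HBP
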