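import Mathlib
import Pool.Agent.Lib.HBP.Level

/-!
MODULE GPar (helper63): the parameters as functions of one large integer `x`.

`l = Nat.clog 2 x`, `J0 = 2 l + 2`, `I = 3 l`, `K2 = 4 (2 J0 + 1)(I + 1)`, `h' = x / K2`, `h = K2 h'`,
`G = 10^4 l`, `Q = x^10`, `a = 32 * 4^J0 * Q^20`, `L = a * Q^20`, `Rc = 10^56 K2^2 x^4 l`.
-/

namespace Pool.Agent.Lib.HBP

open Finset

/-- Everything which is needed about `l = Nat.clog 2 x` for large `x`. -/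
private theorem ev : ∃ x₀ : ℕ, ∀ x : ℕ, x₀ ≤ x → 10 ^ 40 ≤ x ∧ 1 ≤ Real.log x ∧
    1 ≤ Nat.clog 2 x ∧ Real.log x ≤ Nat.clog 2 x ∧ (Nat.clog 2 x : ℝ) ≤ 2 * Real.log x ∧
    x ≤ 2 ^ Nat.clog 2 x ∧ 2 ^ Nat.clog 2 x ≤ 2 * x ∧ 10 ^ 29 * (144 * Nat.clog 2 x ^ 3) ≤ x := by
  have h1 : ∀ᶠ x : ℝ in Filter.atTop, ‖Real.log x ^ 3‖ ≤ 1 / (10 ^ 29 * (144 * 8)) * ‖id x‖ :=
    (Real.isLittleO_pow_log_id_atTop (n := 3)).def (by positivity)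
  obtain ⟨y₀, hy₀⟩ := Filter.eventually_atTop.1 h1
  refine ⟨max ⌈y₀⌉₊ (10 ^ 40), fun x hx => ?_⟩
  have hx1 : 10 ^ 40 ≤ x := le_trans (le_max_right _ _) hx
  have hx2 : y₀ ≤ (x : ℝ) := (Nat.le_ceil y₀).trans (by exact_mod_cast le_trans (le_max_left _ _) hx)
  have hxr : (10 : ℝ) ^ 40 ≤ x := by exact_mod_cast hx1
  have hx0 : (0 : ℝ) < x := by linarith [show (0 : ℝ) < 10 ^ 40 by positivity]
  have hxne : x ≠ 0 := by omega
  have hx1' : 1 < x := by omega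
  have hlog2 : 0.6931471803 < Real.log 2 := Real.log_two_gt_d9
  have hlog2' : Real.log 2 < 0.6931471808 := Real.log_two_lt_d9
  have hlogx : 20 ≤ Real.log x := by
    rw [Real.le_log_iff_exp_le hx0]
    have h1 : Real.exp 20 = Real.exp 1 ^ 20 := by rw [← Real.exp_nat_mul]; norm_num
    rw [h1]
    have h2 : Real.exp 1 < 2.7182818286 := Real.exp_one_lt_d9
    calc Real.exp 1 ^ 20 ≤ (3 : ℝ) ^ 20 := by
          have : (0 : ℝ) < Real.exp 1 := Real.exp_pos 1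
          gcongr
          linarith
      _ ≤ 10 ^ 40 := by norm_num
      _ ≤ x := hxr
  set l := Nat.clog 2 x with hl
  have hle : x ≤ 2 ^ l := Nat.le_pow_clog (by norm_num) x
  have hl1 : 1 ≤ l := Nat.clog_pos (by norm_num) hx1'
  have hlt : 2 ^ (l - 1) < x := by
    have := Nat.pow_pred_clog_lt_self (b := 2) (by norm_num) hx1'
    simpa [hl] using this
  have hge : 2 ^ l ≤ 2 * x := by
    obtain ⟨m, hm⟩ : ∃ m, l = m + 1 := ⟨l - 1, by omega⟩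
    rw [hm] at hlt ⊢
    simp only [Nat.add_sub_cancel] at hlt
    rw [pow_succ]
    omega
  have hlu : (l : ℝ) ≤ 2 * Real.log x := by
    have h1 : ((2 : ℝ) ^ (l - 1)) ≤ x := by exact_mod_cast hlt.le
    have h2 : ((l - 1 : ℕ) : ℝ) * Real.log 2 ≤ Real.log x := by
      rw [← Real.log_pow]
      exact Real.log_le_log (by positivity) h1
    have h3 : ((l - 1 : ℕ) : ℝ) = (l : ℝ) - 1 := by
      rw [Nat.cast_sub hl1]; norm_num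
    rw [h3] at h2
    have hl1r : (1 : ℝ) ≤ l := by exact_mod_cast hl1
    nlinarith
  have hll : Real.log x ≤ l := by
    have h1 : (x : ℝ) ≤ (2 : ℝ) ^ l := by exact_mod_cast hle
    have h2 : Real.log x ≤ (l : ℝ) * Real.log 2 := by
      rw [← Real.log_pow]
      exact Real.log_le_log hx0 h1
    have hl1r : (1 : ℝ) ≤ l := by exact_mod_cast hl1
    nlinarith
  have hy := hy₀ x hx2
  rw [id, Real.norm_of_nonneg (by positivity), Real.norm_of_nonneg hx0.le] at hy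
  refine ⟨hx1, by linarith, hl1, hll, hlu, hle, hge, ?_⟩
  have h5 : (l : ℝ) ^ 3 ≤ 8 * Real.log x ^ 3 := by
    have : (l : ℝ) ^ 3 ≤ (2 * Real.log x) ^ 3 := by gcongr
    calc (l : ℝ) ^ 3 ≤ (2 * Real.log x) ^ 3 := this
      _ = 8 * Real.log x ^ 3 := by ring
  have h6 : (10 : ℝ) ^ 29 * (144 * (l : ℝ) ^ 3) ≤ x := by
    calc (10 : ℝ) ^ 29 * (144 * (l : ℝ) ^ 3) ≤ 10 ^ 29 * (144 * (8 * Real.log x ^ 3)) := by gcongr
      _ = 10 ^ 29 * (144 * 8) * Real.log x ^ 3 := by ring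
      _ ≤ 10 ^ 29 * (144 * 8) * (1 / (10 ^ 29 * (144 * 8)) * x) := by gcongr
      _ = x := by field_simp
  exact_mod_cast h6

theorem gpar : ∃ x₀ : ℕ, ∀ x : ℕ, x₀ ≤ x → ∃ h h' K2 G a L J0 Q I Rc : ℕ,
    Par h h' K2 G a L J0 Q ∧ 1 ≤ h ∧ h ≤ x ∧ h ^ 3 ≤ 2 ^ I ∧
    2 * (2 * (2 * J0 + 1)) * (I + 1) ≤ K2 ∧ 16 * x ^ 4 ≤ 4 ^ J0 ∧
    3 * h ^ 3 ≤ 4 ^ J0 * (240 * K2 * (2 * (2 * J0 + 1))) ∧ 1 ≤ Rc ∧ 2 ≤ L ∧
    L ≤ Q ^ 100 ∧ x ^ 5 + 2 ≤ Q ^ 2 ∧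
    10 ^ 48 * (K2 : ℝ) ^ 2 * h ^ 4 * (10 ^ 6 * (1 + J0 + Real.log Q)) ≤ Rc ∧
    (∀ y : ℝ, 1 ≤ y → y ≤ Q →
      10 ^ 6 * (2 * J0 + 1) * (1 + J0 + Real.log y) ≤ Rc ∧
      10 ^ 48 * K2 ^ 2 * h ^ 4 * (10 ^ 6 * (1 + J0 + Real.log y) / Rc) ≤ 1) ∧
    ((2 * J0 + 1) * Rc + 2) * Real.log L ≤ 10 ^ 67 * x ^ 4 * Real.log x ^ 7 ∧
    960 * K2 * (2 * (2 * J0 + 1)) / (h : ℝ) ^ 3 ≤ 10 ^ 9 * Real.log x ^ 3 / (x : ℝ) ^ 3 := by
  obtain ⟨x₀, hx₀⟩ := ev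
  refine ⟨x₀, fun x hx => ?_⟩
  obtain ⟨hx1, hlog1, hl1, hll, hlu, hle, hge, hl3⟩ := hx₀ x hx
  set l := Nat.clog 2 x with hl
  have hxr : (10 : ℝ) ^ 40 ≤ x := by exact_mod_cast hx1
  have hx0 : (0 : ℝ) < x := by linarith [show (0 : ℝ) < 10 ^ 40 by positivity]
  have hl1r : (1 : ℝ) ≤ l := by exact_mod_cast hl1
  -- definitions
  obtain ⟨J0, hJ0⟩ : ∃ J0, J0 = 2 * l + 2 := ⟨_, rfl⟩
  obtain ⟨K2, hK2⟩ : ∃ K2, K2 = 2 * (2 * (2 * J0 + 1)) * (3 * l + 1) := ⟨_, rfl⟩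
  have hK2l : K2 ≤ 144 * l ^ 2 := by
    rw [hK2, hJ0]
    nlinarith
  have hK2p : 1 ≤ K2 := by
    rw [hK2]
    exact Nat.mul_pos (by omega) (by omega)
  have hlK : 10 ^ 29 * (l * K2) ≤ x := by
    refine le_trans ?_ hl3
    have : l * K2 ≤ 144 * l ^ 3 := by
      calc l * K2 ≤ l * (144 * l ^ 2) := Nat.mul_le_mul_left _ hK2l
        _ = 144 * l ^ 3 := by ring
    omega
  have hKx : 10 ^ 29 * K2 ≤ x := by
    refine le_trans ?_ hlK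
    have : K2 ≤ l * K2 := Nat.le_mul_of_pos_left _ hl1
    omega
  obtain ⟨h', hh'⟩ : ∃ h', h' = x / K2 := ⟨_, rfl⟩
  obtain ⟨h, hh⟩ : ∃ h, h = K2 * h' := ⟨_, rfl⟩
  have hhx : h ≤ x := by rw [hh, hh']; exact Nat.mul_div_le x K2
  have hxh : x ≤ h + K2 := by
    have h1 := Nat.div_add_mod x K2
    have h2 := Nat.mod_lt x (show 0 < K2 by omega)
    rw [hh, hh']
    omega
  have hh1 : 1 ≤ h := by omega
  have hxh2 : x ≤ 2 * h := by omega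
  have h4J : 4 ^ J0 = 16 * (2 ^ l) ^ 4 := by
    rw [hJ0, show (4 : ℕ) = 2 ^ 2 by norm_num, ← pow_mul, ← pow_mul]
    rw [show 2 * (2 * l + 2) = 4 + l * 4 by ring, pow_add]
    norm_num
  have h4J1 : 16 * x ^ 4 ≤ 4 ^ J0 := by
    rw [h4J]
    exact Nat.mul_le_mul_left _ (Nat.pow_le_pow_left hle 4)
  have h4J2 : 4 ^ J0 ≤ 256 * x ^ 4 := by
    rw [h4J]
    calc 16 * (2 ^ l) ^ 4 ≤ 16 * (2 * x) ^ 4 := Nat.mul_le_mul_left _ (Nat.pow_le_pow_left hge 4)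
      _ = 256 * x ^ 4 := by ring
  have hQ1 : 10 ^ 60 * h ^ 4 * (10 ^ 4 * l) * K2 * 4 ^ J0 ≤ x ^ 10 := by
    calc 10 ^ 60 * h ^ 4 * (10 ^ 4 * l) * K2 * 4 ^ J0
        ≤ 10 ^ 60 * x ^ 4 * (10 ^ 4 * l) * K2 * (256 * x ^ 4) := by gcongr
      _ = 256 * 10 ^ 35 * (10 ^ 29 * (l * K2)) * x ^ 8 := by ring
      _ ≤ x * x * x ^ 8 := by
          gcongr
          exact le_trans (by norm_num) hx1
      _ = x ^ 10 := by ring
  obtain ⟨Q, hQ⟩ : ∃ Q, Q = x ^ 10 := ⟨_, rfl⟩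
  obtain ⟨a, ha⟩ : ∃ a, a = 32 * 4 ^ J0 * Q ^ 20 := ⟨_, rfl⟩
  obtain ⟨L, hL⟩ : ∃ L, L = a * Q ^ 20 := ⟨_, rfl⟩
  obtain ⟨Rc, hRc⟩ : ∃ Rc, Rc = 10 ^ 56 * K2 ^ 2 * x ^ 4 * l := ⟨_, rfl⟩
  have hxpos : 1 ≤ x := by omega
  have hQp : 1 ≤ Q := by rw [hQ]; exact Nat.one_le_pow _ _ hxpos
  have hap : 1 ≤ a := by
    rw [ha]
    exact Nat.mul_pos (by positivity) (by positivity)
  have hL2 : 2 ≤ L := by
    rw [hL, ha]
    have h1 : 1 ≤ 4 ^ J0 := Nat.one_le_pow _ _ (by norm_num)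
    have h2 : 1 ≤ Q ^ 20 := Nat.one_le_pow _ _ hQp
    calc 2 ≤ 32 * 1 * 1 * 1 := by norm_num
      _ ≤ 32 * 4 ^ J0 * Q ^ 20 * Q ^ 20 := by gcongr
  have hRcp : 1 ≤ Rc := by
    rw [hRc]
    have : 0 < 10 ^ 56 * K2 ^ 2 * x ^ 4 * l := by positivity
    exact this
  have hRcr : (Rc : ℝ) = 10 ^ 56 * (K2 : ℝ) ^ 2 * (x : ℝ) ^ 4 * l := by
    rw [hRc]; push_cast; ring
  have hJ0r : (J0 : ℝ) = 2 * l + 2 := by rw [hJ0]; push_cast; ring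
  have hhr : (h : ℝ) ≤ x := by exact_mod_cast hhx
  have hh0 : (0 : ℝ) < h := by exact_mod_cast hh1
  have hK2r : (K2 : ℝ) ≤ 144 * (l : ℝ) ^ 2 := by exact_mod_cast hK2l
  have hK20 : (1 : ℝ) ≤ K2 := by exact_mod_cast hK2p
  have hKJ : (2 * J0 + 1 : ℝ) ≤ K2 := by
    have : 2 * J0 + 1 ≤ K2 := by
      rw [hK2]
      calc 2 * J0 + 1 = 1 * (1 * (2 * J0 + 1)) * 1 := by ring
        _ ≤ 2 * (2 * (2 * J0 + 1)) * (3 * l + 1) := by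
            gcongr <;> omega
    exact_mod_cast this
  -- the main estimate
  have hmain : ∀ z : ℝ, 0 ≤ z → z ≤ 10 * l →
      10 ^ 6 * (2 * (J0 : ℝ) + 1) * (1 + J0 + z) ≤ Rc ∧
      10 ^ 48 * (K2 : ℝ) ^ 2 * (h : ℝ) ^ 4 * (10 ^ 6 * (1 + J0 + z)) ≤ Rc := by
    intro z hz0 hz
    have hs : (1 + J0 + z : ℝ) ≤ 15 * l := by rw [hJ0r]; linarith
    have hs0 : (0 : ℝ) ≤ 1 + J0 + z := by positivity
    have hx4 : (1 : ℝ) ≤ (x : ℝ) ^ 4 := one_le_pow₀ (by linarith [show (1 : ℝ) ≤ 10 ^ 40 by norm_num])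
    constructor
    · rw [hRcr]
      calc 10 ^ 6 * (2 * (J0 : ℝ) + 1) * (1 + J0 + z) ≤ 10 ^ 6 * (K2 : ℝ) * (15 * l) := by
            gcongr
        _ = 15 * 10 ^ 6 * (K2 : ℝ) * 1 * l * 1 := by ring
        _ ≤ 10 ^ 56 * (K2 : ℝ) * K2 * l * (x : ℝ) ^ 4 := by
            gcongr
            norm_num
        _ = 10 ^ 56 * (K2 : ℝ) ^ 2 * (x : ℝ) ^ 4 * l := by ring
    · rw [hRcr]
      calc 10 ^ 48 * (K2 : ℝ) ^ 2 * (h : ℝ) ^ 4 * (10 ^ 6 * (1 + J0 + z))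
          ≤ 10 ^ 48 * (K2 : ℝ) ^ 2 * (x : ℝ) ^ 4 * (10 ^ 6 * (15 * l)) := by gcongr
        _ = 15 * 10 ^ 54 * ((K2 : ℝ) ^ 2 * (x : ℝ) ^ 4 * l) := by ring
        _ ≤ 10 ^ 56 * ((K2 : ℝ) ^ 2 * (x : ℝ) ^ 4 * l) := by
            gcongr
            norm_num
        _ = 10 ^ 56 * (K2 : ℝ) ^ 2 * (x : ℝ) ^ 4 * l := by ring
  have hlogQ : Real.log Q = 10 * Real.log x := by
    rw [hQ]
    push_cast
    rw [Real.log_pow]
    push_cast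
    ring
  have hlogx0 : 0 < Real.log x := by linarith
  have hQx : 10 ^ 40 * x ≤ Q := by
    rw [hQ]
    calc 10 ^ 40 * x ≤ x * x := Nat.mul_le_mul_right _ hx1
      _ = x ^ 2 := by ring
      _ ≤ x ^ 10 := Nat.pow_le_pow_right hxpos (by norm_num)
  refine ⟨h, h', K2, 10 ^ 4 * l, a, L, J0, Q, 3 * l, Rc, ?_, hh1, hhx, ?_, ?_, h4J1, ?_, hRcp, hL2,
    ?_, ?_, ?_, ?_, ?_, ?_⟩
  · refine ⟨hK2p, hh, by omega, ?_, ?_, ?_, ?_, ?_, ?_⟩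
    · rw [hh', Nat.le_div_iff_mul_le (by omega)]
      calc 10 ^ 25 * (10 ^ 4 * l) * K2 = 10 ^ 29 * (l * K2) := by ring
        _ ≤ x := hlK
    · rw [hQ]; exact hQ1
    · rw [hQ]
      push_cast
      rw [Real.log_pow]
      push_cast
      linarith
    · rw [ha]
      calc Q ^ 20 = 1 * 1 * Q ^ 20 := by ring
        _ ≤ 32 * 4 ^ J0 * Q ^ 20 := by
            gcongr
            · norm_num
            · exact Nat.one_le_pow _ _ (by norm_num)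
    · rw [ha]; exact Dvd.intro _ rfl
    · rw [hL]
  · calc h ^ 3 ≤ x ^ 3 := Nat.pow_le_pow_left hhx 3
      _ ≤ (2 ^ l) ^ 3 := Nat.pow_le_pow_left hle 3
      _ = 2 ^ (3 * l) := by rw [← pow_mul, mul_comm]
  · rw [hK2]
  · calc 3 * h ^ 3 ≤ 3 * x ^ 3 := Nat.mul_le_mul_left _ (Nat.pow_le_pow_left hhx 3)
      _ ≤ 16 * x ^ 4 * (1 * 1 * (1 * (1 * 1))) := by
          have : x ^ 3 ≤ x ^ 4 := Nat.pow_le_pow_right hxpos (by norm_num)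
          omega
      _ ≤ 4 ^ J0 * (240 * K2 * (2 * (2 * J0 + 1))) := by
          gcongr <;> omega
  · rw [hL, ha]
    have h1 : 32 * 4 ^ J0 ≤ Q := by
      rw [hQ]
      calc 32 * 4 ^ J0 ≤ 32 * (256 * x ^ 4) := Nat.mul_le_mul_left _ h4J2
        _ = 8192 * x ^ 4 := by ring
        _ ≤ x * x ^ 4 := Nat.mul_le_mul_right _ (le_trans (by norm_num) hx1)
        _ = x ^ 5 := by ring
        _ ≤ x ^ 10 := Nat.pow_le_pow_right hxpos (by norm_num)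
    calc 32 * 4 ^ J0 * Q ^ 20 * Q ^ 20 ≤ Q * Q ^ 20 * Q ^ 20 := by gcongr
      _ = Q ^ 41 := by ring
      _ ≤ Q ^ 100 := Nat.pow_le_pow_right hQp (by norm_num)
  · rw [hQ]
    calc x ^ 5 + 2 ≤ x ^ 5 + x ^ 5 := by
          have : x ≤ x ^ 5 := Nat.le_self_pow (by norm_num) x
          omega
      _ = 2 * x ^ 5 := by ring
      _ ≤ x * x ^ 5 := Nat.mul_le_mul_right _ (le_trans (by norm_num) hx1)
      _ = x ^ 6 := by ring
      _ ≤ x ^ 20 := Nat.pow_le_pow_right hxpos (by norm_num)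
      _ = (x ^ 10) ^ 2 := by ring
  · rw [hlogQ]
    exact (hmain (10 * Real.log x) (by positivity) (by linarith)).2
  · intro y hy1 hy2
    have hlogy : Real.log y ≤ 10 * l := by
      have h1 : Real.log y ≤ Real.log (Q : ℝ) := Real.log_le_log (by linarith) hy2
      linarith
    have hlogy0 : 0 ≤ Real.log y := Real.log_nonneg hy1
    obtain ⟨h1, h2⟩ := hmain _ hlogy0 hlogy
    refine ⟨h1, ?_⟩
    have hRc0 : (0 : ℝ) < Rc := by exact_mod_cast hRcp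
    rw [mul_div_assoc', div_le_one hRc0]
    exact h2
  · -- log L
    have h4Jr : ((4 : ℝ) ^ J0) ≤ 256 * (x : ℝ) ^ 4 := by exact_mod_cast h4J2
    have hLr : (L : ℝ) ≤ (x : ℝ) ^ 500 := by
      rw [hL, ha, hQ]
      push_cast
      calc 32 * (4 : ℝ) ^ J0 * ((x : ℝ) ^ 10) ^ 20 * ((x : ℝ) ^ 10) ^ 20
          ≤ 32 * (256 * (x : ℝ) ^ 4) * ((x : ℝ) ^ 10) ^ 20 * ((x : ℝ) ^ 10) ^ 20 := by gcongr
        _ = 8192 * (x : ℝ) ^ 404 := by ring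
        _ ≤ (x : ℝ) ^ 96 * (x : ℝ) ^ 404 := by
            gcongr
            calc (8192 : ℝ) ≤ (10 ^ 40) ^ 96 := by
                  calc (8192 : ℝ) ≤ 10 ^ 40 := by norm_num
                    _ = (10 ^ 40) ^ 1 := by norm_num
                    _ ≤ (10 ^ 40) ^ 96 := pow_le_pow_right₀ (by norm_num) (by norm_num)
              _ ≤ (x : ℝ) ^ 96 := by gcongr
        _ = (x : ℝ) ^ 500 := by ring
    have hL0 : (0 : ℝ) < L := by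
      have : 0 < L := by omega
      exact_mod_cast this
    have hlogL : Real.log L ≤ 500 * Real.log x := by
      have h1 := Real.log_le_log hL0 hLr
      rwa [Real.log_pow] at h1
    have hlogL0 : 0 ≤ Real.log L := by
      apply Real.log_nonneg
      have : 1 ≤ L := by omega
      exact_mod_cast this
    have hR : ((2 * J0 + 1) * Rc + 2 : ℝ) ≤ 2 * (9 * l * Rc) := by
      have h1 : (1 : ℝ) ≤ Rc := by exact_mod_cast hRcp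
      rw [hJ0r]
      nlinarith
    have hRc2 : (Rc : ℝ) ≤ 10 ^ 56 * (144 * (2 * Real.log x) ^ 2) ^ 2 * (x : ℝ) ^ 4 * (2 * Real.log x) := by
      rw [hRcr]
      have h1 : (K2 : ℝ) ≤ 144 * (2 * Real.log x) ^ 2 := hK2r.trans (by gcongr)
      gcongr
    calc ((2 * J0 + 1) * Rc + 2) * Real.log L ≤ (2 * (9 * l * Rc)) * (500 * Real.log x) := by
          gcongr
      _ ≤ (2 * (9 * (2 * Real.log x) *
            (10 ^ 56 * (144 * (2 * Real.log x) ^ 2) ^ 2 * (x : ℝ) ^ 4 * (2 * Real.log x)))) *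
            (500 * Real.log x) := by gcongr
      _ = (2 * 9 * 2 * 144 ^ 2 * 2 ^ 4 * 2 * 500 * 10 ^ 56) * (x : ℝ) ^ 4 * Real.log x ^ 7 := by ring
      _ ≤ 10 ^ 67 * (x : ℝ) ^ 4 * Real.log x ^ 7 := by
          gcongr
          norm_num
  · have hxh3 : (x : ℝ) ≤ 2 * h := by exact_mod_cast hxh2
    rw [div_le_div_iff₀ (by positivity) (by positivity)]
    have h1 : (K2 : ℝ) ≤ 144 * (2 * Real.log x) ^ 2 := hK2r.trans (by gcongr)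
    have h2 : (2 * J0 + 1 : ℝ) ≤ 9 * (2 * Real.log x) := by
      rw [hJ0r]
      linarith
    have h3 : (x : ℝ) ^ 3 ≤ (2 * h) ^ 3 := by gcongr
    calc 960 * (K2 : ℝ) * (2 * (2 * J0 + 1)) * (x : ℝ) ^ 3
        ≤ 960 * (144 * (2 * Real.log x) ^ 2) * (2 * (9 * (2 * Real.log x))) * (2 * h) ^ 3 := by
          gcongr
      _ = (960 * 144 * 9 * 128) * Real.log x ^ 3 * (h : ℝ) ^ 3 := by ring
      _ ≤ 10 ^ 9 * Real.log x ^ 3 * (h : ℝ) ^ 3 := by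
          gcongr
          norm_num

end Pool.Agent.Lib.HBP
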