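import Mathlib
import Pool.Agent.Lib.HBP.GMain
import Pool.Agent.Lib.HBP.GPar
import Pool.Agent.Lib.HBP.Asym

/-!
# Project HBP, GLOBAL: the combinatorial upper bound
-/

namespace Pool.Agent.Lib.HBP

open Finset Filter
open Pool.Agent.Lib.MP_70146a_co

/-- There is a permutation of `[0, n)` such that every strictly monotone set of edges has at
most `X` distinct weights. -/
def UpperP (n : ℕ) (X : ℝ) : Prop :=
  ∃ f : ℕ → ℕ, PermOn n f ∧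
    ∀ E : Finset (ℕ × ℕ), (∀ e ∈ E, e.1 < n ∧ e.2 < n) →
      (∀ e ∈ E, ∀ e' ∈ E, e.1 = e'.1 → e = e') →
      (∀ e ∈ E, ∀ e' ∈ E, e.1 < e'.1 → e.2 < e'.2) → (nw f E : ℝ) ≤ X

theorem upperP_mono (n : ℕ) (x y : ℝ) (h : UpperP n x) (hxy : x ≤ y) : UpperP n y := by
  obtain ⟨f, hf, hE⟩ := h
  exact ⟨f, hf, fun E h1 h2 h3 => (hE E h1 h2 h3).trans hxy⟩

theorem upper_nine : ∃ n₀ : ℕ, ∀ n : ℕ, n₀ ≤ n →
    UpperP n (8 * 10 ^ 9 * 10 ^ 67 * n * Real.log (Real.log n) ^ 9 /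
      Real.log n ^ ((3 : ℝ) / 4)) := by
  refine asym 7 3 9 (by norm_num) (10 ^ 67) (10 ^ 9) (by norm_num) (by norm_num) UpperP
    upperP_mono ?_
  obtain ⟨x₀, hx₀⟩ := gpar
  refine ⟨x₀ + 1, fun x hx n hn1 hn2 => ?_⟩
  obtain ⟨h, h', K2, G, a, L, J0, Q, I, Rc, P, hh1, hhx, hI, hK, hJ1, hJ, hRc1, hL2, hLQ, hxQ,
    hRc, hy, hlog, hbound⟩ := hx₀ x (by omega)
  have hx1 : (1 : ℝ) ≤ x := by
    have : 1 ≤ x := by omega
    exact_mod_cast this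
  have hlogx : 0 ≤ Real.log x := Real.log_nonneg hx1
  have hLr : (2 : ℝ) ≤ L := by exact_mod_cast hL2
  have hlogL : 0 < Real.log L := Real.log_pos (by linarith)
  -- `n` is large
  have hlogn0 : 0 < Real.log n := by
    have h1 : ((2 * J0 + 1) * Rc + 2 : ℝ) * Real.log L ≤ Real.log n := by
      refine hlog.trans (le_trans (le_of_eq (by ring)) hn1)
    have h2 : 0 < ((2 * J0 + 1) * Rc + 2 : ℝ) * Real.log L := by positivity
    linarith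
  have hn0 : (0 : ℝ) < n := by
    by_contra hneg
    push Not at hneg
    have : (n : ℝ) = 0 := le_antisymm hneg (Nat.cast_nonneg _)
    rw [this, Real.log_zero] at hlogn0
    exact lt_irrefl _ hlogn0
  have hnL : L ^ ((2 * J0 + 1) * Rc + 1) ≤ n := by
    have h1 : ((2 * J0 + 1) * Rc + 2 : ℝ) * Real.log L ≤ Real.log n := by
      refine hlog.trans (le_trans (le_of_eq (by ring)) hn1)
    have h2 : Real.log ((L : ℝ) ^ ((2 * J0 + 1) * Rc + 1)) ≤ Real.log n := by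
      rw [Real.log_pow]
      push_cast
      nlinarith
    have h3 : (0 : ℝ) < (L : ℝ) ^ ((2 * J0 + 1) * Rc + 1) := by positivity
    have h4 := (Real.log_le_log_iff h3 hn0).mp h2
    exact_mod_cast h4
  have hnQ : Real.log (4 * n) ≤ (Q : ℝ) ^ 2 := by
    rw [Real.log_mul (by norm_num) hn0.ne']
    have h1 : Real.log 4 ≤ 2 := by
      have : (4 : ℝ) = 2 ^ 2 := by norm_num
      rw [this, Real.log_pow]
      have := Real.log_two_lt_d9
      push_cast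
      linarith
    have h2 : (x : ℝ) ^ 5 + 2 ≤ (Q : ℝ) ^ 2 := by exact_mod_cast hxQ
    linarith
  obtain ⟨f, hf, hE⟩ := main_par P hI hK hJ hRc hnL hLQ hnQ
  refine ⟨f, hf, fun E h1 h2 h3 => (hE E h1 h2 h3).trans ?_⟩
  have hn' : (0 : ℝ) ≤ n := hn0.le
  calc 960 * (K2 : ℝ) * (2 * (2 * J0 + 1)) * n / (h : ℝ) ^ 3
      = 960 * K2 * (2 * (2 * J0 + 1)) / (h : ℝ) ^ 3 * n := by ring
    _ ≤ 10 ^ 9 * Real.log x ^ 3 / (x : ℝ) ^ 3 * n := mul_le_mul_of_nonneg_right hbound hn'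
    _ = 10 ^ 9 * Real.log x ^ 3 * n / (x : ℝ) ^ 3 := by ring

/-- **The upper bound**, in the form of the old `upper_comb`. -/
theorem upper_ten : ∃ n₀ : ℕ, ∀ n : ℕ, n₀ ≤ n → ∃ f : ℕ → ℕ, (∀ x, x < n → f x < n) ∧
    (∀ x x', x < n → x' < n → f x = f x' → x = x') ∧
    ∀ E : Finset (ℕ × ℕ), (∀ e ∈ E, e.1 < n ∧ e.2 < n) →
      (∀ e ∈ E, ∀ e' ∈ E, e.1 = e'.1 → e = e') →
      (∀ e ∈ E, ∀ e' ∈ E, e.1 < e'.1 → e.2 < e'.2) →
      (nw f E : ℝ) ≤ n * Real.log (Real.log n) ^ 10 / Real.log n ^ ((3 : ℝ) / 4) := by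
  obtain ⟨n₁, hn₁⟩ := upper_nine
  have hlog : Tendsto (fun n : ℕ => Real.log (n : ℝ)) atTop atTop :=
    Real.tendsto_log_atTop.comp tendsto_natCast_atTop_atTop
  have hll : Tendsto (fun n : ℕ => Real.log (Real.log (n : ℝ))) atTop atTop :=
    Real.tendsto_log_atTop.comp hlog
  have hev := (hll.eventually_ge_atTop (8 * 10 ^ 9 * 10 ^ 67)).and
    (hlog.eventually_ge_atTop 1)
  rw [eventually_atTop] at hev
  obtain ⟨n₂, hn₂⟩ := hev
  refine ⟨max n₁ n₂, fun n hn => ?_⟩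
  obtain ⟨h1, h2⟩ := hn₂ n ((le_max_right _ _).trans hn)
  obtain ⟨f, hf, hE⟩ := hn₁ n ((le_max_left _ _).trans hn)
  refine ⟨f, hf.1, fun x x' hx hx' h => hf.2 x x' hx hx' h, fun E a1 a2 a3 => ?_⟩
  refine (hE E a1 a2 a3).trans ?_
  have hT0 : 0 < Real.log (n : ℝ) := by linarith
  have hTp : 0 < Real.log (n : ℝ) ^ ((3 : ℝ) / 4) := Real.rpow_pos_of_pos hT0 _
  apply div_le_div_of_nonneg_right _ hTp.le
  set LL := Real.log (Real.log (n : ℝ)) with hLL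
  have hLL0 : 0 ≤ LL := le_trans (by norm_num) h1
  have hn' : (0 : ℝ) ≤ n := Nat.cast_nonneg _
  calc 8 * 10 ^ 9 * 10 ^ 67 * (n : ℝ) * LL ^ 9 = (8 * 10 ^ 9 * 10 ^ 67) * (n * LL ^ 9) := by ring
    _ ≤ LL * (n * LL ^ 9) := mul_le_mul_of_nonneg_right h1 (by positivity)
    _ = n * LL ^ 10 := by ring

end Pool.Agent.Lib.HBP
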