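import Pool.Agent.Lib.HBP.Level

/-!
# HBP, section REDUCTION (prefix R): definitions

* `rD C L b k`     `n_I * KL(μ(.|I) | uniform)` of block `k` (size `L * b`, `L` children of size `b`)
* `rE C Y L b k`   `n_I * e(I)`, `e(I) = 1 - (1/L) ∑ √(θ_x/θ)`
* `rX, rY, rZ`     sums over the elements of `C` of `log (n/S)`, `log θ`, `rQ (θ/4^label)`
* `rl p θ`         inherit the label `p` if `θ/4^p ∈ [1/4, 4]`, otherwise take `cls θ`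
* `rEQ`            quadratic energy of the loads of the elements in the blocks `𝓛`, cells of the block size
-/

namespace Pool.Agent.Lib.HBP

open Finset

noncomputable section

def rD (C : Finset ℕ) (L b k : ℕ) : ℝ :=
  ∑ x ∈ range L, (cnt C b (k * L + x) : ℝ) *
    Real.log (L * cnt C b (k * L + x) / cnt C (L * b) k)

def rE (C : Finset ℕ) (Y : ℕ → ℕ) (L b k : ℕ) : ℝ :=
  (cnt C (L * b) k : ℝ) * (1 - 1 / L * ∑ x ∈ range L, √(slo Y b (k * L + x) / slo Y (L * b) k))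

def rQ (y : ℝ) : ℝ := min 1 ((√y - 1) ^ 2)

def rX (C : Finset ℕ) (S : ℕ) : ℝ := ∑ q ∈ C, Real.log ((cnt C S (q / S) : ℝ) / S)

def rY (C : Finset ℕ) (Y : ℕ → ℕ) (S : ℕ) : ℝ := ∑ q ∈ C, Real.log (slo Y S (q / S))

def rZ (C : Finset ℕ) (Y : ℕ → ℕ) (S : ℕ) (lb : ℕ → ℤ) : ℝ :=
  ∑ q ∈ C, rQ (slo Y S (q / S) / (4 : ℝ) ^ (lb (q / S)))

def rl (p : ℤ) (θ : ℝ) : ℤ :=
  if (1 / 4 : ℝ) ≤ θ / (4 : ℝ) ^ p ∧ θ / (4 : ℝ) ^ p ≤ 4 then p else cls θ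

def rEQ (C : Finset ℕ) (w : ℕ → ℕ) (S : ℕ) (𝓛 : Finset ℕ) (cmax : ℕ) : ℝ :=
  ∑ c ∈ range cmax, (ncell C w S 𝓛 S c : ℝ) ^ 2 / S

end

end Pool.Agent.Lib.HBP
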