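import Pool.Agent.Lib.HBP.RSplit

/-!
# HBP, REDUCTION: the variational inequality of Gibbs, Hellinger and the signs of `rD`, `rE`

PROOF of `gibbs`. Put `N = ∑ p`, `a0 = (1/L) ∑ a`. If `N = 0` all `p x = 0` (`x < L`) and both sides are `0`
(`Finset.sum_eq_zero_iff_of_nonneg`). Otherwise some `p x0 > 0`, so `a x0 > 0`, `a0 > 0`, `L > 0`.
Claim, for every `x < L`:
  `p x * log (a x) - p x * log (L * p x / N) - p x * log a0 ≤ N * a x / (L * a0) - p x`.
If `p x = 0` the left side is `0` and the right side is `≥ 0`. If `p x > 0`, `a x > 0` and with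
`z = a x * N / (L * p x * a0) > 0`, `log z = log (a x) - log (L p x / N) - log a0`, `log z ≤ z - 1`
(`Real.log_le_sub_one_of_pos`), multiplied by `p x`. Summing over `x`:
`∑ (N a x/(L a0) - p x) = N * (L a0)/(L a0) - N = 0`.

PROOF of `r_Hd_le`. `n = cnt C (L b) k = ∑ n_x` (`r_cnt_split`, cast). If `n = 0` all `n_x = 0`, both sides `0`. Otherwise
`p_x = n_x/n`, `∑ p_x = 1`, and `Hd = ∑ (p_x - 2 √p_x √(1/L) + 1/L) = 2 - 2 ∑ √p_x √(1/L)`. Termwise
`n_x log (L n_x/n) ≥ 2 n_x - 2 n √p_x √(1/L)`: for `n_x = 0` both are `0`; for `n_x > 0` with `z = √(L n_x/n) > 0`: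
`log (L n_x/n) = 2 log z ≥ 2 (1 - 1/z)` (`Real.one_sub_inv_le_log_of_pos`), and `n_x / z = n √p_x √(1/L)`
(square both: `n_x^2 n/(L n_x) = n n_x/L = n^2 p_x/L`). Sum: `rD ≥ 2 n - 2 n ∑ √p_x √(1/L) = n Hd`.

PROOF of `r_D_nonneg`: from `r_Hd_le`, `Hd ≥ 0`.

PROOF of `r_Ed_eq`: if `cnt = 0` both are `0`. Otherwise `θ = slo Y (L b) k > 0`, `u_x = slo Y b (k L + x)/θ ≥ 0`,
`(1/L) ∑ u_x = 1` (`r_slo_split`), `(√u - 1)^2 = u - 2 √u + 1` (`Real.sq_sqrt`), so
`Ed = 2 - 2 (1/L) ∑ √u`.
PROOF of `r_E_nonneg`: from `r_Ed_eq`, `Ed ≥ 0`.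
-/

namespace Pool.Agent.Lib.HBP

open Finset

theorem gibbs (L : ℕ) (p a : ℕ → ℝ) (hp : ∀ x < L, 0 ≤ p x) (ha : ∀ x < L, 0 ≤ a x)
    (hpa : ∀ x < L, 0 < p x → 0 < a x) :
    ∑ x ∈ range L, p x * Real.log (a x) ≤
      ∑ x ∈ range L, p x * Real.log (L * p x / ∑ y ∈ range L, p y) +
        (∑ y ∈ range L, p y) * Real.log (1 / L * ∑ x ∈ range L, a x) := by
  set N := ∑ y ∈ range L, p y with hN
  set a0 := 1 / (L : ℝ) * ∑ x ∈ range L, a x with ha0
  have hN0 : 0 ≤ N := Finset.sum_nonneg fun x hx => hp x (Finset.mem_range.mp hx)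
  rcases hN0.eq_or_lt with h0 | hNpos
  · have hp0 : ∀ x ∈ range L, p x = 0 :=
      (Finset.sum_eq_zero_iff_of_nonneg fun x hx => hp x (Finset.mem_range.mp hx)).mp h0.symm
    have e1 : ∑ x ∈ range L, p x * Real.log (a x) = 0 :=
      Finset.sum_eq_zero (fun x hx => by rw [hp0 x hx, zero_mul])
    have e2 : ∑ x ∈ range L, p x * Real.log (L * p x / N) = 0 :=
      Finset.sum_eq_zero (fun x hx => by rw [hp0 x hx, zero_mul])
    rw [e1, e2, ← h0, zero_mul, add_zero]
  · obtain ⟨x0, hx0, hpx0⟩ : ∃ x ∈ range L, 0 < p x := by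
      by_contra hcon
      push Not at hcon
      exact absurd (Finset.sum_nonpos hcon) (not_le.mpr hNpos)
    have hL : 0 < L := (Nat.zero_le _).trans_lt (Finset.mem_range.mp hx0)
    have hLr : (0 : ℝ) < L := by exact_mod_cast hL
    have hsa : 0 < ∑ x ∈ range L, a x :=
      Finset.sum_pos' (fun x hx => ha x (Finset.mem_range.mp hx))
        ⟨x0, hx0, hpa x0 (Finset.mem_range.mp hx0) hpx0⟩
    have ha0pos : 0 < a0 := mul_pos (by positivity) hsa
    have hsum : ∑ x ∈ range L, a x = L * a0 := by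
      rw [ha0]; field_simp
    have claim : ∀ x ∈ range L, p x * Real.log (a x) ≤
        p x * Real.log (L * p x / N) + p x * Real.log a0 + (N * a x / (L * a0) - p x) := by
      intro x hx
      have hpx := hp x (Finset.mem_range.mp hx)
      have hax := ha x (Finset.mem_range.mp hx)
      rcases hpx.eq_or_lt with h | h
      · rw [← h, zero_mul, zero_mul, zero_mul, add_zero, zero_add, sub_zero]
        positivity
      · have hax' := hpa x (Finset.mem_range.mp hx) h
        have hz : 0 < a x * N / (L * p x * a0) := by positivity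
        have h1 := Real.log_le_sub_one_of_pos hz
        have h2 : Real.log (a x * N / (L * p x * a0)) =
            Real.log (a x) - Real.log (L * p x / N) - Real.log a0 := by
          rw [Real.log_div (mul_pos hax' hNpos).ne' (mul_pos (mul_pos hLr h) ha0pos).ne',
            Real.log_mul hax'.ne' hNpos.ne', Real.log_mul (mul_pos hLr h).ne' ha0pos.ne',
            Real.log_div (mul_pos hLr h).ne' hNpos.ne']
          ring
        rw [h2] at h1
        have h3 := mul_le_mul_of_nonneg_left h1 h.le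
        have h4 : p x * (a x * N / (L * p x * a0) - 1) = N * a x / (L * a0) - p x := by
          field_simp
        rw [h4] at h3
        have h5 : p x * (Real.log (a x) - Real.log (L * p x / N) - Real.log a0) =
          p x * Real.log (a x) - p x * Real.log (L * p x / N) - p x * Real.log a0 := by ring
        rw [h5] at h3
        linarith
    have htot : ∑ x ∈ range L, (N * a x / (L * a0) - p x) = 0 := by
      rw [Finset.sum_sub_distrib, ← Finset.sum_div, ← Finset.mul_sum, hsum, ← hN,
        mul_div_assoc, div_self (mul_pos hLr ha0pos).ne', mul_one, sub_self]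
    calc ∑ x ∈ range L, p x * Real.log (a x)
        ≤ ∑ x ∈ range L, (p x * Real.log (L * p x / N) + p x * Real.log a0 +
            (N * a x / (L * a0) - p x)) := Finset.sum_le_sum claim
      _ = ∑ x ∈ range L, p x * Real.log (L * p x / N) + N * Real.log a0 := by
          rw [Finset.sum_add_distrib, htot, add_zero, Finset.sum_add_distrib, ← Finset.sum_mul,
            ← hN]

theorem r_Hd_le (C : Finset ℕ) (L b k : ℕ) (hL : 0 < L) :
    (cnt C (L * b) k : ℝ) * Hd C L b k ≤ rD C L b k := by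
  have hLr : (0 : ℝ) < L := by exact_mod_cast hL
  have hsplit : (cnt C (L * b) k : ℝ) = ∑ x ∈ range L, (cnt C b (k * L + x) : ℝ) := by
    rw [r_cnt_split C L b k hL]; push_cast; rfl
  rcases (cnt C (L * b) k).eq_zero_or_pos with h0 | hpos
  · have hz : ∀ x ∈ range L, (cnt C b (k * L + x) : ℝ) = 0 := by
      rw [h0, Nat.cast_zero] at hsplit
      exact (Finset.sum_eq_zero_iff_of_nonneg fun x _ => Nat.cast_nonneg _).mp hsplit.symm
    unfold rD
    rw [Finset.sum_eq_zero (fun x hx => by rw [hz x hx, zero_mul]), h0, Nat.cast_zero, zero_mul]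
  · have hn : (0 : ℝ) < cnt C (L * b) k := by exact_mod_cast hpos
    unfold Hd rD
    rw [Finset.mul_sum]
    set n : ℝ := (cnt C (L * b) k : ℝ) with hndef
    have claim : ∀ x ∈ range L,
        n * (√((cnt C b (k * L + x) : ℝ) / n) - √(1 / L)) ^ 2 +
          ((cnt C b (k * L + x) : ℝ) - n / L) ≤
        (cnt C b (k * L + x) : ℝ) * Real.log (L * cnt C b (k * L + x) / n) := by
      intro x _
      have hm0 : (0 : ℝ) ≤ (cnt C b (k * L + x) : ℝ) := Nat.cast_nonneg _
      set m : ℝ := (cnt C b (k * L + x) : ℝ) with hm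
      have hr2 : √(1 / (L : ℝ)) ^ 2 = 1 / L := Real.sq_sqrt (by positivity)
      have hrpos : 0 < √(1 / (L : ℝ)) := Real.sqrt_pos.mpr (by positivity)
      rcases hm0.eq_or_lt with h | h
      · rw [← h, zero_div, Real.sqrt_zero, zero_sub, neg_sq, hr2, zero_mul]
        apply le_of_eq; field_simp; ring
      · have hs2 : √(m / n) ^ 2 = m / n := Real.sq_sqrt (by positivity)
        have hspos : 0 < √(m / n) := Real.sqrt_pos.mpr (by positivity)
        have hz : √(L * m / n) = √(m / n) / √(1 / (L : ℝ)) := by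
          rw [← Real.sqrt_div (by positivity)]
          congr 1
          field_simp
        have hzpos : 0 < √(L * m / n) := Real.sqrt_pos.mpr (by positivity)
        have hlog : Real.log (L * m / n) = 2 * Real.log √(L * m / n) := by
          rw [Real.log_sqrt (by positivity)]; ring
        have h1 := Real.one_sub_inv_le_log_of_pos hzpos
        rw [hlog]
        rw [hz] at h1 ⊢
        set s := √(m / n) with hs
        set r := √(1 / (L : ℝ)) with hr
        have hmn : m = n * s ^ 2 := by rw [hs2]; field_simp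
        have hL2 : n / L = n * r ^ 2 := by rw [hr2]; ring
        have h2 : m * (1 - (s / r)⁻¹) = n * s ^ 2 - n * (r * s) := by
          rw [hmn, inv_div]; field_simp
        have h3 := mul_le_mul_of_nonneg_left h1 hm0
        rw [h2] at h3
        have h4 : n * (s - r) ^ 2 + (m - n / L) = 2 * (n * s ^ 2 - n * (r * s)) := by
          rw [hL2, hmn]; ring
        rw [h4]
        linarith
    have hzero : ∑ x ∈ range L, ((cnt C b (k * L + x) : ℝ) - n / L) = 0 := by
      rw [Finset.sum_sub_distrib, ← hsplit, Finset.sum_const, Finset.card_range, nsmul_eq_mul]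
      field_simp
      ring
    calc ∑ x ∈ range L, n * (√((cnt C b (k * L + x) : ℝ) / n) - √(1 / L)) ^ 2
        = ∑ x ∈ range L, (n * (√((cnt C b (k * L + x) : ℝ) / n) - √(1 / L)) ^ 2 +
          ((cnt C b (k * L + x) : ℝ) - n / L)) := by
          rw [Finset.sum_add_distrib, hzero, add_zero]
      _ ≤ _ := Finset.sum_le_sum claim

theorem r_D_nonneg (C : Finset ℕ) (L b k : ℕ) (hL : 0 < L) : 0 ≤ rD C L b k := by
  refine le_trans ?_ (r_Hd_le C L b k hL)
  refine mul_nonneg (Nat.cast_nonneg _) ?_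
  unfold Hd
  exact Finset.sum_nonneg fun x _ => sq_nonneg _

theorem r_Ed_eq (C : Finset ℕ) (Y : ℕ → ℕ) (hY : Monotone Y) (L b k : ℕ) (hL : 0 < L) (hb : 0 < b)
    (hpos : cnt C (L * b) k ≠ 0 → 0 < slo Y (L * b) k) :
    (cnt C (L * b) k : ℝ) * Ed Y L b k = 2 * rE C Y L b k := by
  have hLr : (0 : ℝ) < L := by exact_mod_cast hL
  unfold rE
  by_cases h0 : cnt C (L * b) k = 0
  · rw [h0, Nat.cast_zero, zero_mul, zero_mul, mul_zero]
  · have hθ := hpos h0
    have hsum : ∑ x ∈ range L, slo Y b (k * L + x) / slo Y (L * b) k = L := by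
      rw [← Finset.sum_div]
      have h1 := r_slo_split Y L b k hL hb
      rw [div_eq_iff hθ.ne', h1]
      field_simp
    have hEd : Ed Y L b k =
        2 * (1 - 1 / L * ∑ x ∈ range L, √(slo Y b (k * L + x) / slo Y (L * b) k)) := by
      unfold Ed
      have h2 : ∀ x ∈ range L, (√(slo Y b (k * L + x) / slo Y (L * b) k) - 1) ^ 2 =
          slo Y b (k * L + x) / slo Y (L * b) k -
            2 * √(slo Y b (k * L + x) / slo Y (L * b) k) + 1 := by
        intro x _
        have h3 : 0 ≤ slo Y b (k * L + x) / slo Y (L * b) k :=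
          div_nonneg (r_slo_nonneg Y hY b (k * L + x)) hθ.le
        have h4 := Real.sq_sqrt h3
        rw [sub_sq, h4]; ring
      rw [Finset.sum_congr rfl h2, Finset.sum_add_distrib, Finset.sum_sub_distrib, hsum,
        ← Finset.mul_sum, Finset.sum_const, Finset.card_range, nsmul_eq_mul]
      field_simp
      ring
    rw [hEd]; ring

theorem r_E_nonneg (C : Finset ℕ) (Y : ℕ → ℕ) (hY : Monotone Y) (L b k : ℕ) (hL : 0 < L)
    (hb : 0 < b) (hpos : cnt C (L * b) k ≠ 0 → 0 < slo Y (L * b) k) : 0 ≤ rE C Y L b k := by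
  have h := r_Ed_eq C Y hY L b k hL hb hpos
  have h2 : 0 ≤ (cnt C (L * b) k : ℝ) * Ed Y L b k := by
    refine mul_nonneg (Nat.cast_nonneg _) ?_
    unfold Ed
    exact mul_nonneg (by positivity) (Finset.sum_nonneg fun x _ => sq_nonneg _)
  linarith

end Pool.Agent.Lib.HBP
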