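import Pool.Agent.Lib.HBP.RDefs

/-! # HBP, section REDUCTION: bookkeeping of blocks, counts and slopes -/

namespace Pool.Agent.Lib.HBP

open Finset

theorem r_div (L b q : ℕ) : q / (L * b) = q / b / L := by
  rw [Nat.div_div_eq_div_mul, mul_comm]

theorem r_cnt_split (C : Finset ℕ) (L b k : ℕ) (hL : 0 < L) :
    cnt C (L * b) k = ∑ x ∈ range L, cnt C b (k * L + x) := by
  classical
  unfold cnt
  rw [Finset.card_eq_sum_card_fiberwise (f := fun q => (q / b) % L) (t := range L)]
  · refine Finset.sum_congr rfl fun x hx => ?_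
    congr 1
    ext q
    rw [Finset.mem_filter, Finset.mem_filter, Finset.mem_filter]
    have hx' : x < L := Finset.mem_range.mp hx
    rw [r_div]
    constructor
    · rintro ⟨⟨h1, h2⟩, h3⟩
      refine ⟨h1, ?_⟩
      have := Nat.div_add_mod (q / b) L
      rw [h2, h3] at this
      rw [← this]; ring
    · rintro ⟨h1, h2⟩
      refine ⟨⟨h1, ?_⟩, ?_⟩
      · rw [h2, mul_comm, Nat.mul_add_div hL, Nat.div_eq_of_lt hx', add_zero]
      · rw [h2, mul_comm, Nat.mul_add_mod, Nat.mod_eq_of_lt hx']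
  · intro q _
    exact Finset.mem_coe.mpr (Finset.mem_range.mpr (Nat.mod_lt _ hL))

theorem r_sum_split (N L : ℕ) (f : ℕ → ℝ) :
    ∑ k ∈ range (N * L), f k = ∑ k ∈ range N, ∑ x ∈ range L, f (k * L + x) := by
  induction N with
  | zero => simp
  | succ N ih => rw [Nat.succ_mul, Finset.sum_range_add, ih, Finset.sum_range_succ]

/-- Sum over the elements = weighted sum over the blocks. -/
theorem r_sum_blocks (C : Finset ℕ) (N S : ℕ) (hS : 0 < S) (hC : ∀ q ∈ C, q < N * S) (g : ℕ → ℝ) :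
    ∑ q ∈ C, g (q / S) = ∑ k ∈ range N, (cnt C S k : ℝ) * g k := by
  classical
  unfold cnt
  rw [← Finset.sum_fiberwise_of_maps_to (s := C) (t := range N) (g := fun q => q / S)]
  · refine Finset.sum_congr rfl fun k _ => ?_
    rw [Finset.sum_congr rfl (g := fun _ => g k)]
    · rw [Finset.sum_const, nsmul_eq_mul]
    · intro q hq
      rw [(Finset.mem_filter.mp hq).2]
  · intro q hq
    exact Finset.mem_range.mpr ((Nat.div_lt_iff_lt_mul hS).mpr (hC q hq))

theorem r_cnt_ne_zero (C : Finset ℕ) (S q : ℕ) (hq : q ∈ C) : cnt C S (q / S) ≠ 0 := by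
  classical
  unfold cnt
  exact Finset.card_ne_zero_of_mem (Finset.mem_filter.mpr ⟨hq, rfl⟩)

theorem r_exists_of_cnt (C : Finset ℕ) (S k : ℕ) (h : cnt C S k ≠ 0) : ∃ q ∈ C, q / S = k := by
  classical
  unfold cnt at h
  obtain ⟨q, hq⟩ := Finset.card_pos.mp (Nat.pos_of_ne_zero h)
  exact ⟨q, (Finset.mem_filter.mp hq).1, (Finset.mem_filter.mp hq).2⟩

theorem r_cnt_le (C : Finset ℕ) (S k : ℕ) (hS : 0 < S) : cnt C S k ≤ S := by
  classical
  unfold cnt
  calc (C.filter fun q => q / S = k).card ≤ (Finset.Ico (S * k) (S * k + S)).card := by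
        refine Finset.card_le_card fun q hq => ?_
        rw [Finset.mem_filter] at hq
        rw [Finset.mem_Ico]
        have h1 := Nat.div_add_mod q S
        have h2 := Nat.mod_lt q hS
        rw [hq.2] at h1
        omega
    _ = S := by rw [Nat.card_Ico]; omega

theorem r_slo_nonneg (Y : ℕ → ℕ) (hY : Monotone Y) (S k : ℕ) : 0 ≤ slo Y S k := by
  unfold slo
  have h : Y (k * S) ≤ Y ((k + 1) * S) := hY (Nat.mul_le_mul_right _ (Nat.le_succ _))
  have h' : (Y (k * S) : ℝ) ≤ Y ((k + 1) * S) := by exact_mod_cast h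
  exact div_nonneg (by linarith) (Nat.cast_nonneg _)

theorem r_slo_split (Y : ℕ → ℕ) (L b k : ℕ) (hL : 0 < L) (hb : 0 < b) :
    slo Y (L * b) k = 1 / L * ∑ x ∈ range L, slo Y b (k * L + x) := by
  have hL' : (L : ℝ) ≠ 0 := by exact_mod_cast hL.ne'
  have hb' : (b : ℝ) ≠ 0 := by exact_mod_cast hb.ne'
  have key : ∀ n : ℕ, ∑ x ∈ range n, slo Y b (k * L + x) =
      ((Y ((k * L + n) * b) : ℝ) - Y (k * L * b)) / b := by
    intro n
    induction n with
    | zero => simp
    | succ n ih =>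
      rw [Finset.sum_range_succ, ih]
      unfold slo
      have e : (k * L + n + 1) * b = (k * L + (n + 1)) * b := by ring
      rw [e]
      ring
  rw [key L]
  unfold slo
  have e1 : (k + 1) * (L * b) = (k * L + L) * b := by ring
  have e2 : k * (L * b) = k * L * b := by ring
  rw [e1, e2]
  push_cast
  field_simp

theorem r_bs_succ (L R a₀ t : ℕ) (ht : t < R) : bs L R a₀ t = L * bs L R a₀ (t + 1) := by
  unfold bs
  have e : R - t = R - (t + 1) + 1 := by omega
  rw [e, pow_succ]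
  ring

theorem r_bs_pos (L R a₀ t : ℕ) (hL : 0 < L) (ha : 0 < a₀) : 0 < bs L R a₀ t := by
  unfold bs; positivity

theorem r_pow_mul_bs (L R a₀ t : ℕ) (ht : t ≤ R) : L ^ t * bs L R a₀ t = L ^ R * a₀ := by
  unfold bs
  rw [← mul_assoc, ← pow_add]
  congr 2
  omega

end Pool.Agent.Lib.HBP
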