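import Pool.Agent.Lib.HBP.RGibbs

/-!
# HBP, REDUCTION: the energy of one block is paid by the deficit and the logarithm of the slope

PROOF of `r_slo_pos`: some child `x` has `cnt C b (k L + x) ≠ 0` (`r_cnt_split`), so its slope is `> 0`, the others are
`≥ 0` (`r_slo_nonneg`), and `r_slo_split`.

PROOF of `r_stepE`. Put `p x = cnt C b (k L + x)`, `θ x = slo Y b (k L + x)`, `θI = slo Y (L b) k`,
`N = cnt C (L b) k = ∑ p x` (`r_cnt_split`, cast). If `N = 0`: all `p x = 0`, and `rD = rE = 0`, everything is `0`.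
Otherwise `θI > 0` (`r_slo_pos`). Apply `gibbs` with `a x = √(θ x / θI)`: `a x ≥ 0`; if `p x > 0` then
`θ x > 0` and `a x > 0`. Left side: for `p x > 0`,
`log (√(θ x/θI)) = (log (θ x) - log θI)/2` (`Real.log_sqrt`, `Real.log_div`); for `p x = 0` both terms are `0`; so the
left side is `1/2 ∑ p log θ - 1/2 N log θI`. Right side: the first sum is `rD C L b k` by definition (with
`∑ p = N`), the second is `N * log A`, `A = (1/L) ∑ √(θ x/θI) > 0` (some `p x > 0`), and `log A ≤ A - 1`
(`Real.log_le_sub_one_of_pos`), `N (A - 1) = - rE`.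
-/

namespace Pool.Agent.Lib.HBP

open Finset

private theorem rse_exists (C : Finset ℕ) (L b k : ℕ) (hL : 0 < L) (h : cnt C (L * b) k ≠ 0) :
    ∃ x ∈ range L, cnt C b (k * L + x) ≠ 0 := by
  rw [r_cnt_split C L b k hL] at h
  by_contra hcon
  push Not at hcon
  exact h (Finset.sum_eq_zero hcon)

theorem r_slo_pos (C : Finset ℕ) (Y : ℕ → ℕ) (hY : Monotone Y) (L b k : ℕ) (hL : 0 < L) (hb : 0 < b)
    (hpos : ∀ x < L, cnt C b (k * L + x) ≠ 0 → 0 < slo Y b (k * L + x))
    (h : cnt C (L * b) k ≠ 0) : 0 < slo Y (L * b) k := by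
  obtain ⟨x, hx, hx0⟩ := rse_exists C L b k hL h
  rw [r_slo_split Y L b k hL hb]
  have hL' : (0 : ℝ) < L := by exact_mod_cast hL
  refine mul_pos (one_div_pos.2 hL') ?_
  exact Finset.sum_pos' (fun i _ => r_slo_nonneg Y hY b _) ⟨x, hx, hpos x (mem_range.1 hx) hx0⟩

theorem r_stepE (C : Finset ℕ) (Y : ℕ → ℕ) (hY : Monotone Y) (L b k : ℕ) (hL : 0 < L) (hb : 0 < b)
    (hpos : ∀ x < L, cnt C b (k * L + x) ≠ 0 → 0 < slo Y b (k * L + x)) :
    1 / 2 * ∑ x ∈ range L, (cnt C b (k * L + x) : ℝ) * Real.log (slo Y b (k * L + x)) -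
      1 / 2 * ((cnt C (L * b) k : ℝ) * Real.log (slo Y (L * b) k)) ≤
      rD C L b k - rE C Y L b k := by
  have hL' : (0 : ℝ) < L := by exact_mod_cast hL
  have hsum : ∑ x ∈ range L, (cnt C b (k * L + x) : ℝ) = (cnt C (L * b) k : ℝ) := by
    rw [r_cnt_split C L b k hL]
    push_cast
    rfl
  by_cases hN : cnt C (L * b) k = 0
  · have h0 : ∀ x ∈ range L, cnt C b (k * L + x) = 0 := by
      rw [r_cnt_split C L b k hL] at hN
      exact Finset.sum_eq_zero_iff.1 hN
    have h1 : ∑ x ∈ range L, (cnt C b (k * L + x) : ℝ) * Real.log (slo Y b (k * L + x)) = 0 :=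
      Finset.sum_eq_zero fun x hx => by rw [h0 x hx, Nat.cast_zero, zero_mul]
    have h2 : rD C L b k = 0 := by
      unfold rD
      exact Finset.sum_eq_zero fun x hx => by rw [h0 x hx, Nat.cast_zero, zero_mul]
    have h3 : rE C Y L b k = 0 := by
      unfold rE
      rw [hN, Nat.cast_zero, zero_mul]
    rw [h1, h2, h3, hN, Nat.cast_zero, zero_mul]
    norm_num
  · have hθ : 0 < slo Y (L * b) k := r_slo_pos C Y hY L b k hL hb hpos hN
    have hNpos : (0 : ℝ) < cnt C (L * b) k := by exact_mod_cast Nat.pos_of_ne_zero hN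
    have hg := gibbs L (fun x => (cnt C b (k * L + x) : ℝ))
      (fun x => √(slo Y b (k * L + x) / slo Y (L * b) k)) (fun x _ => Nat.cast_nonneg _)
      (fun x _ => Real.sqrt_nonneg _) (fun x hx h => by
        have h1 : cnt C b (k * L + x) ≠ 0 := by
          intro h0
          rw [h0, Nat.cast_zero] at h
          exact lt_irrefl _ h
        exact Real.sqrt_pos.2 (div_pos (hpos x hx h1) hθ))
    simp only [hsum] at hg
    have hl : ∑ x ∈ range L, (cnt C b (k * L + x) : ℝ) *
        Real.log (√(slo Y b (k * L + x) / slo Y (L * b) k)) =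
        1 / 2 * ∑ x ∈ range L, (cnt C b (k * L + x) : ℝ) * Real.log (slo Y b (k * L + x)) -
          1 / 2 * ((cnt C (L * b) k : ℝ) * Real.log (slo Y (L * b) k)) := by
      rw [← hsum, Finset.sum_mul, Finset.mul_sum, Finset.mul_sum, ← Finset.sum_sub_distrib]
      refine Finset.sum_congr rfl fun x hx => ?_
      by_cases h0 : cnt C b (k * L + x) = 0
      · rw [h0, Nat.cast_zero]
        ring
      · have h1 := hpos x (mem_range.1 hx) h0
        rw [Real.log_sqrt (div_nonneg h1.le hθ.le), Real.log_div h1.ne' hθ.ne']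
        ring
    rw [hl] at hg
    have hD : ∑ x ∈ range L, (cnt C b (k * L + x) : ℝ) *
        Real.log (L * cnt C b (k * L + x) / cnt C (L * b) k) = rD C L b k := rfl
    rw [hD] at hg
    set A := 1 / (L : ℝ) * ∑ x ∈ range L, √(slo Y b (k * L + x) / slo Y (L * b) k) with hA
    have hApos : 0 < A := by
      obtain ⟨x, hx, hx0⟩ := rse_exists C L b k hL hN
      refine mul_pos (one_div_pos.2 hL') ?_
      exact Finset.sum_pos' (fun i _ => Real.sqrt_nonneg _)
        ⟨x, hx, Real.sqrt_pos.2 (div_pos (hpos x (mem_range.1 hx) hx0) hθ)⟩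
    have hlog := Real.log_le_sub_one_of_pos hApos
    have hE : rE C Y L b k = (cnt C (L * b) k : ℝ) * (1 - A) := rfl
    have h5 := mul_le_mul_of_nonneg_left hlog hNpos.le
    rw [hE]
    linarith

end Pool.Agent.Lib.HBP
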