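import Pool.Agent.Lib.HBP.RGibbs

/-!
# HBP, REDUCTION: the label potential of one block

PROOF of `rQ_lip`. With `s = √a`, `t = √b` (`≥ 0`) and `g s = min 1 ((s - 1)^2)`: `|g s - g t| ≤ 2 |s - t|`. Cases:
`s, t ≤ 2`: then `g s = (s-1)^2` (as `|s - 1| ≤ 1`), same for `t`, and `(s-1)^2 - (t-1)^2 = (s - t)(s + t - 2)`,
`|s + t - 2| ≤ 2`. `s, t ≥ 2`: both are `1`. `s ≤ 2 ≤ t` (and symmetric): `g t = 1`,
`0 ≤ 1 - (s-1)^2 = s (2 - s) ≤ 2 (2 - s) ≤ 2 (t - s)`.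

PROOF of `r_stepQ`. `p x = cnt C b (k L + x)`, `θ x = slo Y b (k L + x)`, `θI = slo Y (L b) k`, `y = θI/Λ ∈ [1/4, 4]`,
so `θI > 0`; `N = cnt C (L b) k = ∑ p x` (`r_cnt_split`). `u x = θ x/θI ≥ 0`, `θ x/Λ = y * u x`, `(1/L) ∑ u = 1`
(`r_slo_split`). `e = 1 - (1/L) ∑ √(u x)`, so `rE = N e`. `v x = rQ (y u x) - rQ y`, `|v x| ≤ 1` because
`0 ≤ rQ ≤ 1`.
(i) `(1/L) ∑ v ≤ 4 e`: `rQ (y u) ≤ (√(y u) - 1)^2 = y u - 2 √y √u + 1` (`Real.sqrt_mul`), the mean is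
`y - 2 √y (1 - e) + 1 = (√y - 1)^2 + 2 √y e`, `rQ y = (√y - 1)^2` because `√y ∈ [1/2, 2]` gives `(√y - 1)^2 ≤ 1`, and
`2 √y e ≤ 4 e` because `e ≥ 0` (`√u ≤ (u+1)/2`).
(ii) `(1/L) ∑ v^2 ≤ 32 e`: `|v x| ≤ 2 |√(y u) - √y| = 2 √y |√u - 1| ≤ 4 |√u - 1|` (`rQ_lip`), so
`v^2 ≤ 16 (u - 2 √u + 1)`, mean `16 (1 - 2 (1 - e) + 1) = 32 e`.
(iii) `gibbs` with `a x = exp (v x)`: `∑ p v ≤ rD + N log A`, `A = (1/L) ∑ exp v ≤ 1 + (1/L) ∑ (v + v^2) ≤ 1 + 36 e`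
(`Real.abs_exp_sub_one_sub_id_le : |x| ≤ 1 → |exp x - 1 - x| ≤ x ^ 2`), `A > 0`, `log A ≤ A - 1 ≤ 36 e`
(`Real.log_le_sub_one_of_pos`). Finally `∑ p v = ∑ p rQ(θ x/Λ) - N rQ y`.
-/

namespace Pool.Agent.Lib.HBP

open Finset

theorem rQ_nonneg (y : ℝ) : 0 ≤ rQ y := by
  unfold rQ; positivity

theorem rQ_le_one (y : ℝ) : rQ y ≤ 1 := min_le_left _ _

private theorem rStepQ_g (s t : ℝ) (hs : 0 ≤ s) (h : s ≤ t) :
    |min 1 ((s - 1) ^ 2) - min 1 ((t - 1) ^ 2)| ≤ 2 * (t - s) := by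
  rcases le_total t 2 with h2 | h2
  · have h1 : (s - 1) ^ 2 ≤ 1 := by nlinarith
    have h3 : (t - 1) ^ 2 ≤ 1 := by nlinarith
    rw [min_eq_right h1, min_eq_right h3, abs_le]
    constructor
    · nlinarith [mul_nonneg (sub_nonneg.mpr h) (by linarith : (0 : ℝ) ≤ 4 - (s + t))]
    · nlinarith [mul_nonneg (sub_nonneg.mpr h) (by linarith : (0 : ℝ) ≤ s + t)]
  · have h3 : 1 ≤ (t - 1) ^ 2 := by nlinarith
    rw [min_eq_left h3]
    rcases le_total s 2 with h4 | h4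
    · have h1 : (s - 1) ^ 2 ≤ 1 := by nlinarith
      rw [min_eq_right h1, abs_le]
      constructor
      · nlinarith
      · nlinarith
    · have h1 : 1 ≤ (s - 1) ^ 2 := by nlinarith
      rw [min_eq_left h1, sub_self, abs_zero]
      linarith

theorem rQ_lip (a b : ℝ) : |rQ a - rQ b| ≤ 2 * |√a - √b| := by
  unfold rQ
  rcases le_total (√a) (√b) with h | h
  · rw [abs_sub_comm (√a) (√b), abs_of_nonneg (sub_nonneg.mpr h)]
    exact rStepQ_g _ _ (Real.sqrt_nonneg _) h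
  · rw [abs_of_nonneg (sub_nonneg.mpr h), abs_sub_comm]
    exact rStepQ_g _ _ (Real.sqrt_nonneg _) h

private theorem rStepQ_mean (L : ℕ) (hL : 0 < L) (u : ℕ → ℝ) (hu : ∀ x ∈ range L, 0 ≤ u x)
    (hs : 1 / (L : ℝ) * ∑ x ∈ range L, u x = 1) (y : ℝ) (hy1 : 1 / 4 ≤ y) (hy2 : y ≤ 4) :
    0 ≤ 1 - 1 / (L : ℝ) * ∑ x ∈ range L, √(u x) ∧
    1 / (L : ℝ) * ∑ x ∈ range L, Real.exp (rQ (y * u x) - rQ y) ≤
      1 + 36 * (1 - 1 / (L : ℝ) * ∑ x ∈ range L, √(u x)) := by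
  have hL' : (0 : ℝ) < L := by exact_mod_cast hL
  have hLne : (L : ℝ) ≠ 0 := hL'.ne'
  have hinv : (0 : ℝ) ≤ 1 / L := by positivity
  have hone : 1 / (L : ℝ) * ∑ _x ∈ range L, (1 : ℝ) = 1 := by
    rw [Finset.sum_const, Finset.card_range, nsmul_eq_mul, mul_one]
    field_simp
  have hy0 : 0 ≤ y := by linarith
  set e : ℝ := 1 - 1 / (L : ℝ) * ∑ x ∈ range L, √(u x) with he
  have he0 : 0 ≤ e := by
    have h1 : 1 / (L : ℝ) * ∑ x ∈ range L, √(u x) ≤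
        1 / (L : ℝ) * ∑ x ∈ range L, (1 / 2 * u x + 1 / 2 * 1) := by
      refine mul_le_mul_of_nonneg_left (Finset.sum_le_sum fun x hx => ?_) hinv
      have h2 := Real.sq_sqrt (hu x hx)
      nlinarith [sq_nonneg (√(u x) - 1)]
    rw [Finset.sum_add_distrib, ← Finset.mul_sum, ← Finset.mul_sum] at h1
    have h3 : 1 / (L : ℝ) * (1 / 2 * ∑ x ∈ range L, u x + 1 / 2 * ∑ _x ∈ range L, (1 : ℝ)) =
        1 / 2 * (1 / (L : ℝ) * ∑ x ∈ range L, u x) +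
          1 / 2 * (1 / (L : ℝ) * ∑ _x ∈ range L, (1 : ℝ)) := by ring
    rw [h3, hs, hone] at h1
    rw [he]; linarith
  refine ⟨he0, ?_⟩
  have hsy1 : 1 / 2 ≤ √y := Real.le_sqrt_of_sq_le (by norm_num; linarith)
  have hsy2 : √y ≤ 2 := by
    rw [Real.sqrt_le_left (by norm_num)]
    norm_num; linarith
  have hsyq : √y ^ 2 = y := Real.sq_sqrt hy0
  have hQy : rQ y = (√y - 1) ^ 2 := by
    unfold rQ
    exact min_eq_right (by nlinarith)
  have hexp : ∀ x ∈ range L, Real.exp (rQ (y * u x) - rQ y) ≤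
      1 + (y * u x - 2 * √y * √(u x) + 1 - (√y - 1) ^ 2) + 16 * (u x - 2 * √(u x) + 1) := by
    intro x hx
    have hux := hu x hx
    have hsu : √(u x) ^ 2 = u x := Real.sq_sqrt hux
    have hmul : √(y * u x) = √y * √(u x) := Real.sqrt_mul hy0 _
    set v := rQ (y * u x) - rQ y with hv
    have hv1 : |v| ≤ 1 := by
      rw [abs_le]
      have a1 := rQ_nonneg (y * u x)
      have a2 := rQ_le_one (y * u x)
      have a3 := rQ_nonneg y
      have a4 := rQ_le_one y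
      constructor <;> linarith
    have h1 := Real.abs_exp_sub_one_sub_id_le hv1
    have h2 : Real.exp v ≤ 1 + v + v ^ 2 := by
      have := (abs_le.mp h1).2
      linarith
    have h3 : v ≤ y * u x - 2 * √y * √(u x) + 1 - (√y - 1) ^ 2 := by
      have h4 : rQ (y * u x) ≤ (√(y * u x) - 1) ^ 2 := by unfold rQ; exact min_le_right _ _
      rw [hmul] at h4
      rw [hv, hQy]
      nlinarith
    have h5 : v ^ 2 ≤ 16 * (u x - 2 * √(u x) + 1) := by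
      have h6 := rQ_lip (y * u x) y
      rw [← hv, hmul] at h6
      have h7 : √y * √(u x) - √y = √y * (√(u x) - 1) := by ring
      rw [h7, abs_mul, abs_of_nonneg (Real.sqrt_nonneg y)] at h6
      have h8 : |v| ≤ 4 * |√(u x) - 1| := by
        nlinarith [abs_nonneg (√(u x) - 1)]
      have h9 : |v| ^ 2 ≤ (4 * |√(u x) - 1|) ^ 2 := by
        exact pow_le_pow_left₀ (abs_nonneg _) h8 2
      rw [sq_abs, mul_pow, sq_abs] at h9
      nlinarith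
    linarith
  have hsum := mul_le_mul_of_nonneg_left (Finset.sum_le_sum hexp) hinv
  refine hsum.trans ?_
  have hE : ∑ x ∈ range L, (1 + (y * u x - 2 * √y * √(u x) + 1 - (√y - 1) ^ 2) +
      16 * (u x - 2 * √(u x) + 1)) =
      (y + 16) * ∑ x ∈ range L, u x + (-(2 * √y) - 32) * ∑ x ∈ range L, √(u x) +
        (18 - (√y - 1) ^ 2) * ∑ _x ∈ range L, (1 : ℝ) := by
    rw [Finset.mul_sum, Finset.mul_sum, Finset.mul_sum, ← Finset.sum_add_distrib,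
      ← Finset.sum_add_distrib]
    exact Finset.sum_congr rfl fun x _ => by ring
  rw [hE]
  have hR : 1 / (L : ℝ) * ((y + 16) * ∑ x ∈ range L, u x +
      (-(2 * √y) - 32) * ∑ x ∈ range L, √(u x) +
        (18 - (√y - 1) ^ 2) * ∑ _x ∈ range L, (1 : ℝ)) =
      (y + 16) * (1 / (L : ℝ) * ∑ x ∈ range L, u x) +
      (-(2 * √y) - 32) * (1 / (L : ℝ) * ∑ x ∈ range L, √(u x)) +
        (18 - (√y - 1) ^ 2) * (1 / (L : ℝ) * ∑ _x ∈ range L, (1 : ℝ)) := by ring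
  rw [hR, hs, hone]
  have hm : 1 / (L : ℝ) * ∑ x ∈ range L, √(u x) = 1 - e := by rw [he]; ring
  rw [hm]
  nlinarith

theorem r_stepQ (C : Finset ℕ) (Y : ℕ → ℕ) (hY : Monotone Y) (L b k : ℕ) (hL : 0 < L) (hb : 0 < b)
    (Λ : ℝ) (hΛ : 0 < Λ)
    (h1 : 1 / 4 ≤ slo Y (L * b) k / Λ) (h2 : slo Y (L * b) k / Λ ≤ 4) :
    ∑ x ∈ range L, (cnt C b (k * L + x) : ℝ) * rQ (slo Y b (k * L + x) / Λ) -
      (cnt C (L * b) k : ℝ) * rQ (slo Y (L * b) k / Λ) ≤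
      rD C L b k + 36 * rE C Y L b k := by
  have hL' : (0 : ℝ) < L := by exact_mod_cast hL
  set θ : ℝ := slo Y (L * b) k with hθ
  have hθpos : 0 < θ := by
    have h3 : 0 < θ / Λ := by linarith
    have h4 := mul_pos h3 hΛ
    rwa [div_mul_cancel₀ _ hΛ.ne'] at h4
  have hu : ∀ x ∈ range L, 0 ≤ slo Y b (k * L + x) / θ := fun x _ =>
    div_nonneg (r_slo_nonneg Y hY _ _) hθpos.le
  have hs : 1 / (L : ℝ) * ∑ x ∈ range L, slo Y b (k * L + x) / θ = 1 := by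
    rw [← Finset.sum_div, ← mul_div_assoc, ← r_slo_split Y L b k hL hb, ← hθ]
    exact div_self hθpos.ne'
  obtain ⟨he0, hA⟩ := rStepQ_mean L hL (fun x => slo Y b (k * L + x) / θ) hu hs (θ / Λ) h1 h2
  have hyu : ∀ x, θ / Λ * (slo Y b (k * L + x) / θ) = slo Y b (k * L + x) / Λ := by
    intro x
    field_simp
  simp only [hyu] at hA
  have hN : (cnt C (L * b) k : ℝ) = ∑ x ∈ range L, (cnt C b (k * L + x) : ℝ) := by
    rw [r_cnt_split C L b k hL]; push_cast; rfl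
  have hG := gibbs L (fun x => (cnt C b (k * L + x) : ℝ))
    (fun x => Real.exp (rQ (slo Y b (k * L + x) / Λ) - rQ (θ / Λ)))
    (fun x _ => Nat.cast_nonneg _) (fun x _ => (Real.exp_pos _).le)
    (fun x _ _ => Real.exp_pos _)
  simp only [Real.log_exp] at hG
  rw [← hN] at hG
  have hD : ∑ x ∈ range L, (cnt C b (k * L + x) : ℝ) *
      Real.log (L * cnt C b (k * L + x) / cnt C (L * b) k) = rD C L b k := rfl
  rw [hD] at hG
  have hApos : 0 < 1 / (L : ℝ) * ∑ x ∈ range L,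
      Real.exp (rQ (slo Y b (k * L + x) / Λ) - rQ (θ / Λ)) := by
    refine mul_pos (by positivity) (Finset.sum_pos (fun x _ => Real.exp_pos _) ?_)
    exact Finset.nonempty_range_iff.mpr hL.ne'
  have hlog := Real.log_le_sub_one_of_pos hApos
  have hN0 : (0 : ℝ) ≤ cnt C (L * b) k := Nat.cast_nonneg _
  have hE : rE C Y L b k = (cnt C (L * b) k : ℝ) *
      (1 - 1 / L * ∑ x ∈ range L, √(slo Y b (k * L + x) / θ)) := rfl
  have hfin : (cnt C (L * b) k : ℝ) * Real.log (1 / (L : ℝ) * ∑ x ∈ range L,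
      Real.exp (rQ (slo Y b (k * L + x) / Λ) - rQ (θ / Λ))) ≤ 36 * rE C Y L b k := by
    rw [hE]
    calc (cnt C (L * b) k : ℝ) * Real.log (1 / (L : ℝ) * ∑ x ∈ range L,
        Real.exp (rQ (slo Y b (k * L + x) / Λ) - rQ (θ / Λ)))
        ≤ (cnt C (L * b) k : ℝ) *
          (36 * (1 - 1 / L * ∑ x ∈ range L, √(slo Y b (k * L + x) / θ))) :=
          mul_le_mul_of_nonneg_left (by linarith) hN0
      _ = _ := by ring
  have hsplit : ∑ x ∈ range L, (cnt C b (k * L + x) : ℝ) *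
      (rQ (slo Y b (k * L + x) / Λ) - rQ (θ / Λ)) =
      ∑ x ∈ range L, (cnt C b (k * L + x) : ℝ) * rQ (slo Y b (k * L + x) / Λ) -
      (cnt C (L * b) k : ℝ) * rQ (θ / Λ) := by
    rw [hN, Finset.sum_mul, ← Finset.sum_sub_distrib]
    exact Finset.sum_congr rfl fun x _ => by ring
  rw [hsplit] at hG
  linarith

end Pool.Agent.Lib.HBP
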