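import Pool.Agent.Lib.HBP.RStepE

/-!
# HBP, REDUCTION: the deficits and the energies of one level (sums of the one-block inequalities)

PROOF of `r_sumD`. `r_sum_blocks` (for `S = b`, `N * L` blocks, and for `S = L b`, `N` blocks; `g k = log (cnt C S k / S)`) turns
`rX C b`, `rX C (L b)` into `∑ cnt * log (cnt/S)` over the blocks, `r_sum_split` splits the first sum. For one block `k`, with
`n = cnt C (L b) k = ∑ n_x` (`r_cnt_split`): `rD C L b k = ∑_x n_x log (L n_x / n)`; for `n_x > 0` (then `n > 0`):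
`log (L n_x/n) = log (n_x/b) - log (n/(L b))` (`Real.log_div`, `Real.log_mul`, all arguments nonzero); for `n_x = 0` all terms
times `n_x` are `0`. Sum over `x`: `∑ n_x log (n_x/b) - n log (n/(L b))`.

PROOF of `rX_nonpos`: termwise, `cnt ≤ S` (`r_cnt_le`), so `log (cnt/S) ≤ 0` (`Real.log_nonpos`).

PROOF of `rX_top`: all `q / S = 0` (`q < S`), `cnt C S 0 = card C`.

PROOF of `r_sumE`: `r_sum_blocks` for `rY C Y b` and `rY C Y (L b)`, `r_sum_split`, sum over `k < N` of `r_stepE`; the hypothesis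
`hpos` of `r_stepE` from `r_exists_of_cnt`.
-/

namespace Pool.Agent.Lib.HBP

open Finset

private theorem rsume_rX (C : Finset ℕ) (N S : ℕ) (hS : 0 < S) (hC : ∀ q ∈ C, q < N * S) :
    rX C S = ∑ k ∈ range N, (cnt C S k : ℝ) * Real.log ((cnt C S k : ℝ) / S) := by
  unfold rX
  exact r_sum_blocks C N S hS hC (fun k => Real.log ((cnt C S k : ℝ) / S))

private theorem rsume_rY (C : Finset ℕ) (Y : ℕ → ℕ) (N S : ℕ) (hS : 0 < S)
    (hC : ∀ q ∈ C, q < N * S) :
    rY C Y S = ∑ k ∈ range N, (cnt C S k : ℝ) * Real.log (slo Y S k) := by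
  unfold rY
  exact r_sum_blocks C N S hS hC (fun k => Real.log (slo Y S k))

theorem r_sumD (C : Finset ℕ) (N L b : ℕ) (hL : 0 < L) (hb : 0 < b)
    (hC : ∀ q ∈ C, q < N * (L * b)) :
    ∑ k ∈ range N, rD C L b k = rX C b - rX C (L * b) := by
  have hLb : 0 < L * b := Nat.mul_pos hL hb
  have hC' : ∀ q ∈ C, q < N * L * b := fun q hq => by rw [mul_assoc]; exact hC q hq
  rw [rsume_rX C (N * L) b hb hC', rsume_rX C N (L * b) hLb hC,
    r_sum_split N L (fun k => (cnt C b k : ℝ) * Real.log ((cnt C b k : ℝ) / b)),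
    ← Finset.sum_sub_distrib]
  refine Finset.sum_congr rfl fun k _ => ?_
  have hsum : (cnt C (L * b) k : ℝ) = ∑ x ∈ range L, (cnt C b (k * L + x) : ℝ) := by
    rw [r_cnt_split C L b k hL]
    push_cast
    rfl
  have hR : (cnt C (L * b) k : ℝ) * Real.log ((cnt C (L * b) k : ℝ) / ((L * b : ℕ) : ℝ)) =
      ∑ x ∈ range L, (cnt C b (k * L + x) : ℝ) *
        Real.log ((cnt C (L * b) k : ℝ) / ((L * b : ℕ) : ℝ)) := by
    rw [← Finset.sum_mul, ← hsum]
  rw [hR, ← Finset.sum_sub_distrib]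
  unfold rD
  refine Finset.sum_congr rfl fun x hx => ?_
  by_cases h0 : cnt C b (k * L + x) = 0
  · rw [h0, Nat.cast_zero, zero_mul, zero_mul, zero_mul, sub_zero]
  · have hle : cnt C b (k * L + x) ≤ cnt C (L * b) k := by
      rw [r_cnt_split C L b k hL]
      exact Finset.single_le_sum (f := fun x => cnt C b (k * L + x)) (fun _ _ => Nat.zero_le _) hx
    have hn : cnt C (L * b) k ≠ 0 := by omega
    have e1 : ((cnt C b (k * L + x) : ℕ) : ℝ) ≠ 0 := Nat.cast_ne_zero.2 h0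
    have e2 : ((cnt C (L * b) k : ℕ) : ℝ) ≠ 0 := Nat.cast_ne_zero.2 hn
    have e3 : (L : ℝ) ≠ 0 := Nat.cast_ne_zero.2 hL.ne'
    have e4 : (b : ℝ) ≠ 0 := Nat.cast_ne_zero.2 hb.ne'
    rw [Nat.cast_mul, Real.log_div (mul_ne_zero e3 e1) e2, Real.log_div e1 e4,
      Real.log_div e2 (mul_ne_zero e3 e4), Real.log_mul e3 e1, Real.log_mul e3 e4]
    ring

theorem rX_nonpos (C : Finset ℕ) (S : ℕ) (hS : 0 < S) : rX C S ≤ 0 := by
  unfold rX
  refine Finset.sum_nonpos fun q _ => ?_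
  have hS' : (0 : ℝ) < S := Nat.cast_pos.2 hS
  refine Real.log_nonpos (div_nonneg (Nat.cast_nonneg _) hS'.le) ?_
  rw [div_le_one hS']
  exact Nat.cast_le.2 (r_cnt_le C S (q / S) hS)

theorem rX_top (C : Finset ℕ) (S : ℕ) (hC : ∀ q ∈ C, q < S) :
    rX C S = (C.card : ℝ) * Real.log ((C.card : ℝ) / S) := by
  have hcnt : cnt C S 0 = C.card := by
    unfold cnt
    congr 1
    exact Finset.filter_true_of_mem fun q hq => Nat.div_eq_of_lt (hC q hq)
  unfold rX
  rw [Finset.sum_congr rfl (g := fun _ => Real.log ((C.card : ℝ) / S)), Finset.sum_const,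
    nsmul_eq_mul]
  intro q hq
  rw [Nat.div_eq_of_lt (hC q hq), hcnt]

theorem r_sumE (C : Finset ℕ) (Y : ℕ → ℕ) (hY : Monotone Y) (N L b : ℕ) (hL : 0 < L) (hb : 0 < b)
    (hC : ∀ q ∈ C, q < N * (L * b)) (hpos : ∀ q ∈ C, 0 < slo Y b (q / b)) :
    1 / 2 * (rY C Y b - rY C Y (L * b)) ≤
      ∑ k ∈ range N, rD C L b k - ∑ k ∈ range N, rE C Y L b k := by
  have hLb : 0 < L * b := Nat.mul_pos hL hb
  have hC' : ∀ q ∈ C, q < N * L * b := fun q hq => by rw [mul_assoc]; exact hC q hq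
  rw [rsume_rY C Y (N * L) b hb hC', rsume_rY C Y N (L * b) hLb hC,
    r_sum_split N L (fun k => (cnt C b k : ℝ) * Real.log (slo Y b k)),
    ← Finset.sum_sub_distrib, ← Finset.sum_sub_distrib, Finset.mul_sum]
  refine Finset.sum_le_sum fun k _ => ?_
  have h := r_stepE C Y hY L b k hL hb (fun x _ h0 => by
    obtain ⟨q, hq, hqk⟩ := r_exists_of_cnt C b (k * L + x) h0
    rw [← hqk]
    exact hpos q hq)
  linarith

end Pool.Agent.Lib.HBP
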