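import Mathlib

/-!
MODULE SgAbs: a permutation from disjoint columns.

PROOF.  The values `α i`, `β i` (`i ∈ I`) are pairwise distinct numbers `< L`.  Define `σ (α i) = β i`,
`σ (β i) = α (ρ i)`, `σ x = x` for the other `x` (with `Classical.choose`, or with `Function.extend` / `if`).
`σ` maps the set `X = α(I) ∪ β(I)` bijectively onto itself (`ρ` is a bijection of `I`) and is the identity
outside, so it is injective and maps numbers `< L` to numbers `< L`.
SUM: split `range L` into `α(I)`, `β(I)` (disjoint, `sum_image` with injectivity) and the rest; on the rest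
`F x (σ x) = F x x`.
-/

namespace Pool.Agent.Lib.HBP

open Finset

theorem sg_abs {ι : Type*} [DecidableEq ι] (I : Finset ι) (α β : ι → ℕ) (ρ : ι → ι) (L : ℕ)
    (hρ : ∀ i ∈ I, ρ i ∈ I) (hρi : Set.InjOn ρ I) (hα : Set.InjOn α I) (hβ : Set.InjOn β I)
    (hαβ : ∀ i ∈ I, ∀ j ∈ I, α i ≠ β j) (hαL : ∀ i ∈ I, α i < L) (hβL : ∀ i ∈ I, β i < L) :
    ∃ σ : ℕ → ℕ, (∀ x < L, σ x < L) ∧ Set.InjOn σ (Set.Iio L) ∧
      ∀ F : ℕ → ℕ → ℝ, ∑ x ∈ range L, F x (σ x) = ∑ x ∈ range L, F x x +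
        ∑ i ∈ I, (F (α i) (β i) + F (β i) (α (ρ i)) - F (α i) (α i) - F (β i) (β i)) := by
  classical
  set σ : ℕ → ℕ := fun x => if h : ∃ i ∈ I, α i = x then β h.choose else
    if h : ∃ i ∈ I, β i = x then α (ρ h.choose) else x with hσ
  have s1 : ∀ i ∈ I, σ (α i) = β i := by
    intro i hi
    have h : ∃ j ∈ I, α j = α i := ⟨i, hi, rfl⟩
    rw [hσ]
    simp only
    rw [dif_pos h]
    congr 1
    exact hα h.choose_spec.1 hi h.choose_spec.2
  have s2 : ∀ i ∈ I, σ (β i) = α (ρ i) := by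
    intro i hi
    have h0 : ¬ ∃ j ∈ I, α j = β i := by
      rintro ⟨j, hj, h⟩
      exact hαβ j hj i hi h
    have h : ∃ j ∈ I, β j = β i := ⟨i, hi, rfl⟩
    rw [hσ]
    simp only
    rw [dif_neg h0, dif_pos h]
    congr 2
    exact hβ h.choose_spec.1 hi h.choose_spec.2
  have s3 : ∀ x, (¬ ∃ i ∈ I, α i = x) → (¬ ∃ i ∈ I, β i = x) → σ x = x := by
    intro x h1 h2
    rw [hσ]
    simp only
    rw [dif_neg h1, dif_neg h2]
  have hcase : ∀ x, (∃ i ∈ I, α i = x) ∨ (∃ i ∈ I, β i = x) ∨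
      ((¬ ∃ i ∈ I, α i = x) ∧ (¬ ∃ i ∈ I, β i = x)) := by
    intro x
    by_cases h1 : ∃ i ∈ I, α i = x
    · exact Or.inl h1
    · by_cases h2 : ∃ i ∈ I, β i = x
      · exact Or.inr (Or.inl h2)
      · exact Or.inr (Or.inr ⟨h1, h2⟩)
  clear_value σ
  refine ⟨σ, ?_, ?_, ?_⟩
  · intro x hx
    rcases hcase x with ⟨i, hi, rfl⟩ | ⟨i, hi, rfl⟩ | ⟨h1, h2⟩
    · rw [s1 i hi]
      exact hβL i hi
    · rw [s2 i hi]
      exact hαL _ (hρ i hi)
    · rw [s3 x h1 h2]
      exact hx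
  · intro x _ y _ hxy
    rcases hcase x with ⟨i, hi, rfl⟩ | ⟨i, hi, rfl⟩ | ⟨h1, h2⟩
    · rw [s1 i hi] at hxy
      rcases hcase y with ⟨j, hj, rfl⟩ | ⟨j, hj, rfl⟩ | ⟨h3, h4⟩
      · rw [s1 j hj] at hxy
        rw [hβ hi hj hxy]
      · rw [s2 j hj] at hxy
        exact absurd hxy.symm (hαβ _ (hρ j hj) i hi)
      · rw [s3 y h3 h4] at hxy
        exact absurd ⟨i, hi, hxy⟩ h4
    · rw [s2 i hi] at hxy
      rcases hcase y with ⟨j, hj, rfl⟩ | ⟨j, hj, rfl⟩ | ⟨h3, h4⟩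
      · rw [s1 j hj] at hxy
        exact absurd hxy (hαβ _ (hρ i hi) j hj)
      · rw [s2 j hj] at hxy
        rw [hρi hi hj (hα (hρ i hi) (hρ j hj) hxy)]
      · rw [s3 y h3 h4] at hxy
        exact absurd ⟨ρ i, hρ i hi, hxy⟩ h3
    · rw [s3 x h1 h2] at hxy
      rcases hcase y with ⟨j, hj, rfl⟩ | ⟨j, hj, rfl⟩ | ⟨h3, h4⟩
      · rw [s1 j hj] at hxy
        exact absurd ⟨j, hj, hxy.symm⟩ h2
      · rw [s2 j hj] at hxy
        exact absurd ⟨ρ j, hρ j hj, hxy.symm⟩ h1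
      · rw [s3 y h3 h4] at hxy
        exact hxy
  · intro F
    have hX : I.image α ∪ I.image β ⊆ range L := by
      intro x hx
      rw [Finset.mem_union, Finset.mem_image, Finset.mem_image] at hx
      rw [Finset.mem_range]
      rcases hx with ⟨i, hi, rfl⟩ | ⟨i, hi, rfl⟩
      · exact hαL i hi
      · exact hβL i hi
    have hdisj : Disjoint (I.image α) (I.image β) := by
      rw [Finset.disjoint_left]
      intro x hx hx'
      obtain ⟨i, hi, rfl⟩ := Finset.mem_image.1 hx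
      obtain ⟨j, hj, h⟩ := Finset.mem_image.1 hx'
      exact hαβ i hi j hj h.symm
    have h1 : ∑ x ∈ range L, (F x (σ x) - F x x) =
        ∑ i ∈ I, (F (α i) (β i) - F (α i) (α i)) +
          ∑ i ∈ I, (F (β i) (α (ρ i)) - F (β i) (β i)) := by
      rw [← Finset.sum_subset hX, Finset.sum_union hdisj, Finset.sum_image hα,
        Finset.sum_image hβ]
      · congr 1
        · exact Finset.sum_congr rfl fun i hi => by rw [s1 i hi]
        · exact Finset.sum_congr rfl fun i hi => by rw [s2 i hi]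
      · intro x _ hx
        rw [Finset.mem_union, Finset.mem_image, Finset.mem_image, not_or] at hx
        rw [s3 x hx.1 hx.2, sub_self]
    rw [Finset.sum_sub_distrib] at h1
    have h2 : ∑ i ∈ I, (F (α i) (β i) + F (β i) (α (ρ i)) - F (α i) (α i) - F (β i) (β i)) =
        ∑ i ∈ I, (F (α i) (β i) - F (α i) (α i)) +
          ∑ i ∈ I, (F (β i) (α (ρ i)) - F (β i) (β i)) := by
      rw [← Finset.sum_add_distrib]
      exact Finset.sum_congr rfl fun i _ => by ring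
    rw [h2, ← h1]
    ring

end Pool.Agent.Lib.HBP
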